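import Pool.Agent.P.MP_2b44f0_gt.PD.If

/-! Step ALG. -/

namespace Pool.Agent.P.MP_2b44f0_gt.PD

open MeasureTheory Set Filter Asymptotics
open scoped ENNReal RealInnerProductSpace Topology

namespace ALGx

theorem term (η R s a o u : ℝ) (hη : 0 < η) (hR : 0 ≤ R) (ho : o ^ 2 ≤ 2 * s)
    (h1 : -(η / 2) ≤ a) (h2 : a < 0 → 4 * (a * o) ^ 2 ≤ R * η) :
    4 * (a * o) * u - 2 * (a + η) * u ^ 2 ≤ 2 * s * (|a| - a) + 2 * a * o ^ 2 + R := by
  rcases le_or_gt 0 a with h | h
  · rw [abs_of_nonneg h]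
    nlinarith [mul_nonneg h (sq_nonneg (o - u)), mul_nonneg hη.le (sq_nonneg u)]
  · rw [abs_of_neg h]
    have a1 : 4 * (a * o) * u - η * u ^ 2 ≤ R := by
      refine le_of_mul_le_mul_right ?_ hη
      nlinarith [h2 h, sq_nonneg (2 * (a * o) - η * u)]
    have a2 : 0 ≤ (a + η / 2) * u ^ 2 := mul_nonneg (by linarith) (sq_nonneg u)
    have a3 : 0 ≤ -a * (2 * s - o ^ 2) := mul_nonneg (by linarith) (by linarith)
    nlinarith

end ALGx

theorem c_ALG :
    Q_ALG := by
  intro n K η hη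
  rcases le_or_gt K 0 with hK | hK
  · refine ⟨1, one_pos, fun ε D S a w u h1 _ h3 h4 => ?_⟩
    exfalso
    have : K * D ^ 3 ≤ 0 := mul_nonpos_of_nonpos_of_nonneg hK (by positivity)
    nlinarith
  have n0 : (0 : ℝ) ≤ n := Nat.cast_nonneg n
  set A : ℝ := n * (4 * K + 8 * K ^ 2 / η) + (n + K) with hA
  have A0 : 0 < A := by positivity
  set τ : ℝ := min 1 (η / A) with hτ
  have τ0 : 0 < τ := lt_min one_pos (by positivity)
  have τ1 : τ ≤ 1 := min_le_left _ _
  have τ2 : τ * A ≤ η := by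
    rw [← le_div_iff₀ A0]; exact min_le_right _ _
  refine ⟨min (τ ^ 3 / K) ((η / (2 * K)) ^ 2), lt_min (by positivity) (by positivity), ?_⟩
  intro ε D S a w u h1 h2 h3 h4 h5 h6 h7 h8
  have e1 : ε * K ≤ τ ^ 3 := by
    rw [← le_div_iff₀ hK]; exact h2.trans (min_le_left _ _)
  have e2 : K * √ε ≤ η / 2 := by
    have : √ε ≤ η / (2 * K) := by
      rw [Real.sqrt_le_left (by positivity)]
      exact h2.trans (min_le_right _ _)
    refine (mul_le_mul_of_nonneg_left this hK.le).trans (le_of_eq ?_)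
    field_simp
  have t0 : 0 < ε / D := by positivity
  have t1 : ε / D ≤ τ := by
    refine le_of_pow_le_pow_left₀ (n := 3) (by norm_num) τ0.le (le_trans ?_ e1)
    rw [div_pow, div_le_iff₀ (by positivity)]
    nlinarith [mul_le_mul_of_nonneg_left h4 h1.le]
  have key : ∀ i, 4 * (a i * w i / D) * u i - 2 * (a i + η) * u i ^ 2 ≤
      (2 / D * (|a i| - a i) + 2 * a i * (w i / D) ^ 2 - 4 * ε ^ 2 / D ^ 2 * |a i|) +
        τ * (4 * K + 8 * K ^ 2 / η) := by
    intro i
    have o1 : (w i / D) ^ 2 ≤ 2 * (1 / D) := by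
      rw [div_pow, div_le_iff₀ (by positivity)]
      refine (h8 i).trans (le_of_eq ?_)
      field_simp
    have b := ALGx.term η (τ * (8 * K ^ 2 / η)) (1 / D) (a i) (w i / D) (u i) hη (by positivity) o1
      (by linarith [h7 i]) (fun ha => by
        have c1 : a i ^ 2 ≤ K ^ 2 * ε := by
          have c2 : (-a i) ^ 2 ≤ (K * √ε) ^ 2 :=
            pow_le_pow_left₀ (by linarith) (by linarith [h7 i]) 2
          rw [mul_pow, Real.sq_sqrt h1.le] at c2
          linarith
        calc 4 * (a i * (w i / D)) ^ 2 = 4 * (a i ^ 2 * (w i / D) ^ 2) := by ring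
          _ ≤ 4 * (K ^ 2 * ε * (2 * (1 / D))) := by gcongr
          _ = 8 * K ^ 2 * (ε / D) := by ring
          _ ≤ 8 * K ^ 2 * τ := by gcongr
          _ = τ * (8 * K ^ 2 / η) * η := by field_simp)
    have c3 : 4 * ε ^ 2 / D ^ 2 * |a i| ≤ τ * (4 * K) := by
      calc 4 * ε ^ 2 / D ^ 2 * |a i| = 4 * ((ε / D) * (ε / D)) * |a i| := by ring
        _ ≤ 4 * (τ * 1) * K := by gcongr; exacts [t1.trans τ1, h6 i]
        _ = τ * (4 * K) := by ring
    have c4 : a i * w i / D = a i * (w i / D) := by ring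
    have c5 : 2 / D = 2 * (1 / D) := by ring
    rw [c4, c5]
    linarith
  have s1 := Finset.sum_le_sum (s := Finset.univ) fun i _ => key i
  rw [Finset.sum_add_distrib (g := fun _ => τ * (4 * K + 8 * K ^ 2 / η)), Finset.sum_const,
    Finset.card_univ, Fintype.card_fin, nsmul_eq_mul] at s1
  have s2 : (n + S) * ε / D ≤ τ * (n + K) := by
    calc (n + S) * ε / D = ε / D * (n + S) := by ring
      _ ≤ ε / D * (n + K) := by gcongr; exact (le_abs_self S).trans h5
      _ ≤ τ * (n + K) := by gcongr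
  have s3 : τ * A = n * (τ * (4 * K + 8 * K ^ 2 / η)) + τ * (n + K) := by rw [hA]; ring
  linarith

end Pool.Agent.P.MP_2b44f0_gt.PD
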