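import Pool.Agent.P.MP_2b44f0_gt.PD.If

/-! Step BALL2. -/

namespace Pool.Agent.P.MP_2b44f0_gt.PD

open MeasureTheory Set Filter Asymptotics
open scoped ENNReal NNReal RealInnerProductSpace Topology Pointwise

namespace BALL2x

variable {ι : Type} [Fintype ι]

/-- the growth bound -/
def Gr (d : ℕ) (s : Set (E ι)) : Prop := ∃ K : ℝ≥0∞, K ≠ ∞ ∧ ∀ (x : E ι) (ρ : ℝ), 0 < ρ →
  μHE[d] (s ∩ Metric.ball x ρ) ≤ K * ENNReal.ofReal (ρ ^ d)

theorem proj_le {F : E ι → ℝ} {y : E ι} (h : ‖normal F y‖ = 1) (u : E ι) :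
    ‖tangentProj F y u‖ ≤ ‖u‖ := by
  refine abs_le_of_sq_le_sq' ?_ (norm_nonneg _) |>.2
  rw [Foot.tangentProj_apply, norm_sub_sq_real, inner_smul_right, norm_smul, h, mul_one,
    Real.norm_eq_abs, sq_abs, real_inner_comm]
  nlinarith [sq_nonneg ⟪normal F y, u⟫]

theorem loc {d : ℕ} {C U : Set (E ι)} {F : E ι → ℝ} (hd : Fintype.card ι = d + 1)
    (hc : IsChart C U F) {x₀ : E ι} (hx₀ : x₀ ∈ U ∩ C) :
    ∃ V, IsOpen V ∧ x₀ ∈ V ∧ Gr d (C ∩ V) := by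
  obtain ⟨V, O, y, hVo, hxV, -, -, -, ha, -, -, hlip, -⟩ :=
    Foot.exists_foot all_shape hc hx₀ (η := 2) (by norm_num)
  have hn₀ : ‖normal F x₀‖ = 1 := ((all_shape ι C U F hc).2.2 x₀ hx₀.1).1
  set ν₀ := normal F x₀ with hν₀
  set P := tangentProj F x₀ with hP
  have hPi : ∀ v, P v ∈ (ℝ ∙ ν₀)ᗮ := fun v =>
    Submodule.mem_orthogonal_singleton_iff_inner_right.2 (Foot.inner_tangentProj hn₀ v)
  have hrank : Module.finrank ℝ (ℝ ∙ ν₀)ᗮ = d := by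
    have h1 := (ℝ ∙ ν₀).finrank_add_finrank_orthogonal
    rw [finrank_span_singleton (by rintro h; simp [h] at hn₀), finrank_euclideanSpace, hd] at h1
    omega
  refine ⟨V, hVo, hxV, ((2 : ℝ≥0) : ℝ≥0∞) ^ d * volume (Metric.ball (0 : (ℝ ∙ ν₀)ᗮ) 1),
    ENNReal.mul_ne_top (ENNReal.pow_ne_top ENNReal.coe_ne_top) measure_ball_lt_top.ne,
    fun x ρ hρ => ?_⟩
  have hlip' : LipschitzOnWith 2 y (P '' (C ∩ V ∩ Metric.ball x ρ)) := by
    refine LipschitzOnWith.of_dist_le_mul ?_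
    rintro _ ⟨z, hz, rfl⟩ _ ⟨z', hz', rfl⟩
    rw [(ha z hz.1).2, (ha z' hz'.1).2]
    exact hlip z hz.1 z' hz'.1
  have h1 : P '' (C ∩ V ∩ Metric.ball x ρ) ⊆
      Subtype.val '' Metric.ball (⟨P x, hPi x⟩ : (ℝ ∙ ν₀)ᗮ) ρ := by
    rintro _ ⟨z, hz, rfl⟩
    refine ⟨⟨P z, hPi z⟩, ?_, rfl⟩
    rw [Metric.mem_ball, Subtype.dist_eq, dist_eq_norm, ← map_sub]
    exact (proj_le hn₀ _).trans_lt (mem_ball_iff_norm.1 hz.2)
  calc μHE[d] (C ∩ V ∩ Metric.ball x ρ)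
      ≤ μHE[d] (y '' (P '' (C ∩ V ∩ Metric.ball x ρ))) :=
        measure_mono fun z hz => ⟨P z, ⟨z, hz, rfl⟩, (ha z hz.1).2⟩
    _ ≤ ((2 : ℝ≥0) : ℝ≥0∞) ^ d * μHE[d] (P '' (C ∩ V ∩ Metric.ball x ρ)) := Tube.image_le hlip' d
    _ ≤ ((2 : ℝ≥0) : ℝ≥0∞) ^ d *
        μHE[d] (Subtype.val '' Metric.ball (⟨P x, hPi x⟩ : (ℝ ∙ ν₀)ᗮ) ρ) := by gcongr
    _ = _ := by
        rw [isometry_subtype_coe.euclideanHausdorffMeasure_image, ← hrank,
          InnerProductSpace.euclideanHausdorffMeasure_eq_volume,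
          Measure.addHaar_ball_of_pos _ _ hρ]
        ring

theorem comp {d : ℕ} {C U A : Set (E ι)} {F : E ι → ℝ} (hd : Fintype.card ι = d + 1)
    (hc : IsChart C U F) (hA : IsCompact A) (h : A ⊆ U ∩ C) : Gr d A := by
  refine hA.induction_on (p := Gr d) ⟨0, ENNReal.zero_ne_top, fun x ρ _ => by simp⟩
    (fun s t hst ⟨K, hK, ht⟩ => ⟨K, hK, fun x ρ hρ =>
      (measure_mono (inter_subset_inter_left _ hst)).trans (ht x ρ hρ)⟩)
    (fun s t ⟨K, hK, hs⟩ ⟨L, hL, ht⟩ => ⟨K + L, ENNReal.add_ne_top.2 ⟨hK, hL⟩, fun x ρ hρ => ?_⟩)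
    fun x hx => ?_
  · rw [union_inter_distrib_right, add_mul]
    exact (measure_union_le _ _).trans (add_le_add (hs x ρ hρ) (ht x ρ hρ))
  · obtain ⟨V, hV, hxV, hG⟩ := loc hd hc (h hx)
    exact ⟨C ∩ V, inter_mem (mem_of_superset self_mem_nhdsWithin fun z hz => (h hz).2)
      (mem_nhdsWithin_of_mem_nhds (hV.mem_nhds hxV)), hG⟩

theorem scale (d : ℕ) {r : ℝ} (hr : 0 < r) (s : Set (E ι)) :
    μHE[d] (r • s) = ENNReal.ofReal (r ^ d) * μHE[d] s := by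
  rw [Measure.euclideanHausdorffMeasure_smul₀ d hr.ne', ENNReal.smul_def, smul_eq_mul,
    ENNReal.coe_pow, ENNReal.ofReal_pow hr.le, ← enorm_eq_nnnorm, Real.enorm_eq_ofReal hr.le]

end BALL2x

open BALL2x in
theorem c_BALL2 :
    Q_BALL2 := by
  intro ι _ n C U F h
  set A : Set (E ι) := C ∩ {y | 1 / 2 ≤ ‖y‖} ∩ Metric.closedBall 0 2 with hA
  have hAc : IsCompact A := (isCompact_closedBall 0 2).inter_left
    (h.closed.inter (isClosed_le continuous_const continuous_norm))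
  obtain ⟨K, hK, hG⟩ := comp (d := n + 1) h.card h.chart hAc fun y hy =>
    ⟨h.cover y hy.1.1 (by
      rintro rfl
      have : (1 : ℝ) / 2 ≤ ‖(0 : E ι)‖ := hy.1.2
      norm_num at this), hy.1.1⟩
  have ha : μHE[n + 1] A ≠ ∞ := by
    refine ne_top_of_le_ne_top (ENNReal.mul_ne_top hK ENNReal.ofReal_ne_top)
      (le_trans (measure_mono ?_) (hG 0 3 (by norm_num)))
    exact fun y hy => ⟨hy, Metric.closedBall_subset_ball (by norm_num) hy.2⟩
  have h0 : μHE[n + 1] ({0} : Set (E ι)) = 0 := by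
    have := Measure.nullSingletonClass_hausdorff (E ι) (d := (n + 1 : ℕ)) (by positivity)
    rw [Measure.euclideanHausdorffMeasure_def, Measure.smul_apply, measure_singleton, smul_zero]
  have hb : μHE[n + 1] (C ∩ Metric.ball 0 1) ≠ ∞ := by
    have h1 : (C ∩ Metric.ball 0 1) \ {0} ⊆ ⋃ k : ℕ, ((1 / 2 : ℝ) ^ k) • A := by
      rintro y ⟨⟨hy, hy1⟩, hy0⟩
      have hp : 0 < ‖y‖ := norm_pos_iff.2 hy0
      obtain ⟨k, hk1, hk2⟩ := exists_nat_pow_near_of_lt_one hp (mem_ball_zero_iff.1 hy1).le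
        (y := 1 / 2) (by norm_num) (by norm_num)
      have hq : (0 : ℝ) < (1 / 2) ^ k := by positivity
      have hn : ‖((1 / 2 : ℝ) ^ k)⁻¹ • y‖ = ‖y‖ / (1 / 2) ^ k := by
        rw [norm_smul, norm_inv, Real.norm_of_nonneg hq.le, inv_mul_eq_div]
      refine mem_iUnion.2 ⟨k, ((1 / 2 : ℝ) ^ k)⁻¹ • y, ⟨⟨h.cone y hy _ (inv_pos.2 hq), ?_⟩, ?_⟩,
        smul_inv_smul₀ hq.ne' y⟩
      · rw [mem_ofPred_eq, hn, le_div_iff₀ hq]
        rw [pow_succ] at hk1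
        linarith
      · rw [mem_closedBall_zero_iff, hn, div_le_iff₀ hq]
        linarith
    rw [← measure_sdiff_null h0]
    refine ne_top_of_le_ne_top (b := ∑' k : ℕ, (2⁻¹ : ℝ≥0∞) ^ k * μHE[n + 1] A) ?_
      ((measure_mono h1).trans ((measure_iUnion_le _).trans (ENNReal.tsum_le_tsum fun k => ?_)))
    · rw [ENNReal.tsum_mul_right, ENNReal.tsum_geometric]
      exact ENNReal.mul_ne_top (by simp) ha
    · rw [scale _ (by positivity)]
      gcongr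
      have : (2⁻¹ : ℝ≥0∞) ^ k = ENNReal.ofReal ((1 / 2) ^ k) := by
        rw [ENNReal.ofReal_pow (by norm_num), one_div, ENNReal.ofReal_inv_of_pos two_pos,
          ENNReal.ofReal_ofNat]
      rw [this]
      exact ENNReal.ofReal_le_ofReal (pow_le_of_le_one (by positivity)
        (pow_le_one₀ (by norm_num) (by norm_num)) (by omega))
  set b := μHE[n + 1] (C ∩ Metric.ball 0 1) with hbdef
  have hz : ∀ ρ : ℝ, 0 < ρ → μHE[n + 1] (C ∩ Metric.ball 0 (3 * ρ)) ≤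
      ENNReal.ofReal (3 ^ (n + 1)) * b * ENNReal.ofReal (ρ ^ (n + 1)) := fun ρ hρ => by
    have hp : 0 < 3 * ρ := by positivity
    have h1 : C ∩ Metric.ball 0 (3 * ρ) ⊆ (3 * ρ) • (C ∩ Metric.ball 0 1) := fun y hy =>
      ⟨(3 * ρ)⁻¹ • y, ⟨h.cone y hy.1 _ (inv_pos.2 hp), by
        rw [mem_ball_zero_iff, norm_smul, norm_inv, Real.norm_of_nonneg hp.le, inv_mul_lt_one₀ hp]
        exact mem_ball_zero_iff.1 hy.2⟩, smul_inv_smul₀ hp.ne' y⟩
    refine (measure_mono h1).trans_eq ?_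
    rw [scale _ hp, mul_pow, ENNReal.ofReal_mul (by positivity)]
    ring
  have hL : K + ENNReal.ofReal (3 ^ (n + 1)) * b ≠ ∞ :=
    ENNReal.add_ne_top.2 ⟨hK, ENNReal.mul_ne_top ENNReal.ofReal_ne_top hb⟩
  refine ⟨(K + ENNReal.ofReal (3 ^ (n + 1)) * b).toReal, ENNReal.toReal_nonneg, fun x hx ρ hρ => ?_⟩
  rw [ENNReal.ofReal_mul ENNReal.toReal_nonneg, ENNReal.ofReal_toReal hL, add_mul]
  have key : ‖x‖ ≤ 2 * ρ → μHE[n + 1] (C ∩ Metric.ball x ρ) ≤ K * ENNReal.ofReal (ρ ^ (n + 1)) +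
      ENNReal.ofReal (3 ^ (n + 1)) * b * ENNReal.ofReal (ρ ^ (n + 1)) := fun hx =>
    le_add_left ((measure_mono (inter_subset_inter_right _ (Metric.ball_subset_ball' (by
      rw [dist_zero_right]; linarith)))).trans (hz ρ hρ))
  rcases hx with hx | rfl
  · have h1 := lk_norm hx
    rcases le_or_gt ρ (1 / 2) with e | e
    · refine le_add_right (le_trans (measure_mono ?_) (hG x ρ hρ))
      intro y hy
      refine ⟨⟨⟨hy.1, ?_⟩, ?_⟩, hy.2⟩
      · have := norm_sub_norm_le x y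
        rw [norm_sub_rev] at this
        have h2 := mem_ball_iff_norm.1 hy.2
        rw [mem_ofPred_eq]
        linarith
      · have := norm_sub_norm_le y x
        have h2 := mem_ball_iff_norm.1 hy.2
        rw [mem_closedBall_zero_iff]
        linarith
    · exact key (by linarith)
  · exact key (by rw [norm_zero]; positivity)

end Pool.Agent.P.MP_2b44f0_gt.PD
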