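import Pool.Agent.P.MP_2b44f0_gt.PD.If

/-! Step COMP. -/

namespace Pool.Agent.P.MP_2b44f0_gt.PD

open MeasureTheory Set Filter Asymptotics
open scoped ENNReal RealInnerProductSpace Topology

namespace COMPx

theorem mono {G G' : ℝ → ℝ} {S : Set ℝ} (hS : Convex ℝ S) (h : ∀ t ∈ S, HasDerivAt G (G' t) t)
    (h0 : ∀ t ∈ S, 0 ≤ G' t) : MonotoneOn G S :=
  monotoneOn_of_hasDerivWithinAt_nonneg hS (fun t ht => (h t ht).continuousAt.continuousWithinAt)
    (fun t ht => (h t (interior_subset ht)).hasDerivWithinAt) fun t ht => h0 t (interior_subset ht)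

theorem tay {G G' G'' : ℝ → ℝ} {c d m s y : ℝ}
    (h : ∀ t ∈ Icc c d, HasDerivAt G (G' t) t ∧ HasDerivAt G' (G'' t) t)
    (hm : ∀ t ∈ Icc c d, m ≤ G'' t) (hs : s ∈ Icc c d) (hy : y ∈ Icc c d) :
    G s + G' s * (y - s) + m * (y - s) ^ 2 / 2 ≤ G y := by
  have h1 : MonotoneOn (fun t => G' t - m * t) (Icc c d) :=
    mono (G' := fun t => G'' t - m * 1) (convex_Icc c d)
      (fun t ht => (h t ht).2.sub ((hasDerivAt_id t).const_mul m))
      fun t ht => by linarith [hm t ht]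
  have h2 : ∀ t ∈ Icc c d, HasDerivAt (fun t => G t - G' s * (t - s) - m * (t - s) ^ 2 / 2)
      (G' t - m * t - (G' s - m * s)) t := fun t ht => by
    have e := ((h t ht).1.sub (((hasDerivAt_id t).sub_const s).const_mul (G' s))).sub
      (((((hasDerivAt_id t).sub_const s).pow 2).const_mul m).div_const 2)
    refine e.congr_deriv ?_
    simp
    ring
  rcases le_total s y with e | e
  · have := mono (convex_Icc s y) (fun t ht => h2 t ⟨hs.1.trans ht.1, ht.2.trans hy.2⟩)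
      (fun t ht => sub_nonneg.2 (h1 hs ⟨hs.1.trans ht.1, ht.2.trans hy.2⟩ ht.1))
      (left_mem_Icc.2 e) (right_mem_Icc.2 e) e
    simp only at this
    linarith
  · have := mono (convex_Icc y s) (fun t ht => (h2 t ⟨hy.1.trans ht.1, ht.2.trans hs.2⟩).neg)
      (fun t ht => neg_nonneg.2 (sub_nonpos.2 (h1 ⟨hy.1.trans ht.1, ht.2.trans hs.2⟩ hs ht.2)))
      (left_mem_Icc.2 e) (right_mem_Icc.2 e) e
    simp only [Pi.neg_apply] at this
    linarith

theorem two {ι : Type} [Fintype ι] {C : Set (E ι)} {x z : E ι} (hx : x ∈ lk C) (hz : z ∈ lk C) :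
    ‖z - x‖ ≤ 2 := by
  have := norm_sub_le z x
  rw [lk_norm hx, lk_norm hz] at this
  linarith

theorem num {g q e η L P R h : ℝ} (he : 0 ≤ e) (h1 : e * (g + L ^ 2) ≤ η / 2)
    (h2 : |q| * L ^ 2 * h ≤ η / 2) (hP : |P| ≤ L * h) (ht : |P + R| ≤ L * h)
    (hR : |R| ≤ L * h ^ 2) :
    q * P ^ 2 / 2 - η * h ^ 2 ≤ -(g * (e * h ^ 2)) + (q - e) * (P + R) ^ 2 / 2 := by
  have a1 : (P + R) ^ 2 ≤ (L * h) ^ 2 := sq_le_sq' (abs_le.1 ht).1 (abs_le.1 ht).2
  have a2 : |q * (R * (P + (P + R)))| ≤ |q| * (L * h ^ 2 * (L * h + L * h)) := by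
    rw [abs_mul, abs_mul]
    have := (abs_nonneg R).trans hR
    gcongr
    exact (abs_add_le _ _).trans (add_le_add hP ht)
  have a3 := mul_le_mul_of_nonneg_right h1 (sq_nonneg h)
  have a4 := mul_le_mul_of_nonneg_right h2 (sq_nonneg h)
  have a5 := mul_le_mul_of_nonneg_left a1 he
  have a6 : 0 ≤ e * (L * h) ^ 2 := by positivity
  nlinarith [(abs_le.1 a2).1]

end COMPx

open COMPx in
theorem c_COMP :
    Q_COMP := by
  intro ι _ C k G G' G'' a b hab hG hc ha hk
  have sub : Icc a b ⊆ Ioo (a / 2) (2 * b) := fun t ht =>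
    ⟨by linarith [ht.1], by linarith [ht.2]⟩
  have mG : MonotoneOn G (Ioo (a / 2) (2 * b)) :=
    mono (convex_Ioo _ _) (fun t ht => (hG t ht).1) fun t ht => (hG t ht).2.2
  refine ⟨fun x hx p M hJ η hη => ?_, fun K => ?_⟩
  · have hs := sub (hk x hx)
    have g0 := (hG _ hs).2.2
    obtain ⟨L, hL⟩ : ∃ L, L = ‖p‖ + ‖M‖ + 2 := ⟨_, rfl⟩
    have L0 : 0 < L := by rw [hL]; positivity
    obtain ⟨e, e0, e1, e2⟩ : ∃ e : ℝ, 0 < e ∧ e ≤ 1 ∧ e * (G' (k x) + L ^ 2) ≤ η / 2 :=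
      ⟨min 1 (η / 2 / (G' (k x) + L ^ 2)), by positivity, min_le_left _ _,
        (le_div_iff₀ (by positivity)).1 (min_le_right _ _)⟩
    have ev : ∀ᶠ t in 𝓝 (k x), t ∈ Ioo (a / 2) (2 * b) ∧ G'' (k x) - e ≤ G'' t :=
      (isOpen_Ioo.eventually_mem hs).and
        ((hc.continuousAt (isOpen_Ioo.mem_nhds hs)).eventually_const_le (by linarith))
    obtain ⟨δ, δ0, hδ⟩ := Metric.nhds_basis_closedBall.eventually_iff.1 ev
    rw [Real.closedBall_eq_Icc] at hδ
    have tz : ∀ c : ℝ, Tendsto (fun z : E ι => c * ‖z - x‖) (𝓝[lk C] x) (𝓝 0) := fun c => by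
      have : Continuous fun z : E ι => c * ‖z - x‖ := by fun_prop
      simpa using (this.tendsto x).mono_left nhdsWithin_le_nhds
    filter_upwards [hJ e e0, self_mem_nhdsWithin, (tz L).eventually_le_const δ0,
      (tz (|G'' (k x)| * L ^ 2)).eventually_le_const (half_pos hη)] with z h1 hz h2 h3
    have n2 := two hx hz
    have n0 := norm_nonneg (z - x)
    have p0 := norm_nonneg p
    have M0 := norm_nonneg M
    have b1 : |⟪p, z - x⟫| ≤ ‖p‖ * ‖z - x‖ := abs_real_inner_le_norm _ _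
    have b2 : |⟪M (z - x), z - x⟫| ≤ ‖M‖ * ‖z - x‖ * ‖z - x‖ :=
      (abs_real_inner_le_norm _ _).trans (by gcongr; exact M.le_opNorm _)
    simp only [inner_smul_left, add_apply, smul_apply,
      ContinuousLinearMap.smulRight_apply, innerSL_apply_apply, inner_add_left, conj_trivial]
    generalize ⟪p, z - x⟫ = P at *
    generalize ⟪M (z - x), z - x⟫ = Q at *
    generalize ‖z - x‖ = h at *
    have c0 : |Q / 2 - e * h ^ 2| ≤ (‖M‖ / 2 + 1) * h ^ 2 := by
      rw [abs_le] at b2 ⊢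
      constructor <;> nlinarith [b2.1, b2.2, sq_nonneg h]
    have c1 : |P| ≤ L * h := b1.trans (by gcongr; linarith)
    have c2 : |Q / 2 - e * h ^ 2| ≤ L * h ^ 2 := c0.trans (by gcongr; linarith)
    have c3 : |P + (Q / 2 - e * h ^ 2)| ≤ L * h := by
      refine (abs_add_le _ _).trans ((add_le_add b1 c0).trans ?_)
      have : (‖M‖ / 2 + 1) * h * h ≤ (‖M‖ / 2 + 1) * h * 2 := by gcongr
      rw [hL]
      nlinarith
    have c4 := abs_le.1 (c3.trans h2)
    have mem : k x + (P + (Q / 2 - e * h ^ 2)) ∈ Icc (k x - δ) (k x + δ) :=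
      ⟨by linarith [c4.1], by linarith [c4.2]⟩
    have t1 := tay (fun t ht => ⟨(hG t (hδ ht).1).1, (hG t (hδ ht).1).2.1⟩) (fun t ht => (hδ ht).2)
      (s := k x) ⟨by linarith, by linarith⟩ mem
    have t2 := mG (hδ mem).1 (sub (hk z hz)) (by linarith)
    have t3 := num e0.le e2 h3 c1 c3 c2
    rw [add_sub_cancel_left] at t1
    nlinarith
  · obtain ⟨A, hA⟩ := isCompact_Icc.exists_bound_of_continuousOn (f := G') (s := Icc a b)
      fun t ht => (hG t (sub ht)).2.1.continuousAt.continuousWithinAt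
    obtain ⟨B, hB⟩ := isCompact_Icc.exists_bound_of_continuousOn (hc.mono sub)
    have B0 : 0 ≤ B := (norm_nonneg _).trans (hB a (left_mem_Icc.2 hab.le))
    refine ⟨A * K + B * (3 * K) ^ 2, fun x hx p hp hl => ?_⟩
    have hs := hk x hx
    have g0 := (hG _ (sub hs)).2.2
    have g1 : G' (k x) ≤ A := (le_abs_self _).trans (hA _ hs)
    have K0 : 0 ≤ K := (norm_nonneg _).trans hp
    have B1 : 0 ≤ B * (3 * K) ^ 2 := by positivity
    refine ⟨?_, fun z hz => ?_⟩
    · rw [norm_smul]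
      exact (mul_le_mul (hA _ hs) hp (norm_nonneg _) (g0.trans g1)).trans (by linarith)
    have h1 := hl z hz
    have n2 := two hx hz
    have n0 := norm_nonneg (z - x)
    have b1 : |⟪p, z - x⟫| ≤ K * ‖z - x‖ := (abs_real_inner_le_norm _ _).trans (by gcongr)
    rw [inner_smul_left, conj_trivial]
    generalize ⟪p, z - x⟫ = P at *
    generalize ‖z - x‖ = h at *
    have c1 : K * h * h ≤ K * h * 2 := by gcongr
    have c2 : 0 ≤ K * h := by positivity
    have c3 := abs_le.1 b1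
    have l1 := le_max_right a (k x + P - K * h ^ 2)
    have l2 : max a (k x + P - K * h ^ 2) ≤ k z := max_le (hk z hz).1 h1
    have l3 : max a (k x + P - K * h ^ 2) ≤ k x + 3 * K * h :=
      max_le (by linarith [hs.1]) (by nlinarith [c3.2])
    have mem : max a (k x + P - K * h ^ 2) ∈ Icc a b := ⟨le_max_left _ _, l2.trans (hk z hz).2⟩
    have t1 := tay (m := -B) (fun t ht => ⟨(hG t (sub ht)).1, (hG t (sub ht)).2.1⟩)
      (fun t ht => (abs_le.1 (hB t ht)).1) hs mem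
    have t2 := mG (sub mem) (sub (hk z hz)) l2
    generalize max a (k x + P - K * h ^ 2) = y at *
    have t3 : (y - k x) ^ 2 ≤ (3 * K * h) ^ 2 := sq_le_sq' (by nlinarith [c3.1]) (by linarith)
    have t4 := mul_le_mul_of_nonneg_left t3 B0
    have t5 : G' (k x) * (P - K * h ^ 2) ≤ G' (k x) * (y - k x) :=
      mul_le_mul_of_nonneg_left (by linarith) g0
    have t6 : G' (k x) * (K * h ^ 2) ≤ A * (K * h ^ 2) := by gcongr
    have t7 : 0 ≤ B * (3 * K * h) ^ 2 := by positivity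
    nlinarith

end Pool.Agent.P.MP_2b44f0_gt.PD
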