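import Pool.Agent.P.MP_2b44f0_gt.PD.If

/-! Step DENS. -/

namespace Pool.Agent.P.MP_2b44f0_gt.PD

open MeasureTheory Set Filter Asymptotics
open scoped ENNReal RealInnerProductSpace Topology

namespace DENSx

/-- the radial kernel -/
noncomputable def fk (r t : ℝ) : ℝ := Real.exp (-((1 - t) ^ 2 / (r ^ 2 * t)))

/-- its integral -/
noncomputable def cc (n : ℕ) (r : ℝ) : ℝ≥0∞ := ∫⁻ t, ENNReal.ofReal (fk r t) ∂rad n

theorem meas_fk (r : ℝ) : Measurable (fk r) := by unfold fk; fun_prop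

theorem cc_eq (n : ℕ) (r : ℝ) :
    cc n r = ∫⁻ t in Ioi 0, ENNReal.ofReal ((n + 1) * t ^ n) * ENNReal.ofReal (fk r t) := by
  rw [cc, rad, lintegral_withDensity_eq_lintegral_mul _ (by fun_prop) (meas_fk r).ennreal_ofReal]
  rfl

theorem cc_ne_zero (n : ℕ) (r : ℝ) : cc n r ≠ 0 := by
  have := meas_fk r
  rw [cc_eq, Ne, lintegral_eq_zero_iff (by fun_prop)]
  intro h
  have h1 : ∀ᵐ t ∂(volume.restrict (Ioi (0 : ℝ))), False := by
    filter_upwards [h, ae_restrict_mem measurableSet_Ioi] with t h1 h2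
    have h3 : (0 : ℝ) < t := h2
    exact mul_ne_zero (ENNReal.ofReal_pos.2 (by positivity)).ne'
      (ENNReal.ofReal_pos.2 (Real.exp_pos _)).ne' h1
  rw [eventually_false_iff_eq_bot, ae_eq_bot, Measure.restrict_eq_zero] at h1
  simp at h1

theorem cc_ne_top (n : ℕ) {r : ℝ} (hr : 0 < r) : cc n r ≠ ∞ := by
  have h := (integrableOn_rpow_mul_exp_neg_mul_rpow (s := n) (p := 1) (b := 1 / r ^ 2)
    (by have : (0 : ℝ) ≤ n := by positivity
        linarith) one_pos (by positivity)).const_mul ((n + 1) * Real.exp (2 / r ^ 2))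
  refine ne_top_of_le_ne_top h.lintegral_lt_top.ne ?_
  rw [cc_eq]
  refine setLIntegral_mono' measurableSet_Ioi fun t ht => ?_
  have h3 : (0 : ℝ) < t := ht
  rw [← ENNReal.ofReal_mul (by positivity)]
  refine ENNReal.ofReal_le_ofReal ?_
  have h4 : fk r t ≤ Real.exp (2 / r ^ 2) * Real.exp (-(1 / r ^ 2) * t) := by
    rw [← Real.exp_add]
    refine Real.exp_le_exp.2 ?_
    have : (1 - t) ^ 2 / (r ^ 2 * t) = 1 / (r ^ 2 * t) - 2 / r ^ 2 + 1 / r ^ 2 * t := by
      field_simp; ring
    have : 0 < 1 / (r ^ 2 * t) := by positivity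
    linarith
  rw [Real.rpow_natCast, Real.rpow_one]
  calc _ ≤ (n + 1) * t ^ n * (Real.exp (2 / r ^ 2) * Real.exp (-(1 / r ^ 2) * t)) := by gcongr
    _ = _ := by ring

theorem cc_mono (n : ℕ) {r : ℝ} (hr : 0 < r) : cc n r ≤ cc n (2 * r) := by
  rw [cc_eq, cc_eq]
  refine setLIntegral_mono' measurableSet_Ioi fun t ht => ?_
  have h3 : (0 : ℝ) < t := ht
  refine mul_le_mul_right (ENNReal.ofReal_le_ofReal (Real.exp_le_exp.2 (neg_le_neg ?_))) _
  gcongr
  linarith

/-- the dominating function -/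
noncomputable def bd (d : ℕ) (t : ℝ) : ℝ := (2 * max (-Real.log t) 0 + √(-Real.log t)) ^ d

theorem bd_fin (n : ℕ) {K : ℝ} (hK : 0 ≤ K) :
    ∫⁻ t in Ioi 0, ENNReal.ofReal (K * bd (n + 1) t) ≠ ∞ := by
  have h := ((intervalIntegral.integrableOn_Ioo_rpow_iff (s := -(1 / 2)) one_pos).2
    (by norm_num)).const_mul (K * (1 + 6 * (n + 1)) ^ (n + 1))
  refine ne_top_of_le_ne_top h.lintegral_lt_top.ne ?_
  rw [← lintegral_indicator measurableSet_Ioo, ← lintegral_indicator measurableSet_Ioi]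
  refine lintegral_mono fun t => ?_
  by_cases h0 : t ∈ Ioi (0 : ℝ)
  swap
  · simp [h0]
  have h3 : (0 : ℝ) < t := h0
  rw [indicator_of_mem h0]
  by_cases h1 : t < 1
  · rw [indicator_of_mem (show t ∈ Ioo 0 1 from ⟨h3, h1⟩), mul_assoc]
    refine ENNReal.ofReal_le_ofReal (mul_le_mul_of_nonneg_left ?_ hK)
    have a1 : 0 ≤ -Real.log t := by linarith [Real.log_nonpos h3.le h1.le]
    have a2 := Real.log_le_rpow_div (inv_pos.2 h3).le (ε := 1 / (2 * (n + 1))) (by positivity)
    have a3 : 1 ≤ t⁻¹ ^ (1 / (2 * (n + 1)) : ℝ) :=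
      Real.one_le_rpow ((one_le_inv₀ h3).2 h1.le) (by positivity)
    have a4 : (t⁻¹ ^ (1 / (2 * (n + 1)) : ℝ)) ^ (n + 1) = t ^ (-(1 / 2) : ℝ) := by
      rw [← Real.rpow_natCast, ← Real.rpow_mul (by positivity), Real.inv_rpow h3.le,
        Real.rpow_neg h3.le]
      congr 2
      push_cast
      field_simp
    have a5 : √(-Real.log t) ≤ 1 + -Real.log t := by
      rw [Real.sqrt_le_left (by linarith)]; nlinarith
    rw [Real.log_inv, div_div_eq_mul_div, div_one] at a2
    rw [bd, max_eq_left a1, ← a4, ← mul_pow]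
    refine pow_le_pow_left₀ (by positivity) ?_ _
    linarith
  · have a1 : -Real.log t ≤ 0 := by linarith [Real.log_nonneg (not_lt.1 h1)]
    simp [bd, max_eq_right a1, Real.sqrt_eq_zero_of_nonpos a1]

variable {ι : Type} [Fintype ι]

/-- the kernel on the cone -/
noncomputable def ph (r : ℝ) (x y : E ι) : ℝ := fk r ‖y‖ * gk r x (‖y‖⁻¹ • y)

theorem lt_ph {r t : ℝ} (hr : 0 < r) (ht : 0 < t) {x y : E ι} (hx : ‖x‖ = 1) (hy : y ≠ 0) :
    t < ph r x y ↔ ‖y - x‖ ^ 2 < r ^ 2 * -Real.log t * ‖y‖ := by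
  have h0 : 0 < ‖y‖ := norm_pos_iff.2 hy
  have e : ph r x y = Real.exp (-(‖y - x‖ ^ 2 / (r ^ 2 * ‖y‖))) := by
    rw [ph, fk, gk, ← Real.exp_add, norm_sub_sq_real, norm_sub_sq_real, norm_smul, inner_smul_left,
      hx, norm_inv, norm_norm]
    congr 1
    simp only [conj_trivial]
    field_simp
    ring
  rw [e, ← Real.log_lt_iff_lt_exp ht, lt_neg, div_lt_iff₀ (by positivity)]
  ring_nf

theorem sub_ball {r t : ℝ} (hr : 0 < r) (ht : 0 < t) {x : E ι} (hx : ‖x‖ = 1) :
    {y | t < ph r x y} ⊆ Metric.ball x (r * (√(-Real.log t) + r * max (-Real.log t) 0)) := by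
  intro y hy
  rw [mem_ball_iff_norm]
  have hs := Real.sqrt_nonneg (-Real.log t)
  by_cases h0 : y = 0
  · subst h0
    simp only [mem_ofPred_eq, ph, fk, gk, norm_zero, mul_zero, div_zero, neg_zero, Real.exp_zero,
      one_mul, smul_zero, zero_sub, norm_neg, hx, one_pow] at hy ⊢
    rw [← Real.log_lt_iff_lt_exp ht, lt_neg, div_lt_iff₀ (by positivity)] at hy
    have := le_max_left (-Real.log t) 0
    nlinarith [mul_nonneg hr.le hs, mul_le_mul_of_nonneg_left this (sq_nonneg r)]
  · have h1 := (lt_ph hr ht hx h0).1 hy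
    have h2 : 0 < -Real.log t := by
      by_contra hc
      have : r ^ 2 * -Real.log t * ‖y‖ ≤ 0 := mul_nonpos_of_nonpos_of_nonneg
        (mul_nonpos_of_nonneg_of_nonpos (sq_nonneg r) (not_lt.1 hc)) (norm_nonneg y)
      nlinarith [sq_nonneg ‖y - x‖]
    have h3 : ‖y‖ ≤ 1 + ‖y - x‖ := by have := norm_le_norm_add_norm_sub' y x; linarith
    have h4 := Real.sq_sqrt h2.le
    rw [max_eq_left h2.le]
    generalize √(-Real.log t) = s at *
    generalize -Real.log t = L at *
    by_contra hc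
    have h5 : r * (s + r * L) ≤ ‖y - x‖ := not_lt.1 hc
    have h6 : r ^ 2 * L * ‖y‖ ≤ r ^ 2 * L * (1 + ‖y - x‖) := by gcongr
    have h7 : r * s ≤ ‖y - x‖ := by nlinarith [mul_pos (mul_pos hr hr) h2]
    have h8 := mul_le_mul_of_nonneg_left h5 (norm_nonneg (y - x))
    have h9 := mul_le_mul_of_nonneg_right h7 (mul_nonneg hr.le hs)
    nlinarith

theorem ball_sub {r t : ℝ} (hr : 0 < r) (ht : 0 < t) (h2 : 0 < -Real.log t) {x : E ι}
    (hx : ‖x‖ = 1) : Metric.ball x (r * (√(-Real.log t) + r * Real.log t)) ⊆ {y | t < ph r x y} := by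
  intro y hy
  rw [mem_ball_iff_norm] at hy
  have hs := Real.sqrt_nonneg (-Real.log t)
  have h4 := Real.sq_sqrt h2.le
  have h3 : 1 - ‖y - x‖ ≤ ‖y‖ := by
    have := norm_le_norm_add_norm_sub y x; linarith
  have h5 : ‖y - x‖ ^ 2 < r ^ 2 * -Real.log t * (1 - ‖y - x‖) := by
    have a0 := norm_nonneg (y - x)
    have a1 : 0 < r ^ 2 * -Real.log t := by positivity
    have a2 : ‖y - x‖ + r ^ 2 * -Real.log t < r * √(-Real.log t) := by linarith
    have a3 := mul_lt_mul'' (show ‖y - x‖ < r * √(-Real.log t) by linarith) a2 a0 (by linarith)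
    nlinarith
  have h6 : y ≠ 0 := by rintro rfl; simp [hx] at h5; linarith
  refine (lt_ph hr ht hx h6).2 (h5.trans_le ?_)
  gcongr

end DENSx

open DENSx in
theorem c_DENS (hBALL1 : Q_BALL1) (hBALL2 : Q_BALL2) (hPOL : Q_POL) :
    Q_DENS := by
  intro ι _ n C U F h
  obtain ⟨ω, hω, h1⟩ := hBALL1 ι n C U F h
  obtain ⟨K, hK, h2⟩ := hBALL2 ι n C U F h
  have hfin : μHE[n + 1] (C ∩ Metric.ball 0 1) ≠ ∞ :=
    ne_top_of_le_ne_top ENNReal.ofReal_ne_top (h2 0 (Or.inr rfl) 1 one_pos)
  have h3 := hPOL ι n C h.closed h.cone hfin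
  have : IsFiniteMeasure (lm n C) := by
    have := isFiniteMeasure_restrict.2 hfin
    unfold lm
    infer_instance
  set μ := μHE[n + 1].restrict C with hμ
  have hb : ∀ (x : E ι) ρ, μ (Metric.ball x ρ) = μHE[n + 1] (C ∩ Metric.ball x ρ) := fun x ρ => by
    rw [hμ, Measure.restrict_apply measurableSet_ball, inter_comm]
  have mg : ∀ r (x : E ι), Measurable (gk r x) := fun r x => by unfold gk; fun_prop
  have hG : ∀ r (x : E ι), cc n r * ∫⁻ y, ENNReal.ofReal (gk r x y) ∂lm n C =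
      ∫⁻ t in Ioi 0, μ {y | t < ph r x y} := fun r x => by
    have m1 := meas_fk r
    have m2 := mg r x
    rw [cc, ← lintegral_prod_mul m1.ennreal_ofReal.aemeasurable m2.ennreal_ofReal.aemeasurable,
      ← h3, lintegral_map (by fun_prop) (by fun_prop),
      ← lintegral_eq_lintegral_meas_lt μ (f := ph r x) (Eventually.of_forall fun y =>
        mul_nonneg (Real.exp_pos _).le (Real.exp_pos _).le)
        (Measurable.aemeasurable (by unfold ph; fun_prop))]
    exact lintegral_congr fun y => (ENNReal.ofReal_mul (Real.exp_pos _).le).symm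
  have hI : ∀ r (x : E ι), ∫ y, gk r x y ∂lm n C =
      (∫⁻ y, ENNReal.ofReal (gk r x y) ∂lm n C).toReal := fun r x =>
    integral_eq_lintegral_of_nonneg_ae (Eventually.of_forall fun y => (Real.exp_pos _).le)
      (mg r x).aestronglyMeasurable
  have hB : ∀ x ∈ lk C, ∀ r, 0 < r → r ≤ 2 → ∀ t ∈ Ioi (0 : ℝ), μ {y | t < ph r x y} ≤
      ENNReal.ofReal (r ^ (n + 1)) * ENNReal.ofReal (K * bd (n + 1) t) := by
    intro x hx r hr hr2 t ht
    refine (measure_mono (sub_ball hr ht (lk_norm hx))).trans ?_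
    rcases le_or_gt (r * (√(-Real.log t) + r * max (-Real.log t) 0)) 0 with e | e
    · simp [Metric.ball_eq_empty.2 e]
    rw [hb, ← ENNReal.ofReal_mul (by positivity), mul_left_comm, bd, ← mul_pow]
    refine (h2 x (Or.inl hx) _ e).trans (ENNReal.ofReal_le_ofReal ?_)
    have := mul_le_mul_of_nonneg_right hr2 (le_max_right (-Real.log t) 0)
    exact mul_le_mul_of_nonneg_left (pow_le_pow_left₀ e.le
      (mul_le_mul_of_nonneg_left (by linarith) hr.le) _) hK
  set W := ∫⁻ t in Ioi (0 : ℝ), ENNReal.ofReal (ω * √(-Real.log t) ^ (n + 1)) with hW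
  have W1 : W ≠ ∞ := by
    refine ne_top_of_le_ne_top (bd_fin n hω.le) (lintegral_mono fun t =>
      ENNReal.ofReal_le_ofReal ?_)
    have := le_max_right (-Real.log t) 0
    unfold bd
    gcongr
    linarith
  have W0 : W ≠ 0 := by
    rw [hW, Ne, lintegral_eq_zero_iff (by fun_prop)]
    intro e
    have e1 : ∀ᵐ t ∂(volume.restrict (Ioo (0 : ℝ) 1)), False := by
      filter_upwards [ae_restrict_of_ae_restrict_of_subset Ioo_subset_Ioi_self e,
        ae_restrict_mem measurableSet_Ioo] with t a1 a2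
      have := Real.sqrt_pos.2 (neg_pos.2 (Real.log_neg a2.1 a2.2))
      exact (ENNReal.ofReal_pos.2 (by positivity)).ne' a1
    rw [eventually_false_iff_eq_bot, ae_eq_bot, Measure.restrict_eq_zero] at e1
    simp at e1
  have Wp := ENNReal.toReal_pos W0 W1
  have cp : ∀ r, 0 < r → 0 < (cc n r).toReal := fun r hr =>
    ENNReal.toReal_pos (cc_ne_zero n r) (cc_ne_top n hr)
  refine ⟨fun r => W.toReal * r ^ (n + 1) / (cc n r).toReal,
    (∫⁻ t in Ioi 0, ENNReal.ofReal (K * bd (n + 1) t)).toReal * 2 ^ (n + 1) / W.toReal,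
    fun r hr => by have := cp r hr; positivity, fun x hx => ⟨?_, fun r hr hr1 => ?_⟩⟩
  · have small : ∀ᶠ r : ℝ in 𝓝[>] 0, 0 < r ∧ r ≤ 2 := by
      filter_upwards [Ioc_mem_nhdsGT (show (0 : ℝ) < 2 by norm_num)] with r hr using hr
    have hne : ∀ r : ℝ, 0 < r → ENNReal.ofReal (r ^ (n + 1)) ≠ 0 := fun r hr =>
      (ENNReal.ofReal_pos.2 (by positivity)).ne'
    have T : Tendsto (fun r : ℝ => ∫⁻ t in Ioi 0,
        (ENNReal.ofReal (r ^ (n + 1)))⁻¹ * μ {y | t < ph r x y}) (𝓝[>] 0) (𝓝 W) := by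
      refine tendsto_lintegral_filter_of_dominated_convergence _ (Eventually.of_forall fun r =>
        (Antitone.measurable (f := fun t => μ {y | t < ph r x y})
          fun a b hab => measure_mono fun y hy => hab.trans_lt hy).const_mul _)
        ?_ (bd_fin n hK) ?_
      · filter_upwards [small] with r hr
        filter_upwards [ae_restrict_mem measurableSet_Ioi] with t ht
        exact (ENNReal.inv_mul_le_iff (hne r hr.1) ENNReal.ofReal_ne_top).2 (hB x hx r hr.1 hr.2 t ht)
      · filter_upwards [ae_restrict_mem measurableSet_Ioi] with t ht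
        rcases le_or_gt (-Real.log t) 0 with e | e
        · refine tendsto_const_nhds.congr' ?_
          filter_upwards [small] with r hr
          have := hB x hx r hr.1 hr.2 t ht
          simp only [bd, max_eq_right e, Real.sqrt_eq_zero_of_nonpos e, mul_zero, add_zero, ne_eq,
            Nat.add_eq_zero_iff, one_ne_zero, and_false, not_false_eq_true, zero_pow,
            ENNReal.ofReal_zero, nonpos_iff_eq_zero] at this ⊢
          rw [this, mul_zero]
        have hs := Real.sqrt_pos.2 e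
        have A : ∀ c : ℝ, Tendsto (fun r : ℝ => (ENNReal.ofReal (r ^ (n + 1)))⁻¹ *
            μ (Metric.ball x (r * (√(-Real.log t) + r * c)))) (𝓝[>] 0)
            (𝓝 (ENNReal.ofReal (ω * √(-Real.log t) ^ (n + 1)))) := fun c => by
          have b1 : Tendsto (fun r : ℝ => √(-Real.log t) + r * c) (𝓝[>] 0) (𝓝 √(-Real.log t)) :=
            (Continuous.tendsto' (by fun_prop) 0 _ (by simp)).mono_left nhdsWithin_le_nhds
          have b2 : ∀ᶠ r : ℝ in 𝓝[>] 0, 0 < r ∧ 0 < √(-Real.log t) + r * c :=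
            (small.mono fun r hr => hr.1).and (b1.eventually_const_lt hs)
          have b3 : Tendsto (fun r : ℝ => r * (√(-Real.log t) + r * c)) (𝓝[>] 0) (𝓝[>] 0) :=
            tendsto_nhdsWithin_iff.2 ⟨(Continuous.tendsto' (by fun_prop) 0 _ (by simp)).mono_left
              nhdsWithin_le_nhds, b2.mono fun r hr => mul_pos hr.1 hr.2⟩
          refine (ENNReal.tendsto_ofReal (((h1 x hx).comp b3).mul (b1.pow (n + 1)))).congr' ?_
          filter_upwards [b2] with r ⟨r0, r1⟩
          rw [hb, ← ENNReal.ofReal_toReal (ne_top_of_le_ne_top ENNReal.ofReal_ne_top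
            (h2 x (Or.inl hx) _ (mul_pos r0 r1))), ← ENNReal.ofReal_inv_of_pos (by positivity),
            ← ENNReal.ofReal_mul (by positivity), Function.comp, mul_pow]
          congr 1
          field_simp
        refine tendsto_of_tendsto_of_tendsto_of_le_of_le' (A (Real.log t))
          (A (max (-Real.log t) 0)) ?_ ?_ <;> filter_upwards [small] with r hr
        · exact mul_le_mul_right (measure_mono (ball_sub hr.1 ht e (lk_norm hx))) _
        · exact mul_le_mul_right (measure_mono (sub_ball hr.1 ht (lk_norm hx))) _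
    have T2 := ((ENNReal.tendsto_toReal W1).comp T).div_const W.toReal
    rw [div_self Wp.ne'] at T2
    refine T2.congr' ?_
    filter_upwards [small] with r ⟨r0, _⟩
    have := cp r r0
    rw [Function.comp, lintegral_const_mul' _ _ (ENNReal.inv_ne_top.2 (hne r r0)), ← hG, hI,
      ENNReal.toReal_mul, ENNReal.toReal_mul, ENNReal.toReal_inv,
      ENNReal.toReal_ofReal (by positivity)]
    field_simp
  · have a1 := setLIntegral_mono' (μ := volume) measurableSet_Ioi
      (hB x hx (2 * r) (by linarith) (by linarith))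
    rw [← hG, lintegral_const_mul' _ _ ENNReal.ofReal_ne_top] at a1
    have a2 := ENNReal.toReal_mono (ENNReal.mul_ne_top ENNReal.ofReal_ne_top (bd_fin n hK))
      ((mul_le_mul_left (cc_mono n hr) _).trans a1)
    have := cp r hr
    rw [ENNReal.toReal_mul, ENNReal.toReal_mul, ENNReal.toReal_ofReal (by positivity), ← hI,
      mul_pow] at a2
    rw [div_mul_div_comm, le_div_iff₀ (by positivity)]
    nlinarith

end Pool.Agent.P.MP_2b44f0_gt.PD
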