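import Pool.Agent.P.MP_2b44f0_gt.PD.If

/-! Step DIV. -/

namespace Pool.Agent.P.MP_2b44f0_gt.PD

open MeasureTheory Set Filter Asymptotics
open scoped ENNReal RealInnerProductSpace Topology

namespace DIVx

variable {ι : Type} [Fintype ι] {n : ℕ} {C U : Set (E ι)} {F : E ι → ℝ}

theorem tr_add (A B : E ι →L[ℝ] E ι) : tr (A + B) = tr A + tr B := map_add trL A B

theorem tr_sub (A B : E ι →L[ℝ] E ι) : tr (A - B) = tr A - tr B := map_sub trL A B

theorem tr_smul (c : ℝ) (A : E ι →L[ℝ] E ι) : tr (c • A) = c * tr A := map_smul trL c A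

theorem tr_zero : tr (0 : E ι →L[ℝ] E ι) = 0 := map_zero trL

theorem tr_rank (l : E ι →L[ℝ] ℝ) (w : E ι) : tr (l.smulRight w) = l w :=
  LinearMap.trace_smulRight l.toLinearMap w

/-- the integral of a divergence vanishes -/
theorem int_div {W : E ι → E ι} (hW : ContDiff ℝ 1 W) (hc : HasCompactSupport W) :
    ∫ y, tr (fderiv ℝ W y) = 0 := by
  let b := stdOrthonormalBasis ℝ (E ι)
  have hi : ∀ v, Integrable (fun y => fderiv ℝ W y v) := fun v =>
    ((hW.continuous_fderiv one_ne_zero).clm_apply continuous_const).integrable_of_hasCompactSupport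
      (hc.fderiv_apply ℝ v)
  have h0 : ∀ v, ∫ y, fderiv ℝ W y v = 0 := fun v => by
    have := integral_smul_fderiv_eq_neg_fderiv_smul_of_integrable (𝕜 := ℝ) (μ := volume)
      (f := fun _ : E ι => (1 : ℝ)) (g := W) (v := v) (by simp) (by simpa using hi v)
      (by simpa using hW.continuous.integrable_of_hasCompactSupport hc)
      (fun _ _ => differentiableAt_const _) (fun x _ => hW.differentiable one_ne_zero x)
    simpa using this
  have e : ∀ y, tr (fderiv ℝ W y) = ∑ i, ⟪b i, fderiv ℝ W y (b i)⟫ := fun y =>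
    LinearMap.trace_eq_sum_inner _ b
  simp_rw [e]
  rw [integral_finsetSum _ fun i _ => (hi (b i)).const_inner _]
  refine Finset.sum_eq_zero fun i _ => ?_
  rw [integral_inner (hi (b i)), h0, inner_zero_right]

/-- a function that is smooth on `U` and vanishes outside a closed subset of `U` -/
theorem glob {G : Type} [NormedAddCommGroup G] [NormedSpace ℝ G] {W : E ι → G} {A : Set (E ι)}
    (hU : IsOpen U) (hA : IsClosed A) (hAU : A ⊆ U) (h : ContDiffOn ℝ 1 W U)
    (h0 : ∀ y ∉ A, W y = 0) : ContDiff ℝ 1 W := by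
  refine contDiff_iff_contDiffAt.2 fun y => ?_
  by_cases hy : y ∈ U
  · exact h.contDiffAt (hU.mem_nhds hy)
  · refine (contDiffAt_const (c := (0 : G))).congr_of_eventuallyEq ?_
    filter_upwards [hA.isOpen_compl.mem_nhds fun h' => hy (hAU h')] with z hz using h0 z hz

omit [Fintype ι] in
theorem fd0 {G : Type} [NormedAddCommGroup G] [NormedSpace ℝ G] {W : E ι → G} {A : Set (E ι)}
    (hA : IsClosed A) (h0 : ∀ y ∉ A, W y = 0) {y : E ι} (hy : y ∉ A) : fderiv ℝ W y = 0 := by
  have : W =ᶠ[𝓝 y] fun _ => 0 := by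
    filter_upwards [hA.isOpen_compl.mem_nhds hy] with z hz using h0 z hz
  rw [this.fderiv_eq, fderiv_fun_const, Pi.zero_apply]

theorem sm_a (h : St n C U F) : ContDiffOn ℝ 1 (fun y => ‖gradient F y‖) U := by
  have h1 : ContDiffOn ℝ 1 (fderiv ℝ F) U :=
    h.chart.smooth.fderiv_of_isOpen h.chart.isOpen (by norm_num)
  have h2 : ContDiffOn ℝ 1 (gradient F) U :=
    (InnerProductSpace.toDual ℝ (E ι)).symm.contDiff.comp_contDiffOn h1
  exact h2.norm ℝ h.chart.grad_ne

/-- the tangential field -/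
noncomputable def Z (F : E ι → ℝ) (X : E ι → E ι) (y : E ι) : E ι :=
  ‖gradient F y‖ • (X y - ⟪X y, normal F y⟫ • normal F y)

theorem sm_Z (h : St n C U F) {X : E ι → E ι} (hX : ContDiff ℝ 1 X) :
    ContDiffOn ℝ 1 (Z F X) U := by
  have hN := (all_shape ι C U F h.chart).1
  exact (sm_a h).smul (hX.contDiffOn.sub ((hX.contDiffOn.inner ℝ hN).smul hN))

theorem tr_Z (h : St n C U F) {X : E ι → E ι} (hX : ContDiff ℝ 1 X) {y : E ι} (hy : y ∈ C)
    (h0 : y ≠ 0) : tr (fderiv ℝ (Z F X) y) = ‖gradient F y‖ *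
      (tr (fderiv ℝ X y) - ⟪fderiv ℝ X y (normal F y), normal F y⟫) := by
  have hU := h.cover y hy h0
  have hn := h.chart.isOpen.mem_nhds hU
  obtain ⟨hN, -, hs⟩ := all_shape ι C U F h.chart
  have da := (((sm_a h).contDiffAt hn).differentiableAt one_ne_zero).hasFDerivAt
  have dN := ((hN.contDiffAt hn).differentiableAt one_ne_zero).hasFDerivAt
  have dX := (hX.differentiable one_ne_zero y).hasFDerivAt
  have orth := (hs y hU).2.2.1
  have one := h.inner_normal hU
  have c2 : ContDiffAt ℝ 2 F y := h.chart.smooth.contDiffAt hn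
  have d2 : HasFDerivAt (fderiv ℝ F) (fderiv ℝ (fderiv ℝ F) y) y :=
    ((c2.fderiv_right (m := 1) (by norm_num)).differentiableAt one_ne_zero).hasFDerivAt
  have sec : ∀ v w, fderiv ℝ (fderiv ℝ F) y v w =
      ‖gradient F y‖ * ⟪fderiv ℝ (normal F) y v, w⟫ +
        ⟪normal F y, w⟫ * fderiv ℝ (fun y => ‖gradient F y‖) y v := by
    intro v w
    have e1 := d2.clm_apply (hasFDerivAt_const w y)
    have e2 := (da.mul (dN.inner ℝ (hasFDerivAt_const w y))).congr_of_eventuallyEq
      (f₁ := fun z => fderiv ℝ F z w) (by filter_upwards [hn] with z hz using (hs z hz).2.1 w)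
    have := DFunLike.congr_fun (e1.unique e2) v
    simpa using this
  have sy := (c2.isSymmSndFDerivAt (by simp)).eq (X y) (normal F y)
  rw [sec, sec, real_inner_comm, orth, one] at sy
  have t0 : tr (fderiv ℝ (normal F) y) = 0 := by
    have e : fderiv ℝ (normal F) y = shape F y +
        (innerSL ℝ (normal F y)).smulRight (fderiv ℝ (normal F) y (normal F y)) := by
      ext1 v
      simp [shape, tangentProj]
    rw [e, tr_add, tr_rank, h.tr_shape hy h0, innerSL_apply_apply, orth, add_zero]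
  have dZ := da.smul (dX.sub ((dX.inner ℝ dN).smul dN))
  rw [show fderiv ℝ (Z F X) y = _ from dZ.fderiv]
  simp only [tr_add, tr_sub, tr_smul, tr_rank, t0, Pi.sub_apply, Pi.smul_apply', map_sub, map_smul,
    smul_eq_mul, ContinuousLinearMap.comp_apply, fderivInnerCLM_apply,
    ContinuousLinearMap.prod_apply]
  rw [real_inner_comm (normal F y) (X y), real_inner_comm (fderiv ℝ (normal F) y (normal F y))]
  linear_combination sy

theorem main (hWEAK : Q_WEAK) (h : St n C U F) {X : E ι → E ι} (hX : ContDiff ℝ 1 X)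
    {A : Set (E ι)} (hA : IsCompact A) (hAU : A ⊆ U) (hA0 : 0 ∉ A) (h0 : ∀ y ∉ A, X y = 0) :
    ∫ y in C, (tr (fderiv ℝ X y) - ⟪fderiv ℝ X y (normal F y), normal F y⟫) ∂μHE[n + 1] = 0 := by
  let φ : ContDiffBump (0 : ℝ) := ⟨1 / 2, 1, by norm_num, by norm_num⟩
  have hO := h.chart.isOpen
  have z0 : ∀ y ∉ A, Z F X y = 0 := fun y hy => by simp [Z, h0 y hy]
  have hZ : ContDiff ℝ 1 (Z F X) := glob hO hA.isClosed hAU (sm_Z h hX) z0
  have hψ : ContDiff ℝ 1 (φ.normed volume) := φ.contDiff_normed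
  have ha : ∀ y ∈ U, ‖gradient F y‖ ≠ 0 := fun y hy => norm_ne_zero_iff.2 (h.chart.grad_ne y hy)
  have key := hWEAK ι n C U F h (φ.normed volume)
    (fun y => tr (fderiv ℝ (Z F X) y) / ‖gradient F y‖) A φ.continuous_normed φ.nonneg_normed
    (fun t ht => by
      by_contra hc
      have : t ∈ Function.support (φ.normed volume) := hc
      rw [φ.support_normed_eq, mem_ball_zero_iff, Real.norm_eq_abs] at this
      exact absurd ht (not_le.2 this))
    φ.integral_normed hA hAU hA0
    ((trL.continuous.comp (hZ.continuous_fderiv one_ne_zero)).continuousOn.div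
      (sm_a h).continuousOn ha)
    (fun y hy => by rw [fd0 hA.isClosed z0 hy, tr_zero, zero_div])
  have zero : ∀ τ : ℝ, ∫ y, τ⁻¹ * φ.normed volume (F y / τ) *
      (‖gradient F y‖ * (tr (fderiv ℝ (Z F X) y) / ‖gradient F y‖)) = 0 := by
    intro τ
    have hF : ContDiffOn ℝ 1 (fun y => φ.normed volume (F y / τ)) U :=
      hψ.comp_contDiffOn ((h.chart.smooth.of_le (by norm_num)).div_const τ)
    have w0 : ∀ y ∉ A, φ.normed volume (F y / τ) • Z F X y = 0 := fun y hy => by
      rw [z0 y hy, smul_zero]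
    have hW := glob hO hA.isClosed hAU (hF.smul hZ.contDiffOn) w0
    have h1 := int_div hW (HasCompactSupport.intro hA w0)
    refine Eq.trans ?_ ((congrArg (τ⁻¹ * ·) h1).trans (mul_zero _))
    rw [← integral_const_mul]
    refine integral_congr_ae (Eventually.of_forall fun y => ?_)
    beta_reduce
    by_cases hy : y ∈ A
    · have hU := hAU hy
      have hn := hO.mem_nhds hU
      have dF := ((h.chart.smooth.contDiffAt hn).differentiableAt two_ne_zero).hasFDerivAt
      have dψ := (hψ.differentiable one_ne_zero (F y / τ)).hasDerivAt.comp_hasFDerivAt y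
        (dF.mul_const τ⁻¹ |>.congr_of_eventuallyEq (f₁ := fun z => F z / τ)
          (Eventually.of_forall fun z => div_eq_mul_inv _ _))
      have dW := dψ.smul (hZ.differentiable one_ne_zero y).hasFDerivAt
      have e : fderiv ℝ F y (Z F X y) = 0 := by
        rw [((all_shape ι C U F h.chart).2.2 y hU).2.1, Z, inner_smul_right, inner_sub_right,
          inner_smul_right, h.inner_normal hU, real_inner_comm]
        ring
      rw [show fderiv ℝ ((fun y => φ.normed volume (F y / τ)) • Z F X) y = _ from dW.fderiv,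
        mul_div_cancel₀ _ (ha y hU), tr_add, tr_smul, tr_rank]
      simp [e, mul_assoc]
    · rw [fd0 hA.isClosed z0 hy, show fderiv ℝ ((fun y => φ.normed volume (F y / τ)) • Z F X) y = 0
        from fd0 hA.isClosed w0 hy, tr_zero]
      simp
  simp only [zero] at key
  rw [tendsto_nhds_unique tendsto_const_nhds key]
  refine setIntegral_congr_fun h.closed.measurableSet fun y hy => ?_
  beta_reduce
  by_cases hyA : y ∈ A
  · rw [tr_Z h hX hy (fun e => hA0 (e ▸ hyA)), mul_div_cancel_left₀ _ (ha y (hAU hyA))]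
  · rw [fd0 hA.isClosed z0 hyA, fd0 hA.isClosed h0 hyA, tr_zero]
    simp

end DIVx

theorem c_DIV (hWEAK : Q_WEAK) :
    Q_DIV := by
  intro ι _ n C U F h X hX hc h0
  obtain ⟨θ, t0, t1, -⟩ := exists_contMDiffMap_zero_one_nhds_of_isClosed
    (modelWithCornersSelf ℝ (E ι)) (n := 1) h.chart.isOpen.isClosed_compl
    (h.closed.inter (isClosed_tsupport X)) (disjoint_left.2 fun y h1 h2 =>
      h1 (h.cover y h2.1 fun e => h0 (e ▸ h2.2)))
  have hθ : ContDiff ℝ 1 θ := θ.contMDiff.contDiff
  have sub : tsupport (fun y => θ y • X y) ⊆ tsupport X := tsupport_smul_subset_right _ _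
  have key := DIVx.main hWEAK h (hθ.smul hX) (A := tsupport fun y => θ y • X y)
    (hc.of_isClosed_subset (isClosed_tsupport _) sub) (fun y hy => by
      by_contra hU
      refine notMem_tsupport_iff_eventuallyEq.2 ?_ hy
      filter_upwards [t0.filter_mono (nhds_le_nhdsSet hU)] with z hz
      simp [hz]) (fun e => h0 (sub e)) (fun y hy => image_eq_zero_of_notMem_tsupport hy)
  rw [← key]
  refine setIntegral_congr_fun h.closed.measurableSet fun y hy => ?_
  have e : X =ᶠ[𝓝 y] ((θ : E ι → ℝ) • X : E ι → E ι) := by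
    by_cases hs : y ∈ tsupport X
    · filter_upwards [t1.filter_mono (nhds_le_nhdsSet (mem_inter hy hs))] with z hz
      simp [hz]
    · filter_upwards [notMem_tsupport_iff_eventuallyEq.1 hs] with z hz
      simp [hz]
  beta_reduce
  rw [← e.fderiv_eq]

end Pool.Agent.P.MP_2b44f0_gt.PD
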