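import Pool.Agent.P.MP_2b44f0_gt.PD.If

/-! Step EQ. -/

namespace Pool.Agent.P.MP_2b44f0_gt.PD

open MeasureTheory Set Filter Asymptotics
open scoped ENNReal RealInnerProductSpace Topology

namespace EQx

variable {ι : Type} [Fintype ι]

theorem grad_aff {g : E ι → ℝ} {x : E ι} (hg : DifferentiableAt ℝ g x) (t : ℝ) :
    gradient (fun y => 1 - t * g y) x = (-t) • gradient g x := by
  have h1 : HasFDerivAt (fun y => 1 - t * g y) ((-t) • fderiv ℝ g x) x := by
    have := (hg.hasFDerivAt.const_mul t).const_sub 1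
    simpa [neg_smul] using this
  simp only [gradient, h1.fderiv, map_smul]

theorem prT_smul (F : E ι → ℝ) (x v : E ι) (c : ℝ) : prT F x (c • v) = c • prT F x v := by
  simp only [prT, inner_smul_right, smul_sub, smul_smul]

theorem le_zero_of {a b : ℝ} (h : ∀ t : ℝ, 0 < t → 2 * a ≤ t * b) : a ≤ 0 := by
  by_contra hc
  have ha : 0 < a := lt_of_not_ge hc
  have h1 := h (a / (|b| + 1)) (by positivity)
  have h2 : a / (|b| + 1) * b ≤ a := by
    rw [div_mul_eq_mul_div, div_le_iff₀ (by positivity)]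
    have := le_abs_self b
    nlinarith
  linarith

end EQx

theorem c_EQ (hFIN : Q_FIN) (hT1 : Q_T1) :
    Q_EQ := by
  intro ι _ n C U F h hle x hx
  obtain ⟨-, hae, hpos, hint⟩ := hFIN ι n C U F h
  set g : E ι → ℝ := fun y => sqCurv F y - n with hg
  have hsm : ContDiffOn ℝ (⊤ : ℕ∞) g U := h.sm_sqCurv.sub contDiffOn_const
  have hs1 : ContDiffOn ℝ 1 g U := hsm.of_le (by simp)
  have hcg : ContinuousOn g (lk C) := hs1.continuousOn.mono h.lk_sub
  have hgr : ContinuousOn (gradient g) (lk C) := by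
    have h1 : ContinuousOn (fderiv ℝ g) U :=
      hs1.continuousOn_fderiv_of_isOpen h.chart.isOpen le_rfl
    exact ((InnerProductSpace.toDual ℝ (E ι)).symm.continuous.comp_continuousOn h1).mono h.lk_sub
  have hnn : ContinuousOn (normal F) (lk C) := h.sm_normal.continuousOn.mono h.lk_sub
  have hpr : ContinuousOn (fun y => prT F y (gradient g y)) (lk C) := by
    unfold prT
    exact (hgr.sub ((ContinuousOn.inner (𝕜 := ℝ) continuousOn_id hgr).smul continuousOn_id)).sub
      ((ContinuousOn.inner (𝕜 := ℝ) hnn hgr).smul hnn)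
  set A : E ι → ℝ := fun y => ‖prT F y (gradient g y)‖ ^ 2 + g y ^ 3 with hA
  have hiA : Integrable A (lm n C) := hint _ ((hpr.norm.pow 2).add (hcg.pow 3))
  have hig : Integrable g (lm n C) := hint _ hcg
  have hi2 : Integrable (fun y => g y ^ 2) (lm n C) := hint _ (hcg.pow 2)
  have key : ∫ y, g y ^ 2 ∂lm n C ≤ 0 := by
    refine EQx.le_zero_of (b := ∫ y, A y ∂lm n C) fun t ht => ?_
    have h1 := hT1 ι n C U F h (fun y => 1 - t * g y)
      (contDiffOn_const.sub (contDiffOn_const.mul hs1))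
    have h2 : ∫ y, (‖prT F y (gradient (fun y => 1 - t * g y) y)‖ ^ 2 +
        (sqCurv F y - n) * (1 - t * g y) ^ 2) ∂lm n C =
        ∫ y, (g y - 2 * t * g y ^ 2 + t ^ 2 * A y) ∂lm n C := by
      refine integral_congr_ae (hae.mono fun y hy => ?_)
      have hd : DifferentiableAt ℝ g y :=
        (hs1.differentiableOn (by simp)).differentiableAt
          (h.chart.isOpen.mem_nhds (h.lk_sub hy))
      have he : sqCurv F y - n = g y := rfl
      simp only [EQx.grad_aff hd t, EQx.prT_smul, norm_smul, mul_pow, he, hA, Real.norm_eq_abs,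
        sq_abs]
      ring
    have hi3 : Integrable (fun y => g y - 2 * t * g y ^ 2) (lm n C) :=
      hig.sub (hi2.const_mul _)
    rw [h2, integral_add hi3 (hiA.const_mul _),
      integral_sub hig (hi2.const_mul _), integral_const_mul, integral_const_mul] at h1
    have h3 : ∫ y, g y ∂lm n C ≤ 0 := hle
    have h4 : t * (2 * ∫ y, g y ^ 2 ∂lm n C) ≤ t * (t * ∫ y, A y ∂lm n C) := by nlinarith
    exact le_of_mul_le_mul_left h4 ht
  have hz : (fun y => g y ^ 2) =ᵐ[lm n C] 0 :=
    (integral_eq_zero_iff_of_nonneg (fun y => sq_nonneg _) hi2).1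
      (le_antisymm key (integral_nonneg fun y => sq_nonneg _))
  by_contra hne
  have hgx : g x ≠ 0 := fun h0 => hne (sub_eq_zero.1 h0)
  have hev : ∀ᶠ y in 𝓝[lk C] x, g y ≠ 0 := (hcg x hx).eventually_ne hgx
  obtain ⟨ρ, hρ, hb⟩ := Metric.eventually_nhds_iff_ball.1 (eventually_nhdsWithin_iff.1 hev)
  refine (hpos x hx ρ hρ).ne' ?_
  refine measure_eq_zero_iff_ae_notMem.2 ?_
  filter_upwards [hae, hz] with y hy h0 hyb
  exact hb y hyb hy (pow_eq_zero_iff two_ne_zero |>.1 h0)

end Pool.Agent.P.MP_2b44f0_gt.PD
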