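import Pool.Agent.P.MP_2b44f0_gt.PD.If

/-! Step EST. -/

namespace Pool.Agent.P.MP_2b44f0_gt.PD

open MeasureTheory Set Filter Asymptotics
open scoped ENNReal RealInnerProductSpace Topology

namespace ESTx

theorem alg1 {K L φ δ s D : ℝ} (hK : 0 ≤ K) (hδ : 0 < δ) (h0 : (L + 1) * δ ≤ 1 / 4)
    (hφ : φ ≤ 2 * K) (hs : |s| ≤ K) (h1 : -(δ * s / 2) - L * δ ^ 2 - δ ^ 2 ≤ φ * D)
    (h2 : |D - δ / 2| ≤ L * δ ^ 2) : -s ≤ φ + 2 * (L + 1 + (2 * K + 1) * L) * δ := by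
  have h3 : δ / 4 ≤ D := by nlinarith [(abs_le.1 h2).1]
  have h4 : -(2 * K + 1) ≤ φ := by
    by_contra h
    have h5 : φ * D ≤ -(2 * K + 1) * D := by nlinarith
    have h6 : -(2 * K + 1) * D ≤ -(2 * K + 1) * (δ / 4) := by nlinarith
    have h7 : φ * D < -(2 * K + 1) * D := by nlinarith
    nlinarith [(abs_le.1 hs).2]
  have h5 : φ * (D - δ / 2) ≤ (2 * K + 1) * (L * δ ^ 2) := (le_abs_self _).trans (by
    rw [abs_mul]
    exact mul_le_mul (abs_le.2 ⟨h4, by linarith⟩) h2 (abs_nonneg _) (by linarith))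
  refine le_of_mul_le_mul_left ?_ hδ
  nlinarith

theorem alg2 {K L δ D t : ℝ} (hδ : 0 < δ) (hD : 0 < D) (h2 : D ≤ 2) (ht : t ^ 2 = 2 * D)
    (h : δ ^ 2 ≤ L * δ * D + K * t ^ 3) : (δ ^ 2) ^ 2 ≤ (32 * L ^ 4 + 32 * K ^ 2) * D ^ 3 := by
  have a1 : 0 ≤ L ^ 4 * D ^ 3 := by positivity
  have a2 : 0 ≤ K ^ 2 * D ^ 3 := by positivity
  rcases le_total (K * t ^ 3) (L * δ * D) with c | c
  · have h3 : δ ≤ 2 * L * D := le_of_mul_le_mul_left (by nlinarith) hδ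
    have h4 := pow_le_pow_left₀ hδ.le h3 4
    nlinarith
  · have h4 := pow_le_pow_left₀ (sq_nonneg δ) (show δ ^ 2 ≤ 2 * (K * t ^ 3) by linarith) 2
    have h5 : (2 * (K * t ^ 3)) ^ 2 = 4 * K ^ 2 * (t ^ 2) ^ 3 := by ring
    rw [h5, ht] at h4
    nlinarith

end ESTx

theorem c_EST (hFRAME : Q_FRAME) (hGEO : Q_GEO) (hEXI4 : Q_EXI4) :
    Q_EST := by
  intro ι _ n C U F h
  obtain ⟨K, hK, G⟩ := hGEO ι n C U F h
  obtain ⟨ρ, L, hρ, hL, X⟩ := hEXI4 ι n C U F h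
  set T := 2 * (L + 1 + (2 * K + 1) * L)
  have hT : 0 ≤ T := by positivity
  refine ⟨T + 2 * K + (32 * T ^ 4 + 32 * K ^ 2), min ((ρ ^ 2) ^ 2) ((1 / 4 / (L + 1)) ^ 2),
    by positivity, by positivity, fun ε hε h0 x hx y ⟨hy, hne, hm⟩ => ?_⟩
  have hδ := Real.sqrt_pos.2 hε
  have e1 := Real.sq_sqrt hε.le
  have b1 : √ε ≤ ρ ^ 2 := Real.sqrt_le_iff.2 ⟨by positivity, h0.trans (min_le_left _ _)⟩
  have b2 : √ε ≤ 1 / 4 / (L + 1) := Real.sqrt_le_iff.2 ⟨by positivity, h0.trans (min_le_right _ _)⟩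
  rw [le_div_iff₀' (by positivity)] at b2
  generalize √ε = δ at *
  subst e1
  have hD := lk_D_pos hx hy hne
  have hd := lk_dist hx hy
  obtain ⟨g1, -, g2⟩ := G x hx
  obtain ⟨-, -, g3, g4⟩ := g2 y hy
  have e2 : qv F (δ ^ 2) x y * (1 - ⟪x, y⟫) = ⟪normal F x, y⟫ - δ ^ 2 := div_mul_cancel₀ _ hD.ne'
  generalize qv F (δ ^ 2) x y = φ at *
  have c2 : φ ≤ 2 * K := le_of_mul_le_mul_right (by nlinarith [(abs_le.1 g3).2]) hD
  have c3 : ∀ ξ, Tan F x ξ → ‖ξ‖ = 1 → -⟪shape F x ξ, ξ⟫ ≤ φ + T * δ := fun ξ t u => by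
    have n1 : ‖√δ • ξ‖ = √δ := by rw [norm_smul, u, mul_one, Real.norm_of_nonneg (by positivity)]
    obtain ⟨z, hz, z1, z2⟩ := X x hx _ (t.smul √δ) (n1.le.trans (Real.sqrt_le_iff.2 ⟨hρ.le, b1⟩))
    have n2 := Real.sq_sqrt hδ.le
    have n4 : √δ ^ 4 = δ ^ 2 := by rw [show 4 = 2 * 2 from rfl, pow_mul, n2]
    rw [n1, n4, n2] at z2
    rw [n1, n4, map_smul, inner_smul_left, inner_smul_right, ← mul_assoc, conj_trivial, ← pow_two,
      n2] at z1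
    refine ESTx.alg1 hK hδ b2 c2 ((abs_real_inner_le_norm _ _).trans ?_)
      (le_trans (by linarith) (hm z hz)) z2
    simpa [u] using ((shape F x).le_opNorm ξ).trans (by simpa [u] using g1)
  have c4 : ∀ ξ, Tan F x ξ → -⟪shape F x ξ, ξ⟫ ≤ (φ + T * δ) * ‖ξ‖ ^ 2 := fun ξ t => by
    rcases eq_or_ne ξ 0 with rfl | u
    · simp
    have u := norm_pos_iff.2 u
    have := c3 _ (t.smul ‖ξ‖⁻¹) (by simp [norm_smul, u.ne'])
    rw [map_smul, inner_smul_left, inner_smul_right, conj_trivial] at this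
    rw [← div_le_iff₀ (by positivity)]
    exact le_of_eq_of_le (by ring) this
  have c1 : 0 ≤ φ + T * δ := by
    have hU := h.lk_sub hx
    obtain ⟨f1, f2⟩ := hFRAME ι n x (normal F x) h.card (lk_norm hx) (h.norm_normal hU)
      (h.normal_self hx.1 (lk_ne hx))
    obtain ⟨e, -, he, -⟩ := f2 0 (by simp) rfl rfl
    have s := (f1 e he).2 (shape F x)
    rw [h.tr_shape hx.1 (lk_ne hx), h.shape_self hx.1 (lk_ne hx), h.shape_normal hU] at s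
    obtain ⟨i, -, hi⟩ := Finset.exists_le_of_sum_le (f := fun i => ⟪shape F x (e i), e i⟫)
      (g := fun _ => 0) ⟨⟨0, h.pos⟩, Finset.mem_univ _⟩ (by simp [← s])
    have := c3 (e i) ⟨he.px i, he.pn i⟩ (by rw [norm_eq_sqrt_real_inner, he.on]; simp)
    linarith
  have p1 : 0 ≤ (2 * K + (32 * T ^ 4 + 32 * K ^ 2)) * δ := by positivity
  refine ⟨by linarith, c2.trans (by nlinarith [pow_nonneg hT 4]), fun ξ t => (c4 ξ t).trans
    (mul_le_mul_of_nonneg_right (by linarith) (by positivity)), ?_⟩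
  have t := h.tan_prT hx (y - x)
  have c5 := c4 _ t
  rw [h.shape_prT hx, (h.tan_shape hx _).inner_prT] at c5
  have c6 : ‖prT F x (y - x)‖ ^ 2 ≤ ‖y - x‖ ^ 2 := by
    have := real_inner_le_norm (prT F x (y - x)) (y - x)
    rw [← t.inner_prT, real_inner_self_eq_norm_sq] at this
    nlinarith [sq_nonneg (‖prT F x (y - x)‖ - ‖y - x‖)]
  have c7 := mul_le_mul_of_nonneg_left c6 c1
  have c8 := abs_real_inner_le_norm x y
  rw [lk_norm hx, lk_norm hy] at c8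
  refine (ESTx.alg2 (K := K) (L := T) hδ hD (by linarith [(abs_le.1 c8).1]) hd ?_).trans
    (mul_le_mul_of_nonneg_right (by linarith) (by positivity))
  rw [hd] at c7
  linarith [(abs_le.1 g4).2]

end Pool.Agent.P.MP_2b44f0_gt.PD
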