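import Pool.Agent.P.MP_2b44f0_gt.PD.If

/-! Step EXI. -/

namespace Pool.Agent.P.MP_2b44f0_gt.PD

open MeasureTheory Set Filter Asymptotics
open scoped ENNReal RealInnerProductSpace Topology

namespace EXIx

variable {ι : Type} [Fintype ι]

theorem nsq {y ν ξ : E ι} (hy : ‖y‖ = 1) (hν : ‖ν‖ = 1) (h1 : ⟪ν, y⟫ = 0) (h2 : ⟪y, ξ⟫ = 0)
    (h3 : ⟪ν, ξ⟫ = 0) (a s : ℝ) : ‖a • y + ξ + s • ν‖ ^ 2 = a ^ 2 + ‖ξ‖ ^ 2 + s ^ 2 := by
  have h4 : ⟪y, ν⟫ = 0 := by rw [real_inner_comm]; exact h1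
  have h5 : ⟪ξ, ν⟫ = 0 := by rw [real_inner_comm]; exact h3
  rw [norm_add_sq_real, norm_add_sq_real, inner_add_left, inner_smul_left, inner_smul_left,
    inner_smul_right, inner_smul_right, h2, h4, h5, norm_smul, norm_smul, hy, hν]
  simp

theorem est {a r s K : ℝ} (ha : 0 ≤ a) (hr : 0 ≤ r) (hr1 : r ≤ 1 / 2) (h : a ^ 2 = 1 - r ^ 2 - s ^ 2)
    (hs : s ^ 2 ≤ r ^ 2) (hs2 : |s| ≤ K * (2 * r) ^ 2) :
    |a - 1 + r ^ 2 / 2| ≤ (2 + 8 * K ^ 2) * r ^ 3 := by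
  have h1 : s ^ 2 ≤ 16 * K ^ 2 * r ^ 4 := by
    have := pow_le_pow_left₀ (abs_nonneg s) hs2 2
    rw [sq_abs] at this
    nlinarith
  have h2 : r ^ 4 ≤ r ^ 3 := pow_le_pow_of_le_one hr (by linarith) (by norm_num)
  have h3 : a ≤ 1 := by nlinarith [sq_nonneg r, sq_nonneg s]
  have h4 : 1 - a ≤ 2 * r ^ 2 := by nlinarith
  have h5 : (1 - a) ^ 2 ≤ 4 * r ^ 4 := by nlinarith
  have h6 : a - 1 + r ^ 2 / 2 = -((1 - a) ^ 2 / 2 + s ^ 2 / 2) := by nlinarith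
  have h7 : K ^ 2 * r ^ 4 ≤ K ^ 2 * r ^ 3 := mul_le_mul_of_nonneg_left h2 (sq_nonneg K)
  rw [h6, abs_neg, abs_of_nonneg (by positivity)]
  nlinarith

end EXIx

theorem c_EXI (hTAYL : Q_TAYL) (hGEO : Q_GEO) :
    Q_EXI := by
  intro ι _ n C U F h
  obtain ⟨ρ, K, hρ, hK, hT⟩ := hTAYL ι ℝ F U (lk C) h.chart.isOpen h.compact h.lk_sub h.smooth
  obtain ⟨K2, hK2, hG⟩ := hGEO ι n C U F h
  have hc : ContinuousOn (fun y => ‖gradient F y‖) (lk C) := by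
    have h1 := (h.chart.smooth.continuousOn_fderiv_of_isOpen h.chart.isOpen
      (by norm_num)).mono h.lk_sub
    simpa [gradient] using h1.norm
  obtain ⟨g, hg, hg'⟩ := h.compact.exists_forall_le' hc (a := 0)
    fun y hy => norm_pos_iff.2 (h.chart.grad_ne y (h.lk_sub hy))
  refine ⟨min (min (ρ / 2) (1 / 2)) (g / (4 * K + 1)), 2 + 8 * K2 ^ 2 + 8 * K2, by positivity,
    by positivity, fun y hy ξ hξ hr => ?_⟩
  have hyU := h.lk_sub hy
  obtain ⟨hr12, hr3⟩ := le_min_iff.1 hr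
  obtain ⟨hr1, hr2⟩ := le_min_iff.1 hr12
  set r := ‖ξ‖ with hrd
  set ν := normal F y with hν
  have hr0 : 0 ≤ r := norm_nonneg _
  have hν1 : ‖ν‖ = 1 := h.norm_normal hyU
  have hνy : ⟪ν, y⟫ = 0 := h.normal_self hy.1 (lk_ne hy)
  have hN := EXIx.nsq (lk_norm hy) hν1 hνy hξ.1 hξ.2
  let a : ℝ → ℝ := fun s => √(1 - r ^ 2 - s ^ 2)
  let v : ℝ → E ι := fun s => (a s - 1) • y + ξ + s • ν
  have hs2 : ∀ s ∈ Icc (-r) r, s ^ 2 ≤ r ^ 2 := fun s hs => sq_le_sq' hs.1 hs.2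
  have ha : ∀ s ∈ Icc (-r) r, a s ^ 2 = 1 - r ^ 2 - s ^ 2 := fun s hs =>
    Real.sq_sqrt (by nlinarith [hs2 s hs])
  have ha0 : ∀ s, 0 ≤ a s := fun s => Real.sqrt_nonneg _
  have hv : ∀ s ∈ Icc (-r) r, ‖v s‖ ≤ 2 * r := fun s hs => by
    have h1 := ha s hs
    have h2 := hs2 s hs
    have h3 := ha0 s
    have h4 : a s ≤ 1 := by nlinarith [sq_nonneg r, sq_nonneg s]
    refine le_of_sq_le_sq ?_ (by positivity)
    rw [hN]
    nlinarith
  have hνv : ∀ s, ⟪ν, v s⟫ = s := fun s => by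
    simp only [v, inner_add_right, inner_smul_right, hνy, real_inner_self_eq_norm_sq, hν1]
    have : ⟪ν, ξ⟫ = 0 := hξ.2
    rw [this]; ring
  have hvU : ∀ s ∈ Icc (-r) r, y + v s ∈ U := fun s hs =>
    ((hT y hy).2.2.2 (v s) (by linarith [hv s hs])).1
  have hF : ∀ s ∈ Icc (-r) r, |F (y + v s) - ‖gradient F y‖ * s| ≤ g * r := fun s hs => by
    have h1 := ((hT y hy).2.2.2 (v s) (by linarith [hv s hs])).2.2.1
    rw [((all_shape ι C U F h.chart).2.2 y hyU).2.1, (h.chart.zero_set y hyU).1 hy.1, sub_zero,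
      hνv, Real.norm_eq_abs] at h1
    have h2 : ‖v s‖ ^ 2 ≤ (2 * r) ^ 2 := pow_le_pow_left₀ (norm_nonneg _) (hv s hs) 2
    have h3 : r * (4 * K + 1) ≤ g := (le_div_iff₀ (by positivity)).1 hr3
    nlinarith [mul_le_mul_of_nonneg_left h2 hK, mul_le_mul_of_nonneg_left h3 hr0]
  have hcont : ContinuousOn (fun s => F (y + v s)) (Icc (-r) r) :=
    h.chart.smooth.continuousOn.comp (f := fun s => y + v s) (by fun_prop) hvU
  have hgy := mul_le_mul_of_nonneg_right (hg' y hy) hr0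
  obtain ⟨s, hs, hs0⟩ := intermediate_value_Icc (by linarith : -r ≤ r) hcont
    (show (0 : ℝ) ∈ Icc _ _ from
      ⟨by linarith [(abs_le.1 (hF (-r) ⟨le_rfl, by linarith⟩)).2],
        by linarith [(abs_le.1 (hF r ⟨by linarith, le_rfl⟩)).1]⟩)
  have hz : y + v s ∈ lk C := by
    refine ⟨(h.chart.zero_set _ (hvU s hs)).2 hs0, ?_⟩
    have h1 : y + v s = a s • y + ξ + s • ν := by simp only [v]; module
    have h2 := hN (a s) s
    rw [← h1, ha s hs] at h2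
    rw [mem_sphere_zero_iff_norm]
    nlinarith [norm_nonneg (y + v s)]
  refine ⟨_, hz, ?_⟩
  obtain ⟨-, -, h3, h4⟩ := (hG y hy).2.2 _ hz
  rw [add_sub_cancel_left, inner_add_right, hνy, hνv, zero_add] at h3 h4
  have h5 : ⟪shape F y (v s), v s⟫ = ⟪shape F y ξ, ξ⟫ := by
    have h6 : shape F y (v s) = shape F y ξ := by
      simp [v, hν, h.shape_self hy.1 (lk_ne hy), h.shape_normal hyU]
    have h7 := h.tan_shape hy ξ
    have h8 : ⟪shape F y ξ, y⟫ = 0 := by rw [real_inner_comm]; exact h7.1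
    have h9 : ⟪shape F y ξ, ν⟫ = 0 := by rw [real_inner_comm]; exact h7.2
    rw [h6]
    simp only [v, inner_add_right, inner_smul_right, h8, h9]
    ring
  rw [h5] at h4
  have h6 := EXIx.est (ha0 s) hr0 hr2 (ha s hs) (hs2 s hs) (h3.trans
    (mul_le_mul_of_nonneg_left (pow_le_pow_left₀ (norm_nonneg _) (hv s hs) 2) hK2))
  have h7 := h4.trans
    (mul_le_mul_of_nonneg_left (pow_le_pow_left₀ (norm_nonneg _) (hv s hs) 3) hK2)
  have h8 : y + v s - (y + ξ - (r ^ 2 / 2) • y - (⟪shape F y ξ, ξ⟫ / 2) • ν) =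
      (a s - 1 + r ^ 2 / 2) • y + (s + ⟪shape F y ξ, ξ⟫ / 2) • ν := by
    simp only [v]; module
  rw [h8]
  refine (norm_add_le _ _).trans ?_
  rw [norm_smul, norm_smul, lk_norm hy, hν1, Real.norm_eq_abs, Real.norm_eq_abs]
  nlinarith

end Pool.Agent.P.MP_2b44f0_gt.PD
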