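import Pool.Agent.P.MP_2b44f0_gt.PD.If

/-! Step EXI4. -/

namespace Pool.Agent.P.MP_2b44f0_gt.PD

open MeasureTheory Set Filter Asymptotics
open scoped ENNReal RealInnerProductSpace Topology

namespace EXI4x

theorem nrm {N r s L : ℝ} (hN : 0 < N) (hN2 : N ^ 2 = 1 + r ^ 2 + s ^ 2) (hs : |s| ≤ L * r ^ 2)
    (hs' : s ^ 2 ≤ r ^ 2) :
    s - L * r ^ 4 ≤ N⁻¹ * s ∧ |1 - N⁻¹ - r ^ 2 / 2| ≤ (2 + L ^ 2) * r ^ 4 := by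
  have h1 : 1 ≤ N := by nlinarith [sq_nonneg r, sq_nonneg s]
  have h2 : N - 1 ≤ r ^ 2 := by nlinarith [sq_nonneg (N - 1)]
  have hu : N * N⁻¹ = 1 := mul_inv_cancel₀ hN.ne'
  have u0 : 0 < N⁻¹ := inv_pos.2 hN
  have u1 : N⁻¹ ≤ 1 := inv_le_one_of_one_le₀ h1
  have e1 : 1 - N⁻¹ = (N - 1) * N⁻¹ := by linear_combination -hu
  have h3 : 1 - N⁻¹ ≤ r ^ 2 := by rw [e1]; nlinarith
  have hL : s ^ 2 ≤ L ^ 2 * r ^ 4 := by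
    have := pow_le_pow_left₀ (abs_nonneg s) hs 2
    rw [sq_abs] at this
    nlinarith
  constructor
  · have h4 : s * (1 - N⁻¹) ≤ L * r ^ 2 * r ^ 2 :=
      (mul_le_mul_of_nonneg_right (le_abs_self s) (by linarith)).trans
        (mul_le_mul hs h3 (by linarith) ((abs_nonneg s).trans hs))
    nlinarith
  · have e2 : (r ^ 2 + s ^ 2) / 2 - (1 - N⁻¹) = (N - 1) ^ 2 * (1 / 2 + N⁻¹) := by
      linear_combination (-1 / 2) * hN2 + (2 - N) * hu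
    have h5 : (N - 1) ^ 2 ≤ r ^ 4 := by nlinarith
    have h6 : 0 ≤ (N - 1) ^ 2 * (1 / 2 + N⁻¹) := by positivity
    have h7 : (N - 1) ^ 2 * (1 / 2 + N⁻¹) ≤ r ^ 4 * 2 :=
      mul_le_mul h5 (by linarith) (by positivity) (by positivity)
    have h8 : 0 ≤ r ^ 4 := by positivity
    rw [abs_le]
    constructor <;> nlinarith [sq_nonneg s]

variable {ι : Type} [Fintype ι] {n : ℕ} {C U : Set (E ι)} {F : E ι → ℝ} {x : E ι}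

theorem nsq (h : St n C U F) (hx : x ∈ lk C) {η : E ι} (hη : Tan F x η) (s : ℝ) :
    ‖η + s • normal F x‖ ^ 2 = ‖η‖ ^ 2 + s ^ 2 := by
  rw [norm_add_sq_real, inner_smul_right, real_inner_comm, hη.2, norm_smul,
    h.norm_normal (h.lk_sub hx)]
  simp

/-- the normalised zero of `F` on a normal segment -/
theorem hit (h : St n C U F) (hx : x ∈ lk C) {η : E ι} (hη : Tan F x η) {s₀ L : ℝ}
    (h0 : |s₀| ≤ L * ‖η‖ ^ 2) (hL : L * ‖η‖ ≤ 1)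
    (hU : ∀ v, ‖v‖ ≤ 2 * ‖η‖ → x + v ∈ U) (hn : F (x + (η + s₀ • normal F x)) ≤ 0)
    (hp : 0 ≤ F (x + (η + (L * ‖η‖ ^ 2) • normal F x))) :
    ∃ z ∈ lk C, s₀ - L * ‖η‖ ^ 4 ≤ ⟪normal F x, z⟫ ∧
      |1 - ⟪x, z⟫ - ‖η‖ ^ 2 / 2| ≤ (2 + L ^ 2) * ‖η‖ ^ 4 := by
  have hr := norm_nonneg η
  have hb : ∀ s ∈ Icc s₀ (L * ‖η‖ ^ 2), |s| ≤ L * ‖η‖ ^ 2 := fun s hs =>
    abs_le.2 ⟨(abs_le.1 h0).1.trans hs.1, hs.2⟩
  have hb' : ∀ s ∈ Icc s₀ (L * ‖η‖ ^ 2), |s| ≤ ‖η‖ := fun s hs => (hb s hs).trans (by nlinarith)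
  have hm : ∀ s ∈ Icc s₀ (L * ‖η‖ ^ 2), x + (η + s • normal F x) ∈ U := fun s hs => hU _ (by
    refine (norm_add_le _ _).trans ?_
    rw [norm_smul, h.norm_normal (h.lk_sub hx), Real.norm_eq_abs]
    linarith [hb' s hs])
  have hc : ContinuousOn (fun s : ℝ => F (x + (η + s • normal F x))) (Icc s₀ (L * ‖η‖ ^ 2)) :=
    h.smooth.continuousOn.comp (by fun_prop) hm
  obtain ⟨s, hs, e⟩ := intermediate_value_Icc ((le_abs_self _).trans h0) hc ⟨hn, hp⟩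
  set Y := x + (η + s • normal F x) with hY
  have hYC : Y ∈ C := (h.chart.zero_set Y (hm s hs)).2 e
  have n1 := h.normal_self hx.1 (lk_ne hx)
  have n2 : ⟪x, normal F x⟫ = 0 := by rw [real_inner_comm]; exact n1
  have i0 : ⟪x, η + s • normal F x⟫ = 0 := by
    rw [inner_add_right, inner_smul_right, hη.1, n2]; simp
  have i1 : ⟪x, Y⟫ = 1 := by rw [hY, inner_add_right, i0, lk_inner hx, add_zero]
  have i2 : ⟪normal F x, Y⟫ = s := by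
    rw [hY, inner_add_right, inner_add_right, inner_smul_right, n1, hη.2,
      h.inner_normal (h.lk_sub hx)]
    simp
  have Y0 : Y ≠ 0 := fun e => by rw [e, inner_zero_right] at i1; exact zero_ne_one i1
  have hN : ‖Y‖ ^ 2 = 1 + ‖η‖ ^ 2 + s ^ 2 := by
    rw [hY, norm_add_sq_real, i0, nsq h hx hη, lk_norm hx]; ring
  obtain ⟨a1, a2⟩ := nrm (norm_pos_iff.2 Y0) hN (hb s hs)
    (by simpa using pow_le_pow_left₀ (abs_nonneg s) (hb' s hs) 2)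
  refine ⟨_, h.mem_lk hYC Y0, ?_, ?_⟩
  · rw [inner_smul_right, i2]; linarith [hs.1]
  · rwa [inner_smul_right, i1, mul_one]

end EXI4x

theorem c_EXI4 (hTAYL : Q_TAYL) (hGEO : Q_GEO) :
    Q_EXI4 := by
  intro ι _ n C U F h
  have hO := h.chart.isOpen
  obtain ⟨ρ₁, K₁, p1, k1, T1⟩ := hTAYL ι ℝ F U (lk C) hO h.compact h.lk_sub h.smooth
  have hA : IsCompact ((fun p : E ι × E ι => p.1 + p.2) '' (lk C ×ˢ Metric.closedBall 0 ρ₁)) :=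
    (h.compact.prod (isCompact_closedBall 0 ρ₁)).image (by fun_prop)
  obtain ⟨ρ₂, K₂, p2, k2, T2⟩ := hTAYL ι ℝ F U _ hO hA (by
    rintro _ ⟨⟨x, v⟩, ⟨hx, hv⟩, rfl⟩
    exact ((T1 x hx).2.2.2 v (by simpa using hv)).1) h.smooth
  obtain ⟨ρ₃, K₃, p3, k3, T3⟩ := hTAYL ι _ (fderiv ℝ (fderiv ℝ F)) U (lk C) hO h.compact h.lk_sub
    ((h.smooth.fderiv_of_isOpen (m := (⊤ : ℕ∞)) hO (by simp)).fderiv_of_isOpen hO (by simp))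
  obtain ⟨K₄, k4, G⟩ := hGEO ι n C U F h
  obtain ⟨B₀, hB₀⟩ := h.compact.exists_bound_of_continuousOn
    (f := fun z => ‖gradient F z‖⁻¹) fun z hz =>
      (Shape.cI h.chart (h.lk_sub hz)).continuousAt.continuousWithinAt
  obtain ⟨B, b0, hB⟩ : ∃ B : ℝ, 0 ≤ B ∧ ∀ x ∈ lk C, 1 ≤ ‖gradient F x‖ * B :=
    ⟨max B₀ 0, le_max_right _ _, fun x hx => by
      have g0 : 0 < ‖gradient F x‖ := norm_pos_iff.2 (h.chart.grad_ne x (h.lk_sub hx))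
      have := (le_abs_self _).trans ((hB₀ x hx).trans (le_max_left B₀ 0))
      rwa [inv_le_iff_one_le_mul₀' g0] at this⟩
  obtain ⟨K₅, hK₅⟩ : ∃ K, K = K₄ / 2 + 1 := ⟨_, rfl⟩
  have k5 : 0 ≤ K₅ := by rw [hK₅]; positivity
  obtain ⟨M, hM⟩ : ∃ M, M = 2 * K₁ * K₅ ^ 2 + K₃ * K₅ + K₂ := ⟨_, rfl⟩
  have m0 : 0 ≤ M := by rw [hM]; positivity
  obtain ⟨L, hL⟩ : ∃ L, L = 2 * K₁ * B + K₅ := ⟨_, rfl⟩
  have l0 : 0 ≤ L := by rw [hL]; positivity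
  have l5 : K₅ ≤ L := by rw [hL]; linarith [show 0 ≤ 2 * K₁ * B by positivity]
  have kB : 0 ≤ M * B := by positivity
  refine ⟨min (min (ρ₁ / 2) ρ₂) (min ρ₃ (M * B + L + 1)⁻¹), M * B + L + (2 + L ^ 2),
    by positivity, by positivity, fun x hx ξ hξ hr => ?_⟩
  simp only [le_min_iff] at hr
  obtain ⟨⟨r1, r2⟩, r3, r4⟩ := hr
  have hU := h.lk_sub hx
  have r0 := norm_nonneg ξ
  have r5 : (M * B + L + 1) * ‖ξ‖ ≤ 1 := by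
    rwa [← one_div, le_div_iff₀' (by positivity)] at r4
  have r6 : L * ‖ξ‖ ≤ 1 := by nlinarith
  have r7 : M * B * ‖ξ‖ ^ 2 ≤ 1 := by
    have : ‖ξ‖ ≤ 1 := by nlinarith
    nlinarith [mul_nonneg kB r0, mul_nonneg l0 r0]
  have F0 : F x = 0 := (h.chart.zero_set x hU).1 hx.1
  have gB := hB x hx
  have g0 := norm_nonneg (gradient F x)
  have nν := h.norm_normal hU
  have dF : ∀ η, Tan F x η → ∀ s : ℝ, fderiv ℝ F x (η + s • normal F x) = ‖gradient F x‖ * s :=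
    fun η hη s => by
      rw [Shape.fd h.chart hU, inner_add_right, inner_smul_right, hη.2, h.inner_normal hU]; simp
  have ha : |⟪shape F x ξ, ξ⟫| ≤ K₄ * ‖ξ‖ ^ 2 := (abs_real_inner_le_norm _ _).trans (by
    have := ((shape F x).le_opNorm ξ).trans (mul_le_mul_of_nonneg_right (G x hx).1 r0)
    nlinarith)
  have d2 : fderiv ℝ (fderiv ℝ F) x ξ ξ = ‖gradient F x‖ * ⟪shape F x ξ, ξ⟫ := by
    rw [Shape.form h.chart hU, Shape.proj_apply, hξ.2, zero_smul, sub_zero,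
      mul_inv_cancel_left₀ (norm_ne_zero_iff.2 (h.chart.grad_ne x hU))]
  obtain ⟨s₀, hs₀⟩ : ∃ s, s = -(⟪shape F x ξ, ξ⟫ / 2) - M * B * ‖ξ‖ ^ 4 := ⟨_, rfl⟩
  have s1 : |s₀| ≤ K₅ * ‖ξ‖ ^ 2 := by
    have h4 : M * B * ‖ξ‖ ^ 4 ≤ ‖ξ‖ ^ 2 := by nlinarith [sq_nonneg ‖ξ‖]
    have h5 : 0 ≤ M * B * ‖ξ‖ ^ 4 := by positivity
    obtain ⟨a1, a2⟩ := abs_le.1 ha
    rw [hs₀, hK₅, abs_le]
    constructor <;> nlinarith [sq_nonneg ‖ξ‖]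
  have s2 : |s₀| ≤ L * ‖ξ‖ ^ 2 := s1.trans (mul_le_mul_of_nonneg_right l5 (sq_nonneg _))
  have s3 : |s₀| ≤ ‖ξ‖ := s2.trans (by nlinarith)
  have nw : ‖s₀ • normal F x‖ = |s₀| := by rw [norm_smul, nν, mul_one, Real.norm_eq_abs]
  have w1 : ‖s₀ • normal F x‖ ≤ ρ₁ := by rw [nw]; linarith
  have t0 : Tan F x 0 := ⟨inner_zero_right _, inner_zero_right _⟩
  have sum : F (x + s₀ • normal F x + ξ) + F (x + s₀ • normal F x - ξ) ≤ 0 := by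
    have e1 := ((T2 _ ⟨(x, s₀ • normal F x), ⟨hx, by simpa using w1⟩, rfl⟩).2.2.2 ξ r2).2.2.2.2
    have e2 := ((T1 x hx).2.2.2 _ w1).2.2.1
    have e3 := ((T3 x hx).2.2.2 (s₀ • normal F x) (by rw [nw]; linarith)).2.1
    have e4 := dF 0 t0 s₀
    rw [zero_add] at e4
    rw [e4, F0, nw, Real.norm_eq_abs] at e2
    rw [nw] at e3
    have e5 : |fderiv ℝ (fderiv ℝ F) (x + s₀ • normal F x) ξ ξ - fderiv ℝ (fderiv ℝ F) x ξ ξ| ≤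
        K₃ * |s₀| * ‖ξ‖ * ‖ξ‖ := by
      have := (fderiv ℝ (fderiv ℝ F) (x + s₀ • normal F x) - fderiv ℝ (fderiv ℝ F) x).le_opNorm₂ ξ ξ
      exact this.trans (by gcongr)
    simp only [smul_eq_mul, Real.norm_eq_abs] at e1
    have e6 : K₁ * |s₀| ^ 2 ≤ K₁ * (K₅ * ‖ξ‖ ^ 2) ^ 2 := by gcongr
    have e7 : K₃ * |s₀| * ‖ξ‖ * ‖ξ‖ ≤ K₃ * (K₅ * ‖ξ‖ ^ 2) * ‖ξ‖ * ‖ξ‖ := by gcongr
    have e8 : M * ‖ξ‖ ^ 4 * 1 ≤ M * ‖ξ‖ ^ 4 * (‖gradient F x‖ * B) := by gcongr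
    have e9 : 0 ≤ M * ‖ξ‖ ^ 4 := by positivity
    have e10 : ‖gradient F x‖ * s₀ = -(‖gradient F x‖ * ⟪shape F x ξ, ξ⟫ / 2) -
        M * ‖ξ‖ ^ 4 * (‖gradient F x‖ * B) := by rw [hs₀]; ring
    have e11 : M * ‖ξ‖ ^ 4 = 2 * (K₁ * (K₅ * ‖ξ‖ ^ 2) ^ 2) + K₃ * (K₅ * ‖ξ‖ ^ 2) * ‖ξ‖ * ‖ξ‖ +
        K₂ * ‖ξ‖ ^ 4 := by rw [hM]; ring
    linarith [(abs_le.1 e1).2, (abs_le.1 e2).2, (abs_le.1 e5).2]
  have fin : ∀ η, Tan F x η → ‖η‖ = ‖ξ‖ → F (x + (η + s₀ • normal F x)) ≤ 0 → ∃ z ∈ lk C,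
      -(⟪shape F x ξ, ξ⟫ / 2) - (M * B + L + (2 + L ^ 2)) * ‖ξ‖ ^ 4 ≤ ⟪normal F x, z⟫ ∧
      |1 - ⟪x, z⟫ - ‖ξ‖ ^ 2 / 2| ≤ (M * B + L + (2 + L ^ 2)) * ‖ξ‖ ^ 4 := fun η hη e hn => by
    have q1 : (L * ‖ξ‖ ^ 2) ^ 2 ≤ ‖ξ‖ ^ 2 := by
      have : (L * ‖ξ‖) ^ 2 ≤ 1 := pow_le_one₀ (by positivity) r6
      nlinarith [sq_nonneg ‖ξ‖]
    have q2 := EXI4x.nsq h hx hη (L * ‖ξ‖ ^ 2)
    rw [e] at q2
    have q3 : ‖η + (L * ‖ξ‖ ^ 2) • normal F x‖ ≤ ρ₁ :=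
      (abs_le_of_sq_le_sq' (b := 2 * ‖ξ‖) (by rw [q2]; linarith [sq_nonneg ‖ξ‖])
        (by positivity)).2.trans (by linarith)
    have q4 := ((T1 x hx).2.2.2 _ q3).2.2.1
    rw [dF η hη, F0, q2, Real.norm_eq_abs] at q4
    have q5 : K₁ * (‖ξ‖ ^ 2 + (L * ‖ξ‖ ^ 2) ^ 2) ≤ K₁ * (‖ξ‖ ^ 2 + ‖ξ‖ ^ 2) := by gcongr
    have q6 : 2 * K₁ * ‖ξ‖ ^ 2 * 1 ≤ 2 * K₁ * ‖ξ‖ ^ 2 * (‖gradient F x‖ * B) := by gcongr
    have q7 : 0 ≤ ‖gradient F x‖ * K₅ * ‖ξ‖ ^ 2 := by positivity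
    have q8 : ‖gradient F x‖ * (L * ‖ξ‖ ^ 2) = 2 * K₁ * ‖ξ‖ ^ 2 * (‖gradient F x‖ * B) +
        ‖gradient F x‖ * K₅ * ‖ξ‖ ^ 2 := by rw [hL]; ring
    obtain ⟨z, hz, z1, z2⟩ := EXI4x.hit (L := L) h hx hη (e ▸ s2) (e ▸ r6)
      (fun v hv => ((T1 x hx).2.2.2 v (by rw [e] at hv; linarith)).1) hn
      (by rw [e]; linarith [(abs_le.1 q4).1])
    rw [e] at z1 z2
    have q9 : 0 ≤ ‖ξ‖ ^ 4 := by positivity
    refine ⟨z, hz, ?_, z2.trans (mul_le_mul_of_nonneg_right (by linarith) q9)⟩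
    have : 0 ≤ (2 + L ^ 2) * ‖ξ‖ ^ 4 := by positivity
    rw [hs₀] at z1
    linarith
  rcases le_total (F (x + s₀ • normal F x + ξ)) 0 with c | c
  · exact fin ξ hξ rfl (by rwa [add_comm ξ, ← add_assoc])
  · refine fin (-ξ) (by simpa using hξ.smul (-1)) (norm_neg ξ) ?_
    rw [add_comm (-ξ), ← add_assoc, ← sub_eq_add_neg]
    linarith

end Pool.Agent.P.MP_2b44f0_gt.PD
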