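import Pool.Agent.P.MP_2b44f0_gt.PD.If

/-! Step FIN. -/

namespace Pool.Agent.P.MP_2b44f0_gt.PD

open MeasureTheory Set Filter Asymptotics
open scoped ENNReal RealInnerProductSpace Topology

theorem c_FIN (hBALL1 : Q_BALL1) (hBALL2 : Q_BALL2) (hPOL : Q_POL) :
    Q_FIN := by
  classical
  intro ι _ n C U F h
  obtain ⟨ω, hω, h1⟩ := hBALL1 ι n C U F h
  obtain ⟨K, -, h2⟩ := hBALL2 ι n C U F h
  have hfin : μHE[n + 1] (C ∩ Metric.ball (0 : E ι) 1) ≠ ∞ :=
    ne_top_of_le_ne_top ENNReal.ofReal_ne_top (h2 0 (Or.inr rfl) 1 one_pos)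
  have hm : Measurable fun y : E ι => ‖y‖⁻¹ • y := by fun_prop
  have hC : MeasurableSet C := h.closed.measurableSet
  have hF : IsFiniteMeasure (lm n C) := by
    constructor
    rw [lm, Measure.map_apply hm MeasurableSet.univ, preimage_univ, Measure.restrict_apply_univ]
    exact hfin.lt_top
  have h0 : μHE[n + 1] ({0} : Set (E ι)) = 0 := by
    refine le_antisymm ?_ (zero_le)
    have hz : (0 : E ι) ∈ C := by
      obtain ⟨i⟩ : Nonempty ι := Fintype.card_pos_iff.1 (by rw [h.card]; omega)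
      obtain ⟨x, hx, -⟩ := h.nonflat (EuclideanSpace.single i 1) (by
        intro e; simpa using congrArg (fun v : E ι => v i) e)
      have ht : Tendsto (fun t : ℝ => t • x) (𝓝[>] 0) (𝓝 0) := by
        have : Tendsto (fun t : ℝ => t • x) (𝓝 0) (𝓝 ((0 : ℝ) • x)) :=
          (continuous_id.smul continuous_const).tendsto 0
        rw [zero_smul] at this
        exact this.mono_left nhdsWithin_le_nhds
      exact h.closed.mem_of_tendsto ht
        (eventually_mem_nhdsWithin.mono fun t ht => h.cone x hx t ht)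
    have ht : Tendsto (fun ρ : ℝ => ENNReal.ofReal (K * ρ ^ (n + 1))) (𝓝[>] 0) (𝓝 0) := by
      have : Tendsto (fun ρ : ℝ => ENNReal.ofReal (K * ρ ^ (n + 1))) (𝓝 0)
          (𝓝 (ENNReal.ofReal (K * (0 : ℝ) ^ (n + 1)))) :=
        (ENNReal.continuous_ofReal.comp (by fun_prop)).tendsto 0
      simpa using this.mono_left nhdsWithin_le_nhds
    refine ge_of_tendsto ht (eventually_mem_nhdsWithin.mono fun ρ hρ => ?_)
    refine le_trans (measure_mono ?_) (h2 0 (Or.inr rfl) ρ hρ)
    rintro y rfl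
    exact ⟨hz, Metric.mem_ball_self hρ⟩
  have hae : ∀ᵐ x ∂lm n C, x ∈ lk C := by
    rw [lm, ae_map_iff (p := fun x => x ∈ lk C) hm.aemeasurable h.compact.isClosed.measurableSet,
      ae_restrict_iff' (hC.inter Metric.isOpen_ball.measurableSet)]
    have : ∀ᵐ y ∂(μHE[n + 1] : Measure (E ι)), y ≠ 0 := by
      rw [ae_iff]; simpa using h0
    filter_upwards [this] with y hy hyC
    exact h.mem_lk hyC.1 hy
  refine ⟨hF, hae, fun x hx ρ hρ => ?_, fun g hg => ?_⟩
  · rw [pos_iff_ne_zero]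
    intro hz
    have hp := hPOL ι n C h.closed h.cone hfin
    have hm2 : Measurable fun y : E ι => (‖y‖, ‖y‖⁻¹ • y) := by fun_prop
    have hs : MeasurableSet ((univ : Set ℝ) ×ˢ Metric.ball x ρ) :=
      MeasurableSet.univ.prod Metric.isOpen_ball.measurableSet
    have h3 := congrArg (fun m : Measure (ℝ × E ι) => m (univ ×ˢ Metric.ball x ρ)) hp
    simp only [Measure.prod_prod, hz, mul_zero] at h3
    rw [Measure.map_apply hm2 hs, Measure.restrict_apply (hm2 hs)] at h3
    have hc : ContinuousAt (fun y : E ι => ‖y‖⁻¹ • y) x :=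
      (continuous_norm.continuousAt.inv₀ (by rw [lk_norm hx]; norm_num)).smul continuousAt_id
    have hn : (fun y : E ι => ‖y‖⁻¹ • y) ⁻¹' Metric.ball x ρ ∈ 𝓝 x := by
      refine hc.preimage_mem_nhds ?_
      simp only [lk_norm hx, inv_one, one_smul]
      exact Metric.ball_mem_nhds x hρ
    obtain ⟨r, hr, hb⟩ := Metric.mem_nhds_iff.1 hn
    have h4 : (fun s : ℝ => (μHE[n + 1] (C ∩ Metric.ball x s)).toReal / s ^ (n + 1)) =ᶠ[𝓝[>] 0]
        fun _ => 0 := by
      filter_upwards [Ioo_mem_nhdsGT hr] with s hs'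
      have : μHE[n + 1] (C ∩ Metric.ball x s) = 0 := by
        refine measure_mono_null ?_ h3
        rintro y ⟨hyC, hy⟩
        exact ⟨⟨mem_univ _, hb (Metric.ball_subset_ball hs'.2.le hy)⟩, hyC⟩
      simp [this]
    exact hω.ne' (tendsto_nhds_unique ((h1 x hx).congr' h4) tendsto_const_nhds)
  · rw [← Measure.restrict_eq_self_of_ae_mem hae]
    exact hg.integrableOn_compact h.compact

end Pool.Agent.P.MP_2b44f0_gt.PD
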