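import Pool.Agent.P.MP_2b44f0_gt.PD.If

/-! Step GEO. -/

namespace Pool.Agent.P.MP_2b44f0_gt.PD

open MeasureTheory Set Filter Asymptotics
open scoped ENNReal RealInnerProductSpace Topology

namespace GEOx

theorem far {a B ρ t : ℝ} (j : ℕ) (hj : j ≤ 3) (hB : 0 ≤ B) (h0 : 0 < ρ) (h1 : ρ ≤ 1)
    (ht : ρ ≤ t) (ha : a ≤ B) : a ≤ B / ρ ^ 3 * t ^ j := by
  have h2 : ρ ^ 3 ≤ t ^ j :=
    (pow_le_pow_of_le_one h0.le h1 hj).trans (pow_le_pow_left₀ h0.le ht j)
  calc a ≤ B / ρ ^ 3 * ρ ^ 3 := by rwa [div_mul_cancel₀ _ (by positivity)]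
    _ ≤ _ := by gcongr

variable {ι : Type} [Fintype ι]

theorem bil (D : E ι →L[ℝ] E ι →L[ℝ] ℝ) {K : ℝ} (hD : ‖D‖ ≤ K) (v w : E ι) :
    |D v w| ≤ K * ‖v‖ * ‖w‖ := by
  have := D.le_opNorm₂ v w
  rw [Real.norm_eq_abs] at this
  exact this.trans (by gcongr)

theorem near {n : ℕ} {C U : Set (E ι)} {F : E ι → ℝ} (h : St n C U F) {x y : E ι}
    (hx : x ∈ lk C) (hy : y ∈ lk C) {K L M : ℝ} (hK : 0 ≤ K)
    (hM : ‖gradient F x‖⁻¹ ≤ M) (h2 : ‖fderiv ℝ (fderiv ℝ F) x‖ ≤ K)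
    (a2 : ‖F y - F x - fderiv ℝ F x (y - x)‖ ≤ K * ‖y - x‖ ^ 2)
    (a3 : ‖F y - F x - fderiv ℝ F x (y - x) -
      (1 / 2 : ℝ) • fderiv ℝ (fderiv ℝ F) x (y - x) (y - x)‖ ≤ K * ‖y - x‖ ^ 3)
    (b1 : ‖fderiv ℝ (normal F) x‖ ≤ L)
    (b2 : ‖normal F y - normal F x - fderiv ℝ (normal F) x (y - x)‖ ≤ L * ‖y - x‖ ^ 2) :
    ‖normal F y - normal F x - shape F x (y - x)‖ ≤ (L + M * K * L) * ‖y - x‖ ^ 2 ∧
    |⟪normal F x, y⟫| ≤ M * K * ‖y - x‖ ^ 2 ∧
    |⟪normal F x, y⟫ + ⟪shape F x (y - x), y - x⟫ / 2| ≤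
      (M * K + M * (3 * (M * K) * K)) * ‖y - x‖ ^ 3 := by
  have hU := h.lk_sub hx
  obtain ⟨hn, hd, -, -, hs, -⟩ := (all_shape ι C U F h.chart).2.2 x hU
  have hg : 0 < ‖gradient F x‖ := norm_pos_iff.2 (h.chart.grad_ne x hU)
  have hM0 : 0 ≤ M := (inv_pos.2 hg).le.trans hM
  have ea : ⟪normal F x, y⟫ = ⟪normal F x, y - x⟫ := by
    rw [inner_sub_right, h.normal_self hx.1 (lk_ne hx), sub_zero]
  rw [(h.chart.zero_set x hU).1 hx.1, (h.chart.zero_set y (h.lk_sub hy)).1 hy.1, hd,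
    Real.norm_eq_abs] at a2 a3
  rw [ea]
  generalize y - x = v at *
  set a := ⟪normal F x, v⟫ with ha
  set g := ‖gradient F x‖ with hgd
  set D := fderiv ℝ (fderiv ℝ F) x with hD
  have hP : tangentProj F x v = v - a • normal F x := by simp [tangentProj, ha]
  have c1 : |a| ≤ ‖v‖ := by simpa [hn] using abs_real_inner_le_norm (normal F x) v
  have c2 : |a| ≤ M * K * ‖v‖ ^ 2 := by
    have e : a = -(g⁻¹ * (0 - 0 - g * a)) := by field_simp; ring
    rw [e, abs_neg, abs_mul, abs_of_pos (inv_pos.2 hg), mul_assoc]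
    exact mul_le_mul hM a2 (abs_nonneg _) hM0
  refine ⟨?_, c2, ?_⟩
  · have e : normal F y - normal F x - shape F x v =
        (normal F y - normal F x - fderiv ℝ (normal F) x v) +
          a • fderiv ℝ (normal F) x (normal F x) := by
      simp only [shape, ContinuousLinearMap.comp_apply, hP, map_sub, map_smul]; abel
    have c3 : ‖fderiv ℝ (normal F) x (normal F x)‖ ≤ L := by
      simpa [hn] using (fderiv ℝ (normal F) x).le_of_opNorm_le b1 (normal F x)
    rw [e]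
    refine (norm_add_le _ _).trans ?_
    rw [norm_smul, Real.norm_eq_abs]
    have := mul_le_mul c2 c3 (norm_nonneg _) (by positivity)
    linarith
  · set p := v - a • normal F x with hp
    have c4 : ‖p‖ ≤ 2 * ‖v‖ := by
      refine (norm_sub_le _ _).trans ?_
      rw [norm_smul, hn, Real.norm_eq_abs]; linarith
    have e1 : D v v - D p p = a * (D p (normal F x) + D (normal F x) v) := by
      simp only [hp, map_sub, map_smul, sub_apply,
        smul_apply, smul_eq_mul]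
      ring
    have c5 : |D p (normal F x) + D (normal F x) v| ≤ 3 * K * ‖v‖ := by
      have u1 := bil D h2 p (normal F x)
      have u2 := bil D h2 (normal F x) v
      rw [hn] at u1 u2
      have u3 := mul_le_mul_of_nonneg_left c4 hK
      exact (abs_add_le _ _).trans (by linarith)
    have c6 : |D v v - D p p| ≤ 3 * (M * K) * K * ‖v‖ ^ 3 := by
      rw [e1, abs_mul]
      exact (mul_le_mul c2 c5 (abs_nonneg _) (by positivity)).trans (le_of_eq (by ring))
    have e2 : a + ⟪shape F x v, v⟫ / 2 =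
        -(g⁻¹ * ((0 - 0 - g * a - (1 / 2 : ℝ) • D v v) + (D v v - D p p) / 2)) := by
      rw [hs, hP, smul_eq_mul]; field_simp; ring
    rw [e2, abs_neg, abs_mul, abs_of_pos (inv_pos.2 hg), ← mul_add, mul_assoc]
    refine mul_le_mul hM ((abs_add_le _ _).trans ?_) (abs_nonneg _) hM0
    rw [abs_div, abs_two]
    have := abs_nonneg (D v v - D p p)
    linarith

end GEOx

theorem c_GEO (hTAYL : Q_TAYL) :
    Q_GEO := by
  intro ι _ n C U F h
  obtain ⟨ρ₁, K, r1, hK, T1⟩ := hTAYL ι ℝ F U (lk C) h.chart.isOpen h.compact h.lk_sub h.smooth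
  obtain ⟨ρ₂, L, r2, hL, T2⟩ :=
    hTAYL ι (E ι) (normal F) U (lk C) h.chart.isOpen h.compact h.lk_sub h.sm_normal
  obtain ⟨A, hA⟩ := h.compact.exists_bound_of_continuousOn (h.sm_shape.continuousOn.mono h.lk_sub)
  obtain ⟨S, hS⟩ := h.compact.exists_bound_of_continuousOn (h.sm_sqCurv.continuousOn.mono h.lk_sub)
  have eg : ∀ z, ‖gradient F z‖ = ‖fderiv ℝ F z‖ := fun z => by simp [gradient]
  have cg : ContinuousOn (fun z => ‖fderiv ℝ F z‖⁻¹) U :=
    (h.smooth.continuousOn_fderiv_of_isOpen h.chart.isOpen (by simp)).norm.inv₀ fun z hz => by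
      rw [← eg]; exact norm_ne_zero_iff.2 (h.chart.grad_ne z hz)
  obtain ⟨M, hM⟩ := h.compact.exists_bound_of_continuousOn (cg.mono h.lk_sub)
  set ρ := min 1 (min ρ₁ ρ₂) with hρ
  have r0 : 0 < ρ := lt_min one_pos (lt_min r1 r2)
  set B := 2 + 2 * |A| with hB
  set m := |M| with hm
  have p0 : 0 ≤ m := abs_nonneg M
  have p1 : 0 ≤ |A| := abs_nonneg A
  have p2 : 0 ≤ |S| := abs_nonneg S
  have p3 : 0 ≤ B / ρ ^ 3 := by positivity
  have p4 : 0 ≤ m * K * L := by positivity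
  have p5 : 0 ≤ m * K := by positivity
  have p6 : 0 ≤ m * (3 * (m * K) * K) := by positivity
  refine ⟨|A| + |S| + B / ρ ^ 3 + L + m * K * L + m * K + m * (3 * (m * K) * K), by positivity,
    fun x hx => ?_⟩
  have hAx : ‖shape F x‖ ≤ |A| := (hA x hx).trans (le_abs_self A)
  have hSx : |sqCurv F x| ≤ |S| := (hS x hx).trans (le_abs_self S)
  refine ⟨by linarith, by linarith, fun y hy => ?_⟩
  have up : ∀ {a c d : ℝ} (j : ℕ), a ≤ c * ‖y - x‖ ^ j → c ≤ d → a ≤ d * ‖y - x‖ ^ j :=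
    fun j h1 h2 => h1.trans (by gcongr)
  rcases le_total ‖y - x‖ ρ with ht | ht
  · obtain ⟨-, -, t2, T1⟩ := T1 x hx
    obtain ⟨-, s1, -, T2⟩ := T2 x hx
    obtain ⟨-, -, a2, a3, -⟩ := T1 (y - x) (ht.trans ((min_le_right _ _).trans (min_le_left _ _)))
    obtain ⟨-, b1, b2, -⟩ := T2 (y - x) (ht.trans ((min_le_right _ _).trans (min_le_right _ _)))
    rw [add_sub_cancel] at a2 a3 b1 b2
    have hMx : ‖gradient F x‖⁻¹ ≤ m := by
      rw [eg]
      exact (le_abs_self _).trans ((hM x hx).trans (le_abs_self M))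
    obtain ⟨c1, c2, c3⟩ := GEOx.near h hx hy hK hMx t2 a2 a3 s1 b2
    refine ⟨b1.trans (by gcongr; linarith), up 2 c1 (by linarith), up 2 c2 (by linarith),
      up 3 c3 (by linarith)⟩
  · have r1' : ρ ≤ 1 := min_le_left _ _
    have hB0 : 0 ≤ B := by positivity
    have nx := h.norm_normal (h.lk_sub hx)
    have ny := h.norm_normal (h.lk_sub hy)
    have d1 : ‖normal F y - normal F x‖ ≤ 2 := (norm_sub_le _ _).trans (by linarith)
    have d2 : ‖y - x‖ ≤ 2 := (norm_sub_le _ _).trans (by linarith [lk_norm hx, lk_norm hy])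
    have d3 : ‖shape F x (y - x)‖ ≤ |A| * 2 :=
      ((shape F x).le_of_opNorm_le hAx _).trans (by gcongr)
    have d4 : |⟪normal F x, y⟫| ≤ 1 := by
      simpa [nx, lk_norm hy] using abs_real_inner_le_norm (normal F x) y
    have d5 : |⟪shape F x (y - x), y - x⟫| ≤ |A| * 2 * 2 :=
      (abs_real_inner_le_norm _ _).trans (by gcongr)
    refine ⟨?_, up 2 (GEOx.far 2 (by norm_num) hB0 r0 r1' ht ?_) (by linarith),
      up 2 (GEOx.far 2 (by norm_num) hB0 r0 r1' ht ?_) (by linarith),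
      up 3 (GEOx.far 3 le_rfl hB0 r0 r1' ht ?_) (by linarith)⟩
    · rw [← pow_one ‖y - x‖]
      exact up 1 (GEOx.far 1 (by norm_num) hB0 r0 r1' ht (by linarith)) (by linarith)
    · exact (norm_sub_le _ _).trans (by linarith)
    · linarith
    · refine (abs_add_le _ _).trans ?_
      rw [abs_div, abs_two]; linarith

end Pool.Agent.P.MP_2b44f0_gt.PD
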