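import Pool.Agent.P.MP_2b44f0_gt.PD.If

/-! Step HOM. -/

namespace Pool.Agent.P.MP_2b44f0_gt.PD

open MeasureTheory Set Filter Asymptotics
open scoped ENNReal RealInnerProductSpace Topology

namespace HOMx

variable {ι : Type} [Fintype ι] {n : ℕ} {C U : Set (E ι)} {F : E ι → ℝ}

theorem dN (h : St n C U F) {y : E ι} (hy : y ∈ U) :
    HasFDerivAt (normal F) (fderiv ℝ (normal F) y) y :=
  ((h.sm_normal.contDiffAt (h.chart.isOpen.mem_nhds hy)).differentiableAt (by simp)).hasFDerivAt

theorem shape_tan {y w : E ι} (hw : ⟪normal F y, w⟫ = 0) :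
    shape F y w = fderiv ℝ (normal F) y w := by
  simp [shape, tangentProj, hw]

theorem normal_smul (h : St n C U F) {x : E ι} (hx : x ∈ C) (h0 : x ≠ 0) {t : ℝ} (ht : 0 < t) :
    normal F (t • x) = normal F x := by
  have key : ∀ s ∈ Ioi (0 : ℝ), HasDerivAt (fun s : ℝ => normal F (s • x)) 0 s := by
    intro s hs
    have hs0 : (0 : ℝ) < s := hs
    have hC := h.cone x hx s hs0
    have hne : s • x ≠ 0 := smul_ne_zero hs0.ne' h0
    have h1 : HasDerivAt (fun s : ℝ => s • x) x s := by
      simpa using (hasDerivAt_id s).smul_const x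
    have h2 := (dN h (h.cover _ hC hne)).comp_hasDerivAt s h1
    have h3 : fderiv ℝ (normal F) (s • x) (s • x) = 0 := by
      rw [← shape_tan (h.normal_self hC hne)]; exact h.shape_self hC hne
    have h4 : fderiv ℝ (normal F) (s • x) x = 0 := by
      rw [map_smul] at h3
      exact (smul_eq_zero.1 h3).resolve_left hs0.ne'
    rw [h4] at h2
    exact h2
  have := isOpen_Ioi.is_const_of_deriv_eq_zero (𝕜 := ℝ) isPreconnected_Ioi
    (fun s hs => (key s hs).differentiableAt.differentiableWithinAt)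
    (fun s hs => (key s hs).deriv) (show t ∈ Ioi (0 : ℝ) from ht)
    (show (1 : ℝ) ∈ Ioi (0 : ℝ) from mem_Ioi.2 one_pos)
  simpa using this

theorem shape_smul (h : St n C U F) {x : E ι} (hx : x ∈ C) (h0 : x ≠ 0) {t : ℝ} (ht : 0 < t) :
    shape F (t • x) = t⁻¹ • shape F x := by
  ext1 v
  have hU := h.cover x hx h0
  have hU' := h.cover _ (h.cone x hx t ht) (smul_ne_zero ht.ne' h0)
  have hw : ⟪normal F x, tangentProj F x v⟫ = 0 := by
    simp [tangentProj, inner_sub_right, inner_smul_right, h.norm_normal hU]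
  obtain ⟨γ, -, hγ0, hγ, hγC⟩ := all_curve all_shape ι C U F h.chart x ⟨hU, hx⟩ _ hw
  have hne : ∀ᶠ s in 𝓝 (0 : ℝ), γ s ≠ 0 :=
    hγ.continuousAt.eventually_ne (by rw [hγ0]; exact h0)
  have e : (fun s => normal F (t • γ s)) =ᶠ[𝓝 0] fun s => normal F (γ s) := by
    filter_upwards [hγC, hne] with s a b using normal_smul h a b ht
  have d1 : HasDerivAt (fun s => normal F (γ s)) (fderiv ℝ (normal F) x (tangentProj F x v)) 0 :=
    (show HasFDerivAt (normal F) (fderiv ℝ (normal F) x) (γ 0) by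
      rw [hγ0]; exact dN h hU).comp_hasDerivAt 0 hγ
  have d2 : HasDerivAt (fun s => normal F (t • γ s))
      (fderiv ℝ (normal F) (t • x) (t • tangentProj F x v)) 0 := by
    have a1 : HasDerivAt (fun s => t • γ s) (t • tangentProj F x v) 0 := hγ.const_smul t
    have a2 : HasFDerivAt (normal F) (fderiv ℝ (normal F) (t • x)) (t • γ 0) := by
      rw [hγ0]; exact dN h hU'
    exact HasFDerivAt.comp_hasDerivAt (f := fun s => t • γ s) 0 a2 a1
  have e2 := (d2.congr_of_eventuallyEq e.symm).unique d1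
  have e3 : tangentProj F (t • x) = tangentProj F x := by
    simp only [tangentProj, normal_smul h hx h0 ht]
  rw [map_smul] at e2
  simp only [shape, e3, ContinuousLinearMap.comp_apply, smul_apply]
  rw [← e2, smul_smul, inv_mul_cancel₀ ht.ne', one_smul]

end HOMx

theorem c_HOM :
    Q_HOM := by
  intro ι _ n C U F h x hx h0 t ht
  refine ⟨HOMx.normal_smul h hx h0 ht, HOMx.shape_smul h hx h0 ht, ?_⟩
  have : sqCurv F (t • x) = t⁻¹ * (t⁻¹ * sqCurv F x) := by
    simp [sqCurv, HOMx.shape_smul h hx h0 ht]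
  rw [this, norm_smul, Real.norm_of_nonneg ht.le]
  field_simp

end Pool.Agent.P.MP_2b44f0_gt.PD
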