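import Pool.Agent.P.MP_2b44f0_gt.PD.If

/-! Step JET. -/

namespace Pool.Agent.P.MP_2b44f0_gt.PD

open MeasureTheory Set Filter Asymptotics
open scoped ENNReal RealInnerProductSpace Topology

theorem c_JET (hFRAME : Q_FRAME) (hALG : Q_ALG) (hGEO : Q_GEO) (hMAX : Q_MAX) (hEST : Q_EST) (hTP : Q_TP) :
    Q_JET := by
  intro ι _ n C U F h η hη
  obtain ⟨K1, k1, hK1⟩ := hGEO ι n C U F h
  obtain ⟨K2, ε1, k2, e1, hK2⟩ := hEST ι n C U F h
  obtain ⟨ε2, e2, hA⟩ := hALG n (K1 + K2) η hη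
  refine ⟨min (min ε1 ε2) (1 / (2 * (2 * K2 + 1))), by positivity, ?_⟩
  intro ε hε hle x hx y hy
  have l1 : ε ≤ ε1 := hle.trans ((min_le_left _ _).trans (min_le_left _ _))
  have l2 : ε ≤ ε2 := hle.trans ((min_le_left _ _).trans (min_le_right _ _))
  have l3 : ε * (2 * (2 * K2 + 1)) ≤ 1 :=
    (le_div_iff₀ (by positivity)).1 (hle.trans (min_le_right _ _))
  have l4 : ε ≤ 1 / 2 := by nlinarith
  have hs : √ε ≤ 1 := Real.sqrt_le_one.2 (by linarith)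
  have hs0 : 0 ≤ √ε := Real.sqrt_nonneg _
  have hU := h.lk_sub hx
  obtain ⟨q1, q2, q3, q4⟩ := hK2 ε hε l1 x hx y hy
  have hD := lk_D_pos hx hy.1 hy.2.1
  have hd := lk_dist hx hy.1
  obtain ⟨f1, f2⟩ := hFRAME ι n x (normal F x) h.card (lk_norm hx) (h.norm_normal hU)
    (h.normal_self hx.1 (lk_ne hx))
  obtain ⟨e, μ, he, hμ⟩ := f2 (shape F x) (h.symm hU) (h.shape_self hx.1 (lk_ne hx))
    (h.shape_normal hU)
  have hee : ∀ i, ⟪e i, e i⟫ = 1 := fun i => by simpa using he.on i i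
  have hen : ∀ i, ‖e i‖ = 1 := fun i => by
    have := hee i
    rw [real_inner_self_eq_norm_sq] at this
    nlinarith [norm_nonneg (e i)]
  have hφ : |qv F ε x y| ≤ K2 := abs_le.2 ⟨by nlinarith, q2⟩
  have hm : ∀ i, |μ i| ≤ K1 := fun i => by
    have h1 := (shape F x).le_opNorm (e i)
    rw [hμ, norm_smul, hen, mul_one, mul_one, Real.norm_eq_abs] at h1
    exact h1.trans (hK1 x hx).1
  obtain ⟨M, hM, hT⟩ := hTP ι n C U F h ε hε x hx y hy (by nlinarith) (by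
    by_contra hc
    have h1 : (1 - ⟪x, y⟫) ^ 3 ≤ (ε ^ 2) ^ 3 := pow_le_pow_left₀ hD.le (not_lt.1 hc) 3
    have h2 : ε ^ 2 ≤ K2 * (ε ^ 2) ^ 3 := q4.trans (mul_le_mul_of_nonneg_left h1 k2)
    have h3 : K2 * ε ≤ 1 / 4 := by nlinarith
    have h4 : ε ^ 3 ≤ 1 := pow_le_one₀ hε.le (by linarith)
    have h5 : K2 * ε * ε ^ 3 ≤ 1 / 4 * 1 := mul_le_mul h3 h4 (by positivity) (by norm_num)
    have h6 : 0 < ε ^ 2 := by positivity
    nlinarith [mul_le_mul_of_nonneg_left h5 h6.le]) e μ he hμ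
  refine ⟨M, hM, fun u hu => le_trans ?_ hT⟩
  have hal := hA ε (1 - ⟪x, y⟫) (sqCurv F x) (fun i => qv F ε x y + μ i) (fun i => ⟪e i, y⟫)
    (fun i => ⟪e i, u⟫) hε l2 hD
    (q4.trans (mul_le_mul_of_nonneg_right (by linarith) (by positivity)))
    ((hK1 x hx).2.1.trans (by linarith))
    (fun i => (abs_add_le _ _).trans (by linarith [hm i]))
    (fun i => by
      have h1 := q3 (e i) ⟨he.px i, he.pn i⟩
      rw [hμ, real_inner_smul_left, hee, hen] at h1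
      nlinarith [mul_nonneg k1 hs0])
    (fun i => by
      have h1 : ⟪e i, y⟫ = ⟪e i, y - x⟫ := by
        rw [inner_sub_right, real_inner_comm x, he.px, sub_zero]
      have h2 := abs_real_inner_le_norm (e i) (y - x)
      rw [hen, one_mul] at h2
      rw [h1, ← hd, ← sq_abs]
      exact pow_le_pow_left₀ (abs_nonneg _) h2 2)
  have hue : u = ∑ i, ⟪e i, u⟫ • e i := by
    have := (f1 e he).1 u
    rwa [hu.1, hu.2, zero_smul, zero_smul, zero_add, zero_add] at this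
  have hex : ∀ v, ⟪u, v⟫ = ∑ i, ⟪e i, u⟫ * ⟪e i, v⟫ := fun v => by
    conv_lhs => rw [hue]
    simp only [sum_inner, real_inner_smul_left]
  have hsh : ∀ v i, ⟪e i, shape F x v⟫ = μ i * ⟪e i, v⟫ := fun v i => by
    rw [← h.symm hU, hμ, real_inner_smul_left]
  have a1 : ‖u‖ ^ 2 = ∑ i, ⟪e i, u⟫ * ⟪e i, u⟫ := by rw [← real_inner_self_eq_norm_sq, hex]
  have a2 : ⟪shape F x u, u⟫ = ∑ i, ⟪e i, u⟫ * (μ i * ⟪e i, u⟫) := by
    rw [real_inner_comm, hex]; simp only [hsh]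
  have a3 : ⟪pv F ε x y, u⟫ =
      ∑ i, ⟪e i, u⟫ * ((qv F ε x y + μ i) * ⟪e i, y⟫ / (1 - ⟪x, y⟫)) := by
    rw [real_inner_comm, hex]
    refine Finset.sum_congr rfl fun i _ => ?_
    have ht : Tan F x (e i) := ⟨he.px i, he.pn i⟩
    rw [pv, real_inner_smul_right, inner_add_right, real_inner_smul_right, hsh, ht.inner_prT]
    ring
  have a4 : ∑ i, (4 * ((qv F ε x y + μ i) * ⟪e i, y⟫ / (1 - ⟪x, y⟫)) * ⟪e i, u⟫ -
      2 * (qv F ε x y + μ i + η) * ⟪e i, u⟫ ^ 2) =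
      4 * ⟪pv F ε x y, u⟫ - 2 * ((qv F ε x y + η) * ‖u‖ ^ 2 + ⟪shape F x u, u⟫) := by
    rw [a1, a2, a3, Finset.mul_sum, Finset.mul_sum, ← Finset.sum_add_distrib, Finset.mul_sum,
      ← Finset.sum_sub_distrib]
    exact Finset.sum_congr rfl fun i _ => by ring
  rw [a4] at hal
  rw [((hMAX ι n C U F h ε hε x hx).2.1 y hy)]
  linarith

end Pool.Agent.P.MP_2b44f0_gt.PD
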