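import Pool.Agent.P.MP_2b44f0_gt.PD.If

/-! Step KER. -/

namespace Pool.Agent.P.MP_2b44f0_gt.PD

open MeasureTheory Set Filter Asymptotics
open scoped ENNReal RealInnerProductSpace Topology

namespace KERx

variable {ι : Type} [Fintype ι]

theorem e1 (s : ℝ) : s * Real.exp (-s) ≤ 2 * Real.exp (-(s / 4)) := by
  have h := Real.add_one_le_exp (3 * s / 4)
  have e : Real.exp (-(s / 4)) = Real.exp (-s) * Real.exp (3 * s / 4) := by
    rw [← Real.exp_add]; ring_nf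
  rw [e]
  nlinarith [Real.exp_pos (-s), Real.exp_pos (3 * s / 4)]

theorem e2 {s : ℝ} (hs : 0 ≤ s) : s ^ 2 * Real.exp (-s) ≤ 4 * Real.exp (-(s / 4)) := by
  have h := Real.quadratic_le_exp_of_nonneg (x := 3 * s / 4) (by positivity)
  have e : Real.exp (-(s / 4)) = Real.exp (-s) * Real.exp (3 * s / 4) := by
    rw [← Real.exp_add]; ring_nf
  have h2 : s ^ 2 ≤ 4 * Real.exp (3 * s / 4) := by nlinarith
  rw [e]
  nlinarith [Real.exp_pos (-s)]

theorem gk_bd {r η A : ℝ} (hr : 0 < r) (hη : 0 ≤ η) (hA : 0 ≤ A) (x y : E ι) :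
    gk r x y * (η * ‖y - x‖ ^ 2 + A * ‖y - x‖ ^ 4) ≤
      (2 * η * r ^ 2 + 4 * A * r ^ 4) * gk (2 * r) x y := by
  obtain ⟨s, hs⟩ : ∃ s, s = ‖y - x‖ ^ 2 / r ^ 2 := ⟨_, rfl⟩
  have h0 : 0 ≤ s := by rw [hs]; positivity
  have h1 : ‖y - x‖ ^ 2 = r ^ 2 * s := by rw [hs]; field_simp
  have h2 : gk (2 * r) x y = Real.exp (-(s / 4)) := by
    rw [gk, hs]; congr 2; field_simp; norm_num
  have h3 : ‖y - x‖ ^ 4 = r ^ 4 * s ^ 2 := by
    rw [show ‖y - x‖ ^ 4 = (‖y - x‖ ^ 2) ^ 2 by ring, h1]; ring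
  rw [h2, gk, ← hs, h3, h1]
  nlinarith [mul_le_mul_of_nonneg_left (e1 s) (show 0 ≤ η * r ^ 2 by positivity),
    mul_le_mul_of_nonneg_left (e2 h0) (show 0 ≤ A * r ^ 4 by positivity)]

theorem gk_cont (r : ℝ) : Continuous fun q : E ι × E ι => gk r q.1 q.2 := by
  unfold gk; fun_prop

theorem gk_cont' (r : ℝ) (x : E ι) : Continuous (gk r x) := by
  unfold gk; fun_prop

theorem alg {J P G G2 T KM KD N η A r a : ℝ} (hr : 0 < r) (ha : 0 < a) (hN : 0 ≤ N) (hη : 0 ≤ η)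
    (hA : 0 ≤ A) (h2 : 0 ≤ G2) (hD : G2 ≤ KD * a)
    (hJ : J ≤ P + (2 * η * r ^ 2 + 4 * A * r ^ 4) * G2)
    (hM : |2 / r ^ 2 * P - T / 2 * G| ≤ KM * N * r * G2) :
    J / (r ^ 2 * a) ≤ T / 4 * (G / a) + (|KM| * N * r / 2 + 2 * η + 4 * A * r ^ 2) * |KD| := by
  have h3 : G2 ≤ |KD| * a := hD.trans (mul_le_mul_of_nonneg_right (le_abs_self _) ha.le)
  have h4 : 2 / r ^ 2 * P - T / 2 * G ≤ |KM| * N * r * G2 := (le_abs_self _).trans (hM.trans (by
    gcongr; exact le_abs_self _))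
  have h5 : P ≤ r ^ 2 * (T / 4 * G) + r ^ 2 * (|KM| * N * r / 2) * G2 := by
    have := mul_le_mul_of_nonneg_left h4 (show 0 ≤ r ^ 2 / 2 by positivity)
    have e : r ^ 2 / 2 * (2 / r ^ 2 * P - T / 2 * G) = P - r ^ 2 * (T / 4 * G) := by
      field_simp; ring
    rw [e] at this
    linarith
  have h6 := mul_le_mul_of_nonneg_left h3
    (show 0 ≤ r ^ 2 * (|KM| * N * r / 2 + 2 * η + 4 * A * r ^ 2) by positivity)
  rw [div_le_iff₀ (by positivity)]
  have e : T / 4 * (G / a) * (r ^ 2 * a) = r ^ 2 * (T / 4 * G) := by field_simp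
  rw [add_mul, e]
  nlinarith

/-- A local upper jet holds globally up to a fourth order term. -/
theorem glob {C : Set (E ι)} (hc : IsCompact (lk C)) {u : E ι → ℝ} (hu : ContinuousOn u (lk C))
    {x p : E ι} {M : E ι →L[ℝ] E ι} (h : UJet C u x p M) {η : ℝ} (hη : 0 < η) :
    ∃ A : ℝ, 0 ≤ A ∧ ∀ y ∈ lk C, u y ≤ ⟪p, y - x⟫ + ⟪M (y - x), y - x⟫ / 2 +
      (η * ‖y - x‖ ^ 2 + A * ‖y - x‖ ^ 4) := by
  obtain ⟨ρ, h1, h2⟩ := Metric.mem_nhdsWithin_iff.1 (h η hη)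
  obtain ⟨b, hb⟩ := hc.bddAbove_image (f := fun y => u y - (⟪p, y - x⟫ + ⟪M (y - x), y - x⟫ / 2))
    (hu.sub (Continuous.continuousOn (by fun_prop)))
  refine ⟨|b| / ρ ^ 4, by positivity, fun y hy => ?_⟩
  by_cases e : y ∈ Metric.ball x ρ
  · have h3 : u y ≤ _ := h2 ⟨e, hy⟩
    have : 0 ≤ |b| / ρ ^ 4 * ‖y - x‖ ^ 4 := by positivity
    linarith
  · have h3 : u y - _ ≤ b := hb ⟨y, hy, rfl⟩
    have h4 : ρ ^ 4 ≤ ‖y - x‖ ^ 4 :=
      pow_le_pow_left₀ h1.le (by rwa [mem_ball_iff_norm, not_lt] at e) 4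
    have h5 : |b| / ρ ^ 4 * ρ ^ 4 = |b| := by field_simp
    have h6 := mul_le_mul_of_nonneg_left h4 (show 0 ≤ |b| / ρ ^ 4 by positivity)
    have : 0 ≤ η * ‖y - x‖ ^ 2 := by positivity
    linarith [le_abs_self b]

end KERx

open KERx in
theorem c_KER (hFIN : Q_FIN) (hDENS : Q_DENS) (hMOM : Q_MOM) :
    Q_KER := by
  intro ι _ n C U F h u B K hu hs hB h1 h2
  obtain ⟨f1, f2, -, f4⟩ := hFIN ι n C U F h
  obtain ⟨a, KD, a0, hD⟩ := hDENS ι n C U F h
  obtain ⟨KM, hM⟩ := hMOM ι n C U F h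
  generalize lm n C = μ at *
  have ux : ∀ x ∈ lk C, ContinuousOn (u x) (lk C) := fun x hx =>
    hu.comp (Continuous.prodMk_right x).continuousOn fun y hy => ⟨hx, hy⟩
  have f5 : ∀ᵐ q ∂μ.prod μ, q ∈ lk C ×ˢ lk C :=
    (Measure.ae_prod_mem_iff_ae_ae_mem (h.compact.measurableSet.prod h.compact.measurableSet)).2
      (f2.mono fun x hx => f2.mono fun y hy => ⟨hx, hy⟩)
  have i1 : ∀ r, Integrable (fun q : E ι × E ι => gk r q.1 q.2 * u q.1 q.2) (μ.prod μ) :=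
    fun r => by
      have := ((gk_cont r).continuousOn.mul hu).integrableOn_compact (μ := μ.prod μ)
        (h.compact.prod h.compact)
      rwa [IntegrableOn, Measure.restrict_eq_self_of_ae_mem f5] at this
  have i2 : ∀ r, Integrable (fun x => (∫ y, gk r x y * u x y ∂μ) / (r ^ 2 * a r)) μ :=
    fun r => (i1 r).integral_prod_left.div_const _
  have i3 : ∀ r, 0 < r → 0 ≤ ∫ x, (∫ y, gk r x y * u x y ∂μ) / (r ^ 2 * a r) ∂μ := fun r hr => by
    rw [integral_div, ← integral_prod _ (i1 r)]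
    refine div_nonneg ?_ (mul_pos (pow_pos hr 2) (a0 r hr)).le
    have e := integral_prod_swap (μ := μ) (ν := μ) fun q : E ι × E ι => gk r q.1 q.2 * u q.1 q.2
    have e2 := integral_add (i1 r) (i1 r).swap
    have e3 : 0 ≤ ∫ q : E ι × E ι, (gk r q.1 q.2 * u q.1 q.2 +
        ((fun q : E ι × E ι => gk r q.1 q.2 * u q.1 q.2) ∘ Prod.swap) q) ∂μ.prod μ :=
      integral_nonneg_of_ae (f5.mono fun q hq => by
        have : gk r q.2 q.1 = gk r q.1 q.2 := by rw [gk, gk, norm_sub_rev]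
        change 0 ≤ gk r q.1 q.2 * u q.1 q.2 + gk r q.2 q.1 * u q.2 q.1
        rw [this, ← mul_add]
        exact mul_nonneg (Real.exp_pos _).le (hs _ hq.1 _ hq.2))
    rw [e2] at e3
    simp only [Function.comp_apply] at e3
    linarith
  have est : ∀ x ∈ lk C, ∀ p, Tan F x p → ∀ (M : E ι →L[ℝ] E ι) (η A : ℝ), 0 ≤ η → 0 ≤ A →
      (∀ y ∈ lk C, u x y ≤ ⟪p, y - x⟫ + ⟪M (y - x), y - x⟫ / 2 +
        (η * ‖y - x‖ ^ 2 + A * ‖y - x‖ ^ 4)) → ∀ r, 0 < r → r ≤ 1 →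
      (∫ y, gk r x y * u x y ∂μ) / (r ^ 2 * a r) ≤ trT F x M / 4 * ((∫ y, gk r x y ∂μ) / a r) +
        (|KM| * (‖p‖ + ‖M‖) * r / 2 + 2 * η + 4 * A * r ^ 2) * |KD| :=
    fun x hx p hp M η A hη hA hb r hr hr' => by
      refine alg (G2 := ∫ y, gk (2 * r) x y ∂μ) hr (a0 r hr) (by positivity) hη hA
        (integral_nonneg fun y => (Real.exp_pos _).le) ((hD x hx).2 r hr hr') ?_
        (hM x hx p hp M r hr)
      have j1 : Integrable (fun y => gk r x y * (⟪p, y - x⟫ + ⟪M (y - x), y - x⟫ / 2)) μ :=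
        f4 _ ((gk_cont' r x).mul (by fun_prop)).continuousOn
      have j2 := (f4 _ (gk_cont' (2 * r) x).continuousOn).const_mul
        (2 * η * r ^ 2 + 4 * A * r ^ 4)
      rw [← integral_const_mul, ← integral_add j1 j2]
      refine integral_mono_ae (f4 _ ((gk_cont' r x).continuousOn.mul (ux x hx))) (j1.add j2)
        (f2.mono fun y hy => ?_)
      have k1 := mul_le_mul_of_nonneg_left (hb y hy) (show 0 ≤ gk r x y from (Real.exp_pos _).le)
      have k2 := gk_bd hr hη hA x y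
      simp only
      linarith
  have small : ∀ᶠ r : ℝ in 𝓝[>] 0, 0 < r ∧ r ≤ 1 := Ioc_mem_nhdsGT one_pos
  have lim : Tendsto (fun r : ℝ => ∫ x,
      max ((∫ y, gk r x y * u x y ∂μ) / (r ^ 2 * a r) - B x / 4) 0 ∂μ) (𝓝[>] 0)
      (𝓝 (∫ _, (0 : ℝ) ∂μ)) := by
    refine tendsto_integral_filter_of_dominated_convergence
      (fun x => (|KM| * |K| / 2 + 2 * |K|) * |KD| + |B x| / 4)
      (Eventually.of_forall fun r => ((i2 r).sub (hB.div_const 4)).pos_part.1)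
      (small.mono fun r hr => f2.mono fun x hx => ?_)
      ((integrable_const _).add (hB.abs.div_const 4)) (f2.mono fun x hx => ?_)
    · obtain ⟨p, p1, p2, p3⟩ := h1 x hx
      have k1 := est x hx p p1 0 |K| 0 (abs_nonneg _) le_rfl (fun y hy => by
        have := mul_le_mul_of_nonneg_right (le_abs_self K) (sq_nonneg ‖y - x‖)
        simp only [zero_apply, inner_zero_left]
        linarith [p3 y hy]) r hr.1 hr.2
      have k2 : trT F x (0 : E ι →L[ℝ] E ι) = 0 := by simp [trT, tr]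
      have k3 : ‖p‖ * r ≤ |K| := (mul_le_of_le_one_right (norm_nonneg _) hr.2).trans
        (p2.trans (le_abs_self K))
      have k4 := mul_le_mul_of_nonneg_left k3 (show 0 ≤ |KM| * |KD| / 2 by positivity)
      rw [k2, norm_zero] at k1
      rw [Real.norm_of_nonneg (le_max_right _ _)]
      refine max_le ?_ (by positivity)
      nlinarith [neg_abs_le (B x)]
    · obtain ⟨p, M, p1, p2, p3⟩ := h2 x hx
      refine tendsto_order.2 ⟨fun c hc => Eventually.of_forall fun r =>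
        hc.trans_le (le_max_right _ _), fun c hc => ?_⟩
      have hη : 0 < c / (4 * (|KD| + 1)) := by positivity
      obtain ⟨A, A0, hA⟩ := glob h.compact (ux x hx) p2 hη
      have t1 : Tendsto (fun r : ℝ => trT F x M / 4 * ((∫ y, gk r x y ∂μ) / a r) +
          (|KM| * (‖p‖ + ‖M‖) * r / 2 + 2 * (c / (4 * (|KD| + 1))) + 4 * A * r ^ 2) * |KD|)
          (𝓝[>] 0) (𝓝 (trT F x M / 4 * 1 +
          (|KM| * (‖p‖ + ‖M‖) * 0 / 2 + 2 * (c / (4 * (|KD| + 1))) + 4 * A * 0 ^ 2) * |KD|)) :=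
        ((hD x hx).1.const_mul _).add
          ((Continuous.tendsto (by fun_prop) 0).mono_left nhdsWithin_le_nhds)
      have t2 : c / (4 * (|KD| + 1)) * (4 * (|KD| + 1)) = c := by field_simp
      have t3 : trT F x M / 4 * 1 + (|KM| * (‖p‖ + ‖M‖) * 0 / 2 + 2 * (c / (4 * (|KD| + 1))) +
          4 * A * 0 ^ 2) * |KD| < B x / 4 + c := by nlinarith [abs_nonneg KD]
      filter_upwards [small, t1.eventually_lt_const t3] with r hr k
      have := est x hx p p1 M _ A hη.le A0 hA r hr.1 hr.2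
      exact max_lt (by linarith) hc
  have fin := ge_of_tendsto lim (small.mono fun r hr =>
    show -((∫ x, B x ∂μ) / 4) ≤ _ from le_trans (by
      rw [integral_sub' (i2 r) (hB.div_const 4), integral_div (f := B)]
      linarith [i3 r hr.1]) (integral_mono ((i2 r).sub (hB.div_const 4))
      ((i2 r).sub (hB.div_const 4)).pos_part fun x => le_max_left _ _))
  rw [integral_zero] at fin
  linarith

end Pool.Agent.P.MP_2b44f0_gt.PD
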