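import Pool.Agent.P.MP_2b44f0_gt.PD.If

/-! Step LDIV. -/

namespace Pool.Agent.P.MP_2b44f0_gt.PD

open MeasureTheory Set Filter Asymptotics
open scoped ENNReal RealInnerProductSpace Topology

namespace LDIVx

/-- a bump supported in the interval from one half to three halves -/
noncomputable def bp : ContDiffBump (1 : ℝ) := ⟨1 / 4, 1 / 2, by norm_num, by norm_num⟩

theorem bp_zero {r : ℝ} (h : 1 / 2 ≤ |r - 1|) : bp r = 0 :=
  bp.zero_of_le_dist (by simpa [bp, Real.dist_eq] using h)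

theorem bp_sm : ContDiff ℝ 2 bp := bp.contDiff

theorem rad_int (n : ℕ) {g : ℝ → ℝ} (hg : Continuous g) (hs : HasCompactSupport g) :
    Integrable g (rad n) ∧ ∫ r, g r ∂rad n = ∫ r in Ioi (0 : ℝ), (n + 1) * r ^ n * g r := by
  have hm : Measurable fun r : ℝ => ENNReal.ofReal ((n + 1) * r ^ n) := by fun_prop
  have he : (fun r : ℝ => (ENNReal.ofReal ((n + 1) * r ^ n)).toReal • g r) =ᵐ[volume.restrict
      (Ioi 0)] fun r => (n + 1) * r ^ n * g r := by
    filter_upwards [ae_restrict_mem measurableSet_Ioi] with r hr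
    have : (0 : ℝ) < r := hr
    rw [ENNReal.toReal_ofReal (by positivity), smul_eq_mul]
  constructor
  · rw [rad, integrable_withDensity_iff_integrable_smul' hm (by simp), integrable_congr he]
    exact (((by fun_prop : Continuous fun r : ℝ => (n + 1) * r ^ n).mul hg
      ).integrable_of_hasCompactSupport hs.mul_left).integrableOn
  · rw [rad, integral_withDensity_eq_integral_toReal_smul hm (by simp), integral_congr_ae he]

theorem bp_cs : HasCompactSupport bp := bp.hasCompactSupport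

theorem c1 : Continuous fun r : ℝ => bp r + r * deriv bp r :=
  bp_sm.continuous.add (continuous_id.mul (bp_sm.continuous_deriv (by norm_num)))

theorem s1 : HasCompactSupport fun r : ℝ => bp r + r * deriv bp r :=
  bp_cs.add bp_cs.deriv.mul_left

theorem pos (n : ℕ) : 0 < ∫ r, bp r ∂rad n := by
  rw [(rad_int n bp_sm.continuous bp_cs).2, setIntegral_eq_integral_of_forall_compl_eq_zero]
  · refine Continuous.integral_pos_of_hasCompactSupport_nonneg_nonzero (x := 1)
      ((by fun_prop : Continuous fun r : ℝ => (n + 1) * r ^ n).mul bp_sm.continuous)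
      bp_cs.mul_left (fun r => ?_) ?_
    · rcases le_total r 0 with h | h
      · rw [bp_zero (r := r) (by rw [abs_of_nonpos (by linarith)]; linarith)]; simp
      · have := bp.nonneg' r
        simp only [Pi.zero_apply]
        positivity
    · rw [bp.one_of_mem_closedBall (by simp [bp])]
      positivity
  · intro r hr
    have : r ≤ 0 := by simpa using hr
    rw [bp_zero (r := r) (by rw [abs_of_nonpos (by linarith)]; linarith)]; simp

theorem parts (n : ℕ) :
    ∫ r, (bp r + r * deriv bp r) ∂rad n = -(n * ∫ r, bp r ∂rad n) := by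
  have h1 := rad_int n c1 s1
  have h2 := rad_int n bp_sm.continuous bp_cs
  rw [eq_neg_iff_add_eq_zero, ← integral_const_mul, ← integral_add h1.1 (h2.1.const_mul _),
    (rad_int n (g := fun r => bp r + r * deriv bp r + n * bp r)
      (c1.add (continuous_const.mul bp_sm.continuous)) (s1.add bp_cs.mul_left)).2]
  have h3 : ContDiff ℝ 1 fun r : ℝ => (n + 1) * r ^ (n + 1) * bp r :=
    (by fun_prop : ContDiff ℝ 1 fun r : ℝ => (n + 1) * r ^ (n + 1)).mul (bp_sm.of_le (by norm_num))
  have h4 := HasCompactSupport.integral_Ioi_deriv_eq h3 bp_cs.mul_left 0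
  simp only [ne_eq, Nat.add_eq_zero_iff, one_ne_zero, and_false, not_false_eq_true, zero_pow,
    mul_zero, zero_mul, neg_zero] at h4
  refine Eq.trans (integral_congr_ae (Eventually.of_forall fun r => ?_)) h4
  have h5 := (((hasDerivAt_pow (n + 1) r).const_mul ((n : ℝ) + 1)).mul
    (bp_sm.differentiable (by norm_num) r).hasDerivAt).deriv
  simp only [Pi.mul_def] at h5
  simp only [h5, Nat.add_sub_cancel]
  push_cast
  ring

variable {ι : Type} [Fintype ι]

theorem d_norm {y : E ι} (hy : y ≠ 0) :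
    HasFDerivAt (fun z : E ι => ‖z‖) (innerSL ℝ (‖y‖⁻¹ • y)) y := by
  have h0 : 0 < ‖y‖ := norm_pos_iff.2 hy
  have h1 := (hasStrictFDerivAt_norm_sq y).hasFDerivAt.sqrt (by positivity)
  simp only [Real.sqrt_sq (norm_nonneg _)] at h1
  refine h1.congr_fderiv ?_
  ext v
  simp
  field_simp

/-- the test field -/
noncomputable def Y (X : E ι → E ι) (y : E ι) : E ι := (‖y‖ * bp ‖y‖) • X (‖y‖⁻¹ • y)

theorem Y_ev (X : E ι → E ι) : Y X =ᶠ[𝓝 0] fun _ => 0 := by
  filter_upwards [Metric.ball_mem_nhds (0 : E ι) (by norm_num : (0 : ℝ) < 1 / 2)] with y hy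
  have : ‖y‖ < 1 / 2 := by simpa using hy
  rw [Y, bp_zero (r := ‖y‖) (by rw [abs_of_nonpos (by linarith)]; linarith)]
  simp

theorem Y_sm {X : E ι → E ι} (hX : ContDiff ℝ 1 X) : ContDiff ℝ 1 (Y X) := by
  refine contDiff_iff_contDiffAt.2 fun y => ?_
  by_cases hy : y = 0
  · rw [hy]; exact contDiffAt_const.congr_of_eventuallyEq (Y_ev X)
  · have h1 : ContDiffAt ℝ 1 (fun z : E ι => ‖z‖) y := contDiffAt_norm ℝ hy
    exact (h1.mul ((bp_sm.of_le (by norm_num)).contDiffAt.comp y h1)).smul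
      (hX.contDiffAt.comp y ((h1.inv (norm_ne_zero_iff.2 hy)).smul contDiffAt_id))

theorem Y_cs (X : E ι → E ι) : HasCompactSupport (Y X) := by
  refine HasCompactSupport.intro (isCompact_closedBall 0 2) fun y hy => ?_
  have : 2 < ‖y‖ := by simpa using hy
  rw [Y, bp_zero (r := ‖y‖) (by rw [abs_of_nonneg (by linarith)]; linarith)]
  simp

theorem tr_one (x v : E ι) : tr ((innerSL ℝ x).smulRight v) = ⟪v, x⟫ := by
  have : ((innerSL ℝ x).smulRight v).toLinearMap = (innerSL ℝ x).toLinearMap.smulRight v := rfl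
  rw [tr, this, LinearMap.trace_smulRight, real_inner_comm]
  rfl

theorem d_Y {X : E ι → E ι} (hX : ContDiff ℝ 1 X) {y : E ι} (hy : y ≠ 0) :
    fderiv ℝ (Y X) y = (bp ‖y‖ + ‖y‖ * deriv bp ‖y‖) •
      (innerSL ℝ (‖y‖⁻¹ • y)).smulRight (X (‖y‖⁻¹ • y)) + bp ‖y‖ • (fderiv ℝ X (‖y‖⁻¹ • y) -
        (innerSL ℝ (‖y‖⁻¹ • y)).smulRight (fderiv ℝ X (‖y‖⁻¹ • y) (‖y‖⁻¹ • y))) := by
  have h0 : 0 < ‖y‖ := norm_pos_iff.2 hy
  have h1 := d_norm hy
  have h2 : HasFDerivAt (fun z : E ι => ‖z‖⁻¹ • z) _ y :=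
    ((hasDerivAt_inv h0.ne').comp_hasFDerivAt y h1).smul (hasFDerivAt_id y)
  have h3 := HasFDerivAt.comp (g := X) (f := fun z : E ι => ‖z‖⁻¹ • z) y
    (hX.differentiable (by norm_num) (‖y‖⁻¹ • y)).hasFDerivAt h2
  have h4 := (h1.mul ((bp_sm.differentiable (by norm_num) ‖y‖).hasDerivAt.comp_hasFDerivAt y
    h1)).smul h3
  have h5 : HasFDerivAt (Y X) _ y := h4
  rw [h5.fderiv]
  ext1 v
  simp [smul_smul, smul_sub, add_smul]
  match_scalars <;> field_simp
  ring

end LDIVx

open LDIVx in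
theorem c_LDIV (hHOM : Q_HOM) (hBALL2 : Q_BALL2) (hPOL : Q_POL) (hFIN : Q_FIN) (hDIV : Q_DIV) :
    Q_LDIV := by
  intro ι _ n C U F h X hX
  obtain ⟨hf, -, -, hI⟩ := hFIN ι n C U F h
  obtain ⟨K, -, hK⟩ := hBALL2 ι n C U F h
  have hP := hPOL ι n C h.closed h.cone
    (ne_top_of_le_ne_top ENNReal.ofReal_ne_top (hK 0 (Or.inr rfl) 1 one_pos))
  have hD := hDIV ι n C U F h (Y X) (Y_sm hX) (Y_cs X)
    (notMem_tsupport_iff_eventuallyEq.2 (Y_ev X))
  have hc := hX.continuous_fderiv (by norm_num)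
  have hn : ContinuousOn (normal F) (lk C) := h.sm_normal.continuousOn.mono h.lk_sub
  have ia : Integrable (fun x => ⟪X x, x⟫) (lm n C) :=
    hI _ (hX.continuous.inner continuous_id).continuousOn
  have ib : Integrable (fun x => trT F x (fderiv ℝ X x)) (lm n C) :=
    hI _ ((((trL (ι := ι)).continuous.comp hc).continuousOn.sub
      ((hc.clm_apply continuous_id).inner continuous_id).continuousOn).sub
      ((hc.continuousOn.clm_apply hn).inner hn))
  have : SFinite (rad n) := by unfold rad; infer_instance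
  have i1 := (rad_int n c1 s1).1.mul_prod ia
  have i2 := (rad_int n bp_sm.continuous bp_cs).1.mul_prod ib
  have hm : Measurable fun y : E ι => (‖y‖, ‖y‖⁻¹ • y) := by fun_prop
  have e1 := integral_add i1 i2
  rw [integral_prod_mul (fun r : ℝ => bp r + r * deriv bp r) (fun x : E ι => ⟪X x, x⟫),
    integral_prod_mul (fun r : ℝ => bp r) (fun x => trT F x (fderiv ℝ X x)), parts, ← hP,
    integral_map hm.aemeasurable (hP ▸ (i1.add i2).aestronglyMeasurable)] at e1
  have e2 : ∫ y in C, ((bp ‖y‖ + ‖y‖ * deriv bp ‖y‖) * ⟪X (‖y‖⁻¹ • y), ‖y‖⁻¹ • y⟫ +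
      bp ‖y‖ * trT F (‖y‖⁻¹ • y) (fderiv ℝ X (‖y‖⁻¹ • y))) ∂μHE[n + 1] = 0 := by
    rw [← hD]
    refine setIntegral_congr_fun h.closed.measurableSet fun y hy => ?_
    by_cases h0 : y = 0
    · have : bp (0 : ℝ) = 0 := bp_zero (by norm_num)
      simp [h0, this, (Y_ev X).fderiv_eq, tr]
    · have h1 := (hHOM ι n C U F h y hy h0 ‖y‖⁻¹ (inv_pos.2 (norm_pos_iff.2 h0))).1
      have h2 : ⟪y, normal F y⟫ = 0 := by rw [real_inner_comm]; exact h.normal_self hy h0
      simp only [d_Y hX h0, trT, h1, ← trL_apply]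
      rw [map_add, map_smul trL, map_smul trL, map_sub trL]
      simp only [trL_apply, tr_one]
      simp [h2, inner_smul_left, inner_smul_right]
      ring
  rw [e2] at e1
  rw [integral_sub ib (ia.const_mul _), integral_const_mul]
  have := pos n
  apply mul_left_cancel₀ this.ne'
  linarith

end Pool.Agent.P.MP_2b44f0_gt.PD
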