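import Pool.Agent.P.MP_2b44f0_gt.PD.If

/-! Step LOW. -/

namespace Pool.Agent.P.MP_2b44f0_gt.PD

open MeasureTheory Set Filter Asymptotics
open scoped ENNReal RealInnerProductSpace Topology

namespace LOWx

variable {ι : Type} [Fintype ι] {n : ℕ} {C U : Set (E ι)} {F : E ι → ℝ}

theorem unif (h : St n C U F) :
    ∃ c : ℝ, 0 < c ∧ ∀ ω ∈ Metric.sphere (0 : E ι) 1, ∃ z ∈ lk C, c ≤ |⟪ω, z⟫| := by
  refine (isCompact_sphere (0 : E ι) 1).induction_on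
    (p := fun s => ∃ c : ℝ, 0 < c ∧ ∀ ω ∈ s, ∃ z ∈ lk C, c ≤ |⟪ω, z⟫|) ⟨1, one_pos, by simp⟩
    ?_ ?_ ?_
  · rintro s t hst ⟨c, hc, H⟩
    exact ⟨c, hc, fun ω hω => H ω (hst hω)⟩
  · rintro s t ⟨c, hc, H⟩ ⟨d, hd, G⟩
    refine ⟨min c d, lt_min hc hd, ?_⟩
    rintro ω (hω | hω)
    · obtain ⟨z, hz, h1⟩ := H ω hω
      exact ⟨z, hz, (min_le_left _ _).trans h1⟩
    · obtain ⟨z, hz, h1⟩ := G ω hω
      exact ⟨z, hz, (min_le_right _ _).trans h1⟩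
  · intro ω hω
    have h0 : ω ≠ 0 := by
      intro h0; simp [h0] at hω
    obtain ⟨y, hy, hy1⟩ := h.nonflat ω h0
    have hy0 : y ≠ 0 := by
      intro h1; simp [h1] at hy1
    have hz := h.mem_lk hy hy0
    have hp : 0 < |⟪ω, ‖y‖⁻¹ • y⟫| := by
      rw [abs_pos, inner_smul_right]
      exact mul_ne_zero (inv_ne_zero (norm_ne_zero_iff.2 hy0)) hy1
    have hc : Continuous fun v : E ι => |⟪v, ‖y‖⁻¹ • y⟫| := by fun_prop
    refine ⟨{v | |⟪ω, ‖y‖⁻¹ • y⟫| / 2 < |⟪v, ‖y‖⁻¹ • y⟫|}, mem_nhdsWithin_of_mem_nhds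
      ((isOpen_lt continuous_const hc).mem_nhds (by
        show |⟪ω, ‖y‖⁻¹ • y⟫| / 2 < |⟪ω, ‖y‖⁻¹ • y⟫|
        linarith)), _, half_pos hp, fun v hv => ⟨_, hz, le_of_lt hv⟩⟩

theorem big (hMAX : Q_MAX) (h : St n C U F) {c ε : ℝ} (hε : 0 < ε) (hc : ε ≤ c / 2) {x z : E ι}
    (hx : x ∈ lk C) (hz : z ∈ lk C) (H : c ≤ ⟪normal F x, z⟫) : c / 4 ≤ kap C F ε x := by
  have hne : z ≠ x := by
    rintro rfl
    rw [h.normal_self hz.1 (lk_ne hz)] at H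
    linarith
  refine le_trans ?_ ((hMAX ι n C U F h ε hε x hx).2.2 z hz hne)
  have hD := lk_D_pos hx hz hne
  have h2 : -1 ≤ ⟪x, z⟫ := by
    have := abs_real_inner_le_norm x z
    rw [lk_norm hx, lk_norm hz] at this
    linarith [neg_abs_le ⟪x, z⟫]
  unfold qv
  rw [le_div_iff₀ hD]
  nlinarith

theorem two (hMAX : Q_MAX) (hEST : Q_EST) (h : St n C U F) : ∃ K ε₀ : ℝ, 0 ≤ K ∧ 0 < ε₀ ∧
    ∀ ε, 0 < ε → ε ≤ ε₀ → ∀ x ∈ lk C, -(K * √ε) ≤ kap C F ε x ∧ kap C F ε x ≤ K := by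
  obtain ⟨K, ε₀, hK, h0, H⟩ := hEST ι n C U F h
  refine ⟨K, ε₀, hK, h0, fun ε hε h1 x hx => ?_⟩
  obtain ⟨⟨y, hy⟩, h2, -⟩ := hMAX ι n C U F h ε hε x hx
  rw [h2 y hy]
  exact ⟨(H ε hε h1 x hx y hy).1, (H ε hε h1 x hx y hy).2.1⟩

end LOWx

theorem c_LOW (hMAX : Q_MAX) (hEST : Q_EST) :
    Q_LOW := by
  intro ι _ n C U F h
  obtain ⟨c, hc, H⟩ := LOWx.unif h
  obtain ⟨K, e1, hK, h1, A⟩ := LOWx.two hMAX hEST h
  obtain ⟨L, e2, hL, h2, B⟩ := LOWx.two hMAX hEST h.neg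
  have hs : 0 < c / (8 * (K + L + 1)) := by positivity
  refine ⟨c / 8, K + L + c, min (min e1 e2) (min (c / 2) ((c / (8 * (K + L + 1))) ^ 2)),
    by positivity, by linarith, by positivity, fun ε hε he x hx => ?_⟩
  simp only [le_min_iff] at he
  obtain ⟨⟨a1, a2⟩, a3, a4⟩ := he
  obtain ⟨A1, A2⟩ := A ε hε a1 x hx
  obtain ⟨B1, B2⟩ := B ε hε a2 x hx
  have hq : √ε ≤ c / (8 * (K + L + 1)) := Real.sqrt_le_iff.2 ⟨hs.le, a4⟩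
  rw [le_div_iff₀ (by positivity)] at hq
  have hq0 := Real.sqrt_nonneg ε
  have k1 : 0 ≤ K * √ε := by positivity
  have k2 : 0 ≤ L * √ε := by positivity
  refine ⟨?_, by unfold sig; linarith⟩
  obtain ⟨z, hz, hz1⟩ := H (normal F x) (by simpa using h.norm_normal (h.lk_sub hx))
  unfold sig
  rcases le_abs.1 hz1 with h3 | h3
  · have := LOWx.big hMAX h hε a3 hx hz h3
    nlinarith
  · have := LOWx.big hMAX h.neg hε a3 hx hz (by simpa [normal_neg] using h3)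
    nlinarith

end Pool.Agent.P.MP_2b44f0_gt.PD
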