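import Pool.Agent.P.MP_2b44f0_gt.PD.If

/-! Step MAX. -/

namespace Pool.Agent.P.MP_2b44f0_gt.PD

open MeasureTheory Set Filter Asymptotics
open scoped ENNReal RealInnerProductSpace Topology

theorem c_MAX :
    Q_MAX := by
  intro ι _ n C U F h ε hε x hx
  have hν : ⟪normal F x, x⟫ = 0 := h.normal_self hx.1 (lk_ne hx)
  have hex : ∃ y, IsMx C F ε x y := by
    obtain ⟨z₀, hz₀, hne⟩ : ∃ z₀ ∈ lk C, z₀ ≠ x := by
      have h1 : normal F x ≠ 0 := by
        intro h0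
        have := h.norm_normal (h.lk_sub hx)
        simp [h0] at this
      obtain ⟨y, hy, hy'⟩ := h.nonflat (normal F x) h1
      have hy0 : y ≠ 0 := by
        rintro rfl
        simp at hy'
      refine ⟨_, h.mem_lk hy hy0, fun e => hy' ?_⟩
      have h2 : ⟪normal F x, ‖y‖⁻¹ • y⟫ = 0 := by rw [e]; exact hν
      rw [inner_smul_right] at h2
      exact (mul_eq_zero.1 h2).resolve_left (inv_ne_zero (norm_ne_zero_iff.2 hy0))
    set S : Set (E ι) := lk C ∩ {z | qv F ε x z₀ * (1 - ⟪x, z⟫) ≤ ⟪normal F x, z⟫ - ε} with hS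
    have hSc : IsCompact S := h.compact.inter_right (isClosed_le (by fun_prop) (by fun_prop))
    have hSx : ∀ z ∈ S, z ≠ x := by
      rintro z hz rfl
      have := hz.2
      simp only [mem_ofPred_eq, lk_inner hx, hν] at this
      linarith
    have hz₀S : z₀ ∈ S := ⟨hz₀, (div_mul_cancel₀ _ (lk_D_pos hx hz₀ hne).ne').le⟩
    have hc : ContinuousOn (qv F ε x) S :=
      ContinuousOn.div (by fun_prop) (by fun_prop) fun z hz => (lk_D_pos hx hz.1 (hSx z hz)).ne'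
    obtain ⟨y, hy, hmax⟩ := hSc.exists_isMaxOn ⟨z₀, hz₀S⟩ hc
    refine ⟨y, hy.1, hSx y hy, fun z hz => ?_⟩
    by_cases hzx : z = x
    · rw [hzx, lk_inner hx, hν]
      linarith
    have hD := lk_D_pos hx hz hzx
    by_cases hzS : z ∈ S
    · exact (div_le_iff₀ hD).1 (hmax hzS)
    · have h1 : ⟪normal F x, z⟫ - ε < qv F ε x z₀ * (1 - ⟪x, z⟫) :=
        not_le.1 fun h2 => hzS ⟨hz, h2⟩
      exact h1.le.trans (mul_le_mul_of_nonneg_right (hmax hz₀S) hD.le)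
  have hg : ∀ y, IsMx C F ε x y → IsGreatest (qv F ε x '' (lk C \ {x})) (qv F ε x y) := by
    intro y hy
    refine ⟨⟨y, ⟨hy.1, hy.2.1⟩, rfl⟩, ?_⟩
    rintro _ ⟨z, hz, rfl⟩
    exact (div_le_iff₀ (lk_D_pos hx hz.1 hz.2)).2 (hy.2.2 z hz.1)
  refine ⟨hex, fun y hy => (hg y hy).csSup_eq, fun z hz hne => ?_⟩
  obtain ⟨y, hy⟩ := hex
  exact le_csSup (hg y hy).bddAbove ⟨z, ⟨hz, hne⟩, rfl⟩

end Pool.Agent.P.MP_2b44f0_gt.PD
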