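import Pool.Agent.P.MP_2b44f0_gt.PD.If

/-! Step MOM. -/

namespace Pool.Agent.P.MP_2b44f0_gt.PD

open MeasureTheory Set Filter Asymptotics
open scoped ENNReal RealInnerProductSpace Topology

namespace MOMx

variable {ι : Type} [Fintype ι]

theorem tr_one (a q : E ι) : tr ((innerSL ℝ a).smulRight q) = ⟪a, q⟫ := by
  have : ((innerSL ℝ a).smulRight q).toLinearMap = (innerSL ℝ a).toLinearMap.smulRight q := rfl
  rw [tr, this, LinearMap.trace_smulRight]
  rfl

theorem gk_deriv (r : ℝ) (x y : E ι) :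
    HasFDerivAt (gk r x) ((-(2 / r ^ 2) * gk r x y) • innerSL ℝ (y - x)) y := by
  have h1 : HasFDerivAt (fun y : E ι => ‖y - x‖ ^ 2) ((2 : ℝ) • innerSL ℝ (y - x)) y := by
    have h := ((hasFDerivAt_id y).sub_const x).norm_sq
    refine h.congr_fderiv ?_
    ext v
    simp
  have h2 := ((h1.const_mul (-(1 / r ^ 2))).exp)
  have h3 : gk r x = fun y : E ι => Real.exp (-(1 / r ^ 2) * ‖y - x‖ ^ 2) := by
    funext z; simp only [gk]; congr 1; ring
  rw [h3]
  refine h2.congr_fderiv ?_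
  ext v
  simp only [ContinuousLinearMap.smul_apply, smul_eq_mul]
  ring

theorem gk_smooth (r : ℝ) (x : E ι) : ContDiff ℝ 1 (gk r x) := by
  have h1 : ContDiff ℝ 1 fun y : E ι => ‖y - x‖ ^ 2 := (contDiff_id.sub contDiff_const).norm_sq ℝ
  exact (h1.div_const _).neg.exp

/-- the test field -/
noncomputable def fX (r : ℝ) (x p : E ι) (M : E ι →L[ℝ] E ι) (y : E ι) : E ι :=
  gk r x y • (p + (1 / 2 : ℝ) • M (y - x))

theorem fX_smooth (r : ℝ) (x p : E ι) (M : E ι →L[ℝ] E ι) : ContDiff ℝ 1 (fX r x p M) :=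
  (gk_smooth r x).smul (contDiff_const.add
    ((M.contDiff.comp (contDiff_id.sub contDiff_const)).const_smul _))

theorem fX_deriv (r : ℝ) (x p : E ι) (M : E ι →L[ℝ] E ι) (y : E ι) :
    fderiv ℝ (fX r x p M) y = (gk r x y / 2) • M +
      (-(2 / r ^ 2) * gk r x y) • (innerSL ℝ (y - x)).smulRight (p + (1 / 2 : ℝ) • M (y - x)) := by
  have h1 : HasFDerivAt (fun y : E ι => p + (1 / 2 : ℝ) • M (y - x)) ((1 / 2 : ℝ) • M) y := by
    have h := ((M.hasFDerivAt.comp y ((hasFDerivAt_id y).sub_const x)).const_smul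
      (1 / 2 : ℝ)).const_add p
    refine h.congr_fderiv ?_
    ext1 v
    simp
  have h2 := (gk_deriv r x y).smul h1
  refine (h2.congr_fderiv ?_).fderiv
  ext1 v
  simp only [ContinuousLinearMap.add_apply, ContinuousLinearMap.smul_apply,
    ContinuousLinearMap.smulRight_apply, smul_smul, smul_eq_mul]
  congr 2
  ring

theorem trT_fX (F : E ι → ℝ) (r : ℝ) (x p : E ι) (M : E ι →L[ℝ] E ι) (y : E ι) :
    trT F y (fderiv ℝ (fX r x p M) y) = gk r x y / 2 * trT F y M +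
      (-(2 / r ^ 2) * gk r x y) * (⟪y - x, p + (1 / 2 : ℝ) • M (y - x)⟫ -
        ⟪y - x, y⟫ * ⟪p + (1 / 2 : ℝ) • M (y - x), y⟫ -
        ⟪y - x, normal F y⟫ * ⟪p + (1 / 2 : ℝ) • M (y - x), normal F y⟫) := by
  rw [fX_deriv]
  generalize p + (1 / 2 : ℝ) • M (y - x) = q
  generalize y - x = h
  generalize -(2 / r ^ 2) * gk r x y = c
  generalize gk r x y / 2 = d
  have h1 : tr (d • M + c • (innerSL ℝ h).smulRight q) = d * tr M + c * ⟪h, q⟫ := by
    rw [← trL_apply, map_add, map_smul, map_smul, trL_apply, trL_apply, tr_one]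
    rfl
  simp only [trT, h1, ContinuousLinearMap.add_apply, ContinuousLinearMap.smul_apply,
    ContinuousLinearMap.smulRight_apply, inner_add_left, real_inner_smul_left, innerSL_apply_apply]
  ring

theorem quad (M : E ι →L[ℝ] E ι) {a b : E ι} (ha : ‖a‖ = 1) (hb : ‖b‖ = 1) :
    |⟪M a, a⟫ - ⟪M b, b⟫| ≤ 2 * ‖M‖ * ‖a - b‖ := by
  have e : ⟪M a, a⟫ - ⟪M b, b⟫ = ⟪M (a - b), a⟫ + ⟪M b, a - b⟫ := by
    simp only [map_sub, inner_sub_left, inner_sub_right]; ring
  have h1 : |⟪M (a - b), a⟫| ≤ ‖M‖ * ‖a - b‖ := by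
    refine (abs_real_inner_le_norm _ _).trans ?_
    rw [ha, mul_one]; exact M.le_opNorm _
  have h2 : |⟪M b, a - b⟫| ≤ ‖M‖ * ‖a - b‖ := by
    refine (abs_real_inner_le_norm _ _).trans (mul_le_mul_of_nonneg_right ?_ (norm_nonneg _))
    simpa [hb] using M.le_opNorm b
  rw [e]
  refine (abs_add_le _ _).trans ?_
  linarith

theorem half (M : E ι →L[ℝ] E ι) (h : E ι) {a : E ι} (ha : ‖a‖ = 1) :
    |⟪(1 / 2 : ℝ) • M h, a⟫| ≤ ‖M‖ * ‖h‖ := by
  refine (abs_real_inner_le_norm _ _).trans ?_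
  rw [ha, mul_one, norm_smul]
  have h1 := M.le_opNorm h
  have h2 := norm_nonneg (M h)
  have h3 : ‖(1 / 2 : ℝ)‖ = 1 / 2 := by norm_num
  rw [h3]; linarith

theorem gauss {r s : ℝ} (hr : 0 < r) (hs : 0 ≤ s) :
    Real.exp (-(s ^ 2 / r ^ 2)) * s ≤ r * Real.exp (-(s ^ 2 / (2 * r) ^ 2)) ∧
    Real.exp (-(s ^ 2 / r ^ 2)) * s ^ 3 / r ^ 2 ≤ r * Real.exp (-(s ^ 2 / (2 * r) ^ 2)) := by
  obtain ⟨t, rfl⟩ : ∃ t, s = r * t := ⟨s / r, by field_simp⟩
  have ht : 0 ≤ t := by by_contra hc; push Not at hc; nlinarith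
  have e1 : (r * t) ^ 2 / r ^ 2 = t ^ 2 := by field_simp
  have e2 : (r * t) ^ 2 / (2 * r) ^ 2 = t ^ 2 / 4 := by field_simp; norm_num
  rw [e1, e2]
  set u := Real.exp (t ^ 2 / 4) with hu
  have h1 : 1 + t ^ 2 / 4 ≤ u := by have := Real.add_one_le_exp (t ^ 2 / 4); linarith
  have h2 : t ≤ u := by nlinarith [sq_nonneg (t - 2)]
  have h3 : 1 ≤ u := by nlinarith [sq_nonneg t]
  have e3 : Real.exp (-(t ^ 2 / 4)) = Real.exp (-t ^ 2) * u ^ 3 := by
    rw [hu, ← Real.exp_nat_mul, ← Real.exp_add]; congr 1; push_cast; ring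
  have h4 : t ^ 3 ≤ u ^ 3 := pow_le_pow_left₀ ht h2 3
  have h5 : t ≤ u ^ 3 := h2.trans (le_self_pow₀ h3 (by norm_num))
  have h6 := Real.exp_pos (-t ^ 2)
  rw [e3]
  constructor
  · have := mul_le_mul_of_nonneg_left h5 (mul_pos hr h6).le
    linarith
  · have := mul_le_mul_of_nonneg_left h4 (mul_pos hr h6).le
    have e4 : Real.exp (-t ^ 2) * (r * t) ^ 3 / r ^ 2 = r * Real.exp (-t ^ 2) * t ^ 3 := by
      field_simp
    rw [e4]; linarith

theorem arith {K P N s r g G a1 b1 a2 b2 c : ℝ} (hK : 0 ≤ K) (hP : 0 ≤ P) (hN : 0 ≤ N)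
    (hs : 0 ≤ s) (hr : 0 < r) (hg : 0 ≤ g) (h1 : g * s ≤ r * G) (h2 : g * s ^ 3 / r ^ 2 ≤ r * G)
    (ha1 : |a1| ≤ s ^ 2) (hb1 : |b1| ≤ P * s) (ha2 : |a2| ≤ K * s ^ 2)
    (hb2 : |b2| ≤ (K + 1) * P * s) (hc : |c| ≤ 2 * (K + 1) * P * s) :
    |2 / r ^ 2 * g * (a1 * b1 + a2 * b2) + g / 2 * c - N * (g * b1)| ≤
      (2 * (1 + K * (K + 1)) + (K + 1) + N) * P * r * G := by
  have e1 : |a1 * b1 + a2 * b2| ≤ (1 + K * (K + 1)) * P * s ^ 3 := by
    refine (abs_add_le _ _).trans ?_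
    rw [abs_mul, abs_mul]
    have k1 := mul_le_mul ha1 hb1 (abs_nonneg _) (by positivity)
    have k2 := mul_le_mul ha2 hb2 (abs_nonneg _) (by positivity)
    nlinarith
  have e2 : |2 / r ^ 2 * g * (a1 * b1 + a2 * b2)| ≤ 2 * (1 + K * (K + 1)) * P * (r * G) := by
    rw [abs_mul, abs_of_nonneg (by positivity : 0 ≤ 2 / r ^ 2 * g)]
    refine (mul_le_mul_of_nonneg_left e1 (by positivity)).trans ?_
    have := mul_le_mul_of_nonneg_left h2 (by positivity : 0 ≤ 2 * (1 + K * (K + 1)) * P)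
    refine le_trans (le_of_eq ?_) this
    ring
  have e3 : |g / 2 * c| ≤ (K + 1) * P * (r * G) := by
    rw [abs_mul, abs_of_nonneg (by positivity : 0 ≤ g / 2)]
    refine (mul_le_mul_of_nonneg_left hc (by positivity)).trans ?_
    have := mul_le_mul_of_nonneg_left h1 (by positivity : 0 ≤ (K + 1) * P)
    refine le_trans (le_of_eq ?_) this
    ring
  have e4 : |N * (g * b1)| ≤ N * P * (r * G) := by
    rw [abs_mul, abs_mul, abs_of_nonneg hN, abs_of_nonneg hg]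
    have k1 := mul_le_mul_of_nonneg_left (mul_le_mul_of_nonneg_left hb1 hg) hN
    have := mul_le_mul_of_nonneg_left h1 (by positivity : 0 ≤ N * P)
    refine k1.trans (le_trans (le_of_eq ?_) this)
    ring
  have e5 := abs_sub (2 / r ^ 2 * g * (a1 * b1 + a2 * b2) + g / 2 * c) (N * (g * b1))
  have e6 := abs_add_le (2 / r ^ 2 * g * (a1 * b1 + a2 * b2)) (g / 2 * c)
  linarith

end MOMx

open MOMx in
theorem c_MOM (hGEO : Q_GEO) (hFIN : Q_FIN) (hLDIV : Q_LDIV) :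
    Q_MOM := by
  intro ι _ n C U F h
  obtain ⟨K, hK, hG⟩ := hGEO ι n C U F h
  obtain ⟨-, hae, -, hint⟩ := hFIN ι n C U F h
  refine ⟨2 * (1 + K * (K + 1)) + (K + 1) + n, fun x hx p hp M r hr => ?_⟩
  have hdiv := hLDIV ι n C U F h _ (fX_smooth r x p M)
  have cg : ∀ r : ℝ, Continuous (gk r x) := fun r => (gk_smooth r x).continuous
  have cn : ContinuousOn (normal F) (lk C) := h.sm_normal.continuousOn.mono h.lk_sub
  have i1 := hint (gk r x) (cg r).continuousOn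
  have i2 := hint (fun y => gk r x y * (⟪p, y - x⟫ + ⟪M (y - x), y - x⟫ / 2))
    (Continuous.continuousOn (by have := cg r; fun_prop))
  have i3 := hint (fun y => trT F y (fderiv ℝ (fX r x p M) y) - n * ⟪fX r x p M y, y⟫) (by
    have c1 := ((fX_smooth r x p M).continuous_fderiv one_ne_zero).continuousOn (s := lk C)
    have c2 := (fX_smooth r x p M).continuous.continuousOn (s := lk C)
    refine ContinuousOn.sub ?_ (continuousOn_const.mul (ContinuousOn.inner (𝕜 := ℝ) c2 continuousOn_id))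
    exact ((trL.continuous.comp_continuousOn c1).sub
      (ContinuousOn.inner (𝕜 := ℝ) (c1.clm_apply continuousOn_id) continuousOn_id)).sub
      (ContinuousOn.inner (𝕜 := ℝ) (c1.clm_apply cn) cn))
  have i4 := hint (gk (2 * r) x) (cg _).continuousOn
  have i5 : Integrable (fun y => 2 / r ^ 2 * (gk r x y * (⟪p, y - x⟫ + ⟪M (y - x), y - x⟫ / 2)) -
      trT F x M / 2 * gk r x y) (lm n C) := (i2.const_mul _).sub (i1.const_mul _)
  rw [← integral_const_mul, ← integral_const_mul, ← integral_const_mul,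
    ← integral_sub (i2.const_mul _) (i1.const_mul _), ← add_zero (∫ _, _ - _ ∂lm n C), ← hdiv,
    ← integral_add i5 i3, ← Real.norm_eq_abs]
  refine norm_integral_le_of_norm_le (i4.const_mul _) (hae.mono fun y hy => ?_)
  have hxU := h.lk_sub hx
  have hyU := h.lk_sub hy
  obtain ⟨g1, -, -, -⟩ := (hG x hx).2.2 y hy
  obtain ⟨-, -, g2, -⟩ := (hG y hy).2.2 x hx
  have hP : 0 ≤ ‖p‖ + ‖M‖ := by positivity
  have hs := norm_nonneg (y - x)
  have hp0 := norm_nonneg p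
  have hM0 := norm_nonneg M
  obtain ⟨k1, k2⟩ := gauss hr hs
  have ha1 : |⟪y - x, y⟫| ≤ ‖y - x‖ ^ 2 := by
    have e := lk_dist hx hy
    have e' : ⟪y - x, y⟫ = ‖y - x‖ ^ 2 / 2 := by
      rw [inner_sub_left, lk_inner hy, e]; ring
    rw [e', abs_of_nonneg (by positivity)]
    nlinarith [sq_nonneg ‖y - x‖]
  have hb1 : |⟪p + (1 / 2 : ℝ) • M (y - x), y⟫| ≤ (‖p‖ + ‖M‖) * ‖y - x‖ := by
    have e : ⟪p, y⟫ = ⟪p, y - x⟫ := by
      rw [inner_sub_right, real_inner_comm x p, hp.1, sub_zero]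
    rw [inner_add_left, e]
    have := abs_real_inner_le_norm p (y - x)
    have := half M (y - x) (lk_norm hy)
    refine (abs_add_le _ _).trans ?_
    linarith
  have ha2 : |⟪y - x, normal F y⟫| ≤ K * ‖y - x‖ ^ 2 := by
    have e : ⟪y - x, normal F y⟫ = -⟪normal F y, x⟫ := by
      rw [inner_sub_left, real_inner_comm (normal F y) y, h.normal_self hy.1 (lk_ne hy),
        real_inner_comm, zero_sub]
    rw [e, abs_neg, norm_sub_rev]
    exact g2
  have hb2 : |⟪p + (1 / 2 : ℝ) • M (y - x), normal F y⟫| ≤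
      (K + 1) * (‖p‖ + ‖M‖) * ‖y - x‖ := by
    have e : ⟪p, normal F y⟫ = ⟪p, normal F y - normal F x⟫ := by
      rw [inner_sub_right, real_inner_comm (normal F x) p, hp.2, sub_zero]
    rw [inner_add_left, e]
    have k3 := (abs_real_inner_le_norm p (normal F y - normal F x)).trans
      (mul_le_mul_of_nonneg_left g1 hp0)
    have k4 := half M (y - x) (h.norm_normal hyU)
    refine (abs_add_le _ _).trans ?_
    nlinarith [mul_nonneg hp0 hs, mul_nonneg (mul_nonneg hK hM0) hs]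
  have hc : |trT F y M - trT F x M| ≤ 2 * (K + 1) * (‖p‖ + ‖M‖) * ‖y - x‖ := by
    have k3 := quad M (lk_norm hy) (lk_norm hx)
    have k4 := (quad M (h.norm_normal hyU) (h.norm_normal hxU)).trans
      (mul_le_mul_of_nonneg_left g1 (by positivity))
    have e : trT F y M - trT F x M = -((⟪M y, y⟫ - ⟪M x, x⟫) +
        (⟪M (normal F y), normal F y⟫ - ⟪M (normal F x), normal F x⟫)) := by
      simp only [trT]; ring
    rw [e, abs_neg]
    refine (abs_add_le _ _).trans ?_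
    nlinarith [mul_nonneg hp0 hs, mul_nonneg (mul_nonneg hK hp0) hs]
  have key := arith hK hP (Nat.cast_nonneg n) hs hr (Real.exp_pos _).le k1 k2 ha1 hb1 ha2 hb2 hc
  rw [Real.norm_eq_abs]
  refine le_trans (le_of_eq ?_) key
  congr 1
  have e : ⟪y - x, p + (1 / 2 : ℝ) • M (y - x)⟫ = ⟪p, y - x⟫ + ⟪M (y - x), y - x⟫ / 2 := by
    rw [real_inner_comm, inner_add_left, real_inner_smul_left]; ring
  rw [trT_fX, e, fX, real_inner_smul_left]
  simp only [gk]
  ring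

end Pool.Agent.P.MP_2b44f0_gt.PD
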