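import Pool.Agent.P.MP_2b44f0_gt.PD.If

/-! Step NJET. -/

namespace Pool.Agent.P.MP_2b44f0_gt.PD

open MeasureTheory Set Filter Asymptotics
open scoped ENNReal RealInnerProductSpace Topology

theorem c_NJET (hFRAME : Q_FRAME) (hTAYL : Q_TAYL) (hGEO : Q_GEO) (hTR2 : Q_TR2) :
    Q_NJET := by
  intro ι _ n C U F h x hx y
  obtain ⟨ρ, K, hρ, hK, hT⟩ := hTAYL ι (E ι) (normal F) U (lk C) h.chart.isOpen h.compact h.lk_sub
    h.sm_normal
  obtain ⟨G, hG, hS⟩ := hGEO ι n C U F h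
  have hU := h.lk_sub hx
  have hν := h.norm_normal hU
  have hνx := h.normal_self hx.1 (lk_ne hx)
  obtain ⟨β, hβ⟩ : ∃ β, β = ⟪fderiv ℝ (normal F) x (normal F x), y⟫ := ⟨_, rfl⟩
  obtain ⟨M, hM⟩ : ∃ M : E ι →L[ℝ] E ι, ∀ v, ⟪M v, v⟫ =
      ⟪fderiv ℝ (fderiv ℝ (normal F)) x v v, y⟫ - β * ⟪shape F x v, v⟫ := by
    refine ⟨InnerProductSpace.continuousLinearMapOfBilin (𝕜 := ℝ)
      ((ContinuousLinearMap.compL ℝ (E ι) (E ι) ℝ (innerSL ℝ y)).comp
        (fderiv ℝ (fderiv ℝ (normal F)) x)) - β • shape F x, fun v => ?_⟩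
    simp only [sub_apply, smul_apply, inner_sub_left, real_inner_smul_left,
      InnerProductSpace.continuousLinearMapOfBilin_apply]
    simp [real_inner_comm y]
  refine ⟨M, ?_, IsBigO.of_bound (K * ‖y‖ + |β| * G) ?_⟩
  · obtain ⟨hF, hB⟩ := hFRAME ι n x _ h.card (lk_norm hx) hν hνx
    obtain ⟨e, μ, he, -⟩ := hB _ (h.symm hU) (h.shape_self hx.1 (lk_ne hx)) (h.shape_normal hU)
    have h0 := (hF e he).2 (shape F x)
    rw [h.tr_shape hx.1 (lk_ne hx), h.shape_self hx.1 (lk_ne hx), h.shape_normal hU] at h0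
    rw [trT, (hF e he).2]
    simp only [hM, Finset.sum_sub_distrib, ← Finset.mul_sum, ← h0, ← sum_inner,
      hTR2 ι n C U F h x hx e he, real_inner_smul_left]
    simp
  · filter_upwards [self_mem_nhdsWithin,
      mem_nhdsWithin_of_mem_nhds (Metric.closedBall_mem_nhds x hρ)] with z hz hd
    rw [mem_closedBall_iff_norm] at hd
    have a1 := ((hT x hx).2.2.2 _ hd).2.2.2.1
    rw [add_sub_cancel] at a1
    have a2 := (abs_real_inner_le_norm _ y).trans (mul_le_mul_of_nonneg_right a1 (norm_nonneg y))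
    have a3 : |β * (⟪normal F x, z⟫ + ⟪shape F x (z - x), z - x⟫ / 2)| ≤
        |β| * (G * ‖z - x‖ ^ 3) := by
      rw [abs_mul]
      gcongr
      exact ((hS x hx).2.2 z hz).2.2.2
    have a4 : ⟪shape F x (z - x), y⟫ =
        ⟪fderiv ℝ (normal F) x (z - x), y⟫ - ⟪normal F x, z⟫ * β := by
      rw [shape, ContinuousLinearMap.comp_apply, Simons.proj_apply, map_sub (fderiv ℝ _ x),
        map_smul, inner_sub_left, real_inner_smul_left, inner_sub_right, hνx, sub_zero, hβ]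
    rw [Real.norm_of_nonneg (r := _ ^ 3) (by positivity), Real.norm_eq_abs, hM, a4]
    rw [inner_sub_left, inner_sub_left, inner_sub_left, real_inner_smul_left] at a2
    rw [abs_le] at *
    constructor <;> linarith [a2.1, a2.2, a3.1, a3.2]

end Pool.Agent.P.MP_2b44f0_gt.PD
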