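import Pool.Agent.P.MP_2b44f0_gt.PD.If

/-! Step POL. -/

namespace Pool.Agent.P.MP_2b44f0_gt.PD

open MeasureTheory Set Filter Asymptotics
open scoped ENNReal RealInnerProductSpace Topology Pointwise

namespace POLx

theorem rad_Iio (n : ℕ) (r : ℝ) : rad n (Iio r) = ENNReal.ofReal (max r 0 ^ (n + 1)) := by
  rw [rad, withDensity_apply _ measurableSet_Iio, Measure.restrict_restrict measurableSet_Iio,
    Iio_inter_Ioi]
  rcases le_total r 0 with h | h
  · rw [Ioo_eq_empty h.not_gt, max_eq_right h]; simp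
  · have hc : Continuous fun x : ℝ => ((n : ℝ) + 1) * x ^ n := by fun_prop
    rw [max_eq_left h, ← ofReal_integral_eq_lintegral_ofReal
      ((hc.integrableOn_Icc (a := 0) (b := r)).mono_set Ioo_subset_Icc_self)
      ((ae_restrict_iff' measurableSet_Ioo).2 (Eventually.of_forall fun x hx => by
        have := hx.1
        positivity)),
      ← integral_Ioc_eq_integral_Ioo, ← intervalIntegral.integral_of_le h,
      intervalIntegral.integral_const_mul, integral_pow]
    congr 1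
    field_simp
    simp

theorem scale {ι : Type} [Fintype ι] {C : Set (E ι)} (hC : IsCone C) (A : Set (E ι)) {r : ℝ}
    (hr : 0 < r) : (fun y : E ι => (‖y‖, ‖y‖⁻¹ • y)) ⁻¹' (Iio r ×ˢ A) ∩ C =
      r • ((fun y : E ι => ‖y‖⁻¹ • y) ⁻¹' A ∩ (C ∩ Metric.ball 0 1)) := by
  ext y
  have e1 : ‖r⁻¹ • y‖ = r⁻¹ * ‖y‖ := by rw [norm_smul, Real.norm_of_nonneg (inv_pos.2 hr).le]
  have e2 : (r⁻¹ * ‖y‖)⁻¹ • r⁻¹ • y = ‖y‖⁻¹ • y := by
    rw [smul_smul]; congr 1; rw [mul_inv, inv_inv, mul_right_comm, mul_inv_cancel₀ hr.ne', one_mul]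
  have e3 : r⁻¹ • y ∈ C ↔ y ∈ C := ⟨fun h => by
    have := hC _ h r hr
    rwa [smul_inv_smul₀ hr.ne'] at this, fun h => hC _ h _ (inv_pos.2 hr)⟩
  rw [mem_smul_set_iff_inv_smul_mem₀ hr.ne']
  simp only [mem_inter_iff, mem_preimage, mem_prod, mem_Iio, mem_ball_zero_iff, e1, e2, e3,
    inv_mul_lt_iff₀ hr, mul_one]
  tauto

end POLx

open POLx in
theorem c_POL :
    Q_POL := by
  intro ι _ n C _ hC hf
  have m1 : Measurable fun y : E ι => ‖y‖⁻¹ • y := by fun_prop
  have m2 : Measurable fun y : E ι => (‖y‖, ‖y‖⁻¹ • y) := by fun_prop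
  have : IsFiniteMeasure (lm n C) := ⟨by
    rw [lm, Measure.map_apply m1 MeasurableSet.univ, preimage_univ, Measure.restrict_apply_univ]
    exact hf.lt_top⟩
  symm
  refine Measure.prod_eq_generateFrom (μ := rad n)
    ((borel_eq_generateFrom_Iio ℝ).symm.trans BorelSpace.measurable_eq.symm)
    MeasurableSpace.generateFrom_measurableSet isPiSystem_Iio
    MeasurableSpace.isPiSystem_measurableSet
    ⟨fun i => Iio (i : ℝ), fun i => mem_range_self _,
      fun i => by rw [rad_Iio]; exact ENNReal.ofReal_lt_top,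
      iUnion_eq_univ_iff.2 fun x => exists_nat_gt x⟩ (lm n C).toFiniteSpanningSetsIn ?_
  rintro _ ⟨r, rfl⟩ A hA
  have hA' : MeasurableSet A := hA
  rw [Measure.map_apply m2 (measurableSet_Iio.prod hA'),
    Measure.restrict_apply (m2 (measurableSet_Iio.prod hA')), rad_Iio]
  rcases le_or_gt r 0 with h | h
  · rw [max_eq_right h, eq_empty_of_forall_notMem (s := _ ∩ C) fun y hy =>
      (lt_of_lt_of_le hy.1.1 h).not_ge (norm_nonneg y)]
    simp
  · rw [scale hC A h, Measure.euclideanHausdorffMeasure_smul₀ _ h.ne', lm, Measure.map_apply m1 hA',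
      Measure.restrict_apply (m1 hA'), max_eq_left h.le, ENNReal.smul_def, smul_eq_mul,
      ENNReal.ofReal_pow h.le, ENNReal.coe_pow, ← enorm_eq_nnnorm, Real.enorm_eq_ofReal h.le]

end Pool.Agent.P.MP_2b44f0_gt.PD
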