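import Pool.Agent.P.MP_2b44f0_gt.PD.If

/-! Step REFL. -/

namespace Pool.Agent.P.MP_2b44f0_gt.PD

open MeasureTheory Set Filter Asymptotics
open scoped ENNReal RealInnerProductSpace Topology

namespace REFLx

theorem scal (φ ε : ℝ) (hε : 0 < ε) (h : 2 * ε * |φ| + ε ^ 2 ≤ 1 / 2) :
    ∃ s A B : ℝ, 0 < s ∧ s ^ 2 = 1 - 2 * ε * φ - ε ^ 2 ∧ A - B * φ = s ∧ φ * A + B = φ + ε ∧
      B * (φ + ε) + s * A = 1 ∧ 0 ≤ 1 - A ∧ 1 - A ≤ ε ^ 2 := by
  have h1 : ε * φ ≤ ε * |φ| := mul_le_mul_of_nonneg_left (le_abs_self φ) hε.le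
  have h2 : (1 / 2 : ℝ) ≤ 1 - 2 * ε * φ - ε ^ 2 := by nlinarith
  obtain ⟨s, hs, hs2⟩ : ∃ s : ℝ, 0 < s ∧ s ^ 2 = 1 - 2 * ε * φ - ε ^ 2 :=
    ⟨√(1 - 2 * ε * φ - ε ^ 2), Real.sqrt_pos.2 (by linarith), Real.sq_sqrt (by linarith)⟩
  have hN : 0 < 1 + φ ^ 2 := by positivity
  have h3 : ε * φ ≤ 1 / 4 := by nlinarith [sq_nonneg ε]
  have h4 : 1 / 2 ≤ s := by nlinarith
  have h5 : (1 - φ * ε - s) * (1 - φ * ε + s) = ε ^ 2 * (1 + φ ^ 2) := by nlinarith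
  have h6 : 1 ≤ 1 - φ * ε + s := by nlinarith
  have h7 : 0 ≤ 1 - φ * ε - s := by
    by_contra hc
    have : (1 - φ * ε - s) * (1 - φ * ε + s) < 0 :=
      mul_neg_of_neg_of_pos (not_le.1 hc) (by linarith)
    have : 0 ≤ ε ^ 2 * (1 + φ ^ 2) := by positivity
    linarith
  have h8 : 1 - φ * ε - s ≤ ε ^ 2 * (1 + φ ^ 2) := by nlinarith
  have hA : 1 - (s + φ * (φ + ε)) / (1 + φ ^ 2) = (1 - φ * ε - s) / (1 + φ ^ 2) := by
    field_simp; ring
  refine ⟨s, (s + φ * (φ + ε)) / (1 + φ ^ 2), (φ + ε - s * φ) / (1 + φ ^ 2), hs, hs2, ?_, ?_, ?_,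
    ?_, ?_⟩
  · field_simp; ring
  · field_simp; ring
  · field_simp; nlinarith
  · rw [hA]; positivity
  · rw [hA, div_le_iff₀ hN]; exact h8

end REFLx

theorem c_REFL :
    Q_REFL := by
  intro ι _ x ν y ν' φ ε hx hν hνx hy hν' hν'y hε he hφ hD hξ
  obtain ⟨s, A, B, hs, hs2, h1, h2, h3, h4, h5⟩ := REFLx.scal φ ε hε hφ
  have xx : ⟪x, x⟫ = 1 := by rw [real_inner_self_eq_norm_sq, hx]; norm_num
  have nn : ⟪ν, ν⟫ = 1 := by rw [real_inner_self_eq_norm_sq, hν]; norm_num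
  have yy : ⟪y, y⟫ = 1 := by rw [real_inner_self_eq_norm_sq, hy]; norm_num
  have mm : ⟪ν', ν'⟫ = 1 := by rw [real_inner_self_eq_norm_sq, hν']; norm_num
  have xn : ⟪x, ν⟫ = 0 := by rw [real_inner_comm]; exact hνx
  have ym : ⟪y, ν'⟫ = 0 := by rw [real_inner_comm]; exact hν'y
  obtain ⟨t, ht⟩ : ∃ t, t = ⟪x, y⟫ := ⟨_, rfl⟩
  obtain ⟨e, hee⟩ : ∃ e, e = ⟪ν, y⟫ := ⟨_, rfl⟩
  have yx : ⟪y, x⟫ = t := by rw [real_inner_comm]; exact ht.symm
  have yn : ⟪y, ν⟫ = e := by rw [real_inner_comm]; exact hee.symm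
  rw [← ht] at he hD
  rw [← hee] at he
  obtain ⟨g, hg⟩ : ∃ g : E ι, g = A • x + B • ν - y := ⟨_, rfl⟩
  have gv : ∀ v, ⟪v, g⟫ = A * ⟪v, x⟫ + B * ⟪v, ν⟫ - ⟪v, y⟫ := fun v => by
    rw [hg, inner_sub_right, inner_add_right, inner_smul_right, inner_smul_right]
  have hΔ : 0 < A - t := by linarith
  have gx : ⟪x, g⟫ = A - t := by rw [gv, xx, xn, ← ht]; ring
  have hB : B - e = -φ * (A - t) := by rw [he]; linarith
  have gn : ⟪ν, g⟫ = -φ * (A - t) := by rw [gv, hνx, nn, ← hee, ← hB]; ring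
  have hy1 : A * t + B * e - 1 = -s * (A - t) := by
    rw [he]; linear_combination t * h1 + h3
  have gy : ⟪y, g⟫ = -s * (A - t) := by rw [gv, yx, yn, yy, hy1]
  have gg : ⟪g, g⟫ = 2 * (s * (A - t)) := by
    rw [gv, real_inner_comm x g, real_inner_comm ν g, real_inner_comm y g, gx, gn, gy]
    linear_combination (A - t) * h1
  have hsΔ : 0 < s * (A - t) := mul_pos hs hΔ
  obtain ⟨c, hc⟩ : ∃ c, c = (s * (A - t))⁻¹ := ⟨_, rfl⟩
  have hc1 : c * (s * (A - t)) = 1 := by rw [hc]; exact inv_mul_cancel₀ hsΔ.ne'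
  have hc0 : 0 < c := by rw [hc]; exact inv_pos.2 hsΔ
  obtain ⟨R, hR⟩ : ∃ R : E ι →L[ℝ] E ι, ∀ v, R v = v - (c * ⟪v, g⟫) • g :=
    ⟨ContinuousLinearMap.id ℝ _ - c • (innerSL ℝ g).smulRight g, fun v => by
      simp [smul_smul, real_inner_comm]⟩
  have uR : ∀ u v, ⟪u, R v⟫ = ⟪u, v⟫ - c * ⟪v, g⟫ * ⟪u, g⟫ := fun u v => by
    rw [hR, inner_sub_right, inner_smul_right]
  refine ⟨R, c, c * (A - t), fun v w => ?_, ?_, fun v vx vn => ?_⟩
  · rw [uR, real_inner_comm w (R v), real_inner_comm g (R v), uR, uR, gg, real_inner_comm v w,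
      real_inner_comm v g]
    linear_combination (2 * c * ⟪v, g⟫ * ⟪w, g⟫) * hc1
  · rw [← ht, ← hee]
    have k1 : 1 - t ^ 2 - e ^ 2 = 2 * (s * (A - t)) - (A - t) ^ 2 - (B - e) ^ 2 := by
      linear_combination (-1) * hy1 + (A - t) * h1 + B * hB
    have k2 : 1 - t ^ 2 - e ^ 2 ≤ 2 * (s * (A - t)) := by
      nlinarith [sq_nonneg (A - t), sq_nonneg (B - e)]
    have k3 : c * (1 - t) - c * (A - t) = c * (1 - A) := by ring
    rw [k3]
    calc c * (1 - A) * (1 - t ^ 2 - e ^ 2) ≤ c * (1 - A) * (2 * (s * (A - t))) :=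
          mul_le_mul_of_nonneg_left k2 (mul_nonneg hc0.le h4)
      _ = 2 * (1 - A) := by linear_combination (2 * (1 - A)) * hc1
      _ ≤ 2 * ε ^ 2 := by linarith
  · have vg : ⟪v, g⟫ = -⟪v, y⟫ := by
      rw [gv, real_inner_comm x v, real_inner_comm ν v, vx, vn]; ring
    have a1 : ⟪y, R v⟫ = 0 := by
      rw [uR, vg, gy, real_inner_comm v y]
      linear_combination (-⟪v, y⟫) * hc1
    have a2 : ⟪x, R v⟫ = c * (A - t) * ⟪v, y⟫ := by rw [uR, vg, gx, vx]; ring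
    have a3 : ⟪φ • x + ν, R v⟫ = 0 := by
      rw [inner_add_left, real_inner_smul_left, a2, uR, vg, gn, vn]; ring
    refine ⟨a1, ?_, ?_, a2⟩
    · have b1 := hξ (R v - ⟪ν', R v⟫ • ν')
        (by rw [inner_sub_right, inner_smul_right, a1, ym]; ring)
        (by rw [inner_sub_right, inner_smul_right, mm]; ring)
      rw [inner_sub_right, inner_smul_right, a3, zero_sub, neg_eq_zero, mul_eq_zero] at b1
      refine b1.resolve_right fun b2 => ?_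
      have yw : ⟪y, φ • x + ν⟫ = φ + ε := by
        rw [inner_add_right, inner_smul_right, yx, yn, he]; ring
      have b3 := hξ (φ • x + ν - (φ + ε) • y)
        (by rw [inner_sub_right, inner_smul_right, yw, yy]; ring)
        (by rw [inner_sub_right, inner_smul_right, hν'y, real_inner_comm, b2]; ring)
      have ww : ⟪φ • x + ν, φ • x + ν⟫ = φ ^ 2 + 1 := by
        rw [inner_add_left, real_inner_smul_left, inner_add_right, inner_add_right,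
          inner_smul_right, inner_smul_right, xx, xn, hνx, nn]; ring
      rw [inner_sub_right, inner_smul_right, ww, real_inner_comm, yw] at b3
      nlinarith
    · rw [uR, vg, real_inner_self_eq_norm_sq]; ring

end Pool.Agent.P.MP_2b44f0_gt.PD
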