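import Pool.Agent.P.MP_2b44f0_gt.PD.If

/-! Step SEMI. -/

namespace Pool.Agent.P.MP_2b44f0_gt.PD

open MeasureTheory Set Filter Asymptotics
open scoped ENNReal RealInnerProductSpace Topology

namespace SEMIx

variable {ι : Type} [Fintype ι] {n : ℕ} {C U : Set (E ι)} {F : E ι → ℝ}

theorem alg (d D D' N φ q t R r P A : ℝ) (hd : 0 < d) (hD : d ≤ D) (hr : r ≤ d / 2) (hr0 : 0 ≤ r)
    (hP : 0 ≤ P) (hA : 0 ≤ A) (hD' : D' = D - t) (ht : |t| ≤ r) (hq : |q| ≤ P * r)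
    (hR : |R| ≤ A * r ^ 2) (hN : N - φ * D' = D * q + R) :
    0 < D' ∧ φ + q - 2 * (P + A) / d * r ^ 2 ≤ N / D' := by
  have h1 : d / 2 ≤ D' := by have := (abs_le.1 ht).2; linarith
  have h2 : 0 < D' := by linarith
  refine ⟨h2, ?_⟩
  rw [le_div_iff₀ h2]
  have h3 : |t * q| ≤ P * r ^ 2 := by
    rw [abs_mul]
    calc |t| * |q| ≤ r * (P * r) := mul_le_mul ht hq (abs_nonneg _) hr0
      _ = P * r ^ 2 := by ring
  have h4 : (P + A) * r ^ 2 ≤ 2 * (P + A) / d * r ^ 2 * D' := by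
    have h5 : 2 * (P + A) / d * r ^ 2 * (d / 2) = (P + A) * r ^ 2 := by field_simp
    rw [← h5]
    exact mul_le_mul_of_nonneg_left h1 (by positivity)
  have h6 := (abs_le.1 h3).1
  have h7 := (abs_le.1 hR).1
  have h8 : N = φ * D' + D' * q + t * q + R := by rw [hD'] at hN ⊢; linarith
  nlinarith

theorem norm_prT (h : St n C U F) {x y : E ι} (hx : x ∈ lk C) (hy : y ∈ lk C) :
    ‖prT F x y‖ ≤ 3 := by
  have hν := h.norm_normal (h.lk_sub hx)
  have h1 : ‖⟪x, y⟫ • x‖ ≤ 1 := by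
    rw [norm_smul, lk_norm hx, mul_one]
    simpa [lk_norm hx, lk_norm hy] using norm_inner_le_norm (𝕜 := ℝ) x y
  have h2 : ‖⟪normal F x, y⟫ • normal F x‖ ≤ 1 := by
    rw [norm_smul, hν, mul_one]
    simpa [hν, lk_norm hy] using norm_inner_le_norm (𝕜 := ℝ) (normal F x) y
  have h3 := norm_sub_le (y - ⟪x, y⟫ • x) (⟪normal F x, y⟫ • normal F x)
  have h4 := norm_sub_le y (⟪x, y⟫ • x)
  have h5 := lk_norm hy
  unfold prT
  linarith

end SEMIx

theorem c_SEMI (hGEO : Q_GEO) (hMAX : Q_MAX) (hEST : Q_EST) :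
    Q_SEMI := by
  intro ι _ n C U F h
  obtain ⟨K1, hK1, hG⟩ := hGEO ι n C U F h
  obtain ⟨K2, ε₀, hK2, hε₀, hE⟩ := hEST ι n C U F h
  refine ⟨ε₀, hε₀, fun ε hε hεε => ?_⟩
  have hM := hMAX ι n C U F h ε hε
  obtain ⟨d, hd⟩ : ∃ d : ℝ, d = ε ^ 2 / (4 * (K2 + 1)) := ⟨_, rfl⟩
  have hd0 : 0 < d := by rw [hd]; positivity
  obtain ⟨Φ, hΦ⟩ : ∃ Φ : ℝ, Φ = K2 + K2 * √ε := ⟨_, rfl⟩
  have hs : 0 ≤ K2 * √ε := by positivity
  have hΦ0 : 0 ≤ Φ := by rw [hΦ]; positivity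
  have hφ : ∀ x ∈ lk C, ∀ y, IsMx C F ε x y → |qv F ε x y| ≤ Φ := by
    intro x hx y hy
    obtain ⟨h1, h2, -, -⟩ := hE ε hε hεε x hx y hy
    rw [abs_le, hΦ]; constructor <;> linarith
  have hκ : ∀ x ∈ lk C, |kap C F ε x| ≤ Φ := by
    intro x hx
    obtain ⟨⟨y, hy⟩, h2, -⟩ := hM x hx
    rw [h2 y hy]; exact hφ x hx y hy
  have hD : ∀ x ∈ lk C, ∀ y, IsMx C F ε x y → d ≤ 1 - ⟪x, y⟫ := by
    intro x hx y hy
    obtain ⟨-, -, -, h4⟩ := hE ε hε hεε x hx y hy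
    have h0 := lk_D_pos hx hy.1 hy.2.1
    have h1 : |⟪x, y⟫| ≤ 1 := by
      simpa [lk_norm hx, lk_norm hy.1] using abs_real_inner_le_norm x y
    have h2 : 1 - ⟪x, y⟫ ≤ 2 := by have := (abs_le.1 h1).1; linarith
    rw [hd, div_le_iff₀ (by positivity)]
    generalize 1 - ⟪x, y⟫ = D at h4 h0 h2 ⊢
    have h5 : D ^ 3 ≤ 4 * D := by
      have : D ^ 2 ≤ 4 := by nlinarith
      nlinarith
    have h6 := mul_le_mul_of_nonneg_left h5 hK2
    nlinarith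
  obtain ⟨P, hP⟩ : ∃ P : ℝ, P = 3 * (Φ + K1) / d := ⟨_, rfl⟩
  have hP0 : 0 ≤ P := by rw [hP]; positivity
  have hpv : ∀ x ∈ lk C, ∀ y, IsMx C F ε x y → ‖pv F ε x y‖ ≤ P := by
    intro x hx y hy
    have h1 := SEMIx.norm_prT h hx hy.1
    have h2 := hD x hx y hy
    have h0 := lk_D_pos hx hy.1 hy.2.1
    have h3 : ‖qv F ε x y • prT F x y‖ ≤ Φ * 3 := by
      rw [norm_smul]
      exact mul_le_mul (hφ x hx y hy) h1 (norm_nonneg _) hΦ0
    have h4 : ‖shape F x (prT F x y)‖ ≤ K1 * 3 :=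
      ((shape F x).le_opNorm _).trans (mul_le_mul (hG x hx).1 h1 (norm_nonneg _) hK1)
    have h5 := norm_add_le (qv F ε x y • prT F x y) (shape F x (prT F x y))
    rw [pv, norm_smul, norm_inv, Real.norm_of_nonneg h0.le, hP, inv_mul_eq_div]
    exact div_le_div₀ (by positivity) (by linarith) hd0 h2
  obtain ⟨A, hA⟩ : ∃ A : ℝ, A = K1 + Φ * (1 / 2 + K1) := ⟨_, rfl⟩
  have hA0 : 0 ≤ A := by rw [hA]; positivity
  obtain ⟨K, hK⟩ : ∃ K : ℝ, K = P + 2 * (P + A) / d + 8 * (Φ + P) / d ^ 2 := ⟨_, rfl⟩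
  have k1 : 0 ≤ 2 * (P + A) / d := by positivity
  have k2 : 0 ≤ 8 * (Φ + P) / d ^ 2 := by positivity
  have two : ∀ x ∈ lk C, ∀ z ∈ lk C, ‖z - x‖ ≤ 2 := by
    intro x hx z hz
    have := norm_sub_le z x
    rw [lk_norm hx, lk_norm hz] at this; linarith
  have main : ∀ x ∈ lk C, ∀ y, IsMx C F ε x y → ‖pv F ε x y‖ ≤ K ∧
      ∀ z ∈ lk C, kap C F ε x + ⟪pv F ε x y, z - x⟫ - K * ‖z - x‖ ^ 2 ≤ kap C F ε z := by
    intro x hx y hy
    refine ⟨(hpv x hx y hy).trans (by rw [hK]; linarith), fun z hz => ?_⟩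
    have hq : |⟪pv F ε x y, z - x⟫| ≤ P * ‖z - x‖ :=
      (abs_real_inner_le_norm _ _).trans
        (mul_le_mul_of_nonneg_right (hpv x hx y hy) (norm_nonneg _))
    have hr0 := norm_nonneg (z - x)
    have hr2 : 0 ≤ ‖z - x‖ ^ 2 := by positivity
    by_cases hr : ‖z - x‖ ≤ d / 2
    · have hU := h.lk_sub hx
      have h0 := lk_D_pos hx hy.1 hy.2.1
      have hν := h.norm_normal hU
      obtain ⟨-, -, hg⟩ := hG x hx
      obtain ⟨-, g2, g3, -⟩ := hg z hz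
      have ht : |⟪z - x, y⟫| ≤ ‖z - x‖ := by
        simpa [lk_norm hy.1] using abs_real_inner_le_norm (z - x) y
      have e1 : |⟪normal F z - normal F x - shape F x (z - x), y⟫| ≤ K1 * ‖z - x‖ ^ 2 := by
        refine (abs_real_inner_le_norm _ _).trans ?_
        rw [lk_norm hy.1, mul_one]; exact g2
      have e2 : ⟪x, z - x⟫ = -(‖z - x‖ ^ 2 / 2) := by
        rw [inner_sub_right, lk_inner hx, lk_dist hx hz]; ring
      have e3 : ⟪normal F x, z - x⟫ = ⟪normal F x, z⟫ := by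
        rw [inner_sub_right, h.normal_self hx.1 (lk_ne hx), sub_zero]
      have e4 : |⟪x, y⟫| ≤ 1 := by
        simpa [lk_norm hx, lk_norm hy.1] using abs_real_inner_le_norm x y
      have e5 : |⟪normal F x, y⟫| ≤ 1 := by
        simpa [hν, lk_norm hy.1] using abs_real_inner_le_norm (normal F x) y
      have e6 : |⟪x, y⟫ * ⟪x, z - x⟫ + ⟪normal F x, y⟫ * ⟪normal F x, z - x⟫| ≤
          (1 / 2 + K1) * ‖z - x‖ ^ 2 := by
        refine (abs_add_le _ _).trans ?_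
        rw [abs_mul, abs_mul, e2, e3, abs_neg, abs_of_nonneg (by positivity : 0 ≤ ‖z - x‖ ^ 2 / 2)]
        have a1 := mul_le_mul_of_nonneg_right e4 (by positivity : 0 ≤ ‖z - x‖ ^ 2 / 2)
        have a2 := mul_le_mul e5 g3 (abs_nonneg _) zero_le_one
        linarith
      have e7 : |⟪normal F z - normal F x - shape F x (z - x), y⟫ + qv F ε x y *
          (⟪x, y⟫ * ⟪x, z - x⟫ + ⟪normal F x, y⟫ * ⟪normal F x, z - x⟫)| ≤ A * ‖z - x‖ ^ 2 := by
        refine (abs_add_le _ _).trans ?_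
        rw [abs_mul]
        have a1 := mul_le_mul (hφ x hx y hy) e6 (abs_nonneg _) hΦ0
        rw [hA]; linarith
      have e8 : (1 - ⟪x, y⟫) * ⟪pv F ε x y, z - x⟫ =
          qv F ε x y * ⟪prT F x y, z - x⟫ + ⟪shape F x (z - x), y⟫ := by
        rw [pv, real_inner_smul_left, ← mul_assoc, mul_inv_cancel₀ h0.ne', one_mul, inner_add_left,
          real_inner_smul_left, h.shape_prT hx, h.symm hU, real_inner_comm y]
      have e9 : ⟪prT F x y, z - x⟫ = ⟪z - x, y⟫ - ⟪x, y⟫ * ⟪x, z - x⟫ -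
          ⟪normal F x, y⟫ * ⟪normal F x, z - x⟫ := by
        rw [prT, inner_sub_left, inner_sub_left, real_inner_smul_left, real_inner_smul_left,
          real_inner_comm (z - x) y]
      have e10 : qv F ε x y * (1 - ⟪x, y⟫) = ⟪normal F x, y⟫ - ε := by
        rw [qv]; exact div_mul_cancel₀ _ h0.ne'
      have e11 : 1 - ⟪z, y⟫ = 1 - ⟪x, y⟫ - ⟪z - x, y⟫ := by rw [inner_sub_left]; ring
      obtain ⟨a1, a2⟩ := SEMIx.alg d (1 - ⟪x, y⟫) (1 - ⟪z, y⟫) (⟪normal F z, y⟫ - ε) (qv F ε x y)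
        _ _ _ _ P A hd0 (hD x hx y hy) hr hr0 hP0 hA0 e11 ht hq e7 (by
          rw [e8, e9, e11, mul_sub (qv F ε x y) (1 - ⟪x, y⟫), e10, inner_sub_left (normal F z - _),
            inner_sub_left (normal F z)]
          ring)
      have hne : y ≠ z := by
        intro hyz
        rw [hyz, lk_inner hz] at a1
        linarith
      have a3 := (hM z hz).2.2 y hy.1 hne
      rw [(hM x hx).2.1 y hy]
      have a4 : 2 * (P + A) / d * ‖z - x‖ ^ 2 ≤ K * ‖z - x‖ ^ 2 :=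
        mul_le_mul_of_nonneg_right (by rw [hK]; linarith) hr2
      have a5 : qv F ε z y = (⟪normal F z, y⟫ - ε) / (1 - ⟪z, y⟫) := rfl
      linarith
    · have hr' : d / 2 ≤ ‖z - x‖ := (not_le.1 hr).le
      have a1 : (d / 2) ^ 2 ≤ ‖z - x‖ ^ 2 := pow_le_pow_left₀ (by positivity) hr' 2
      have a2 : 8 * (Φ + P) / d ^ 2 * (d / 2) ^ 2 = 2 * (Φ + P) := by field_simp; ring
      have a3 := mul_le_mul_of_nonneg_left a1 k2
      have a4 : 8 * (Φ + P) / d ^ 2 * ‖z - x‖ ^ 2 ≤ K * ‖z - x‖ ^ 2 :=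
        mul_le_mul_of_nonneg_right (by rw [hK]; linarith) hr2
      have a5 := (abs_le.1 (hκ x hx)).2
      have a6 := (abs_le.1 (hκ z hz)).1
      have a7 := (abs_le.1 hq).2
      have a8 := mul_le_mul_of_nonneg_left (two x hx z hz) hP0
      linarith
  have hK0 : 0 ≤ K := by rw [hK]; positivity
  refine ⟨?_, K, main⟩
  refine (LipschitzOnWith.of_le_add_mul' (3 * K) fun x hx z hz => ?_).continuousOn
  obtain ⟨y, hy⟩ := (hM x hx).1
  obtain ⟨b1, b2⟩ := main x hx y hy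
  have b3 := b2 z hz
  have b4 : |⟪pv F ε x y, z - x⟫| ≤ K * ‖z - x‖ :=
    (abs_real_inner_le_norm _ _).trans (mul_le_mul_of_nonneg_right b1 (norm_nonneg _))
  have b5 := (abs_le.1 b4).1
  have b6 : K * ‖z - x‖ ^ 2 ≤ 2 * K * ‖z - x‖ := by
    have := mul_le_mul_of_nonneg_left (two x hx z hz) (mul_nonneg hK0 (norm_nonneg (z - x)))
    nlinarith
  rw [dist_comm, dist_eq_norm]
  linarith

end Pool.Agent.P.MP_2b44f0_gt.PD
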