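import Pool.Agent.P.MP_2b44f0_gt.PD.If

/-! Step SIG. -/

namespace Pool.Agent.P.MP_2b44f0_gt.PD

open MeasureTheory Set Filter Asymptotics
open scoped ENNReal RealInnerProductSpace Topology

namespace SIGx

variable {ι : Type} [Fintype ι]

theorem trT_add (F : E ι → ℝ) (x : E ι) (M M' : E ι →L[ℝ] E ι) :
    trT F x (M + M') = trT F x M + trT F x M' := by
  have h : tr (M + M') = tr M + tr M' := by
    rw [← trL_apply, map_add, trL_apply, trL_apply]
  simp only [trT, h, add_apply, inner_add_left]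
  ring

theorem jet_add {C : Set (E ι)} {k k' : E ι → ℝ} {x p p' : E ι} {M M' : E ι →L[ℝ] E ι}
    (h : LJet C k x p M) (h' : LJet C k' x p' M') :
    LJet C (fun z => k z + k' z) x (p + p') (M + M') := by
  intro η hη
  filter_upwards [h (η / 2) (half_pos hη), h' (η / 2) (half_pos hη)] with y h1 h2
  simp only [add_apply, inner_add_left]
  linarith

end SIGx

theorem c_SIG (hLOW : Q_LOW) (hSEMI : Q_SEMI) (hJET : Q_JET) :
    Q_SIG := by
  intro ι _ n C U F h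
  obtain ⟨a, b, e0, ha, hab, he0, hL⟩ := hLOW ι n C U F h
  obtain ⟨e1, he1, hS⟩ := hSEMI ι n C U F h
  obtain ⟨e2, he2, hS'⟩ := hSEMI ι n C U (-F) h.neg
  refine ⟨a, b, ha, hab, fun η hη => ?_⟩
  obtain ⟨e3, he3, hJ⟩ := hJET ι n C U F h (η / 2) (half_pos hη)
  obtain ⟨e4, he4, hJ'⟩ := hJET ι n C U (-F) h.neg (η / 2) (half_pos hη)
  refine ⟨min (min e0 (min e1 e2)) (min e3 e4), by positivity, fun ε hε hle => ?_⟩
  simp only [le_min_iff] at hle
  obtain ⟨⟨l0, l1, l2⟩, l3, l4⟩ := hle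
  obtain ⟨c1, K, hK⟩ := hS ε hε l1
  obtain ⟨c2, K', hK'⟩ := hS' ε hε l2
  refine ⟨c1.add c2, hL ε hε l0, K + K', fun x hx y y' hy hy' => ?_⟩
  obtain ⟨n1, s1⟩ := hK x hx y hy
  obtain ⟨n2, s2⟩ := hK' x hx y' hy'
  obtain ⟨M, j1, t1⟩ := hJ ε hε l3 x hx y hy
  obtain ⟨M', j2, t2⟩ := hJ' ε hε l4 x hx y' hy'
  refine ⟨(norm_add_le _ _).trans (add_le_add n1 n2), fun z hz => ?_,
    M + M', SIGx.jet_add j1 j2, ?_⟩
  · have h1 := s1 z hz
    have h2 := s2 z hz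
    simp only [sig, inner_add_left]
    linarith
  · have hs : 0 < sig C F ε x + η := by linarith [(hL ε hε l0 x hx).1]
    have hP : Tan F x (pv F ε x y + pv (-F) ε x y') :=
      (h.tan_pv hx ε y).add ((tan_neg F x _).1 (h.neg.tan_pv hx ε y'))
    have hu := hP.smul (sig C F ε x + η)⁻¹
    have h1 := t1 _ hu
    have h2 := t2 _ ((tan_neg F x _).2 hu)
    rw [sqCurv_neg, trT_neg, shape_neg, neg_apply, inner_neg_left] at h2
    rw [SIGx.trT_add]
    generalize hQ : pv F ε x y + pv (-F) ε x y' = Q at h1 h2 ⊢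
    have h3 : ⟪pv F ε x y, (sig C F ε x + η)⁻¹ • Q⟫ +
        ⟪pv (-F) ε x y', (sig C F ε x + η)⁻¹ • Q⟫ = ‖Q‖ ^ 2 / (sig C F ε x + η) := by
      rw [← inner_add_left, hQ, inner_smul_right, real_inner_self_eq_norm_sq]
      field_simp
    have h4 : (sig C F ε x + η) * ‖(sig C F ε x + η)⁻¹ • Q‖ ^ 2 =
        ‖Q‖ ^ 2 / (sig C F ε x + η) := by
      rw [norm_smul, Real.norm_eq_abs, abs_of_pos (inv_pos.2 hs)]
      field_simp
    rw [mul_div_assoc]
    generalize ‖Q‖ ^ 2 / (sig C F ε x + η) = T at h3 h4 ⊢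
    generalize ‖(sig C F ε x + η)⁻¹ • Q‖ ^ 2 = N at h1 h2 h4
    simp only [sig] at h1 h2 h3 h4 ⊢
    linarith

end Pool.Agent.P.MP_2b44f0_gt.PD
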