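import Pool.Agent.P.MP_2b44f0_gt.PD.If

/-! Step TAYL. -/

namespace Pool.Agent.P.MP_2b44f0_gt.PD

open MeasureTheory Set Filter Asymptotics
open scoped ENNReal RealInnerProductSpace Topology

namespace TAYLx

variable {G : Type} [NormedAddCommGroup G] [NormedSpace ℝ G] {a0 a1 a2 a3 a4 : ℝ → G} {C : ℝ}

/-- `b` is the derivative of `a` on the unit interval -/
def D (a b : ℝ → G) : Prop := ∀ t ∈ Icc (0 : ℝ) 1, HasDerivAt a (b t) t

/-- `a` is bounded by `C` on the unit interval -/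
def B (a : ℝ → G) (C : ℝ) : Prop := ∀ t ∈ Icc (0 : ℝ) 1, ‖a t‖ ≤ C

theorem t1 (h : D a0 a1) (b : B a1 C) : B (fun t => a0 t - a0 0) C := fun t ht =>
  (norm_image_sub_le_of_norm_deriv_le_segment' (fun s hs => (h s hs).hasDerivWithinAt)
    (fun s hs => b s (Ico_subset_Icc_self hs)) t ht).trans (by
      have := (norm_nonneg _).trans (b t ht)
      nlinarith [ht.2])

theorem t0 (h : D a0 a1) (b : B a1 C) (z : a0 0 = 0) : B a0 C := by
  simpa [z] using t1 h b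

theorem t2 (h : D a0 a1) (h1 : D a1 a2) (b : B a2 C) :
    B (fun t => a0 t - a0 0 - t • a1 0) C :=
  t0 (fun t ht => by
    simpa using ((h t ht).sub_const (a0 0)).fun_sub ((hasDerivAt_id' t).smul_const (a1 0)))
    (t1 h1 b) (by simp)

theorem t3 (h : D a0 a1) (h1 : D a1 a2) (h2 : D a2 a3) (b : B a3 C) :
    B (fun t => a0 t - a0 0 - t • a1 0 - (t ^ 2 / 2) • a2 0) C :=
  t0 (fun t ht => by
    simpa using (((h t ht).sub_const (a0 0)).fun_sub ((hasDerivAt_id' t).smul_const (a1 0))).fun_sub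
      (((hasDerivAt_pow 2 t).div_const 2).smul_const (a2 0))) (t2 h1 h2 b) (by simp)

theorem t4 (h : D a0 a1) (h1 : D a1 a2) (h2 : D a2 a3) (h3 : D a3 a4) (b : B a4 C) :
    B (fun t => a0 t - a0 0 - t • a1 0 - (t ^ 2 / 2) • a2 0 - (t ^ 3 / 6) • a3 0) C :=
  t0
    (fun t ht => by
      convert ((((h t ht).sub_const (a0 0)).fun_sub ((hasDerivAt_id' t).smul_const (a1 0))).fun_sub
        (((hasDerivAt_pow 2 t).div_const 2).smul_const (a2 0))).fun_sub
        (((hasDerivAt_pow 3 t).div_const 6).smul_const (a3 0)) using 1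
      simp only [one_smul]
      congr 2
      · simp
      · push_cast
        ring) (t3 h1 h2 h3 b) (by simp)

variable {X : Type} [NormedAddCommGroup X] [NormedSpace ℝ X]

theorem D.ap {c c' : ℝ → X →L[ℝ] G} (h : D c c') (v : X) : D (fun t => c t v) fun t => c' t v :=
  fun t ht => by simpa using (h t ht).clm_apply (hasDerivAt_const t v)

theorem B.ap {c : ℝ → X →L[ℝ] G} {K : ℝ} {n : ℕ} {v : X} (h : B c (K * ‖v‖ ^ n)) :
    B (fun t => c t v) (K * ‖v‖ ^ (n + 1)) := fun t ht =>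
  ((c t).le_of_opNorm_le (h t ht) v).trans_eq (by ring)

theorem line {f : X → G} {U : Set X} (hU : IsOpen U) (hf : ContDiffOn ℝ (⊤ : ℕ∞) f U) {x v : X}
    (h : ∀ t ∈ Icc (0 : ℝ) 1, x + t • v ∈ U) :
    D (fun t => f (x + t • v)) fun t => fderiv ℝ f (x + t • v) v := fun t ht => by
  simpa [Function.comp_def] using ((hf.contDiffAt (hU.mem_nhds (h t ht))).differentiableAt (by simp)).hasFDerivAt
    |>.comp_hasDerivAt t (((hasDerivAt_id' t).smul_const v).const_add x)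

theorem bd {f : X → G} {U S : Set X} (hf : ContDiffOn ℝ (⊤ : ℕ∞) f U) (hS : IsCompact S)
    (h : S ⊆ U) : ∀ᶠ K in atTop, ∀ y ∈ S, ‖f y‖ ≤ K := by
  obtain ⟨K, hK⟩ := hS.exists_bound_of_continuousOn (hf.continuousOn.mono h)
  exact (eventually_ge_atTop K).mono fun K' h' y hy => (hK y hy).trans h'

end TAYLx

open TAYLx in
theorem c_TAYL :
    Q_TAYL := by
  intro ι _ G _ _ _ f U A hU hA hAU h0
  obtain ⟨ρ, hρ, hS⟩ := hA.exists_cthickening_subset_open hU hAU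
  have hc : IsCompact (Metric.cthickening ρ A) := hA.cthickening
  have h1 := h0.fderiv_of_isOpen (m := (⊤ : ℕ∞)) hU (by simp)
  have h2 := h1.fderiv_of_isOpen (m := (⊤ : ℕ∞)) hU (by simp)
  have h3 := h2.fderiv_of_isOpen (m := (⊤ : ℕ∞)) hU (by simp)
  have h4 := h3.fderiv_of_isOpen (m := (⊤ : ℕ∞)) hU (by simp)
  obtain ⟨K, K0, b0, b1, b2, b3, b4⟩ := ((eventually_ge_atTop 0).and ((bd h0 hc hS).and
    ((bd h1 hc hS).and ((bd h2 hc hS).and ((bd h3 hc hS).and (bd h4 hc hS)))))).exists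
  refine ⟨ρ, 2 * K, hρ, by positivity, fun x hx => ?_⟩
  have hm : ∀ v : E ι, ‖v‖ ≤ ρ → ∀ t ∈ Icc (0 : ℝ) 1, x + t • v ∈ Metric.cthickening ρ A :=
    fun v hv t ht => Metric.mem_cthickening_of_dist_le _ x ρ A hx (by
      rw [dist_eq_norm, add_sub_cancel_left, norm_smul, Real.norm_of_nonneg ht.1]
      nlinarith [ht.2, norm_nonneg v])
  have hx' := Metric.self_subset_cthickening (δ := ρ) A hx
  have key : ∀ v : E ι, ‖v‖ ≤ ρ → ‖f (x + v) - f x‖ ≤ K * ‖v‖ ^ 1 ∧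
      ‖f (x + v) - f x - fderiv ℝ f x v‖ ≤ K * ‖v‖ ^ 2 ∧
      ‖f (x + v) - f x - fderiv ℝ f x v - (1 / 2 : ℝ) • fderiv ℝ (fderiv ℝ f) x v v‖ ≤
        K * ‖v‖ ^ 3 ∧
      ‖f (x + v) - f x - fderiv ℝ f x v - (1 / 2 : ℝ) • fderiv ℝ (fderiv ℝ f) x v v -
        (1 / 6 : ℝ) • fderiv ℝ (fderiv ℝ (fderiv ℝ f)) x v v v‖ ≤ K * ‖v‖ ^ 4 := fun v hv => by
    have m := fun t ht => hS (hm v hv t ht)
    have d0 := line hU h0 m
    have d1 := (line hU h1 m).ap v
    have d2 := ((line hU h2 m).ap v).ap v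
    have d3 := (((line hU h3 m).ap v).ap v).ap v
    have one : (1 : ℝ) ∈ Icc (0 : ℝ) 1 := ⟨zero_le_one, le_rfl⟩
    have e : K = K * ‖v‖ ^ 0 := by simp
    refine ⟨?_, ?_, ?_, ?_⟩
    · simpa using t1 d0 (B.ap fun t ht => (b1 _ (hm v hv t ht)).trans_eq e) 1 one
    · simpa using t2 d0 d1 (B.ap (B.ap fun t ht => (b2 _ (hm v hv t ht)).trans_eq e)) 1 one
    · simpa using t3 d0 d1 d2
        (B.ap (B.ap (B.ap fun t ht => (b3 _ (hm v hv t ht)).trans_eq e))) 1 one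
    · simpa using t4 d0 d1 d2 d3
        (B.ap (B.ap (B.ap (B.ap fun t ht => (b4 _ (hm v hv t ht)).trans_eq e)))) 1 one
  have up : ∀ {a c : ℝ}, 0 ≤ c → a ≤ K * c → a ≤ 2 * K * c := fun hc h => by
    nlinarith [mul_nonneg K0 hc]
  refine ⟨by linarith [b0 x hx'], by linarith [b1 x hx'], by linarith [b2 x hx'], fun v hv => ?_⟩
  obtain ⟨k1, k2, k3, k4⟩ := key v hv
  have k5 := (key (-v) (by simpa using hv)).2.2.2
  refine ⟨by simpa using hS (hm v hv 1 ⟨zero_le_one, le_rfl⟩), up (norm_nonneg v) (by simpa using k1),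
    up (by positivity) k2, up (by positivity) k3, ?_⟩
  rw [norm_neg, ← sub_eq_add_neg] at k5
  refine le_trans (le_of_eq ?_) ((norm_add_le_of_le k4 k5).trans_eq (by ring))
  congr 1
  simp only [map_neg, neg_apply, neg_neg]
  module

end Pool.Agent.P.MP_2b44f0_gt.PD
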