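import Pool.Agent.P.MP_2b44f0_gt.PD.If

/-! Step TP. -/

namespace Pool.Agent.P.MP_2b44f0_gt.PD

open MeasureTheory Set Filter Asymptotics
open scoped ENNReal RealInnerProductSpace Topology

namespace TPx

variable {ι : Type} [Fintype ι]

theorem zero_of_le {c K : ℝ} (h : ∀ᶠ t in 𝓝 (0 : ℝ), t * c ≤ K * t ^ 2) : c = 0 := by
  have h1 : Tendsto (fun t : ℝ => K * t) (𝓝 0) (𝓝 0) := by
    simpa using (continuous_const_mul K).tendsto 0
  have a1 : c ≤ 0 := by
    refine ge_of_tendsto (h1.mono_left (nhdsWithin_le_nhds (s := Ioi 0))) ?_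
    filter_upwards [h.filter_mono nhdsWithin_le_nhds, self_mem_nhdsWithin] with t ht (t0 : 0 < t)
    nlinarith
  have a2 : 0 ≤ c := by
    refine le_of_tendsto (h1.mono_left (nhdsWithin_le_nhds (s := Iio 0))) ?_
    filter_upwards [h.filter_mono nhdsWithin_le_nhds, self_mem_nhdsWithin] with t ht (t0 : t < 0)
    nlinarith
  linarith

/-- of order `k` at `x` -/
def Od {G : Type} [NormedAddCommGroup G] (l : Filter (E ι)) (x : E ι) (k : ℕ) (f : E ι → G) :
    Prop := f =O[l] fun z => ‖z - x‖ ^ k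

variable {G : Type} [NormedAddCommGroup G] {l : Filter (E ι)} {x : E ι} {k m : ℕ}

theorem Od.add {f g : E ι → G} (hf : Od l x k f) (hg : Od l x k g) :
    Od l x k fun z => f z + g z := IsBigO.add hf hg

theorem Od.sub {f g : E ι → G} (hf : Od l x k f) (hg : Od l x k g) :
    Od l x k fun z => f z - g z := IsBigO.sub hf hg

theorem Od.neg {f : E ι → G} (hf : Od l x k f) : Od l x k fun z => -f z := IsBigO.neg_left hf

theorem Od.mul {f g : E ι → ℝ} (hf : Od l x k f) (hg : Od l x m g) :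
    Od l x (k + m) fun z => f z * g z := by
  simpa only [Od, pow_add] using IsBigO.mul hf hg

theorem Od.inner {f g : E ι → E ι} (hf : Od l x k f) (hg : Od l x m g) :
    Od l x (k + m) fun z => ⟪f z, g z⟫ := by
  have := Od.mul (IsBigO.norm_left hf) (IsBigO.norm_left hg)
  refine IsBigO.trans (IsBigO.of_norm_le fun z => ?_) this
  exact norm_inner_le_norm _ _

theorem Od.smul {f : E ι → ℝ} {g : E ι → E ι} (hf : Od l x k f) (hg : Od l x m g) :
    Od l x (k + m) fun z => f z • g z := by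
  simpa only [Od, pow_add, smul_eq_mul] using IsBigO.smul hf hg

theorem Od.const (c : G) : Od l x 0 fun _ => c := by
  simpa only [Od, pow_zero] using isBigO_const_const c one_ne_zero l

theorem Od.clm (A : E ι →L[ℝ] E ι) {f : E ι → E ι} (hf : Od l x k f) :
    Od l x k fun z => A (f z) := (A.isBigO_comp f l).trans hf

theorem Od.id : Od l x 1 fun z => z - x := by
  simpa only [Od, pow_one] using (isBigO_refl (fun z => z - x) l).norm_right

theorem Od.cmul (c : ℝ) {f : E ι → ℝ} (hf : Od l x k f) : Od l x k fun z => c * f z :=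
  IsBigO.const_mul_left hf c

theorem Od.cinner (c : E ι) {f : E ι → E ι} (hf : Od l x k f) : Od l x k fun z => ⟪c, f z⟫ := by
  simpa using (Od.const c).inner hf

theorem tendsto_norm (hl : l ≤ 𝓝 x) : Tendsto (fun z => ‖z - x‖) l (𝓝 0) :=
  (tendsto_iff_norm_sub_tendsto_zero.1 tendsto_id).mono_left hl

theorem Od.down (hl : l ≤ 𝓝 x) {f : E ι → G} (hf : Od l x (k + 1) f) : Od l x k f := by
  refine IsBigO.trans hf (IsBigO.of_bound 1 ?_)
  filter_upwards [(tendsto_norm hl).eventually (gt_mem_nhds one_pos)] with z hz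
  rw [Real.norm_of_nonneg (by positivity), Real.norm_of_nonneg (by positivity), pow_succ, one_mul]
  exact mul_le_of_le_one_right (by positivity) hz.le

theorem Od.tendsto (hl : l ≤ 𝓝 x) {f : E ι → G} (hf : Od l x 1 f) : Tendsto f l (𝓝 0) :=
  IsBigO.trans_tendsto hf (by simpa using tendsto_norm hl)

theorem Od.small (hl : l ≤ 𝓝 x) {f : E ι → ℝ} (hf : Od l x 3 f) {η : ℝ} (hη : 0 < η) :
    ∀ᶠ z in l, |f z| ≤ η * ‖z - x‖ ^ 2 := by
  obtain ⟨K, hK, h⟩ := IsBigO.exists_pos hf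
  filter_upwards [h.bound, (tendsto_norm hl).eventually (gt_mem_nhds (div_pos hη hK))] with z h1 h2
  rw [Real.norm_eq_abs, Real.norm_of_nonneg (by positivity)] at h1
  rw [lt_div_iff₀ hK] at h2
  have : 0 ≤ ‖z - x‖ ^ 2 := by positivity
  nlinarith

/-- the quotient rule to second order -/
theorem quot (hl : l ≤ 𝓝 x) {D : ℝ} (hD : 0 < D) {A W₂ L W N : E ι → ℝ} (hA : Od l x 1 A)
    (hL : Od l x 1 L) (hW₂ : Od l x 2 W₂) (hW : Od l x 3 fun z => W z - (D * A z + W₂ z))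
    (hN : Od l x 2 fun z => N z - (D - L z)) :
    (∀ᶠ z in l, 0 < N z) ∧ Od l x 3 fun z => W z / N z - (A z + (W₂ z + A z * L z) / D) := by
  have hT : Tendsto N l (𝓝 D) := by
    have := (((hN.down hl).sub hL).tendsto hl).add_const D
    rw [zero_add] at this
    exact this.congr fun z => by ring
  have hpos : ∀ᶠ z in l, 0 < N z := hT.eventually (lt_mem_nhds hD)
  refine ⟨hpos, ?_⟩
  have hI : Od l x 0 fun z => (N z)⁻¹ := by
    simpa only [Od, pow_zero] using (hT.inv₀ hD.ne').isBigO_one ℝ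
  have hQ : Od l x 2 fun z => D⁻¹ * (W₂ z + A z * L z) := (hW₂.add (hA.mul hL)).cmul _
  have := hI.mul (((hW.add (hL.mul hQ)).sub (hN.mul hA)).sub ((hN.mul hQ).down hl))
  refine IsBigO.congr' this ?_ EventuallyEq.rfl
  filter_upwards [hpos] with z hz
  field_simp
  ring

end TPx

open TPx in
theorem c_TP (hFRAME : Q_FRAME) (hREFL : Q_REFL) (hGEO : Q_GEO) (hEXI : Q_EXI) (hNJET : Q_NJET)
    (hMAX : Q_MAX) : Q_TP := by
  intro ι _ n C U F h ε hε x hx y hy hs1 hs2 e μ he hμ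
  obtain ⟨ρ, K, hρ, hK, hE⟩ := hEXI ι n C U F h
  obtain ⟨K₁, hK₁, hG⟩ := hGEO ι n C U F h
  obtain ⟨M₀, hM₀, hN⟩ := hNJET ι n C U F h x hx y
  have hyl := hy.1
  have hxU := h.lk_sub hx
  have hyU := h.lk_sub hyl
  have hD := lk_D_pos hx hyl hy.2.1
  have hkap := (hMAX ι n C U F h ε hε x hx).2.1 y hy
  have hmx := hy.2.2
  have hp : ∀ v, (1 - ⟪x, y⟫) * ⟪pv F ε x y, v⟫ = qv F ε x y * ⟪prT F x y, v⟫ +
      ⟪y, shape F x v⟫ := fun v => by
    rw [pv, h.shape_prT hx, real_inner_smul_left, inner_add_left, real_inner_smul_left,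
      h.symm hxU, mul_inv_cancel_left₀ hD.ne']
  have hνy : ⟪normal F x, y⟫ = qv F ε x y * (1 - ⟪x, y⟫) + ε := by
    rw [qv, div_mul_cancel₀ _ hD.ne']; ring
  generalize qv F ε x y = φ at *
  generalize pv F ε x y = p at *
  obtain ⟨w₀, hw₀⟩ : ∃ w₀, w₀ = φ • x + normal F x := ⟨_, rfl⟩
  have hw : ∀ v, ⟪w₀, v⟫ = φ * ⟪x, v⟫ + ⟪normal F x, v⟫ := fun v => by
    rw [hw₀, inner_add_left, real_inner_smul_left]
  have hb : ⟪w₀, y⟫ = φ + ε := by rw [hw, hνy]; ring
  have foc : ∀ ξ, ⟪y, ξ⟫ = 0 → ⟪normal F y, ξ⟫ = 0 → ⟪w₀, ξ⟫ = 0 := by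
    intro ξ h1 h2
    refine zero_of_le (K := |φ + ε| * ‖ξ‖ ^ 2 / 2 + |⟪shape F y ξ, ξ⟫ * ⟪w₀, normal F y⟫| / 2 +
      ‖w₀‖ * K * ‖ξ‖ ^ 2 * ρ) ?_
    have : Tendsto (fun t : ℝ => ‖t • ξ‖) (𝓝 0) (𝓝 0) := by
      simpa using (continuous_id.smul (continuous_const (y := ξ))).norm.tendsto (0 : ℝ)
    filter_upwards [this.eventually (gt_mem_nhds hρ)] with t ht
    obtain ⟨z, hz, hr⟩ := hE y hyl (t • ξ) (Tan.smul ⟨h1, h2⟩ t) ht.le
    have e1 := hmx z hz
    have e2 := (abs_real_inner_le_norm w₀ _).trans (mul_le_mul_of_nonneg_left hr (norm_nonneg _))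
    have e3 : ‖t • ξ‖ ^ 2 = t ^ 2 * ‖ξ‖ ^ 2 := by rw [norm_smul, mul_pow, Real.norm_eq_abs, sq_abs]
    have e4 : ‖w₀‖ * (K * ‖t • ξ‖ ^ 3) ≤ ‖w₀‖ * K * ‖ξ‖ ^ 2 * ρ * t ^ 2 := by
      have : ‖t • ξ‖ ^ 3 ≤ t ^ 2 * ‖ξ‖ ^ 2 * ρ := by
        rw [pow_succ, e3]; gcongr
      calc _ ≤ ‖w₀‖ * (K * (t ^ 2 * ‖ξ‖ ^ 2 * ρ)) := by gcongr
        _ = _ := by ring
    rw [e3] at e2
    simp only [inner_sub_right, inner_add_right, real_inner_smul_right, map_smul,
      real_inner_smul_left, hb] at e2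
    have e5 := (abs_le.1 (e2.trans e4)).1
    have e6 := hw z
    have e7 := mul_le_mul_of_nonneg_left (le_abs_self (φ + ε))
      (show 0 ≤ t ^ 2 * ‖ξ‖ ^ 2 by positivity)
    have e8 := mul_le_mul_of_nonneg_left (le_abs_self (⟪shape F y ξ, ξ⟫ * ⟪w₀, normal F y⟫))
      (show 0 ≤ t ^ 2 by positivity)
    nlinarith
  obtain ⟨R, c, d, hR, hcd, hR'⟩ := hREFL ι x (normal F x) y (normal F y) φ ε (lk_norm hx)
    (h.norm_normal hxU) (h.normal_self hx.1 (lk_ne hx)) (lk_norm hyl) (h.norm_normal hyU)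
    (h.normal_self hyl.1 (lk_ne hyl)) hε hνy hs1 hs2 (hw₀ ▸ foc)
  obtain ⟨τ, hτ, hτ'⟩ : ∃ τ : Fin n → ℝ, (∀ i, τ i * τ i = 1) ∧
      ∀ i, τ i * (φ + μ i) = |φ + μ i| := by
    refine ⟨fun i => if 0 ≤ φ + μ i then 1 else -1, fun i => by
      beta_reduce; split_ifs <;> norm_num, fun i => ?_⟩
    beta_reduce
    split_ifs with h0
    · rw [one_mul, abs_of_nonneg h0]
    · rw [neg_one_mul, abs_of_neg (not_le.1 h0)]
  have hv : Frame n y (normal F y) fun i => τ i • R (e i) := by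
    refine ⟨fun i j => ?_, fun i => ?_, fun i => ?_⟩
    · rw [real_inner_smul_left, real_inner_smul_right, hR, he.on]
      split_ifs with hij
      · rw [hij, mul_one, hτ]
      · simp
    · rw [real_inner_smul_right, (hR' _ (he.px i) (he.pn i)).1, mul_zero]
    · rw [real_inner_smul_right, (hR' _ (he.px i) (he.pn i)).2.1, mul_zero]
  obtain ⟨L, hL, hLt⟩ : ∃ L : E ι →L[ℝ] E ι, (∀ i, L (e i) = τ i • R (e i)) ∧
      ∀ v, Tan F y (L v) := by
    refine ⟨∑ i, (innerSL ℝ (e i)).smulRight (τ i • R (e i)), fun i => ?_, fun v => ⟨?_, ?_⟩⟩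
    · simp [he.on]
    · simp [inner_sum, real_inner_smul_right, -map_smul, hv.px]
    · simp [inner_sum, real_inner_smul_right, -map_smul, hv.pn]
  obtain ⟨β, hβ⟩ : ∃ β, β = ⟪w₀, normal F y⟫ := ⟨_, rfl⟩
  obtain ⟨W₂, hW₂⟩ : ∃ W₂ : E ι → ℝ, W₂ = fun v => 2⁻¹ * ⟪M₀ v, v⟫ -
      φ * ⟪x, y⟫ / 2 * ⟪v, v⟫ - φ * ⟪normal F x, y⟫ / 2 * ⟪shape F x v, v⟫ -
      (φ + ε) / 2 * ⟪L v, L v⟫ - β / 2 * ⟪shape F y (L v), L v⟫ + ⟪shape F x v, L v⟫ +
      φ * ⟪v, L v⟫ := ⟨_, rfl⟩
  obtain ⟨M, hM⟩ : ∃ M : E ι →L[ℝ] E ι, ∀ v, ⟪M v, v⟫ / 2 =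
      (W₂ v + ⟪p, v⟫ * (⟪y, v⟫ + ⟪x, L v⟫)) / (1 - ⟪x, y⟫) := by
    refine ⟨(2 / (1 - ⟪x, y⟫)) • ((2⁻¹ : ℝ) • M₀ - (φ * ⟪x, y⟫ / 2) • 1 -
      (φ * ⟪normal F x, y⟫ / 2) • shape F x - ((φ + ε) / 2) • (L.adjoint * L) -
      (β / 2) • (L.adjoint * (shape F y * L)) + L.adjoint * shape F x + φ • L.adjoint +
      (innerSL ℝ p).smulRight (y + L.adjoint x)), fun v => ?_⟩
    simp only [hW₂, smul_apply, add_apply, sub_apply, mul_apply_eq_comp, one_apply_eq_self,
      ContinuousLinearMap.smulRight_apply, innerSL_apply_apply, real_inner_smul_left,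
      inner_add_left, inner_sub_left, ContinuousLinearMap.adjoint_inner_left]
    ring
  refine ⟨M, fun η hη => ?_, ?_⟩
  · have hl : 𝓝[lk C] x ≤ 𝓝 x := nhdsWithin_le_nhds
    choose! Y hY hY' using hE y hyl
    have o1 : Od (𝓝[lk C] x) x 1 fun z => z - x := Od.id
    have oξ := o1.clm L
    have oS := o1.clm (shape F x)
    have hsm : ∀ᶠ z in 𝓝[lk C] x, ‖L (z - x)‖ ≤ ρ :=
      ((oξ.tendsto hl).norm.eventually (gt_mem_nhds (by simpa using hρ))).mono fun z hz => hz.le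
    have r1 : Od (𝓝[lk C] x) x 3 fun z => Y (L (z - x)) - (y + L (z - x) -
        (‖L (z - x)‖ ^ 2 / 2) • y - (⟪shape F y (L (z - x)), L (z - x)⟫ / 2) • normal F y) := by
      refine IsBigO.trans (IsBigO.of_bound K ?_) (IsBigO.pow (IsBigO.norm_left oξ) 3 |>.congr_right
        fun z => by rw [pow_one])
      filter_upwards [hsm] with z hz
      rw [Real.norm_of_nonneg (by positivity)]
      exact hY' _ (hLt _) hz
    have y3 : Od (𝓝[lk C] x) x 2 fun z => Y (L (z - x)) - y - L (z - x) := by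
      have := ((r1.down hl).sub (((oξ.inner oξ).cmul 2⁻¹).smul (Od.const y))).sub
        ((((oξ.clm (shape F y)).inner oξ).cmul 2⁻¹).smul (Od.const (normal F y)))
      refine IsBigO.congr_left this fun z => ?_
      rw [real_inner_self_eq_norm_sq]
      module
    have r2 : Od (𝓝[lk C] x) x 2 fun z => normal F z - normal F x - shape F x (z - x) := by
      refine IsBigO.of_bound K₁ ?_
      filter_upwards [self_mem_nhdsWithin] with z hz
      rw [Real.norm_of_nonneg (by positivity)]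
      exact ((hG x hx).2.2 z hz).2.1
    have r4 : Od (𝓝[lk C] x) x 3 fun z =>
        ⟪normal F x, z⟫ + ⟪shape F x (z - x), z - x⟫ / 2 := by
      refine IsBigO.of_bound K₁ ?_
      filter_upwards [self_mem_nhdsWithin] with z hz
      rw [Real.norm_of_nonneg (r := _ ^ 3) (by positivity)]
      exact ((hG x hx).2.2 z hz).2.2.2
    have r3 : Od (𝓝[lk C] x) x 3 _ := hN
    obtain ⟨hpos, hq⟩ := quot (W := fun z => ⟪normal F z, Y (L (z - x))⟫ - ε -
        φ * (1 - ⟪z, Y (L (z - x))⟫)) (N := fun z => 1 - ⟪z, Y (L (z - x))⟫)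
      (W₂ := fun z => W₂ (z - x)) hl hD (o1.cinner p) ((o1.cinner y).add (oξ.cinner x))
      (by
        rw [hW₂]
        exact ((((((((o1.clm M₀).inner o1).cmul _).sub ((o1.inner o1).cmul _)).sub
          ((oS.inner o1).cmul _)).sub ((oξ.inner oξ).cmul _)).sub
          (((oξ.clm _).inner oξ).cmul _)).add (oS.inner oξ)).add ((o1.inner oξ).cmul _))
      (by
        have := ((((r3.add (r1.cinner w₀)).add (oS.inner y3)).add
          (r2.inner (oξ.add (y3.down hl)))).add ((o1.inner y3).cmul φ)).add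
          (r4.cmul (φ * ⟪normal F x, y⟫))
        refine IsBigO.congr' this ?_ EventuallyEq.rfl
        filter_upwards [self_mem_nhdsWithin] with z hz
        have f1 := foc _ (hLt (z - x)).1 (hLt (z - x)).2
        have f2 : ⟪z - x, z - x⟫ = -2 * ⟪x, z - x⟫ := by
          rw [real_inner_self_eq_norm_sq, lk_dist hx hz, inner_sub_right, lk_inner hx]; ring
        have f3 : ⟪normal F x, z⟫ = ⟪normal F x, z - x⟫ := by
          rw [inner_sub_right, h.normal_self hx.1 (lk_ne hx), sub_zero]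
        have f4 : ⟪z, Y (L (z - x))⟫ = ⟪x, Y (L (z - x))⟫ + ⟪z - x, Y (L (z - x))⟫ := by
          rw [inner_sub_left]; ring
        rw [hp, hW₂, f3, f4, ← real_inner_self_eq_norm_sq]
        beta_reduce
        rw [f2, hβ]
        rw [hw] at f1
        generalize z - x = v at *
        generalize L v = ξ at *
        generalize Y ξ = Z at *
        generalize shape F x v = s at *
        simp only [prT, inner_sub_left, inner_sub_right, inner_add_right, real_inner_smul_left,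
          real_inner_smul_right, hw, real_inner_comm y s, real_inner_comm y v, hνy]
        linear_combination (-1) * f1)
      (by
        have := ((y3.cinner x).add (o1.inner (oξ.add (y3.down hl)))).neg
        refine IsBigO.congr_left this fun z => ?_
        generalize L (z - x) = ξ
        simp only [inner_sub_left, inner_sub_right, inner_add_right, real_inner_comm y z,
          real_inner_comm y x]
        ring)
    filter_upwards [hpos, hq.small hl hη, hsm, self_mem_nhdsWithin] with z h1 h2 h3 hz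
    have h4 := hY _ (hLt _) h3
    have h5 := (hMAX ι n C U F h ε hε z hz).2.2 _ h4 fun h0 => by
      rw [h0, lk_inner hz] at h1; simp at h1
    rw [sub_div, mul_div_cancel_right₀ _ h1.ne'] at h2
    rw [hM, hkap]
    have := (abs_le.1 h2).1
    unfold qv at h5
    linarith
  · obtain ⟨fx, -⟩ := hFRAME ι n x (normal F x) h.card (lk_norm hx) (h.norm_normal hxU)
      (h.normal_self hx.1 (lk_ne hx))
    obtain ⟨fy, -⟩ := hFRAME ι n y (normal F y) h.card (lk_norm hyl) (h.norm_normal hyU)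
      (h.normal_self hyl.1 (lk_ne hyl))
    obtain ⟨hexp, htr⟩ := fx e he
    have s0 : ∑ i, ⟪M₀ (e i), e i⟫ = -(sqCurv F x * ⟪normal F x, y⟫) := (htr M₀).symm.trans hM₀
    have e1 : ∀ i, ⟪e i, e i⟫ = 1 := fun i => by rw [he.on, if_pos rfl]
    have s1 : ∑ i, μ i = 0 := by
      have := htr (shape F x)
      simp only [h.tr_shape hx.1 (lk_ne hx), h.shape_self hx.1 (lk_ne hx), h.shape_normal hxU,
        inner_zero_left, sub_zero, hμ, real_inner_smul_left, e1, mul_one] at this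
      exact this.symm
    have s2 : ∑ i, ⟪shape F y (L (e i)), L (e i)⟫ = 0 := by
      have := (fy _ hv).2 (shape F y)
      simp only [h.tr_shape hyl.1 (lk_ne hyl), h.shape_self hyl.1 (lk_ne hyl), h.shape_normal hyU,
        inner_zero_left, sub_zero, ← hL] at this
      exact this.symm
    have s3 : ∑ i, ⟪e i, y⟫ ^ 2 = 1 - ⟪x, y⟫ ^ 2 - ⟪normal F x, y⟫ ^ 2 := by
      have := congrArg (fun v => ⟪v, y⟫) (hexp y)
      simp only [inner_add_left, real_inner_smul_left, sum_inner, lk_inner hyl, ← sq] at this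
      linarith
    have key : ∀ i, (-(φ * ⟪x, y⟫) - (φ + ε) + 2 * φ + ⟪M₀ (e i), e i⟫ +
        (2 - φ * ⟪normal F x, y⟫) * μ i - β * ⟪shape F y (L (e i)), L (e i)⟫) / (1 - ⟪x, y⟫) +
        (2 / (1 - ⟪x, y⟫) * (|φ + μ i| - (φ + μ i)) +
          2 * (φ + μ i) * (⟪e i, y⟫ / (1 - ⟪x, y⟫)) ^ 2 -
          4 * ε ^ 2 / (1 - ⟪x, y⟫) ^ 2 * |φ + μ i|) ≤ ⟪M (e i), e i⟫ := fun i => by
      obtain ⟨-, -, g1, g2⟩ := hR' _ (he.px i) (he.pn i)
      have g3 : (c * (1 - ⟪x, y⟫) - d) * ⟪e i, y⟫ ^ 2 ≤ 2 * ε ^ 2 := by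
        have : ⟪e i, y⟫ ^ 2 ≤ _ := s3 ▸ Finset.single_le_sum (f := fun i => ⟪e i, y⟫ ^ 2)
          (fun i _ => sq_nonneg _) (Finset.mem_univ i)
        rcases le_total (c * (1 - ⟪x, y⟫) - d) 0 with h0 | h0
        · nlinarith [sq_nonneg ⟪e i, y⟫, sq_nonneg ε]
        · exact (mul_le_mul_of_nonneg_left this h0).trans hcd
      have g4 : ⟪p, e i⟫ = (φ + μ i) * ⟪e i, y⟫ / (1 - ⟪x, y⟫) := by
        rw [eq_div_iff hD.ne', mul_comm, hp, hμ, real_inner_smul_right, real_inner_comm (e i),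
          Tan.inner_prT ⟨he.px i, he.pn i⟩, real_inner_comm (e i) y]
        ring
      have g5 : ⟪L (e i), L (e i)⟫ = 1 := by rw [hL]; simpa using hv.on i i
      have g6 : ⟪e i, L (e i)⟫ = τ i * (1 - c * ⟪e i, y⟫ ^ 2) := by
        rw [hL, real_inner_smul_right, g1, ← real_inner_self_eq_norm_sq, e1]
      have g7 : ⟪x, L (e i)⟫ = τ i * (d * ⟪e i, y⟫) := by rw [hL, real_inner_smul_right, g2]
      have g8 := hM (e i)
      simp only [hW₂, hμ, real_inner_smul_left, e1, g4, g5, g6, g7, real_inner_comm (e i) y] at g8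
      have g9 := mul_le_mul_of_nonneg_left g3 (abs_nonneg (φ + μ i))
      rw [← hτ'] at g9 ⊢
      rw [(div_eq_iff two_ne_zero).1 g8, ← sub_nonneg]
      generalize 1 - ⟪x, y⟫ = D at *
      have g10 := mul_nonneg (sub_nonneg.2 g9) (show 0 ≤ 2 / D ^ 2 by positivity)
      refine g10.trans_eq ?_
      field_simp
      ring
    have := Finset.sum_le_sum fun i (_ : i ∈ Finset.univ) => key i
    rw [Finset.sum_add_distrib, ← Finset.sum_div, ← htr] at this
    simp only [Finset.sum_add_distrib, Finset.sum_sub_distrib, ← Finset.mul_sum, s0, s1, s2,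
      Finset.sum_const, Finset.card_univ, Fintype.card_fin, nsmul_eq_mul] at this ⊢
    refine le_trans (le_of_eq ?_) this
    rw [hνy]
    field_simp
    ring

end Pool.Agent.P.MP_2b44f0_gt.PD
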