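import Pool.Agent.P.MP_2b44f0_gt.PD.If

/-! Step TUBE. -/

namespace Pool.Agent.P.MP_2b44f0_gt.PD

open MeasureTheory Set Filter Asymptotics
open scoped ENNReal RealInnerProductSpace Topology

namespace TUBEx

theorem le_of_eps {K X : ℝ≥0∞} (h : ∀ ε : ℝ≥0∞, 0 < ε → K ≤ (1 + ε) * X) : K ≤ X := by
  refine ENNReal.le_of_forall_pos_le_add fun δ hδ hX => (h (δ / X)
    (ENNReal.div_pos (by exact_mod_cast hδ.ne') hX.ne)).trans ?_
  rw [add_mul, one_mul, mul_comm]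
  exact add_le_add_right ENNReal.mul_div_le _

/-- a countable partition of the extended half line into almost constant pieces -/
theorem levels (ε : ℝ≥0∞) (hε : 0 < ε) : ∃ (lo : ℕ → ℝ≥0∞) (T : ℕ → Set ℝ≥0∞),
    (∀ n, MeasurableSet (T n)) ∧ Pairwise (Function.onFun Disjoint T) ∧
    (∀ t, ∃ n, t ∈ T n) ∧ ∀ n, ∀ t ∈ T n, lo n ≤ t ∧ t ≤ (1 + ε) * lo n := by
  set a : ℝ≥0∞ := 1 + min ε 1 with ha
  have ha1 : 1 < a := ENNReal.lt_add_right ENNReal.one_ne_top (lt_min hε one_pos).ne'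
  have ha2 : a ≠ ⊤ := ENNReal.add_ne_top.2
    ⟨ENNReal.one_ne_top, ne_top_of_le_ne_top ENNReal.one_ne_top (min_le_right _ _)⟩
  have ha3 : a ≤ 1 + ε := add_le_add_right (min_le_left _ _) _
  have hc : (insert 0 (insert ⊤ (range fun k : ℤ => a ^ k))).Countable :=
    ((countable_range _).insert _).insert _
  obtain ⟨lo, hlo⟩ := hc.exists_eq_range (insert_nonempty _ _)
  have hcov : ∀ t : ℝ≥0∞, ∃ n, t ∈ Icc (lo n) ((1 + ε) * lo n) := by
    intro t
    by_cases h0 : t = 0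
    · obtain ⟨n, hn⟩ : (0 : ℝ≥0∞) ∈ range lo := hlo ▸ mem_insert _ _
      exact ⟨n, by simp [hn, h0]⟩
    by_cases h1 : t = ⊤
    · obtain ⟨n, hn⟩ : (⊤ : ℝ≥0∞) ∈ range lo := hlo ▸ mem_insert_of_mem _ (mem_insert _ _)
      refine ⟨n, ?_⟩
      rw [hn, h1, ENNReal.mul_top (by simp)]
      exact ⟨le_rfl, le_rfl⟩
    obtain ⟨k, hk⟩ := ENNReal.exists_mem_Ico_zpow h0 h1 ha1 ha2
    obtain ⟨n, hn⟩ : a ^ k ∈ range lo :=
      hlo ▸ mem_insert_of_mem _ (mem_insert_of_mem _ ⟨k, rfl⟩)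
    refine ⟨n, hn ▸ hk.1, hk.2.le.trans ?_⟩
    rw [hn, ENNReal.zpow_add (zero_lt_one.trans ha1).ne' ha2, zpow_one, mul_comm]
    gcongr
  refine ⟨lo, disjointed fun n => Icc (lo n) ((1 + ε) * lo n),
    MeasurableSet.disjointed fun n => measurableSet_Icc, disjoint_disjointed _, fun t => ?_,
    fun n t ht => disjointed_subset (fun n => Icc (lo n) ((1 + ε) * lo n)) n ht⟩
  rw [← mem_iUnion, iUnion_disjointed, mem_iUnion]
  exact hcov t

variable {ι : Type} [Fintype ι]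

theorem measurable_lineInt (F : E ι → ℝ) {Q : Set (E ι × E ι)} {ω : E ι → ℝ≥0∞}
    (hQ : MeasurableSet Q) (hω : Measurable ω) : Measurable (lineInt F Q ω) := by
  have hg : Measurable fun p : E ι × ℝ => p.1 + p.2 • normal F p.1 :=
    measurable_fst.add (measurable_snd.smul ((Tube.measurable_normal F).comp measurable_fst))
  have hZ : MeasurableSet {p : E ι × ℝ | (p.1, p.1 + p.2 • normal F p.1) ∈ Q} :=
    (measurable_fst.prodMk hg) hQ
  have hf : Measurable fun p : E ι × ℝ =>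
      ω (p.1 + p.2 • normal F p.1) * ENNReal.ofReal |(1 + p.2 • shape F p.1).det| :=
    (hω.comp hg).mul (ContinuousLinearMap.continuous_det.measurable.comp
      ((measurable_snd.smul ((Tube.measurable_shape F).comp measurable_fst)).const_add
        1)).abs.ennreal_ofReal
  have h := (hf.indicator hZ).lintegral_prod_right' (ν := volume)
  convert h using 2 with x
  have hD : MeasurableSet {s : ℝ | (x, x + s • normal F x) ∈ Q} := measurable_prodMk_left hZ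
  rw [lineInt, ← lintegral_indicator hD]
  rfl

/-- a countable partition on whose pieces the local estimates hold and the line integral is almost
constant -/
theorem pieces {d : ℕ} {C U W : Set (E ι)} {F : E ι → ℝ} (hcard : Fintype.card ι = d + 1)
    (hch : IsChart C U F) (hW : MeasurableSet W) (hWU : W ⊆ U) (hne : (C ∩ W).Nonempty)
    {Q : Set (E ι × E ι)} {ω : E ι → ℝ≥0∞} (hQ : MeasurableSet Q) (hω : Measurable ω)
    (ε δ : ℝ≥0∞) (hε : 0 < ε) (hδ : 0 < δ) :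
    ∃ (P : ℕ × ℕ → Set (E ι)) (lo : ℕ × ℕ → ℝ≥0∞), (∀ j, MeasurableSet (P j)) ∧
      Pairwise (Function.onFun Disjoint P) ∧ C ∩ W = ⋃ j, C ∩ P j ∧
      (∀ j, ∀ x ∈ P j, lo j ≤ lineInt F Q ω x ∧ lineInt F Q ω x ≤ (1 + δ) * lo j) ∧
      ∀ j (K : ℝ≥0∞), ((∀ x ∈ C ∩ P j, lineInt F Q ω x ≤ K) →
        ∫⁻ y in Reach C (P j) F Q, ω y ≤ (1 + ε) * (K * μHE[d] (C ∩ P j))) ∧
      ((∀ x ∈ C ∩ P j, ∀ x' ∈ C ∩ P j, ∀ y, (x, y) ∈ Q → (x', y) ∈ Q →
        (∃ s : ℝ, y = x + s • normal F x) → (∃ s : ℝ, y = x' + s • normal F x') → x = x') →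
      (∀ x ∈ C ∩ P j, K ≤ lineInt F Q ω x) → MeasurableSet (Reach C (P j) F Q) ∧
      K * μHE[d] (C ∩ P j) ≤ (1 + ε) * ∫⁻ y in Reach C (P j) F Q, ω y) := by
  have h1 := fun x (hx : x ∈ C ∩ W) =>
    all_tube all_shape ι d C U F hcard hch x ⟨hWU hx.2, hx.1⟩ ε hε
  choose! V hVo hxV hVU hest using h1
  obtain ⟨xs, A, hA, hdis, hcov⟩ := all_cover ι (C ∩ W) V hne fun x hx => ⟨hVo x hx, hxV x hx⟩
  obtain ⟨lo, T, hT, hTd, hTc, hTl⟩ := levels δ hδ
  have hm : ∀ j : ℕ × ℕ, MeasurableSet (W ∩ (A j.1 ∩ lineInt F Q ω ⁻¹' T j.2)) := fun j =>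
    hW.inter ((hA j.1).2.1.inter (measurable_lineInt F hQ hω (hT j.2)))
  refine ⟨fun j => W ∩ (A j.1 ∩ lineInt F Q ω ⁻¹' T j.2), fun j => lo j.2, hm, ?_, ?_,
    fun j x hx => hTl j.2 _ hx.2.2, fun j K => hest _ (hA j.1).1 _ Q ω K (hm j)
      (fun x hx => (hA j.1).2.2 hx.2.1) hQ hω⟩
  · rintro ⟨i, n⟩ ⟨i', n'⟩ h
    refine disjoint_left.2 fun x hx hx' => h (Prod.ext ?_ ?_)
    · by_contra h'
      exact disjoint_left.1 (hdis h') hx.2.1 hx'.2.1
    · by_contra h'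
      exact disjoint_left.1 (hTd h') hx.2.2 hx'.2.2
  · refine Subset.antisymm (fun x hx => ?_) (iUnion_subset fun j x hx => ⟨hx.1, hx.2.1⟩)
    obtain ⟨i, hi⟩ := mem_iUnion.1 (hcov hx)
    obtain ⟨n, hn⟩ := hTc (lineInt F Q ω x)
    exact mem_iUnion.2 ⟨(i, n), hx.1, hx.2, hi, hn⟩

theorem reach_eq {C W : Set (E ι)} {P : ℕ × ℕ → Set (E ι)} (h : C ∩ W = ⋃ j, C ∩ P j)
    (F : E ι → ℝ) (Q : Set (E ι × E ι)) : Reach C W F Q = ⋃ j, Reach C (P j) F Q := by
  ext y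
  simp only [Reach, h, mem_iUnion, mem_ofPred_eq]
  exact ⟨fun ⟨x, ⟨j, hj⟩, hx⟩ => ⟨j, x, hj, hx⟩, fun ⟨j, x, hj, hx⟩ => ⟨x, ⟨j, hj⟩, hx⟩⟩

end TUBEx

open TUBEx in
theorem c_TUBE :
    Q_TUBE := by
  intro ι _ d C U F hcard hch hC W Q ω hW hWU hQ hω
  refine ⟨measurable_lineInt F hQ hω, ?_⟩
  rcases (C ∩ W).eq_empty_or_nonempty with he | hne
  · have h : Reach C W F Q = ∅ := by simp [Reach, he]
    simp [h, he]
  refine ⟨le_of_eps fun δ hδ => le_of_eps fun ε hε => ?_,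
    fun hinj => le_of_eps fun ε hε => le_of_eps fun δ hδ => ?_⟩
  · obtain ⟨P, lo, hP, hdis, hU, hlo, hest⟩ := pieces hcard hch hW hWU hne hQ hω ε δ hε hδ
    have hm : ∀ j, MeasurableSet (C ∩ P j) := fun j => hC.measurableSet.inter (hP j)
    rw [reach_eq hU, hU, lintegral_iUnion hm
      (fun i k h => (hdis h).mono inter_subset_right inter_subset_right),
      ← ENNReal.tsum_mul_left, ← ENNReal.tsum_mul_left]
    refine (lintegral_iUnion_le _ _).trans (ENNReal.tsum_le_tsum fun j =>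
      ((hest j _).1 fun x hx => (hlo j x hx.2).2).trans ?_)
    rw [mul_assoc, ← setLIntegral_const]
    exact mul_le_mul_right (mul_le_mul_right
      (setLIntegral_mono' (hm j) fun x hx => (hlo j x hx.2).1) _) _
  · obtain ⟨P, lo, hP, hdis, hU, hlo, hest⟩ := pieces hcard hch hW hWU hne hQ hω ε δ hε hδ
    have hm : ∀ j, MeasurableSet (C ∩ P j) := fun j => hC.measurableSet.inter (hP j)
    have hsub : ∀ j, C ∩ P j ⊆ C ∩ W := fun j => hU ▸ subset_iUnion (fun j => C ∩ P j) j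
    have h2 := fun j => (hest j (lo j)).2
      (fun x hx x' hx' => hinj x (hsub j hx) x' (hsub j hx')) fun x hx => (hlo j x hx.2).1
    have hd : Pairwise (Function.onFun Disjoint fun j => Reach C (P j) F Q) := by
      intro i k h
      refine disjoint_left.2 ?_
      rintro y ⟨x, hx, s, hs, hq⟩ ⟨x', hx', s', hs', hq'⟩
      obtain rfl := hinj x (hsub i hx) x' (hsub k hx') y hq hq' ⟨s, hs⟩ ⟨s', hs'⟩
      exact disjoint_left.1 (hdis h) hx.2 hx'.2
    rw [reach_eq hU, hU, lintegral_iUnion hm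
      (fun i k h => (hdis h).mono inter_subset_right inter_subset_right),
      lintegral_iUnion (fun j => (h2 j).1) hd, ← ENNReal.tsum_mul_left, ← ENNReal.tsum_mul_left]
    refine ENNReal.tsum_le_tsum fun j =>
      (setLIntegral_mono' (hm j) fun x hx => (hlo j x hx.2).2).trans ?_
    rw [setLIntegral_const, mul_assoc]
    exact mul_le_mul_right (h2 j).2 _

end Pool.Agent.P.MP_2b44f0_gt.PD
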