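import Pool.Agent.P.MP_2b44f0_gt.PD.If

/-! Step WEAK. -/

namespace Pool.Agent.P.MP_2b44f0_gt.PD

open MeasureTheory Set Filter Asymptotics
open scoped ENNReal RealInnerProductSpace Topology

namespace WEAKx

theorem cont_of {X : Type} [TopologicalSpace X] {U A : Set X} (hU : IsOpen U) (hA : IsClosed A)
    (hAU : A ⊆ U) {f : X → ℝ} (hf : ContinuousOn f U) (h0 : ∀ y ∉ A, f y = 0) : Continuous f := by
  refine continuous_iff_continuousAt.2 fun y => ?_
  by_cases hy : y ∈ U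
  · exact hf.continuousAt (hU.mem_nhds hy)
  · refine (continuousAt_const (y := (0 : ℝ))).congr ?_
    filter_upwards [hA.isOpen_compl.mem_nhds fun h => hy (hAU h)] with z hz using (h0 z hz).symm

theorem supp_of {X : Type} [TopologicalSpace X] [T2Space X] {A : Set X} (hA : IsCompact A)
    {f : X → ℝ} (h0 : ∀ y ∉ A, f y = 0) : HasCompactSupport f :=
  HasCompactSupport.intro hA h0

theorem scale (f : ℝ → ℝ≥0∞) {τ : ℝ} (hτ : 0 < τ) :
    ∫⁻ s, f s = ∫⁻ σ, ENNReal.ofReal τ * f (τ * σ) := by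
  have h := lintegral_map_equiv (μ := volume) f
    (Homeomorph.mulLeft₀ τ hτ.ne').toMeasurableEquiv
  have e : ((Homeomorph.mulLeft₀ τ hτ.ne').toMeasurableEquiv : ℝ → ℝ) = fun x => τ * x := rfl
  rw [e, Real.map_volume_mul_left hτ.ne', lintegral_smul_measure] at h
  rw [lintegral_const_mul' _ _ ENNReal.ofReal_ne_top, ← h, smul_eq_mul, ← mul_assoc,
    ← ENNReal.ofReal_mul hτ.le, abs_of_pos (inv_pos.2 hτ), mul_inv_cancel₀ hτ.ne']
  simp

theorem line {ψ φ H : ℝ → ℝ} {a c δ M B : ℝ} (hψc : Continuous ψ) (hψ0 : ∀ t, 0 ≤ ψ t)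
    (hψ1 : ∀ t, 1 ≤ |t| → ψ t = 0) (hψi : ∫ t, ψ t = 1) (hB : ∀ t, ψ t ≤ B) (hδ : 0 < δ)
    (hc : 0 < c) (ha : 0 < a) (hφ : HasDerivAt φ a 0) (hφ0 : φ 0 = 0)
    (hφc : ContinuousOn φ (Ioo (-δ) δ)) (hlow : ∀ s ∈ Ioo (-δ) δ, c * |s| ≤ |φ s|)
    (hH : Continuous H) (hH0 : ∀ s, 0 ≤ H s) (hM : ∀ s ∈ Ioo (-δ) δ, H s ≤ M) :
    (∀ τ, 0 < τ → ∫⁻ s in Ioo (-δ) δ, ENNReal.ofReal (τ⁻¹ * ψ (φ s / τ) * H s) ≤
      ENNReal.ofReal (B * M) * ENNReal.ofReal (c⁻¹ - -c⁻¹)) ∧
    Tendsto (fun τ => ∫⁻ s in Ioo (-δ) δ, ENNReal.ofReal (τ⁻¹ * ψ (φ s / τ) * H s)) (𝓝[>] 0)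
      (𝓝 (ENNReal.ofReal (a⁻¹ * H 0))) := by
  set k : ℝ → ℝ → ℝ≥0∞ := fun τ => ((fun σ => τ * σ) ⁻¹' Ioo (-δ) δ).indicator
    fun σ => ENNReal.ofReal (ψ (φ (τ * σ) / τ) * H (τ * σ)) with hk
  have e1 : ∀ τ, 0 < τ → ∫⁻ s in Ioo (-δ) δ, ENNReal.ofReal (τ⁻¹ * ψ (φ s / τ) * H s) =
      ∫⁻ σ, k τ σ := fun τ hτ => by
    rw [← lintegral_indicator measurableSet_Ioo, scale _ hτ]
    refine lintegral_congr fun σ => ?_
    by_cases hσ : τ * σ ∈ Ioo (-δ) δ
    · rw [indicator_of_mem hσ, hk]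
      simp only
      rw [indicator_of_mem (show σ ∈ (fun σ => τ * σ) ⁻¹' Ioo (-δ) δ from hσ),
        ← ENNReal.ofReal_mul hτ.le]
      congr 1
      field_simp
    · rw [indicator_of_notMem hσ, hk]
      simp only
      rw [indicator_of_notMem (show σ ∉ (fun σ => τ * σ) ⁻¹' Ioo (-δ) δ from hσ), mul_zero]
  set bd : ℝ → ℝ≥0∞ := (Icc (-c⁻¹) c⁻¹).indicator fun _ => ENNReal.ofReal (B * M) with hbd
  have e2 : ∀ τ, 0 < τ → ∀ σ, k τ σ ≤ bd σ := fun τ hτ σ => by
    by_cases hσ : τ * σ ∈ Ioo (-δ) δ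
    · rw [hk]
      simp only
      rw [indicator_of_mem (show σ ∈ (fun σ => τ * σ) ⁻¹' Ioo (-δ) δ from hσ)]
      by_cases h2 : σ ∈ Icc (-c⁻¹) c⁻¹
      · rw [hbd, indicator_of_mem h2]
        exact ENNReal.ofReal_le_ofReal (mul_le_mul (hB _) (hM _ hσ) (hH0 _) ((hψ0 0).trans (hB 0)))
      · have h3 : c⁻¹ < |σ| := by
          by_contra h4
          exact h2 (abs_le.1 (not_lt.1 h4))
        have h5 : 1 ≤ |φ (τ * σ) / τ| := by
          rw [abs_div, abs_of_pos hτ, le_div_iff₀ hτ, one_mul]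
          refine le_trans ?_ (hlow _ hσ)
          rw [abs_mul, abs_of_pos hτ]
          have : 1 ≤ c * |σ| := by
            have := mul_le_mul_of_nonneg_left h3.le hc.le
            rwa [mul_inv_cancel₀ hc.ne'] at this
          nlinarith
        rw [hψ1 _ h5]
        simp
    · rw [hk]
      simp only
      rw [indicator_of_notMem (show σ ∉ (fun σ => τ * σ) ⁻¹' Ioo (-δ) δ from hσ)]
      exact zero_le
  have e3 : ∫⁻ σ, bd σ = ENNReal.ofReal (B * M) * ENNReal.ofReal (c⁻¹ - -c⁻¹) := by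
    rw [hbd, lintegral_indicator_const measurableSet_Icc, Real.volume_Icc]
  refine ⟨fun τ hτ => by rw [e1 τ hτ, ← e3]; exact lintegral_mono (e2 τ hτ), ?_⟩
  have hψs : HasCompactSupport ψ := HasCompactSupport.intro (isCompact_Icc (a := -1) (b := 1))
    fun t ht => hψ1 t (by
      by_contra h
      exact ht (abs_le.1 (not_le.1 h).le))
  have e4 : ENNReal.ofReal (a⁻¹ * H 0) = ∫⁻ σ, ENNReal.ofReal (ψ (a * σ) * H 0) := by
    rw [← ofReal_integral_eq_lintegral_ofReal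
      (((hψc.integrable_of_hasCompactSupport hψs).comp_mul_left' ha.ne').mul_const _)
      (Eventually.of_forall fun σ => mul_nonneg (hψ0 _) (hH0 _)), integral_mul_const,
      Measure.integral_comp_mul_left ψ a, hψi, abs_of_pos (inv_pos.2 ha), smul_eq_mul, mul_one]
  rw [e4]
  refine Tendsto.congr' (f₁ := fun τ => ∫⁻ σ, k τ σ)
    (by filter_upwards [self_mem_nhdsWithin] with τ hτ using (e1 τ hτ).symm) ?_
  refine tendsto_lintegral_filter_of_dominated_convergence' bd ?_ ?_ ?_ ?_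
  · refine Eventually.of_forall fun τ => ?_
    have hm : MeasurableSet ((fun σ => τ * σ) ⁻¹' Ioo (-δ) δ) :=
      measurableSet_Ioo.preimage (by fun_prop)
    refine (aemeasurable_indicator_iff hm).2 (ContinuousOn.aemeasurable ?_ hm)
    refine ENNReal.continuous_ofReal.comp_continuousOn (ContinuousOn.mul ?_ (by fun_prop))
    exact hψc.comp_continuousOn
      ((hφc.comp (f := fun σ => τ * σ) (by fun_prop) fun σ hσ => hσ).div_const τ)
  · filter_upwards [self_mem_nhdsWithin] with τ hτ using Eventually.of_forall (e2 τ hτ)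
  · rw [e3]
    exact ENNReal.mul_ne_top ENNReal.ofReal_ne_top ENNReal.ofReal_ne_top
  · refine Eventually.of_forall fun σ => ?_
    have t0 : Tendsto (fun τ : ℝ => τ * σ) (𝓝[>] 0) (𝓝 0) := by
      have : Tendsto (fun τ : ℝ => τ * σ) (𝓝 0) (𝓝 (0 * σ)) :=
        (continuous_mul_const σ).tendsto 0
      rw [zero_mul] at this
      exact this.mono_left nhdsWithin_le_nhds
    have t1 : Tendsto (fun τ : ℝ => φ (τ * σ) / τ) (𝓝[>] 0) (𝓝 (a * σ)) := by
      have d : HasDerivAt (fun τ : ℝ => φ (τ * σ)) (a * σ) 0 := by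
        have := HasDerivAt.comp (0 : ℝ) (h₂ := φ) (h := fun τ : ℝ => τ * σ)
          (by simpa using hφ) (hasDerivAt_mul_const σ)
        exact this
      have := d.tendsto_slope_zero_right
      refine this.congr fun τ => ?_
      simp [hφ0, div_eq_inv_mul]
    refine Tendsto.congr' (f₁ := fun τ => ENNReal.ofReal (ψ (φ (τ * σ) / τ) * H (τ * σ))) ?_
      ((ENNReal.continuous_ofReal.tendsto _).comp
        (((hψc.tendsto _).comp t1).mul ((hH.tendsto _).comp t0)))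
    filter_upwards [t0.eventually (Ioo_mem_nhds (neg_lt_zero.2 hδ) hδ)] with τ hτ
    rw [hk]
    simp only
    rw [indicator_of_mem (show σ ∈ (fun σ => τ * σ) ⁻¹' Ioo (-δ) δ from hτ)]

variable {ι : Type} [Fintype ι] {n : ℕ} {C U A : Set (E ι)} {F : E ι → ℝ}

theorem fin (hBALL2 : Q_BALL2) (h : St n C U F) (hA : IsCompact A) : μHE[n + 1] (C ∩ A) < ∞ := by
  obtain ⟨K, -, hK⟩ := hBALL2 ι n C U F h
  obtain ⟨R, hR, hAR⟩ := hA.isBounded.subset_ball_lt 0 0
  exact (measure_mono (inter_subset_inter_right _ hAR)).trans_lt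
    ((hK 0 (Or.inr rfl) R hR).trans_lt ENNReal.ofReal_lt_top)

theorem cgrad (h : St n C U F) : ContinuousOn (fun y => ‖gradient F y‖) U := fun _ hy =>
  (Shape.cG h.chart hy).continuousAt.norm.continuousWithinAt

theorem cw (h : St n C U F) {ψ : ℝ → ℝ} {g : E ι → ℝ} (hψ : Continuous ψ) (hA : IsCompact A)
    (hAU : A ⊆ U) (hg : ContinuousOn g U) (h0 : ∀ y ∉ A, g y = 0) (τ : ℝ) :
    Continuous fun y => τ⁻¹ * ψ (F y / τ) * (‖gradient F y‖ * g y) :=
  cont_of h.chart.isOpen hA.isClosed hAU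
    ((continuousOn_const.mul (hψ.comp_continuousOn (h.smooth.continuousOn.div_const τ))).mul
      ((cgrad h).mul hg)) fun y hy => by simp [h0 y hy]

theorem pos (hTAYL : Q_TAYL) (hTUBE : Q_TUBE) (hBALL2 : Q_BALL2) (h : St n C U F) {ψ : ℝ → ℝ}
    {g : E ι → ℝ} (hψc : Continuous ψ) (hψ0 : ∀ t, 0 ≤ ψ t) (hψ1 : ∀ t, 1 ≤ |t| → ψ t = 0)
    (hψi : ∫ t, ψ t = 1) (hA : IsCompact A) (hAU : A ⊆ U) (hg : ContinuousOn g U)
    (h0 : ∀ y ∉ A, g y = 0) (hg0 : ∀ y, 0 ≤ g y) :
    Tendsto (fun τ : ℝ => ∫ y, τ⁻¹ * ψ (F y / τ) * (‖gradient F y‖ * g y)) (𝓝[>] 0)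
      (𝓝 (∫ y in C, g y ∂μHE[n + 1])) := by
  have hU := h.chart.isOpen
  obtain ⟨δ₀, hδ₀, hW⟩ := hA.exists_cthickening_subset_open hU hAU
  set W := Metric.cthickening δ₀ A with hWdef
  have hWc : IsCompact W := hA.cthickening
  obtain ⟨ρ, K, hρ, hK, hT⟩ := hTAYL ι ℝ F U W hU hWc hW h.smooth
  obtain ⟨c, hc, hcW⟩ := hWc.exists_forall_le' ((cgrad h).mono hW)
    fun y hy => norm_pos_iff.2 (h.chart.grad_ne y (hW hy))
  obtain ⟨δ, hδ, hδ1, hδ2, hδ3⟩ : ∃ δ : ℝ, 0 < δ ∧ δ ≤ δ₀ ∧ 2 * δ ≤ ρ ∧ 2 * δ * K < c := by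
    refine ⟨min δ₀ (min (ρ / 2) (c / (2 * (K + 1)))), by positivity, min_le_left _ _, ?_, ?_⟩
    · have := (min_le_right δ₀ _).trans (min_le_left (ρ / 2) (c / (2 * (K + 1))))
      linarith
    · have h1 := (min_le_right δ₀ _).trans (min_le_right (ρ / 2) (c / (2 * (K + 1))))
      have h2 : 0 < min δ₀ (min (ρ / 2) (c / (2 * (K + 1)))) := by positivity
      rw [le_div_iff₀ (by positivity)] at h1
      nlinarith
  have hgc : Continuous g := cont_of hU hA.isClosed hAU hg h0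
  have hG : Continuous fun y => ‖gradient F y‖ * g y :=
    cont_of hU hA.isClosed hAU ((cgrad h).mul hg) fun y hy => by simp [h0 y hy]
  have hnν : ∀ x ∈ W, ‖normal F x‖ = 1 := fun x hx => h.norm_normal (hW hx)
  have hF0 : ∀ x ∈ C ∩ W, F x = 0 := fun x hx => (h.chart.zero_set x (hW hx.2)).1 hx.1
  have hTay : ∀ x ∈ C ∩ W, ∀ v, ‖v‖ ≤ ρ → x + v ∈ U ∧
      |F (x + v) - ‖gradient F x‖ * ⟪normal F x, v⟫| ≤ K * ‖v‖ ^ 2 := fun x hx v hv => by
    obtain ⟨h1, -, h2, -⟩ := (hT x hx.2).2.2.2 v hv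
    rw [hF0 x hx, sub_zero, Shape.fd h.chart (hW hx.2)] at h2
    exact ⟨h1, h2⟩
  set Q : Set (E ι × E ι) := {q | ‖q.2 - q.1‖ < δ} with hQ
  have hQm : MeasurableSet Q := (isOpen_lt (by fun_prop) continuous_const).measurableSet
  have hQs : ∀ x ∈ W, ∀ s : ℝ, (x, x + s • normal F x) ∈ Q ↔ s ∈ Ioo (-δ) δ := fun x hx s => by
    simp [hQ, norm_smul, hnν x hx, abs_lt]
  have hinj : ∀ x ∈ C ∩ W, ∀ x' ∈ C ∩ W, ∀ y, (x, y) ∈ Q → (x', y) ∈ Q →
      (∃ s : ℝ, y = x + s • normal F x) → (∃ s : ℝ, y = x' + s • normal F x') → x = x' := by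
    rintro x hx x' hx' y hq hq' ⟨s, hs⟩ ⟨s', hs'⟩
    have hd : ‖x' - x‖ ≤ ρ := by
      have := norm_sub_le (y - x) (y - x')
      rw [show y - x - (y - x') = x' - x by abel] at this
      have h1 : ‖y - x‖ < δ := hq
      have h2 : ‖y - x'‖ < δ := hq'
      linarith
    have key : ∀ u ∈ C ∩ W, ∀ u' ∈ C ∩ W, ‖u' - u‖ ≤ ρ →
        c * |⟪normal F u, u' - u⟫| ≤ K * ‖u' - u‖ ^ 2 := fun u hu u' hu' huu => by
      have := (hTay u hu _ huu).2
      rw [add_sub_cancel, hF0 u' hu', zero_sub, abs_neg, abs_mul, abs_norm] at this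
      exact (mul_le_mul_of_nonneg_right (hcW u hu.2) (abs_nonneg _)).trans this
    have k1 := key x hx x' hx' hd
    have k2 := key x' hx' x hx (by rwa [norm_sub_rev])
    rw [norm_sub_rev x x'] at k2
    have b1 : |s| < δ := abs_lt.2 ((hQs x hx.2 s).1 (hs ▸ hq))
    have b2 : |s'| < δ := abs_lt.2 ((hQs x' hx'.2 s').1 (hs' ▸ hq'))
    have e : x' - x = s • normal F x - s' • normal F x' := by
      rw [sub_eq_sub_iff_add_eq_add, ← hs', add_comm, ← hs]
    have e2 : ‖x' - x‖ ^ 2 = s * ⟪normal F x, x' - x⟫ + s' * ⟪normal F x', x - x'⟫ := by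
      rw [← real_inner_self_eq_norm_sq, ← neg_sub x' x, inner_neg_right]
      nth_rewrite 1 [e]
      rw [inner_sub_left, real_inner_smul_left, real_inner_smul_left]
      ring
    have e3 : ‖x' - x‖ ^ 2 ≤ δ * |⟪normal F x, x' - x⟫| + δ * |⟪normal F x', x - x'⟫| := by
      rw [e2]
      refine add_le_add ((le_abs_self _).trans ?_) ((le_abs_self _).trans ?_) <;> rw [abs_mul]
      · exact mul_le_mul_of_nonneg_right b1.le (abs_nonneg _)
      · exact mul_le_mul_of_nonneg_right b2.le (abs_nonneg _)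
    have e4 : (c - 2 * δ * K) * ‖x' - x‖ ^ 2 ≤ 0 := by nlinarith
    have e5 : ‖x' - x‖ ^ 2 ≤ 0 := by
      by_contra h5
      exact absurd (mul_pos (sub_pos.2 hδ3) (not_le.1 h5)) (not_lt.2 e4)
    exact (sub_eq_zero.1 (norm_eq_zero.1 (pow_eq_zero_iff two_ne_zero |>.1
      (le_antisymm e5 (sq_nonneg _))))).symm
  obtain ⟨τ₀, hτ₀, hfar⟩ := (hA.inter_right (t := {y | ∀ x ∈ C, δ ≤ ‖y - x‖}) (by
      simp only [ofPred_forall]
      exact isClosed_iInter fun x => isClosed_iInter fun _ =>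
        isClosed_le continuous_const (by fun_prop))).exists_forall_le'
    ((h.smooth.continuousOn.mono fun y hy => hAU hy.1).abs) (a := 0) fun y hy => by
      refine abs_pos.2 fun hy0 => ?_
      have := hy.2 y ((h.chart.zero_set y (hAU hy.1)).2 hy0)
      simp only [sub_self, norm_zero] at this
      linarith
  have hreach : ∀ y ∈ A, |F y| < τ₀ → y ∈ Reach C W F Q := fun y hy hF => by
    obtain ⟨x, hx, hxy⟩ : ∃ x ∈ C, ‖y - x‖ < δ := by
      by_contra h1
      push Not at h1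
      exact absurd (hfar y ⟨hy, h1⟩) (not_le.2 hF)
    obtain ⟨z, hz, hzd⟩ := h.closed.exists_infDist_eq_dist ⟨x, hx⟩ y
    have hmin : ∀ u ∈ C, ‖y - z‖ ≤ ‖y - u‖ := fun u hu => by
      rw [← dist_eq_norm, ← dist_eq_norm, ← hzd]
      exact Metric.infDist_le_dist_of_mem hu
    have hlt : ‖y - z‖ < δ := (hmin x hx).trans_lt hxy
    have hzW : z ∈ W := Metric.mem_cthickening_of_dist_le z y δ₀ A hy (by
      rw [dist_comm, dist_eq_norm]; linarith)
    obtain ⟨s, hs, -⟩ := all_near all_shape (all_curve all_shape) ι C U F h.chart z ⟨hW hzW, hz⟩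
      (y - z) fun u hu => by rw [add_sub_cancel]; exact hmin u hu
    exact ⟨z, ⟨hz, hzW⟩, s, by rw [← hs, add_sub_cancel], hlt⟩
  set ω : ℝ → E ι → ℝ≥0∞ := fun τ y =>
    ENNReal.ofReal (τ⁻¹ * ψ (F y / τ) * (‖gradient F y‖ * g y)) with hω
  have hωm : ∀ τ, Measurable (ω τ) := fun τ =>
    (cw h hψc hA hAU hg h0 τ).measurable.ennreal_ofReal
  have htube := fun τ => hTUBE ι (n + 1) C U F h.card h.chart h.closed W Q (ω τ)
    hWc.measurableSet hW hQm (hωm τ)
  have e1 : ∀ τ, 0 < τ → τ < τ₀ → ∫ y, τ⁻¹ * ψ (F y / τ) * (‖gradient F y‖ * g y) =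
      (∫⁻ x in C ∩ W, lineInt F Q (ω τ) x ∂μHE[n + 1]).toReal := fun τ hτ hτ' => by
    rw [integral_eq_lintegral_of_nonneg_ae (Eventually.of_forall fun y => by
      have := hψ0 (F y / τ)
      have := hg0 y
      positivity) (cw h hψc hA hAU hg h0 τ).aestronglyMeasurable,
      ← le_antisymm (htube τ).2.1 ((htube τ).2.2 hinj), setLIntegral_eq_of_support_subset]
    intro y hy
    have hy' : τ⁻¹ * ψ (F y / τ) * (‖gradient F y‖ * g y) ≠ 0 := fun h1 =>
      hy (by simp only [hω, h1]; simp)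
    refine hreach y (by_contra fun h1 => hy' (by simp [h0 y h1])) (lt_trans ?_ hτ')
    by_contra h1
    refine hy' (by rw [hψ1 _ ?_]; simp; rw [abs_div, abs_of_pos hτ, le_div_iff₀ hτ]; linarith)
  have hψs : HasCompactSupport ψ := HasCompactSupport.intro (isCompact_Icc (a := -1) (b := 1))
    fun t ht => hψ1 t (by
      by_contra h
      exact ht (abs_le.1 (not_le.1 h).le))
  obtain ⟨B, hB⟩ := hψc.bddAbove_range_of_hasCompactSupport hψs
  set H : E ι × ℝ → ℝ := fun q => ‖gradient F (q.1 + q.2 • normal F q.1)‖ *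
    g (q.1 + q.2 • normal F q.1) * |(1 + q.2 • shape F q.1).det| with hH
  have hHc : ContinuousOn H (U ×ˢ univ) := by
    have h1 : ContinuousOn (fun q : E ι × ℝ => normal F q.1) (U ×ˢ univ) :=
      h.sm_normal.continuousOn.comp continuousOn_fst fun q hq => hq.1
    have h2 : ContinuousOn (fun q : E ι × ℝ => shape F q.1) (U ×ˢ univ) :=
      h.sm_shape.continuousOn.comp continuousOn_fst fun q hq => hq.1
    exact (hG.comp_continuousOn (continuousOn_fst.add (continuousOn_snd.smul h1))).mul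
      (ContinuousLinearMap.continuous_det.comp_continuousOn
        (continuousOn_const.add (continuousOn_snd.smul h2))).abs
  obtain ⟨M, hM⟩ := (hWc.prod (isCompact_Icc (a := -δ) (b := δ))).bddAbove_image
    (hHc.mono (prod_mono hW (subset_univ _)))
  have hl : ∀ x ∈ C ∩ W, (∀ τ, 0 < τ → lineInt F Q (ω τ) x ≤
      ENNReal.ofReal (B * M) * ENNReal.ofReal ((c / 2)⁻¹ - -(c / 2)⁻¹)) ∧
      Tendsto (fun τ => lineInt F Q (ω τ) x) (𝓝[>] 0) (𝓝 (ENNReal.ofReal (g x))) := by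
    intro x hx
    have ha : 0 < ‖gradient F x‖ := hc.trans_le (hcW x hx.2)
    have hin : ∀ s : ℝ, ⟪normal F x, s • normal F x⟫ = s := fun s => by
      rw [inner_smul_right, h.inner_normal (hW hx.2), mul_one]
    have hns : ∀ s : ℝ, ‖s • normal F x‖ = |s| := fun s => by simp [norm_smul, hnν x hx.2]
    have hs : ∀ s ∈ Ioo (-δ) δ, ‖s • normal F x‖ ≤ ρ := fun s hs => by
      have := abs_lt.2 hs
      rw [hns]; linarith
    have hd : HasDerivAt (fun s : ℝ => F (x + s • normal F x)) ‖gradient F x‖ 0 := by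
      have h1 : HasDerivAt (fun s : ℝ => x + s • normal F x) (normal F x) 0 := by
        simpa using ((hasDerivAt_id (0 : ℝ)).smul_const (normal F x)).const_add x
      have h2 := ((Shape.c2 h.chart (hW hx.2)).differentiableAt two_ne_zero).hasFDerivAt
      have h3 := HasFDerivAt.comp_hasDerivAt (0 : ℝ) (l := F) (l' := fderiv ℝ F x)
        (f := fun s : ℝ => x + s • normal F x) (by simpa using h2) h1
      rwa [Shape.fd h.chart (hW hx.2), h.inner_normal (hW hx.2), mul_one] at h3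
    have := line (φ := fun s => F (x + s • normal F x)) (H := fun s => H (x, s)) (c := c / 2)
      (M := M) hψc hψ0 hψ1 hψi (fun t => hB ⟨t, rfl⟩) hδ (half_pos hc) ha hd
      (by simpa using hF0 x hx)
      (h.smooth.continuousOn.comp (by fun_prop) fun s hs' => (hTay x hx _ (hs s hs')).1)
      (fun s hs' => by
        have h1 := (hTay x hx _ (hs s hs')).2
        rw [hin, hns] at h1
        have h2 := abs_sub_abs_le_abs_sub (‖gradient F x‖ * s) (F (x + s • normal F x))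
        rw [abs_sub_comm, abs_mul, abs_norm] at h2
        have h3 := abs_lt.2 hs'
        have h4 := mul_le_mul_of_nonneg_right (hcW x hx.2) (abs_nonneg s)
        have h5 := abs_nonneg s
        have h6 : K * |s| ≤ c / 2 := by nlinarith
        nlinarith)
      (hHc.comp_continuous (by fun_prop) fun s => ⟨hW hx.2, trivial⟩)
      (fun s => by
        have := hg0 (x + s • normal F x)
        simp only [hH]
        positivity)
      (fun s hs' => hM ⟨(x, s), ⟨hx.2, Ioo_subset_Icc_self hs'⟩, rfl⟩)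
    have e2 : ∀ τ, 0 < τ → lineInt F Q (ω τ) x = ∫⁻ s in Ioo (-δ) δ,
        ENNReal.ofReal (τ⁻¹ * ψ (F (x + s • normal F x) / τ) * H (x, s)) := fun τ hτ => by
      rw [lineInt, show {s : ℝ | (x, x + s • normal F x) ∈ Q} = Ioo (-δ) δ from
        Set.ext (hQs x hx.2)]
      refine lintegral_congr fun s => ?_
      rw [hω, ← ENNReal.ofReal_mul' (abs_nonneg _)]
      simp only [hH, mul_assoc]
    refine ⟨fun τ hτ => e2 τ hτ ▸ this.1 τ hτ, ?_⟩
    have e3 : ‖gradient F x‖⁻¹ * H (x, 0) = g x := by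
      simp only [hH, zero_smul, add_zero]
      rw [show (1 + (0 : ℝ) • shape F x).det = 1 by
        rw [show (1 + (0 : ℝ) • shape F x) = 1 by ext1 v; simp]
        simp [ContinuousLinearMap.det, ContinuousLinearMap.one_def], abs_one]
      field_simp
    rw [← e3]
    exact this.2.congr' (by filter_upwards [self_mem_nhdsWithin] with τ hτ using (e2 τ hτ).symm)
  have hm : MeasurableSet (C ∩ W) := h.closed.measurableSet.inter hWc.measurableSet
  have hfin := fin hBALL2 h hWc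
  have hlim := tendsto_lintegral_filter_of_dominated_convergence
    (μ := μHE[n + 1].restrict (C ∩ W)) (l := 𝓝[>] (0 : ℝ)) (F := fun τ => lineInt F Q (ω τ))
    (f := fun x => ENNReal.ofReal (g x))
    (fun _ => ENNReal.ofReal (B * M) * ENNReal.ofReal ((c / 2)⁻¹ - -(c / 2)⁻¹))
    (Eventually.of_forall fun τ => (htube τ).1)
    (by
      filter_upwards [self_mem_nhdsWithin] with τ hτ
      exact (ae_restrict_mem hm).mono fun x hx => (hl x hx).1 τ hτ)
    (by
      rw [setLIntegral_const]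
      exact ENNReal.mul_ne_top (ENNReal.mul_ne_top ENNReal.ofReal_ne_top ENNReal.ofReal_ne_top)
        hfin.ne)
    ((ae_restrict_mem hm).mono fun x hx => (hl x hx).2)
  have hgi : IntegrableOn g (C ∩ W) μHE[n + 1] :=
    hgc.continuousOn.integrableOn_of_subset_isCompact hWc hm inter_subset_right hfin.ne
  have e5 : ∫ y in C, g y ∂μHE[n + 1] =
      (∫⁻ x in C ∩ W, ENNReal.ofReal (g x) ∂μHE[n + 1]).toReal := by
    rw [setIntegral_eq_of_subset_of_forall_sdiff_eq_zero h.closed.measurableSet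
      (inter_subset_left (t := W)) fun x hx => h0 x fun hxA =>
        hx.2 ⟨hx.1, Metric.self_subset_cthickening A hxA⟩,
      integral_eq_lintegral_of_nonneg_ae (Eventually.of_forall hg0) hgi.aestronglyMeasurable]
  rw [e5]
  refine ((ENNReal.tendsto_toReal ?_).comp hlim).congr' ?_
  · rw [← ofReal_integral_eq_lintegral_ofReal hgi (Eventually.of_forall hg0)]
    exact ENNReal.ofReal_ne_top
  · filter_upwards [Ioo_mem_nhdsGT hτ₀] with τ hτ using (e1 τ hτ.1 hτ.2).symm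

end WEAKx

theorem c_WEAK (hTAYL : Q_TAYL) (hTUBE : Q_TUBE) (hBALL2 : Q_BALL2) :
    Q_WEAK := by
  intro ι _ n C U F h ψ g A hψc hψ0 hψ1 hψi hA hAU _ hg h0
  have hp : ContinuousOn (fun y => max (g y) 0) U := hg.sup continuousOn_const
  have hq : ContinuousOn (fun y => max (-g y) 0) U := hg.neg.sup continuousOn_const
  have hp0 : ∀ y ∉ A, max (g y) 0 = 0 := fun y hy => by simp [h0 y hy]
  have hq0 : ∀ y ∉ A, max (-g y) 0 = 0 := fun y hy => by simp [h0 y hy]
  have h1 := (WEAKx.pos hTAYL hTUBE hBALL2 h hψc hψ0 hψ1 hψi hA hAU hp hp0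
    fun _ => le_max_right _ _).sub (WEAKx.pos hTAYL hTUBE hBALL2 h hψc hψ0 hψ1 hψi hA hAU hq hq0
    fun _ => le_max_right _ _)
  have hi : ∀ f : E ι → ℝ, ContinuousOn f U → (∀ y ∉ A, f y = 0) →
      IntegrableOn f C μHE[n + 1] := fun f hf hf0 =>
    ((hf.mono hAU).integrableOn_of_subset_isCompact hA
      (h.closed.measurableSet.inter hA.measurableSet) inter_subset_right
      (WEAKx.fin hBALL2 h hA).ne).of_forall_sdiff_eq_zero h.closed.measurableSet
      fun x hx => hf0 x fun hxA => hx.2 ⟨hx.1, hxA⟩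
  have hj : ∀ f : E ι → ℝ, ContinuousOn f U → (∀ y ∉ A, f y = 0) → ∀ τ : ℝ,
      Integrable fun y => τ⁻¹ * ψ (F y / τ) * (‖gradient F y‖ * f y) := fun f hf hf0 τ =>
    (WEAKx.cw h hψc hA hAU hf hf0 τ).integrable_of_hasCompactSupport
      (WEAKx.supp_of hA fun y hy => by simp [hf0 y hy])
  rw [← integral_sub (hi _ hp hp0) (hi _ hq hq0)] at h1
  simp only [max_zero_sub_max_neg_zero_eq_self] at h1
  refine h1.congr fun τ => ?_
  rw [← integral_sub (hj _ hp hp0 τ) (hj _ hq hq0 τ)]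
  refine integral_congr_ae (Eventually.of_forall fun y => ?_)
  simp only
  rw [← mul_sub, ← mul_sub, max_zero_sub_max_neg_zero_eq_self]

end Pool.Agent.P.MP_2b44f0_gt.PD
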