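import Pool.Agent.P.MP_2b44f0_gt.PD.TFRAME
import Pool.Agent.P.MP_2b44f0_gt.PD.TTAYL
import Pool.Agent.P.MP_2b44f0_gt.PD.TREFL
import Pool.Agent.P.MP_2b44f0_gt.PD.TCOMP
import Pool.Agent.P.MP_2b44f0_gt.PD.TALG
import Pool.Agent.P.MP_2b44f0_gt.PD.THOM
import Pool.Agent.P.MP_2b44f0_gt.PD.TGEO
import Pool.Agent.P.MP_2b44f0_gt.PD.TEXI
import Pool.Agent.P.MP_2b44f0_gt.PD.TEXI4
import Pool.Agent.P.MP_2b44f0_gt.PD.TTR2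
import Pool.Agent.P.MP_2b44f0_gt.PD.TNJET
import Pool.Agent.P.MP_2b44f0_gt.PD.TMAX
import Pool.Agent.P.MP_2b44f0_gt.PD.TEST
import Pool.Agent.P.MP_2b44f0_gt.PD.TLOW
import Pool.Agent.P.MP_2b44f0_gt.PD.TSEMI
import Pool.Agent.P.MP_2b44f0_gt.PD.TTP
import Pool.Agent.P.MP_2b44f0_gt.PD.TJET
import Pool.Agent.P.MP_2b44f0_gt.PD.TSIG
import Pool.Agent.P.MP_2b44f0_gt.PD.TTUBE
import Pool.Agent.P.MP_2b44f0_gt.PD.TBALL1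
import Pool.Agent.P.MP_2b44f0_gt.PD.TBALL2
import Pool.Agent.P.MP_2b44f0_gt.PD.TPOL
import Pool.Agent.P.MP_2b44f0_gt.PD.TFIN
import Pool.Agent.P.MP_2b44f0_gt.PD.TWEAK
import Pool.Agent.P.MP_2b44f0_gt.PD.TDIV
import Pool.Agent.P.MP_2b44f0_gt.PD.TLDIV
import Pool.Agent.P.MP_2b44f0_gt.PD.TDENS
import Pool.Agent.P.MP_2b44f0_gt.PD.TMOM
import Pool.Agent.P.MP_2b44f0_gt.PD.TKER
import Pool.Agent.P.MP_2b44f0_gt.PD.TT1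
import Pool.Agent.P.MP_2b44f0_gt.PD.TEQ

/-!
All steps together.
-/

namespace Pool.Agent.P.MP_2b44f0_gt.PD

theorem a_FRAME : Q_FRAME :=
  c_FRAME

theorem a_TAYL : Q_TAYL :=
  c_TAYL

theorem a_REFL : Q_REFL :=
  c_REFL

theorem a_COMP : Q_COMP :=
  c_COMP

theorem a_ALG : Q_ALG :=
  c_ALG

theorem a_HOM : Q_HOM :=
  c_HOM

theorem a_GEO : Q_GEO :=
  c_GEO a_TAYL

theorem a_EXI : Q_EXI :=
  c_EXI a_TAYL a_GEO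

theorem a_EXI4 : Q_EXI4 :=
  c_EXI4 a_TAYL a_GEO

theorem a_TR2 : Q_TR2 :=
  c_TR2 a_FRAME a_HOM

theorem a_NJET : Q_NJET :=
  c_NJET a_FRAME a_TAYL a_GEO a_TR2

theorem a_MAX : Q_MAX :=
  c_MAX

theorem a_EST : Q_EST :=
  c_EST a_FRAME a_GEO a_EXI4

theorem a_LOW : Q_LOW :=
  c_LOW a_MAX a_EST

theorem a_SEMI : Q_SEMI :=
  c_SEMI a_GEO a_MAX a_EST

theorem a_TP : Q_TP :=
  c_TP a_FRAME a_REFL a_GEO a_EXI a_NJET a_MAX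

theorem a_JET : Q_JET :=
  c_JET a_FRAME a_ALG a_GEO a_MAX a_EST a_TP

theorem a_SIG : Q_SIG :=
  c_SIG a_LOW a_SEMI a_JET

theorem a_TUBE : Q_TUBE :=
  c_TUBE

theorem a_BALL1 : Q_BALL1 :=
  c_BALL1

theorem a_BALL2 : Q_BALL2 :=
  c_BALL2

theorem a_POL : Q_POL :=
  c_POL

theorem a_FIN : Q_FIN :=
  c_FIN a_BALL1 a_BALL2 a_POL

theorem a_WEAK : Q_WEAK :=
  c_WEAK a_TAYL a_TUBE a_BALL2

theorem a_DIV : Q_DIV :=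
  c_DIV a_WEAK

theorem a_LDIV : Q_LDIV :=
  c_LDIV a_HOM a_BALL2 a_POL a_FIN a_DIV

theorem a_DENS : Q_DENS :=
  c_DENS a_BALL1 a_BALL2 a_POL

theorem a_MOM : Q_MOM :=
  c_MOM a_GEO a_FIN a_LDIV

theorem a_KER : Q_KER :=
  c_KER a_FIN a_DENS a_MOM

theorem a_T1 : Q_T1 :=
  c_T1 a_GEO a_MAX a_COMP a_SIG a_FIN a_KER

theorem a_EQ : Q_EQ :=
  c_EQ a_FIN a_T1

end Pool.Agent.P.MP_2b44f0_gt.PD
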