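import Pool.Agent.P.MP_2b44f0_gt.PD.IfC

/-! Step COMP3. -/

namespace Pool.Agent.P.MP_2b44f0_gt.PD

open MeasureTheory Set Filter Asymptotics
open scoped ENNReal RealInnerProductSpace Topology

namespace COMP3x

theorem c1 (u : W) : |u.1| ≤ ‖u‖ := norm_fst_le u
theorem c2 (u : W) : |u.2.1| ≤ ‖u‖ := (norm_fst_le u.2).trans (norm_snd_le u)
theorem c3 (u : W) : |u.2.2| ≤ ‖u‖ := (norm_snd_le u.2).trans (norm_snd_le u)

theorem nle {u : W} {c : ℝ} (h1 : |u.1| ≤ c) (h2 : |u.2.1| ≤ c) (h3 : |u.2.2| ≤ c) : ‖u‖ ≤ c := by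
  rw [Prod.norm_def, Prod.norm_def]
  exact max_le h1 (max_le h2 h3)

theorem dle (u v : W) : |dot u v| ≤ 3 * ‖u‖ * ‖v‖ := by
  have k : ∀ a b : ℝ, |a| ≤ ‖u‖ → |b| ≤ ‖v‖ → |a * b| ≤ ‖u‖ * ‖v‖ := fun a b ha hb => by
    rw [abs_mul]; exact mul_le_mul ha hb (abs_nonneg _) (norm_nonneg _)
  have h1 := abs_le.1 (k _ _ (c1 u) (c1 v))
  have h2 := abs_le.1 (k _ _ (c2 u) (c2 v))
  have h3 := abs_le.1 (k _ _ (c3 u) (c3 v))
  rw [abs_le, dot]
  constructor <;> linarith [h1.1, h1.2, h2.1, h2.2, h3.1, h3.2]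

theorem dle' {u v : W} {p q : ℝ} (hu : ‖u‖ ≤ p) (hv : ‖v‖ ≤ q) : -(3 * p * q) ≤ dot u v := by
  have h := (abs_le.1 (dle u v)).1
  have h2 : ‖u‖ * ‖v‖ ≤ p * q := mul_le_mul hu hv (norm_nonneg _) ((norm_nonneg _).trans hu)
  linarith

theorem jet (A b d v m : W) (D : W →L[ℝ] W) (s η e K c : ℝ) (_hs : 0 ≤ s) (hK : 0 ≤ K)
    (hc : 0 ≤ c) (he : 0 ≤ e) (he1 : e ≤ 1) (h1 : 0 ≤ A.1) (hb : ‖b - A - D d‖ ≤ e * ‖d‖)
    (hd : ‖d‖ ≤ 3 * K * s) (hv : ‖v‖ ≤ K * s) (hm : ‖m‖ ≤ c * s ^ 2)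
    (hr : |d.1 - v.1| ≤ K * s ^ 2) (l1 : v.1 + m.1 / 2 - e * s ^ 2 ≤ d.1)
    (l2 : v.2.1 + m.2.1 / 2 - e * s ^ 2 ≤ d.2.1) (l3 : v.2.2 + m.2.2 / 2 - e * s ^ 2 ≤ d.2.2)
    (s2 : 6 * ‖D‖ * K * s ≤ A.2.1) (s3 : 6 * ‖D‖ * K * s ≤ A.2.2)
    (s4 : 6 * ‖D‖ * K * (K + c + 1) * s ≤ η / 2)
    (hη : e * (A.1 + A.2.1 + A.2.2 + 14 * K ^ 2) ≤ η / 2) :
    -dot (A + b) d / 2 ≤ -dot A v - (dot A m + dot (D v) v) / 2 + η * s ^ 2 := by
  obtain ⟨t1, ht1⟩ : ∃ t, t = d.1 - (v.1 + m.1 / 2 - e * s ^ 2) := ⟨_, rfl⟩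
  obtain ⟨t2, ht2⟩ : ∃ t, t = d.2.1 - (v.2.1 + m.2.1 / 2 - e * s ^ 2) := ⟨_, rfl⟩
  obtain ⟨t3, ht3⟩ : ∃ t, t = d.2.2 - (v.2.2 + m.2.2 / 2 - e * s ^ 2) := ⟨_, rfl⟩
  have p1 : 0 ≤ t1 := by linarith
  have p2 : 0 ≤ t2 := by linarith
  have p3 : 0 ≤ t3 := by linarith
  have q0 : 0 ≤ s ^ 2 := sq_nonneg s
  have q1 : 0 ≤ K * s ^ 2 := mul_nonneg hK q0
  have q2 : 0 ≤ c * s ^ 2 := mul_nonneg hc q0
  have q3 : 0 ≤ e * s ^ 2 := mul_nonneg he q0
  have q4 : e * s ^ 2 ≤ s ^ 2 := by nlinarith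
  have m2 := abs_le.1 ((c2 m).trans hm)
  have m3 := abs_le.1 ((c3 m).trans hm)
  obtain ⟨R, hR⟩ : ∃ R, R = t2 + t3 + (K * s ^ 2 + c * s ^ 2 + s ^ 2) := ⟨_, rfl⟩
  have hrr : ‖d - v‖ ≤ R := by
    refine nle (hr.trans (by linarith)) ?_ ?_
    · rw [abs_le]; simp only [Prod.snd_sub, Prod.fst_sub]
      constructor <;> linarith [m2.1, m2.2]
    · rw [abs_le]; simp only [Prod.snd_sub]
      constructor <;> linarith [m3.1, m3.2]
  have e1 : dot (A + b) d = 2 * dot A d + dot (b - A - D d) d + dot (D (d - v)) d +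
      dot (D v) (d - v) + dot (D v) v := by
    simp only [dot, map_sub, Prod.fst_add, Prod.snd_add, Prod.fst_sub, Prod.snd_sub]; ring
  have e2 : dot A d = dot A v + dot A m / 2 + (A.1 * t1 + A.2.1 * t2 + A.2.2 * t3) -
      e * (A.1 + A.2.1 + A.2.2) * s ^ 2 := by
    rw [ht1, ht2, ht3]; simp only [dot]; ring
  have b1 := dle' (hb.trans (mul_le_mul_of_nonneg_left hd he)) hd
  have b2 := dle' ((D.le_opNorm (d - v)).trans (mul_le_mul_of_nonneg_left hrr (norm_nonneg D))) hd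
  have b3 := dle' ((D.le_opNorm v).trans (mul_le_mul_of_nonneg_left hv (norm_nonneg D))) hrr
  have g1 : 0 ≤ A.1 * t1 := mul_nonneg h1 p1
  have g2 := mul_le_mul_of_nonneg_right s2 p2
  have g3 := mul_le_mul_of_nonneg_right s3 p3
  have g4 := mul_le_mul_of_nonneg_right s4 q0
  have g5 := mul_le_mul_of_nonneg_right hη q0
  have g6 : 0 ≤ e * K ^ 2 * s ^ 2 := by positivity
  rw [hR] at b2 b3
  rw [e1, e2]
  linarith

variable {ι : Type} [Fintype ι]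

/-- the three linear forms -/
noncomputable def V (j : E ι × E ι × E ι) : E ι →L[ℝ] W :=
  (innerSL ℝ j.1).prod ((innerSL ℝ j.2.1).prod (innerSL ℝ j.2.2))

/-- the combination as a linear map -/
noncomputable def cL (j : E ι × E ι × E ι) : W →L[ℝ] E ι :=
  (ContinuousLinearMap.fst ℝ ℝ (ℝ × ℝ)).smulRight j.1 +
    ((ContinuousLinearMap.fst ℝ ℝ ℝ).comp (ContinuousLinearMap.snd ℝ ℝ (ℝ × ℝ))).smulRight j.2.1 +
    ((ContinuousLinearMap.snd ℝ ℝ ℝ).comp (ContinuousLinearMap.snd ℝ ℝ (ℝ × ℝ))).smulRight j.2.2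

theorem V_ap (j : E ι × E ι × E ι) (h : E ι) : V j h = (⟪j.1, h⟫, ⟪j.2.1, h⟫, ⟪j.2.2, h⟫) := rfl

theorem cL_ap (j : E ι × E ι × E ι) (a : W) : cL j a = cmb a j.1 j.2.1 j.2.2 := rfl

theorem in_cmb (j : E ι × E ι × E ι) (a : W) (h : E ι) :
    ⟪cmb a j.1 j.2.1 j.2.2, h⟫ = dot a (V j h) := by
  simp [cmb, dot, V_ap, inner_add_left, inner_smul_left]

theorem V_le {j : E ι × E ι × E ι} {K : ℝ} (hj : ‖j‖ ≤ K) (h : E ι) : ‖V j h‖ ≤ K * ‖h‖ := by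
  have k : ∀ g : E ι, ‖g‖ ≤ ‖j‖ → |⟪g, h⟫| ≤ K * ‖h‖ := fun g hg =>
    (abs_real_inner_le_norm g h).trans (mul_le_mul_of_nonneg_right (hg.trans hj) (norm_nonneg _))
  exact nle (k _ (norm_fst_le j)) (k _ ((norm_fst_le j.2).trans (norm_snd_le j)))
    (k _ ((norm_snd_le j.2).trans (norm_snd_le j)))

theorem q_le (M : E ι →L[ℝ] E ι) (h : E ι) : |⟪M h, h⟫| ≤ ‖M‖ * ‖h‖ ^ 2 := by
  refine (abs_real_inner_le_norm _ _).trans ?_
  rw [sq, ← mul_assoc]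
  exact mul_le_mul_of_nonneg_right (M.le_opNorm h) (norm_nonneg _)

theorem small {s : Set (E ι)} {x : E ι} (p : ℝ) {q : ℝ} (hq : 0 < q) :
    ∀ᶠ y in 𝓝[s] x, p * ‖y - x‖ ≤ q := by
  have h : ContinuousAt (fun y : E ι => p * ‖y - x‖) x := by fun_prop
  exact (h.eventually_le_const (by simpa using hq)).filter_mono nhdsWithin_le_nhds

end COMP3x

open COMP3x

theorem c_COMP3 :
    Q_COMP3 := by
  intro ι _ C w Ω a K J hC hΩ ha hw hJ hK
  have hL : IsCompact (lk C) := (isCompact_sphere 0 1).inter_left hC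
  have two : ∀ x ∈ lk C, ∀ z ∈ lk C, ‖z - x‖ ≤ 2 := fun x hx z hz => by
    have := norm_sub_le z x
    rw [lk_norm hx, lk_norm hz] at this; linarith
  have lip : ∀ x ∈ lk C, ∀ z ∈ lk C, ‖w z - w x‖ ≤ 3 * K * ‖z - x‖ := by
    intro x hx z hz
    obtain ⟨j, hj⟩ := hJ x hx
    obtain ⟨j', hj'⟩ := hJ z hz
    obtain ⟨n1, k1⟩ := hK x hx j hj
    obtain ⟨n2, k2⟩ := hK z hz j' hj'
    obtain ⟨a1, a2, a3⟩ := k1 z hz
    obtain ⟨-, b2, b3⟩ := k2 x hx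
    have K0 : 0 ≤ K := (norm_nonneg _).trans n1
    have v1 := V_le n1 (z - x)
    have v2 := V_le n2 (x - z)
    rw [norm_sub_rev x z] at v2 b2 b3
    have t : K * ‖z - x‖ ^ 2 ≤ 2 * (K * ‖z - x‖) := by
      have := mul_le_mul_of_nonneg_left (two x hx z hz) (mul_nonneg K0 (norm_nonneg (z - x)))
      nlinarith
    have u1 := abs_le.1 ((c1 _).trans v1)
    have u2 := abs_le.1 ((c2 _).trans v1)
    have u3 := abs_le.1 ((c3 _).trans v1)
    have u4 := abs_le.1 ((c2 _).trans v2)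
    have u5 := abs_le.1 ((c3 _).trans v2)
    have a1' := abs_le.1 a1
    simp only [V_ap] at u1 u2 u3 u4 u5
    refine nle ?_ ?_ ?_ <;> rw [abs_le] <;> simp only [Prod.fst_sub, Prod.snd_sub] <;>
      constructor <;>
      linarith [u1.1, u1.2, u2.1, u2.2, u3.1, u3.2, u4.1, u4.2, u5.1, u5.2, a1'.1, a1'.2]
  have cw : ContinuousOn w (lk C) := by
    refine (LipschitzOnWith.of_dist_le' (K := 3 * K) fun z hz x hx => ?_).continuousOn
    rw [dist_eq_norm, dist_eq_norm]; exact lip x hx z hz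
  have hI : IsCompact (w '' lk C) := hL.image_of_continuousOn cw
  have sub : w '' lk C ⊆ Ω := by rintro _ ⟨x, hx, rfl⟩; exact (hw x hx).1
  have ll : LocallyLipschitzOn (w '' lk C) a := fun u hu => by
    obtain ⟨k, t, ht, h⟩ := (ha.contDiffAt (hΩ.mem_nhds (sub hu))).exists_lipschitzOnWith
    exact ⟨k, t, nhdsWithin_le_nhds ht, h⟩
  obtain ⟨La, hLa⟩ := ll.exists_lipschitzOnWith_of_compact hI
  obtain ⟨B, hB⟩ := hI.exists_bound_of_continuousOn hLa.continuousOn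
  refine ⟨3 * B * K + 14 * La * K ^ 2, fun x hx j hj => ?_⟩
  obtain ⟨n1, k1⟩ := hK x hx j hj
  obtain ⟨hx0, A1, A2, A3⟩ := hw x hx
  have K0 : 0 ≤ K := (norm_nonneg _).trans n1
  have La0 : (0 : ℝ) ≤ La := La.2
  have hBx := hB _ (mem_image_of_mem w hx)
  have B1 := (le_abs_self _).trans ((c1 _).trans hBx)
  have B2 := (le_abs_self _).trans ((c2 _).trans hBx)
  have B3 := (le_abs_self _).trans ((c3 _).trans hBx)
  refine ⟨?_, fun z hz => ?_, fun M₀ M₁ M₂ J0 J1 J2 => ?_⟩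
  · have k : ∀ (c : ℝ) (g : E ι), 0 ≤ c → c ≤ B → ‖g‖ ≤ ‖j‖ → ‖c • g‖ ≤ B * K :=
      fun c g h0 hc hg => by
        rw [norm_smul, Real.norm_of_nonneg h0]
        exact mul_le_mul hc (hg.trans n1) (norm_nonneg _) (h0.trans hc)
    have f1 := k _ _ A1 B1 (norm_fst_le j)
    have f2 := k _ _ A2.le B2 ((norm_fst_le j.2).trans (norm_snd_le j))
    have f3 := k _ _ A3.le B3 ((norm_snd_le j.2).trans (norm_snd_le j))
    have : 0 ≤ La * K ^ 2 := by positivity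
    refine (norm_add₃_le ..).trans ?_
    linarith
  · obtain ⟨a1, a2, a3⟩ := k1 z hz
    have a1' := (abs_le.1 a1).1
    have l := lip x hx z hz
    have l2 : ‖a (w z) - a (w x)‖ ≤ La * (3 * K * ‖z - x‖) := by
      have := hLa.dist_le_mul _ (mem_image_of_mem w hz) _ (mem_image_of_mem w hx)
      rw [dist_eq_norm, dist_eq_norm] at this
      exact this.trans (mul_le_mul_of_nonneg_left l La0)
    have b := dle' l2 l
    have e1 : dot (a (w x) + a (w z)) (w z - w x) =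
        2 * dot (a (w x)) (w z - w x) + dot (a (w z) - a (w x)) (w z - w x) := by
      simp only [dot, Prod.fst_add, Prod.snd_add, Prod.fst_sub, Prod.snd_sub]; ring
    have q : 0 ≤ K * ‖z - x‖ ^ 2 := by positivity
    have q' : 0 ≤ La * K ^ 2 * ‖z - x‖ ^ 2 := by positivity
    have g1 := mul_le_mul_of_nonneg_left a1' A1
    have g2 := mul_le_mul_of_nonneg_left a2 A2.le
    have g3 := mul_le_mul_of_nonneg_left a3 A3.le
    have r1 := mul_le_mul_of_nonneg_right B1 q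
    have r2 := mul_le_mul_of_nonneg_right B2 q
    have r3 := mul_le_mul_of_nonneg_right B3 q
    rw [inner_neg_left, in_cmb, e1]
    generalize dot (a (w z) - a (w x)) (w z - w x) = T at b ⊢
    simp only [dot, V_ap, Prod.fst_sub, Prod.snd_sub]
    linarith
  · refine ⟨-((a (w x)).1 • M₀ + (a (w x)).2.1 • M₁ + (a (w x)).2.2 • M₂ +
      (cL j).comp ((fderiv ℝ a (w x)).comp (V j))), ?_⟩
    refine (and_iff_left_of_imp fun hN η hη => ?_).2 fun h => ?_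
    · have hS : 0 < (a (w x)).1 + (a (w x)).2.1 + (a (w x)).2.2 + 14 * K ^ 2 := by positivity
      obtain ⟨e, he, he1, he2⟩ : ∃ e : ℝ, 0 < e ∧ e ≤ 1 ∧
          e * ((a (w x)).1 + (a (w x)).2.1 + (a (w x)).2.2 + 14 * K ^ 2) ≤ η / 2 :=
        ⟨min 1 (η / 2 / _), lt_min one_pos (by positivity), min_le_left _ _,
          (le_div_iff₀ hS).1 (min_le_right _ _)⟩
      have hD : HasFDerivAt a (fderiv ℝ a (w x)) (w x) :=
        ((ha.contDiffAt (hΩ.mem_nhds hx0)).differentiableAt one_ne_zero).hasFDerivAt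
      have hD' := (cw x hx).tendsto.eventually (hD.isLittleO.bound he)
      filter_upwards [hD', J0 e he, J1 e he, J2 e he, self_mem_nhdsWithin,
        small (6 * ‖fderiv ℝ a (w x)‖ * K) A2, small (6 * ‖fderiv ℝ a (w x)‖ * K) A3,
        small (6 * ‖fderiv ℝ a (w x)‖ * K * (K + (‖M₀‖ + ‖M₁‖ + ‖M₂‖) + 1)) (half_pos hη)]
        with z d0 j0 j1 j2 hz s2 s3 s4
      have q0 := sq_nonneg ‖z - x‖
      have q1 := mul_nonneg (norm_nonneg M₀) q0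
      have q2 := mul_nonneg (norm_nonneg M₁) q0
      have q3 := mul_nonneg (norm_nonneg M₂) q0
      have := jet (a (w x)) (a (w z)) (w z - w x) (V j (z - x))
        (⟪M₀ (z - x), z - x⟫, ⟪M₁ (z - x), z - x⟫, ⟪M₂ (z - x), z - x⟫) (fderiv ℝ a (w x))
        ‖z - x‖ η e K (‖M₀‖ + ‖M₁‖ + ‖M₂‖) (norm_nonneg _) K0 (by positivity) he.le he1 A1 d0
        (lip x hx z hz) (V_le n1 _)
        (nle ((q_le M₀ _).trans (by linarith)) ((q_le M₁ _).trans (by linarith))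
          ((q_le M₂ _).trans (by linarith))) (k1 z hz).1
        (by simp only [V_ap, Prod.fst_sub]; linarith)
        (by simp only [V_ap, Prod.fst_sub, Prod.snd_sub]; linarith)
        (by simp only [V_ap, Prod.snd_sub]; linarith) s2 s3 s4 he2
      rw [inner_neg_left, in_cmb, hN, ← V_ap]
      linarith
    · rw [neg_apply, inner_neg_left, add_apply,
        inner_add_left, ContinuousLinearMap.comp_apply, cL_ap, in_cmb]
      simp [dot, V_ap, inner_add_left, inner_smul_left]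

end Pool.Agent.P.MP_2b44f0_gt.PD
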