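import Pool.Agent.P.MP_2b44f0_gt.PD.IfC

/-! Step FJET. -/

namespace Pool.Agent.P.MP_2b44f0_gt.PD

open MeasureTheory Set Filter Asymptotics
open scoped ENNReal RealInnerProductSpace Topology

theorem c_FJET (hFRAME : Q_FRAME) (hTAYL : Q_TAYL) (hGEO : Q_GEO) :
    Q_FJET := by
  intro ι _ n C U F h φ hφ
  obtain ⟨ρ, K, hρ, hK, hT⟩ := hTAYL ι ℝ φ U (lk C) h.chart.isOpen h.compact h.lk_sub hφ
  obtain ⟨G, hG, hS⟩ := hGEO ι n C U F h
  refine ⟨3 * K + 2 * K / ρ ^ 2 + K / ρ + K * G, fun x hx => ?_⟩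
  obtain ⟨-, t1, -, t2⟩ := hT x hx
  obtain ⟨-, -, s1⟩ := hS x hx
  have hU := h.lk_sub hx
  have hν := h.norm_normal hU
  have hνx := h.normal_self hx.1 (lk_ne hx)
  set g := gradient φ x with hg
  set ν := normal F x with hνd
  have hL : ∀ v, fderiv ℝ φ x v = ⟪g, v⟫ := fun v => by
    rw [hg, gradient, InnerProductSpace.toDual_symm_apply]
  have hgn : ‖g‖ ≤ K := by rwa [hg, gradient, LinearIsometryEquiv.norm_map]
  have hα : |⟪x, g⟫| ≤ K := (abs_real_inner_le_norm _ _).trans (by rw [lk_norm hx]; linarith)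
  have hβ : |⟪ν, g⟫| ≤ K := (abs_real_inner_le_norm _ _).trans (by rw [hν]; linarith)
  have hdec : ∀ z ∈ lk C, fderiv ℝ φ x (z - x) =
      ⟪prT F x g, z - x⟫ - ⟪x, g⟫ * (‖z - x‖ ^ 2 / 2) + ⟪ν, g⟫ * ⟪ν, z⟫ := fun z hz => by
    rw [hL, lk_dist hx hz, prT, ← hνd]
    simp only [inner_sub_left, inner_sub_right, real_inner_smul_left, lk_inner hx, hνx]
    ring
  have p1 : 0 ≤ 2 * K / ρ ^ 2 := by positivity
  have p2 : 0 ≤ K / ρ := by positivity
  have p3 : 0 ≤ K * G := by positivity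
  refine ⟨?_, fun z hz => ?_, InnerProductSpace.continuousLinearMapOfBilin (𝕜 := ℝ)
    (fderiv ℝ (fderiv ℝ φ) x) - ⟪x, g⟫ • 1 - ⟪ν, g⟫ • shape F x, fun e he => ?_, fun η hη => ?_⟩
  · have := norm_sub_le (g - ⟪x, g⟫ • x) (⟪ν, g⟫ • ν)
    have := norm_sub_le g (⟪x, g⟫ • x)
    simp only [norm_smul, Real.norm_eq_abs, lk_norm hx, hν, mul_one] at *
    rw [prT]
    linarith
  · have q0 := sq_nonneg ‖z - x‖
    have a1 : |φ z - φ x - fderiv ℝ φ x (z - x)| ≤ (K + 2 * K / ρ ^ 2 + K / ρ) * ‖z - x‖ ^ 2 := by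
      rcases le_total ‖z - x‖ ρ with c | c
      · have := (t2 _ c).2.2.1
        rw [add_sub_cancel, Real.norm_eq_abs] at this
        nlinarith
      · have b1 := (hT x hx).1
        have b2 := (hT z hz).1
        have b3 := (fderiv ℝ φ x).le_of_opNorm_le t1 (z - x)
        have b4 : 2 * K ≤ 2 * K / ρ ^ 2 * ‖z - x‖ ^ 2 := by
          rw [div_mul_eq_mul_div, le_div_iff₀ (by positivity)]
          gcongr
        have b5 : K * ‖z - x‖ ≤ K / ρ * ‖z - x‖ ^ 2 := by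
          rw [div_mul_eq_mul_div, le_div_iff₀ hρ, sq, mul_assoc]
          gcongr
        rw [Real.norm_eq_abs, abs_le] at b1 b2 b3
        rw [abs_le]
        constructor <;> nlinarith [mul_nonneg hK q0]
    have a2 : |⟪x, g⟫ * (‖z - x‖ ^ 2 / 2)| ≤ K * ‖z - x‖ ^ 2 := by
      rw [abs_mul, abs_of_nonneg (a := ‖z - x‖ ^ 2 / 2) (by positivity)]
      gcongr
      linarith
    have a3 : |⟪ν, g⟫ * ⟪ν, z⟫| ≤ K * (G * ‖z - x‖ ^ 2) := by
      rw [abs_mul]
      gcongr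
      exact (s1 z hz).2.2.1
    rw [hdec z hz] at a1
    rw [abs_le] at *
    constructor <;> nlinarith [mul_nonneg hK q0]
  · have hF := ((hFRAME ι n x ν h.card (lk_norm hx) hν hνx).1 e he).2
    have h0 := hF (shape F x)
    rw [h.tr_shape hx.1 (lk_ne hx), h.shape_self hx.1 (lk_ne hx), h.shape_normal hU] at h0
    rw [trT, hF, hL, real_inner_comm x g]
    simp only [sub_apply, smul_apply,
      one_apply_eq_self, inner_sub_left, real_inner_smul_left,
      InnerProductSpace.continuousLinearMapOfBilin_apply, he.on, if_true, Finset.sum_sub_distrib,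
      ← Finset.mul_sum, ← h0]
    simp [mul_comm]
  · have hδ : 0 < min ρ (η / (K + K * G + 1)) := lt_min hρ (by positivity)
    filter_upwards [self_mem_nhdsWithin,
      mem_nhdsWithin_of_mem_nhds (Metric.closedBall_mem_nhds x hδ)] with z hz hd
    rw [mem_closedBall_iff_norm, le_min_iff, le_div_iff₀ (by positivity)] at hd
    have a1 := (t2 _ hd.1).2.2.2.1
    rw [add_sub_cancel, Real.norm_eq_abs, hdec z hz, smul_eq_mul] at a1
    have a3 : |⟪ν, g⟫ * (⟪ν, z⟫ + ⟪shape F x (z - x), z - x⟫ / 2)| ≤ K * (G * ‖z - x‖ ^ 3) := by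
      rw [abs_mul]
      gcongr
      exact (s1 z hz).2.2.2
    have a4 : (K + K * G) * ‖z - x‖ ^ 3 ≤ η * ‖z - x‖ ^ 2 := by
      have := norm_nonneg (z - x)
      nlinarith [mul_le_mul_of_nonneg_right hd.2 (sq_nonneg ‖z - x‖), pow_nonneg this 3]
    generalize z - x = v at a1 a3 a4 ⊢
    simp only [sub_apply, smul_apply, one_apply_eq_self, inner_sub_left, real_inner_smul_left,
      InnerProductSpace.continuousLinearMapOfBilin_apply, real_inner_self_eq_norm_sq]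
    rw [abs_le] at a1 a3
    linarith [a1.1, a3.1]

end Pool.Agent.P.MP_2b44f0_gt.PD
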