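import Pool.Agent.P.MP_2b44f0_gt.PD.IfC
import Pool.Agent.P.MP_2b44f0_gt.Lower

/-! Step HK. -/

namespace Pool.Agent.P.MP_2b44f0_gt.PD

open MeasureTheory Set Filter Asymptotics
open scoped ENNReal RealInnerProductSpace Topology

theorem c_HK (hHOM : Q_HOM) (hTUBE : Q_TUBE) (hFIN : Q_FIN) (hLOW2 : Q_LOW2) :
    Q_HK := by
  intro ι _ m C U F h V hV hV0 hVi
  obtain ⟨c₀, hc₀, hlow⟩ := hLOW2 ι _ C U F h
  obtain ⟨-, hae, -, hint⟩ := hFIN ι _ C U F h
  have hcard : Fintype.card ι = 2 * m + 1 + 1 := h.card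
  obtain ⟨c, hc, hhom, hle, hmax⟩ := Lower.exists_support h.closed h.cone (by
    obtain ⟨z, hz, -⟩ := hlow 0
    exact ⟨z, hz.1, lk_ne hz⟩)
  have hpos : ∀ y, y ≠ 0 → 0 < c y := fun y hy => by
    obtain ⟨z, hz, h1⟩ := hlow y
    have h2 := hle y z hz.1
    rw [lk_norm hz, mul_one] at h2
    exact (mul_pos hc₀ (norm_pos_iff.2 hy)).trans_le (h1.trans h2)
  let Q : Set (E ι × E ι) := {p | c p.2 = ‖p.1‖}
  let W : Set (E ι) := (Metric.ball 0 1 ∩ {0}ᶜ) ∩ U
  have hQ : MeasurableSet Q :=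
    (isClosed_eq (hc.comp continuous_snd) continuous_fst.norm).measurableSet
  have hW : MeasurableSet W :=
    (measurableSet_ball.inter (measurableSet_singleton _).compl).inter h.chart.isOpen.measurableSet
  have hω : Measurable (wgt (2 * m + 1) c) :=
    ((hc.measurable.pow_const _).div (measurable_norm.pow_const _)).ennreal_ofReal
  have hline : ∀ x ∈ C ∩ W, lineInt F Q (wgt (2 * m + 1) c) x ≤
      ENNReal.ofReal (V (‖x‖⁻¹ • x)) := by
    rintro x ⟨hx, ⟨-, hx0⟩, hU⟩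
    replace hx0 : x ≠ 0 := hx0
    have hxp := norm_pos_iff.2 hx0
    have h5 := h.norm_normal hU
    have h8 := h.normal_self hx hx0
    have hl := h.mem_lk hx hx0
    obtain ⟨e1, e2, -⟩ := hHOM ι _ C U F h x hx hx0 _ (inv_pos.2 hxp)
    have hD : MeasurableSet {s : ℝ | (x, x + s • normal F x) ∈ Q} :=
      (by fun_prop : Measurable fun s : ℝ => (x, x + s • normal F x)) hQ
    rw [lineInt, setLIntegral_congr_fun hD (g := fun s => ENNReal.ofReal
      (‖x‖ ^ (2 * m + 1) / ‖x + s • normal F x‖ ^ (2 * m + 1 + 1)) *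
        ENNReal.ofReal |(1 + s • shape F x).det|) (fun s hs => by
          have hs' : c (x + s • normal F x) = ‖x‖ := hs
          simp only [wgt, hs']), all_line ι m x _ _ _ hx0 h5 h8]
    refine le_trans ?_ (hVi _ hl)
    rw [e1, e2, inv_inv]
    refine lintegral_mono_set fun ξ hξ z hz => ?_
    have hs' : c (x + (‖x‖ * ξ) • normal F x) = ‖x‖ := hξ
    have h1 : c (‖x‖⁻¹ • x + ξ • normal F x) = 1 := by
      have := hhom (x + (‖x‖ * ξ) • normal F x) _ (inv_pos.2 hxp)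
      rwa [hs', smul_add, smul_smul, ← mul_assoc, inv_mul_cancel₀ hxp.ne', one_mul] at this
    have := Lower.near (C := C) (x := ‖x‖⁻¹ • x) (w := ξ • normal F x) (by
      rw [inner_smul_right, real_inner_smul_left, real_inner_comm, h8, mul_zero, mul_zero])
      (fun z hz => (hle _ z hz).trans_eq (by rw [h1, lk_norm hl])) z hz
    rwa [norm_smul, h5, mul_one, Real.norm_eq_abs] at this
  have hne : Nonempty ι := Fintype.card_pos_iff.1 (by omega)
  have hm : Measurable fun y : E ι => ‖y‖⁻¹ • y := by fun_prop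
  calc Kc ι ≤ ∫⁻ y in {y | 0 < c y} ∩ Metric.ball 0 1, ENNReal.ofReal ‖y‖⁻¹ :=
        lintegral_mono_set' ((Measure.ae_ne volume (0 : E ι)).mono fun y hy h => ⟨hpos y hy, h⟩)
    _ = ∫⁻ y in {y | 0 < c y ∧ c y < 1}, wgt (2 * m + 1) c y :=
        (all_polar ι (2 * m + 1) c hcard (by omega) hc.measurable hhom).symm
    _ ≤ ∫⁻ y in Reach C W F Q, wgt (2 * m + 1) c y := by
        refine lintegral_mono_set fun y hy => ?_
        obtain ⟨x₀, hx₀, hn, e⟩ := hmax y
        have hx := h.cone x₀ hx₀ _ hy.1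
        have hnx : ‖c y • x₀‖ = c y := by
          rw [norm_smul, hn, mul_one, Real.norm_of_nonneg hy.1.le]
        have hx0 : c y • x₀ ≠ 0 := norm_pos_iff.1 (hnx.symm ▸ hy.1)
        have hU := h.cover _ hx hx0
        obtain ⟨s, hs, -⟩ := all_near all_shape (all_curve all_shape) ι C U F h.chart _ ⟨hU, hx⟩
          (y - c y • x₀) (Lower.near (by
            rw [real_inner_smul_left, inner_sub_right, inner_smul_right,
              real_inner_self_eq_norm_sq, hn, real_inner_comm, ← e]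
            ring) fun z hz => by
            rw [add_sub_cancel, hnx]
            exact hle y z hz)
        exact ⟨_, ⟨hx, ⟨mem_ball_zero_iff.2 (hnx.symm ▸ hy.2), hx0⟩, hU⟩, s,
          by rw [← hs]; simp, hnx.symm⟩
    _ ≤ ∫⁻ x in C ∩ W, lineInt F Q (wgt (2 * m + 1) c) x ∂μHE[2 * m + 1] :=
        (hTUBE ι (2 * m + 1) C U F hcard h.chart h.closed W Q _ hW inter_subset_right hQ hω).2.1
    _ ≤ ∫⁻ x in C ∩ W, ENNReal.ofReal (V (‖x‖⁻¹ • x)) ∂μHE[2 * m + 1] :=
        setLIntegral_mono' (h.closed.measurableSet.inter hW) hline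
    _ ≤ ∫⁻ x in C ∩ Metric.ball 0 1, ENNReal.ofReal (V (‖x‖⁻¹ • x)) ∂μHE[2 * m + 1] :=
        lintegral_mono_set fun x hx => ⟨hx.1, hx.2.1.1⟩
    _ = ∫⁻ x, ENNReal.ofReal (V x) ∂lm (2 * m) C :=
        (lintegral_map' (hint V hV).aemeasurable.ennreal_ofReal hm.aemeasurable).symm
    _ = _ := (ofReal_integral_eq_lintegral_ofReal (hint V hV) (hae.mono hV0)).symm

end Pool.Agent.P.MP_2b44f0_gt.PD
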