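import Pool.Agent.P.MP_2b44f0_gt.PD.IfC

/-! Step INT. -/

namespace Pool.Agent.P.MP_2b44f0_gt.PD

open MeasureTheory Set Filter Asymptotics
open scoped ENNReal RealInnerProductSpace Topology

namespace INTx

variable {ι : Type} [Fintype ι] {n : ℕ} {x ν : E ι} {e : Fin n → E ι}

theorem inner_comb (he : Frame n x ν e) (t : Fin n → ℝ) (j : Fin n) :
    ⟪e j, ∑ i, t i • e i⟫ = t j := by
  simp [inner_sum, real_inner_smul_right, he.on]

theorem inner_comb' (t : Fin n → ℝ) (p : E ι) : ⟪p, ∑ i, t i • e i⟫ = ∑ i, ⟪p, e i⟫ * t i := by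
  simp [inner_sum, real_inner_smul_right, mul_comm]

theorem inner_two (he : Frame n x ν e) (t s : Fin n → ℝ) :
    ⟪∑ i, s i • e i, ∑ i, t i • e i⟫ = ∑ i, s i * t i := by
  simp only [sum_inner, real_inner_smul_left, inner_comb he]

theorem tan_comb {F : E ι → ℝ} (he : Frame n x (normal F x) e) (t : Fin n → ℝ) :
    Tan F x (∑ i, t i • e i) := by
  constructor <;> simp [inner_sum, real_inner_smul_right, he.px, he.pn]

theorem map_comb {B : E ι →L[ℝ] E ι} {μ : Fin n → ℝ} (hμ : ∀ i, B (e i) = μ i • e i)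
    (t : Fin n → ℝ) : B (∑ i, t i • e i) = ∑ i, (μ i * t i) • e i := by
  simp [map_sum, hμ, smul_smul, mul_comm]

/-- the optimal choice of the free vector in the jet inequality -/
theorem opt {F : E ι → ℝ} (he : Frame n x (normal F x) e) {B : E ι →L[ℝ] E ι} {μ : Fin n → ℝ}
    (hμ : ∀ i, B (e i) = μ i • e i) {k c T : ℝ} {p : E ι} (hk : ∀ i, 0 < k + μ i)
    (h : ∀ u, Tan F x u → c + 4 * ⟪p, u⟫ - 2 * (k * ‖u‖ ^ 2 + ⟪B u, u⟫) ≤ T) :
    c + ∑ i, 2 * ⟪p, e i⟫ ^ 2 / (k + μ i) ≤ T := by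
  have := h _ (tan_comb he fun i => ⟪p, e i⟫ / (k + μ i))
  rw [← real_inner_self_eq_norm_sq, map_comb hμ, inner_two he, inner_two he, inner_comb'] at this
  refine le_trans (le_of_eq ?_) this
  simp only [Finset.mul_sum, ← Finset.sum_add_distrib, add_sub_assoc, ← Finset.sum_sub_distrib]
  congr 1
  refine Finset.sum_congr rfl fun i _ => ?_
  have := (hk i).ne'
  field_simp
  ring

theorem fd_eq (f : W → ℝ) (w v : W) : fderiv ℝ f w v = dot (gr f w) v := by
  have : v = v.1 • ((1, 0, 0) : W) + v.2.1 • ((0, 1, 0) : W) + v.2.2 • ((0, 0, 1) : W) := by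
    ext <;> simp
  conv_lhs => rw [this]
  simp only [map_add, map_smul, smul_eq_mul, dot, gr]
  ring

theorem inner_cmb (a : W) (g p q h : E ι) :
    ⟪cmb a g p q, h⟫ = dot a (⟪g, h⟫, ⟪p, h⟫, ⟪q, h⟫) := by
  simp [cmb, dot, inner_add_left, real_inner_smul_left]

theorem tan_cmb {F : E ι → ℝ} (a : W) {g p q : E ι} (hg : Tan F x g) (hp : Tan F x p)
    (hq : Tan F x q) : Tan F x (cmb a g p q) := ((hg.smul _).add (hp.smul _)).add (hq.smul _)

theorem tan_minus {F : E ι → ℝ} {g : E ι} (hg : Tan F x g) : Tan F x (-g) := by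
  simpa using hg.smul (-1)

theorem cont_dot {α : Type} [TopologicalSpace α] {s : Set α} {a b : α → W} (ha : ContinuousOn a s)
    (hb : ContinuousOn b s) : ContinuousOn (fun z => dot (a z) (b z)) s :=
  ((ha.fst.mul hb.fst).add (ha.snd.fst.mul hb.snd.fst)).add (ha.snd.snd.mul hb.snd.snd)

theorem adm_le {μ : Fin n → ℝ} {w : W} (h : Adm n μ w) : 0 ≤ w.1 ∧ w.1 ≤ n * w.2.1 * w.2.2 := by
  refine ⟨h.sq ▸ Finset.sum_nonneg fun i _ => sq_nonneg _, ?_⟩
  have h1 : 0 ≤ ∑ i, (w.2.1 + μ i) * (w.2.2 - μ i) :=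
    Finset.sum_nonneg fun i _ => (mul_pos (h.lo i) (h.hi i)).le
  have h2 : ∀ i, (w.2.1 + μ i) * (w.2.2 - μ i) =
      w.2.1 * w.2.2 + (w.2.2 - w.2.1) * μ i - μ i ^ 2 := fun i => by ring
  simp only [h2, Finset.sum_sub_distrib, Finset.sum_add_distrib, ← Finset.mul_sum, h.sum, h.sq,
    Finset.sum_const, Finset.card_univ, Fintype.card_fin, nsmul_eq_mul] at h1
  linarith

end INTx

open INTx in
theorem c_INT (hFRAME : Q_FRAME) (hGEO : Q_GEO) (hMAX : Q_MAX) (hEST : Q_EST) (hSEMI : Q_SEMI)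
    (hJET : Q_JET) (hFIN : Q_FIN) (hKER : Q_KER) (hSIM : Q_SIM) (hFJET : Q_FJET)
    (hCOMP3 : Q_COMP3) (hSOFT : Q_SOFT) (hLOW3 : Q_LOW3) : Q_INT := by
  intro ι _ m C U F h hst V₀ Ω a f hc
  obtain ⟨K₁, hK₁, hG⟩ := hGEO ι _ C U F h
  obtain ⟨a₁, b₁, e₁, ha₁, he₁, hL₁⟩ := hLOW3 ι _ C U F h
  obtain ⟨a₂, b₂, e₂, ha₂, he₂, hL₂⟩ := hLOW3 ι _ C U (-F) h.neg
  obtain ⟨K₃, e₃, hK₃, he₃, hE₃⟩ := hEST ι _ C U F h
  obtain ⟨K₄, e₄, hK₄, he₄, hE₄⟩ := hEST ι _ C U (-F) h.neg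
  obtain ⟨e₅, he₅, hS₅⟩ := hSEMI ι _ C U F h
  obtain ⟨e₆, he₆, hS₆⟩ := hSEMI ι _ C U (-F) h.neg
  obtain ⟨e₇, he₇, hS₇⟩ := hSOFT ι _ C U F h hst
  obtain ⟨K₈, hF₈⟩ := hFJET ι _ C U F h _ h.sm_sqCurv
  obtain ⟨hfin, hae, -, hint⟩ := hFIN ι _ C U F h
  obtain ⟨A, hA⟩ : ∃ A : ℝ, ∀ w ∈ (Icc 0 K₁ ×ˢ Icc a₁ (b₁ + 1) ×ˢ Icc a₂ (b₂ + 1) : Set W) ∩
      {w | w.1 ≤ 2 * m * w.2.1 * w.2.2}, ‖a w‖ ≤ A :=
    ((isCompact_Icc.prod (isCompact_Icc.prod isCompact_Icc)).inter_right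
      (isClosed_le (by fun_prop) (by fun_prop))).exists_bound_of_continuousOn
      (hc.ca.continuousOn.mono fun w hw => hc.mem w hw.1.1.1 (ha₁.trans_le hw.1.2.1.1)
        (ha₂.trans_le hw.1.2.2.1) hw.2)
  refine ⟨2 * A * (1 + 2 * m + K₁) * (lm (2 * m) C).real univ, fun η hη hη1 => ?_⟩
  obtain ⟨e₈, he₈, hJ₁⟩ := hJET ι _ C U F h η hη
  obtain ⟨e₉, he₉, hJ₂⟩ := hJET ι _ C U (-F) h.neg η hη
  have hKK : 0 < K₃ + K₄ + 1 := by positivity
  refine ⟨min (min (min e₁ e₂) (min e₃ e₄)) (min (min (min e₅ e₆) e₇) (min (min e₈ e₉)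
    ((η / (K₃ + K₄ + 1)) ^ 2))), by positivity, fun ε hε hle => ?_⟩
  simp only [le_min_iff] at hle
  obtain ⟨⟨⟨l₁, l₂⟩, l₃, l₄⟩, ⟨⟨l₅, l₆⟩, l₇⟩, ⟨l₈, l₉⟩, l₀⟩ := hle
  have hsq : (K₃ + K₄ + 1) * √ε ≤ η := by
    rw [← le_div_iff₀' hKK]; exact Real.sqrt_le_iff.2 ⟨by positivity, l₀⟩
  have hsq0 : 0 < √ε := Real.sqrt_pos.2 hε
  obtain ⟨c₅, K₅, hS₅⟩ := hS₅ ε hε l₅
  obtain ⟨c₆, K₆, hS₆⟩ := hS₆ ε hε l₆
  have hcs : ContinuousOn (sqCurv F) (lk C) := h.sm_sqCurv.continuousOn.mono h.lk_sub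
  have hcw : ContinuousOn (stt C F ε η) (lk C) :=
    hcs.prodMk ((c₅.add continuousOn_const).prodMk (c₆.add continuousOn_const))
  have hfr := fun x (hx : x ∈ lk C) => hFRAME ι _ x (normal F x) h.card (lk_norm hx)
    (h.norm_normal (h.lk_sub hx)) (h.normal_self hx.1 (lk_ne hx))
  have hM₁ := fun x hx => hMAX ι _ C U F h ε hε x hx
  have hM₂ := fun x hx => hMAX ι _ C U (-F) h.neg ε hε x hx
  have hadm : ∀ x ∈ lk C, ∃ (e : Fin (2 * m) → E ι) (μ : Fin (2 * m) → ℝ),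
      Frame (2 * m) x (normal F x) e ∧ (∀ i, shape F x (e i) = μ i • e i) ∧
      Adm (2 * m) μ (stt C F ε η x) := by
    intro x hx
    have hxU := h.lk_sub hx
    obtain ⟨e, μ, he, hμ⟩ := (hfr x hx).2 _ (h.symm hxU) (h.shape_self hx.1 (lk_ne hx))
      (h.shape_normal hxU)
    have htr := ((hfr x hx).1 e he).2
    have e1 : ∀ i, ⟪e i, e i⟫ = 1 := fun i => by rw [he.on, if_pos rfl]
    obtain ⟨y, hy⟩ := (hM₁ x hx).1
    obtain ⟨y', hy'⟩ := (hM₂ x hx).1
    refine ⟨e, μ, he, hμ, ?_, ?_, fun i => ?_, fun i => ?_, ?_, ?_⟩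
    · have := htr (shape F x)
      simp only [h.tr_shape hx.1 (lk_ne hx), h.shape_self hx.1 (lk_ne hx), h.shape_normal hxU,
        inner_zero_left, sub_zero, hμ, real_inner_smul_left, e1, mul_one] at this
      exact this.symm
    · have := htr ((shape F x).comp (shape F x))
      simp only [ContinuousLinearMap.comp_apply, h.shape_self hx.1 (lk_ne hx), h.shape_normal hxU,
        map_zero, inner_zero_left, sub_zero, hμ, map_smul, real_inner_smul_left, e1, mul_one,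
        ← sq] at this
      exact this.symm
    · have := (hE₃ ε hε l₃ x hx y hy).2.2.1 (e i) ⟨he.px i, he.pn i⟩
      rw [hμ, real_inner_smul_left, ← real_inner_self_eq_norm_sq, e1, ← (hM₁ x hx).2.1 y hy] at this
      change 0 < kap C F ε x + η + μ i
      nlinarith
    · have := (hE₄ ε hε l₄ x hx y' hy').2.2.1 (e i) ((tan_neg F x _).2 ⟨he.px i, he.pn i⟩)
      rw [shape_neg, neg_apply, inner_neg_left, hμ, real_inner_smul_left,
        ← real_inner_self_eq_norm_sq, e1, ← (hM₂ x hx).2.1 y' hy'] at this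
      change 0 < kap C (-F) ε x + η - μ i
      nlinarith
    · exact add_pos (ha₁.trans_le (hL₁ ε hε l₁ x hx).1) hη
    · exact add_pos (ha₂.trans_le (hL₂ ε hε l₂ x hx).1) hη
  have hΩ : ∀ x ∈ lk C, stt C F ε η x ∈ Ω := fun x hx => by
    obtain ⟨e, μ, -, -, ha⟩ := hadm x hx
    exact hc.mem _ (adm_le ha).1 ha.k1 ha.k2 (by simpa using (adm_le ha).2)
  have hbd : ∀ x ∈ lk C, ‖a (stt C F ε η x)‖ ≤ A := fun x hx => by
    obtain ⟨e, μ, -, -, ha⟩ := hadm x hx
    have h1 := hL₁ ε hε l₁ x hx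
    have h2 := hL₂ ε hε l₂ x hx
    exact hA _ ⟨⟨⟨(adm_le ha).1, (le_abs_self _).trans (hG x hx).2.1⟩,
      ⟨le_add_of_le_of_nonneg h1.1 hη.le, add_le_add h1.2 hη1⟩,
      ⟨le_add_of_le_of_nonneg h2.1 hη.le, add_le_add h2.2 hη1⟩⟩, by simpa using (adm_le ha).2⟩
  refine ⟨hcw, hadm, ?_⟩
  obtain ⟨G, hGi, hG1, hG2⟩ := hS₇ ε hε l₇ η Ω f hc.isOpen hc.cf hΩ
  have hca : ContinuousOn (fun x => a (stt C F ε η x)) (lk C) := hc.ca.continuousOn.comp hcw hΩ
  obtain ⟨K', hK'⟩ := hCOMP3 ι C (stt C F ε η) Ω a (|K₈| + |K₅| + |K₆|)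
    (fun x j => j.1 = prT F x (gradient (sqCurv F) x) ∧ (∃ y, IsMx C F ε x y ∧ j.2.1 = pv F ε x y) ∧
      ∃ y', IsMx C (-F) ε x y' ∧ j.2.2 = pv (-F) ε x y') h.closed hc.isOpen hc.ca
    (fun x hx => by
      obtain ⟨e, μ, -, -, ha⟩ := hadm x hx
      exact ⟨hΩ x hx, hc.pos μ _ ha⟩)
    (fun x hx => by
      obtain ⟨y, hy⟩ := (hM₁ x hx).1
      obtain ⟨y', hy'⟩ := (hM₂ x hx).1
      exact ⟨(_, _, _), rfl, ⟨y, hy, rfl⟩, y', hy', rfl⟩)
    (by
      rintro x hx ⟨g, p, q⟩ ⟨rfl, ⟨y, hy, rfl⟩, y', hy', rfl⟩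
      have p8 := abs_nonneg K₈
      have p5 := abs_nonneg K₅
      have p6 := abs_nonneg K₆
      have q8 := le_abs_self K₈
      have q5 := le_abs_self K₅
      have q6 := le_abs_self K₆
      refine ⟨?_, fun z hz => ?_⟩
      · simp only [Prod.norm_def, max_le_iff]
        exact ⟨by linarith [(hF₈ x hx).1], by linarith [(hS₅ x hx y hy).1],
          by linarith [(hS₆ x hx y' hy').1]⟩
      · have r := sq_nonneg ‖z - x‖
        have r8 := (hF₈ x hx).2.1 z hz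
        have r5 := (hS₅ x hx y hy).2 z hz
        have r6 := (hS₆ x hx y' hy').2 z hz
        simp only [stt]
        exact ⟨by nlinarith, by nlinarith, by nlinarith⟩)
  obtain ⟨Ef, hEf⟩ : ∃ Ef : E ι → ℝ, Ef = fun x => (2 * m - sqCurv F x) * dot (a (stt C F ε η x))
    (2 * (stt C F ε η x).1, (stt C F ε η x).2.1, (stt C F ε η x).2.2) := ⟨_, rfl⟩
  have hEi : Integrable Ef (lm (2 * m) C) := hint _ (hEf ▸ (continuousOn_const.sub hcs).mul
    (cont_dot hca ((continuousOn_const.mul hcw.fst).prodMk (hcw.snd.fst.prodMk hcw.snd.snd))))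
  have key : 0 ≤ ∫ x, (2 * A * (1 + 2 * m + K₁) * η - Ef x - G x) ∂lm (2 * m) C := by
    refine hKER ι _ C U F h (fun x z => -dot (a (stt C F ε η x) + a (stt C F ε η z))
      (stt C F ε η z - stt C F ε η x) / 2) _ K' ?_ (fun x _ z _ => le_of_eq ?_)
      (((integrable_const _).sub hEi).sub hGi) (fun x hx => ?_) (fun x hx => ?_)
    · have c1 : ContinuousOn (fun q : E ι × E ι => stt C F ε η q.1) (lk C ×ˢ lk C) :=
        hcw.comp continuousOn_fst fun _ h => h.1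
      have c2 : ContinuousOn (fun q : E ι × E ι => stt C F ε η q.2) (lk C ×ˢ lk C) :=
        hcw.comp continuousOn_snd fun _ h => h.2
      have c3 : ContinuousOn (fun q : E ι × E ι => a (stt C F ε η q.1)) (lk C ×ˢ lk C) :=
        hca.comp continuousOn_fst fun _ h => h.1
      have c4 : ContinuousOn (fun q : E ι × E ι => a (stt C F ε η q.2)) (lk C ×ˢ lk C) :=
        hca.comp continuousOn_snd fun _ h => h.2
      exact (cont_dot (c3.add c4) (c2.sub c1)).neg.div_const _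
    · simp only [dot, Prod.fst_add, Prod.snd_add, Prod.fst_sub, Prod.snd_sub]
      ring
    · obtain ⟨y, hy⟩ := (hM₁ x hx).1
      obtain ⟨y', hy'⟩ := (hM₂ x hx).1
      obtain ⟨k1, k2, -⟩ := hK' x hx (prT F x (gradient (sqCurv F) x), pv F ε x y, pv (-F) ε x y')
        ⟨rfl, ⟨y, hy, rfl⟩, y', hy', rfl⟩
      exact ⟨_, tan_minus (tan_cmb _ (h.tan_prT hx _) (h.tan_pv hx ε y)
        ((tan_neg F x _).1 (h.neg.tan_pv hx ε y'))), (norm_neg _).trans_le k1, k2⟩
    · obtain ⟨y, y', hy, hy', hGx⟩ := hG2 x hx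
      obtain ⟨e, μ, he, hμ, ha⟩ := hadm x hx
      obtain ⟨M₀, t₀, j₀⟩ := (hF₈ x hx).2.2
      obtain ⟨M₁, j₁, t₁⟩ := hJ₁ ε hε l₈ x hx y hy
      obtain ⟨M₂, j₂, t₂⟩ := hJ₂ ε hε l₉ x hx y' hy'
      have tg := h.tan_prT hx (gradient (sqCurv F) x)
      have tp := h.tan_pv hx ε y
      have tq := (tan_neg F x _).1 (h.neg.tan_pv hx ε y')
      obtain ⟨N, hN, hU⟩ := (hK' x hx (prT F x (gradient (sqCurv F) x), pv F ε x y, pv (-F) ε x y')
        ⟨rfl, ⟨y, hy, rfl⟩, y', hy', rfl⟩).2.2 M₀ M₁ M₂ j₀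
        (fun η' h' => (j₁ η' h').mono fun z hz => by simp only [stt]; linarith)
        (fun η' h' => (j₂ η' h').mono fun z hz => by simp only [stt]; linarith)
      refine ⟨_, N, tan_minus (tan_cmb _ tg tp tq), hU, ?_⟩
      obtain ⟨hexp, htr⟩ := (hfr x hx).1 e he
      replace htr : ∀ M, trT F x M = ∑ i, ⟪M (e i), e i⟫ := htr
      dsimp only at hN
      have u₁ := opt he hμ ha.lo t₁
      have u₂ := opt (B := shape (-F) x) (μ := fun i => -μ i) (k := kap C (-F) ε x + η) he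
        (fun i => by simp [shape_neg, hμ]) ha.hi fun u hu => t₂ u ((tan_neg F x u).2 hu)
      have hd : ∀ u, Tan F x u → fderiv ℝ (sqCurv F) x u =
          ⟪prT F x (gradient (sqCurv F) x), u⟫ := fun u hu => by
        rw [real_inner_comm, hu.inner_prT, real_inner_comm, gradient,
          InnerProductSpace.toDual_symm_apply]
      have hs := fun t : Fin (2 * m) → ℝ => hSIM ι _ C U F h x hx e he _ (tan_comb he t)
      simp only [← t₀ e he, hd _ (tan_comb he _), ← real_inner_self_eq_norm_sq, map_comb hμ,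
        inner_two he, inner_comb'] at hs
      rw [sqCurv_neg, trT_neg] at u₂
      have hpos := hc.pos μ _ ha
      have hlmi := hc.lmi μ _ ha
      have hb := hbd x hx
      have hS := (hG x hx).2.1
      have hsum := ha.sq
      have hnorm : ∀ v, Tan F x v → ‖v‖ ^ 2 = ∑ i, ⟪v, e i⟫ ^ 2 := fun v hv => by
        rw [← real_inner_self_eq_norm_sq]
        conv_lhs => rw [congrArg (inner ℝ v) (hexp v), hv.1, hv.2, zero_smul, zero_smul, zero_add,
          zero_add, inner_comb']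
        simp only [real_inner_comm v, sq]
      rw [hnorm _ (tan_cmb _ tg tp tq)] at hGx
      simp only [inner_cmb] at hGx
      generalize prT F x (gradient (sqCurv F) x) = g at *
      generalize pv F ε x y = p at *
      generalize pv (-F) ε x y' = q at *
      have hc0 : (2 : ℝ) * ((2 * m : ℕ) : ℝ) / (((2 * m : ℕ) : ℝ) + 2) = 2 * m / (m + 1) := by
        push_cast; field_simp
      have hc1 : (0 : ℝ) ≤ 2 * m / (m + 1) := by positivity
      rw [hc0] at hs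
      have hw1 : (stt C F ε η x).1 = sqCurv F x := rfl
      have hw2 : (stt C F ε η x).2.1 = kap C F ε x + η := rfl
      have hw3 : (stt C F ε η x).2.2 = kap C (-F) ε x + η := rfl
      have hz : sqCurv F x = 0 → ∀ i, ⟪g, e i⟫ = 0 := fun h0 i => by
        have hμ0 : ∀ i, μ i = 0 := fun i => pow_eq_zero_iff two_ne_zero |>.1
          ((Finset.sum_eq_zero_iff_of_nonneg fun i _ => sq_nonneg _).1 (hsum.trans h0) i
            (Finset.mem_univ i))
        by_contra hne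
        have := hs (Pi.single i ((trT F x M₀ + 1) / (3 * ⟪g, e i⟫)))
        simp only [h0, hμ0, zero_mul, mul_zero, Finset.sum_const_zero, add_zero, sub_zero, zero_add,
          Pi.single_apply, mul_ite, Finset.sum_ite_eq', Finset.mem_univ, if_true] at this
        field_simp at this
        linarith
      have u₀ : 2 * sqCurv F x * (2 * m - sqCurv F x) +
          ∑ i, 3 / 2 * ⟪g, e i⟫ ^ 2 / (sqCurv F x + 2 * m / (m + 1) * μ i ^ 2) ≤ trT F x M₀ := by
        refine le_trans (le_of_eq ?_)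
          (hs fun i => ⟪g, e i⟫ / (sqCurv F x + 2 * m / (m + 1) * μ i ^ 2))
        simp only [Finset.mul_sum, ← Finset.sum_add_distrib, add_sub_assoc,
          ← Finset.sum_sub_distrib]
        push_cast
        congr 1
        refine Finset.sum_congr rfl fun i _ => ?_
        generalize 2 * (m : ℝ) / (m + 1) = c
        rcases eq_or_ne (sqCurv F x + c * μ i ^ 2) 0 with h0 | h0
        · simp [h0]
        · field_simp
          ring
      have hl := Finset.sum_le_sum fun i (_ : i ∈ Finset.univ) =>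
        hlmi i (⟪g, e i⟫, ⟪p, e i⟫, ⟪q, e i⟫) fun h0 => hz h0 i
      have hNt : trT F x N = -(dot (a (stt C F ε η x)) (trT F x M₀, trT F x M₁, trT F x M₂) +
          ∑ i, dot (fderiv ℝ a (stt C F ε η x) (⟪g, e i⟫, ⟪p, e i⟫, ⟪q, e i⟫))
            (⟪g, e i⟫, ⟪p, e i⟫, ⟪q, e i⟫)) := by
        simp only [htr, hN, Finset.sum_neg_distrib, Finset.sum_add_distrib]
        congr 2
        simp only [dot, Finset.mul_sum, Finset.sum_add_distrib]
      rw [hNt, hEf]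
      simp only [hw1, hw2, hw3, mul_assoc (2 * _), mul_div_assoc, Finset.sum_add_distrib,
        ← Finset.mul_sum, ← sub_eq_add_neg] at hl u₀ u₁ u₂ ⊢
      simp only [Prod.norm_def, max_le_iff, Real.norm_eq_abs] at hb
      have v₀ := mul_le_mul_of_nonneg_left u₀ hpos.1
      have v₁ := mul_le_mul_of_nonneg_left u₁ hpos.2.1.le
      have v₂ := mul_le_mul_of_nonneg_left u₂ hpos.2.2.le
      have hm : 1 + 2 * m - sqCurv F x ≤ 1 + 2 * m + K₁ := by linarith [(abs_le.1 hS).1]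
      have w₀ : 0 ≤ 1 + 2 * (m : ℝ) + K₁ := by positivity
      have w₁ := mul_le_mul_of_nonneg_left hm (mul_pos hpos.2.1 hη).le
      have w₂ := mul_le_mul_of_nonneg_left hm (mul_pos hpos.2.2 hη).le
      have w₃ := mul_le_mul_of_nonneg_right ((le_abs_self _).trans hb.2.1) (mul_nonneg hη.le w₀)
      have w₄ := mul_le_mul_of_nonneg_right ((le_abs_self _).trans hb.2.2) (mul_nonneg hη.le w₀)
      push_cast at v₁ v₂
      simp only [fd_eq] at hl
      simp only [dot] at hGx hl ⊢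
      linarith
  have hfi : Integrable (fun x => (sqCurv F x - (2 * m - 1) ^ 2 / 4) * f (stt C F ε η x) ^ 2)
      (lm (2 * m) C) := hint _ ((hcs.sub continuousOn_const).mul
        ((hc.cf.continuousOn.comp hcw hΩ).pow 2))
  have i1 : Integrable (fun x => 2 * A * (1 + 2 * m + K₁) * η - Ef x) (lm (2 * m) C) :=
    (integrable_const _).sub hEi
  rw [integral_sub i1 hGi, integral_sub (integrable_const _) hEi, integral_const,
    smul_eq_mul] at key
  subst hEf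
  rw [integral_add hEi hfi]
  push_cast at hG1
  linarith

end Pool.Agent.P.MP_2b44f0_gt.PD
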