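import Pool.Agent.P.MP_2b44f0_gt.PD.IfC

/-! Step LOW3. -/

namespace Pool.Agent.P.MP_2b44f0_gt.PD

open MeasureTheory Set Filter Asymptotics
open scoped ENNReal RealInnerProductSpace Topology

theorem c_LOW3 (hMAX : Q_MAX) (hEST : Q_EST) (hLOW2 : Q_LOW2) :
    Q_LOW3 := by
  intro ι _ n C U F h
  obtain ⟨K, ε₀, -, e0, hK⟩ := hEST ι n C U F h
  obtain ⟨c, c0, hc⟩ := hLOW2 ι n C U F h
  refine ⟨c / 4, K, min ε₀ (c / 2), by positivity, by positivity, fun ε e1 e2 x hx => ?_⟩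
  obtain ⟨⟨y, hy⟩, m2, m3⟩ := hMAX ι n C U F h ε e1 x hx
  refine ⟨?_, m2 y hy ▸ (hK ε e1 (e2.trans (min_le_left _ _)) x hx y hy).2.1⟩
  obtain ⟨z, hz, h1⟩ := hc (normal F x)
  rw [h.norm_normal (h.lk_sub hx), mul_one] at h1
  have hne : z ≠ x := fun e => by
    rw [e, h.normal_self hx.1 (lk_ne hx)] at h1
    linarith
  refine le_trans ?_ (m3 z hz hne)
  have h2 := abs_real_inner_le_norm x z
  rw [lk_norm hx, lk_norm hz] at h2
  have h3 := (abs_le.1 h2).1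
  have h4 := e2.trans (min_le_right _ _)
  rw [qv, le_div_iff₀ (lk_D_pos hx hz hne)]
  nlinarith

end Pool.Agent.P.MP_2b44f0_gt.PD
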