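import Pool.Agent.P.MP_2b44f0_gt.PD.IfC

/-! Step MASTER. -/

namespace Pool.Agent.P.MP_2b44f0_gt.PD

open MeasureTheory Set Filter Asymptotics
open scoped ENNReal RealInnerProductSpace Topology

namespace MASTERx

theorem mem {m : ℕ} {V₀ : ℝ} {Ω : Set W} {a : W → W} {f : W → ℝ} (h : Cert m V₀ Ω a f)
    {μ : Fin (2 * m) → ℝ} {w : W} (hw : Adm (2 * m) μ w) : w ∈ Ω := by
  refine h.mem w ?_ hw.k1 hw.k2 ?_
  · rw [← hw.sq]; positivity
  · have h1 : 0 ≤ ∑ i, (w.2.1 + μ i) * (w.2.2 - μ i) :=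
      Finset.sum_nonneg fun i _ => (mul_pos (hw.lo i) (hw.hi i)).le
    have h2 : ∀ i, (w.2.1 + μ i) * (w.2.2 - μ i) =
        w.2.1 * w.2.2 + (w.2.2 - w.2.1) * μ i - μ i ^ 2 := fun i => by ring
    simp only [h2, Finset.sum_sub_distrib, Finset.sum_add_distrib, ← Finset.mul_sum, hw.sum, hw.sq,
      Finset.sum_const, Finset.card_univ, Fintype.card_fin, nsmul_eq_mul] at h1
    push_cast at h1
    linarith

theorem lm_univ {ι : Type} [Fintype ι] (n : ℕ) (C : Set (E ι)) :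
    lm n C univ = μHE[n + 1] (C ∩ Metric.ball 0 1) := by
  rw [lm, Measure.map_apply (by fun_prop) MeasurableSet.univ, preimage_univ,
    Measure.restrict_apply_univ]

end MASTERx

theorem c_MASTER (hFIN : Q_FIN) (hHK : Q_HK) (hVCUT : Q_VCUT) (hINT : Q_INT) :
    Q_MASTER := by
  intro ι _ m C U F h hs V₀ Ω a f hc
  obtain ⟨hfin, -, -, hint⟩ := hFIN ι (2 * m) C U F h
  obtain ⟨K2, ε2, hε2, hV⟩ := hVCUT ι m C U F h
  obtain ⟨K1, hI⟩ := hINT ι m C U F h hs V₀ Ω a f hc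
  obtain ⟨M, hM⟩ : ∃ M : ℝ, M = (lm (2 * m) C).real univ := ⟨_, rfl⟩
  have hM0 : 0 ≤ M := by rw [hM]; exact measureReal_nonneg
  have key : ∀ η : ℝ, 0 < η → η ≤ 1 → Kc ι ≤ ENNReal.ofReal (V₀ * M + (K1 + |K2| * M) * η) := by
    intro η hη hη1
    obtain ⟨ε1, hε1, hJ⟩ := hI η hη hη1
    obtain ⟨hw, hA, hT⟩ := hJ (min ε1 ε2) (lt_min hε1 hε2) (min_le_left _ _)
    have hV' := hV (min ε1 ε2) (lt_min hε1 hε2) (min_le_right _ _) η hη
    generalize min ε1 ε2 = ε at hw hA hT hV'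
    have hΩ : MapsTo (stt C F ε η) (lk C) Ω := fun x hx => by
      obtain ⟨e, μ, -, -, h3⟩ := hA x hx
      exact MASTERx.mem hc h3
    have ha : ContinuousOn (fun x => a (stt C F ε η x)) (lk C) := hc.ca.continuousOn.comp hw hΩ
    have hf : ContinuousOn (fun x => f (stt C F ε η x)) (lk C) := hc.cf.continuousOn.comp hw hΩ
    have hS : ContinuousOn (sqCurv F) (lk C) := hw.fst
    obtain ⟨T, hTd⟩ : ∃ T : E ι → ℝ, T = fun x => (2 * m - sqCurv F x) * dot (a (stt C F ε η x))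
          (2 * (stt C F ε η x).1, (stt C F ε η x).2.1, (stt C F ε η x).2.2) +
        (sqCurv F x - (2 * m - 1) ^ 2 / 4) * f (stt C F ε η x) ^ 2 := ⟨_, rfl⟩
    have hTc : ContinuousOn T (lk C) := by
      rw [hTd]
      exact ((continuousOn_const.sub hS).mul (((ha.fst.mul (continuousOn_const.mul hw.fst)).add
        (ha.snd.fst.mul hw.snd.fst)).add (ha.snd.snd.mul hw.snd.snd))).add
        ((hS.sub continuousOn_const).mul (hf.pow 2))
    rw [← hTd] at hT
    have hK : K2 * η ≤ |K2| * η := mul_le_mul_of_nonneg_right (le_abs_self _) hη.le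
    have hK0 : 0 ≤ |K2| * η := by positivity
    have hb : ∀ x ∈ lk C, ∀ μ, Adm (2 * m) μ (stt C F ε η x) →
        vol m μ (kap C F ε x + η) (kap C (-F) ε x + η) ≤ V₀ + T x := by
      intro x _ μ h3
      have := hc.vol μ _ h3
      rw [hTd, ← add_assoc]
      exact this
    refine (hHK ι m C U F h (fun x => T x + (V₀ + |K2| * η)) (by fun_prop) ?_ ?_).trans ?_
    · intro x hx
      obtain ⟨e, μ, h1, h2, h3⟩ := hA x hx
      have a1 := (hV' x hx e μ h1 h2 h3).1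
      have a2 := hb x hx μ h3
      linarith
    · intro x hx
      obtain ⟨e, μ, h1, h2, h3⟩ := hA x hx
      refine (hV' x hx e μ h1 h2 h3).2.trans (ENNReal.ofReal_le_ofReal ?_)
      have a2 := hb x hx μ h3
      linarith
    · refine ENNReal.ofReal_le_ofReal ?_
      rw [integral_add (hint T hTc) (integrable_const _), integral_const, ← hM, smul_eq_mul]
      linarith
  have lim : Tendsto (fun η : ℝ => ENNReal.ofReal (V₀ * M + (K1 + |K2| * M) * η)) (𝓝[>] 0)
      (𝓝 (ENNReal.ofReal (V₀ * M + (K1 + |K2| * M) * 0))) :=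
    ((ENNReal.continuous_ofReal.comp (by fun_prop)).tendsto 0).mono_left nhdsWithin_le_nhds
  have fin := ge_of_tendsto lim (by
    filter_upwards [Ioc_mem_nhdsGT (zero_lt_one' ℝ)] with η hη using key η hη.1 hη.2)
  rwa [mul_zero, add_zero, ENNReal.ofReal_mul' hM0, hM, ofReal_measureReal,
    MASTERx.lm_univ] at fin

end Pool.Agent.P.MP_2b44f0_gt.PD
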