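import Pool.Agent.P.MP_2b44f0_gt.PD.IfC

/-! Step QT. -/

namespace Pool.Agent.P.MP_2b44f0_gt.PD

open MeasureTheory Set Filter Asymptotics
open scoped ENNReal RealInnerProductSpace Topology

namespace QTx

variable {ι : Type} [Fintype ι] {n : ℕ} {C U : Set (E ι)} {F : E ι → ℝ}

theorem exists_th {d : ℝ} (hd : 0 < d) : ∃ th : ℝ → ℝ, ContDiff ℝ 1 th ∧ (∀ t, 0 < th t) ∧
    (∀ t, d ≤ t → th t = t) ∧ ∀ t, t ≤ d → th t ≤ d := by
  refine ⟨fun t => d - Real.smoothTransition (t / d) * (d - t), ?_, fun t => ?_, fun t ht => ?_,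
    fun t ht => ?_⟩
  · have h : ContDiff ℝ ((1 : ℕ∞) : WithTop ℕ∞) Real.smoothTransition :=
      Real.smoothTransition.contDiff
    exact contDiff_const.sub ((h.comp (contDiff_id.div_const d)).mul
      (contDiff_const.sub contDiff_id))
  · have h0 := Real.smoothTransition.nonneg (t / d)
    have h1 := Real.smoothTransition.le_one (t / d)
    rcases le_or_gt t 0 with h | h
    · simp only [Real.smoothTransition.zero_of_nonpos (div_nonpos_of_nonpos_of_nonneg h hd.le)]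
      simpa using hd
    · rcases le_total t d with h' | h'
      · nlinarith [mul_nonneg (sub_nonneg.2 h1) (sub_nonneg.2 h')]
      · nlinarith [mul_nonneg h0 (sub_nonneg.2 h')]
  · simp only [Real.smoothTransition.one_of_one_le ((one_le_div hd).2 ht)]
    ring
  · have := mul_nonneg (Real.smoothTransition.nonneg (t / d)) (sub_nonneg.2 ht)
    linarith

theorem tan_ext {x a b : E ι} (ha : Tan F x a) (hb : Tan F x b)
    (h : ∀ v, Tan F x v → ⟪v, a⟫ = ⟪v, b⟫) : a = b := by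
  have ht : Tan F x (a - b) := by
    have := ha.add (hb.smul (-1))
    rwa [neg_one_smul, ← sub_eq_add_neg] at this
  have h1 := h _ ht
  rw [← sub_eq_zero, ← inner_sub_right, inner_self_eq_zero] at h1
  exact sub_eq_zero.1 h1

theorem grad (h : St n C U F) {ε : ℝ} {x y : E ι} (hx : x ∈ lk C) (hD : 0 < 1 - ⟪x, y⟫)
    {g : E ι → ℝ} (hg : g =ᶠ[𝓝 x] fun x' => qv F ε x' y) :
    prT F x (gradient g x) = pv F ε x y := by
  have hU := h.lk_sub hx
  have hν : HasFDerivAt (normal F) (fderiv ℝ (normal F) x) x :=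
    ((h.sm_normal.contDiffAt (h.chart.isOpen.mem_nhds hU)).differentiableAt
      (by simp)).hasFDerivAt
  refine tan_ext (h.tan_prT hx _) (h.tan_pv hx ε y) fun v hv => ?_
  have h1 : HasFDerivAt (fun x' => ⟪normal F x', y⟫ - ε)
      ((innerSL ℝ y).comp (fderiv ℝ (normal F) x)) x := by
    have := ((innerSL ℝ y).hasFDerivAt.comp x hν).sub_const ε
    refine this.congr_of_eventuallyEq (Eventually.of_forall fun z => ?_)
    simp [real_inner_comm]
  have h2 : HasFDerivAt (fun x' : E ι => 1 - ⟪x', y⟫) (-(innerSL ℝ y)) x := by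
    have := ((innerSL ℝ y).hasFDerivAt (x := x)).const_sub 1
    refine this.congr_of_eventuallyEq (Eventually.of_forall fun z => ?_)
    simp [real_inner_comm]
  have h3 := (hasDerivAt_inv hD.ne').comp_hasFDerivAt x h2
  have h4 := (h1.mul h3).congr_of_eventuallyEq (hg.trans (Eventually.of_forall fun z => by
    simp [qv, div_eq_mul_inv]))
  have h5 : shape F x v = fderiv ℝ (normal F) x v := by
    simp [shape, tangentProj, hv.2]
  have h6 : ⟪v, gradient g x⟫ = fderiv ℝ g x v := by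
    rw [real_inner_comm]; simp [gradient]
  have h7 : ⟪v, shape F x (prT F x y)⟫ = ⟪y, fderiv ℝ (normal F) x v⟫ := by
    rw [h.shape_prT hx, ← h.symm hU, h5, real_inner_comm]
  rw [hv.inner_prT, h6, h4.fderiv, pv, inner_smul_right, inner_add_right, inner_smul_right,
    hv.inner_prT, h7, real_inner_comm y v]
  simp [qv]
  field_simp

end QTx

theorem c_QT (hGEO : Q_GEO) (hMAX : Q_MAX) (hEST : Q_EST) :
    Q_QT := by
  intro ι _ n C U F h
  obtain ⟨G, hG, HG⟩ := hGEO ι n C U F h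
  obtain ⟨K, e0, hK, he0, HK⟩ := hEST ι n C U F h
  refine ⟨min e0 1, lt_min he0 one_pos, fun ε hε he => ?_⟩
  obtain ⟨he1, he2⟩ := le_min_iff.1 he
  obtain ⟨d, hd, hd1⟩ : ∃ d : ℝ, 0 < d ∧ d * (8 * (K + G + 1)) = ε ^ 2 :=
    ⟨ε ^ 2 / (8 * (K + G + 1)), by positivity, div_mul_cancel₀ _ (by positivity)⟩
  have hKd := mul_nonneg hK hd.le
  have hGd := mul_nonneg hG hd.le
  have hee : ε ^ 2 ≤ ε := by nlinarith
  obtain ⟨th, t1, t2, t3, t4⟩ := QTx.exists_th hd
  refine ⟨fun x y => (⟪normal F x, y⟫ - ε) / th (1 - ⟪x, y⟫), ?_, fun x hx y hy => ?_⟩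
  · have a1 : ContDiffOn ℝ 1 (fun z : E ι × E ι => normal F z.1) (U ×ˢ univ) :=
      (h.sm_normal.of_le (by simp)).comp contDiffOn_fst fun z hz => hz.1
    exact ((a1.inner ℝ contDiffOn_snd).sub contDiffOn_const).div
      (t1.comp_contDiffOn (contDiffOn_const.sub (contDiffOn_fst.inner ℝ contDiffOn_snd)))
      fun z _ => (t2 _).ne'
  obtain ⟨⟨w, hw⟩, m2, m3⟩ := hMAX ι n C U F h ε hε x hx
  have hdist := lk_dist hx hy
  have hmx : IsMx C F ε x y → d < 1 - ⟪x, y⟫ := by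
    intro hm
    have b1 := (HK ε hε he1 x hx y hm).2.2.2
    have b2 := lk_D_pos hx hy hm.2.1
    have b3 : -1 ≤ ⟪x, y⟫ := by
      have := abs_real_inner_le_norm x y
      rw [lk_norm hx, lk_norm hy] at this
      linarith [neg_abs_le ⟪x, y⟫]
    by_contra hc
    have b4 : (1 - ⟪x, y⟫) ^ 3 ≤ 4 * d := by
      have : (1 - ⟪x, y⟫) ^ 2 ≤ 4 := by nlinarith
      nlinarith
    nlinarith [mul_le_mul_of_nonneg_left b4 hK]
  have hlow : 1 - ⟪x, y⟫ < d →
      (⟪normal F x, y⟫ - ε) / th (1 - ⟪x, y⟫) < kap C F ε x := by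
    intro hc
    have b1 := (HK ε hε he1 x hx w hw).1
    rw [← m2 w hw] at b1
    have b2 := (abs_le.1 ((HG x hx).2.2 y hy).2.2.1).2
    rw [hdist] at b2
    have b3 : √ε ≤ 1 := Real.sqrt_le_one.2 he2
    have b4 : -K ≤ kap C F ε x := by nlinarith
    refine lt_of_lt_of_le ?_ b4
    rw [div_lt_iff₀ (t2 _)]
    nlinarith [mul_le_mul_of_nonneg_left (t4 _ hc.le) hK, mul_le_mul_of_nonneg_left hc.le hG]
  have hhi : d ≤ 1 - ⟪x, y⟫ →
      (⟪normal F x, y⟫ - ε) / th (1 - ⟪x, y⟫) = qv F ε x y ∧ y ≠ x := by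
    intro hc
    refine ⟨by rw [t3 _ hc, qv], ?_⟩
    rintro rfl
    rw [lk_inner hy] at hc
    linarith
  refine ⟨?_, ⟨fun e => ?_, fun hm => ?_⟩, fun hm => ?_⟩
  · rcases lt_or_ge (1 - ⟪x, y⟫) d with hc | hc
    · exact (hlow hc).le
    · exact (hhi hc).1.trans_le (m3 y hy (hhi hc).2)
  · obtain ⟨e1, e2⟩ := hhi (not_lt.1 fun hc => (hlow hc).ne e)
    refine ⟨hy, e2, fun z hz => ?_⟩
    by_cases hzx : z = x
    · rw [hzx, lk_inner hx, h.normal_self hx.1 (lk_ne hx)]
      linarith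
    · have := m3 z hz hzx
      rw [← e1.symm.trans e, qv, div_le_iff₀ (lk_D_pos hx hz hzx)] at this
      exact this
  · exact (hhi (hmx hm).le).1.trans (m2 y hm).symm
  · refine QTx.grad h hx (hd.trans (hmx hm)) ?_
    have hc : Continuous fun x' : E ι => 1 - ⟪x', y⟫ := by fun_prop
    filter_upwards [(isOpen_lt continuous_const hc).mem_nhds (hmx hm)] with z hz
    rw [t3 _ (le_of_lt hz), qv]

end Pool.Agent.P.MP_2b44f0_gt.PD
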