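import Pool.Agent.P.MP_2b44f0_gt.PD.IfC

/-! Step SIM. -/

namespace Pool.Agent.P.MP_2b44f0_gt.PD

open MeasureTheory Set Filter Asymptotics
open scoped ENNReal RealInnerProductSpace Topology

namespace SIMx

variable {ι : Type} [Fintype ι] {n : ℕ} {C U : Set (E ι)} {F : E ι → ℝ} {x : E ι}

theorem trace [DecidableEq ι] (hFRAME : Q_FRAME) {ν : E ι} (hc : Fintype.card ι = n + 2)
    (h1 : ‖x‖ = 1) (h2 : ‖ν‖ = 1) (h3 : ⟪ν, x⟫ = 0) {e : Fin n → E ι} (he : Frame n x ν e)
    (B : E ι →L[ℝ] E ι →L[ℝ] ℝ) :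
    ∑ k, B (EuclideanSpace.single k 1) (EuclideanSpace.single k 1) =
      ∑ i, B (e i) (e i) + B x x + B ν ν := by
  obtain ⟨M, hM⟩ : ∃ M : E ι →L[ℝ] E ι, ∀ v w, ⟪M v, w⟫ = B v w :=
    ⟨InnerProductSpace.continuousLinearMapOfBilin (𝕜 := ℝ) B,
      InnerProductSpace.continuousLinearMapOfBilin_apply (𝕜 := ℝ) B⟩
  have h := ((hFRAME ι n x ν hc h1 h2 h3).1 e he).2 M
  rw [tr, LinearMap.trace_eq_sum_inner _ (EuclideanSpace.basisFun ι ℝ)] at h
  simp only [EuclideanSpace.basisFun_apply, ContinuousLinearMap.coe_coe,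
    real_inner_comm (M _), hM] at h
  linarith

/-- radial derivatives of a function that is homogeneous of degree `-2` along a ray -/
theorem radial {f : E ι → ℝ} (hU : IsOpen U) (hf : Simons.Sm U f) (hx : ∀ t : ℝ, 0 < t → t • x ∈ U)
    {s : ℝ} (h : ∀ t : ℝ, 0 < t → f (t • x) = s * t ^ (-2 : ℤ)) :
    fderiv ℝ f x x = -2 * s ∧ fderiv ℝ (fderiv ℝ f) x x x = 6 * s := by
  have r : ∀ t : ℝ, HasDerivAt (fun t : ℝ => t • x) x t := fun t => by
    simpa using (hasDerivAt_id t).smul_const x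
  have h1 : ∀ t : ℝ, 0 < t → fderiv ℝ f (t • x) x = s * (-2 * t ^ (-3 : ℤ)) := fun t ht => by
    have a1 : HasDerivAt (fun t : ℝ => f (t • x)) (fderiv ℝ f (t • x) x) t :=
      HasFDerivAt.comp_hasDerivAt (f := fun t : ℝ => t • x) t (hf.diffAt hU (hx t ht)).hasFDerivAt
        (r t)
    have a2 := (hasDerivAt_zpow (-2) t (Or.inl ht.ne')).const_mul s
    have a3 : (fun t : ℝ => f (t • x)) =ᶠ[𝓝 t] fun t => s * t ^ (-2 : ℤ) := by
      filter_upwards [lt_mem_nhds ht] with t ht using h t ht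
    rw [a1.unique (a2.congr_of_eventuallyEq a3)]
    norm_num
  have hf' : Simons.Sm U (fderiv ℝ f) := hf.fderiv_of_isOpen hU (by simp)
  have a0 : HasDerivAt (fun t : ℝ => fderiv ℝ f (t • x)) (fderiv ℝ (fderiv ℝ f) ((1 : ℝ) • x) x) 1 :=
    HasFDerivAt.comp_hasDerivAt (f := fun t : ℝ => t • x) 1
      (hf'.diffAt hU (hx 1 one_pos)).hasFDerivAt (r 1)
  have a1 := a0.clm_apply (hasDerivAt_const 1 x)
  have a2 := ((hasDerivAt_zpow (-3) (1 : ℝ) (Or.inl one_ne_zero)).const_mul (-2)).const_mul s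
  have a3 : (fun t : ℝ => fderiv ℝ f (t • x) x) =ᶠ[𝓝 1] fun t => s * (-2 * t ^ (-3 : ℤ)) := by
    filter_upwards [lt_mem_nhds (one_pos : (0 : ℝ) < 1)] with t ht using h1 t ht
  have a5 := a1.unique (a2.congr_of_eventuallyEq a3)
  have a4 := h1 1 one_pos
  simp only [one_smul, map_zero, add_zero, one_zpow] at a5 a4
  push_cast at a5
  constructor <;> linarith

open Simons in
theorem core (hFRAME : Q_FRAME) (hHOM : Q_HOM) (hSIMA : Q_SIMA) (hs : St n C U F)
    (hz : (0 : E ι) ∉ U) (hx : x ∈ lk C) {e : Fin n → E ι} (he : Frame n x (normal F x) e)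
    {u : E ι} (hu : Tan F x u) :
    2 * sqCurv F x * (n - sqCurv F x) + 3 * fderiv ℝ (sqCurv F) x u -
      3 / 2 * (sqCurv F x * ‖u‖ ^ 2 + 2 * n / (n + 2) * ‖shape F x u‖ ^ 2) ≤
    ∑ i, fderiv ℝ (fderiv ℝ (sqCurv F)) x (e i) (e i) - n * fderiv ℝ (sqCurv F) x x := by
  classical
  have h := hs.chart
  have hU := h.isOpen
  have hxU := hs.lk_sub hx
  have hM : U ∩ C ⊆ U := inter_subset_left
  have hn : Sm U (normal F) := hs.sm_normal
  have hσ : Sm U (sqCurv F) := hs.sm_sqCurv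
  have hsh := (all_shape ι C U F h).2.2
  have hne : ∀ z ∈ U, z ≠ 0 := fun z a b => hz (b ▸ a)
  have hnn : ∀ z ∈ U, ⟪normal F z, normal F z⟫ = 1 := fun z hz => hs.inner_normal hz
  have hperp : ∀ z ∈ U, ∀ v, ⟪normal F z, tangentProj F z v⟫ = 0 := fun z hz v => by
    rw [proj_apply, inner_sub_right, inner_smul_right, hnn z hz, mul_one, sub_self]
  choose δ hδ using fun i => exists_der hU hM (sm_V hn i) fun f hf h0 z hz =>
    tangent (all_curve all_shape) h hf h0 hz (hperp z hz.1 _)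
  have hid : Sm U fun z : E ι => z := contDiffOn_id
  set ν : ι → resRing U (U ∩ C) := fun j => res _ _ (sm_coord hn j) with hν
  set X : ι → resRing U (U ∩ C) := fun j => res _ _ (sm_coord hid j) with hX
  have eν : ∀ j z, ev U _ z (ν j) = normal F z j := fun _ _ => rfl
  have eX : ∀ j z, ev U _ z (X j) = z.1 j := fun _ _ => rfl
  have ea : ∀ i j z, ev U _ z (δ i (ν j)) = shape F z (EuclideanSpace.single i 1) j := by
    intro i j z
    rw [hδ i _ _ (sm_coord hn j) (eν j), fderiv_coord (hn.diffAt hU z.2.1)]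
    rfl
  have hexp : ∀ (z : E ι) (L : E ι →L[ℝ] ℝ) (v : E ι),
      L (tangentProj F z v) = ∑ l, v l * L (V F l z) := fun z L v =>
    expand (L.comp (tangentProj F z)) v
  have htr : ∀ z ∈ U ∩ C, ∑ k, shape F z (EuclideanSpace.single k 1) k = 0 := fun z hz => by
    have h0 := hs.minimal z hz.2 (hne z hz.1)
    rw [meanCurv, LinearMap.trace_eq_sum_inner _ (EuclideanSpace.basisFun ι ℝ)] at h0
    simpa [EuclideanSpace.inner_single_left] using h0
  have eσ : ∀ z : ↥(U ∩ C), ev U _ z (res _ _ hσ) = sqCurv F z := fun _ => rfl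
  have key := hSIMA ι (resRing U (U ∩ C)) δ ν X (fun i j => δ i (ν j)) (ev U _ ⟨x, hxU, hx.1⟩) n
    (fun k => u k) hs.card ?_ (fun _ _ => rfl) ?_ ?_ ?_ ?_ ?_ ?_ ?_ ?_ ?_ ?_ (res _ _ hσ) ?_
  · have hP : ∀ v, ⟪normal F x, v⟫ = 0 → tangentProj F x v = v := fun v hv => by
      rw [proj_apply, hv, zero_smul, sub_zero]
    have hP0 : tangentProj F x (normal F x) = 0 := by
      rw [proj_apply, hnn x hxU, one_smul, sub_self]
    have hνx := hs.normal_self hx.1 (lk_ne hx)
    obtain ⟨r1, r2⟩ := radial (s := sqCurv F x) hU hσ (x := x) (fun t ht => hs.cover _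
      (hs.cone x hx.1 t ht) (smul_ne_zero ht.ne' (lk_ne hx))) fun t ht => by
        have := (hHOM ι n C U F hs x hx.1 (lk_ne hx) t ht).2.2
        rw [norm_smul, lk_norm hx, Real.norm_of_nonneg ht.le] at this
        rw [zpow_neg, eq_mul_inv_iff_mul_eq₀ (by positivity), zpow_ofNat]
        linarith
    have k1 := hexp x (fderiv ℝ (sqCurv F) x) u
    rw [hP u hu.2] at k1
    have k2 : ∀ i, ∑ j, shape F x (EuclideanSpace.single i 1) j * u j = shape F x u i := fun i => by
      simpa [PiLp.inner_apply, mul_comm] using hs.symm hxU (EuclideanSpace.single i 1) u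
    have k3 := trace hFRAME hs.card (lk_norm hx) (hs.norm_normal hxU) hνx he
      ((fderiv ℝ (fderiv ℝ (sqCurv F)) x).bilinearComp (tangentProj F x) (tangentProj F x))
    simp only [ContinuousLinearMap.bilinearComp_apply, hP _ (he.pn _), hP x hνx, hP0, map_zero,
      r2] at k3
    have hσ' : Sm U (fderiv ℝ (sqCurv F)) := hσ.fderiv_of_isOpen hU (by simp)
    have k4 : ∑ k, fderiv ℝ (V F k) x (V F k x) = 0 := by
      have a1 : ∀ k, fderiv ℝ (normal F) x (V F k x) = shape F x (EuclideanSpace.single k 1) :=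
        fun _ => rfl
      have a2 : ∑ k, normal F x k • shape F x (EuclideanSpace.single k 1) = 0 := by
        rw [← hs.shape_normal hxU]
        conv_rhs => rw [← (EuclideanSpace.basisFun ι ℝ).sum_repr (normal F x)]
        simp [map_sum]
      simp only [fderiv_V (hn.diffAt hU hxU), a1, Finset.sum_neg_distrib, Finset.sum_add_distrib,
        a2, ← Finset.sum_smul, htr x ⟨hxU, hx.1⟩]
      simp
    have k5 : ∀ k, ev U (U ∩ C) ⟨x, hxU, hx.1⟩ (δ k (δ k (res _ _ hσ))) =
        fderiv ℝ (sqCurv F) x (fderiv ℝ (V F k) x (V F k x)) +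
        fderiv ℝ (fderiv ℝ (sqCurv F)) x (V F k x) (V F k x) := fun k => by
      rw [hδ k _ _ (hσ.der hU (sm_V hn k)) (hδ k _ _ hσ eσ),
        fderiv_clm_apply (hσ'.diffAt hU hxU) ((sm_V hn k).diffAt hU hxU)]
      rfl
    rw [map_sum (ev U _ _)] at key
    simp only [k5, hδ _ _ _ hσ eσ, eσ, ea, k2, Finset.sum_add_distrib, ← map_sum, k4, map_zero,
      ← k1, ← EuclideanSpace.real_norm_sq_eq] at key
    simp only [V] at key
    rw [r1]
    linarith
  · intro i f g
    obtain ⟨f', hf, ef⟩ := exists_rep f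
    obtain ⟨g', hg, eg⟩ := exists_rep g
    refine ext_ev fun z => ?_
    rw [hδ i (f * g) (fun y => f' y * g' y) (hf.mul hg) (fun y => by rw [map_mul, ef, eg]),
      map_add, map_mul, map_mul, hδ i f f' hf ef, hδ i g g' hg eg, ef, eg,
      fderiv_fun_mul (hf.diffAt hU z.2.1) (hg.diffAt hU z.2.1)]
    simp only [add_apply, smul_apply, smul_eq_mul]
    ring
  · intro i j
    refine ext_ev fun z => ?_
    rw [ea, ea]
    simpa [EuclideanSpace.inner_single_right, EuclideanSpace.inner_single_left] using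
      (hsh z z.2.1).2.2.2.2.2 (EuclideanSpace.single i 1) (EuclideanSpace.single j 1)
  · intro i j
    refine ext_ev fun z => ?_
    rw [hδ i _ _ (sm_coord hid j) (eX j), fderiv_coord (hid.diffAt hU z.2.1), map_sub, map_mul,
      eν, eν, fderiv_fun_id, V_eq]
    by_cases hij : i = j
    · simp [hij]
    · simp [hij, Ne.symm hij]
  · intro f
    obtain ⟨f', hf, ef⟩ := exists_rep f
    refine ext_ev fun z => ?_
    have h0 : tangentProj F z (normal F z) = 0 := by
      rw [proj_apply, hnn z z.2.1, one_smul, sub_self]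
    have h1 := hexp z (fderiv ℝ f' z) (normal F z)
    rw [h0, map_zero] at h1
    simp only [map_sum, map_mul, map_zero, eν, hδ _ f f' hf ef]
    exact h1.symm
  · refine ext_ev fun z => ?_
    simp only [map_sum, map_mul, map_one, eν]
    rw [← hnn z z.2.1, PiLp.inner_apply]
    simp [sq]
  · intro i j f
    obtain ⟨f', hf, ef⟩ := exists_rep f
    refine ext_ev fun z => ?_
    have hP : ∀ k, fderiv ℝ f' z (shape F z (EuclideanSpace.single k 1)) =
        ∑ l, shape F z (EuclideanSpace.single k 1) l * fderiv ℝ f' z (V F l z) := by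
      intro k
      have h0 : ⟪normal F z, shape F z (EuclideanSpace.single k 1)⟫ = 0 :=
        (hsh z z.2.1).2.2.1 _
      rw [← hexp, proj_apply, h0, zero_smul, sub_zero]
    rw [map_sub, hδ i _ _ (hf.der hU (sm_V hn j)) (hδ j f f' hf ef),
      hδ j _ _ (hf.der hU (sm_V hn i)) (hδ i f f' hf ef),
      ← VectorField.fderiv_apply_lieBracket (hf.contDiffAt (hU.mem_nhds z.2.1))
        (by rw [minSmoothness_of_isRCLikeNormedField]; exact WithTop.coe_le_coe.2 le_top)
        ((sm_V hn j).diffAt hU z.2.1) ((sm_V hn i).diffAt hU z.2.1),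
      bracket (hn.diffAt hU z.2.1) (hsh z z.2.1).2.2.2.2.2]
    simp only [map_sum, map_mul, map_sub, map_smul, eν, ea, hδ _ f f' hf ef, hP, smul_eq_mul,
      Finset.mul_sum, ← Finset.sum_sub_distrib]
    exact Finset.sum_congr rfl fun l _ => by ring
  · refine ext_ev fun z => ?_
    simp only [map_sum, map_zero, ea]
    exact htr z z.2
  · refine ext_ev fun z => ?_
    simp only [map_sum, map_mul, map_zero, eν, eX]
    simpa [PiLp.inner_apply, mul_comm] using hs.normal_self z.2.2 (hne z z.2.1)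
  · simp only [map_sum, map_mul, eX]
    rw [← lk_inner hx, PiLp.inner_apply]
    simp [sq]
  · simp only [eX]
    simpa [PiLp.inner_apply] using hu.1
  · simp only [eν]
    simpa [PiLp.inner_apply] using hu.2
  · refine ext_ev fun z => ?_
    rw [eσ, sqCurv, LinearMap.trace_eq_sum_inner _ (EuclideanSpace.basisFun ι ℝ)]
    simp only [map_sum, map_mul, ea]
    refine Finset.sum_congr rfl fun l _ => ?_
    have h1 := (hsh z z.2.1).2.2.2.2.2 (EuclideanSpace.single l 1)
      (shape F z (EuclideanSpace.single l 1))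
    simp only [EuclideanSpace.basisFun_apply, ContinuousLinearMap.coe_coe,
      ContinuousLinearMap.comp_apply, ← h1]
    rw [PiLp.inner_apply]
    simp [sq]

end SIMx

theorem c_SIM (hFRAME : Q_FRAME) (hHOM : Q_HOM) (hSIMA : Q_SIMA) :
    Q_SIM := by
  intro ι _ n C U F h x hx e he u hu
  refine SIMx.core (U := U \ {0}) hFRAME hHOM hSIMA ⟨⟨h.closed, h.cone, h.nonflat,
    ⟨h.chart.isOpen.sdiff isClosed_singleton, h.chart.smooth.mono sdiff_subset,
      fun y hy => h.chart.grad_ne y hy.1, fun y hy => h.chart.zero_set y hy.1⟩,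
    h.smooth.mono sdiff_subset, fun y a b => ⟨h.cover y a b, b⟩, h.minimal⟩, h.card, h.pos⟩
    (fun c => c.2 rfl) hx he hu

end Pool.Agent.P.MP_2b44f0_gt.PD
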