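import Pool.Agent.P.MP_2b44f0_gt.PD.IfC
import Pool.Agent.P.MP_2b44f0_gt.SimAlg

/-! Step SIMA. -/

namespace Pool.Agent.P.MP_2b44f0_gt.PD

namespace SIMAx

open Finset SimAlg

variable {ι : Type} [Fintype ι]

/-- the symmetric product of a matrix and a vector -/
def Y (A : ι → ι → ℝ) (v : ι → ℝ) (k i j : ι) : ℝ := A i j * v k + A k j * v i + A k i * v j

theorem symY (T : ι → ι → ι → ℝ) (A : ι → ι → ℝ) (v : ι → ℝ) (h1 : ∀ k i j, T k i j = T k j i)
    (h2 : ∀ k i j, T k i j = T i k j) :
    ∑ k, ∑ i, ∑ j, T k i j * Y A v k i j = 3 * ∑ k, v k * ∑ i, ∑ j, T k i j * A i j := by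
  have e1 : ∑ k, ∑ i, ∑ j, T k i j * (A i j * v k) = ∑ k, v k * ∑ i, ∑ j, T k i j * A i j :=
    sum_congr rfl fun k _ => by
      simp only [mul_sum]
      exact sum_congr rfl fun i _ => sum_congr rfl fun j _ => by ring
  have e2 : ∑ k, ∑ i, ∑ j, T k i j * (A k j * v i) = ∑ k, ∑ i, ∑ j, T k i j * (A i j * v k) := by
    rw [sum_comm]
    exact sum_congr rfl fun k _ => sum_congr rfl fun i _ => sum_congr rfl fun j _ => by rw [h2]
  have e3 : ∑ k, ∑ i, ∑ j, T k i j * (A k i * v j) = ∑ k, ∑ i, ∑ j, T k i j * (A k j * v i) :=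
    sum_congr rfl fun k _ => by
      rw [sum_comm]
      exact sum_congr rfl fun i _ => sum_congr rfl fun j _ => by rw [h1]
  simp only [Y, mul_add, sum_add_distrib]
  rw [e3, e2, e1]
  ring

theorem YY (A B : ι → ι → ℝ) (v w : ι → ℝ) (hA : ∀ i j, A i j = A j i)
    (hB : ∀ i j, B i j = B j i) :
    ∑ k, ∑ i, ∑ j, Y A v k i j * Y B w k i j = 3 * ((∑ k, v k * w k) * (∑ i, ∑ j, A i j * B i j) +
      2 * ∑ j, (∑ k, A j k * w k) * ∑ i, B j i * v i) := by
  rw [symY _ B w (fun k i j => by simp only [Y, hA i j]; ring)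
    (fun k i j => by simp only [Y, hA i k]; ring)]
  have e1 : ∑ k, w k * ∑ i, ∑ j, A i j * v k * B i j =
      (∑ k, v k * w k) * ∑ i, ∑ j, A i j * B i j := by
    rw [sum_mul]
    refine sum_congr rfl fun k _ => ?_
    simp only [mul_sum]
    exact sum_congr rfl fun i _ => sum_congr rfl fun j _ => by ring
  have e2 : ∑ k, w k * ∑ i, ∑ j, A k i * v j * B i j =
      ∑ j, (∑ k, A j k * w k) * ∑ i, B j i * v i := by
    simp only [mul_sum, sum_mul]
    rw [sum_comm]
    refine sum_congr rfl fun i _ => ?_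
    rw [sum_comm]
    exact sum_congr rfl fun j _ => sum_congr rfl fun k _ => by rw [hA k i]; ring
  have e3 : ∑ k, w k * ∑ i, ∑ j, A k j * v i * B i j =
      ∑ k, w k * ∑ i, ∑ j, A k i * v j * B i j := by
    refine sum_congr rfl fun k _ => ?_
    rw [sum_comm]
    simp only [fun i j => hB i j]
  simp only [Y, add_mul, mul_add, sum_add_distrib]
  rw [e3, e2, e1]
  ring

/-- the refined Kato inequality -/
theorem kato [DecidableEq ι] (T : ι → ι → ι → ℝ) (a : ι → ι → ℝ) (ν x u : ι → ℝ) (n : ℕ)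
    (hn : Fintype.card ι = n + 2) (h1 : ∀ k i j, T k i j = T k j i)
    (h2 : ∀ k i j, T k i j = T i k j) (ht : ∀ k, ∑ i, T k i i = 0)
    (hTν : ∀ k i, ∑ j, T k i j * ν j = 0) (hTx : ∀ k i, ∑ j, T k i j * x j = 0)
    (hs : ∀ i j, a i j = a j i) (htr : ∑ i, a i i = 0) (aν : ∀ i, ∑ j, a i j * ν j = 0)
    (ax : ∀ i, ∑ j, a i j * x j = 0) (hν : ∑ i, ν i * ν i = 1) (hx : ∑ i, x i * x i = 1)
    (hνx : ∑ i, ν i * x i = 0) (ux : ∑ i, u i * x i = 0) (uν : ∑ i, u i * ν i = 0) :
    6 * ∑ k, u k * ∑ i, ∑ j, T k i j * a i j - 3 / 2 * ((∑ i, ∑ j, a i j * a i j) * ∑ i, u i ^ 2 +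
      2 * n / (n + 2) * ∑ i, (∑ j, a i j * u j) ^ 2) ≤ 2 * ∑ k, ∑ i, ∑ j, T k i j ^ 2 := by
  set b : ι → ℝ := fun i => ∑ j, a i j * u j with hb
  set P : ι → ι → ℝ := fun i j => (if i = j then 1 else 0) - ν i * ν j - x i * x j with hP
  have Ps : ∀ i j, P i j = P j i := fun i j => by
    simp only [hP, eq_comm (a := i), mul_comm (ν i), mul_comm (x i)]
  have pr : ∀ (f : ι → ℝ) i, ∑ j, P i j * f j =
      f i - ν i * ∑ j, f j * ν j - x i * ∑ j, f j * x j := fun f i => by
    have : ∀ j, P i j * f j = (if i = j then f j else 0) - ν i * (f j * ν j) - x i * (f j * x j) :=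
      fun j => by simp only [hP]; split_ifs <;> ring
    simp only [this, sum_sub_distrib, sum_ite_eq, mem_univ, if_true, ← mul_sum]
  have bq : ∀ q : ι → ℝ, ∑ i, b i * q i = ∑ j, (∑ i, a j i * q i) * u j := fun q => by
    simp only [hb, sum_mul]
    rw [sum_comm]
    exact sum_congr rfl fun j _ => sum_congr rfl fun i _ => by rw [hs i j]; ring
  have Pu : ∀ i, ∑ j, P i j * u j = u i := fun i => by rw [pr, ux, uν]; ring
  have Pb : ∀ i, ∑ j, P i j * b j = b i := fun i => by
    rw [pr, bq, bq]; simp only [aν, ax, zero_mul, sum_const_zero]; ring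
  have aP : ∑ i, ∑ j, a i j * P i j = 0 := by
    simp only [fun i j => mul_comm (a i j) (P i j), pr, aν, ax, mul_zero, sub_zero, htr]
  have TP : ∀ k, ∑ i, ∑ j, T k i j * P i j = 0 := fun k => by
    simp only [fun i j => mul_comm (T k i j) (P i j), pr, hTν, hTx, mul_zero, sub_zero, ht]
  have PP : ∑ i, ∑ j, P i j * P i j = n := by
    have e1 : ∀ i, ∑ j, P i j * ν j = 0 := fun i => by rw [pr, hν, hνx]; ring
    have e2 : ∀ i, ∑ j, P i j * x j = 0 := fun i => by
      rw [pr, hx]; simp only [mul_comm (x _) (ν _), hνx]; ring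
    have e3 : ∀ i, ∑ j, P i j * P i j = P i i := fun i => by rw [pr, e1, e2]; ring
    simp only [e3]
    simp only [hP, if_true, sum_sub_distrib, hν, hx, sum_const, card_univ, hn, nsmul_eq_mul]
    push_cast
    ring
  have y11 := YY a a u u hs hs
  have y12 := YY a P u b hs Ps
  have y22 := YY P P b b Ps Ps
  have t1 := symY T a u h1 h2
  have t2 := symY T P b h1 h2
  simp only [TP, mul_zero, sum_const_zero] at t2
  simp only [Pb, PP] at y22
  simp only [Pu, aP, ← bq b] at y12
  change _ = 3 * (_ + 2 * ∑ j, b j * b j) at y11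
  have hpos : (0 : ℝ) < n + 2 := by positivity
  set μ : ℝ := 1 / (n + 2) with hμ
  have hμ1 : μ * (n + 2) = 1 := by rw [hμ]; field_simp
  have hμ2 : 2 * (n : ℝ) / (n + 2) = 2 * n * μ := by rw [hμ]; ring
  have h0 : 0 ≤ ∑ k, ∑ i, ∑ j, (T k i j - 1 / 2 * Y a u k i j + μ * Y P b k i j) ^ 2 :=
    sum_nonneg fun _ _ => sum_nonneg fun _ _ => sum_nonneg fun _ _ => sq_nonneg _
  have key : ∀ k i j, (T k i j - 1 / 2 * Y a u k i j + μ * Y P b k i j) ^ 2 =
      T k i j ^ 2 + 1 / 4 * (Y a u k i j * Y a u k i j) + μ ^ 2 * (Y P b k i j * Y P b k i j) -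
        T k i j * Y a u k i j + 2 * μ * (T k i j * Y P b k i j) -
        μ * (Y a u k i j * Y P b k i j) := fun k i j => by ring
  simp only [key, sum_add_distrib, sum_sub_distrib, ← mul_sum] at h0
  rw [y11, y12, y22, t1, t2] at h0
  change _ - 3 / 2 * (_ + _ * ∑ i, b i ^ 2) ≤ _
  simp only [hμ2, sq (b _), sq (u _)]
  set B := ∑ i, b i * b i
  have : μ ^ 2 * (3 * (B * n + 2 * B)) = 3 * μ * B := by linear_combination 3 * μ * B * hμ1
  have h3 : n * μ * B = B - 2 * μ * B := by linear_combination B * hμ1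
  rw [this] at h0
  linarith

end SIMAx

open Finset SimAlg in
theorem c_SIMA :
    Q_SIMA := by
  intro ι _ _ R _ δ ν x a ev n u hcard hL hν hs hx hn h1 hc htr hνx hρ1 ux uν T hT
  set ρ := ∑ i, x i * x i with hρ
  set b : ι → ι → ι → R := fun k i j => δ k (a i j) with hb
  set c : ι → ι → R := fun i k => ∑ j, a i j * a k j with hcd
  have bs : ∀ k i j, b k i j = b k j i := fun k i j => by simp only [hb, hs i j]
  have cs : ∀ i j, c i j = c j i := fun i j => sum_congr rfl fun l _ => mul_comm _ _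
  have aν : ∀ i, ∑ j, a i j * ν j = 0 := fun i => by
    rw [← hn (ν i)]; exact sum_congr rfl fun j _ => by rw [hν, hs, mul_comm]
  have νa : ∀ j, ∑ i, a i j * ν i = 0 := fun j => by simp only [fun i => hs i j, aν]
  have proj : ∀ (f : ι → R) k, ∑ j, f j * δ k (x j) = f k - ν k * ∑ j, f j * ν j := fun f k => by
    have : ∀ j, f j * δ k (x j) = (if k = j then f j else 0) - ν k * (f j * ν j) := fun j => by
      rw [hx]; split_ifs <;> ring
    simp only [this, sum_sub_distrib, sum_ite_eq, mem_univ, if_true, ← mul_sum]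
  have ax : ∀ i, ∑ j, a i j * x j = 0 := fun i => by
    have h := congrArg (δ i) hνx
    simp only [map_sum, hL, hν, sum_add_distrib, proj, h1, map_zero] at h
    linear_combination h
  have xa : ∀ j, ∑ i, a i j * x i = 0 := fun j => by simp only [fun i => hs i j, ax]
  have cq : ∀ q : ι → R, (∀ j, ∑ i, a i j * q i = 0) → ∀ i, ∑ j, c i j * q j = 0 := fun q h i => by
    simp only [hcd, sum_mul]
    rw [sum_comm]
    exact sum_eq_zero fun l _ => by simp only [mul_assoc, ← mul_sum, h, mul_zero]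
  have cν := cq ν νa
  have cx := cq x xa
  have xc : ∀ j, ∑ i, c i j * x i = 0 := fun j => by simp only [fun i => cs i j, cx]
  have νc : ∀ j, ∑ i, c i j * ν i = 0 := fun j => by simp only [fun i => cs i j, cν]
  have bν : ∀ k i, ∑ j, b k i j * ν j = - c k i := fun k i => by
    have h := congrArg (δ k) (aν i)
    simp only [map_sum, hL, hν, sum_add_distrib, map_zero] at h
    rw [cs]
    linear_combination h
  have bx : ∀ k i, ∑ j, b k i j * x j = - a k i := fun k i => by
    have h := congrArg (δ k) (ax i)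
    simp only [map_sum, hL, sum_add_distrib, proj, aν, map_zero] at h
    rw [hs]
    linear_combination h
  have cod : ∀ k i j, b k i j = b i k j + ν k * c i j - ν i * c k j := fun k i j => by
    have h := hc k i (ν j)
    simp only [hν, sub_mul, sum_sub_distrib, mul_assoc, ← mul_sum, fun l => hs l j] at h
    rw [bs k i j, bs i k j]
    linear_combination h
  have xb : ∀ i j, ∑ k, b k i j * x k = - a i j := fun i j => by
    have : ∀ k, b k i j * x k = b i j k * x k + c i j * (ν k * x k) - ν i * (c k j * x k) :=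
      fun k => by rw [cod k i j, bs i k j]; ring
    simp only [this, sum_add_distrib, sum_sub_distrib, ← mul_sum, bx, hνx, xc]; ring
  have btr : ∀ j, ∑ k, b j k k = 0 := fun j => by
    have h := congrArg (δ j) htr
    simpa only [map_sum, map_zero] using h
  have bk : ∀ j, ∑ k, b k k j = - (ν j * T) := fun j => by
    have : ∀ k, b k k j = b j k k + c j k * ν k - ν j * c k k :=
      fun k => by rw [bs k k j, cod k j k]; ring
    simp only [this, sum_add_distrib, sum_sub_distrib, ← mul_sum, cν, btr, hT]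
    ring
  have lap : ∀ i j, ∑ k, δ k (b k i j) = - (a i j * T) - ν j * δ i T - ∑ l, a i l * c l j -
      ∑ k, a k i * c k j - ν i * ∑ k, (∑ l, a k l * b l k j + δ k (c k j)) := fun i j => by
    have e1 : ∀ k, δ k (b k i j) = δ i (b k k j) + ∑ l, a i l * (b l j k * ν k) + a k k * c i j +
        ν k * δ k (c i j) - a k i * c k j - ν i * (∑ l, a k l * b l k j + δ k (c k j)) := fun k => by
      have h := hc k i (a k j)
      have h2 : ∑ l, (ν k * a i l - ν i * a k l) * δ l (a k j) =
          ∑ l, a i l * (b l j k * ν k) - ν i * ∑ l, a k l * b l k j := by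
        rw [mul_sum, ← sum_sub_distrib]
        exact sum_congr rfl fun l _ => by rw [bs l j k]; simp only [hb]; ring
      rw [cod k i j, map_sub, map_add, hL, hL, hν, hν]
      linear_combination h + h2
    have e2 : ∑ k, ∑ l, a i l * (b l j k * ν k) = - ∑ l, a i l * c l j := by
      rw [sum_comm]; simp only [← mul_sum, bν, mul_neg, sum_neg_distrib]
    simp only [e1, sum_add_distrib, sum_sub_distrib, ← mul_sum, ← sum_mul, ← map_sum, bk, e2, hn,
      htr, map_neg, hL, hν]
    ring
  have q1 : ∑ i, ∑ j, a i j * ∑ l, a i l * c l j = ∑ k, ∑ i, c k i * c k i := by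
    simp only [mul_sum]
    rw [sum_comm]
    refine sum_congr rfl fun j _ => ?_
    rw [sum_comm]
    refine sum_congr rfl fun l _ => ?_
    rw [cs l j]
    simp only [← mul_assoc, ← sum_mul]
    congr 1
    exact sum_congr rfl fun i _ => by rw [hs i j, hs i l]
  have lap2 : ∑ i, ∑ j, a i j * ∑ k, δ k (b k i j) = - T ^ 2 - 2 * ∑ k, ∑ i, c k i * c k i := by
    have e1 : ∑ i, ∑ j, a i j * (ν j * δ i T) = 0 := sum_eq_zero fun i _ => by
      simp only [← mul_assoc, ← sum_mul, aν, zero_mul]
    have e2 : ∀ g : ι → R, ∑ i, ∑ j, a i j * (ν i * g j) = 0 := fun g => by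
      rw [sum_comm]
      exact sum_eq_zero fun j _ => by simp only [← mul_assoc, ← sum_mul, νa, zero_mul]
    have e3 : ∑ i, ∑ j, a i j * (a i j * T) = T * T := by
      simp only [← mul_assoc, ← sum_mul, ← hT]
    simp only [lap, mul_sub, mul_neg, sum_sub_distrib, sum_neg_distrib, e1, e2, e3,
      fun i k => hs k i, q1]
    ring
  have dT : ∀ k, δ k T = 2 * ∑ i, ∑ j, a i j * b k i j := fun k => by
    simp only [hT, map_sum, hL, mul_sum]
    exact sum_congr rfl fun i _ => sum_congr rfl fun j _ => by simp only [hb]; ring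
  have lapT : ∑ k, δ k (δ k T) = 2 * ∑ k, ∑ i, ∑ j, b k i j * b k i j +
      2 * ∑ i, ∑ j, a i j * ∑ k, δ k (b k i j) := by
    have : ∑ i, ∑ j, a i j * ∑ k, δ k (b k i j) = ∑ k, ∑ i, ∑ j, a i j * δ k (b k i j) := by
      simp only [mul_sum]
      exact (sum_congr rfl fun i _ => sum_comm).trans sum_comm
    rw [this]
    simp only [dT, two_mul, map_add, map_sum, hL, sum_add_distrib]
    ring
  have sq := sq_id ν x a c b ρ rfl hνx h1 bs ax xa cν cx xc bν bx xb
  set t : ι → ι → ι → R := fun k i j => ρ * (b k i j + c k i * ν j + c k j * ν i) +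
    (a k i * x j + a k j * x i + a i j * x k) with ht
  have t1 : ∀ k i j, t k i j = t k j i := fun k i j => by simp only [ht, bs k i j, hs i j]; ring
  have t2 : ∀ k i j, t k i j = t i k j := fun k i j => by
    simp only [ht, cod k i j, cs k i, hs k i]; ring
  have t3 : ∀ k, ∑ i, t k i i = 0 := fun k => by
    simp only [ht, sum_add_distrib, ← mul_sum, ← sum_mul, btr, cν, ax, htr]; ring
  have t4 : ∀ k i, ∑ j, t k i j * ν j = 0 := fun k i => by
    have : ∀ j, t k i j * ν j = ρ * (b k i j * ν j + c k i * (ν j * ν j) + ν i * (c k j * ν j)) +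
        (a k i * (ν j * x j) + x i * (a k j * ν j) + x k * (a i j * ν j)) :=
      fun j => by simp only [ht]; ring
    simp only [this, sum_add_distrib, ← mul_sum, bν, h1, cν, hνx, aν]; ring
  have t5 : ∀ k i, ∑ j, t k i j * x j = 0 := fun k i => by
    have : ∀ j, t k i j * x j = ρ * (b k i j * x j + c k i * (ν j * x j) + ν i * (c k j * x j)) +
        (a k i * (x j * x j) + x i * (a k j * x j) + x k * (a i j * x j)) :=
      fun j => by simp only [ht]; ring
    simp only [this, sum_add_distrib, ← mul_sum, bx, cx, hνx, ax, ← hρ]; ring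
  have t6 : ∀ k, 2 * ∑ i, ∑ j, t k i j * a i j = ρ * δ k T + 2 * (x k * T) := fun k => by
    have : ∀ i j, t k i j * a i j = ρ * (a i j * b k i j + c k i * (a i j * ν j) +
        c k j * (a i j * ν i)) + (a k i * (a i j * x j) + a k j * (a i j * x i) +
        x k * (a i j * a i j)) := fun i j => by simp only [ht]; ring
    have e : ∀ (g q : ι → R), (∀ j, ∑ i, a i j * q i = 0) →
        ∑ i, ∑ j, g j * (a i j * q i) = 0 := fun g q h => by
      rw [sum_comm]; simp only [← mul_sum, h, mul_zero, sum_const_zero]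
    simp only [this, sum_add_distrib, ← mul_sum, aν, ax, e _ _ νa, e _ _ xa, mul_zero,
      sum_const_zero, dT, ← hT]
    ring
  have ev0 : ∀ {f : ι → R}, ∑ i, f i = 0 → ∑ i, ev (f i) = 0 := fun h => by
    rw [← map_sum, h, map_zero]
  have K := SIMAx.kato (fun k i j => ev (t k i j)) (fun i j => ev (a i j)) (fun i => ev (ν i))
    (fun i => ev (x i)) u n hcard (fun k i j => by rw [t1]) (fun k i j => by rw [t2])
    (fun k => ev0 (t3 k)) (fun k i => by simpa only [map_mul] using ev0 (t4 k i))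
    (fun k i => by simpa only [map_mul] using ev0 (t5 k i)) (fun i j => by rw [hs]) (ev0 htr)
    (fun i => by simpa only [map_mul] using ev0 (aν i))
    (fun i => by simpa only [map_mul] using ev0 (ax i))
    (by simp only [← map_mul, ← map_sum, h1, map_one])
    (by simp only [← map_mul, ← map_sum, ← hρ, hρ1])
    (by simpa only [map_mul] using ev0 hνx) ux uν
  have f1 : ev (∑ k, δ k (δ k T)) =
      2 * ∑ k, ∑ i, ∑ j, ev (t k i j) ^ 2 + 6 * ev T - 2 * ev T ^ 2 := by
    have h := congrArg ev sq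
    rw [← hT] at h
    rw [lapT, lap2]
    simp only [← map_pow, ← map_sum]
    simp only [map_sub, map_mul, map_pow, map_add, map_neg, map_ofNat, hρ1] at h ⊢
    linear_combination (-2) * h
  have f2 : ∑ k, u k * ev (δ k T) = 2 * ∑ k, u k * ∑ i, ∑ j, ev (t k i j) * ev (a i j) := by
    have : ∀ k, ev (δ k T) = 2 * ∑ i, ∑ j, ev (t k i j) * ev (a i j) - 2 * ev T * ev (x k) :=
      fun k => by
        have h := congrArg ev (t6 k)
        simp only [map_mul, map_add, map_sum, map_ofNat, hρ1] at h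
        linear_combination -h
    simp only [this, mul_sub, sum_sub_distrib, mul_left_comm (u _), ← mul_sum, ux]
    ring
  have f3 : ev T = ∑ i, ∑ j, ev (a i j) * ev (a i j) := by simp only [hT, map_sum, map_mul]
  rw [f1, f2]
  rw [← f3] at K
  linarith

end Pool.Agent.P.MP_2b44f0_gt.PD
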