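import Pool.Agent.P.MP_2b44f0_gt.PD.IfC

/-! Step SMX. -/

namespace Pool.Agent.P.MP_2b44f0_gt.PD

open MeasureTheory Set Filter Asymptotics
open scoped ENNReal RealInnerProductSpace Topology

namespace SMXx

lemma grad {ι : Type} [Fintype ι] (Y : Finset (E ι)) (hY : Y.Nonempty) (β : ℝ) (hβ : β ≠ 0)
    (q : E ι → E ι → ℝ) (x : E ι) (hq : ∀ y, DifferentiableAt ℝ (fun x' => q x' y) x) :
    gradient (fun x' => Real.log (∑ y ∈ Y, Real.exp (β * q x' y)) / β) x =
      ∑ y ∈ Y, (Real.exp (β * q x y) / ∑ y ∈ Y, Real.exp (β * q x y)) •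
        gradient (fun x' => q x' y) x := by
  have hZ : 0 < ∑ y ∈ Y, Real.exp (β * q x y) := Finset.sum_pos (fun _ _ => Real.exp_pos _) hY
  apply HasGradientAt.gradient
  rw [hasGradientAt_iff_hasFDerivAt]
  have h := ((HasFDerivAt.fun_sum (u := Y) fun y _ =>
    ((hasGradientAt_iff_hasFDerivAt.mp (hq y).hasGradientAt).const_mul β).exp).log hZ.ne').mul_const
      β⁻¹
  simp only [div_eq_mul_inv]
  refine h.congr_fderiv (ContinuousLinearMap.ext fun v => ?_)
  simp only [InnerProductSpace.toDual_apply_apply, sum_inner, real_inner_smul_left,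
    smul_apply, sum_apply, smul_eq_mul, Finset.mul_sum]
  refine Finset.sum_congr rfl fun y _ => ?_
  field_simp

end SMXx

theorem c_SMX :
    Q_SMX := by
  intro ι _ A U q k hA hU hAU hq hk
  classical
  rcases A.eq_empty_or_nonempty with rfl | hne
  · exact ⟨fun _ _ => 0, 0, fun _ => contDiffOn_const, tendstoUniformlyOn_empty, by simp, by simp⟩
  have hO : IsOpen (U ×ˢ (univ : Set (E ι))) := hU.prod isOpen_univ
  have hqy : ∀ y, ContDiffOn ℝ 1 (fun x' => q x' y) U := fun y =>
    hq.comp (contDiff_prodMk_left y).contDiffOn fun x hx => ⟨hx, mem_univ _⟩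
  have hd : ∀ x ∈ A, ∀ y, DifferentiableAt ℝ (fun x' => q x' y) x := fun x hx y =>
    ((hqy y).contDiffAt (hU.mem_nhds (hAU hx))).differentiableAt one_ne_zero
  have hD : ContinuousOn (fun z : E ι × E ι => gradient (fun x' => q x' z.2) z.1) (U ×ˢ univ) := by
    have h1 := hq.continuousOn_fderiv_of_isOpen hO le_rfl
    have h2 : ContinuousOn (fun z : E ι × E ι => (InnerProductSpace.toDual ℝ (E ι)).symm
        ((fderiv ℝ (fun z : E ι × E ι => q z.1 z.2) z).comp
          (ContinuousLinearMap.inl ℝ (E ι) (E ι)))) (U ×ˢ univ) :=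
      (InnerProductSpace.toDual ℝ (E ι)).symm.continuous.comp_continuousOn
        (h1.clm_comp continuousOn_const)
    refine h2.congr fun z hz => ?_
    have h3 := ((hq.contDiffAt (hO.mem_nhds hz)).differentiableAt one_ne_zero).hasFDerivAt
    have h4 := h3.comp z.1 (hasFDerivAt_prodMk_left (𝕜 := ℝ) z.1 z.2)
    simp only [gradient]
    rw [← h4.fderiv]
    rfl
  have hAA : A ×ˢ A ⊆ U ×ˢ univ := fun z hz => ⟨hAU hz.1, mem_univ _⟩
  obtain ⟨K, hK⟩ := (hA.prod hA).exists_bound_of_continuousOn (hD.mono hAA)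
  have hK' : ∀ x ∈ A, ∀ y ∈ A, ‖gradient (fun x' => q x' y) x‖ ≤ K := fun x hx y hy =>
    hK (x, y) ⟨hx, hy⟩
  have hK0 : 0 ≤ K := by
    obtain ⟨x, hx⟩ := hne
    exact (norm_nonneg _).trans (hK' x hx x hx)
  have hnet : ∀ j : ℕ, ∃ Y : Finset (E ι), (∀ y ∈ Y, y ∈ A) ∧
      ∀ x ∈ A, ∃ y ∈ Y, dist x y < 1 / ((j : ℝ) + 1) := by
    intro j
    obtain ⟨t, h1, h2, h3⟩ := hA.finite_cover_balls (e := 1 / ((j : ℝ) + 1)) (by positivity)
    refine ⟨h2.toFinset, fun y hy => h1 (h2.mem_toFinset.mp hy), fun x hx => ?_⟩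
    obtain ⟨y, hy, hxy⟩ := mem_iUnion₂.mp (h3 hx)
    exact ⟨y, h2.mem_toFinset.mpr hy, hxy⟩
  choose Y hYA hY using hnet
  have hYne : ∀ j, (Y j).Nonempty := fun j => by
    obtain ⟨x, hx⟩ := hne
    obtain ⟨y, hy, -⟩ := hY j x hx
    exact ⟨y, hy⟩
  have hN : ∀ j, (0 : ℝ) < (Y j).card := fun j => by exact_mod_cast (hYne j).card_pos
  obtain ⟨β, hβ⟩ : ∃ β : ℕ → ℝ, ∀ j, β j = ((j : ℝ) + 1) * (Y j).card := ⟨_, fun _ => rfl⟩
  have hβ0 : ∀ j, 0 < β j := fun j => by rw [hβ]; have := hN j; positivity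
  have hZ : ∀ j x, 0 < ∑ y ∈ Y j, Real.exp (β j * q x y) := fun j x =>
    Finset.sum_pos (fun _ _ => Real.exp_pos _) (hYne j)
  have hsm : ∀ ε : ℝ, 0 < ε → ∀ᶠ j : ℕ in atTop, 1 / ((j : ℝ) + 1) < ε := fun ε hε =>
    (tendsto_one_div_add_atTop_nhds_zero_nat (𝕜 := ℝ)).eventually (gt_mem_nhds hε)
  have hlow : ∀ ε : ℝ, 0 < ε → ∀ᶠ j : ℕ in atTop, ∀ x ∈ A,
      Real.exp (β j * (k x - ε)) < ∑ y ∈ Y j, Real.exp (β j * q x y) := by
    intro ε hε
    obtain ⟨d, hd0, hdd⟩ := Metric.uniformContinuousOn_iff.mp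
      ((hA.prod hA).uniformContinuousOn_of_continuous (hq.continuousOn.mono hAA)) ε hε
    filter_upwards [hsm d hd0] with j hj x hx
    obtain ⟨y0, hy0, hy1⟩ := (hk x hx).1
    obtain ⟨y, hy, hyy⟩ := hY j y0 hy0
    have h1 := hdd (x, y0) ⟨hx, hy0⟩ (x, y) ⟨hx, hYA j y hy⟩ (by
      rw [Prod.dist_eq]; simp only [dist_self]; exact max_lt hd0 (hyy.trans hj))
    rw [Real.dist_eq, abs_lt] at h1
    refine lt_of_lt_of_le (Real.exp_lt_exp.mpr (mul_lt_mul_of_pos_left ?_ (hβ0 j)))
      (Finset.single_le_sum (f := fun y => Real.exp (β j * q x y))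
        (fun _ _ => (Real.exp_pos _).le) hy)
    simp only at h1
    linarith [h1.2]
  have hw : ∀ j x, ∑ y ∈ Y j, Real.exp (β j * q x y) / ∑ y ∈ Y j, Real.exp (β j * q x y) = 1 :=
    fun j x => by rw [← Finset.sum_div, div_self (hZ j x).ne']
  refine ⟨fun j x => Real.log (∑ y ∈ Y j, Real.exp (β j * q x y)) / β j, K, fun j => ?_, ?_,
    fun j x hx => ?_, fun x hx δ hδ => ?_⟩
  · exact ((ContDiffOn.sum fun y _ => (contDiffOn_const.mul (hqy y)).exp).log
      fun x _ => (hZ j x).ne').div_const _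
  · refine Metric.tendstoUniformlyOn_iff.mpr fun ε hε => ?_
    filter_upwards [hsm ε hε, hlow ε hε] with j h1 h2 x hx
    have h3 := (Real.lt_log_iff_exp_lt (hZ j x)).mpr (h2 x hx)
    have h4 : ∑ y ∈ Y j, Real.exp (β j * q x y) ≤ (Y j).card * Real.exp (β j * k x) := by
      rw [← nsmul_eq_mul]
      exact Finset.sum_le_card_nsmul _ _ _ fun y hy => Real.exp_le_exp.mpr
        (mul_le_mul_of_nonneg_left ((hk x hx).2 y (hYA j y hy)) (hβ0 j).le)
    have h5 := Real.log_le_log (hZ j x) h4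
    rw [Real.log_mul (hN j).ne' (Real.exp_pos _).ne', Real.log_exp] at h5
    have h6 := Real.log_le_sub_one_of_pos (hN j)
    have h7 : ((Y j).card : ℝ) < β j * ε := by
      rw [div_lt_iff₀ (by positivity)] at h1
      rw [hβ]
      nlinarith [hN j]
    rw [Real.dist_eq, abs_lt, lt_sub_comm, sub_lt_comm, div_lt_iff₀ (hβ0 j), lt_div_iff₀ (hβ0 j)]
    constructor <;> linarith
  · rw [SMXx.grad _ (hYne j) _ (hβ0 j).ne' q x (hd x hx)]
    refine (norm_sum_le _ _).trans ?_
    rw [← one_mul K, ← hw j x, Finset.sum_mul]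
    refine Finset.sum_le_sum fun y hy => ?_
    have := hZ j x
    rw [norm_smul, Real.norm_of_nonneg (by positivity)]
    exact mul_le_mul_of_nonneg_left (hK' x hx y (hYA j y hy)) (by positivity)
  · have hc : Continuous fun y => gradient (fun x' => q x' y) x :=
      hD.comp_continuous (Continuous.prodMk_right x) fun y => ⟨hAU hx, mem_univ _⟩
    have hc2 : Continuous fun y => q x y :=
      hq.continuousOn.comp_continuous (Continuous.prodMk_right x) fun y => ⟨hAU hx, mem_univ _⟩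
    have hB : IsCompact (A ∩ ⋂ y' ∈ {y' | y' ∈ A ∧ q x y' = k x},
        {y | δ / 2 ≤ ‖gradient (fun x' => q x' y) x - gradient (fun x' => q x' y') x‖}) :=
      hA.inter_right (isClosed_biInter fun y' _ =>
        isClosed_le continuous_const (hc.sub continuous_const).norm)
    obtain ⟨d, hd0, hdd⟩ := hB.exists_forall_le' (f := fun y => k x - q x y) (a := 0)
      (continuous_const.sub hc2).continuousOn (by
        intro y hy
        refine sub_pos.mpr (lt_of_le_of_ne ((hk x hx).2 y hy.1) fun h => ?_)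
        have := mem_iInter₂.mp hy.2 y ⟨hy.1, h⟩
        simp only [mem_ofPred_eq, sub_self, norm_zero] at this
        linarith)
    have hg : ∀ y, ∃ y', y' ∈ A ∧ q x y' = k x ∧ (y ∈ A → k x - q x y < d →
        ‖gradient (fun x' => q x' y) x - gradient (fun x' => q x' y') x‖ < δ / 2) := by
      intro y
      by_contra h
      push Not at h
      obtain ⟨y0, hy0, hy1⟩ := (hk x hx).1
      obtain ⟨h1, h2, -⟩ := h y0 hy0 hy1
      exact absurd (hdd y ⟨h1, mem_iInter₂.mpr fun y' hy' => (h y' hy'.1 hy'.2).2.2⟩) (not_le.mpr h2)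
    choose g hg1 hg2 hg3 using hg
    filter_upwards [hlow (d / 2) (by positivity),
      hsm (δ * d / (8 * (K + 1))) (by positivity)] with j h1 h2
    have hZ' := hZ j x
    have hβ' := hβ0 j
    refine ⟨∑ y ∈ Y j, (Real.exp (β j * q x y) / ∑ y ∈ Y j, Real.exp (β j * q x y)) •
      gradient (fun x' => q x' (g y)) x, (convex_convexHull ℝ _).sum_mem
        (fun y _ => by positivity) (hw j x)
        fun y _ => subset_convexHull ℝ _ ⟨g y, hg1 y, hg2 y, rfl⟩, ?_⟩
    rw [SMXx.grad _ (hYne j) _ (hβ0 j).ne' q x (hd x hx), ← Finset.sum_sub_distrib]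
    refine (norm_sum_le _ _).trans ((Finset.sum_le_sum (g := fun y =>
      Real.exp (β j * q x y) / (∑ y ∈ Y j, Real.exp (β j * q x y)) * (δ / 2) +
        2 / (β j * d) * (2 * K)) fun y hy => ?_).trans ?_)
    · rw [← smul_sub, norm_smul, Real.norm_of_nonneg (by positivity)]
      by_cases hyd : k x - q x y < d
      · exact le_add_of_le_of_nonneg (mul_le_mul_of_nonneg_left
          (hg3 y (hYA j y hy) hyd).le (by positivity)) (by positivity)
      · refine le_add_of_nonneg_of_le (by positivity) (mul_le_mul ?_ ?_ (norm_nonneg _)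
          (by positivity))
        · rw [div_le_div_iff₀ hZ' (by positivity)]
          have h3 : β j * d / 2 + 1 ≤ Real.exp (β j * d / 2) := Real.add_one_le_exp _
          have h4 : Real.exp (β j * q x y) * Real.exp (β j * d / 2) ≤
              Real.exp (β j * (k x - d / 2)) := by
            rw [← Real.exp_add]
            apply Real.exp_le_exp.mpr
            nlinarith [not_lt.mp hyd]
          nlinarith [h1 x hx, Real.exp_pos (β j * q x y)]
        · refine (norm_sub_le _ _).trans ?_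
          linarith [hK' x hx y (hYA j y hy), hK' x hx _ (hg1 y)]
    · rw [Finset.sum_add_distrib, ← Finset.sum_mul, hw, Finset.sum_const, nsmul_eq_mul, hβ]
      have h3 : ((Y j).card : ℝ) * (2 / (((j : ℝ) + 1) * (Y j).card * d) * (2 * K)) =
          1 / ((j : ℝ) + 1) * (4 * K / d) := by
        have := hN j
        field_simp
        ring
      have h4 : δ * d / (8 * (K + 1)) * (4 * K / d) ≤ δ / 2 := by
        rw [show δ * d / (8 * (K + 1)) * (4 * K / d) = δ / 2 * (K / (K + 1)) by field_simp; ring]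
        exact mul_le_of_le_one_right (by positivity) ((div_le_one (by positivity)).mpr (by linarith))
      have h5 := mul_le_mul_of_nonneg_right h2.le (show 0 ≤ 4 * K / d by positivity)
      rw [h3]
      linarith

end Pool.Agent.P.MP_2b44f0_gt.PD
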