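import Pool.Agent.P.MP_2b44f0_gt.PD.IfC

/-! Step SOFT. -/

namespace Pool.Agent.P.MP_2b44f0_gt.PD

open MeasureTheory Set Filter Asymptotics
open scoped ENNReal RealInnerProductSpace Topology

namespace SOFTx

theorem fatou {α : Type} [MeasurableSpace α] (μ : Measure α) [IsFiniteMeasure μ] (A : Set α)
    (hA : ∀ᵐ x ∂μ, x ∈ A) (g : ℕ → α → ℝ) (hg : ∀ j, Measurable (g j)) (h0 : ∀ j x, 0 ≤ g j x)
    (B : ℝ) (hB : ∀ᶠ j in atTop, ∀ x ∈ A, g j x ≤ B) (a : ℕ → ℝ) (a0 : ℝ)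
    (ha : Tendsto a atTop (𝓝 a0)) (hle : ∀ᶠ j in atTop, a j ≤ ∫ x, g j x ∂μ) :
    ∃ G : α → ℝ, Integrable G μ ∧ a0 ≤ ∫ x, G x ∂μ ∧
      ∀ x, ∀ R : ℝ, (∀ δ : ℝ, 0 < δ → ∀ᶠ j in atTop, g j x ≤ R + δ) → G x ≤ R := by
  have hc : ∀ x, IsCoboundedUnder (· ≤ ·) atTop fun j => g j x := fun x =>
    isCoboundedUnder_le_of_le atTop (x := 0) fun j => h0 j x
  have hb : ∀ x ∈ A, IsBoundedUnder (· ≤ ·) atTop fun j => g j x := fun x hx =>
    ⟨B, hB.mono fun j hj => hj x hx⟩
  set G : α → ℝ := fun x => limsup (fun j => g j x) atTop with hG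
  have hm : Measurable G := Measurable.limsup hg
  have hG0 : ∀ x ∈ A, 0 ≤ G x := fun x hx =>
    le_limsup_of_frequently_le (Frequently.of_forall fun j => h0 j x) (hb x hx)
  have hGB : ∀ x ∈ A, G x ≤ B := fun x hx => limsup_le_of_le (hc x) (hB.mono fun j hj => hj x hx)
  have hi : Integrable G μ := Integrable.of_bound hm.aestronglyMeasurable B
    (hA.mono fun x hx => by rw [Real.norm_eq_abs, abs_of_nonneg (hG0 x hx)]; exact hGB x hx)
  refine ⟨G, hi, ?_, fun x R hR => le_of_forall_pos_le_add fun δ hδ =>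
    limsup_le_of_le (hc x) (hR δ hδ)⟩
  have hbd : ∀ᶠ j in atTop, ∀ᵐ x ∂μ, ‖max (g j x) (G x)‖ ≤ B := hB.mono fun j hj =>
    hA.mono fun x hx => by
      rw [Real.norm_eq_abs, abs_of_nonneg (le_max_of_le_left (h0 j x))]
      exact max_le (hj x hx) (hGB x hx)
  have ht : Tendsto (fun j => ∫ x, max (g j x) (G x) ∂μ) atTop (𝓝 (∫ x, G x ∂μ)) := by
    refine tendsto_integral_filter_of_dominated_convergence (fun _ => B)
      (Eventually.of_forall fun j => ((hg j).max hm).aestronglyMeasurable) hbd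
      (integrable_const B) (hA.mono fun x hx => ?_)
    refine tendsto_order.2 ⟨fun c hc => Eventually.of_forall fun j => lt_max_of_lt_right hc,
      fun c hc => ?_⟩
    exact (eventually_lt_of_limsup_lt hc (hb x hx)).mono fun j hj => max_lt hj hc
  refine le_of_tendsto_of_tendsto ha ht ?_
  filter_upwards [hle, hbd] with j hj hj'
  exact hj.trans (integral_mono_of_nonneg (Eventually.of_forall (h0 j))
    (Integrable.of_bound ((hg j).max hm).aestronglyMeasurable B hj')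
    (Eventually.of_forall fun x => le_max_left _ _))

variable {ι : Type} [Fintype ι] {n : ℕ} {C U : Set (E ι)} {F : E ι → ℝ}

noncomputable def prL (F : E ι → ℝ) (x : E ι) : E ι →L[ℝ] E ι :=
  ContinuousLinearMap.id ℝ _ - (innerSL ℝ x).smulRight x -
    (innerSL ℝ (normal F x)).smulRight (normal F x)

theorem prL_apply (F : E ι → ℝ) (x v : E ι) : prL F x v = prT F x v := by simp [prL, prT]

theorem prT_le (h : St n C U F) {x : E ι} (hx : x ∈ lk C) (v : E ι) : ‖prT F x v‖ ≤ 3 * ‖v‖ := by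
  have h1 := abs_real_inner_le_norm x v
  have h2 := abs_real_inner_le_norm (normal F x) v
  have h3 := norm_sub_le (v - ⟪x, v⟫ • x) (⟪normal F x, v⟫ • normal F x)
  have h4 := norm_sub_le v (⟪x, v⟫ • x)
  rw [norm_smul, Real.norm_eq_abs] at h3 h4
  rw [lk_norm hx] at h1 h4
  rw [h.norm_normal (h.lk_sub hx)] at h2 h3
  unfold prT
  linarith

theorem meas_grad (φ : E ι → ℝ) : Measurable (gradient φ) :=
  (InnerProductSpace.toDual ℝ (E ι)).symm.continuous.measurable.comp (measurable_fderiv ℝ φ)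

theorem meas_prT (F φ : E ι → ℝ) : Measurable fun x => ‖prT F x (gradient φ x)‖ ^ 2 := by
  have h1 := meas_grad φ
  have h3 := meas_grad F
  have h2 : Measurable (normal F) := by unfold normal; fun_prop
  have h4 : Measurable fun x : E ι => ⟪x, gradient φ x⟫ := Measurable.inner measurable_id h1
  have h5 : Measurable fun x : E ι => ⟪normal F x, gradient φ x⟫ := Measurable.inner h2 h1
  have h6 : Measurable fun x => prT F x (gradient φ x) :=
    (h1.sub (h4.smul measurable_id)).sub (h5.smul h2)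
  exact h6.norm.pow_const 2

theorem hull {P : Set (E ι)} (c : E ι) (t R : ℝ) (hP : ∀ g ∈ P, ‖c + t • g‖ ≤ R) {z : E ι}
    (hz : z ∈ convexHull ℝ P) : ‖c + t • z‖ ≤ R := by
  refine convexHull_min (t := {u | ‖c + t • u‖ ≤ R}) hP ?_ hz
  intro u hu v hv a b ha hb hab
  have e : c + t • (a • u + b • v) = a • (c + t • u) + b • (c + t • v) := by
    obtain rfl : b = 1 - a := by linarith
    module
  have h1 := norm_add_le (a • (c + t • u)) (b • (c + t • v))
  rw [norm_smul, norm_smul, Real.norm_of_nonneg ha, Real.norm_of_nonneg hb] at h1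
  have h2 := mul_le_mul_of_nonneg_left (show ‖c + t • u‖ ≤ R from hu) ha
  have h3 := mul_le_mul_of_nonneg_left (show ‖c + t • v‖ ≤ R from hv) hb
  have h4 : a * R + b * R = R := by rw [← add_mul, hab, one_mul]
  show ‖c + t • (a • u + b • v)‖ ≤ R
  rw [e]; linarith

theorem side (hMAX : Q_MAX) (hSMX : Q_SMX) (hQT : Q_QT) (h : St n C U F) :
    ∃ ε₀ : ℝ, 0 < ε₀ ∧ ∀ ε, 0 < ε → ε ≤ ε₀ → ∃ (s : ℕ → E ι → ℝ) (K : ℝ),
      (∀ j, ContDiffOn ℝ 1 (s j) U) ∧ TendstoUniformlyOn s (kap C F ε) atTop (lk C) ∧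
      (∀ j, ∀ x ∈ lk C, ‖prT F x (gradient (s j) x)‖ ≤ K) ∧
      ∀ x ∈ lk C, ∃ P : Set (E ι), IsCompact P ∧ P.Nonempty ∧
        (∀ p ∈ P, ∃ y, IsMx C F ε x y ∧ p = pv F ε x y) ∧ ∀ δ : ℝ, 0 < δ → ∀ᶠ j in atTop,
          ∃ z ∈ convexHull ℝ P, ‖prT F x (gradient (s j) x) - z‖ ≤ δ := by
  obtain ⟨ε₀, h0, H⟩ := hQT ι n C U F h
  refine ⟨ε₀, h0, fun ε hε hle => ?_⟩
  obtain ⟨q, hq, Hq⟩ := H ε hε hle
  have hex : ∀ x ∈ lk C, ∃ y ∈ lk C, q x y = kap C F ε x := fun x hx => by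
    obtain ⟨y, hy⟩ := (hMAX ι n C U F h ε hε x hx).1
    exact ⟨y, hy.1, (Hq x hx y hy.1).2.1.2 hy⟩
  obtain ⟨s, K, h1, h2, h3, h4⟩ := hSMX ι (lk C) U q (kap C F ε) h.compact h.chart.isOpen h.lk_sub
    hq fun x hx => ⟨hex x hx, fun y hy => (Hq x hx y hy).1⟩
  refine ⟨s, 3 * K, h1, h2, fun j x hx => (prT_le h hx _).trans (by linarith [h3 j x hx]),
    fun x hx => ?_⟩
  have hO : IsOpen (U ×ˢ (univ : Set (E ι))) := h.chart.isOpen.prod isOpen_univ
  have hxy : ∀ y : E ι, (x, y) ∈ U ×ˢ (univ : Set (E ι)) := fun y => ⟨h.lk_sub hx, mem_univ _⟩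
  have hin : Continuous fun y : E ι => (x, y) := by fun_prop
  have c1 : Continuous fun y => q x y := hq.continuousOn.comp_continuous hin hxy
  have c2 : Continuous fun y => gradient (fun x' => q x' y) x := by
    have e : ∀ y, fderiv ℝ (fun x' => q x' y) x =
        (fderiv ℝ (fun z : E ι × E ι => q z.1 z.2) (x, y)).comp (.inl ℝ _ _) := fun y => by
      have := (HasFDerivAt.comp x (f := fun x' : E ι => (x', y))
        ((hq.contDiffAt (hO.mem_nhds (hxy y))).differentiableAt one_ne_zero).hasFDerivAt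
        (hasFDerivAt_prodMk_left x y)).fderiv
      exact this
    simp only [gradient, e]
    exact (InnerProductSpace.toDual ℝ (E ι)).symm.continuous.comp
      (((hq.continuousOn_fderiv_of_isOpen hO le_rfl).comp_continuous hin hxy).clm_comp
        continuous_const)
  have hK : IsCompact (lk C ∩ {y | q x y = kap C F ε x}) :=
    h.compact.inter_right (isClosed_eq c1 continuous_const)
  refine ⟨(fun y => prL F x (gradient (fun x' => q x' y) x)) '' (lk C ∩ {y | q x y = kap C F ε x}),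
    hK.image ((prL F x).continuous.comp c2), Nonempty.image _ (hex x hx), ?_, fun δ hδ => ?_⟩
  · rintro _ ⟨y, ⟨hy, he⟩, rfl⟩
    have := (Hq x hx y hy).2.1.1 he
    exact ⟨y, this, by rw [← (Hq x hx y hy).2.2 this]; exact prL_apply _ _ _⟩
  · filter_upwards [h4 x hx (δ / 3) (by positivity)] with j ⟨z, hz, hd⟩
    refine ⟨prL F x z, ?_, ?_⟩
    · refine convexHull_min (t := prL F x ⁻¹' convexHull ℝ _) ?_
        ((convex_convexHull ℝ _).linear_preimage (prL F x).toLinearMap) hz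
      rintro _ ⟨y, hy, he, rfl⟩
      exact subset_convexHull ℝ _ ⟨y, ⟨hy, he⟩, rfl⟩
    · rw [← prL_apply, ← map_sub, prL_apply]
      linarith [prT_le h hx (gradient (s j) x - z)]

theorem chain {f : W → ℝ} {a b c : E ι → ℝ} {x : E ι} (η : ℝ) (F : E ι → ℝ)
    (hf : DifferentiableAt ℝ f (a x, b x + η, c x + η)) (ha : DifferentiableAt ℝ a x)
    (hb : DifferentiableAt ℝ b x) (hc : DifferentiableAt ℝ c x) :
    prT F x (gradient (fun y => f (a y, b y + η, c y + η)) x) =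
      cmb (gr f (a x, b x + η, c x + η)) (prT F x (gradient a x)) (prT F x (gradient b x))
        (prT F x (gradient c x)) := by
  have e : gradient (fun y => f (a y, b y + η, c y + η)) x =
      cmb (gr f (a x, b x + η, c x + η)) (gradient a x) (gradient b x) (gradient c x) := by
    refine ext_inner_right ℝ fun v => ?_
    have h1 := (hf.hasFDerivAt.comp x (ha.hasFDerivAt.prodMk
      ((hb.hasFDerivAt.add_const η).prodMk (hc.hasFDerivAt.add_const η)))).fderiv
    have h2 : ((fderiv ℝ a x v, fderiv ℝ b x v, fderiv ℝ c x v) : W) = fderiv ℝ a x v • (1, 0, 0) +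
        fderiv ℝ b x v • (0, 1, 0) + fderiv ℝ c x v • (0, 0, 1) := by simp
    rw [inner_gradient_left, show (fun y => f (a y, b y + η, c y + η)) =
      f ∘ fun y => (a y, b y + η, c y + η) from rfl, h1]
    simp only [ContinuousLinearMap.comp_apply, ContinuousLinearMap.prod_apply, h2, map_add,
      map_smul, cmb, gr, inner_add_left, real_inner_smul_left, inner_gradient_left, smul_eq_mul]
    ring
  simp only [e, cmb, ← prL_apply, map_add, map_smul]

theorem cmb_le (a : W) (g p q : E ι) : ‖cmb a g p q‖ ≤ ‖a‖ * (‖g‖ + ‖p‖ + ‖q‖) := by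
  have h1 : ‖a.1‖ ≤ ‖a‖ := norm_fst_le a
  have h2 : ‖a.2.1‖ ≤ ‖a‖ := (norm_fst_le a.2).trans (norm_snd_le a)
  have h3 : ‖a.2.2‖ ≤ ‖a‖ := (norm_snd_le a.2).trans (norm_snd_le a)
  refine norm_add₃_le.trans ?_
  rw [norm_smul, norm_smul, norm_smul, mul_add, mul_add]
  gcongr

end SOFTx

open SOFTx

theorem c_SOFT (hMAX : Q_MAX) (hSEMI : Q_SEMI) (hFIN : Q_FIN) (hSMX : Q_SMX) (hSTAB : Q_STAB) (hQT : Q_QT) :
    Q_SOFT := by
  intro ι _ n C U F h hst
  obtain ⟨e1, p1, H1⟩ := side hMAX hSMX hQT h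
  obtain ⟨e2, p2, H2⟩ := side hMAX hSMX hQT h.neg
  obtain ⟨e3, p3, H3⟩ := hSEMI ι n C U F h
  obtain ⟨e4, p4, H4⟩ := hSEMI ι n C U (-F) h.neg
  obtain ⟨hfin, hae, -, hint⟩ := hFIN ι n C U F h
  refine ⟨min (min e1 e2) (min e3 e4), by positivity, fun ε hε hle η Ω f hΩ hf hw => ?_⟩
  simp only [le_min_iff] at hle
  obtain ⟨s, K, s1, s2, s3, s4⟩ := H1 ε hε hle.1.1
  obtain ⟨r, K', r1, r2, r3, r4⟩ := H2 ε hε hle.1.2
  simp only [prT_neg] at r3 r4
  have hU := h.chart.isOpen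
  have hS : ContDiffOn ℝ 1 (sqCurv F) U := h.sm_sqCurv.of_le (by simp)
  have hSc : ContinuousOn (sqCurv F) (lk C) := hS.continuousOn.mono h.lk_sub
  have cw : ContinuousOn (stt C F ε η) (lk C) := hSc.prodMk
    (((H3 ε hε hle.2.1).1.add continuousOn_const).prodMk
      ((H4 ε hε hle.2.2).1.add continuousOn_const))
  set w : ℕ → E ι → W := fun j y => (sqCurv F y, s j y + η, r j y + η) with hwd
  have dw : ∀ j, ContDiffOn ℝ 1 (w j) U := fun j =>
    hS.prodMk (((s1 j).add contDiffOn_const).prodMk ((r1 j).add contDiffOn_const))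
  have hT : IsCompact (stt C F ε η '' lk C) := h.compact.image_of_continuousOn cw
  obtain ⟨d, hd, hdΩ⟩ := hT.exists_cthickening_subset_open hΩ (image_subset_iff.2 hw)
  have hT' := hT.cthickening (r := d)
  set T := Metric.cthickening d (stt C F ε η '' lk C)
  have near : ∀ δ : ℝ, 0 < δ → ∀ᶠ j in atTop, ∀ x ∈ lk C, dist (w j x) (stt C F ε η x) < δ := by
    intro δ hδ
    filter_upwards [Metric.tendstoUniformlyOn_iff.1 s2 δ hδ,
      Metric.tendstoUniformlyOn_iff.1 r2 δ hδ] with j a b x hx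
    simp only [hwd, stt, Prod.dist_eq, dist_self, dist_add_right, max_lt_iff]
    exact ⟨hδ, by rw [dist_comm]; exact a x hx, by rw [dist_comm]; exact b x hx⟩
  have lim : ∀ x ∈ lk C, Tendsto (fun j => w j x) atTop (𝓝 (stt C F ε η x)) := fun x hx =>
    Metric.tendsto_nhds.2 fun δ hδ => (near δ hδ).mono fun j hj => hj x hx
  have inT : ∀ᶠ j in atTop, ∀ x ∈ lk C, w j x ∈ T := (near d hd).mono fun j hj x hx =>
    Metric.mem_cthickening_of_dist_le _ _ _ _ (mem_image_of_mem _ hx) (hj x hx).le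
  have cgr : ContinuousOn (gr f) Ω := by
    have := hf.continuousOn_fderiv_of_isOpen hΩ le_rfl
    exact (this.clm_apply continuousOn_const).prodMk
      ((this.clm_apply continuousOn_const).prodMk (this.clm_apply continuousOn_const))
  obtain ⟨B1, hB1⟩ := hT'.exists_bound_of_continuousOn (hf.continuousOn.mono hdΩ)
  obtain ⟨B2, hB2⟩ := hT'.exists_bound_of_continuousOn (cgr.mono hdΩ)
  obtain ⟨B3, hB3⟩ := h.compact.exists_bound_of_continuousOn
    (hSc.sub (continuousOn_const (c := ((n : ℝ) - 1) ^ 2 / 4)))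
  obtain ⟨B4, hB4⟩ := h.compact.exists_bound_of_continuousOn
    ((hS.continuousOn_fderiv_of_isOpen hU le_rfl).mono h.lk_sub)
  have b4 : ∀ x ∈ lk C, ‖prT F x (gradient (sqCurv F) x)‖ ≤ 3 * B4 := fun x hx => by
    have : ‖gradient (sqCurv F) x‖ = ‖fderiv ℝ (sqCurv F) x‖ := by simp [gradient]
    linarith [prT_le h hx (gradient (sqCurv F) x), hB4 x hx]
  have df : ∀ {φ : E ι → ℝ}, ContDiffOn ℝ 1 φ U → ∀ x ∈ lk C, DifferentiableAt ℝ φ x :=
    fun hφ x hx => (hφ.contDiffAt (hU.mem_nhds (h.lk_sub hx))).differentiableAt one_ne_zero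
  have ch : ∀ᶠ j in atTop, ∀ x ∈ lk C, prT F x (gradient (fun y => f (w j y)) x) =
      cmb (gr f (w j x)) (prT F x (gradient (sqCurv F) x)) (prT F x (gradient (s j) x))
        (prT F x (gradient (r j) x)) := inT.mono fun j hj x hx =>
    chain η F ((hf.contDiffAt (hΩ.mem_nhds (hdΩ (hj x hx)))).differentiableAt one_ne_zero)
      (df hS x hx) (df (s1 j) x hx) (df (r1 j) x hx)
  have sm : ∀ j, ∀ x ∈ lk C, ‖prT F x (gradient (sqCurv F) x)‖ + ‖prT F x (gradient (s j) x)‖ +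
      ‖prT F x (gradient (r j) x)‖ ≤ 3 * B4 + K + K' := fun j x hx => by
    linarith [b4 x hx, s3 j x hx, r3 j x hx]
  obtain ⟨G, G1, G2, G3⟩ := fatou (lm n C) (lk C) hae
    (fun j x => ‖prT F x (gradient (fun y => f (w j y)) x)‖ ^ 2) (fun j => meas_prT _ _)
    (fun j x => sq_nonneg _) ((B2 * (3 * B4 + K + K')) ^ 2) (by
      filter_upwards [inT, ch] with j hj hc x hx
      rw [hc x hx]
      refine pow_le_pow_left₀ (norm_nonneg _) ((cmb_le _ _ _ _).trans ?_) 2
      exact mul_le_mul (hB2 _ (hj x hx)) (sm j x hx) (by positivity)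
        ((norm_nonneg _).trans (hB2 _ (hj x hx))))
    (fun j => ∫ x, (sqCurv F x - (n - 1) ^ 2 / 4) * f (w j x) ^ 2 ∂lm n C)
    (∫ x, (sqCurv F x - (n - 1) ^ 2 / 4) * f (stt C F ε η x) ^ 2 ∂lm n C) (by
      refine tendsto_integral_filter_of_dominated_convergence (fun _ => B3 * B1 ^ 2) ?_ ?_
        (integrable_const _) (hae.mono fun x hx => ?_)
      · filter_upwards [inT] with j hj
        exact (hint _ ((hSc.sub continuousOn_const).mul ((hf.continuousOn.comp
          ((dw j).continuousOn.mono h.lk_sub) fun x hx => hdΩ (hj x hx)).pow 2))).1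
      · filter_upwards [inT] with j hj
        filter_upwards [hae] with x hx
        rw [norm_mul, norm_pow]
        exact mul_le_mul (hB3 x hx) (pow_le_pow_left₀ (norm_nonneg _) (hB1 _ (hj x hx)) 2)
          (by positivity) ((norm_nonneg _).trans (hB3 x hx))
      · exact (((hf.continuousOn.continuousAt (hΩ.mem_nhds (hw x hx))).tendsto.comp
          (lim x hx)).pow 2).const_mul _) (by
      filter_upwards [inT] with j hj
      exact hSTAB ι n C U F h hst (U ∩ w j ⁻¹' Ω) (fun y => f (w j y))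
        ((dw j).continuousOn.isOpen_inter_preimage hU hΩ)
        (fun x hx => ⟨h.lk_sub hx, hdΩ (hj x hx)⟩)
        (hf.comp ((dw j).mono inter_subset_left) fun x hx => hx.2))
  refine ⟨G, G1, G2, fun x hx => ?_⟩
  obtain ⟨P, P1, P2, P3, P4⟩ := s4 x hx
  obtain ⟨Q, Q1, Q2, Q3, Q4⟩ := r4 x hx
  set a := gr f (stt C F ε η x) with ha
  set g := prT F x (gradient (sqCurv F) x) with hg
  obtain ⟨⟨p, q⟩, ⟨hp, hq⟩, hm⟩ := (P1.prod Q1).exists_isMaxOn (P2.prod Q2)
    (f := fun z : E ι × E ι => ‖cmb a g z.1 z.2‖) (by unfold cmb; fun_prop)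
  obtain ⟨y, hy, rfl⟩ := P3 p hp
  obtain ⟨y', hy', rfl⟩ := Q3 q hq
  refine ⟨y, y', hy, hy', G3 x _ fun δ hδ => ?_⟩
  set R := ‖cmb a g (pv F ε x y) (pv (-F) ε x y')‖ with hR
  have hH : ∀ z ∈ convexHull ℝ P, ∀ z' ∈ convexHull ℝ Q, ‖cmb a g z z'‖ ≤ R := by
    intro z hz z' hz'
    refine hull (a.1 • g + a.2.1 • z) a.2.2 R (fun v hv => ?_) hz'
    rw [add_right_comm]
    refine hull _ _ R (fun u hu => ?_) hz
    rw [add_right_comm]
    exact isMaxOn_iff.1 hm (u, v) (mk_mem_prod hu hv)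
  have ht : Tendsto (fun t : ℝ => (R + t * (3 * B4 + K + K') + ‖a‖ * (t + t)) ^ 2) (𝓝[>] 0)
      (𝓝 ((R + 0 * (3 * B4 + K + K') + ‖a‖ * (0 + 0)) ^ 2)) :=
    (Continuous.tendsto (by fun_prop) 0).mono_left nhdsWithin_le_nhds
  obtain ⟨t, ht1, ht0⟩ := ((ht.eventually (gt_mem_nhds (a := R ^ 2 + δ) (by simpa using hδ))).and
    self_mem_nhdsWithin).exists
  have hl := ((cgr.continuousAt (hΩ.mem_nhds (hw x hx))).tendsto.comp (lim x hx))
  filter_upwards [ch, P4 t ht0, Q4 t ht0, Metric.tendsto_nhds.1 hl t ht0] with j hc ⟨z, hz, dz⟩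
    ⟨z', hz', dz'⟩ hd'
  rw [hc x hx]
  refine le_trans (pow_le_pow_left₀ (norm_nonneg _) ?_ 2) ht1.le
  set u := prT F x (gradient (s j) x)
  set v := prT F x (gradient (r j) x)
  have e : cmb (gr f (w j x)) g u v =
      cmb a g z z' + cmb (gr f (w j x) - a) g u v + cmb a 0 (u - z) (v - z') := by
    simp only [cmb, Prod.fst_sub, Prod.snd_sub]; module
  rw [e]
  refine norm_add₃_le.trans (add_le_add_three (hH z hz z' hz') ((cmb_le _ _ _ _).trans ?_)
    ((cmb_le _ _ _ _).trans ?_))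
  · exact mul_le_mul (by rw [← dist_eq_norm]; exact hd'.le) (sm j x hx) (by positivity)
      (le_of_lt ht0)
  · rw [norm_zero, zero_add]
    gcongr

end Pool.Agent.P.MP_2b44f0_gt.PD
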