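import Pool.Agent.P.MP_2b44f0_gt.PD.IfC
import Pool.Agent.P.MP_2b44f0_gt.PD.TLDIV

/-! Step STAB. -/

namespace Pool.Agent.P.MP_2b44f0_gt.PD

open MeasureTheory Set Filter Asymptotics
open scoped ENNReal RealInnerProductSpace Topology Manifold

namespace STABx

open LDIVx

theorem cv (H : ℝ → ℝ) : ∫ r in Ioi (0 : ℝ), H r = ∫ u, Real.exp u * H (Real.exp u) := by
  have := integral_image_eq_integral_abs_deriv_smul MeasurableSet.univ
    (fun x _ => (Real.hasDerivAt_exp x).hasDerivWithinAt) Real.exp_injective.injOn H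
  simpa [Real.range_exp, abs_of_pos (Real.exp_pos _)] using this

/-- the radial profile -/
noncomputable def om (a t r : ℝ) : ℝ := Real.exp (-(a * Real.log r)) * bp (t * Real.log r)

variable {a t r : ℝ}

theorem om_zero (ht : 0 < t) (h : |r| ≤ 1) : om a t r = 0 := by
  have h1 : t * Real.log r ≤ 0 := by
    rw [← Real.log_abs]
    exact mul_nonpos_of_nonneg_of_nonpos ht.le (Real.log_nonpos (abs_nonneg r) h)
  rw [om, bp_zero (by rw [abs_of_nonpos (by linarith)]; linarith), mul_zero]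

theorem om_sm (ht : 0 < t) : ContDiff ℝ 1 (om a t) := by
  refine contDiff_iff_contDiffAt.2 fun r => ?_
  by_cases hr : r = 0
  · refine (contDiffAt_const (c := 0)).congr_of_eventuallyEq ?_
    filter_upwards [Metric.ball_mem_nhds r one_pos] with s hs
    exact om_zero ht (by rw [hr] at hs; simpa using (mem_ball_zero_iff.1 hs).le)
  · have h1 : ContDiffAt ℝ 1 Real.log r := Real.contDiffAt_log.2 hr
    exact (contDiffAt_const.mul h1).neg.exp.mul
      ((bp_sm.of_le (by norm_num)).contDiffAt.comp r (contDiffAt_const.mul h1))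

theorem om_far (ht : 0 < t) (h : Real.exp (2 / t) < |r|) : om a t r = 0 := by
  have h1 : 2 < t * Real.log r := by
    rw [← Real.log_abs, mul_comm, ← div_lt_iff₀ ht]
    exact (Real.lt_log_iff_exp_lt ((Real.exp_pos _).trans h)).2 h
  rw [om, bp_zero (by rw [abs_of_nonneg (by linarith)]; linarith), mul_zero]

theorem om_cs (ht : 0 < t) : HasCompactSupport (om a t) :=
  HasCompactSupport.intro (isCompact_closedBall 0 (Real.exp (2 / t))) fun r hr =>
    om_far ht (by simpa using hr)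

theorem om_d (hr : 0 < r) : om a t r + r * deriv (om a t) r = Real.exp (-(a * Real.log r)) *
    ((1 - a) * bp (t * Real.log r) + t * deriv bp (t * Real.log r)) := by
  have h1 := Real.hasDerivAt_log hr.ne'
  have h2 := (h1.const_mul a).neg.exp.mul
    ((bp_sm.differentiable (by norm_num) (t * Real.log r)).hasDerivAt.comp r (h1.const_mul t))
  have h3 : HasDerivAt (om a t) _ r := h2
  rw [h3.deriv, om]
  simp only [Pi.neg_apply, Function.comp_apply]
  field_simp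
  ring

theorem cs2 {k : ℝ → ℝ} (hs : HasCompactSupport k) : HasCompactSupport fun r => k r ^ 2 :=
  hs.comp_left (g := fun x => x ^ 2) (by simp)

theorem rad_sq (n : ℕ) (ht : 0 < t) {k h : ℝ → ℝ} (hk : Continuous k) (hs : HasCompactSupport k)
    (e : ∀ r, 0 < r → k r = Real.exp (-(((n : ℝ) + 1) / 2 * Real.log r)) * h (t * Real.log r)) :
    Integrable (fun r => k r ^ 2) (rad n) ∧
      ∫ r, k r ^ 2 ∂rad n = (n + 1) * t⁻¹ * ∫ s, h s ^ 2 := by
  have h1 := rad_int n (g := fun r => k r ^ 2) (hk.pow 2) (cs2 hs)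
  refine ⟨h1.1, ?_⟩
  have h2 := Measure.integral_comp_mul_left (fun s => h s ^ 2) t
  rw [abs_of_pos (inv_pos.2 ht), smul_eq_mul] at h2
  rw [h1.2, cv, mul_assoc, ← h2, ← integral_const_mul]
  refine integral_congr_ae (Eventually.of_forall fun u => ?_)
  have h3 : Real.exp u * Real.exp u ^ n * Real.exp (-(((n : ℝ) + 1) / 2 * u)) ^ 2 = 1 := by
    rw [← Real.exp_nat_mul, ← Real.exp_nat_mul, ← Real.exp_add, ← Real.exp_add, Real.exp_eq_one_iff]
    push_cast; ring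
  simp only [e _ (Real.exp_pos u), Real.log_exp]
  linear_combination ((n : ℝ) + 1) * h (t * u) ^ 2 * h3

theorem expand (c t : ℝ) : ∫ s, (c * bp s + t * deriv bp s) ^ 2 =
    c ^ 2 * (∫ s, bp s ^ 2) + 2 * c * t * (∫ s, bp s * deriv bp s) +
      t ^ 2 * ∫ s, deriv bp s ^ 2 := by
  have c0 := bp_sm.continuous
  have c1 := bp_sm.continuous_deriv (by norm_num)
  have i0 : Integrable fun s => bp s ^ 2 :=
    (c0.pow 2).integrable_of_hasCompactSupport (cs2 bp_cs)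
  have i1 : Integrable fun s => bp s * deriv bp s :=
    (c0.mul c1).integrable_of_hasCompactSupport bp_cs.mul_right
  have i2 : Integrable fun s => deriv bp s ^ 2 :=
    (c1.pow 2).integrable_of_hasCompactSupport (cs2 bp_cs.deriv)
  have i3 : Integrable fun s => c ^ 2 * bp s ^ 2 + 2 * c * t * (bp s * deriv bp s) :=
    (i0.const_mul _).add (i1.const_mul _)
  rw [← integral_const_mul, ← integral_const_mul, ← integral_const_mul,
    ← integral_add (i0.const_mul _) (i1.const_mul _),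
    ← integral_add i3 (i2.const_mul _)]
  exact integral_congr_ae (Eventually.of_forall fun s => by ring)

theorem pos0 : 0 < ∫ s, bp s ^ 2 := by
  refine Continuous.integral_pos_of_hasCompactSupport_nonneg_nonzero (x := 1)
    (bp_sm.continuous.pow 2) (cs2 bp_cs) (fun r => sq_nonneg _) ?_
  rw [bp.one_of_mem_closedBall (by simp [bp])]
  norm_num

variable {ι : Type} [Fintype ι]

/-- the test function -/
noncomputable def ph (ω : ℝ → ℝ) (g : E ι → ℝ) (y : E ι) : ℝ := ‖y‖ * ω ‖y‖ * g (‖y‖⁻¹ • y)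

theorem ph_ev (ht : 0 < t) (g : E ι → ℝ) : ph (om a t) g =ᶠ[𝓝 0] fun _ => 0 := by
  filter_upwards [Metric.ball_mem_nhds (0 : E ι) one_pos] with y hy
  rw [ph, om_zero ht (by simpa using (mem_ball_zero_iff.1 hy).le)]
  simp

theorem ph_sm (ht : 0 < t) {g : E ι → ℝ} (hg : ContDiff ℝ 1 g) :
    ContDiff ℝ 1 (ph (om a t) g) := by
  refine contDiff_iff_contDiffAt.2 fun y => ?_
  by_cases hy : y = 0
  · rw [hy]; exact contDiffAt_const.congr_of_eventuallyEq (ph_ev ht g)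
  · have h1 : ContDiffAt ℝ 1 (fun z : E ι => ‖z‖) y := contDiffAt_norm ℝ hy
    exact (h1.mul ((om_sm ht).contDiffAt.comp y h1)).mul
      (hg.contDiffAt.comp y ((h1.inv (norm_ne_zero_iff.2 hy)).smul contDiffAt_id))

theorem ph_cs (ht : 0 < t) (g : E ι → ℝ) : HasCompactSupport (ph (om a t) g) := by
  refine HasCompactSupport.intro (isCompact_closedBall 0 (Real.exp (2 / t))) fun y hy => ?_
  rw [ph, om_far ht (by simpa using hy)]
  simp

theorem ph_grad {ω : ℝ → ℝ} (hω : ContDiff ℝ 1 ω) {g : E ι → ℝ} (hg : ContDiff ℝ 1 g) {y : E ι}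
    (hy : y ≠ 0) : gradient (ph ω g) y =
      ((ω ‖y‖ + ‖y‖ * deriv ω ‖y‖) * g (‖y‖⁻¹ • y)) • ‖y‖⁻¹ • y + ω ‖y‖ •
        (gradient g (‖y‖⁻¹ • y) - ⟪‖y‖⁻¹ • y, gradient g (‖y‖⁻¹ • y)⟫ • ‖y‖⁻¹ • y) := by
  have h0 : 0 < ‖y‖ := norm_pos_iff.2 hy
  have h1 := d_norm hy
  have h2 : HasFDerivAt (fun z : E ι => ‖z‖⁻¹ • z) _ y :=
    ((hasDerivAt_inv h0.ne').comp_hasFDerivAt y h1).smul (hasFDerivAt_id y)
  have h3 := HasFDerivAt.comp (g := g) (f := fun z : E ι => ‖z‖⁻¹ • z) y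
    (hg.differentiable (by norm_num) (‖y‖⁻¹ • y)).hasFDerivAt h2
  have h4 := (h1.mul ((hω.differentiable (by norm_num) ‖y‖).hasDerivAt.comp_hasFDerivAt y
    h1)).mul h3
  have h5 : HasFDerivAt (ph ω g) _ y := h4
  refine ext_inner_right ℝ fun v => ?_
  rw [inner_gradient_left, h5.fderiv]
  simp [inner_add_left, inner_sub_left, inner_smul_left]
  field_simp
  ring

variable {n : ℕ} {C U : Set (E ι)} {F g : E ι → ℝ} {y : E ι}

theorem pt1 (hHOM : Q_HOM) (h : St n C U F) (ht : 0 < t) (g : E ι → ℝ) (hy : y ∈ C) :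
    sqCurv F y * ph (om a t) g y ^ 2 =
      om a t ‖y‖ ^ 2 * (sqCurv F (‖y‖⁻¹ • y) * g (‖y‖⁻¹ • y) ^ 2) := by
  by_cases h0 : y = 0
  · simp [h0, om_zero (a := a) (r := 0) ht (by simp), ph]
  · have h1 := (hHOM ι n C U F h y hy h0 ‖y‖⁻¹ (inv_pos.2 (norm_pos_iff.2 h0))).2.2
    rw [lk_norm (h.mem_lk hy h0), one_pow, one_mul] at h1
    simp only [ph, h1]
    ring

theorem nsq {x ν v : E ι} (h4 : ‖x‖ = 1) (h2 : ⟪ν, x⟫ = 0) (α β : ℝ)
    (h3 : ⟪x, v - ⟪x, v⟫ • x - ⟪ν, v⟫ • ν⟫ = 0) :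
    ‖α • x + β • (v - ⟪x, v⟫ • x) - ⟪ν, α • x + β • (v - ⟪x, v⟫ • x)⟫ • ν‖ ^ 2 =
      α ^ 2 + β ^ 2 * ‖v - ⟪x, v⟫ • x - ⟪ν, v⟫ • ν‖ ^ 2 := by
  have h5 : α • x + β • (v - ⟪x, v⟫ • x) - ⟪ν, α • x + β • (v - ⟪x, v⟫ • x)⟫ • ν =
      α • x + β • (v - ⟪x, v⟫ • x - ⟪ν, v⟫ • ν) := by
    simp only [inner_add_right, inner_sub_right, inner_smul_right, h2]
    module
  rw [h5, norm_add_sq_real, inner_smul_left, inner_smul_right, h3, norm_smul, norm_smul, h4]
  simp only [Real.norm_eq_abs, mul_pow, sq_abs]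
  ring

theorem pt2 (hHOM : Q_HOM) (h : St n C U F) (ht : 0 < t) (hg : ContDiff ℝ 1 g) (hy : y ∈ C) :
    ‖tangentProj F y (gradient (ph (om a t) g) y)‖ ^ 2 =
      (om a t ‖y‖ + ‖y‖ * deriv (om a t) ‖y‖) ^ 2 * g (‖y‖⁻¹ • y) ^ 2 +
        om a t ‖y‖ ^ 2 * ‖prT F (‖y‖⁻¹ • y) (gradient g (‖y‖⁻¹ • y))‖ ^ 2 := by
  by_cases h0 : y = 0
  · simp [h0, om_zero (a := a) (r := 0) ht (by simp), gradient, (ph_ev ht g).fderiv_eq]
  · have hx := h.mem_lk hy h0
    have h1 := (hHOM ι n C U F h y hy h0 ‖y‖⁻¹ (inv_pos.2 (norm_pos_iff.2 h0))).1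
    rw [ph_grad (om_sm ht) hg h0, ← mul_pow, prT, ← nsq (lk_norm hx)
      (h.normal_self hx.1 (lk_ne hx)) _ _ (h.tan_prT hx (gradient g (‖y‖⁻¹ • y))).1, h1]
    rfl

theorem polar {μ ν : Measure (E ι)} [SFinite ν]
    (hP : μ.map (fun y => (‖y‖, ‖y‖⁻¹ • y)) = (rad n).prod ν) {k : ℝ → ℝ} {u : E ι → ℝ}
    (hk : Integrable k (rad n)) (hu : Integrable u ν) :
    Integrable (fun y => k ‖y‖ * u (‖y‖⁻¹ • y)) μ ∧
      ∫ y, k ‖y‖ * u (‖y‖⁻¹ • y) ∂μ = (∫ r, k r ∂rad n) * ∫ x, u x ∂ν := by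
  have : SFinite (rad n) := by unfold rad; infer_instance
  have hm : Measurable fun y : E ι => (‖y‖, ‖y‖⁻¹ • y) := by fun_prop
  have i := hk.mul_prod hu
  rw [← integral_prod_mul]
  rw [← hP] at i ⊢
  exact ⟨(integrable_map_measure i.aestronglyMeasurable hm.aemeasurable).1 i,
    (integral_map hm.aemeasurable i.aestronglyMeasurable).symm⟩

theorem lim {A B G p q s : ℝ} (h : ∀ t : ℝ, 0 < t → A ≤ (p + t * q + t ^ 2 * s) * B + G) :
    A ≤ p * B + G := by
  have c : Continuous fun t : ℝ => (p + t * q + t ^ 2 * s) * B + G := by fun_prop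
  simpa using ge_of_tendsto (x := 𝓝[>] (0 : ℝ)) ((c.tendsto 0).mono_left nhdsWithin_le_nhds)
    (eventually_mem_nhdsWithin.mono h)

theorem main (hHOM : Q_HOM) (hBALL2 : Q_BALL2) (hPOL : Q_POL) (hFIN : Q_FIN)
    (h : St n C U F) (hS : Stable (n + 1) C F) (hg : ContDiff ℝ 1 g) :
    ∫ x, (sqCurv F x - (n - 1) ^ 2 / 4) * g x ^ 2 ∂lm n C ≤
      ∫ x, ‖prT F x (gradient g x)‖ ^ 2 ∂lm n C := by
  obtain ⟨hf, -, -, hI⟩ := hFIN ι n C U F h
  obtain ⟨K, -, hK⟩ := hBALL2 ι n C U F h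
  have hP := hPOL ι n C h.closed h.cone
    (ne_top_of_le_ne_top ENNReal.ofReal_ne_top (hK 0 (Or.inr rfl) 1 one_pos))
  have hc : Continuous (gradient g) :=
    (InnerProductSpace.toDual ℝ (E ι)).symm.continuous.comp (hg.continuous_fderiv (by norm_num))
  have hn : ContinuousOn (normal F) (lk C) := h.sm_normal.continuousOn.mono h.lk_sub
  have ia : Integrable (fun x => sqCurv F x * g x ^ 2) (lm n C) :=
    hI _ ((h.sm_sqCurv.continuousOn.mono h.lk_sub).mul (hg.continuous.pow 2).continuousOn)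
  have ib : Integrable (fun x => g x ^ 2) (lm n C) := hI _ (hg.continuous.pow 2).continuousOn
  have hp : ContinuousOn (fun x => prT F x (gradient g x)) (lk C) := by
    unfold prT
    fun_prop
  have ic : Integrable (fun x => ‖prT F x (gradient g x)‖ ^ 2) (lm n C) := hI _ (hp.norm.pow 2)
  have key := lim (A := (∫ s, bp s ^ 2) * ∫ x, sqCurv F x * g x ^ 2 ∂lm n C)
    (B := ∫ x, g x ^ 2 ∂lm n C) (p := (1 - ((n : ℝ) + 1) / 2) ^ 2 * ∫ s, bp s ^ 2)
    (G := (∫ s, bp s ^ 2) * ∫ x, ‖prT F x (gradient g x)‖ ^ 2 ∂lm n C)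
    (q := 2 * (1 - ((n : ℝ) + 1) / 2) * ∫ s, bp s * deriv bp s) (s := ∫ s, deriv bp s ^ 2)
    fun t ht => by
    have s0 := om_sm (a := ((n : ℝ) + 1) / 2) ht
    obtain ⟨r1, r2⟩ := rad_sq n ht (h := bp) s0.continuous (om_cs ht) fun _ _ => rfl
    obtain ⟨r3, r4⟩ := rad_sq n ht
      (k := fun r => om (((n : ℝ) + 1) / 2) t r + r * deriv (om (((n : ℝ) + 1) / 2) t) r)
      (h := fun s => (1 - ((n : ℝ) + 1) / 2) * bp s + t * deriv bp s)
      (s0.continuous.add (continuous_id.mul (s0.continuous_deriv le_rfl)))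
      ((om_cs ht).add (om_cs ht).deriv.mul_left) fun _ hr => om_d hr
    have st := hS _ (ph_sm (a := ((n : ℝ) + 1) / 2) ht hg) (ph_cs ht g)
      (notMem_tsupport_iff_eventuallyEq.2 (ph_ev ht g))
    rw [setIntegral_congr_fun h.closed.measurableSet fun y hy => pt1 hHOM h ht g hy,
      setIntegral_congr_fun h.closed.measurableSet fun y hy => pt2 hHOM h ht hg hy,
      (polar hP r1 ia).2, integral_add (polar hP r3 ib).1 (polar hP r1 ic).1,
      (polar hP r3 ib).2, (polar hP r1 ic).2, r2, r4, expand] at st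
    have k0 : 0 < ((n : ℝ) + 1) * t⁻¹ := by positivity
    refine le_of_mul_le_mul_left ?_ k0
    linarith
  have e : ∫ x, (sqCurv F x - (n - 1) ^ 2 / 4) * g x ^ 2 ∂lm n C =
      ∫ x, sqCurv F x * g x ^ 2 ∂lm n C - (1 - ((n : ℝ) + 1) / 2) ^ 2 * ∫ x, g x ^ 2 ∂lm n C := by
    rw [← integral_const_mul, ← integral_sub ia (ib.const_mul _)]
    exact integral_congr_ae (Eventually.of_forall fun x => by ring)
  rw [e]
  refine le_of_mul_le_mul_left ?_ pos0
  linarith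

end STABx

theorem c_STAB (hHOM : Q_HOM) (hBALL2 : Q_BALL2) (hPOL : Q_POL) (hFIN : Q_FIN) :
    Q_STAB := by
  intro ι _ n C U F h hS V f hV hsub hf
  obtain ⟨θ, h0, h1, -⟩ := exists_contMDiffMap_zero_one_nhds_of_isClosed (n := 1) 𝓘(ℝ, E ι)
    hV.isClosed_compl h.compact.isClosed (disjoint_compl_left_iff_subset.2 hsub)
  have hθ : ContDiff ℝ 1 θ := θ.contMDiff.contDiff
  have hg : ContDiff ℝ 1 fun x => θ x * f x := by
    refine contDiff_iff_contDiffAt.2 fun y => ?_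
    by_cases hy : y ∈ V
    · exact hθ.contDiffAt.mul (hf.contDiffAt (hV.mem_nhds hy))
    · refine (contDiffAt_const (c := 0)).congr_of_eventuallyEq ?_
      filter_upwards [h0.filter_mono (nhds_le_nhdsSet hy)] with z hz
      rw [hz, zero_mul]
  have he : ∀ x ∈ lk C, (fun x => θ x * f x) =ᶠ[𝓝 x] f := fun x hx => by
    filter_upwards [h1.filter_mono (nhds_le_nhdsSet hx)] with z hz
    rw [hz, one_mul]
  have ae := (hFIN ι n C U F h).2.1
  have := STABx.main hHOM hBALL2 hPOL hFIN h hS hg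
  refine (integral_congr_ae (ae.mono fun x hx => ?_)).trans_le
    (this.trans_eq (integral_congr_ae (ae.mono fun x hx => ?_)))
  · simp only [(he x hx).self_of_nhds]
  · simp only [(he x hx).gradient_eq]

end Pool.Agent.P.MP_2b44f0_gt.PD
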