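import Pool.Agent.P.MP_2b44f0_gt.PD.IfC

/-! Step VCUT. -/

namespace Pool.Agent.P.MP_2b44f0_gt.PD

open MeasureTheory Set Filter Asymptotics
open scoped ENNReal RealInnerProductSpace Topology

namespace VCUTx

theorem det_eig {I V : Type} [Fintype I] [AddCommGroup V] [Module ℝ V] (b : Module.Basis I ℝ V)
    (f : V →ₗ[ℝ] V) (c : I → ℝ) (h : ∀ i, f (b i) = c i • b i) :
    LinearMap.det f = ∏ i, c i := by
  classical
  have : LinearMap.toMatrix b b f = Matrix.diagonal c := by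
    ext i j
    rw [LinearMap.toMatrix_apply, h, map_smul, b.repr_self, Matrix.diagonal_apply]
    by_cases hij : i = j
    · subst hij; simp
    · simp [hij]
  rw [← LinearMap.det_toMatrix b, this, Matrix.det_diagonal]

theorem det_fr {ι : Type} [Fintype ι] {n : ℕ} {x ν : E ι} {e : Fin n → E ι} {μ : Fin n → ℝ}
    (hc : Fintype.card ι = n + 2) (hx : ‖x‖ = 1) (hν : ‖ν‖ = 1) (hνx : ⟪ν, x⟫ = 0)
    (he : Frame n x ν e) (B : E ι →L[ℝ] E ι) (h1 : B x = 0) (h2 : B ν = 0)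
    (h3 : ∀ i, B (e i) = μ i • e i) (ξ : ℝ) : (1 + ξ • B).det = ∏ i, (1 + ξ * μ i) := by
  classical
  let v : Option (Option (Fin n)) → E ι := fun o => o.elim x fun o' => o'.elim ν e
  have hxν : ⟪x, ν⟫ = 0 := by rw [real_inner_comm]; exact hνx
  have hex : ∀ i, ⟪e i, x⟫ = 0 := fun i => by rw [real_inner_comm]; exact he.px i
  have heν : ∀ i, ⟪e i, ν⟫ = 0 := fun i => by rw [real_inner_comm]; exact he.pn i
  have hon : Orthonormal ℝ v := by
    rw [orthonormal_iff_ite]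
    rintro (_ | _ | i) (_ | _ | j) <;>
      simp [v, hxν, hνx, hex, heν, he.px, he.pn, he.on, hx, hν]
  let b := basisOfOrthonormalOfCardEqFinrank hon (by simp [hc])
  have hb : ∀ i, b i = v i := fun i => by simp [b]
  have := det_eig b (1 + ξ • B).toLinearMap (fun o => o.elim 1 fun o' => o'.elim 1
    fun i => 1 + ξ * μ i) (by
      rintro (_ | _ | i)
      · simp [hb, v, h1]
      · simp [hb, v, h2]
      · simp [hb, v, h3, add_smul, smul_smul])
  rw [ContinuousLinearMap.det, this]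
  simp [Fintype.prod_option]

theorem cut {ι : Type} [Fintype ι] {n : ℕ} {C U : Set (E ι)} {F : E ι → ℝ} (hMAX : Q_MAX)
    (h : St n C U F) {ε : ℝ} (hε : 0 < ε) {x : E ι} (hx : x ∈ lk C) {ξ : ℝ} (hξ : 0 < ξ)
    (hz : ∀ z ∈ C, |ξ| ≤ ‖x + ξ • normal F x - z‖) : ξ * kap C F ε x ≤ 1 := by
  obtain ⟨⟨y, hy⟩, h2, -⟩ := hMAX ι n C U F h ε hε x hx
  have hD := lk_D_pos hx hy.1 hy.2.1
  have h3 := hz y hy.1.1
  have h4 : ξ ^ 2 ≤ ‖x + ξ • normal F x - y‖ ^ 2 := by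
    rw [← sq_abs ξ]; exact pow_le_pow_left₀ (abs_nonneg _) h3 2
  have h5 : x + ξ • normal F x - y = ξ • normal F x - (y - x) := by abel
  rw [h5, norm_sub_sq_real, lk_dist hx hy.1, norm_smul, h.norm_normal (h.lk_sub hx),
    inner_smul_left, inner_sub_right, h.normal_self hx.1 (lk_ne hx)] at h4
  simp only [Real.norm_eq_abs, mul_one, sq_abs, conj_trivial, sub_zero] at h4
  rw [h2 y hy, qv, ← mul_div_assoc, div_le_one hD]
  nlinarith [mul_pos hξ hε]

theorem real_bd (m : ℕ) (μ : Fin (2 * m) → ℝ) (a K k k1 η : ℝ) (ha : 0 < a) (hk : a ≤ k)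
    (hk1 : a ≤ k1) (hη : 0 < η) (hK : ∀ i, |μ i| ≤ K) (hK0 : 0 ≤ K)
    (lo : ∀ i, 0 < k + η + μ i) (hi : ∀ i, 0 < k1 + η - μ i) :
    0 ≤ vol m μ (k + η) (k1 + η) ∧
    ∫ ξ in (-k1⁻¹)..k⁻¹, |∏ i, (1 + ξ * μ i)| / (1 + ξ ^ 2) ^ (m + 1) ≤
      vol m μ (k + η) (k1 + η) + 2 * (1 + a⁻¹ * K) ^ (2 * m) / a ^ 2 * η := by
  have hk0 : 0 < k := by linarith
  have hk10 : 0 < k1 := by linarith
  have hp : 0 < (k + η)⁻¹ := by positivity
  have hp1 : 0 < (k1 + η)⁻¹ := by positivity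
  have hq : (k + η)⁻¹ ≤ k⁻¹ := inv_anti₀ hk0 (by linarith)
  have hq1 : (k1 + η)⁻¹ ≤ k1⁻¹ := inv_anti₀ hk10 (by linarith)
  have hr : k⁻¹ ≤ a⁻¹ := inv_anti₀ ha hk
  have hr1 : k1⁻¹ ≤ a⁻¹ := inv_anti₀ ha hk1
  have hpos : ∀ ξ ∈ Icc (-(k1 + η)⁻¹) (k + η)⁻¹, 0 ≤ ∏ i, (1 + ξ * μ i) := by
    intro ξ hξ
    refine Finset.prod_nonneg fun i _ => ?_
    rcases le_total 0 ξ with h0 | h0
    · have h1 : ξ * (k + η) ≤ 1 := by
        rw [← le_div_iff₀ (by linarith), one_div]; exact hξ.2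
      nlinarith [mul_nonneg h0 (lo i).le]
    · have h1 : -ξ * (k1 + η) ≤ 1 := by
        rw [← le_div_iff₀ (by linarith), one_div]; linarith [hξ.1]
      nlinarith [mul_nonneg (neg_nonneg.2 h0) (hi i).le]
  have hc : Continuous fun ξ : ℝ => |∏ i, (1 + ξ * μ i)| / (1 + ξ ^ 2) ^ (m + 1) :=
    Continuous.div (by fun_prop) (by fun_prop) fun ξ => by positivity
  have hM : ∀ ξ : ℝ, |ξ| ≤ a⁻¹ →
      |∏ i, (1 + ξ * μ i)| / (1 + ξ ^ 2) ^ (m + 1) ≤ (1 + a⁻¹ * K) ^ (2 * m) := by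
    intro ξ hξ
    refine (div_le_self (abs_nonneg _) (one_le_pow₀ (by nlinarith [sq_nonneg ξ]))).trans ?_
    rw [Finset.abs_prod]
    calc ∏ i, |1 + ξ * μ i| ≤ ∏ _i : Fin (2 * m), (1 + a⁻¹ * K) := by
          refine Finset.prod_le_prod (fun i _ => abs_nonneg _) fun i _ => ?_
          refine (abs_add_le _ _).trans ?_
          rw [abs_one, abs_mul]
          have := mul_le_mul hξ (hK i) (abs_nonneg _) (by positivity)
          linarith
      _ = _ := by simp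
  have hlen : ∀ t : ℝ, a ≤ t → t⁻¹ - (t + η)⁻¹ ≤ η / a ^ 2 := by
    intro t ht
    have ht0 : 0 < t := by linarith
    have : t⁻¹ - (t + η)⁻¹ = η / (t * (t + η)) := by field_simp; ring
    rw [this]
    exact div_le_div_of_nonneg_left hη.le (by positivity) (by nlinarith)
  have hle : -(k1 + η)⁻¹ ≤ (k + η)⁻¹ := by linarith
  have hv : vol m μ (k + η) (k1 + η) = ∫ ξ in (-(k1 + η)⁻¹)..(k + η)⁻¹,
      |∏ i, (1 + ξ * μ i)| / (1 + ξ ^ 2) ^ (m + 1) := by
    refine intervalIntegral.integral_congr fun ξ hξ => ?_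
    rw [uIcc_of_le hle] at hξ
    simp only [abs_of_nonneg (hpos ξ hξ)]
  have hM0 : 0 ≤ (1 + a⁻¹ * K) ^ (2 * m) := by positivity
  have hpiece : ∀ s t : ℝ, s ≤ t → -a⁻¹ ≤ s → t ≤ a⁻¹ → t - s ≤ η / a ^ 2 →
      ∫ ξ in s..t, |∏ i, (1 + ξ * μ i)| / (1 + ξ ^ 2) ^ (m + 1) ≤
        (1 + a⁻¹ * K) ^ (2 * m) * (η / a ^ 2) := by
    intro s t hst hs ht hl
    have := intervalIntegral.integral_mono_on (μ := volume) hst (hc.intervalIntegrable s t)
      (continuous_const.intervalIntegrable s t)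
      (fun ξ hξ => hM ξ (abs_le.2 ⟨by linarith [hξ.1], by linarith [hξ.2]⟩))
    rw [intervalIntegral.integral_const, smul_eq_mul, mul_comm (t - s)] at this
    exact this.trans (mul_le_mul_of_nonneg_left hl hM0)
  refine ⟨?_, ?_⟩
  · rw [hv]
    exact intervalIntegral.integral_nonneg hle fun ξ _ => by positivity
  · rw [← intervalIntegral.integral_add_adjacent_intervals (b := -(k1 + η)⁻¹)
      (hc.intervalIntegrable _ _) (hc.intervalIntegrable _ _),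
      ← intervalIntegral.integral_add_adjacent_intervals (a := -(k1 + η)⁻¹) (b := (k + η)⁻¹)
      (hc.intervalIntegrable _ _) (hc.intervalIntegrable _ _), ← hv]
    have h1 := hpiece (-k1⁻¹) (-(k1 + η)⁻¹) (by linarith) (by linarith) (by linarith)
      (by linarith [hlen k1 hk1])
    have h2 := hpiece (k + η)⁻¹ k⁻¹ hq (by linarith) hr (hlen k hk)
    have h3 : 2 * (1 + a⁻¹ * K) ^ (2 * m) / a ^ 2 * η =
        2 * ((1 + a⁻¹ * K) ^ (2 * m) * (η / a ^ 2)) := by ring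
    linarith

end VCUTx

theorem c_VCUT (hFRAME : Q_FRAME) (hGEO : Q_GEO) (hMAX : Q_MAX) (hLOW3 : Q_LOW3) :
    Q_VCUT := by
  intro ι _ m C U F h
  obtain ⟨K, hK0, hK⟩ := hGEO ι _ C U F h
  obtain ⟨a₁, b₁, ε₁, ha₁, hε₁, h₁⟩ := hLOW3 ι _ C U F h
  obtain ⟨a₂, b₂, ε₂, ha₂, hε₂, h₂⟩ := hLOW3 ι _ C U (-F) h.neg
  have ha : 0 < min a₁ a₂ := lt_min ha₁ ha₂
  refine ⟨2 * (1 + (min a₁ a₂)⁻¹ * K) ^ (2 * m) / (min a₁ a₂) ^ 2, min ε₁ ε₂, lt_min hε₁ hε₂, ?_⟩
  intro ε hε hεε η hη x hx e μ he hμ had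
  have hk : min a₁ a₂ ≤ kap C F ε x :=
    (min_le_left _ _).trans (h₁ ε hε (hεε.trans (min_le_left _ _)) x hx).1
  have hk1 : min a₁ a₂ ≤ kap C (-F) ε x :=
    (min_le_right _ _).trans (h₂ ε hε (hεε.trans (min_le_right _ _)) x hx).1
  have hk0 : 0 < kap C F ε x := ha.trans_le hk
  have hk10 : 0 < kap C (-F) ε x := ha.trans_le hk1
  have hμK : ∀ i, |μ i| ≤ K := by
    intro i
    have h1 : ‖e i‖ = 1 := by
      have := he.on i i
      rw [if_pos rfl, real_inner_self_eq_norm_sq] at this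
      nlinarith [norm_nonneg (e i)]
    have h2 := (shape F x).le_opNorm (e i)
    rw [hμ, norm_smul, h1, mul_one, mul_one, Real.norm_eq_abs] at h2
    exact h2.trans (hK x hx).1
  obtain ⟨r1, r2⟩ := VCUTx.real_bd m μ _ K _ _ η ha hk hk1 hη hμK hK0 had.lo had.hi
  refine ⟨r1, ?_⟩
  have hU := h.lk_sub hx
  have hdet := VCUTx.det_fr h.card (lk_norm hx) (h.norm_normal hU)
    (h.normal_self hx.1 (lk_ne hx)) he (shape F x) (h.shape_self hx.1 (lk_ne hx))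
    (h.shape_normal hU) hμ
  simp only [hdet]
  have hi1 := inv_pos.2 hk0
  have hi2 := inv_pos.2 hk10
  have hsub : {ξ : ℝ | ∀ z ∈ C, |ξ| ≤ ‖x + ξ • normal F x - z‖} ⊆
      Icc (-(kap C (-F) ε x)⁻¹) (kap C F ε x)⁻¹ := by
    intro ξ hξ
    rcases lt_trichotomy ξ 0 with h0 | h0 | h0
    · have := VCUTx.cut hMAX h.neg hε hx (neg_pos.2 h0) (by
        intro z hz
        have := hξ z hz
        rwa [abs_neg, normal_neg, Pi.neg_apply, neg_smul_neg])
      rw [← le_div_iff₀ hk10, one_div] at this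
      exact ⟨by linarith, by linarith⟩
    · exact ⟨by linarith, by linarith⟩
    · have := VCUTx.cut hMAX h hε hx h0 hξ
      rw [← le_div_iff₀ hk0, one_div] at this
      exact ⟨by linarith, this⟩
  have hc : Continuous fun ξ : ℝ => |∏ i, (1 + ξ * μ i)| / (1 + ξ ^ 2) ^ (m + 1) :=
    Continuous.div (by fun_prop) (by fun_prop) fun ξ => by positivity
  refine (lintegral_mono_set hsub).trans ?_
  rw [← ofReal_integral_eq_lintegral_ofReal (hc.integrableOn_Icc)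
    (Eventually.of_forall fun ξ => by positivity), integral_Icc_eq_integral_Ioc,
    ← intervalIntegral.integral_of_le (by linarith)]
  exact ENNReal.ofReal_le_ofReal r2

end Pool.Agent.P.MP_2b44f0_gt.PD
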