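import Pool.Agent.P.MP_2b44f0_gt.PD.All
import Pool.Agent.P.MP_2b44f0_gt.PD.TSIMA
import Pool.Agent.P.MP_2b44f0_gt.PD.TSIM
import Pool.Agent.P.MP_2b44f0_gt.PD.TFJET
import Pool.Agent.P.MP_2b44f0_gt.PD.TCOMP3
import Pool.Agent.P.MP_2b44f0_gt.PD.TSMX
import Pool.Agent.P.MP_2b44f0_gt.PD.TSTAB
import Pool.Agent.P.MP_2b44f0_gt.PD.TQT
import Pool.Agent.P.MP_2b44f0_gt.PD.TSOFT
import Pool.Agent.P.MP_2b44f0_gt.PD.TLOW2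
import Pool.Agent.P.MP_2b44f0_gt.PD.TLOW3
import Pool.Agent.P.MP_2b44f0_gt.PD.THK
import Pool.Agent.P.MP_2b44f0_gt.PD.TVCUT
import Pool.Agent.P.MP_2b44f0_gt.PD.TINT
import Pool.Agent.P.MP_2b44f0_gt.PD.TMASTER

/-!
All steps for stable cones together.
-/

namespace Pool.Agent.P.MP_2b44f0_gt.PD

theorem a_SIMA : Q_SIMA :=
  c_SIMA

theorem a_SIM : Q_SIM :=
  c_SIM a_FRAME a_HOM a_SIMA

theorem a_FJET : Q_FJET :=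
  c_FJET a_FRAME a_TAYL a_GEO

theorem a_COMP3 : Q_COMP3 :=
  c_COMP3

theorem a_SMX : Q_SMX :=
  c_SMX

theorem a_STAB : Q_STAB :=
  c_STAB a_HOM a_BALL2 a_POL a_FIN

theorem a_QT : Q_QT :=
  c_QT a_GEO a_MAX a_EST

theorem a_SOFT : Q_SOFT :=
  c_SOFT a_MAX a_SEMI a_FIN a_SMX a_STAB a_QT

theorem a_LOW2 : Q_LOW2 :=
  c_LOW2 a_FIN a_LDIV

theorem a_LOW3 : Q_LOW3 :=
  c_LOW3 a_MAX a_EST a_LOW2

theorem a_HK : Q_HK :=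
  c_HK a_HOM a_TUBE a_FIN a_LOW2

theorem a_VCUT : Q_VCUT :=
  c_VCUT a_FRAME a_GEO a_MAX a_LOW3

theorem a_INT : Q_INT :=
  c_INT a_FRAME a_GEO a_MAX a_EST a_SEMI a_JET a_FIN a_KER a_SIM a_FJET a_COMP3 a_SOFT a_LOW3

theorem a_MASTER : Q_MASTER :=
  c_MASTER a_FIN a_HK a_VCUT a_INT

end Pool.Agent.P.MP_2b44f0_gt.PD
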