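import Pool.Agent.P.MP_2b44f0_gt.PD.IfM

/-! Step MAREA. -/

namespace Pool.Agent.P.MP_2b44f0_gt.PD

open MeasureTheory Set Filter Asymptotics
open scoped ENNReal RealInnerProductSpace Topology

theorem c_MAREA (hMMEAS : Q_MMEAS) (hMLOC : Q_MLOC) :
    Q_MAREA := by
  intro ι _ d C U F Ψ j A hd hch hC hΨ hA hAU hj hJ
  have hR : IsCompact (C ∩ A) := hA.inter_left hC
  have hm : MeasurableSet (C ∩ A) := hR.measurableSet
  have hfin := (hMMEAS ι d C U F hd hch hC).1 A hA hAU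
  rcases (C ∩ A).eq_empty_or_nonempty with h0 | hne
  · simp [h0]
  have j0 : ∀ x ∈ C ∩ A, 0 ≤ j x := fun x hx => by
    obtain ⟨N, -, -, -, h⟩ := hJ x hx
    exact (abs_nonneg _).trans h
  have : IsFiniteMeasure ((μHE[d] : Measure (E ι)).restrict (C ∩ A)) :=
    isFiniteMeasure_restrict.2 hfin
  have hi : Integrable j ((μHE[d] : Measure (E ι)).restrict (C ∩ A)) := by
    obtain ⟨B, hB⟩ := hR.exists_bound_of_continuousOn hj
    exact Integrable.of_bound (hj.aestronglyMeasurable hm) B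
      ((ae_restrict_iff' hm).2 (Eventually.of_forall hB))
  have key : ∀ ε : ℝ, 0 < ε → μHE[d] (Ψ '' (C ∩ A)) ≤ ENNReal.ofReal
      (∫ x in C ∩ A, j x ∂μHE[d] + 2 * ε * (μHE[d] : Measure (E ι)).real (C ∩ A)) := by
    intro ε hε
    have h1 : ∀ x ∈ C ∩ A, ∃ V, (IsOpen V ∧ x ∈ V) ∧ (∀ W, W ⊆ V →
        μHE[d] (Ψ '' (C ∩ W)) ≤ ENNReal.ofReal (j x + ε) * μHE[d] (C ∩ W)) ∧
        ∀ y ∈ V ∩ (C ∩ A), j x - ε < j y := by
      intro x hx
      obtain ⟨V, v1, v2, v3⟩ := hMLOC ι d C U F Ψ hd hch hΨ x ⟨hx.1, hAU hx.2⟩ (j x) (hJ x hx)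
        (j x + ε) (by linarith)
      obtain ⟨V', w1, w2, w3⟩ := mem_nhdsWithin.1
        ((hj x hx).eventually (lt_mem_nhds (show j x - ε < j x by linarith)))
      exact ⟨V ∩ V', ⟨v1.inter w1, v2, w2⟩, fun W hW => v3 W fun y hy => (hW hy).1,
        fun y hy => w3 ⟨hy.1.2, hy.2⟩⟩
    choose! V hV1 hV2 hV3 using h1
    obtain ⟨x, W, hW, hdis, hcov⟩ := all_cover ι (C ∩ A) V hne hV1
    have e1 : C ∩ A = ⋃ i, C ∩ A ∩ W i := by
      rw [← inter_iUnion, inter_eq_left.2 hcov]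
    have e2 : ∫⁻ y in C ∩ A, ENNReal.ofReal (j y + 2 * ε) ∂μHE[d] =
        ∑' i, ∫⁻ y in C ∩ A ∩ W i, ENNReal.ofReal (j y + 2 * ε) ∂μHE[d] := by
      rw [← lintegral_iUnion (fun i => hm.inter (hW i).2.1)
        (fun a b hab => (hdis hab).mono inter_subset_right inter_subset_right), ← e1]
    have e3 : ∫ y in C ∩ A, (j y + 2 * ε) ∂μHE[d] =
        ∫ x in C ∩ A, j x ∂μHE[d] + 2 * ε * (μHE[d] : Measure (E ι)).real (C ∩ A) := by
      rw [integral_add hi (integrable_const _), setIntegral_const, smul_eq_mul, mul_comm]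
    rw [← e3, ofReal_integral_eq_lintegral_ofReal (f := fun y => j y + 2 * ε)
      (hi.add (integrable_const _))
      ((ae_restrict_iff' hm).2 (Eventually.of_forall fun y hy => by
        have := j0 y hy
        show 0 ≤ j y + 2 * ε
        positivity))]
    refine le_trans ?_ e2.ge
    calc μHE[d] (Ψ '' (C ∩ A)) = μHE[d] (⋃ i, Ψ '' (C ∩ A ∩ W i)) := by
          rw [← image_iUnion, ← e1]
      _ ≤ ∑' i, μHE[d] (Ψ '' (C ∩ A ∩ W i)) := measure_iUnion_le _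
      _ ≤ _ := ENNReal.tsum_le_tsum fun i => ?_
    obtain ⟨w1, w2, w3⟩ := hW i
    have h2 := hV2 _ w1 (A ∩ W i) fun y hy => w3 hy.2
    rw [← inter_assoc] at h2
    refine h2.trans ?_
    rw [← setLIntegral_const]
    refine setLIntegral_mono' (hm.inter w2) fun y hy => ENNReal.ofReal_le_ofReal ?_
    have := hV3 _ w1 y ⟨w3 hy.2, hy.1⟩
    linarith
  have hc : Continuous fun ε : ℝ => ENNReal.ofReal
      (∫ x in C ∩ A, j x ∂μHE[d] + 2 * ε * (μHE[d] : Measure (E ι)).real (C ∩ A)) :=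
    ENNReal.continuous_ofReal.comp (by fun_prop)
  have ht := (hc.tendsto 0).mono_left (nhdsWithin_le_nhds (s := Ioi 0))
  simp only [mul_zero, zero_mul, add_zero] at ht
  exact ge_of_tendsto ht (eventually_mem_nhdsWithin.mono key)

end Pool.Agent.P.MP_2b44f0_gt.PD
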