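import Pool.Agent.P.MP_2b44f0_gt.PD.IfM

/-! Step MDIFF. -/

namespace Pool.Agent.P.MP_2b44f0_gt.PD

open MeasureTheory Set Filter Asymptotics
open scoped ENNReal RealInnerProductSpace Topology

namespace MDIFFx

theorem homeo {ι : Type} [Fintype ι] {X : E ι → E ι} {K : NNReal} (hK : LipschitzWith K X)
    {t : ℝ} (ht : |t| * K ≤ 1 / 2) : ∃ Ψ : E ι ≃ₜ E ι, ∀ y, Ψ y = y + t • X y := by
  have h : ApproximatesLinearOn (fun y => y + t • X y)
      ((ContinuousLinearEquiv.refl ℝ (E ι) : E ι ≃L[ℝ] E ι) : E ι →L[ℝ] E ι) univ (1 / 2) := by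
    intro x _ y _
    have e : x + t • X x - (y + t • X y) -
        ((ContinuousLinearEquiv.refl ℝ (E ι) : E ι ≃L[ℝ] E ι) : E ι →L[ℝ] E ι) (x - y) =
        t • (X x - X y) := by
      simp only [ContinuousLinearEquiv.coe_refl, ContinuousLinearMap.id_apply, smul_sub]
      abel
    have h1 := hK.norm_sub_le x y
    have h2 : ((1 / 2 : NNReal) : ℝ) = 1 / 2 := by norm_num
    rw [e, norm_smul, Real.norm_eq_abs, h2]
    calc |t| * ‖X x - X y‖ ≤ |t| * (K * ‖x - y‖) := by gcongr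
      _ = (|t| * K) * ‖x - y‖ := by ring
      _ ≤ 1 / 2 * ‖x - y‖ := by gcongr
  have hc : Subsingleton (E ι) ∨ (1 / 2 : NNReal) <
      ‖(((ContinuousLinearEquiv.refl ℝ (E ι) : E ι ≃L[ℝ] E ι).symm : E ι ≃L[ℝ] E ι) :
        E ι →L[ℝ] E ι)‖₊⁻¹ := by
    rcases subsingleton_or_nontrivial (E ι) with hs | hs
    · exact Or.inl hs
    · right
      rw [ContinuousLinearEquiv.refl_symm, ContinuousLinearEquiv.coe_refl,
        ContinuousLinearMap.nnnorm_id]
      norm_num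
  exact ⟨h.toHomeomorph _ hc, fun y => rfl⟩

end MDIFFx

theorem c_MDIFF :
    Q_MDIFF := by
  intro ι _ X A hX hA h0
  obtain ⟨K, hK⟩ := ContDiff.lipschitzWith_of_hasCompactSupport
    (HasCompactSupport.intro hA h0) hX one_ne_zero
  have hK0 : (0 : ℝ) ≤ K := K.2
  refine ⟨1 / (2 * (K + 1)), by positivity, fun t ht G hG => ?_⟩
  obtain ⟨Ψ, hΨ⟩ := MDIFFx.homeo hK (t := t) (by
    rw [le_div_iff₀ (by positivity)] at ht
    nlinarith [abs_nonneg t])
  have e : (fun y => y + t • X y) = Ψ := funext fun y => (hΨ y).symm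
  rw [e]
  have hfix : ∀ y ∉ A, Ψ y = y := fun y hy => by rw [hΨ, h0 y hy, smul_zero, add_zero]
  have hiff : ∀ y, Ψ y ∈ A ↔ y ∈ A := by
    intro y
    constructor
    · intro h
      by_contra hy
      rw [hfix y hy] at h
      exact hy h
    · intro h
      by_contra hy
      have := Ψ.injective (hfix _ hy)
      rw [this] at hy
      exact hy h
  refine ⟨Ψ.isOpenMap G hG, ?_, ?_⟩
  · ext y
    constructor
    · rintro ⟨⟨z, hz, rfl⟩, h⟩
      have hz' : z ∉ A := fun h' => h ((hiff z).2 h')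
      rw [hfix z hz']
      exact ⟨hz, hz'⟩
    · rintro ⟨h1, h2⟩
      exact ⟨⟨y, h1, hfix y h2⟩, h2⟩
  · rw [← Ψ.image_frontier]
    ext y
    constructor
    · rintro ⟨⟨z, hz, rfl⟩, h⟩
      exact ⟨z, ⟨hz, (hiff z).1 h⟩, rfl⟩
    · rintro ⟨z, ⟨h1, h2⟩, rfl⟩
      exact ⟨⟨z, h1, rfl⟩, (hiff z).2 h2⟩

end Pool.Agent.P.MP_2b44f0_gt.PD
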