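import Pool.Agent.P.MP_2b44f0_gt.PD.IfM
import Pool.Agent.P.MP_2b44f0_gt.Lin

/-! Step MJAC. -/

namespace Pool.Agent.P.MP_2b44f0_gt.PD

open MeasureTheory Set Filter Asymptotics
open scoped ENNReal RealInnerProductSpace Topology

namespace MJACx

variable {ι : Type} [Fintype ι]

/-- the unit normal of the image and the determinant -/
theorem key (ν h w u : E ι) (M L : E ι →L[ℝ] E ι) (hν : ‖ν‖ = 1)
    (hs : ∀ v v', ⟪M v, v'⟫ = ⟪v, M v'⟫) (hM : M ν = ν) (hh : ⟪ν, h⟫ = 0) (hw : M w = h)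
    (hu : M u = w) (hL : ∀ v, ⟪ν, v⟫ = 0 → L v = M v + ⟪h, v⟫ • ν) :
    ∃ N : E ι, ‖N‖ = 1 ∧ (∀ v, ⟪ν, v⟫ = 0 → ⟪N, L v⟫ = 0) ∧
      (extL L ν N).det = M.det * √(1 + ‖w‖ ^ 2) := by
  set r := √(1 + ‖w‖ ^ 2) with hr
  have r0 : 0 < r := Real.sqrt_pos.2 (by positivity)
  have r2 : r ^ 2 = 1 + ‖w‖ ^ 2 := Real.sq_sqrt (by positivity)
  have n1 : ⟪ν, ν⟫ = 1 := by rw [real_inner_self_eq_norm_sq, hν, one_pow]
  have hν' : ∀ v, ⟪ν, M v⟫ = ⟪ν, v⟫ := fun v => by rw [← hs, hM]
  have nw : ⟪ν, w⟫ = 0 := by rw [← hν', hw, hh]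
  have nu : ⟪ν, u⟫ = 0 := by rw [← hν', hu, nw]
  have hn : ⟪h, ν⟫ = 0 := by rw [real_inner_comm, hh]
  have hu' : ⟪h, u⟫ = ‖w‖ ^ 2 := by rw [← hw, hs, hu, real_inner_self_eq_norm_sq]
  refine ⟨r⁻¹ • (ν - w), ?_, fun v hv => ?_, ?_⟩
  · have e : ‖ν - w‖ = r := by
      rw [hr, eq_comm, Real.sqrt_eq_iff_mul_self_eq (by positivity) (norm_nonneg _), ← sq,
        norm_sub_sq_real, hν, nw]
      ring
    rw [norm_smul, e, Real.norm_of_nonneg (inv_pos.2 r0).le, inv_mul_cancel₀ r0.ne']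
  · rw [hL v hv, real_inner_smul_left, inner_sub_left, inner_add_right, inner_add_right,
      real_inner_smul_right, real_inner_smul_right, hν', hv, n1, ← hs, hw, real_inner_comm ν w, nw]
    ring
  · have e : (extL L ν (r⁻¹ • (ν - w))).toLinearMap = M.toLinearMap ∘ₗ
        LinearMap.transvection (innerSL ℝ h).toLinearMap ν ∘ₗ
        LinearMap.transvection (innerSL ℝ ν).toLinearMap
          (r⁻¹ • (ν - u) + (r⁻¹ * ‖w‖ ^ 2) • ν - ν) := by
      refine LinearMap.ext fun x => ?_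
      have hx : ⟪ν, x - ⟪ν, x⟫ • ν⟫ = 0 := by
        rw [inner_sub_right, real_inner_smul_right, n1]; ring
      have e1 := hL _ hx
      simp only [extL, LinearMap.comp_apply, LinearMap.transvection.apply,
        ContinuousLinearMap.coe_coe, add_apply, ContinuousLinearMap.comp_apply,
        sub_apply, ContinuousLinearMap.id_apply,
        ContinuousLinearMap.smulRight_apply, innerSL_apply_apply]
      rw [e1]
      simp only [map_add, map_sub, map_smul, hM, hu, inner_add_right, inner_sub_right,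
        real_inner_smul_right, hn, hu']
      module
    rw [ContinuousLinearMap.det, e, LinearMap.det_comp, LinearMap.det_comp,
      LinearMap.transvection.det, LinearMap.transvection.det]
    simp only [ContinuousLinearMap.coe_coe, innerSL_apply_apply, inner_add_right, inner_sub_right,
      real_inner_smul_right, hn, n1, nu, ContinuousLinearMap.det]
    congr 1
    field_simp
    linarith

end MJACx

theorem c_MJAC (hMPROD : Q_MPROD) :
    Q_MJAC := by
  intro ι _ K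
  obtain ⟨K', t₀, ht₀, H⟩ := hMPROD (Fintype.card ι) K
  refine ⟨K', t₀, ht₀, fun ν g B L φ t hν hs hB hK hg hgK hφ ht hL => ?_⟩
  obtain ⟨b, k, e, tr1, tr2, hd, -⟩ := Lin.spec B hs
  have n1 : ∀ j, ‖b j‖ = 1 := b.orthonormal.1
  have hk : ∀ j, |k j| ≤ K := fun j => by
    have h := B.le_opNorm (b j)
    rw [e, norm_smul, n1, mul_one, mul_one] at h
    exact h.trans hK
  have hg' : ∀ j, |⟪b j, g⟫| ≤ K := fun j => by
    have h := abs_real_inner_le_norm (b j) g
    rw [n1, one_mul] at h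
    exact h.trans hgK
  obtain ⟨pos, le⟩ := H k (fun j => ⟪b j, g⟫) φ t hk hg' hφ ht
  set M : E ι →L[ℝ] E ι := 1 + (t * φ) • B with hM
  have ap : ∀ v, M v = v + (t * φ) • B v := fun v => rfl
  have d0 : 0 < M.det := by rw [hd]; exact Finset.prod_pos fun j _ => pos j
  have sj : ∀ y, ∃ x, M x = y := (M.toContinuousLinearEquivOfDetNeZero d0.ne').surjective
  have ms : ∀ v v', ⟪M v, v'⟫ = ⟪v, M v'⟫ := fun v v' => by
    rw [ap, ap, inner_add_left, inner_add_right, real_inner_smul_left, real_inner_smul_right, hs]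
  obtain ⟨w, hw⟩ := sj (t • g)
  obtain ⟨u, hu⟩ := sj w
  obtain ⟨N, h1, h2, h3⟩ := MJACx.key ν (t • g) w u M L hν ms (by rw [ap, hB]; simp)
    (by rw [real_inner_smul_right, hg, mul_zero]) hw hu
    (fun v hv => by rw [hL v hv, ap, real_inner_smul_left])
  have cw : ∀ j, ⟪b j, w⟫ = t * ⟪b j, g⟫ / (1 + t * φ * k j) := fun j => by
    rw [eq_div_iff (pos j).ne', ← real_inner_smul_right (b j) g, ← hw, ← ms, ap, e, inner_add_left,
      real_inner_smul_left, real_inner_smul_left]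
    ring
  have p : 0 < (extL L ν N).det := by rw [h3]; positivity
  refine ⟨N, h1, h2, p.ne', ?_⟩
  rw [abs_of_pos p, h3, hd, tr, tr, tr1, tr2, ← b.sum_sq_inner_right w, ← b.sum_sq_inner_right g]
  simp only [cw]
  exact le

end Pool.Agent.P.MP_2b44f0_gt.PD
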