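import Pool.Agent.P.MP_2b44f0_gt.PD.IfM

/-! Step MLIN. -/

namespace Pool.Agent.P.MP_2b44f0_gt.PD

open MeasureTheory Set Filter Asymptotics
open scoped ENNReal RealInnerProductSpace Topology

namespace MLINx

variable {ι : Type} [Fintype ι]

theorem ext_apply (L : E ι →L[ℝ] E ι) (ν N v : E ι) :
    extL L ν N v = L (v - ⟪ν, v⟫ • ν) + ⟪ν, v⟫ • N := rfl

theorem det_res {ν : E ι} (hν : ‖ν‖ = 1) (M : E ι →ₗ[ℝ] E ι) (h1 : M ν = ν)
    (he : (ℝ ∙ ν)ᗮ ≤ ((ℝ ∙ ν)ᗮ).comap M) : M.det = (M.restrict he).det := by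
  have h : ((ℝ ∙ ν)ᗮ).mapQ _ M he = LinearMap.id := by
    refine Submodule.linearMap_qext _ (LinearMap.ext fun v => ?_)
    have hv : v - ⟪ν, v⟫ • ν ∈ (ℝ ∙ ν)ᗮ := by
      rw [Submodule.mem_orthogonal_singleton_iff_inner_right, inner_sub_right,
        real_inner_smul_right, real_inner_self_eq_norm_sq, hν]
      ring
    have e : M v - v = M (v - ⟪ν, v⟫ • ν) - (v - ⟪ν, v⟫ • ν) := by
      rw [map_sub, map_smul, h1]; abel
    simp only [LinearMap.comp_apply, Submodule.mkQ_apply, Submodule.mapQ_apply, LinearMap.id_apply]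
    rw [Submodule.Quotient.eq, e]
    exact Submodule.sub_mem _ (he hv) hv
  rw [M.det_eq_det_mul_det _ he, h, LinearMap.det_id, mul_one]

end MLINx

theorem c_MLIN :
    Q_MLIN := by
  intro ι _ d L ν N A hc hν hN hL hA
  have hν0 : ν ≠ 0 := fun h => by simp [h] at hν
  have : Fact (Module.finrank ℝ (E ι) = d + 1) := ⟨by simp [hc]⟩
  have hd : Module.finrank ℝ (ℝ ∙ ν)ᗮ = d := Submodule.finrank_orthogonal_span_singleton hν0
  set O := ((ℝ ∙ (N - ν))ᗮ).reflection with hO
  have hON : O N = ν := Submodule.reflection_sub (hN.trans hν.symm)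
  set M : E ι →ₗ[ℝ] E ι := O.toLinearEquiv.toLinearMap ∘ₗ (extL L ν N : E ι →ₗ[ℝ] E ι) with hM
  have hMv : ∀ v, ⟪ν, v⟫ = 0 → M v = O (L v) := fun v hv => by
    change O (extL L ν N v) = _
    rw [MLINx.ext_apply, hv, zero_smul, zero_smul, sub_zero, add_zero]
  have h1 : M ν = ν := by
    change O (extL L ν N ν) = _
    rw [MLINx.ext_apply, real_inner_self_eq_norm_sq, hν, one_pow, one_smul, one_smul, sub_self,
      map_zero, zero_add, hON]
  have he : (ℝ ∙ ν)ᗮ ≤ ((ℝ ∙ ν)ᗮ).comap M := fun v hv => by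
    rw [Submodule.mem_orthogonal_singleton_iff_inner_right] at hv
    rw [Submodule.mem_comap, Submodule.mem_orthogonal_singleton_iff_inner_right, hMv v hv,
      ← hL v hv, ← O.inner_map_map N, hON]
  set M0 : (ℝ ∙ ν)ᗮ →ₗ[ℝ] (ℝ ∙ ν)ᗮ := M.restrict he with hM0
  have hdet : |(extL L ν N).det| = |M0.det| := by
    rw [hM0, ← MLINx.det_res hν M h1 he, hM, LinearMap.det_comp, hO, Submodule.det_reflection, abs_mul,
      abs_pow, abs_neg, abs_one, one_pow, one_mul]
  set A0 : Set (ℝ ∙ ν)ᗮ := Subtype.val ⁻¹' A with hA0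
  have e1 : A = Subtype.val '' A0 := by
    refine (image_preimage_eq_of_subset fun v hv => ?_).symm
    exact ⟨⟨v, Submodule.mem_orthogonal_singleton_iff_inner_right.2 (hA v hv)⟩, rfl⟩
  have e2 : O '' (L '' A) = Subtype.val '' (M0 '' A0) := by
    rw [e1, image_image, image_image, image_image]
    refine image_congr fun v _ => ?_
    exact (hMv v (Submodule.mem_orthogonal_singleton_iff_inner_right.1 v.2)).symm
  rw [← O.isometry.euclideanHausdorffMeasure_image (L '' A), e2, hdet,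
    isometry_subtype_coe.euclideanHausdorffMeasure_image]
  conv_rhs => rw [e1, isometry_subtype_coe.euclideanHausdorffMeasure_image]
  rw [← hd, InnerProductSpace.euclideanHausdorffMeasure_eq_volume,
    Measure.addHaar_image_linearMap]

end Pool.Agent.P.MP_2b44f0_gt.PD
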