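import Pool.Agent.P.MP_2b44f0_gt.PD.IfM

/-! Step MLOC. -/

namespace Pool.Agent.P.MP_2b44f0_gt.PD

open MeasureTheory Set Filter Asymptotics
open scoped ENNReal NNReal RealInnerProductSpace Topology

namespace MLOCx

variable {ι : Type} [Fintype ι]

theorem image_le {f g : E ι → E ι} {s : Set (E ι)} {K : ℝ≥0}
    (h : ∀ y ∈ s, ∀ z ∈ s, ‖f y - f z‖ ≤ K * ‖g y - g z‖) (d : ℕ) :
    μHE[d] (f '' s) ≤ (K : ℝ≥0∞) ^ d * μHE[d] (g '' s) := by
  have h1 : ∀ a ∈ g '' s, Function.invFunOn g s a ∈ s ∧ g (Function.invFunOn g s a) = a :=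
    fun a ha => Function.invFunOn_pos ha
  refine le_trans (measure_mono ?_) (Tube.image_le (f := fun a => f (Function.invFunOn g s a))
    (LipschitzOnWith.of_dist_le_mul fun a ha b hb => ?_) d)
  · rintro _ ⟨y, hy, rfl⟩
    obtain ⟨h2, h3⟩ := h1 _ ⟨y, hy, rfl⟩
    have := h _ h2 y hy
    rw [h3, sub_self, norm_zero, mul_zero, norm_le_zero_iff, sub_eq_zero] at this
    exact ⟨_, ⟨y, hy, rfl⟩, this⟩
  · have := h _ (h1 a ha).1 _ (h1 b hb).1
    rwa [(h1 a ha).2, (h1 b hb).2, ← dist_eq_norm, ← dist_eq_norm] at this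

theorem compare {f g : E ι → E ι} {T : E ι →L[ℝ] E ι} {x : E ι} (hf : HasStrictFDerivAt f T x)
    (hg : HasStrictFDerivAt g T x) (hT : T.det ≠ 0) {η : ℝ} (hη : 1 < η) :
    ∃ V, IsOpen V ∧ x ∈ V ∧ ∀ y ∈ V, ∀ z ∈ V, ‖f y - f z‖ ≤ η * ‖g y - g z‖ := by
  have h0 := (T.toContinuousLinearEquivOfDetNeZero hT).isBigO_comp_rev
    (fun p : E ι × E ι => p.1 - p.2) (𝓝 (x, x))
  have h1 : (fun p : E ι × E ι => p.1 - p.2) =O[𝓝 (x, x)] fun p => g p.1 - g p.2 :=
    (h0.trans (hg.isLittleO.trans_isBigO h0).right_isBigO_add).congr_right fun p => by simp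
  have h2 := ((hf.isLittleO.sub hg.isLittleO).trans_isBigO h1).def (sub_pos.2 hη)
  rw [nhds_prod_eq] at h2
  obtain ⟨p, hp, q, hq, h3⟩ := eventually_prod_iff.1 h2
  obtain ⟨V, h4, h5, h6⟩ := eventually_nhds_iff.1 (hp.and hq)
  refine ⟨V, h5, h6, fun y hy z hz => ?_⟩
  have h7 := h3 (h4 y hy).1 (h4 z hz).2
  have h8 := norm_add_le (f y - f z - T (y - z) - (g y - g z - T (y - z))) (g y - g z)
  rw [show f y - f z - T (y - z) - (g y - g z - T (y - z)) + (g y - g z) = f y - f z by abel] at h8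
  simp only at h7
  linarith

end MLOCx

theorem c_MLOC (hMLIN : Q_MLIN) :
    Q_MLOC := by
  intro ι _ d C U F Ψ hcard hc hΨ x hx j ⟨N, hN, hNL, hdet, hj⟩ j' hj'
  obtain ⟨hn, hF, -⟩ := (all_shape ι C U F hc).2.2 x hx.2
  have hU := hc.isOpen.mem_nhds hx.2
  have h0 : ‖gradient F x‖ ≠ 0 := norm_ne_zero_iff.2 (hc.grad_ne x hx.2)
  have hsF : HasStrictFDerivAt (fun y => ‖gradient F x‖⁻¹ * F y) (innerSL ℝ (normal F x)) x := by
    refine (((hc.smooth.contDiffAt hU).hasStrictFDerivAt two_ne_zero).const_mul _).congr_fderiv ?_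
    ext v
    simp [hF, h0]
  have hsΨ := (hΨ.contDiffAt hU).hasStrictFDerivAt one_ne_zero
  obtain ⟨η, hη, hηj⟩ : ∃ η : ℝ≥0, 1 < η ∧ (η : ℝ) ^ d * j ≤ j' := by
    have h1 : ContinuousAt (fun η : ℝ≥0 => (η : ℝ) ^ d * j) 1 := by fun_prop
    have h2 : ∀ᶠ η : ℝ≥0 in 𝓝 1, (η : ℝ) ^ d * j < j' :=
      h1.eventually_lt continuousAt_const (by simpa using hj')
    obtain ⟨η, h3, h4⟩ := ((h2.filter_mono nhdsWithin_le_nhds).and
      (self_mem_nhdsWithin (a := (1 : ℝ≥0)) (s := Ioi 1))).exists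
    exact ⟨η, h4, h3.le⟩
  set L := fderiv ℝ Ψ x
  set ν := normal F x with hν
  obtain ⟨V, h1, h2, h3⟩ := MLOCx.compare (T := extL L ν N) (η := η)
    (f := fun y => Ψ y + (‖gradient F x‖⁻¹ * F y) • (N - L ν))
    (g := fun y => L (tangentProj F x y) + (‖gradient F x‖⁻¹ * F y) • N)
    ((hsΨ.add (hsF.smul_const _)).congr_fderiv (by
      ext1 v
      simp [extL, smul_sub]
      abel))
    ((L.comp (tangentProj F x)).hasStrictFDerivAt.add (hsF.smul_const _)) hdet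
    (by exact_mod_cast hη)
  refine ⟨V ∩ U, h1.inter hc.isOpen, ⟨h2, hx.2⟩, fun W hW => ?_⟩
  have hz : ∀ y ∈ C ∩ W, F y = 0 := fun y hy => (hc.zero_set y (hW hy.2).2).1 hy.1
  have h4 := MLOCx.image_le (f := Ψ) (g := fun y => L (tangentProj F x y)) (s := C ∩ W) (K := η)
    (fun y hy z hz' => by simpa [hz y hy, hz z hz'] using h3 y (hW hy.2).1 z (hW hz'.2).1) d
  have h5 : μHE[d] (tangentProj F x '' (C ∩ W)) ≤ μHE[d] (C ∩ W) := by
    have := Tube.image_le (f := tangentProj F x) (s := C ∩ W) (K := 1)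
      (LipschitzOnWith.of_dist_le_mul fun a _ b _ => by
        rw [dist_eq_norm, dist_eq_norm, ← map_sub, NNReal.coe_one, one_mul,
          Foot.tangentProj_apply]
        refine abs_le_of_sq_le_sq' ?_ (norm_nonneg _) |>.2
        rw [norm_sub_sq_real, inner_smul_right, norm_smul, hn, mul_one, Real.norm_eq_abs, sq_abs,
          real_inner_comm]
        nlinarith [sq_nonneg ⟪ν, a - b⟫]) d
    simpa using this
  rw [← image_image L (tangentProj F x), hMLIN ι d L ν N _ hcard hn hN hNL (by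
    rintro _ ⟨y, -, rfl⟩
    exact Foot.inner_tangentProj hn y), ← mul_assoc] at h4
  refine h4.trans (mul_le_mul' ?_ h5)
  rw [← ENNReal.coe_pow, ← ENNReal.ofReal_coe_nnreal, ← ENNReal.ofReal_mul (by positivity)]
  refine ENNReal.ofReal_le_ofReal (le_trans ?_ hηj)
  push_cast
  gcongr

end Pool.Agent.P.MP_2b44f0_gt.PD
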