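import Pool.Agent.P.MP_2b44f0_gt.PD.IfM
import Pool.Agent.P.MP_2b44f0_gt.PD.TBALL2

/-! Step MMEAS. -/

namespace Pool.Agent.P.MP_2b44f0_gt.PD

open MeasureTheory Set Filter Asymptotics
open scoped ENNReal RealInnerProductSpace Topology

theorem c_MMEAS :
    Q_MMEAS := by
  intro ι _ d C U F hd hc hC
  refine ⟨fun A hA hU => ?_, fun x hx ρ hρ => ?_⟩
  · obtain ⟨K, hK, hG⟩ := BALL2x.comp hd hc (hA.inter_left hC) fun y hy => ⟨hU hy.2, hy.1⟩
    obtain ⟨R, h1, h2⟩ := hA.isBounded.subset_ball_lt 0 (0 : E ι)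
    exact ne_top_of_le_ne_top (ENNReal.mul_ne_top hK ENNReal.ofReal_ne_top)
      (le_trans (measure_mono fun y hy => mem_inter hy (h2 hy.2)) (hG 0 R h1))
  · obtain ⟨V, O, y, -, hxV, -, hO, -, ha, -, hcc, hlip, -⟩ :=
      Foot.exists_foot all_shape hc hx.symm (η := 2) (by norm_num)
    have hn : ‖normal F x‖ = 1 := ((all_shape ι C U F hc).2.2 x hx.2).1
    set ν := normal F x with hν
    set P := tangentProj F x with hP
    have hrank : Module.finrank ℝ (ℝ ∙ ν)ᗮ = d := by
      have h1 := (ℝ ∙ ν).finrank_add_finrank_orthogonal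
      rw [finrank_span_singleton (by rintro h; simp [h] at hn), finrank_euclideanSpace, hd] at h1
      omega
    obtain ⟨S, hS⟩ : ∃ S : Set (ℝ ∙ ν)ᗮ, S = Subtype.val ⁻¹' (O ∩ Metric.ball (P x) (ρ / 2)) :=
      ⟨_, rfl⟩
    have h0 : 0 < volume S := by
      rw [hS]
      exact ((hO.inter Metric.isOpen_ball).preimage continuous_subtype_val).measure_pos _
        ⟨⟨P x, Submodule.mem_orthogonal_singleton_iff_inner_right.2 (Foot.inner_tangentProj hn x)⟩,
          (ha x ⟨hx.1, hxV⟩).1, Metric.mem_ball_self (half_pos hρ)⟩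
    have h1 : Subtype.val '' S ⊆ P '' (C ∩ Metric.ball x ρ) := by
      rintro _ ⟨⟨z, hz⟩, h, rfl⟩
      rw [hS] at h
      obtain ⟨h2, h3, -⟩ := hcc z h.1
      have h4 : P z = z := by
        rw [hP, Foot.tangentProj_apply, Submodule.mem_orthogonal_singleton_iff_inner_right.1 hz]
        simp
      have h5 := hlip (y z) h2 x ⟨hx.1, hxV⟩
      have h6 : dist z (P x) < ρ / 2 := h.2
      rw [h3, h4, NNReal.coe_ofNat] at h5
      exact ⟨y z, ⟨h2.1, lt_of_le_of_lt h5 (by linarith)⟩, h3.trans h4⟩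
    have h2 : LipschitzOnWith 1 P (C ∩ Metric.ball x ρ) :=
      LipschitzOnWith.of_dist_le_mul fun v _ w _ => by
        rw [dist_eq_norm, dist_eq_norm, ← map_sub, NNReal.coe_one, one_mul]
        exact BALL2x.proj_le hn _
    calc 0 < volume S := h0
      _ = μHE[d] (Subtype.val '' S) := by
        rw [isometry_subtype_coe.euclideanHausdorffMeasure_image, ← hrank,
          InnerProductSpace.euclideanHausdorffMeasure_eq_volume]
      _ ≤ μHE[d] (P '' (C ∩ Metric.ball x ρ)) := measure_mono h1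
      _ ≤ _ := by simpa using Tube.image_le h2 d

end Pool.Agent.P.MP_2b44f0_gt.PD
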