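import Pool.Agent.P.MP_2b44f0_gt.PD.IfM

/-! Step MPROD. -/

namespace Pool.Agent.P.MP_2b44f0_gt.PD

open MeasureTheory Set Filter Asymptotics
open scoped ENNReal RealInnerProductSpace Topology

namespace MPRODx

theorem sq_sum {d : ℕ} {a : Fin d → ℝ} {ε : ℝ} (h : ∀ i, |a i| ≤ ε) :
    ∑ i, a i ^ 2 ≤ d * ε ^ 2 := by
  simpa using Finset.sum_le_card_nsmul Finset.univ (fun i => a i ^ 2) (ε ^ 2) fun i _ =>
    sq_le_sq' (abs_le.1 (h i)).1 (abs_le.1 (h i)).2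

theorem abs_sum {d : ℕ} {a : Fin d → ℝ} {ε : ℝ} (h : ∀ i, |a i| ≤ ε) : |∑ i, a i| ≤ d * ε :=
  (Finset.abs_sum_le_sum_abs _ _).trans (by
    simpa using Finset.sum_le_card_nsmul Finset.univ (fun i => |a i|) ε fun i _ => h i)

theorem abs_two {d : ℕ} {a : Fin d → ℝ} {ε : ℝ} (h : ∀ i, |a i| ≤ ε) :
    |((∑ i, a i) ^ 2 - ∑ i, a i ^ 2) / 2| ≤ (d ^ 2 + d) * ε ^ 2 := by
  have h1 := sq_sum h
  have h2 := sq_le_sq' (abs_le.1 (abs_sum h)).1 (abs_le.1 (abs_sum h)).2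
  have h3 : 0 ≤ ∑ i, a i ^ 2 := Finset.sum_nonneg fun i _ => sq_nonneg _
  have h4 := sq_nonneg (∑ i, a i)
  rw [abs_le]
  constructor <;> nlinarith

theorem prod_le (d : ℕ) : ∃ C : ℝ, 0 ≤ C ∧ ∀ (a : Fin d → ℝ) (ε : ℝ), 0 ≤ ε → ε ≤ 1 →
    (∀ i, |a i| ≤ ε) →
    ∏ i, (1 + a i) ≤ 1 + ∑ i, a i + ((∑ i, a i) ^ 2 - ∑ i, a i ^ 2) / 2 + C * ε ^ 3 := by
  induction d with
  | zero => exact ⟨0, le_rfl, fun a ε _ _ _ => by simp⟩
  | succ d ih =>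
    obtain ⟨C, hC, ih⟩ := ih
    refine ⟨2 * C + (d ^ 2 + d), by positivity, fun a ε h0 h1 h => ?_⟩
    have a1 := ih (fun i => a i.succ) ε h0 h1 fun i => h _
    have a2 := abs_two (a := fun i => a i.succ) fun i => h _
    obtain ⟨b1, b2⟩ := abs_le.1 (h 0)
    have a3 := (le_abs_self _).trans ((abs_mul _ _).trans_le (mul_le_mul (h 0) a2 (abs_nonneg _) h0))
    have a4 := mul_le_mul_of_nonneg_left a1 (by linarith : 0 ≤ 1 + a 0)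
    have a5 := mul_le_mul_of_nonneg_right (b2.trans h1) (by positivity : 0 ≤ C * ε ^ 3)
    simp only [Fin.prod_univ_succ, Fin.sum_univ_succ]
    linarith

end MPRODx

theorem c_MPROD :
    Q_MPROD := by
  intro d K
  obtain ⟨C, hC, H⟩ := MPRODx.prod_le d
  refine ⟨C * K ^ 6 + (6 + 4 * (d + (d ^ 2 + d) + C)) * K ^ 2 * (d * K ^ 2) / 2,
    1 / (2 * (K ^ 2 + 1)), by positivity, fun μ g φ t hμ hg hφ ht => ?_⟩
  have K0 : 0 ≤ K := (abs_nonneg _).trans hφ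
  obtain ⟨ε, hε⟩ : ∃ ε, ε = |t| * K ^ 2 := ⟨_, rfl⟩
  have e0 : 0 ≤ ε := by rw [hε]; positivity
  have e1 : ε ≤ 1 / 2 := by
    rw [le_div_iff₀ (by positivity)] at ht
    nlinarith [abs_nonneg t]
  have ha : ∀ i, |t * φ * μ i| ≤ ε := fun i => by
    rw [abs_mul, abs_mul, hε, mul_assoc, sq]
    exact mul_le_mul_of_nonneg_left (mul_le_mul hφ (hμ i) (abs_nonneg _) K0) (abs_nonneg _)
  have pos : ∀ i, 0 < 1 + t * φ * μ i := fun i => by linarith [(abs_le.1 (ha i)).1]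
  refine ⟨pos, ?_⟩
  have h1 := H _ ε e0 (by linarith) ha
  have h2 := (abs_le.1 (MPRODx.abs_sum ha)).2
  have h3 := (abs_le.1 (MPRODx.abs_two ha)).2
  have h4 := MPRODx.sq_sum hg
  have hu : ∑ i, (t * g i / (1 + t * φ * μ i)) ^ 2 ≤ (1 + 6 * ε) * (t ^ 2 * ∑ i, g i ^ 2) := by
    rw [Finset.mul_sum, Finset.mul_sum]
    refine Finset.sum_le_sum fun i _ => ?_
    have b1 : (1 - ε) ^ 2 ≤ (1 + t * φ * μ i) ^ 2 :=
      pow_le_pow_left₀ (by linarith) (by linarith [(abs_le.1 (ha i)).1]) 2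
    have b2 : 1 ≤ (1 + 6 * ε) * (1 + t * φ * μ i) ^ 2 := by
      nlinarith [mul_nonneg e0 (mul_nonneg (sub_nonneg.2 e1) (by linarith : 0 ≤ 8 - 6 * ε)),
        mul_le_mul_of_nonneg_left b1 (by linarith : 0 ≤ 1 + 6 * ε)]
    rw [div_pow, div_le_iff₀ (pow_pos (pos i) 2), mul_pow]
    nlinarith [mul_le_mul_of_nonneg_left b2 (by positivity : 0 ≤ t ^ 2 * g i ^ 2)]
  have s1 : ∑ i, t * φ * μ i = t * φ * ∑ i, μ i := (Finset.mul_sum _ _ _).symm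
  have s2 : ∑ i, (t * φ * μ i) ^ 2 = (t * φ) ^ 2 * ∑ i, μ i ^ 2 := by
    simp only [mul_pow, Finset.mul_sum]
  have P0 : 0 ≤ ∏ i, (1 + t * φ * μ i) := Finset.prod_nonneg fun i _ => (pos i).le
  have G0 : 0 ≤ ∑ i, g i ^ 2 := Finset.sum_nonneg fun i _ => sq_nonneg _
  have u0 : 0 ≤ ∑ i, (t * g i / (1 + t * φ * μ i)) ^ 2 := Finset.sum_nonneg fun i _ => sq_nonneg _
  generalize ∑ i, (t * g i / (1 + t * φ * μ i)) ^ 2 = u at *
  generalize ∑ i, g i ^ 2 = G at *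
  generalize ∏ i, (1 + t * φ * μ i) = P at *
  obtain ⟨D, hD⟩ : ∃ D : ℝ, D = d + (d ^ 2 + d) + C := ⟨_, rfl⟩
  have D0 : 0 ≤ D := by rw [hD]; positivity
  have q1 : √(1 + u) ≤ 1 + u / 2 := Real.sqrt_le_iff.2 ⟨by positivity, by nlinarith⟩
  have q2 : ε ^ 2 ≤ ε := by nlinarith
  have q3 : P ≤ 1 + D * ε := by
    have c1 := mul_le_mul_of_nonneg_left q2 (by positivity : (0 : ℝ) ≤ d ^ 2 + d)
    have c2 := mul_le_mul_of_nonneg_left (show ε ^ 3 ≤ ε by nlinarith) hC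
    rw [hD]
    linarith
  have q4 : P * u ≤ (1 + (6 + 4 * D) * ε) * (t ^ 2 * G) := by
    refine (mul_le_mul q3 hu u0 (by positivity)).trans ?_
    rw [← mul_assoc]
    exact mul_le_mul_of_nonneg_right (by nlinarith [mul_nonneg D0 e0]) (by positivity)
  have q5 : (6 + 4 * D) * ε * (t ^ 2 * G) ≤ (6 + 4 * D) * ε * (t ^ 2 * (d * K ^ 2)) := by gcongr
  have q6 := mul_le_mul_of_nonneg_left q1 P0
  have q7 : t ^ 2 = |t| ^ 2 := (sq_abs t).symm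
  rw [s1, s2] at h1
  rw [← hD]
  rw [hε] at h1 q4 q5
  rw [q7] at q5
  rw [add_mul, q7] at q4
  rw [q7]
  have q8 : (t * φ * ∑ i, μ i) ^ 2 - (t * φ) ^ 2 * ∑ i, μ i ^ 2 =
      |t| ^ 2 * (φ ^ 2 * ((∑ i, μ i) ^ 2 - ∑ i, μ i ^ 2)) := by rw [← q7]; ring
  rw [q8] at h1
  linarith

end Pool.Agent.P.MP_2b44f0_gt.PD
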