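import Pool.Agent.P.MP_2b44f0_gt.PD.IfM

/-! Step MSTAB. -/

namespace Pool.Agent.P.MP_2b44f0_gt.PD

open MeasureTheory Set Filter Asymptotics
open scoped ENNReal RealInnerProductSpace Topology

namespace MSTABx

theorem second {I K t₀ : ℝ} (h0 : 0 < t₀)
    (h : ∀ t : ℝ, |t| ≤ t₀ → 0 ≤ t ^ 2 / 2 * I + K * |t| ^ 3) : 0 ≤ I := by
  by_contra hI
  have hI : I < 0 := not_le.1 hI
  have hK : 0 < |K| + 1 := by positivity
  set t := min t₀ (-I / (4 * (|K| + 1))) with ht
  have t0 : 0 < t := lt_min h0 (div_pos (by linarith) (by positivity))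
  have t1 : t ≤ -I / (4 * (|K| + 1)) := min_le_right _ _
  rw [le_div_iff₀ (by positivity)] at t1
  have h1 := h t (by rw [abs_of_pos t0]; exact min_le_left _ _)
  rw [abs_of_pos t0] at h1
  have h2 : K * t ≤ |K| * t := mul_le_mul_of_nonneg_right (le_abs_self K) t0.le
  have h3 : t ^ 2 * (I / 2 + K * t) < 0 :=
    mul_neg_of_pos_of_neg (by positivity) (by nlinarith)
  nlinarith

theorem cut {ι : Type} [Fintype ι] {B U : Set (E ι)} (hB : IsClosed B) (hU : IsOpen U)
    (h : B ⊆ U) : ∃ χ : E ι → ℝ, ContDiff ℝ 1 χ ∧ tsupport χ ⊆ U ∧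
      ∀ y ∈ B, ∀ᶠ z in 𝓝 y, χ z = 1 := by
  obtain ⟨f, h0, h1, -⟩ := exists_contMDiffMap_zero_one_nhds_of_isClosed
    (modelWithCornersSelf ℝ (E ι)) (n := 1) hU.isClosed_compl hB
    (disjoint_compl_left_iff_subset.2 h)
  refine ⟨f, f.contMDiff.contDiff, fun y hy => ?_, fun y hy => h1.filter_mono (nhds_le_nhdsSet hy)⟩
  by_contra hy'
  exact (notMem_tsupport_iff_eventuallyEq.2 (h0.filter_mono (nhds_le_nhdsSet hy'))) hy

end MSTABx

theorem c_MSTAB (hMMEAS : Q_MMEAS) (hMVAR : Q_MVAR) (hMMIN : Q_MMIN) :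
    Q_MSTAB := by
  intro ι _ d G U F hd hG hA hC hF hU φ hφ hc h0
  have hcl : IsClosed (frontier G) := isClosed_frontier
  obtain ⟨χ, hχ, hχU, hχ1⟩ := MSTABx.cut (B := frontier G ∩ tsupport φ) (U := U)
    (hcl.inter (isClosed_tsupport φ)) hC.isOpen
    (fun y hy => hU y hy.1 (fun e => h0 (e ▸ hy.2)))
  set ψ : E ι → ℝ := fun y => χ y * φ y with hψ
  have hψ1 : ContDiff ℝ 1 ψ := hχ.mul hφ
  have hψc : HasCompactSupport ψ := hc.mul_left
  have hψU : tsupport ψ ⊆ U := (tsupport_mul_subset_left (f := χ) (g := φ)).trans hχU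
  have hev : ∀ y ∈ frontier G, φ =ᶠ[𝓝 y] ψ := by
    intro y hy
    by_cases h : y ∈ tsupport φ
    · filter_upwards [hχ1 y ⟨hy, h⟩] with z hz
      simp [hψ, hz]
    · filter_upwards [notMem_tsupport_iff_eventuallyEq.1 h] with z hz
      simp [hψ, hz]
  have hmin := hMMIN ι d G U F hd hG hA hC hF
  obtain ⟨K, t₀, ht₀, hK⟩ := hMVAR ι d G U F hd hG hA hC hF ψ hψ1 hψc hψU
  have hS : IsCompact (frontier G ∩ tsupport ψ) := IsCompact.inter_left hψc hcl
  have hSm : MeasurableSet (frontier G ∩ tsupport ψ) := hS.measurableSet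
  have hSU : frontier G ∩ tsupport ψ ⊆ U := fun y hy => hψU hy.2
  have hfin := (hMMEAS ι d (frontier G) U F hd hC hcl).1 (tsupport ψ) hψc hψU
  obtain ⟨hN, hsh, -⟩ := all_shape ι (frontier G) U F hC
  have c1 : ContinuousOn (fun y => sqCurv F y * ψ y ^ 2) U :=
    ((trL (ι := ι)).continuous.comp_continuousOn (hsh.clm_comp hsh)).mul
      (hψ1.continuous.pow 2).continuousOn
  have hg : Continuous (gradient ψ) :=
    (InnerProductSpace.toDual ℝ (E ι)).symm.continuous.comp (hψ1.continuous_fderiv one_ne_zero)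
  have c2 : ContinuousOn (fun y => ‖tangentProj F y (gradient ψ y)‖ ^ 2) U := by
    have h1 : ContinuousOn (fun y => gradient ψ y - ⟪normal F y, gradient ψ y⟫ • normal F y) U :=
      hg.continuousOn.sub ((hN.continuousOn.inner (𝕜 := ℝ) hg.continuousOn).smul hN.continuousOn)
    exact h1.norm.pow 2
  have i1 := (c1.mono hSU).integrableOn_of_subset_isCompact hS hSm subset_rfl hfin
  have i2 := (c2.mono hSU).integrableOn_of_subset_isCompact hS hSm subset_rfl hfin
  have e1 : ∫ y in frontier G ∩ tsupport ψ, ψ y * meanCurv F y ∂μHE[d] = 0 :=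
    setIntegral_eq_zero_of_forall_eq_zero fun y hy => by rw [hmin y ⟨hy.1, hSU hy⟩, mul_zero]
  have e2 : ∫ y in frontier G ∩ tsupport ψ, (‖tangentProj F y (gradient ψ y)‖ ^ 2 +
      ψ y ^ 2 * (meanCurv F y ^ 2 - sqCurv F y)) ∂μHE[d] =
      ∫ y in frontier G ∩ tsupport ψ, ‖tangentProj F y (gradient ψ y)‖ ^ 2 ∂μHE[d] -
      ∫ y in frontier G ∩ tsupport ψ, sqCurv F y * ψ y ^ 2 ∂μHE[d] := by
    rw [← integral_sub i2 i1]
    refine setIntegral_congr_fun hSm fun y hy => ?_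
    simp only [hmin y ⟨hy.1, hSU hy⟩]
    ring
  have hI := MSTABx.second ht₀ (fun t ht => by
    have := hK t ht
    rwa [e1, e2, mul_zero, zero_add] at this)
  have f1 : ∫ y in frontier G, sqCurv F y * φ y ^ 2 ∂μHE[d] =
      ∫ y in frontier G ∩ tsupport ψ, sqCurv F y * ψ y ^ 2 ∂μHE[d] := by
    rw [← setIntegral_eq_of_subset_of_forall_sdiff_eq_zero hcl.measurableSet inter_subset_left
      (fun y hy => by
        rw [image_eq_zero_of_notMem_tsupport (f := ψ) (fun h => hy.2 ⟨hy.1, h⟩)]; simp)]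
    exact setIntegral_congr_fun hcl.measurableSet fun y hy => by
      simp only [(hev y hy).eq_of_nhds]
  have f2 : ∫ y in frontier G, ‖tangentProj F y (gradient φ y)‖ ^ 2 ∂μHE[d] =
      ∫ y in frontier G ∩ tsupport ψ, ‖tangentProj F y (gradient ψ y)‖ ^ 2 ∂μHE[d] := by
    rw [← setIntegral_eq_of_subset_of_forall_sdiff_eq_zero hcl.measurableSet inter_subset_left
      (fun y hy => by
        have h : ψ =ᶠ[𝓝 y] fun _ => (0 : ℝ) :=
          notMem_tsupport_iff_eventuallyEq.1 (fun h => hy.2 ⟨hy.1, h⟩)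
        rw [h.gradient_eq]; simp)]
    exact setIntegral_congr_fun hcl.measurableSet fun y hy => by
      simp only [(hev y hy).gradient_eq]
  rw [f1, f2]
  linarith

end Pool.Agent.P.MP_2b44f0_gt.PD
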