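import Pool.Agent.P.MP_2b44f0_gt.PD.IfM

/-! Step MVAR. -/

namespace Pool.Agent.P.MP_2b44f0_gt.PD

open MeasureTheory Set Filter Asymptotics
open scoped ENNReal RealInnerProductSpace Topology

theorem c_MVAR (hMMEAS : Q_MMEAS) (hMAREA : Q_MAREA) (hMJAC : Q_MJAC) (hMDIFF : Q_MDIFF) :
    Q_MVAR := by
  intro ι _ d G U F hd hG hmin hc _ φ hφ hA hAU
  obtain ⟨hN, hS, hP⟩ := all_shape ι _ U F hc
  set A := tsupport φ
  have hA' : IsCompact A := hA
  have hK : IsCompact (frontier G ∩ A) := hA'.inter_left isClosed_frontier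
  have hU : frontier G ∩ A ⊆ U := inter_subset_right.trans hAU
  have hX : ContDiff ℝ 1 fun y => φ y • normal F y := by
    refine contDiff_iff_contDiffAt.2 fun y => ?_
    by_cases hy : y ∈ U
    · exact hφ.contDiffAt.smul (hN.contDiffAt (hc.isOpen.mem_nhds hy))
    · refine (contDiffAt_const (c := 0)).congr_of_eventuallyEq ?_
      filter_upwards [notMem_tsupport_iff_eventuallyEq.1 fun h => hy (hAU h)] with z hz
      simp [hz]
  set g := fun y => tangentProj F y (gradient φ y) with hg
  have cg : ContinuousOn g U := by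
    have h1 : Continuous (gradient φ) :=
      (InnerProductSpace.toDual ℝ (E ι)).symm.continuous.comp (hφ.continuous_fderiv one_ne_zero)
    simp only [hg, Foot.tangentProj_apply]
    exact h1.continuousOn.sub ((hN.continuousOn.inner (𝕜 := ℝ) h1.continuousOn).smul hN.continuousOn)
  have cH : ContinuousOn (meanCurv F) U := (trL (ι := ι)).continuous.comp_continuousOn hS
  have cQ : ContinuousOn (sqCurv F) U :=
    (trL (ι := ι)).continuous.comp_continuousOn (hS.clm_comp hS)
  have cφ : ContinuousOn φ U := hφ.continuous.continuousOn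
  obtain ⟨K1, h1⟩ := hK.exists_bound_of_continuousOn (hS.mono hU)
  obtain ⟨K2, h2⟩ := hK.exists_bound_of_continuousOn (cg.mono hU)
  obtain ⟨K3, h3⟩ := hK.exists_bound_of_continuousOn (cφ.mono hU)
  obtain ⟨K', t1, ht1, hJ⟩ := hMJAC ι (max K1 (max K2 K3))
  obtain ⟨t2, ht2, hD⟩ := hMDIFF ι _ A hX hA' fun y hy => by
    simp [image_eq_zero_of_notMem_tsupport hy]
  have hfin := (hMMEAS ι d _ U F hd hc isClosed_frontier).1 A hA' hAU
  refine ⟨K' * (μHE[d] (frontier G ∩ A)).toReal, min t1 t2, lt_min ht1 ht2, fun t ht => ?_⟩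
  obtain ⟨d1, d2, d3⟩ := hD t (ht.trans (min_le_right _ _)) G hG
  have c1 : ContinuousOn (fun y => φ y * meanCurv F y) (frontier G ∩ A) := (cφ.mul cH).mono hU
  have c2 : ContinuousOn (fun y => ‖g y‖ ^ 2 + φ y ^ 2 * (meanCurv F y ^ 2 - sqCurv F y))
      (frontier G ∩ A) := ((cg.norm.pow 2).add ((cφ.pow 2).mul ((cH.pow 2).sub cQ))).mono hU
  have jac : ∀ x ∈ frontier G ∩ A, JacLe (fderiv ℝ (fun y => y + t • φ y • normal F y) x)
      (normal F x) (1 + t * (φ x * meanCurv F x) + t ^ 2 / 2 *
        (‖g x‖ ^ 2 + φ x ^ 2 * (meanCurv F x ^ 2 - sqCurv F x)) + K' * |t| ^ 3) := by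
    intro x hx
    obtain ⟨p1, -, -, p2, -, p3⟩ := hP x (hU hx)
    rw [← mul_assoc]
    refine hJ _ (g x) (shape F x) _ (φ x) t p1 p3 p2 ((h1 x hx).trans (le_max_left _ _))
      (Foot.inner_tangentProj p1 _) ((h2 x hx).trans (le_max_of_le_right (le_max_left _ _)))
      ((h3 x hx).trans (le_max_of_le_right (le_max_right _ _))) (ht.trans (min_le_left _ _))
      fun v hv => ?_
    have e1 := (hφ.differentiable one_ne_zero x).hasFDerivAt
    have e2 := ((hN.contDiffAt (hc.isOpen.mem_nhds (hU hx))).differentiableAt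
      one_ne_zero).hasFDerivAt
    have e3 : HasFDerivAt (fun y => y + t • φ y • normal F y) _ x :=
      (hasFDerivAt_id x).add ((e1.smul e2).const_smul t)
    have e4 : ⟪g x, v⟫ = fderiv ℝ φ x v := by
      simp only [hg, Foot.tangentProj_apply, inner_sub_left, inner_smul_left, hv, mul_zero,
        sub_zero]
      exact InnerProductSpace.toDual_symm_apply
    have e5 : shape F x v = fderiv ℝ (normal F) x v := by
      simp [shape, Foot.tangentProj_apply, hv]
    rw [e3.fderiv, e4, e5]
    simp only [add_apply, ContinuousLinearMap.id_apply, smul_apply,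
      ContinuousLinearMap.smulRight_apply]
    module
  have a1 := hmin A _ hA' d1 d2
  rw [d3] at a1
  have a2 := a1.trans (hMAREA ι d _ U F _ _ A hd hc isClosed_frontier
    (contDiff_id.add (hX.const_smul t)).contDiffOn hA' hAU (((continuousOn_const.add
      (continuousOn_const.mul c1)).add (continuousOn_const.mul c2)).add continuousOn_const) jac)
  have a3 := ENNReal.toReal_le_of_le_ofReal (setIntegral_nonneg hK.measurableSet fun x hx => by
    obtain ⟨N, -, -, -, h⟩ := jac x hx
    exact (abs_nonneg _).trans h) a2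
  have : IsFiniteMeasure (μHE[d].restrict (frontier G ∩ A)) := isFiniteMeasure_restrict.2 hfin
  have i1 := c1.integrableOn_of_subset_isCompact (μ := μHE[d]) hK hK.measurableSet Subset.rfl hfin
  have i2 := c2.integrableOn_of_subset_isCompact (μ := μHE[d]) hK hK.measurableSet Subset.rfl hfin
  have j1 := (integrable_const 1).fun_add (i1.const_mul t)
  have j2 := j1.fun_add (i2.const_mul (t ^ 2 / 2))
  simp only [Pi.add_apply, Pi.mul_apply] at a3
  rw [integral_add j2 (integrable_const _), integral_add j1 (i2.const_mul _),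
    integral_add (integrable_const _) (i1.const_mul t), integral_const_mul,
    integral_const_mul, setIntegral_const, setIntegral_const, Measure.real, smul_eq_mul,
    smul_eq_mul] at a3
  linarith

end Pool.Agent.P.MP_2b44f0_gt.PD
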