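import Pool.Agent.P.MP_2b44f0_gt.PD.TMGLOB
import Pool.Agent.P.MP_2b44f0_gt.PD.TMMEAS
import Pool.Agent.P.MP_2b44f0_gt.PD.TMLIN
import Pool.Agent.P.MP_2b44f0_gt.PD.TMLOC
import Pool.Agent.P.MP_2b44f0_gt.PD.TMAREA
import Pool.Agent.P.MP_2b44f0_gt.PD.TMPROD
import Pool.Agent.P.MP_2b44f0_gt.PD.TMJAC
import Pool.Agent.P.MP_2b44f0_gt.PD.TMDIFF
import Pool.Agent.P.MP_2b44f0_gt.PD.TMVAR
import Pool.Agent.P.MP_2b44f0_gt.PD.TMMIN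
import Pool.Agent.P.MP_2b44f0_gt.PD.TMSTAB

/-!
All steps for area minimizing boundaries together.
-/

namespace Pool.Agent.P.MP_2b44f0_gt.PD

theorem a_MGLOB : Q_MGLOB :=
  c_MGLOB

theorem a_MMEAS : Q_MMEAS :=
  c_MMEAS

theorem a_MLIN : Q_MLIN :=
  c_MLIN

theorem a_MLOC : Q_MLOC :=
  c_MLOC a_MLIN

theorem a_MAREA : Q_MAREA :=
  c_MAREA a_MMEAS a_MLOC

theorem a_MPROD : Q_MPROD :=
  c_MPROD

theorem a_MJAC : Q_MJAC :=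
  c_MJAC a_MPROD

theorem a_MDIFF : Q_MDIFF :=
  c_MDIFF

theorem a_MVAR : Q_MVAR :=
  c_MVAR a_MMEAS a_MAREA a_MJAC a_MDIFF

theorem a_MMIN : Q_MMIN :=
  c_MMIN a_MMEAS a_MVAR

theorem a_MSTAB : Q_MSTAB :=
  c_MSTAB a_MMEAS a_MVAR a_MMIN

end Pool.Agent.P.MP_2b44f0_gt.PD
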