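import Pool.Agent.P.MP_2b44f0_gt.PD.Defs
import Pool.Agent.P.MP_2b44f0_gt.Shape
import Pool.Agent.P.MP_2b44f0_gt.Near
import Pool.Agent.P.MP_2b44f0_gt.Simons
import Pool.Agent.P.MP_2b44f0_gt.Tube
import Pool.Agent.P.MP_2b44f0_gt.Polar

/-!
The link, its tangent spaces and measure, jets, the regularised ball curvature; first facts.
-/

namespace Pool.Agent.P.MP_2b44f0_gt.PD

open MeasureTheory Set Filter
open scoped ENNReal RealInnerProductSpace Topology

variable {ι : Type} [Fintype ι]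

/-- the standing hypotheses: an `n`-dimensional link -/
structure St (n : ℕ) (C U : Set (E ι)) (F : E ι → ℝ) : Prop extends SmoothCone C U F where
  card : Fintype.card ι = n + 2
  pos : 1 ≤ n

/-- the link -/
def lk (C : Set (E ι)) : Set (E ι) := C ∩ Metric.sphere 0 1

/-- `v` is tangent to the link at `x` -/
def Tan (F : E ι → ℝ) (x v : E ι) : Prop := ⟪x, v⟫ = 0 ∧ ⟪normal F x, v⟫ = 0

/-- the projection to the tangent space of the link -/
noncomputable def prT (F : E ι → ℝ) (x v : E ι) : E ι :=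
  v - ⟪x, v⟫ • x - ⟪normal F x, v⟫ • normal F x

/-- the trace -/
noncomputable def tr (M : E ι →L[ℝ] E ι) : ℝ := LinearMap.trace ℝ (E ι) M.toLinearMap

/-- the trace over the tangent space of the link -/
noncomputable def trT (F : E ι → ℝ) (x : E ι) (M : E ι →L[ℝ] E ι) : ℝ :=
  tr M - ⟪M x, x⟫ - ⟪M (normal F x), normal F x⟫

/-- the area measure of the link, divided by `n + 1` -/
noncomputable def lm (n : ℕ) (C : Set (E ι)) : Measure (E ι) :=
  (μHE[n + 1].restrict (C ∩ Metric.ball 0 1)).map fun y => ‖y‖⁻¹ • y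

/-- the radial measure `(n + 1) r ^ n dr` -/
noncomputable def rad (n : ℕ) : Measure ℝ :=
  (volume.restrict (Ioi 0)).withDensity fun r => ENNReal.ofReal ((n + 1) * r ^ n)

/-- the Gaussian kernel -/
noncomputable def gk (r : ℝ) (x y : E ι) : ℝ := Real.exp (-(‖y - x‖ ^ 2 / r ^ 2))

/-- `u y ≤ ⟪p, h⟫ + ⟪M h, h⟫ / 2 + o(|h|²)` on the link, `h = y - x` -/
def UJet (C : Set (E ι)) (u : E ι → ℝ) (x p : E ι) (M : E ι →L[ℝ] E ι) : Prop :=
  ∀ η : ℝ, 0 < η → ∀ᶠ y in 𝓝[lk C] x,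
    u y ≤ ⟪p, y - x⟫ + ⟪M (y - x), y - x⟫ / 2 + η * ‖y - x‖ ^ 2

/-- `k x + ⟪p, h⟫ + ⟪M h, h⟫ / 2 - o(|h|²) ≤ k y` on the link, `h = y - x` -/
def LJet (C : Set (E ι)) (k : E ι → ℝ) (x p : E ι) (M : E ι →L[ℝ] E ι) : Prop :=
  ∀ η : ℝ, 0 < η → ∀ᶠ y in 𝓝[lk C] x,
    k x + ⟪p, y - x⟫ + ⟪M (y - x), y - x⟫ / 2 - η * ‖y - x‖ ^ 2 ≤ k y

/-- the two point quotient -/
noncomputable def qv (F : E ι → ℝ) (ε : ℝ) (x y : E ι) : ℝ :=
  (⟪normal F x, y⟫ - ε) / (1 - ⟪x, y⟫)

/-- `y` maximises the quotient at `x` -/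
def IsMx (C : Set (E ι)) (F : E ι → ℝ) (ε : ℝ) (x y : E ι) : Prop :=
  y ∈ lk C ∧ y ≠ x ∧ ∀ z ∈ lk C, ⟪normal F x, z⟫ - ε ≤ qv F ε x y * (1 - ⟪x, z⟫)

/-- the regularised ball curvature -/
noncomputable def kap (C : Set (E ι)) (F : E ι → ℝ) (ε : ℝ) (x : E ι) : ℝ :=
  sSup (qv F ε x '' (lk C \ {x}))

/-- the tangential gradient of `qv F ε · y` at `x` -/
noncomputable def pv (F : E ι → ℝ) (ε : ℝ) (x y : E ι) : E ι :=
  (1 - ⟪x, y⟫)⁻¹ • (qv F ε x y • prT F x y + shape F x (prT F x y))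

/-- the sum of the two ball curvatures -/
noncomputable def sig (C : Set (E ι)) (F : E ι → ℝ) (ε : ℝ) (x : E ι) : ℝ :=
  kap C F ε x + kap C (-F) ε x

/-- an orthonormal frame of the orthogonal complement of `x` and `ν` -/
structure Frame (n : ℕ) (x ν : E ι) (e : Fin n → E ι) : Prop where
  on : ∀ i j, ⟪e i, e j⟫ = if i = j then 1 else 0
  px : ∀ i, ⟪x, e i⟫ = 0
  pn : ∀ i, ⟪ν, e i⟫ = 0

variable {n : ℕ} {C U : Set (E ι)} {F : E ι → ℝ} {x : E ι}

theorem lk_norm (hx : x ∈ lk C) : ‖x‖ = 1 := by simpa using hx.2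

theorem lk_ne (hx : x ∈ lk C) : x ≠ 0 := by
  intro h; have := lk_norm hx; simp [h] at this

theorem lk_inner (hx : x ∈ lk C) : ⟪x, x⟫ = 1 := by
  rw [real_inner_self_eq_norm_sq, lk_norm hx]; norm_num

theorem lk_dist (hx : x ∈ lk C) {y : E ι} (hy : y ∈ lk C) :
    ‖y - x‖ ^ 2 = 2 * (1 - ⟪x, y⟫) := by
  rw [norm_sub_sq_real, lk_norm hx, lk_norm hy, real_inner_comm]; ring

theorem lk_D_pos (hx : x ∈ lk C) {y : E ι} (hy : y ∈ lk C) (h : y ≠ x) : 0 < 1 - ⟪x, y⟫ := by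
  have h1 := lk_dist hx hy
  have h2 : 0 < ‖y - x‖ := norm_pos_iff.2 (sub_ne_zero.2 h)
  nlinarith

theorem St.compact (h : St n C U F) : IsCompact (lk C) :=
  (isCompact_sphere 0 1).inter_left h.closed

theorem St.lk_sub (h : St n C U F) : lk C ⊆ U := fun x hx => h.cover x hx.1 (lk_ne hx)

theorem St.mem_lk (h : St n C U F) {y : E ι} (hy : y ∈ C) (h0 : y ≠ 0) : ‖y‖⁻¹ • y ∈ lk C := by
  have : 0 < ‖y‖ := norm_pos_iff.2 h0
  refine ⟨h.cone y hy _ (inv_pos.2 this), ?_⟩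
  simp [norm_smul, this.ne']

theorem St.sm_normal (h : St n C U F) : ContDiffOn ℝ (⊤ : ℕ∞) (normal F) U :=
  Simons.sm_normal h.chart h.smooth

theorem St.norm_normal (h : St n C U F) (hx : x ∈ U) : ‖normal F x‖ = 1 :=
  ((all_shape ι C U F h.chart).2.2 x hx).1

theorem St.inner_normal (h : St n C U F) (hx : x ∈ U) : ⟪normal F x, normal F x⟫ = 1 := by
  rw [real_inner_self_eq_norm_sq, h.norm_normal hx]; norm_num

theorem St.symm (h : St n C U F) (hx : x ∈ U) (v w : E ι) :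
    ⟪shape F x v, w⟫ = ⟪v, shape F x w⟫ :=
  ((all_shape ι C U F h.chart).2.2 x hx).2.2.2.2.2 v w

theorem St.shape_normal (h : St n C U F) (hx : x ∈ U) : shape F x (normal F x) = 0 :=
  ((all_shape ι C U F h.chart).2.2 x hx).2.2.2.1

theorem St.normal_self (h : St n C U F) (hx : x ∈ C) (h0 : x ≠ 0) : ⟪normal F x, x⟫ = 0 :=
  (all_cone all_shape (all_curve all_shape) ι C U F h.chart h.cone x ⟨h.cover x hx h0, hx⟩).1

theorem St.shape_self (h : St n C U F) (hx : x ∈ C) (h0 : x ≠ 0) : shape F x x = 0 :=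
  (all_cone all_shape (all_curve all_shape) ι C U F h.chart h.cone x ⟨h.cover x hx h0, hx⟩).2

theorem St.tr_shape (h : St n C U F) (hx : x ∈ C) (h0 : x ≠ 0) : tr (shape F x) = 0 :=
  h.minimal x hx h0

theorem St.tan_shape (h : St n C U F) (hx : x ∈ lk C) (v : E ι) : Tan F x (shape F x v) := by
  have hU := h.lk_sub hx
  constructor
  · rw [← h.symm hU, h.shape_self hx.1 (lk_ne hx), inner_zero_left]
  · rw [← h.symm hU, h.shape_normal hU, inner_zero_left]

theorem St.tan_prT (h : St n C U F) (hx : x ∈ lk C) (v : E ι) : Tan F x (prT F x v) := by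
  have h1 := h.normal_self hx.1 (lk_ne hx)
  have h2 : ⟪x, normal F x⟫ = 0 := by rw [real_inner_comm]; exact h1
  constructor
  · simp [prT, inner_sub_right, inner_smul_right, lk_norm hx, h2]
  · simp [prT, inner_sub_right, inner_smul_right, h.norm_normal (h.lk_sub hx), h1]

theorem St.shape_prT (h : St n C U F) (hx : x ∈ lk C) (v : E ι) :
    shape F x (prT F x v) = shape F x v := by
  simp [prT, h.shape_self hx.1 (lk_ne hx), h.shape_normal (h.lk_sub hx)]

theorem Tan.inner_prT {u : E ι} (hu : Tan F x u) (v : E ι) : ⟪u, prT F x v⟫ = ⟪u, v⟫ := by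
  have h1 : ⟪u, x⟫ = 0 := by rw [real_inner_comm]; exact hu.1
  have h2 : ⟪u, normal F x⟫ = 0 := by rw [real_inner_comm]; exact hu.2
  simp [prT, inner_sub_right, inner_smul_right, h1, h2]

theorem Tan.add {u v : E ι} (hu : Tan F x u) (hv : Tan F x v) : Tan F x (u + v) :=
  ⟨by rw [inner_add_right, hu.1, hv.1, add_zero], by rw [inner_add_right, hu.2, hv.2, add_zero]⟩

theorem Tan.smul {u : E ι} (hu : Tan F x u) (c : ℝ) : Tan F x (c • u) :=
  ⟨by rw [inner_smul_right, hu.1, mul_zero], by rw [inner_smul_right, hu.2, mul_zero]⟩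

theorem St.tan_pv (h : St n C U F) (hx : x ∈ lk C) (ε : ℝ) (y : E ι) : Tan F x (pv F ε x y) :=
  (((h.tan_prT hx y).smul _).add (h.tan_shape hx _)).smul _

theorem St.sm_shape (h : St n C U F) : ContDiffOn ℝ (⊤ : ℕ∞) (shape F) U := by
  have h1 : ContDiffOn ℝ (⊤ : ℕ∞) (fderiv ℝ (normal F)) U :=
    h.sm_normal.fderiv_of_isOpen h.chart.isOpen (by simp)
  have h2 : ContDiffOn ℝ (⊤ : ℕ∞) (tangentProj F) U := by
    refine contDiffOn_const.sub ?_
    exact (((ContinuousLinearMap.smulRightL ℝ (E ι) (E ι)).contDiff.comp_contDiffOn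
      ((innerSL ℝ (E := E ι)).contDiff.comp_contDiffOn h.sm_normal)).clm_apply h.sm_normal)
  exact h1.clm_comp h2

/-- the trace as a continuous linear map -/
noncomputable def trL : (E ι →L[ℝ] E ι) →L[ℝ] ℝ :=
  LinearMap.toContinuousLinearMap
    { toFun := tr
      map_add' := fun A B => by simp [tr]
      map_smul' := fun c A => by simp [tr] }

theorem trL_apply (M : E ι →L[ℝ] E ι) : trL M = tr M := rfl

theorem St.sm_sqCurv (h : St n C U F) : ContDiffOn ℝ (⊤ : ℕ∞) (sqCurv F) U :=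
  (trL (ι := ι)).contDiff.comp_contDiffOn (h.sm_shape.clm_comp h.sm_shape)

theorem gradient_neg (F : E ι → ℝ) (y : E ι) : gradient (-F) y = -gradient F y := by
  simp [gradient, fderiv_neg]

theorem normal_neg (F : E ι → ℝ) : normal (-F) = -normal F := by
  funext y; simp [normal, gradient_neg]

theorem shape_neg (F : E ι → ℝ) (y : E ι) : shape (-F) y = -shape F y := by
  ext1 v
  simp [shape, tangentProj, normal_neg, fderiv_neg]
  abel

theorem sqCurv_neg (F : E ι → ℝ) (y : E ι) : sqCurv (-F) y = sqCurv F y := by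
  simp [sqCurv, shape_neg]

theorem tan_neg (F : E ι → ℝ) (x v : E ι) : Tan (-F) x v ↔ Tan F x v := by
  simp [Tan, normal_neg]

theorem prT_neg (F : E ι → ℝ) (x v : E ι) : prT (-F) x v = prT F x v := by
  simp [prT, normal_neg]

theorem trT_neg (F : E ι → ℝ) (x : E ι) (M : E ι →L[ℝ] E ι) : trT (-F) x M = trT F x M := by
  simp [trT, normal_neg]

theorem St.neg (h : St n C U F) : St n C U (-F) where
  closed := h.closed
  cone := h.cone
  nonflat := h.nonflat
  chart := ⟨h.chart.isOpen, h.chart.smooth.neg,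
    fun y hy => by rw [gradient_neg]; exact neg_ne_zero.2 (h.chart.grad_ne y hy),
    fun y hy => by simpa using h.chart.zero_set y hy⟩
  smooth := h.smooth.neg
  cover := h.cover
  minimal := fun x hx h0 => by
    have := h.minimal x hx h0
    simp only [meanCurv, shape_neg] at this ⊢
    simp [this]
  card := h.card
  pos := h.pos

end Pool.Agent.P.MP_2b44f0_gt.PD
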