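import Mathlib

/-!
Digits of packed natural numbers.
-/

namespace Pool.Agent.P.MP_2b44f0_gt.PD.Bn

open Finset

/-- digit number `i` of width `w` -/
def dig (w N i : ℕ) : ℕ :=
  Nat.land (Nat.shiftRight N (Nat.mul w i)) (Nat.sub (Nat.shiftLeft 1 w) 1)

theorem one_shl (w : ℕ) : 1 <<< w = 2 ^ w := Nat.one_shiftLeft w

theorem dig_def (w N i : ℕ) : dig w N i = (N >>> (w * i)) % 2 ^ w := by
  change (N >>> (w * i)) &&& (1 <<< w - 1) = _
  rw [one_shl, Nat.and_two_pow_sub_one_eq_mod]

theorem dig_lt (w N i : ℕ) : dig w N i < 2 ^ w := by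
  rw [dig_def]; exact Nat.mod_lt _ (by positivity)

theorem tb_dig (w N i j : ℕ) :
    (dig w N i).testBit j = (decide (j < w) && N.testBit (w * i + j)) := by
  rw [dig_def, Nat.testBit_mod_two_pow, Nat.testBit_shiftRight]

theorem dig_and (w a b i : ℕ) : dig w (a &&& b) i = dig w a i &&& dig w b i := by
  simp only [dig_def]; rw [Nat.shiftRight_and_distrib, Nat.and_mod_two_pow]

theorem dig_or (w a b i : ℕ) : dig w (a ||| b) i = dig w a i ||| dig w b i := by
  simp only [dig_def]; rw [Nat.shiftRight_or_distrib, Nat.or_mod_two_pow]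

theorem dig_zero (w i : ℕ) : dig w 0 i = 0 := by simp [dig_def]

theorem dig_shr (w N s i : ℕ) : dig w (N >>> (w * s)) i = dig w N (i + s) := by
  simp only [dig_def]; rw [← Nat.shiftRight_add]; congr 2; ring

theorem dig_shl (w N s i : ℕ) :
    dig w (N <<< (w * s)) i = if i < s then 0 else dig w N (i - s) := by
  apply Nat.eq_of_testBit_eq; intro j
  rw [tb_dig, Nat.testBit_shiftLeft]
  split_ifs with h
  · rw [Nat.zero_testBit]
    by_cases hj : j < w
    · have : ¬ (w * i + j ≥ w * s) := by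
        have : w * (i + 1) ≤ w * s := Nat.mul_le_mul_left _ h
        rw [Nat.mul_succ] at this; omega
      simp [this]
    · simp [hj]
  · obtain ⟨t, rfl⟩ := Nat.exists_eq_add_of_le (not_lt.1 h)
    rw [tb_dig, Nat.add_sub_cancel_left]
    have h1 : w * (s + t) + j ≥ w * s := by rw [Nat.mul_add]; omega
    have h2 : w * (s + t) + j - w * s = w * t + j := by rw [Nat.mul_add]; omega
    simp [h1, h2]

theorem dig_dig (w m N i j : ℕ) (h : j < m) :
    dig w (dig (w * m) N i) j = dig w N (i * m + j) := by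
  apply Nat.eq_of_testBit_eq; intro b
  rw [tb_dig, tb_dig, tb_dig]
  by_cases hb : b < w
  · have h1 : w * j + b < w * m := by
      have : w * (j + 1) ≤ w * m := Nat.mul_le_mul_left _ h
      rw [Nat.mul_succ] at this; omega
    have h2 : w * m * i + (w * j + b) = w * (i * m + j) + b := by ring
    simp [hb, h1, h2]
  · simp [hb]

theorem dig_of_lt {w N T i : ℕ} (h : N < 2 ^ (w * T)) (hi : T ≤ i) : dig w N i = 0 := by
  rw [dig_def, Nat.shiftRight_eq_div_pow, Nat.div_eq_of_lt, Nat.zero_mod]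
  exact h.trans_le (Nat.pow_le_pow_right (by norm_num) (Nat.mul_le_mul_left _ hi))

theorem lt_of_dig {w N T : ℕ} (hw : 0 < w) (h : ∀ i, T ≤ i → dig w N i = 0) : N < 2 ^ (w * T) := by
  apply Nat.lt_pow_two_of_testBit; intro b hb
  have h1 : T ≤ b / w := (Nat.le_div_iff_mul_le hw).2 (by rw [Nat.mul_comm]; exact hb)
  have h2 := tb_dig w N (b / w) (b % w)
  rw [h _ h1, Nat.zero_testBit, Nat.div_add_mod] at h2
  simpa [Nat.mod_lt b hw] using h2.symm

/-- the number with given digits -/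
def pack (w n : ℕ) (d : ℕ → ℕ) : ℕ := ∑ k ∈ range n, d k * 2 ^ (w * k)

theorem pack_succ (w n : ℕ) (d : ℕ → ℕ) :
    pack w (n + 1) d = 2 ^ w * pack w n (fun k => d (k + 1)) + d 0 := by
  unfold pack
  rw [sum_range_succ', mul_sum]
  simp only [Nat.mul_zero, pow_zero, Nat.mul_one]
  congr 1
  refine sum_congr rfl fun k _ => ?_
  rw [Nat.mul_succ, pow_add]; ring

theorem dig_cons_zero {w a b : ℕ} (hb : b < 2 ^ w) : dig w (2 ^ w * a + b) 0 = b := by
  rw [dig_def]; simp [Nat.mod_eq_of_lt hb]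

theorem dig_cons_succ {w a b : ℕ} (hb : b < 2 ^ w) (i : ℕ) :
    dig w (2 ^ w * a + b) (i + 1) = dig w a i := by
  rw [← dig_shr, Nat.mul_one, Nat.shiftRight_eq_div_pow, Nat.mul_add_div (by positivity),
    Nat.div_eq_of_lt hb, Nat.add_zero]

theorem dig_pack (w : ℕ) : ∀ (n : ℕ) (d : ℕ → ℕ), (∀ k < n, d k < 2 ^ w) → ∀ i,
    dig w (pack w n d) i = if i < n then d i else 0
  | 0, d, _, i => by simp [pack, dig_zero]
  | n + 1, d, h, 0 => by rw [pack_succ, dig_cons_zero (h 0 (by omega))]; simp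
  | n + 1, d, h, i + 1 => by
    rw [pack_succ, dig_cons_succ (h 0 (by omega)),
      dig_pack w n _ (fun k hk => h (k + 1) (by omega))]
    simp

theorem pack_dig (w : ℕ) : ∀ (n N : ℕ), N < 2 ^ (w * n) → pack w n (dig w N) = N
  | 0, N, h => by simp at h; simp [pack, h]
  | n + 1, N, h => by
    rw [pack_succ]
    have h1 : (fun k => dig w N (k + 1)) = dig w (N >>> (w * 1)) := by
      funext k; rw [dig_shr]
    rw [h1, pack_dig w n, dig_def, Nat.mul_one, Nat.shiftRight_eq_div_pow, Nat.mul_zero,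
      Nat.shiftRight_zero, Nat.div_add_mod]
    rw [Nat.mul_one, Nat.shiftRight_eq_div_pow, Nat.div_lt_iff_lt_mul (by positivity), ← pow_add,
      ← Nat.mul_succ]
    exact h

theorem pack_add (w n : ℕ) (d e : ℕ → ℕ) :
    pack w n d + pack w n e = pack w n (fun k => d k + e k) := by
  unfold pack; rw [← sum_add_distrib]; exact sum_congr rfl fun k _ => by ring

theorem mul_pack (w n c : ℕ) (d : ℕ → ℕ) : c * pack w n d = pack w n (fun k => c * d k) := by
  unfold pack; rw [mul_sum]; exact sum_congr rfl fun k _ => by ring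

theorem pack_lt {w n : ℕ} {d : ℕ → ℕ} (hw : 0 < w) (h : ∀ k < n, d k < 2 ^ w) :
    pack w n d < 2 ^ (w * n) :=
  lt_of_dig hw fun i hi => by rw [dig_pack w n d h, if_neg (by omega)]

theorem dig_add {w T a b : ℕ} (ha : a < 2 ^ (w * T)) (hb : b < 2 ^ (w * T))
    (h : ∀ k < T, dig w a k + dig w b k < 2 ^ w) (k : ℕ) :
    dig w (a + b) k = dig w a k + dig w b k := by
  conv_lhs => rw [← pack_dig w T a ha, ← pack_dig w T b hb, pack_add]
  rw [dig_pack w T _ h]
  split_ifs with hk
  · rfl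
  · rw [dig_of_lt ha (by omega), dig_of_lt hb (by omega)]

/-- the number with `n` digits one -/
def ones (w n : ℕ) : ℕ := (1 <<< (w * n) - 1) / (1 <<< w - 1)

theorem ones_eq {w : ℕ} (hw : 0 < w) (n : ℕ) : ones w n = pack w n (fun _ => 1) := by
  have h2 : 2 ≤ 2 ^ w := by
    calc 2 = 2 ^ 1 := rfl
      _ ≤ 2 ^ w := Nat.pow_le_pow_right (by norm_num) hw
  rw [ones, one_shl, one_shl, pow_mul, ← Nat.geomSum_eq h2]
  unfold pack
  exact sum_congr rfl fun k _ => by rw [pow_mul, Nat.one_mul]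

theorem dig_ones {w c : ℕ} (hw : 0 < w) (hc : c < 2 ^ w) (n i : ℕ) :
    dig w (c * ones w n) i = if i < n then c else 0 := by
  rw [ones_eq hw, mul_pack, dig_pack w n _ (fun k _ => by simpa using hc)]; simp

theorem ones_lt {w c : ℕ} (hw : 0 < w) (hc : c < 2 ^ w) (n : ℕ) : c * ones w n < 2 ^ (w * n) :=
  lt_of_dig hw fun i hi => by rw [dig_ones hw hc, if_neg (by omega)]

theorem half_lt {w : ℕ} (hw : 0 < w) : 2 ^ (w - 1) + 2 ^ (w - 1) = 2 ^ w := by
  obtain ⟨v, rfl⟩ := Nat.exists_eq_succ_of_ne_zero hw.ne'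
  simp [pow_succ]; ring

theorem dig_half {w : ℕ} (hw : 0 < w) (X T k : ℕ) :
    dig w ((X >>> 1) &&& ((1 <<< (w - 1) - 1) * ones w T)) k =
      if k < T then dig w X k / 2 else 0 := by
  have h0 : 0 < 2 ^ (w - 1) := by positivity
  rw [dig_and, one_shl, dig_ones hw (by have := half_lt hw; omega)]
  split_ifs with hk
  · apply Nat.eq_of_testBit_eq; intro j
    rw [Nat.testBit_and, tb_dig, Nat.testBit_two_pow_sub_one, Nat.testBit_shiftRight,
      Nat.testBit_div_two, tb_dig]
    have h2 : 1 + (w * k + j) = w * k + (j + 1) := by ring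
    rw [h2]
    by_cases hj : j + 1 < w
    · have : j < w := by omega
      have : j < w - 1 := by omega
      simp [*]
    · have : ¬ j < w - 1 := by omega
      simp [*]
  · simp

/-- all of the first `n` digits are at least `c` -/
def allGe (w n X c : ℕ) : Bool :=
  Nat.beq (Nat.land (Nat.add X (Nat.mul (Nat.sub (1 <<< (w - 1)) c) (ones w n)))
    (1 <<< (w - 1) * ones w n)) (1 <<< (w - 1) * ones w n)

theorem allGe_sound {w n X c : ℕ} (hw : 0 < w) (hX : X < 2 ^ (w * n))
    (hd : ∀ k < n, dig w X k < 2 ^ (w - 1)) (hc : c ≤ 2 ^ (w - 1)) (h : allGe w n X c = true) :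
    ∀ k < n, c ≤ dig w X k := by
  intro k hk
  have h0 : 0 < 2 ^ (w - 1) := by positivity
  have h1 := half_lt hw
  have h' : (X + (1 <<< (w - 1) - c) * ones w n) &&& (1 <<< (w - 1) * ones w n) =
      1 <<< (w - 1) * ones w n := Nat.eq_of_beq_eq_true h
  have h2 := congrArg (fun N => dig w N k) h'
  simp only [one_shl] at h2
  have hc' : 2 ^ (w - 1) - c < 2 ^ w := by omega
  rw [dig_and, dig_add hX (ones_lt hw hc' n) (fun k hk => by
    rw [dig_ones hw hc', if_pos hk]; have := hd k hk; omega), dig_ones hw hc',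
    dig_ones hw (by omega), if_pos hk, if_pos hk] at h2
  have h3 : 2 ^ (w - 1) ≤ dig w X k + (2 ^ (w - 1) - c) := by
    conv_lhs => rw [← h2]
    exact Nat.and_le_left
  omega

/-- all digits are below `2 ^ (w - 1)` -/
def noTop (w n X : ℕ) : Bool := Nat.beq (X &&& (1 <<< (w - 1) * ones w n)) 0

theorem noTop_sound {w n X : ℕ} (hw : 0 < w) (h : noTop w n X = true) :
    ∀ k < n, dig w X k < 2 ^ (w - 1) := by
  intro k hk
  have h0 : 0 < 2 ^ (w - 1) := by positivity
  have h1 := half_lt hw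
  have h2 := congrArg (fun N => (dig w N k).testBit (w - 1)) (Nat.eq_of_beq_eq_true h)
  simp only [one_shl] at h2
  rw [dig_and, dig_ones hw (by omega), if_pos hk, dig_zero, Nat.testBit_and, Nat.zero_testBit,
    Nat.testBit_two_pow_self, Bool.and_true] at h2
  apply Nat.lt_pow_two_of_testBit; intro b hb
  rcases hb.eq_or_lt with rfl | hb
  · exact h2
  · rw [tb_dig]; have : ¬ b < w := by omega
    simp [this]

end Pool.Agent.P.MP_2b44f0_gt.PD.Bn
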