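import Pool.Agent.P.MP_2b44f0_gt.PD.BnA

/-!
Bernstein forms in three variables and their subdivision on packed numbers.
-/

namespace Pool.Agent.P.MP_2b44f0_gt.PD.Bn

open Finset

/-- the Bernstein weight -/
noncomputable def bw (n I : ℕ) (x : ℝ) : ℝ := x ^ I * (1 - x) ^ (n - I) * n.choose I

/-- the Bernstein form -/
noncomputable def Bz (n : ℕ) (b : ℕ → ℝ) (x : ℝ) : ℝ := ∑ I ∈ range (n + 1), bw n I x * b I

/-- averaging of neighbours -/
noncomputable def av (st : ℕ) (β : ℕ → ℝ) : ℕ → ℝ := fun k => (β k + β (k + st)) / 2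

theorem Bz_congr {n : ℕ} {b c : ℕ → ℝ} (x : ℝ) (h : ∀ I ≤ n, b I = c I) : Bz n b x = Bz n c x :=
  sum_congr rfl fun I hI => by rw [h I (Nat.lt_succ_iff.1 (mem_range.1 hI))]

theorem Bz_comm (n m : ℕ) (c : ℕ → ℕ → ℝ) (x y : ℝ) :
    Bz n (fun I => Bz m (fun J => c I J) y) x = Bz m (fun J => Bz n (fun I => c I J) x) y := by
  simp only [Bz, mul_sum]
  rw [sum_comm]
  exact sum_congr rfl fun _ _ => sum_congr rfl fun _ _ => by ring

theorem Bz_const (n : ℕ) (c x : ℝ) : Bz n (fun _ => c) x = c := by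
  unfold Bz bw
  rw [← sum_mul, ← add_pow]; simp

theorem Bz_mono {n : ℕ} {b c : ℕ → ℝ} {x : ℝ} (hx : x ∈ Set.Icc (0 : ℝ) 1)
    (h : ∀ I ≤ n, b I ≤ c I) : Bz n b x ≤ Bz n c x := by
  refine sum_le_sum fun I hI => mul_le_mul_of_nonneg_left
    (h I (Nat.lt_succ_iff.1 (mem_range.1 hI))) ?_
  have h1 := hx.1
  have h2 : 0 ≤ 1 - x := by linarith [hx.2]
  unfold bw; positivity

theorem Bz_lin (n : ℕ) (b c : ℕ → ℝ) (s x : ℝ) :
    Bz n (fun I => b I + s * c I) x = Bz n b x + s * Bz n c x := by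
  unfold Bz
  rw [mul_sum, ← sum_add_distrib]
  exact sum_congr rfl fun _ _ => by ring

theorem op_pow (p q : Module.End ℝ (ℕ → ℝ)) (h : Commute p q) (n : ℕ) (x : ℝ) (b : ℕ → ℝ) :
    (((x • p + (1 - x) • q) ^ n) b) 0 = Bz n (fun I => ((p ^ I * q ^ (n - I)) b) 0) x := by
  rw [((h.smul_left x).smul_right (1 - x)).add_pow, LinearMap.sum_apply, Finset.sum_apply]
  refine sum_congr rfl fun I _ => ?_
  rw [smul_pow, smul_pow, smul_mul_smul_comm, ← nsmul_eq_mul', ← Nat.cast_smul_eq_nsmul ℝ,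
    smul_smul, LinearMap.smul_apply, Pi.smul_apply, smul_eq_mul, bw]
  ring

/-- the shift -/
noncomputable def sh : Module.End ℝ (ℕ → ℝ) := LinearMap.funLeft ℝ ℝ (· + 1)

/-- the averaging operator -/
noncomputable def avo : Module.End ℝ (ℕ → ℝ) := (1 / 2 : ℝ) • (1 + sh)

theorem sh_pow (I : ℕ) (b : ℕ → ℝ) (k : ℕ) : (sh ^ I) b k = b (k + I) := by
  induction I generalizing k with
  | zero => simp
  | succ I ih =>
    rw [pow_succ', Module.End.mul_apply]
    change (sh ^ I) b (k + 1) = _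
    rw [ih]; congr 1; omega

theorem avo_pow (I : ℕ) (b : ℕ → ℝ) : (avo ^ I) b = (av 1)^[I] b := by
  rw [Module.End.pow_apply]
  congr 1; funext c k
  simp [avo, av, sh]; ring

theorem Bz_op (n : ℕ) (b : ℕ → ℝ) (x : ℝ) :
    Bz n b x = (((x • sh + (1 - x) • (1 : Module.End ℝ (ℕ → ℝ))) ^ n) b) 0 := by
  rw [op_pow sh 1 (Commute.one_right _)]
  exact Bz_congr x fun I _ => by simp [sh_pow]

theorem Bz_left (n : ℕ) (b : ℕ → ℝ) (x : ℝ) :
    Bz n b (x / 2) = Bz n (fun I => (av 1)^[I] b 0) x := by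
  have h : (x / 2) • sh + (1 - x / 2) • (1 : Module.End ℝ (ℕ → ℝ)) = x • avo + (1 - x) • 1 := by
    unfold avo; module
  rw [Bz_op, h, op_pow avo 1 (Commute.one_right _)]
  exact Bz_congr x fun I _ => by simp [avo_pow]

theorem Bz_right (n : ℕ) (b : ℕ → ℝ) (x : ℝ) :
    Bz n b ((1 + x) / 2) = Bz n (fun I => (av 1)^[n - I] b I) x := by
  have h : ((1 + x) / 2) • sh + (1 - (1 + x) / 2) • (1 : Module.End ℝ (ℕ → ℝ)) =
      x • sh + (1 - x) • avo := by
    unfold avo; module
  have hc : Commute sh avo :=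
    ((Commute.one_right sh).add_right (Commute.refl sh)).smul_right _
  rw [Bz_op, h, op_pow sh avo hc]
  exact Bz_congr x fun I _ => by simp [avo_pow, sh_pow]

theorem av_iter (st s base : ℕ) (β : ℕ → ℝ) (i : ℕ) :
    (av st)^[s] β (base + i * st) = (av 1)^[s] (fun j => β (base + j * st)) i := by
  induction s generalizing i with
  | zero => rfl
  | succ s ih =>
    rw [Function.iterate_succ_apply', Function.iterate_succ_apply']
    simp only [av]
    rw [← ih, ← ih, Nat.add_mul, Nat.one_mul, Nat.add_assoc]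

/-- coefficients of the left half -/
noncomputable def lf (st n : ℕ) (β : ℕ → ℝ) (k : ℕ) : ℝ :=
  (av st)^[k / st % (n + 1)] β (k - k / st % (n + 1) * st)

/-- coefficients of the right half -/
noncomputable def rt (st n : ℕ) (β : ℕ → ℝ) (k : ℕ) : ℝ := (av st)^[n - k / st % (n + 1)] β k

theorem idx_eq {st n u I r : ℕ} (hr : r < st) (hI : I ≤ n) :
    ((u * (n + 1) + I) * st + r) / st % (n + 1) = I := by
  rw [Nat.add_comm, Nat.add_mul_div_right _ _ (by omega), Nat.div_eq_of_lt hr, Nat.zero_add,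
    Nat.add_comm, Nat.add_mul_mod_self_right, Nat.mod_eq_of_lt (by omega)]

theorem Bz_lf {st r : ℕ} (n u : ℕ) (hr : r < st) (β : ℕ → ℝ) (x : ℝ) :
    Bz n (fun I => β ((u * (n + 1) + I) * st + r)) (x / 2) =
      Bz n (fun I => lf st n β ((u * (n + 1) + I) * st + r)) x := by
  rw [Bz_left]
  refine Bz_congr x fun I hI => ?_
  have h1 : (u * (n + 1) + I) * st + r - I * st = (u * (n + 1) * st + r) + 0 * st := by
    rw [Nat.add_mul]; omega
  have h2 : (fun j => β ((u * (n + 1) + j) * st + r)) =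
      fun j => β (u * (n + 1) * st + r + j * st) := by
    funext j; congr 1; ring
  rw [lf, idx_eq hr hI, h1, av_iter, h2]

theorem Bz_rt {st r : ℕ} (n u : ℕ) (hr : r < st) (β : ℕ → ℝ) (x : ℝ) :
    Bz n (fun I => β ((u * (n + 1) + I) * st + r)) ((1 + x) / 2) =
      Bz n (fun I => rt st n β ((u * (n + 1) + I) * st + r)) x := by
  rw [Bz_right]
  refine Bz_congr x fun I hI => ?_
  have h1 : (u * (n + 1) + I) * st + r = (u * (n + 1) * st + r) + I * st := by ring
  have h2 : (fun j => β ((u * (n + 1) + j) * st + r)) =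
      fun j => β (u * (n + 1) * st + r + j * st) := by
    funext j; congr 1; ring
  rw [rt, idx_eq hr hI, h1, av_iter, h2]

/-- one averaging step on a packed number -/
def avg (w M N : ℕ) : ℕ := Nat.land (Nat.shiftRight (Nat.add N (Nat.shiftRight N w)) 1) M

theorem avg_def (w M N : ℕ) : avg w M N = ((N + N >>> w) >>> 1) &&& M := rfl

/-- the subdivision loop -/
def dc (w M m0 r : ℕ) : ℕ → ℕ → ℕ → ℕ → ℕ × ℕ :=
  Nat.rec (motive := fun _ => ℕ → ℕ → ℕ → ℕ → ℕ × ℕ) (fun _ _ L R => (L, R))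
    (fun r ih s N L R => ih (Nat.succ s) (avg w M N)
      (Nat.lor L (Nat.shiftLeft (Nat.land N m0) (Nat.mul w s)))
      (Nat.lor R (Nat.land N (Nat.shiftLeft m0 (Nat.mul w r))))) r

/-- the digits approximate the coefficients -/
structure Apx (B D T N : ℕ) (e : ℕ) (β : ℕ → ℝ) : Prop where
  lt : N < 2 ^ (B * T)
  dl : D < 2 ^ (B - 1)
  top : ∀ k, dig B N k ≤ D
  lo : ∀ k, (dig B N k : ℝ) ≤ β k
  hi : ∀ k, β k ≤ dig B N k + e

theorem dig_avg {B T N : ℕ} (hB : 0 < B) (st : ℕ) (h1 : N < 2 ^ (B * T))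
    (h2 : ∀ k, dig B N k < 2 ^ (B - 1)) (k : ℕ) :
    dig B (avg (B * st) ((1 <<< (B - 1) - 1) * ones B T) N) k =
      (dig B N k + dig B N (k + st)) / 2 := by
  have h3 := half_lt hB
  rw [avg_def, dig_half hB, dig_add h1 ((Nat.shiftRight_le _ _).trans_lt h1) (fun k _ => by
    rw [dig_shr]; have := h2 k; have := h2 (k + st); omega), dig_shr]
  split_ifs with hk
  · rfl
  · rw [dig_of_lt h1 (by omega), dig_of_lt h1 (by omega)]

theorem Apx.avg {B D T N e : ℕ} {β : ℕ → ℝ} (hB : 0 < B) (st : ℕ) (h : Apx B D T N e β) :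
    Apx B D T (avg (B * st) ((1 <<< (B - 1) - 1) * ones B T) N) (e + 1) (av st β) := by
  have hd := dig_avg hB st h.lt fun k => (h.top k).trans_lt h.dl
  refine ⟨lt_of_dig hB fun i hi => ?_, h.dl, fun k => ?_, fun k => ?_, fun k => ?_⟩
  · rw [hd, dig_of_lt h.lt hi, dig_of_lt h.lt (by omega)]
  · rw [hd]; have := h.top k; have := h.top (k + st); omega
  · rw [hd, av]
    have h1 : (((dig B N k + dig B N (k + st)) / 2 : ℕ) : ℝ) ≤ _ := Nat.cast_div_le
    push_cast at h1
    linarith [h.lo k, h.lo (k + st)]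
  · rw [hd, av]
    have h1 : dig B N k + dig B N (k + st) ≤ 2 * ((dig B N k + dig B N (k + st)) / 2) + 1 := by
      omega
    have h2 : ((dig B N k + dig B N (k + st) : ℕ) : ℝ) ≤ _ := Nat.cast_le.2 h1
    push_cast at h2 ⊢
    linarith [h.hi k, h.hi (k + st)]

theorem Apx.iter {B D T N e : ℕ} {β : ℕ → ℝ} (hB : 0 < B) (st : ℕ) (h : Apx B D T N e β) (s : ℕ) :
    Apx B D T ((Bn.avg (B * st) ((1 <<< (B - 1) - 1) * ones B T))^[s] N) (e + s)
      ((av st)^[s] β) := by
  induction s with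
  | zero => exact h
  | succ s ih =>
    rw [Function.iterate_succ_apply', Function.iterate_succ_apply']
    exact ih.avg hB st

theorem dig_mask {w : ℕ} (hw : 0 < w) (n o i : ℕ) :
    dig w ((1 <<< w - 1) * ones (w * (n + 1)) o) i =
      if i % (n + 1) = 0 ∧ i / (n + 1) < o then 2 ^ w - 1 else 0 := by
  have h0 : 0 < 2 ^ w := by positivity
  have h1 : 2 ^ w ≤ 2 ^ (w * (n + 1)) :=
    Nat.pow_le_pow_right (by norm_num) (Nat.le_mul_of_pos_right _ (by omega))
  conv_lhs => rw [← Nat.div_add_mod' i (n + 1)]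
  rw [← dig_dig _ _ _ _ _ (Nat.mod_lt _ (by omega)), one_shl,
    dig_ones (by positivity) (by omega)]
  by_cases h : i / (n + 1) < o
  · rw [if_pos h]
    by_cases h2 : i % (n + 1) = 0
    · rw [h2, if_pos ⟨rfl, h⟩, dig_def]; simp
    · rw [if_neg (by tauto)]
      exact dig_of_lt (T := 1) (by rw [Nat.mul_one]; omega) (by omega)
  · rw [if_neg h, dig_zero, if_neg (by tauto)]

theorem and_full {w a : ℕ} (h : a < 2 ^ w) : a &&& (2 ^ w - 1) = a := by
  rw [Nat.and_two_pow_sub_one_eq_mod, Nat.mod_eq_of_lt h]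

theorem dc_dig {w : ℕ} (hw : 0 < w) (M n o N₀ : ℕ) : ∀ (r s L R : ℕ), r + s = n + 1 →
    (∀ i, dig w L i = if i % (n + 1) < s ∧ i / (n + 1) < o then
      dig w ((avg w M)^[i % (n + 1)] N₀) (i - i % (n + 1)) else 0) →
    (∀ i, dig w R i = if n - i % (n + 1) < s ∧ i / (n + 1) < o then
      dig w ((avg w M)^[n - i % (n + 1)] N₀) i else 0) →
    (∀ i, dig w (dc w M ((1 <<< w - 1) * ones (w * (n + 1)) o) r s ((avg w M)^[s] N₀) L R).1 i =
      if i / (n + 1) < o then dig w ((avg w M)^[i % (n + 1)] N₀) (i - i % (n + 1)) else 0) ∧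
    (∀ i, dig w (dc w M ((1 <<< w - 1) * ones (w * (n + 1)) o) r s ((avg w M)^[s] N₀) L R).2 i =
      if i / (n + 1) < o then dig w ((avg w M)^[n - i % (n + 1)] N₀) i else 0)
  | 0, s, L, R, hs, hL, hR => by
    refine ⟨fun i => (hL i).trans ?_, fun i => (hR i).trans ?_⟩
    · have : i % (n + 1) < s := by have := Nat.mod_lt i (show 0 < n + 1 by omega); omega
      simp [this]
    · have : n - i % (n + 1) < s := by omega
      simp [this]
  | r + 1, s, L, R, hs, hL, hR => by
    have key := dc_dig hw M n o N₀ r (s + 1)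
      (L ||| ((avg w M)^[s] N₀ &&& (1 <<< w - 1) * ones (w * (n + 1)) o) <<< (w * s))
      (R ||| (avg w M)^[s] N₀ &&& ((1 <<< w - 1) * ones (w * (n + 1)) o) <<< (w * r))
      (by omega) (fun i => ?_) (fun i => ?_)
    · rw [Function.iterate_succ_apply'] at key
      exact key
    · have hm := Nat.mod_lt i (show 0 < n + 1 by omega)
      have hi := Nat.div_add_mod' i (n + 1)
      rw [dig_or, hL, dig_shl, dig_and, dig_mask hw]
      by_cases h1 : i % (n + 1) = s
      · have h2 : i - s = i / (n + 1) * (n + 1) := by omega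
        have h3 : ¬ i < s := by omega
        rw [if_neg (by omega), if_neg h3, h1, h2, Nat.mul_mod_left, Nat.mul_div_cancel _ (by omega)]
        by_cases h4 : i / (n + 1) < o
        · simp [h4, and_full (dig_lt _ _ _)]
        · simp [h4]
      · have h2 : ¬ i < s → ¬ (i - s) % (n + 1) = 0 := fun h3 h4 => h1 (by
          have h5 : i = (i - s) + s := by omega
          rw [h5, Nat.add_mod, h4, Nat.zero_add, Nat.mod_mod, Nat.mod_eq_of_lt (by omega)])
        have h3 : i % (n + 1) < s + 1 ↔ i % (n + 1) < s := by omega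
        by_cases h4 : i < s
        · simp [h4, h3]
        · simp [h4, h3, h2 h4]
    · have hm := Nat.mod_lt i (show 0 < n + 1 by omega)
      have hi := Nat.div_add_mod' i (n + 1)
      rw [dig_or, hR, dig_and, dig_shl, dig_mask hw]
      by_cases h1 : i % (n + 1) = r
      · have h2 : i - r = i / (n + 1) * (n + 1) := by omega
        have h3 : ¬ i < r := by omega
        have h5 : n - r = s := by omega
        rw [if_neg (by omega), if_neg h3, h1, h2, Nat.mul_mod_left, Nat.mul_div_cancel _ (by omega),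
          h5]
        by_cases h4 : i / (n + 1) < o
        · simp [h4, and_full (dig_lt _ _ _)]
        · simp [h4]
      · have h2 : ¬ i < r → ¬ (i - r) % (n + 1) = 0 := fun h3 h4 => h1 (by
          have h5 : i = (i - r) + r := by omega
          rw [h5, Nat.add_mod, h4, Nat.zero_add, Nat.mod_mod, Nat.mod_eq_of_lt (by omega)])
        have h3 : n - i % (n + 1) < s + 1 ↔ n - i % (n + 1) < s := by omega
        by_cases h4 : i < r
        · simp [h4, h3]
        · simp [h4, h3, h2 h4]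

/-- both halves along the axis with stride `st`, degree `n` and `o` outer blocks -/
def spl (B st n o N : ℕ) : ℕ × ℕ :=
  dc (B * st) ((1 <<< (B - 1) - 1) * ones B (o * (n + 1) * st))
    ((1 <<< (B * st) - 1) * ones (B * st * (n + 1)) o) (n + 1) 0 N 0 0

theorem spl_apx {B D st n o N e : ℕ} {β : ℕ → ℝ} (hB : 0 < B) (hst : 0 < st)
    (h : Apx B D (o * (n + 1) * st) N e β) :
    (∃ γ, Apx B D (o * (n + 1) * st) (spl B st n o N).1 (e + n) γ ∧
      ∀ k < o * (n + 1) * st, γ k = lf st n β k) ∧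
    (∃ γ, Apx B D (o * (n + 1) * st) (spl B st n o N).2 (e + n) γ ∧
      ∀ k < o * (n + 1) * st, γ k = rt st n β k) := by
  obtain ⟨hL, hR⟩ := dc_dig (Nat.mul_pos hB hst) ((1 <<< (B - 1) - 1) * ones B (o * (n + 1) * st))
    n o N (n + 1) 0 0 0 rfl (fun i => by simp [dig_zero]) (fun i => by simp [dig_zero])
  have hlt : ∀ k, k / st / (n + 1) < o ↔ k < o * (n + 1) * st := fun k => by
    rw [Nat.div_lt_iff_lt_mul (by omega), Nat.div_lt_iff_lt_mul hst]
  have aux : ∀ (X : ℕ) (s j : ℕ → ℕ) (δ : ℕ → ℝ), (∀ k, s k ≤ n) →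
      (∀ k, dig B X k = if k < o * (n + 1) * st then dig B ((avg (B * st)
        ((1 <<< (B - 1) - 1) * ones B (o * (n + 1) * st)))^[s k] N) (j k) else 0) →
      (∀ k, δ k = (av st)^[s k] β (j k)) →
      ∃ γ, Apx B D (o * (n + 1) * st) X (e + n) γ ∧ ∀ k < o * (n + 1) * st, γ k = δ k := by
    intro X s j δ hs hX hδ
    refine ⟨fun k => if k < o * (n + 1) * st then δ k else 0, ⟨lt_of_dig hB fun i hi => ?_,
      h.dl, fun k => ?_, fun k => ?_, fun k => ?_⟩, fun k hk => if_pos hk⟩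
    · rw [hX, if_neg (by omega)]
    · rw [hX]; split_ifs
      · exact (h.iter hB st _).top _
      · exact Nat.zero_le _
    · rw [hX]; split_ifs
      · rw [hδ]; exact (h.iter hB st _).lo _
      · simp
    · rw [hX]; split_ifs
      · rw [hδ]
        refine ((h.iter hB st _).hi _).trans ?_
        have : ((s k : ℕ) : ℝ) ≤ n := Nat.cast_le.2 (hs k)
        push_cast; linarith
      · positivity
  constructor
  · refine aux _ (fun k => k / st % (n + 1)) (fun k => k - k / st % (n + 1) * st) _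
      (fun k => Nat.lt_succ_iff.1 (Nat.mod_lt _ (by omega))) (fun k => ?_) (fun k => rfl)
    conv_lhs => rw [← Nat.div_add_mod' k st]
    rw [← dig_dig _ _ _ _ _ (Nat.mod_lt _ hst)]
    refine (congrArg (fun X => dig B X (k % st)) (hL (k / st))).trans ?_
    simp only [hlt]
    split_ifs
    · rw [dig_dig _ _ _ _ _ (Nat.mod_lt _ hst)]
      congr 1
      have h1 := Nat.div_add_mod' k st
      have h2 : k / st % (n + 1) * st ≤ k / st * st := Nat.mul_le_mul_right _ (Nat.mod_le _ _)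
      rw [Nat.sub_mul]; omega
    · exact dig_zero _ _
  · refine aux _ (fun k => n - k / st % (n + 1)) (fun k => k) _
      (fun k => Nat.sub_le _ _) (fun k => ?_) (fun k => rfl)
    conv_lhs => rw [← Nat.div_add_mod' k st]
    rw [← dig_dig _ _ _ _ _ (Nat.mod_lt _ hst)]
    refine (congrArg (fun X => dig B X (k % st)) (hR (k / st))).trans ?_
    simp only [hlt]
    split_ifs
    · rw [dig_dig _ _ _ _ _ (Nat.mod_lt _ hst), Nat.div_add_mod']
    · exact dig_zero _ _

end Pool.Agent.P.MP_2b44f0_gt.PD.Bn
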