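import Pool.Agent.P.MP_2b44f0_gt.PD.BnB

/-!
Covering of a point by packed Bernstein coefficients, linear tests and the tree driver.
-/

namespace Pool.Agent.P.MP_2b44f0_gt.PD.Bn

open Finset

/-- digit width, degrees, number of arrays and offset -/
structure Par where
  B : ℕ
  n1 : ℕ
  n2 : ℕ
  n3 : ℕ
  NA : ℕ
  H : ℕ

/-- number of coefficients of one array -/
def Par.NC (P : Par) : ℕ := (P.n1 + 1) * (P.n2 + 1) * (P.n3 + 1)

/-- the Bernstein form of one array -/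
noncomputable def La (P : Par) (x y z : ℝ) (ξ : ℕ → ℝ) : ℝ :=
  Bz P.n1 (fun I => Bz P.n2 (fun J => Bz P.n3
    (fun K => ξ ((I * (P.n2 + 1) + J) * (P.n3 + 1) + K)) z) y) x

/-- `g a` is the value of array `a` at the point with local coordinates `x, y, z` -/
def CovAt (P : Par) (N e : ℕ) (g : ℕ → ℝ) (x y z : ℝ) : Prop :=
  0 < P.B ∧ 0 < P.H ∧ ∃ β : ℕ → ℝ, x ∈ Set.Icc (0 : ℝ) 1 ∧ y ∈ Set.Icc (0 : ℝ) 1 ∧
    z ∈ Set.Icc (0 : ℝ) 1 ∧ Apx P.B (2 * P.H) (P.NA * P.NC) N e β ∧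
    ∀ a < P.NA, g a + P.H = La P x y z (fun k => β (a * P.NC + k))

/-- `g a` is the value of array `a` at some point of the box described by `N` -/
def Cov (P : Par) (N e : ℕ) (g : ℕ → ℝ) : Prop := ∃ x y z, CovAt P N e g x y z

theorem pos_lt (P : Par) {I J K : ℕ} (hI : I ≤ P.n1) (hJ : J ≤ P.n2) (hK : K ≤ P.n3) :
    (I * (P.n2 + 1) + J) * (P.n3 + 1) + K < P.NC := by
  have h1 : I * (P.n2 + 1) + J + 1 ≤ (P.n1 + 1) * (P.n2 + 1) := by
    have := Nat.mul_le_mul_right (P.n2 + 1) hI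
    rw [Nat.add_mul P.n1]; omega
  have h2 := Nat.mul_le_mul_right (P.n3 + 1) h1
  rw [Nat.add_mul _ 1] at h2
  unfold Par.NC; omega

theorem La_mono (P : Par) {x y z : ℝ} (hx : x ∈ Set.Icc (0 : ℝ) 1) (hy : y ∈ Set.Icc (0 : ℝ) 1)
    (hz : z ∈ Set.Icc (0 : ℝ) 1) {ξ η : ℕ → ℝ} (h : ∀ k < P.NC, ξ k ≤ η k) :
    La P x y z ξ ≤ La P x y z η :=
  Bz_mono hx fun _ hI => Bz_mono hy fun _ hJ => Bz_mono hz fun _ hK => h _ (pos_lt P hI hJ hK)

theorem La_congr (P : Par) (x y z : ℝ) {ξ η : ℕ → ℝ} (h : ∀ k < P.NC, ξ k = η k) :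
    La P x y z ξ = La P x y z η :=
  Bz_congr x fun _ hI => Bz_congr y fun _ hJ => Bz_congr z fun _ hK => h _ (pos_lt P hI hJ hK)

theorem La_const (P : Par) (x y z c : ℝ) : La P x y z (fun _ => c) = c := by
  simp only [La, Bz_const]

theorem La_lin (P : Par) (x y z : ℝ) (ξ η : ℕ → ℝ) (s : ℝ) :
    La P x y z (fun k => ξ k + s * η k) = La P x y z ξ + s * La P x y z η := by
  simp only [La, Bz_lin]

/-- both halves of the box -/
def sp (P : Par) (ax N : ℕ) : ℕ × ℕ :=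
  cond (Nat.beq ax 0) (spl P.B ((P.n2 + 1) * (P.n3 + 1)) P.n1 P.NA N)
    (cond (Nat.beq ax 1) (spl P.B (P.n3 + 1) P.n2 (P.NA * (P.n1 + 1)) N)
      (spl P.B 1 P.n3 (P.NA * (P.n1 + 1) * (P.n2 + 1)) N))

/-- growth of the rounding error in one subdivision -/
def Par.de (P : Par) : ℕ := P.n1 + P.n2 + P.n3

theorem Apx.mono {B D T N e e' : ℕ} {β : ℕ → ℝ} (h : Apx B D T N e β) (he : e ≤ e') :
    Apx B D T N e' β :=
  ⟨h.lt, h.dl, h.top, h.lo, fun k => (h.hi k).trans (by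
    have : (e : ℝ) ≤ e' := Nat.cast_le.2 he
    linarith)⟩

theorem half_cases {x : ℝ} (hx : x ∈ Set.Icc (0 : ℝ) 1) :
    (∃ u ∈ Set.Icc (0 : ℝ) 1, x = u / 2) ∨ ∃ u ∈ Set.Icc (0 : ℝ) 1, x = (1 + u) / 2 := by
  rcases le_total x (1 / 2) with h | h
  · exact Or.inl ⟨2 * x, ⟨by linarith [hx.1], by linarith⟩, by ring⟩
  · exact Or.inr ⟨2 * x - 1, ⟨by linarith, by linarith [hx.2]⟩, by ring⟩

theorem arr_lt (P : Par) {a k : ℕ} (ha : a < P.NA) (hk : k < P.NC) :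
    a * P.NC + k < P.NA * P.NC := by
  have := Nat.mul_le_mul_right P.NC (show a + 1 ≤ P.NA from ha)
  rw [Nat.add_mul] at this; omega

/-- the local coordinates after a subdivision; `s` selects the half -/
def Sub (ax : ℕ) (s : Bool) (x y z x' y' z' : ℝ) : Prop :=
  x' ∈ Set.Icc (0 : ℝ) 1 ∧ y' ∈ Set.Icc (0 : ℝ) 1 ∧ z' ∈ Set.Icc (0 : ℝ) 1 ∧
    cond (Nat.beq ax 0) (x = cond s ((1 + x') / 2) (x' / 2) ∧ y = y' ∧ z = z')
      (cond (Nat.beq ax 1) (x = x' ∧ y = cond s ((1 + y') / 2) (y' / 2) ∧ z = z')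
        (x = x' ∧ y = y' ∧ z = cond s ((1 + z') / 2) (z' / 2)))

theorem exists_sub (ax : ℕ) {x y z : ℝ} (hx : x ∈ Set.Icc (0 : ℝ) 1) (hy : y ∈ Set.Icc (0 : ℝ) 1)
    (hz : z ∈ Set.Icc (0 : ℝ) 1) : ∃ s x' y' z', Sub ax s x y z x' y' z' := by
  unfold Sub
  cases Nat.beq ax 0
  · cases Nat.beq ax 1
    · rcases half_cases hz with ⟨u, hu, h⟩ | ⟨u, hu, h⟩
      exacts [⟨false, x, y, u, hx, hy, hu, rfl, rfl, h⟩, ⟨true, x, y, u, hx, hy, hu, rfl, rfl, h⟩]
    · rcases half_cases hy with ⟨u, hu, h⟩ | ⟨u, hu, h⟩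
      exacts [⟨false, x, u, z, hx, hu, hz, rfl, h, rfl⟩, ⟨true, x, u, z, hx, hu, hz, rfl, h, rfl⟩]
  · rcases half_cases hx with ⟨u, hu, h⟩ | ⟨u, hu, h⟩
    exacts [⟨false, u, y, z, hu, hy, hz, h, rfl, rfl⟩, ⟨true, u, y, z, hu, hy, hz, h, rfl, rfl⟩]

theorem CovAt.sub {P : Par} {N e : ℕ} {g : ℕ → ℝ} {x y z x' y' z' : ℝ} (h : CovAt P N e g x y z)
    {ax : ℕ} {s : Bool} (hs : Sub ax s x y z x' y' z') :
    CovAt P (cond s (sp P ax N).2 (sp P ax N).1) (e + P.de) g x' y' z' := by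
  obtain ⟨hB, hH, β, -, -, -, hA, hg⟩ := h
  obtain ⟨hx, hy, hz, hs⟩ := hs
  have p1 : ∀ a I J K, a * P.NC + ((I * (P.n2 + 1) + J) * (P.n3 + 1) + K) =
      (a * (P.n1 + 1) + I) * ((P.n2 + 1) * (P.n3 + 1)) + (J * (P.n3 + 1) + K) := by
    intros; unfold Par.NC; ring
  have p2 : ∀ a I J K, a * P.NC + ((I * (P.n2 + 1) + J) * (P.n3 + 1) + K) =
      ((a * (P.n1 + 1) + I) * (P.n2 + 1) + J) * (P.n3 + 1) + K := by
    intros; unfold Par.NC; ring
  have p3 : ∀ a I J K, a * P.NC + ((I * (P.n2 + 1) + J) * (P.n3 + 1) + K) =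
      (((a * (P.n1 + 1) + I) * (P.n2 + 1) + J) * (P.n3 + 1) + K) * 1 + 0 := by
    intros; unfold Par.NC; ring
  have fin : ∀ (X n : ℕ) (δ : ℕ → ℝ), n ≤ P.de →
      (∃ γ, Apx P.B (2 * P.H) (P.NA * P.NC) X (e + n) γ ∧ ∀ k < P.NA * P.NC, γ k = δ k) →
      (∀ a, La P x y z (fun k => β (a * P.NC + k)) = La P x' y' z' (fun k => δ (a * P.NC + k))) →
      CovAt P X (e + P.de) g x' y' z' := by
    rintro X n δ hn ⟨γ, h1, h2⟩ h3
    refine ⟨hB, hH, γ, hx, hy, hz, h1.mono (by omega), fun a ha => ?_⟩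
    rw [hg a ha, h3]
    exact La_congr P _ _ _ fun k hk => (h2 _ (arr_lt P ha hk)).symm
  have hr : ∀ J K, J ≤ P.n2 → K ≤ P.n3 → J * (P.n3 + 1) + K < (P.n2 + 1) * (P.n3 + 1) := by
    intro J K hJ hK
    have := Nat.mul_le_mul_right (P.n3 + 1) hJ
    rw [Nat.add_mul P.n2]; omega
  unfold sp
  cases h0 : Nat.beq ax 0 <;> rw [h0] at hs
  · cases h1 : Nat.beq ax 1 <;> rw [h1] at hs
    · have e1 : P.NA * P.NC = P.NA * (P.n1 + 1) * (P.n2 + 1) * (P.n3 + 1) * 1 := by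
        unfold Par.NC; ring
      have k := spl_apx hB Nat.one_pos (e1 ▸ hA)
      rw [← e1] at k
      obtain ⟨rfl, rfl, rfl⟩ := hs
      cases s
      · refine fin _ _ _ (by unfold Par.de; omega) k.1 fun a => ?_
        simp only [La, p3, cond, Bz_lf _ _ Nat.one_pos]
      · refine fin _ _ _ (by unfold Par.de; omega) k.2 fun a => ?_
        simp only [La, p3, cond, Bz_rt _ _ Nat.one_pos]
    · have e1 : P.NA * P.NC = P.NA * (P.n1 + 1) * (P.n2 + 1) * (P.n3 + 1) := by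
        unfold Par.NC; ring
      have k := spl_apx hB (Nat.succ_pos P.n3) (e1 ▸ hA)
      rw [← e1] at k
      obtain ⟨rfl, rfl, rfl⟩ := hs
      cases s
      · refine fin _ _ _ (by unfold Par.de; omega) k.1 fun a => ?_
        simp only [La, p2, cond]
        refine Bz_congr _ fun I _ => ?_
        rw [Bz_comm, Bz_comm P.n2]
        exact Bz_congr _ fun K hK => Bz_lf _ _ (Nat.lt_succ_of_le hK) _ _
      · refine fin _ _ _ (by unfold Par.de; omega) k.2 fun a => ?_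
        simp only [La, p2, cond]
        refine Bz_congr _ fun I _ => ?_
        rw [Bz_comm, Bz_comm P.n2]
        exact Bz_congr _ fun K hK => Bz_rt _ _ (Nat.lt_succ_of_le hK) _ _
  · have e1 : P.NA * P.NC = P.NA * (P.n1 + 1) * ((P.n2 + 1) * (P.n3 + 1)) := by
      unfold Par.NC; ring
    have k := spl_apx hB (Nat.mul_pos (Nat.succ_pos P.n2) (Nat.succ_pos P.n3)) (e1 ▸ hA)
    rw [← e1] at k
    have sw : ∀ (c : ℕ → ℕ → ℕ → ℝ) (t : ℝ),
        Bz P.n1 (fun I => Bz P.n2 (fun J => Bz P.n3 (fun K => c I J K) z) y) t =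
        Bz P.n2 (fun J => Bz P.n3 (fun K => Bz P.n1 (fun I => c I J K) t) z) y := by
      intro c t
      rw [Bz_comm]
      exact Bz_congr _ fun J _ => Bz_comm _ _ _ _ _
    obtain ⟨rfl, rfl, rfl⟩ := hs
    cases s
    · refine fin _ _ _ (by unfold Par.de; omega) k.1 fun a => ?_
      simp only [La, p1, cond]
      rw [sw, sw]
      exact Bz_congr _ fun J hJ => Bz_congr _ fun K hK => Bz_lf _ _ (hr J K hJ hK) _ _
    · refine fin _ _ _ (by unfold Par.de; omega) k.2 fun a => ?_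
      simp only [La, p1, cond]
      rw [sw, sw]
      exact Bz_congr _ fun J hJ => Bz_congr _ fun K hK => Bz_rt _ _ (hr J K hJ hK) _ _

theorem CovAt.mem {P : Par} {N e : ℕ} {g : ℕ → ℝ} {x y z : ℝ} (h : CovAt P N e g x y z) :
    x ∈ Set.Icc (0 : ℝ) 1 ∧ y ∈ Set.Icc (0 : ℝ) 1 ∧ z ∈ Set.Icc (0 : ℝ) 1 := by
  obtain ⟨-, -, β, hx, hy, hz, -⟩ := h
  exact ⟨hx, hy, hz⟩

theorem Cov.split {P : Par} {N e : ℕ} {g : ℕ → ℝ} (h : Cov P N e g) (ax : ℕ) :
    Cov P (sp P ax N).1 (e + P.de) g ∨ Cov P (sp P ax N).2 (e + P.de) g := by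
  obtain ⟨x, y, z, h⟩ := h
  obtain ⟨s, x', y', z', hs⟩ := exists_sub ax h.mem.1 h.mem.2.1 h.mem.2.2
  cases s
  exacts [Or.inl ⟨_, _, _, h.sub hs⟩, Or.inr ⟨_, _, _, h.sub hs⟩]

/-- a packed vector with its offset -/
abbrev V : Type := ℕ × ℕ

/-- array number `a` -/
def getA (P : Par) (N a : ℕ) : V := (dig (P.B * P.NC) N a, P.H)

/-- the constant vector -/
def V.cst (P : Par) (c : ℕ) : V := (2 * c * ones P.B P.NC, c)

/-- the sum -/
def V.add (x y : V) : V := (Nat.add x.1 y.1, Nat.add x.2 y.2)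

theorem V.add_def (x y : V) : V.add x y = (x.1 + y.1, x.2 + y.2) := rfl

/-- the multiple by a natural number -/
def V.smul (n : ℕ) (x : V) : V := (Nat.mul n x.1, Nat.mul n x.2)

theorem V.smul_def (n : ℕ) (x : V) : V.smul n x = (n * x.1, n * x.2) := rfl

/-- the opposite -/
def V.neg (P : Par) (x : V) : V := (Nat.sub (Nat.mul (Nat.mul 2 x.2) (ones P.B P.NC)) x.1, x.2)

theorem V.neg_def (P : Par) (x : V) : V.neg P x = (2 * x.2 * ones P.B P.NC - x.1, x.2) := rfl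

/-- `x + c * y` -/
def V.axpy (P : Par) (c : ℤ) (y x : V) : V :=
  Int.casesOn c (fun n => V.add x (V.smul n y)) (fun n => V.add x (V.smul (Nat.succ n) (V.neg P y)))

/-- `c * y` -/
def V.zmul (P : Par) (c : ℤ) (y : V) : V :=
  Int.casesOn c (fun n => V.smul n y) (fun n => V.smul (Nat.succ n) (V.neg P y))

/-- the test that all entries exceed `c` -/
def V.gt (P : Par) (e : ℕ) (x : V) (c : ℕ) : Bool :=
  Nat.blt (2 * x.2) (1 <<< (P.B - 1)) &&
    (Nat.ble (x.2 + c + (e * x.2 / P.H + 1)) (1 <<< (P.B - 1)) &&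
      allGe P.B P.NC x.1 (x.2 + c + (e * x.2 / P.H + 1)))

/-- rules for the relation `the vector represents the real number` -/
structure Alg (P : Par) (e : ℕ) (S : V → ℝ → Prop) : Prop where
  cst : ∀ c, S (V.cst P c) c
  add : ∀ {x y r s}, S x r → S y s → S (V.add x y) (r + s)
  smul : ∀ (n : ℕ) {x r}, S x r → S (V.smul n x) (n * r)
  neg : ∀ {x r}, S x r → S (V.neg P x) (-r)
  gt : ∀ {x r} (c : ℕ), S x r → V.gt P e x c = true → c < r

theorem Alg.zmul {P : Par} {e : ℕ} {S : V → ℝ → Prop} (h : Alg P e S) (c : ℤ) {y : V} {s : ℝ}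
    (hy : S y s) : S (V.zmul P c y) (c * s) := by
  cases c with
  | ofNat n => simpa [V.zmul] using h.smul n hy
  | negSucc n =>
    have := h.smul (n + 1) (h.neg hy)
    rw [show (((n + 1 : ℕ) : ℝ)) * -s = ((Int.negSucc n : ℤ) : ℝ) * s by
      rw [Int.cast_negSucc]; ring] at this
    exact this

theorem Alg.axpy {P : Par} {e : ℕ} {S : V → ℝ → Prop} (h : Alg P e S) (c : ℤ) {y x : V} {s r : ℝ}
    (hy : S y s) (hx : S x r) : S (V.axpy P c y x) (r + c * s) := by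
  have := h.add hx (h.zmul c hy)
  cases c <;> exact this

/-- the vector represents the real number at the given point -/
def Sem (P : Par) (e : ℕ) (x y z : ℝ) (v : V) (r : ℝ) : Prop :=
  ∃ (ξ : ℕ → ℝ) (d : ℕ → ℕ), La P x y z ξ = r ∧ v.1 = pack P.B P.NC d ∧
    ∀ k < P.NC, d k ≤ 2 * v.2 ∧ |ξ k + v.2 - d k| * P.H ≤ e * v.2

theorem CovAt.alg {P : Par} {N e : ℕ} {g : ℕ → ℝ} {x y z : ℝ} (h : CovAt P N e g x y z) :
    Alg P e (Sem P e x y z) ∧ ∀ a < P.NA, Sem P e x y z (getA P N a) (g a) := by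
  obtain ⟨hB, hH, β, hx, hy, hz, hA, hg⟩ := h
  have hH' : (0 : ℝ) < P.H := Nat.cast_pos.2 hH
  refine ⟨⟨fun c => ?_, ?_, ?_, ?_, ?_⟩, fun a ha => ?_⟩
  · refine ⟨fun _ => c, fun _ => 2 * c, La_const _ _ _ _ _, ?_, fun k _ => ⟨le_rfl, ?_⟩⟩
    · simp [V.cst, ones_eq hB, mul_pack]
    · simp only [V.cst]; push_cast
      rw [show (c : ℝ) + c - 2 * c = 0 by ring, abs_zero, zero_mul]; positivity
  · rintro v w r s ⟨ξ, d, rfl, h1, h2⟩ ⟨η, c, rfl, h3, h4⟩
    refine ⟨fun k => ξ k + 1 * η k, fun k => d k + c k, by rw [La_lin, one_mul], ?_,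
      fun k hk => ⟨?_, ?_⟩⟩
    · simp only [V.add_def]; rw [h1, h3, pack_add]
    · have := (h2 k hk).1; have := (h4 k hk).1; simp only [V.add_def]; omega
    · simp only [V.add_def]; push_cast
      have h5 := abs_add_le (ξ k + v.2 - d k) (η k + w.2 - c k)
      have h6 := mul_le_mul_of_nonneg_right h5 hH'.le
      rw [show ξ k + 1 * η k + (v.2 + w.2) - (d k + c k) =
        ξ k + v.2 - d k + (η k + w.2 - c k) by ring]
      linarith [(h2 k hk).2, (h4 k hk).2]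
  · rintro n v r ⟨ξ, d, rfl, h1, h2⟩
    refine ⟨fun k => 0 + n * ξ k, fun k => n * d k, by rw [La_lin, La_const, zero_add], ?_,
      fun k hk => ⟨?_, ?_⟩⟩
    · simp only [V.smul_def]; rw [h1, mul_pack]
    · simp only [V.smul_def]
      calc n * d k ≤ n * (2 * v.2) := Nat.mul_le_mul_left _ (h2 k hk).1
        _ = _ := by ring
    · simp only [V.smul_def]; push_cast
      rw [show 0 + n * ξ k + n * (v.2 : ℝ) - n * d k = n * (ξ k + v.2 - d k) by ring, abs_mul,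
        Nat.abs_cast]
      have := mul_le_mul_of_nonneg_left (h2 k hk).2 (Nat.cast_nonneg (α := ℝ) n)
      linarith
  · rintro v r ⟨ξ, d, rfl, h1, h2⟩
    refine ⟨fun k => 0 + (-1) * ξ k, fun k => 2 * v.2 - d k,
      by rw [La_lin, La_const]; ring, ?_, fun k hk => ⟨Nat.sub_le _ _, ?_⟩⟩
    · simp only [V.neg_def]
      rw [h1, ones_eq hB, mul_pack]
      refine Nat.sub_eq_of_eq_add ?_
      rw [pack_add]
      exact sum_congr rfl fun k hk => by
        have := (h2 k (mem_range.1 hk)).1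
        congr 1; simp only []; omega
    · simp only [V.neg_def]
      rw [Nat.cast_sub (h2 k hk).1]; push_cast
      rw [show 0 + -1 * ξ k + (v.2 : ℝ) - (2 * v.2 - d k) = -(ξ k + v.2 - d k) by ring, abs_neg]
      exact (h2 k hk).2
  · rintro v r c ⟨ξ, d, rfl, h1, h2⟩ ht
    simp only [V.gt, Bool.and_eq_true, Nat.blt_eq, Nat.ble_eq, one_shl] at ht
    obtain ⟨t1, t2, t3⟩ := ht
    have h3 := half_lt hB
    have h4 : ∀ k < P.NC, d k < 2 ^ P.B := fun k hk => by have := (h2 k hk).1; omega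
    have h5 : ∀ k < P.NC, dig P.B v.1 k = d k := fun k hk => by
      rw [h1, dig_pack _ _ _ h4, if_pos hk]
    have h6 := allGe_sound hB (h1 ▸ pack_lt hB h4)
      (fun k hk => by rw [h5 k hk]; have := (h2 k hk).1; omega) t2 t3
    have h7 : ((e * v.2 : ℕ) : ℝ) < ((e * v.2 / P.H + 1 : ℕ) : ℝ) * P.H := by
      rw [← Nat.cast_mul, Nat.cast_lt, ← Nat.div_lt_iff_lt_mul hH]; omega
    have h8 : ∀ k < P.NC, (c : ℝ) + (((e * v.2 / P.H + 1 : ℕ) : ℝ) - (e * v.2 : ℕ) / P.H) ≤ ξ k := by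
      intro k hk
      have a1 : ((v.2 + c + (e * v.2 / P.H + 1) : ℕ) : ℝ) ≤ d k := by
        rw [← h5 k hk]; exact Nat.cast_le.2 (h6 k hk)
      have a2 : |ξ k + v.2 - d k| ≤ (e * v.2 : ℕ) / P.H := by
        rw [le_div_iff₀ hH']; push_cast; exact (h2 k hk).2
      have a3 := neg_abs_le (ξ k + v.2 - d k)
      rw [Nat.cast_add, Nat.cast_add] at a1
      linarith
    have h9 := La_mono P hx hy hz h8
    rw [La_const] at h9
    have : ((e * v.2 : ℕ) : ℝ) / P.H < ((e * v.2 / P.H + 1 : ℕ) : ℝ) := by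
      rw [div_lt_iff₀ hH']; exact h7
    linarith
  · refine ⟨fun k => β (a * P.NC + k) + (-1) * P.H, fun k => dig P.B N (a * P.NC + k), ?_, ?_,
      fun k _ => ⟨hA.top _, ?_⟩⟩
    · rw [La_lin P x y z _ (fun _ => (P.H : ℝ)), La_const, ← hg a ha]; ring
    · simp only [getA]
      rw [← pack_dig P.B P.NC _ (dig_lt _ N a)]
      exact sum_congr rfl fun k hk => by rw [dig_dig _ _ _ _ _ (mem_range.1 hk)]
    · simp only [getA]
      refine mul_le_mul_of_nonneg_right (abs_le.2 ⟨?_, ?_⟩) hH'.le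
      · have := hA.lo (a * P.NC + k); have : (0 : ℝ) ≤ e := Nat.cast_nonneg _; linarith
      · have := hA.hi (a * P.NC + k); linarith

theorem Cov.alg {P : Par} {N e : ℕ} {g : ℕ → ℝ} (h : Cov P N e g) :
    ∃ S : V → ℝ → Prop, Alg P e S ∧ ∀ a < P.NA, S (getA P N a) (g a) := by
  obtain ⟨x, y, z, h⟩ := h
  exact ⟨_, h.alg⟩

/-- subdivision trees with data at the leaves -/
inductive Tr (D : Type) where
  | lf (d : D) : Tr D
  | sp (ax : ℕ) (l r : Tr D) : Tr D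

/-- the tree driver -/
def run {D : Type} (P : Par) (leaf : ℕ → ℕ → D → Bool) : Tr D → ℕ → ℕ → Bool
  | .lf d, N, e => leaf N e d
  | .sp ax l r, N, e =>
    cond (Nat.beq (sp P ax N).1 0) false (cond (run P leaf l (sp P ax N).1 (e + P.de))
      (cond (Nat.beq (sp P ax N).2 0) false (run P leaf r (sp P ax N).2 (e + P.de))) false)

/-- the property holds at all points of the box -/
def Good (P : Par) (Q : (ℕ → ℝ) → Prop) (N e : ℕ) : Prop := ∀ g, Cov P N e g → Q g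

theorem Good.split {P : Par} {Q : (ℕ → ℝ) → Prop} {N e : ℕ} (ax : ℕ)
    (h1 : Good P Q (sp P ax N).1 (e + P.de)) (h2 : Good P Q (sp P ax N).2 (e + P.de)) :
    Good P Q N e := fun g h => (h.split ax).elim (h1 g) (h2 g)

theorem run_sound {D : Type} {P : Par} {leaf : ℕ → ℕ → D → Bool} {Q : (ℕ → ℝ) → Prop}
    (hl : ∀ N e d, leaf N e d = true → Good P Q N e) :
    ∀ (t : Tr D) (N e : ℕ), run P leaf t N e = true → Good P Q N e
  | .lf d, N, e, h => hl N e d h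
  | .sp ax l r, N, e, h => by
    rw [run] at h
    cases h1 : Nat.beq (sp P ax N).1 0 <;> rw [h1] at h
    swap; · exact absurd h (by simp)
    cases h2 : run P leaf l (sp P ax N).1 (e + P.de) <;> rw [h2] at h
    · exact absurd h (by simp)
    cases h3 : Nat.beq (sp P ax N).2 0 <;> rw [h3] at h
    swap; · exact absurd h (by simp)
    exact Good.split ax (run_sound hl l _ _ h2) (run_sound hl r _ _ h)

end Pool.Agent.P.MP_2b44f0_gt.PD.Bn
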