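import Pool.Agent.P.MP_2b44f0_gt.PD.BnC

/-!
Exact packed polynomial arithmetic and the root of the subdivision.
-/

namespace Pool.Agent.P.MP_2b44f0_gt.PD.Bn

open Finset

/-- a packed polynomial in the homogeneous basis: degrees, norm bound, packed value -/
structure PV where
  d1 : ℕ
  d2 : ℕ
  d3 : ℕ
  L : ℕ
  pk : ℤ

/-- the three exponents of two used for packing -/
structure Wd where
  w1 : ℕ
  w2 : ℕ
  w3 : ℕ

/-- the homogeneous monomial -/
noncomputable def hm (d I : ℕ) (x : ℝ) : ℝ := x ^ I * (1 - x) ^ (d - I)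

theorem hm_add {d e I J : ℕ} (h : I ≤ d) (h' : J ≤ e) (x : ℝ) :
    hm (d + e) (I + J) x = hm d I x * hm e J x := by
  unfold hm
  rw [show d + e - (I + J) = (d - I) + (e - J) by omega, pow_add, pow_add]; ring

/-- the packed polynomial represents the function `f` -/
def Rel (W : Wd) (v : PV) (f : ℝ → ℝ → ℝ → ℝ) : Prop :=
  ∃ (ι : Type) (_ : Fintype ι) (c : ι → ℤ) (I J K : ι → ℕ),
    (∀ t, I t ≤ v.d1 ∧ J t ≤ v.d2 ∧ K t ≤ v.d3) ∧ ∑ t, |c t| ≤ v.L ∧
    v.pk = ∑ t, c t * (2 ^ (W.w1 * I t) * 2 ^ (W.w2 * J t) * 2 ^ (W.w3 * K t)) ∧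
    ∀ x y z, f x y z = ∑ t, c t * (hm v.d1 (I t) x * hm v.d2 (J t) y * hm v.d3 (K t) z)

theorem Rel.congr {W : Wd} {v : PV} {f g : ℝ → ℝ → ℝ → ℝ} (h : Rel W v f)
    (e : ∀ x y z, f x y z = g x y z) : Rel W v g := by
  have : f = g := by funext x y z; exact e x y z
  exact this ▸ h

/-- a constant -/
def PV.cst (c : ℤ) : PV := ⟨0, 0, 0, c.natAbs, c⟩

/-- the product -/
def PV.mul (p q : PV) : PV := ⟨p.d1 + q.d1, p.d2 + q.d2, p.d3 + q.d3, p.L * q.L, p.pk * q.pk⟩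

/-- the sum of two polynomials of the same formal degree -/
def PV.add0 (p q : PV) : PV := ⟨p.d1, p.d2, p.d3, p.L + q.L, p.pk + q.pk⟩

/-- the affine function of the first variable with values `a` at zero and `b` at one -/
def PV.a1 (W : Wd) (a b : ℤ) : PV := ⟨1, 0, 0, a.natAbs + b.natAbs, a + b * (1 <<< W.w1 : ℕ)⟩

/-- the affine function of the second variable -/
def PV.a2 (W : Wd) (a b : ℤ) : PV := ⟨0, 1, 0, a.natAbs + b.natAbs, a + b * (1 <<< W.w2 : ℕ)⟩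

/-- the affine function of the third variable -/
def PV.a3 (W : Wd) (a b : ℤ) : PV := ⟨0, 0, 1, a.natAbs + b.natAbs, a + b * (1 <<< W.w3 : ℕ)⟩

/-- the constant one with formal degrees -/
def PV.up (W : Wd) (k1 k2 k3 : ℕ) : PV :=
  ⟨k1, k2, k3, 1 <<< (k1 + k2 + k3),
    ((1 + 1 <<< W.w1) ^ k1 * (1 + 1 <<< W.w2) ^ k2 * (1 + 1 <<< W.w3) ^ k3 : ℕ)⟩

/-- degree elevation -/
def PV.el (W : Wd) (p : PV) (n1 n2 n3 : ℕ) : PV :=
  p.mul (PV.up W (n1 - p.d1) (n2 - p.d2) (n3 - p.d3))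

/-- the sum -/
def PV.add (W : Wd) (p q : PV) : PV := (p.el W q.d1 q.d2 q.d3).add0 (q.el W p.d1 p.d2 p.d3)

/-- the integer multiple -/
def PV.smul (c : ℤ) (p : PV) : PV := (PV.cst c).mul p

/-- the difference -/
def PV.sub (W : Wd) (p q : PV) : PV := PV.add W p (PV.smul (-1) q)

/-- the power -/
def PV.pow (p : PV) (k : ℕ) : PV := Nat.rec (PV.cst 1) (fun _ r => r.mul p) k

/-- the Horner scheme -/
def PV.horner (W : Wd) (v : PV) : List PV → PV
  | [] => PV.cst 0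
  | [c] => c
  | c :: d :: l => PV.add W c (v.mul (PV.horner W v (d :: l)))

variable {W : Wd} {p q : PV} {f g : ℝ → ℝ → ℝ → ℝ}

theorem rel_cst (W : Wd) (c : ℤ) : Rel W (PV.cst c) (fun _ _ _ => c) :=
  ⟨Unit, inferInstance, fun _ => c, fun _ => 0, fun _ => 0, fun _ => 0, by simp [PV.cst],
    by simp [PV.cst], by simp [PV.cst], by simp [PV.cst, hm]⟩

theorem Rel.mul (hp : Rel W p f) (hq : Rel W q g) :
    Rel W (p.mul q) (fun x y z => f x y z * g x y z) := by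
  obtain ⟨ι, _, c, I, J, K, h1, h2, h3, h4⟩ := hp
  obtain ⟨κ, _, c', I', J', K', k1, k2, k3, k4⟩ := hq
  refine ⟨ι × κ, inferInstance, fun t => c t.1 * c' t.2, fun t => I t.1 + I' t.2,
    fun t => J t.1 + J' t.2, fun t => K t.1 + K' t.2, fun t => ?_, ?_, ?_, fun x y z => ?_⟩
  · have := h1 t.1; have := k1 t.2; simp only [PV.mul]; omega
  · simp only [PV.mul, abs_mul, Fintype.sum_prod_type]
    rw [← sum_mul_sum]; push_cast
    exact mul_le_mul h2 k2 (sum_nonneg fun _ _ => abs_nonneg _) (by positivity)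
  · simp only [PV.mul, Fintype.sum_prod_type]
    rw [h3, k3, sum_mul_sum]
    refine sum_congr rfl fun s _ => sum_congr rfl fun t _ => ?_
    simp only [Nat.mul_add, pow_add]; ring
  · simp only [PV.mul, Fintype.sum_prod_type]
    rw [h4, k4, sum_mul_sum]
    refine sum_congr rfl fun s _ => sum_congr rfl fun t _ => ?_
    rw [hm_add (h1 s).1 (k1 t).1, hm_add (h1 s).2.1 (k1 t).2.1, hm_add (h1 s).2.2 (k1 t).2.2]
    push_cast; ring

theorem Rel.add0 (hp : Rel W p f) (hq : Rel W q g) (e1 : q.d1 = p.d1) (e2 : q.d2 = p.d2)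
    (e3 : q.d3 = p.d3) : Rel W (p.add0 q) (fun x y z => f x y z + g x y z) := by
  obtain ⟨ι, _, c, I, J, K, h1, h2, h3, h4⟩ := hp
  obtain ⟨κ, _, c', I', J', K', k1, k2, k3, k4⟩ := hq
  rw [e1, e2, e3] at k1 k4
  refine ⟨ι ⊕ κ, inferInstance, Sum.elim c c', Sum.elim I I', Sum.elim J J', Sum.elim K K',
    fun t => ?_, ?_, ?_, fun x y z => ?_⟩
  · cases t with
    | inl t => exact h1 t
    | inr t => exact k1 t
  · simp only [PV.add0, Fintype.sum_sum_type, Sum.elim_inl, Sum.elim_inr]; push_cast; linarith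
  · simp only [PV.add0, Fintype.sum_sum_type, Sum.elim_inl, Sum.elim_inr]; rw [h3, k3]
  · simp only [PV.add0, Fintype.sum_sum_type, Sum.elim_inl, Sum.elim_inr]; rw [h4, k4]

theorem rel_a1 (W : Wd) (a b : ℤ) : Rel W (PV.a1 W a b) (fun x _ _ => a * (1 - x) + b * x) :=
  ⟨Bool, inferInstance, fun t => cond t b a, fun t => cond t 1 0, fun _ => 0, fun _ => 0,
    by simp [PV.a1], by simp [PV.a1, add_comm], by simp [PV.a1, one_shl, add_comm],
    by simp [PV.a1, hm, add_comm]⟩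

theorem rel_a2 (W : Wd) (a b : ℤ) : Rel W (PV.a2 W a b) (fun _ y _ => a * (1 - y) + b * y) :=
  ⟨Bool, inferInstance, fun t => cond t b a, fun _ => 0, fun t => cond t 1 0, fun _ => 0,
    by simp [PV.a2], by simp [PV.a2, add_comm], by simp [PV.a2, one_shl, add_comm],
    by simp [PV.a2, hm, add_comm]⟩

theorem rel_a3 (W : Wd) (a b : ℤ) : Rel W (PV.a3 W a b) (fun _ _ z => a * (1 - z) + b * z) :=
  ⟨Bool, inferInstance, fun t => cond t b a, fun _ => 0, fun _ => 0, fun t => cond t 1 0,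
    by simp [PV.a3], by simp [PV.a3, add_comm], by simp [PV.a3, one_shl, add_comm],
    by simp [PV.a3, hm, add_comm]⟩

theorem Rel.pow (hp : Rel W p f) (k : ℕ) : Rel W (p.pow k) (fun x y z => f x y z ^ k) := by
  induction k with
  | zero => exact (rel_cst W 1).congr fun _ _ _ => by simp
  | succ k ih => exact (ih.mul hp).congr fun _ _ _ => by rw [pow_succ]

theorem pow_eq (p : PV) (k : ℕ) :
    p.pow k = ⟨k * p.d1, k * p.d2, k * p.d3, p.L ^ k, p.pk ^ k⟩ := by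
  induction k with
  | zero => simp [PV.pow, PV.cst]
  | succ k ih =>
    change (p.pow k).mul p = _
    rw [ih]; simp only [PV.mul, Nat.succ_mul, pow_succ]

theorem rel_up (W : Wd) (k1 k2 k3 : ℕ) : Rel W (PV.up W k1 k2 k3) (fun _ _ _ => 1) := by
  have h := (((rel_a1 W 1 1).pow k1).mul ((rel_a2 W 1 1).pow k2)).mul ((rel_a3 W 1 1).pow k3)
  have e : (((PV.a1 W 1 1).pow k1).mul ((PV.a2 W 1 1).pow k2)).mul ((PV.a3 W 1 1).pow k3) =
      PV.up W k1 k2 k3 := by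
    simp only [pow_eq, PV.mul, PV.a1, PV.a2, PV.a3, PV.up, one_shl]
    simp [pow_add]
  exact (e ▸ h).congr fun _ _ _ => by simp

theorem Rel.el (hp : Rel W p f) (n1 n2 n3 : ℕ) : Rel W (p.el W n1 n2 n3) f :=
  (hp.mul (rel_up W _ _ _)).congr fun _ _ _ => mul_one _

theorem Rel.add (hp : Rel W p f) (hq : Rel W q g) :
    Rel W (PV.add W p q) (fun x y z => f x y z + g x y z) :=
  (hp.el _ _ _).add0 (hq.el _ _ _) (by simp only [PV.el, PV.mul, PV.up]; omega)
    (by simp only [PV.el, PV.mul, PV.up]; omega) (by simp only [PV.el, PV.mul, PV.up]; omega)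

theorem Rel.smul (c : ℤ) (hp : Rel W p f) : Rel W (PV.smul c p) (fun x y z => c * f x y z) :=
  (rel_cst W c).mul hp

theorem Rel.sub (hp : Rel W p f) (hq : Rel W q g) :
    Rel W (PV.sub W p q) (fun x y z => f x y z - g x y z) :=
  (hp.add (hq.smul (-1))).congr fun _ _ _ => by push_cast; ring

theorem rel_horner (hp : Rel W p f) : ∀ (l : List (PV × (ℝ → ℝ → ℝ → ℝ))),
    (∀ t ∈ l, Rel W t.1 t.2) → Rel W (PV.horner W p (l.map Prod.fst))
      (fun x y z => l.foldr (fun t r => t.2 x y z + f x y z * r) 0)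
  | [], _ => (rel_cst W 0).congr fun _ _ _ => by simp
  | [c], h => (h c (by simp)).congr fun _ _ _ => by simp
  | c :: d :: l, h => (h c (by simp)).add
      (hp.mul (rel_horner hp (d :: l) fun t ht => h t (List.mem_cons_of_mem _ ht)))

/-- packing by a loop -/
def bld (w : ℕ) (f : ℕ → ℕ) (n : ℕ) : ℕ := 
  Nat.rec 0 (fun i r => Nat.add r (Nat.shiftLeft (f i) (Nat.mul w i))) n

theorem bld_eq (w : ℕ) (f : ℕ → ℕ) (n : ℕ) : bld w f n = pack w n f := by
  induction n with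
  | zero => rfl
  | succ n ih =>
    change bld w f n + f n <<< (w * n) = _
    rw [ih, Nat.shiftLeft_eq, pack, pack, sum_range_succ]

/-- a bounded conjunction -/
def allN (f : ℕ → Bool) (n : ℕ) : Bool := Nat.rec true (fun i r => cond (f i) r false) n

theorem allN_sound {f : ℕ → Bool} : ∀ {n : ℕ}, allN f n = true → ∀ i < n, f i = true
  | 0, _, i, hi => absurd hi (by omega)
  | n + 1, h, i, hi => by
    have h' : cond (f n) (allN f n) false = true := h
    cases h1 : f n <;> rw [h1] at h'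
    · exact absurd h' (by simp)
    · rcases (Nat.lt_succ_iff.1 hi).eq_or_lt with rfl | h2
      · exact h1
      · exact allN_sound h' i h2

/-- binomial coefficients -/
def ch (n k : ℕ) : ℕ := n.descFactorial k / k.factorial

theorem ch_eq (n k : ℕ) : ch n k = n.choose k := (Nat.choose_eq_descFactorial_div_factorial n k).symm

/-- the packing exponents for digit width `b` -/
def Par.wd (P : Par) (b : ℕ) : Wd := ⟨b * (P.n3 + 1) * (P.n2 + 1), b * (P.n3 + 1), b⟩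

/-- the shifted packed value -/
def shf (P : Par) (b : ℕ) (p : PV) : ℕ :=
  (p.pk + (p.L * (ones (P.wd b).w1 (P.n1 + 1) * ones (P.wd b).w2 (P.n2 + 1) *
    ones (P.wd b).w3 (P.n3 + 1)) : ℕ)).toNat

/-- a function of all digits -/
def tri {α : Type} (P : Par) (b X den : ℕ) (o1 o2 o3 : (ℕ → α) → α) (q : ℕ → ℕ → α) : α :=
  o1 fun I => (fun XI => o2 fun J => (fun XJ => o3 fun K =>
    q (dig b XJ K) (Nat.mul (den * ch P.n1 I * ch P.n2 J) (ch P.n3 K))) (dig (P.wd b).w2 XI J))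
    (dig (P.wd b).w1 X I)

/-- the rounded normalised coefficients of one array -/
def arr (P : Par) (b F : ℕ) (p : PV) (den : ℕ) : ℕ :=
  tri P b (shf P b p) den (fun f => bld (P.wd P.B).w1 f (P.n1 + 1))
    (fun f => bld (P.wd P.B).w2 f (P.n2 + 1)) (fun f => bld P.B f (P.n3 + 1))
    (fun d D => Nat.div (Nat.sub (Nat.add (Nat.shiftLeft d F) (Nat.mul P.H D)) (p.L <<< F)) D)

/-- the range check for one array -/
def arrOk (P : Par) (b F : ℕ) (p : PV) (den : ℕ) : Bool :=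
  Nat.beq p.d1 P.n1 && Nat.beq p.d2 P.n2 && Nat.beq p.d3 P.n3 && Nat.blt (2 * p.L) (1 <<< b) &&
    Nat.blt 0 den &&
    tri P b (shf P b p) den (fun f => allN f (P.n1 + 1)) (fun f => allN f (P.n2 + 1))
      (fun f => allN f (P.n3 + 1)) (fun d D => Nat.ble (p.L <<< F) (d <<< F + P.H * D) &&
        Nat.ble ((d <<< F + P.H * D - p.L <<< F) / D) (2 * P.H))

theorem pack_cast (w n : ℕ) (d : ℕ → ℕ) :
    ((pack w n d : ℕ) : ℤ) = ∑ k ∈ range n, (d k : ℤ) * 2 ^ (w * k) := by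
  unfold pack; push_cast; rfl

theorem pack_cast3 (w1 w2 w3 m1 m2 m3 : ℕ) (q : ℕ → ℕ → ℕ → ℕ) :
    ((pack w1 m1 fun i => pack w2 m2 fun j => pack w3 m3 (q i j) : ℕ) : ℤ) =
      ∑ i ∈ range m1, ∑ j ∈ range m2, ∑ k ∈ range m3,
        (q i j k : ℤ) * (2 ^ (w1 * i) * 2 ^ (w2 * j) * 2 ^ (w3 * k)) := by
  simp only [pack_cast, sum_mul]
  exact sum_congr rfl fun _ _ => sum_congr rfl fun _ _ => sum_congr rfl fun _ _ => by ring

theorem ones3 (w1 w2 w3 m1 m2 m3 L : ℕ) :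
    L * (pack w1 m1 (fun _ => 1) * pack w2 m2 (fun _ => 1) * pack w3 m3 (fun _ => 1)) =
      pack w1 m1 fun _ => pack w2 m2 fun _ => pack w3 m3 fun _ => L := by
  have h : ∀ w m A, (pack w m fun _ => A) = A * pack w m fun _ => 1 := fun w m A => by
    rw [mul_pack]; simp
  rw [h w1 m1 (pack _ _ _), h w2 m2 (pack _ _ _), h w3 m3 L]; ring

theorem collect {ι R : Type} [Fintype ι] [CommRing R] (c : ι → ℤ) (I J K : ι → ℕ) {n1 n2 n3 : ℕ}
    (h : ∀ t, I t ≤ n1 ∧ J t ≤ n2 ∧ K t ≤ n3) (φ : ℕ → ℕ → ℕ → R) :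
    ∑ t, (c t : R) * φ (I t) (J t) (K t) = ∑ i ∈ range (n1 + 1), ∑ j ∈ range (n2 + 1),
      ∑ k ∈ range (n3 + 1), ((∑ t, if I t = i ∧ J t = j ∧ K t = k then c t else 0 : ℤ) : R) *
        φ i j k := by
  push_cast
  simp only [sum_mul]
  symm
  rw [sum_congr rfl fun i _ => sum_congr rfl fun j _ => sum_comm,
    sum_congr rfl fun i _ => sum_comm, sum_comm]
  refine sum_congr rfl fun t _ => ?_
  rw [sum_eq_single (I t) (fun i _ hi => by simp [hi.symm])
      (fun hi => absurd (mem_range.2 (Nat.lt_succ_of_le (h t).1)) hi),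
    sum_eq_single (J t) (fun i _ hi => by simp [hi.symm])
      (fun hi => absurd (mem_range.2 (Nat.lt_succ_of_le (h t).2.1)) hi),
    sum_eq_single (K t) (fun i _ hi => by simp [hi.symm])
      (fun hi => absurd (mem_range.2 (Nat.lt_succ_of_le (h t).2.2)) hi)]
  simp

theorem pack3 {b m1 m2 m3 : ℕ} (hb : 0 < b) (h2 : 0 < m2) (h3 : 0 < m3) (q : ℕ → ℕ → ℕ → ℕ)
    (hq : ∀ I < m1, ∀ J < m2, ∀ K < m3, q I J K < 2 ^ b) :
    pack (b * m3 * m2) m1 (fun I => pack (b * m3) m2 fun J => pack b m3 (q I J)) <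
      2 ^ (b * m3 * m2 * m1) ∧ ∀ I < m1, ∀ J < m2, ∀ K < m3, dig b (dig (b * m3) (dig (b * m3 * m2)
      (pack (b * m3 * m2) m1 (fun I => pack (b * m3) m2 fun J => pack b m3 (q I J))) I) J) K =
      q I J K := by
  have a3 : ∀ I < m1, ∀ J < m2, pack b m3 (q I J) < 2 ^ (b * m3) :=
    fun I hI J hJ => pack_lt hb (hq I hI J hJ)
  have a2 : ∀ I < m1, (pack (b * m3) m2 fun J => pack b m3 (q I J)) < 2 ^ (b * m3 * m2) :=
    fun I hI => pack_lt (by positivity) (a3 I hI)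
  refine ⟨pack_lt (by positivity) a2, fun I hI J hJ K hK => ?_⟩
  rw [dig_pack _ _ _ a2, if_pos hI, dig_pack _ _ _ (a3 I hI), if_pos hJ,
    dig_pack _ _ _ (hq I hI J hJ), if_pos hK]

theorem arr_sound {P : Par} {b F den : ℕ} (hB : 0 < P.B) (hH : 2 * P.H < 2 ^ (P.B - 1))
    (hp : Rel (P.wd b) p f) (ok : arrOk P b F p den = true) :
    arr P b F p den < 2 ^ (P.B * P.NC) ∧ ∃ ξ : ℕ → ℝ, (∀ k < P.NC,
      dig P.B (arr P b F p den) k ≤ 2 * P.H ∧ (dig P.B (arr P b F p den) k : ℝ) ≤ ξ k ∧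
      ξ k ≤ dig P.B (arr P b F p den) k + (1 : ℕ)) ∧
      ∀ x y z, f x y z * 2 ^ F / den + P.H = La P x y z ξ := by
  obtain ⟨ι, _, c, I, J, K, h1, h2, h3, h4⟩ := hp
  simp only [arrOk, Bool.and_eq_true, Nat.beq_eq, Nat.blt_eq, one_shl] at ok
  obtain ⟨⟨⟨⟨⟨e1, e2⟩, e3⟩, hL⟩, hden⟩, ok⟩ := ok
  rw [e1, e2, e3] at h1 h4
  simp only [tri] at ok
  have hb : 0 < b ∨ b = 0 := by omega
  set cc : ℕ → ℕ → ℕ → ℤ := fun i j k => ∑ t, if I t = i ∧ J t = j ∧ K t = k then c t else 0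
    with hcc
  have cb : ∀ i j k, |cc i j k| ≤ p.L := fun i j k =>
    ((abs_sum_le_sum_abs _ _).trans (sum_le_sum fun t _ => by
      split_ifs
      · exact le_rfl
      · simp)).trans h2
  have cn : ∀ i j k, (((cc i j k + p.L).toNat : ℕ) : ℤ) = cc i j k + p.L := fun i j k =>
    Int.toNat_of_nonneg (by have := neg_abs_le (cc i j k); have := cb i j k; omega)
  have dg : ∀ i ≤ P.n1, ∀ j ≤ P.n2, ∀ k ≤ P.n3, dig b (dig (P.wd b).w2 (dig (P.wd b).w1
      (shf P b p) i) j) k = (cc i j k + p.L).toNat := by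
    intro i hi j hj k hk
    rcases hb with hb | rfl
    · have hs : shf P b p = pack (b * (P.n3 + 1) * (P.n2 + 1)) (P.n1 + 1) (fun i =>
          pack (b * (P.n3 + 1)) (P.n2 + 1) fun j => pack b (P.n3 + 1) fun k =>
            (cc i j k + p.L).toNat) := by
        unfold shf
        rw [← Int.toNat_natCast (pack _ _ _)]
        congr 1
        rw [h3, ones_eq (by unfold Par.wd; positivity), ones_eq (by unfold Par.wd; positivity),
          ones_eq (by unfold Par.wd; positivity)]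
        have := collect (R := ℤ) c I J K h1 fun i j k =>
          2 ^ ((P.wd b).w1 * i) * 2 ^ ((P.wd b).w2 * j) * 2 ^ ((P.wd b).w3 * k)
        simp only [Int.cast_id] at this
        rw [this, ones3, pack_cast3, pack_cast3]
        simp only [← sum_add_distrib, cn]
        exact sum_congr rfl fun _ _ => sum_congr rfl fun _ _ => sum_congr rfl fun _ _ => by
          simp only [Par.wd, hcc]; ring
      rw [hs]
      refine (pack3 hb (Nat.succ_pos _) (Nat.succ_pos _) _ fun i _ j _ k _ => ?_).2 i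
        (Nat.lt_succ_of_le hi) j (Nat.lt_succ_of_le hj) k (Nat.lt_succ_of_le hk)
      have := le_abs_self (cc i j k); have := cb i j k; have := cn i j k
      omega
    · have h0 := dig_lt 0 (dig (P.wd 0).w2 (dig (P.wd 0).w1 (shf P 0 p) i) j) k
      have := le_abs_self (cc i j k); have := cb i j k; have := cn i j k
      omega
  have Dp : ∀ i ≤ P.n1, ∀ j ≤ P.n2, ∀ k ≤ P.n3, 0 < den * ch P.n1 i * ch P.n2 j * ch P.n3 k := by
    intro i hi j hj k hk
    simp only [ch_eq]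
    have := Nat.choose_pos hi; have := Nat.choose_pos hj; have := Nat.choose_pos hk
    positivity
  set q : ℕ → ℕ → ℕ → ℕ := fun i j k => (dig b (dig (P.wd b).w2 (dig (P.wd b).w1
      (shf P b p) i) j) k <<< F + P.H * (den * ch P.n1 i * ch P.n2 j * ch P.n3 k) - p.L <<< F) /
      (den * ch P.n1 i * ch P.n2 j * ch P.n3 k) with hq
  have ok' : ∀ i ≤ P.n1, ∀ j ≤ P.n2, ∀ k ≤ P.n3, q i j k ≤ 2 * P.H ∧
      (q i j k : ℝ) ≤ cc i j k * 2 ^ F / (den * ch P.n1 i * ch P.n2 j * ch P.n3 k : ℕ) + P.H ∧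
      cc i j k * 2 ^ F / (den * ch P.n1 i * ch P.n2 j * ch P.n3 k : ℕ) + P.H ≤
        (q i j k : ℝ) + (1 : ℕ) := by
    intro i hi j hj k hk
    have o := allN_sound (allN_sound (allN_sound ok i (Nat.lt_succ_of_le hi)) j
      (Nat.lt_succ_of_le hj)) k (Nat.lt_succ_of_le hk)
    simp only [Bool.and_eq_true, Nat.ble_eq, Nat.mul_eq] at o
    refine ⟨o.2, ?_⟩
    simp only [hq]
    have o1 := o.1
    have hD := Dp i hi j hj k hk
    rw [dg i hi j hj k hk] at o1 ⊢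
    generalize den * ch P.n1 i * ch P.n2 j * ch P.n3 k = D at *
    have hD' : (0 : ℝ) < D := Nat.cast_pos.2 hD
    have hv : ((((cc i j k + p.L).toNat <<< F + P.H * D - p.L <<< F : ℕ)) : ℝ) =
        cc i j k * 2 ^ F + P.H * D := by
      rw [Nat.cast_sub o1, Nat.shiftLeft_eq, Nat.shiftLeft_eq]
      have : (((cc i j k + p.L).toNat : ℕ) : ℝ) = cc i j k + p.L := by
        exact_mod_cast congrArg (Int.cast : ℤ → ℝ) (cn i j k)
      push_cast; rw [this]; ring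
    generalize (cc i j k + p.L).toNat <<< F + P.H * D - p.L <<< F = A at *
    have e : (cc i j k : ℝ) * 2 ^ F / D + P.H = A / D := by rw [hv]; field_simp
    rw [e]
    refine ⟨Nat.cast_div_le, ?_⟩
    rw [div_le_iff₀ hD']
    have : A ≤ (A / D + 1) * D := ((Nat.div_lt_iff_lt_mul hD).1 (Nat.lt_succ_self _)).le
    exact_mod_cast this
  have ha : arr P b F p den = pack (P.B * (P.n3 + 1) * (P.n2 + 1)) (P.n1 + 1) (fun i =>
      pack (P.B * (P.n3 + 1)) (P.n2 + 1) fun j => pack P.B (P.n3 + 1) (q i j)) := by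
    simp only [arr, tri, bld_eq]; rfl
  have h5 := half_lt hB
  obtain ⟨l1, l2⟩ := pack3 (m1 := P.n1 + 1) hB (Nat.succ_pos P.n2) (Nat.succ_pos P.n3) q
    fun i hi j hj k hk => by
      have := (ok' i (by omega) j (by omega) k (by omega)).1; omega
  rw [← ha] at l1 l2
  refine ⟨by rw [show P.B * P.NC = P.B * (P.n3 + 1) * (P.n2 + 1) * (P.n1 + 1) by
    unfold Par.NC; ring]; exact l1, fun k => cc (k / (P.n3 + 1) / (P.n2 + 1))
      (k / (P.n3 + 1) % (P.n2 + 1)) (k % (P.n3 + 1)) * 2 ^ F /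
      (den * ch P.n1 (k / (P.n3 + 1) / (P.n2 + 1)) * ch P.n2 (k / (P.n3 + 1) % (P.n2 + 1)) *
        ch P.n3 (k % (P.n3 + 1)) : ℕ) + P.H, fun k hk => ?_, fun x y z => ?_⟩
  · have b1 : k / (P.n3 + 1) / (P.n2 + 1) < P.n1 + 1 := by
      rw [Nat.div_lt_iff_lt_mul (Nat.succ_pos _), Nat.div_lt_iff_lt_mul (Nat.succ_pos _)]
      exact hk
    have b2 := Nat.mod_lt (k / (P.n3 + 1)) (Nat.succ_pos P.n2)
    have b3 := Nat.mod_lt k (Nat.succ_pos P.n3)
    have d1 := l2 _ b1 _ b2 _ b3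
    rw [dig_dig _ _ _ _ _ b2, dig_dig _ _ _ _ _ b3, Nat.div_add_mod', Nat.div_add_mod'] at d1
    rw [d1]
    exact ok' _ (by omega) _ (by omega) _ (by omega)
  · have hden' : (den : ℝ) ≠ 0 := Nat.cast_ne_zero.2 hden.ne'
    rw [h4, collect (R := ℝ) c I J K h1 fun i j k => hm P.n1 i x * hm P.n2 j y * hm P.n3 k z]
    have := La_lin P x y z (fun _ => (P.H : ℝ)) (fun k => cc (k / (P.n3 + 1) / (P.n2 + 1))
      (k / (P.n3 + 1) % (P.n2 + 1)) (k % (P.n3 + 1)) * 2 ^ F /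
      (den * ch P.n1 (k / (P.n3 + 1) / (P.n2 + 1)) * ch P.n2 (k / (P.n3 + 1) % (P.n2 + 1)) *
        ch P.n3 (k % (P.n3 + 1)) : ℕ)) 1
    simp only [one_mul, La_const, add_comm (P.H : ℝ)] at this
    rw [this]
    congr 1
    simp only [La, Bz, mul_sum, sum_mul, sum_div]
    refine sum_congr rfl fun i hi => sum_congr rfl fun j hj => sum_congr rfl fun k hk => ?_
    have hi' := Nat.lt_succ_iff.1 (mem_range.1 hi)
    have hj' := mem_range.1 hj
    have hk' := mem_range.1 hk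
    have a1 : ((i * (P.n2 + 1) + j) * (P.n3 + 1) + k) / (P.n3 + 1) = i * (P.n2 + 1) + j := by
      rw [Nat.add_comm, Nat.add_mul_div_right _ _ (Nat.succ_pos _), Nat.div_eq_of_lt hk',
        Nat.zero_add]
    have a2 : (i * (P.n2 + 1) + j) / (P.n2 + 1) = i := by
      rw [Nat.add_comm, Nat.add_mul_div_right _ _ (Nat.succ_pos _), Nat.div_eq_of_lt hj',
        Nat.zero_add]
    have c1 : ((P.n1.choose i : ℕ) : ℝ) ≠ 0 := Nat.cast_ne_zero.2 (Nat.choose_pos hi').ne'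
    have c2 : ((P.n2.choose j : ℕ) : ℝ) ≠ 0 :=
      Nat.cast_ne_zero.2 (Nat.choose_pos (Nat.lt_succ_iff.1 hj')).ne'
    have c3 : ((P.n3.choose k : ℕ) : ℝ) ≠ 0 :=
      Nat.cast_ne_zero.2 (Nat.choose_pos (Nat.lt_succ_iff.1 hk')).ne'
    rw [a1, a2, Nat.mul_add_mod_of_lt hj', Nat.mul_add_mod_of_lt hk']
    simp only [bw, hm, ch_eq, Nat.cast_mul, hcc]
    field_simp

/-- the packed root arrays -/
def root (P : Par) (b F : ℕ) (A : ℕ → PV × ℕ) : ℕ :=
  bld (P.B * P.NC) (fun a => arr P b F ((A a).1.el (P.wd b) P.n1 P.n2 P.n3) (A a).2) P.NA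

/-- the range check for the root arrays -/
def rootOk (P : Par) (b F : ℕ) (A : ℕ → PV × ℕ) : Bool :=
  Nat.blt 0 P.B && Nat.blt 0 P.H && Nat.blt (2 * P.H) (1 <<< (P.B - 1)) &&
    allN (fun a => arrOk P b F ((A a).1.el (P.wd b) P.n1 P.n2 P.n3) (A a).2) P.NA

theorem root_covAt {P : Par} {b F : ℕ} {A : ℕ → PV × ℕ} {f : ℕ → ℝ → ℝ → ℝ → ℝ}
    (hA : ∀ a < P.NA, Rel (P.wd b) (A a).1 (f a)) (ok : rootOk P b F A = true) {x y z : ℝ}
    (hx : x ∈ Set.Icc (0 : ℝ) 1) (hy : y ∈ Set.Icc (0 : ℝ) 1) (hz : z ∈ Set.Icc (0 : ℝ) 1) :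
    CovAt P (root P b F A) 1 (fun a => f a x y z * 2 ^ F / (A a).2) x y z := by
  simp only [rootOk, Bool.and_eq_true, Nat.blt_eq, one_shl] at ok
  obtain ⟨⟨⟨hB, hH⟩, h2⟩, ok⟩ := ok
  have k := fun a (ha : a < P.NA) => arr_sound hB h2 ((hA a ha).el P.n1 P.n2 P.n3)
    (allN_sound ok a ha)
  choose k1 ξ k2 k3 using k
  have hN : 0 < P.NC := by unfold Par.NC; positivity
  have hd : ∀ j, dig P.B (root P b F A) j = if j / P.NC < P.NA then dig P.B
      (arr P b F ((A (j / P.NC)).1.el (P.wd b) P.n1 P.n2 P.n3) (A (j / P.NC)).2) (j % P.NC)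
      else 0 := fun j => by
    conv_lhs => rw [← Nat.div_add_mod' j P.NC]
    rw [← dig_dig _ _ _ _ _ (Nat.mod_lt _ hN), root, bld_eq, dig_pack _ _ _ k1]
    split_ifs
    · rfl
    · exact dig_zero _ _
  refine ⟨hB, hH, fun j => if h : j / P.NC < P.NA then ξ _ h (j % P.NC) else 0, hx, hy,
    hz, ⟨lt_of_dig hB fun j hj => ?_, h2, fun j => ?_, fun j => ?_, fun j => ?_⟩, fun a ha => ?_⟩
  · rw [hd, if_neg]
    rw [Nat.div_lt_iff_lt_mul hN]; omega
  · rw [hd]; split_ifs with h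
    · exact (k2 _ h _ (Nat.mod_lt _ hN)).1
    · exact Nat.zero_le _
  · rw [hd]; split_ifs with h
    · exact (k2 _ h _ (Nat.mod_lt _ hN)).2.1
    · simp
  · rw [hd]; split_ifs with h
    · exact (k2 _ h _ (Nat.mod_lt _ hN)).2.2
    · simp
  · rw [k3 a ha]
    refine La_congr P _ _ _ fun j hj => ?_
    have a1 : (a * P.NC + j) / P.NC = a := by
      rw [Nat.add_comm, Nat.add_mul_div_right _ _ hN, Nat.div_eq_of_lt hj, Nat.zero_add]
    simp only [a1, Nat.mul_add_mod_of_lt hj, dif_pos ha]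

theorem root_cov {P : Par} {b F : ℕ} {A : ℕ → PV × ℕ} {f : ℕ → ℝ → ℝ → ℝ → ℝ}
    (hA : ∀ a < P.NA, Rel (P.wd b) (A a).1 (f a)) (ok : rootOk P b F A = true) {x y z : ℝ}
    (hx : x ∈ Set.Icc (0 : ℝ) 1) (hy : y ∈ Set.Icc (0 : ℝ) 1) (hz : z ∈ Set.Icc (0 : ℝ) 1) :
    Cov P (root P b F A) 1 (fun a => f a x y z * 2 ^ F / (A a).2) :=
  ⟨x, y, z, root_covAt hA ok hx hy hz⟩

end Pool.Agent.P.MP_2b44f0_gt.PD.Bn
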