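import Pool.Agent.P.MP_2b44f0_gt.PD.BnD

/-!
Subdivision trees with bookkeeping of the box.
-/

namespace Pool.Agent.P.MP_2b44f0_gt.PD.Bn

theorem CovAt.bound {P : Par} {N e : ℕ} {g : ℕ → ℝ} {x y z : ℝ} (h : CovAt P N e g x y z) :
    ∀ a < P.NA, |g a| ≤ P.H + e := by
  obtain ⟨-, -, β, hx, hy, hz, hA, hg⟩ := h
  intro a ha
  have h1 := La_mono P hx hy hz (ξ := fun _ => (0 : ℝ)) (η := fun k => β (a * P.NC + k))
    fun k _ => (Nat.cast_nonneg _).trans (hA.lo _)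
  have h2 := La_mono P hx hy hz (η := fun _ => ((2 * P.H : ℕ) : ℝ) + e)
    (ξ := fun k => β (a * P.NC + k)) fun k _ => (hA.hi _).trans (by
      have : ((dig P.B N (a * P.NC + k) : ℕ) : ℝ) ≤ (2 * P.H : ℕ) := Nat.cast_le.2 (hA.top _)
      linarith)
  rw [La_const, ← hg a ha] at h1 h2
  push_cast at h2
  have : (0 : ℝ) ≤ e := Nat.cast_nonneg _
  exact abs_le.2 ⟨by linarith, by linarith⟩

/-- a dyadic box: index and depth in each direction -/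
structure Bx where
  i1 : ℕ
  d1 : ℕ
  i2 : ℕ
  d2 : ℕ
  i3 : ℕ
  d3 : ℕ

/-- the half number `s` of the box -/
def Bx.hf (b : Bx) (ax s : ℕ) : Bx :=
  cond (Nat.beq ax 0) ⟨Nat.add (Nat.mul 2 b.i1) s, Nat.succ b.d1, b.i2, b.d2, b.i3, b.d3⟩
    (cond (Nat.beq ax 1) ⟨b.i1, b.d1, Nat.add (Nat.mul 2 b.i2) s, Nat.succ b.d2, b.i3, b.d3⟩
      ⟨b.i1, b.d1, b.i2, b.d2, Nat.add (Nat.mul 2 b.i3) s, Nat.succ b.d3⟩)

/-- the left half -/
def Bx.l (b : Bx) (ax : ℕ) : Bx := b.hf ax 0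

/-- the right half -/
def Bx.r (b : Bx) (ax : ℕ) : Bx := b.hf ax 1

/-- global and local coordinates -/
def Bx.In (b : Bx) (X Y Z x y z : ℝ) : Prop :=
  X * 2 ^ b.d1 = b.i1 + x ∧ Y * 2 ^ b.d2 = b.i2 + y ∧ Z * 2 ^ b.d3 = b.i3 + z

theorem Bx.In.sub {b : Bx} {X Y Z x y z x' y' z' : ℝ} (h : b.In X Y Z x y z) {ax : ℕ} {s : Bool}
    (hs : Sub ax s x y z x' y' z') : (cond s (b.r ax) (b.l ax)).In X Y Z x' y' z' := by
  obtain ⟨-, -, -, hs⟩ := hs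
  obtain ⟨h1, h2, h3⟩ := h
  unfold Bx.r Bx.l Bx.hf
  cases h0 : Nat.beq ax 0 <;> rw [h0] at hs
  · cases h1' : Nat.beq ax 1 <;> rw [h1'] at hs <;> obtain ⟨rfl, rfl, rfl⟩ := hs <;> cases s <;>
      refine ⟨?_, ?_, ?_⟩ <;> simp only [cond, Nat.add_eq, Nat.mul_eq, Nat.succ_eq_add_one,
        pow_succ] at * <;> push_cast <;> linarith
  · obtain ⟨rfl, rfl, rfl⟩ := hs
    cases s <;> refine ⟨?_, ?_, ?_⟩ <;> simp only [cond, Nat.add_eq, Nat.mul_eq,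
      Nat.succ_eq_add_one, pow_succ] at * <;> push_cast <;> linarith

/-- the property holds at all points of the box -/
def Good2 (P : Par) (Q : (ℕ → ℝ) → ℝ → ℝ → ℝ → Prop) (N e : ℕ) (b : Bx) : Prop :=
  ∀ g X Y Z x y z, CovAt P N e g x y z → b.In X Y Z x y z → Q g X Y Z

theorem Good2.split {P : Par} {Q : (ℕ → ℝ) → ℝ → ℝ → ℝ → Prop} {N e : ℕ} {b : Bx} (ax : ℕ)
    (h1 : Good2 P Q (sp P ax N).1 (e + P.de) (b.l ax))
    (h2 : Good2 P Q (sp P ax N).2 (e + P.de) (b.r ax)) : Good2 P Q N e b := by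
  intro g X Y Z x y z h hb
  obtain ⟨s, x', y', z', hs⟩ := exists_sub ax h.mem.1 h.mem.2.1 h.mem.2.2
  cases s
  exacts [h1 _ _ _ _ _ _ _ (h.sub hs) (hb.sub hs), h2 _ _ _ _ _ _ _ (h.sub hs) (hb.sub hs)]

theorem Good2.root {P : Par} {b F : ℕ} {A : ℕ → PV × ℕ} {f : ℕ → ℝ → ℝ → ℝ → ℝ}
    {Q : (ℕ → ℝ) → ℝ → ℝ → ℝ → Prop} (hA : ∀ a < P.NA, Rel (P.wd b) (A a).1 (f a))
    (ok : rootOk P b F A = true) (h : Good2 P Q (root P b F A) 1 ⟨0, 0, 0, 0, 0, 0⟩) {x y z : ℝ}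
    (hx : x ∈ Set.Icc (0 : ℝ) 1) (hy : y ∈ Set.Icc (0 : ℝ) 1) (hz : z ∈ Set.Icc (0 : ℝ) 1) :
    Q (fun a => f a x y z * 2 ^ F / (A a).2) x y z :=
  h _ x y z x y z (root_covAt hA ok hx hy hz) (by simp [Bx.In])

/-- the tree driver with box bookkeeping and data at the leaves -/
def run2 {D : Type} (P : Par) (leaf : ℕ → ℕ → Bx → D → Bool) : Tr D → ℕ → ℕ → Bx → Bool
  | .lf d, N, e, b => leaf N e b d
  | .sp ax l r, N, e, b =>
    cond (Nat.beq (sp P ax N).1 0) false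
      (cond (run2 P leaf l (sp P ax N).1 (e + P.de) (b.l ax))
        (cond (Nat.beq (sp P ax N).2 0) false (run2 P leaf r (sp P ax N).2 (e + P.de) (b.r ax)))
        false)

theorem run2_sound {D : Type} {P : Par} {leaf : ℕ → ℕ → Bx → D → Bool}
    {Q : (ℕ → ℝ) → ℝ → ℝ → ℝ → Prop} (hl : ∀ N e b d, leaf N e b d = true → Good2 P Q N e b) :
    ∀ (t : Tr D) (N e : ℕ) (b : Bx), run2 P leaf t N e b = true → Good2 P Q N e b
  | .lf d, N, e, b, h => hl N e b d h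
  | .sp ax l r, N, e, b, h => by
    rw [run2] at h
    cases h1 : Nat.beq (sp P ax N).1 0 <;> rw [h1] at h
    swap; · exact absurd h (by simp)
    cases h2 : run2 P leaf l (sp P ax N).1 (e + P.de) (b.l ax) <;> rw [h2] at h
    · exact absurd h (by simp)
    cases h3 : Nat.beq (sp P ax N).2 0 <;> rw [h3] at h
    swap; · exact absurd h (by simp)
    exact Good2.split ax (run2_sound hl l _ _ _ h2) (run2_sound hl r _ _ _ h)

/-- a tree read from the base four digits of `c` in preorder (3 is a leaf, 0, 1, 2 split along that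
axis), with the unread digits -/
def dec (fuel : ℕ) : ℕ → Tr Unit × ℕ :=
  Nat.rec (motive := fun _ => ℕ → Tr Unit × ℕ) (fun c => (.lf (), c))
    (fun _ ih c => cond (Nat.beq (Nat.land c 3) 3) (.lf (), Nat.shiftRight c 2)
      ((fun p => (fun q => (Tr.sp (Nat.land c 3) p.1 q.1, q.2)) (ih p.2))
        (ih (Nat.shiftRight c 2)))) fuel

end Pool.Agent.P.MP_2b44f0_gt.PD.Bn
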