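import Pool.Agent.P.MP_2b44f0_gt.PD.IfU
import Pool.Agent.P.MP_2b44f0_gt.PD.TINT

/-!
The certificate with an explicit test function and a common factor.
-/

namespace Pool.Agent.P.MP_2b44f0_gt.PD

theorem CertU.of_f {V₀ ψ : ℝ} (hψ : 0 < ψ) {A₀ A₁ A₂ f : W → ℝ} (c0 : ContDiff ℝ 1 A₀)
    (c1 : ContDiff ℝ 1 A₁) (c2 : ContDiff ℝ 1 A₂) (cf : ContDiff ℝ 1 f)
    (pos : ∀ u l, Dom u l → 0 ≤ A₀ u ∧ 0 < A₁ u ∧ 0 < A₂ u)
    (lmi : ∀ u l, Dom u l → ∀ v : W, (u.2.2 = 0 → v.1 = 0) → dot (gr f u) (dir u v) ^ 2 ≤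
      qf (A₀ u) (A₁ u) (A₂ u) (dot (gr A₀ u) (dir u v)) (dot (gr A₁ u) (dir u v))
        (dot (gr A₂ u) (dir u v)) u l v)
    (hvol : ∀ μ w, Adm (2 * 3) μ w → PD.vol 3 μ w.2.1 w.2.2 ≤ V₀ + ψ *
      ((6 - w.1) * (3 * (crd w).2.2 * A₀ (crd w) + (1 - (crd w).2.1) / 2 * A₁ (crd w) +
        (1 + (crd w).2.1) / 2 * A₂ (crd w)) + (w.1 - 25 / 4) * f (crd w) ^ 2)) :
    CertU V₀ (fun u => ψ * A₀ u) (fun u => ψ * A₁ u) (fun u => ψ * A₂ u) fun u => ψ * f u ^ 2 := by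
  have hd : ∀ {A : W → ℝ}, ContDiff ℝ 1 A → ∀ u v,
      dot (gr (fun u => ψ * A u) u) v = ψ * dot (gr A u) v := fun hA u v => by
    rw [← INTx.fd_eq, ← INTx.fd_eq, fderiv_const_mul (hA.differentiable one_ne_zero u)]
    rfl
  refine ⟨contDiff_const.mul c0, contDiff_const.mul c1, contDiff_const.mul c2,
    contDiff_const.mul (cf.pow 2), fun u l h => ?_, fun u l h v c hv => ?_, fun μ w h => ?_⟩
  · obtain ⟨p0, p1, p2⟩ := pos u l h
    exact ⟨by positivity, by positivity, by positivity, by positivity⟩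
  · have h1 := lmi u l h v hv
    have h2 : dot (gr (fun u => f u ^ 2) u) (dir u v) = 2 * f u * dot (gr f u) (dir u v) := by
      rw [← INTx.fd_eq, ← INTx.fd_eq,
        ((cf.differentiable one_ne_zero u).hasFDerivAt.pow 2).fderiv]
      simp
    rw [hd c0, hd c1, hd c2, hd (cf.pow 2), h2]
    have h3 := mul_nonneg hψ.le (add_nonneg (sub_nonneg.2 h1)
      (sq_nonneg (dot (gr f u) (dir u v) + c * f u)))
    refine h3.trans_eq ?_
    simp only [qf]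
    ring
  · refine (hvol μ w h).trans_eq ?_
    ring

end Pool.Agent.P.MP_2b44f0_gt.PD
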