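import Pool.Agent.P.MP_2b44f0_gt.PD.Pol
import Pool.Agent.P.MP_2b44f0_gt.PD.BnD

/-!
The leaf test for the matrix inequality on packed Bernstein coefficients.
-/

namespace Pool.Agent.P.MP_2b44f0_gt.PD.Chk

open Bn Pol

/-- the field with mask `w` at position `o` -/
def fld (n o w : ℕ) : ℕ := (n.shiftRight o).land w

/-- the data of a node -/
structure Nd where
  (x al kp b g k be ga p q r s t o u v w : ℕ)

/-- the data of a slack -/
structure Sd where
  (hi k m n l c j : ℕ)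

/-- decoding of a node -/
def Nd.of (n : ℕ) : Nd :=
  ⟨n.land 32767, fld n 92 1048575, n.shiftRight 200, fld n 112 16777215, fld n 136 16777215,
    fld n 15 3, fld n 160 1048575, fld n 180 1048575, fld n 20 4095, fld n 32 4095, fld n 44 4095,
    fld n 56 4095, fld n 68 4095, fld n 80 4095, n.land 131072, n.land 262144, n.land 524288⟩

/-- decoding of a slack -/
def Sd.of (n : ℕ) : Sd :=
  ⟨n.land 32767, fld n 15 3, fld n 37 268435455, fld n 65 268435455, n.shiftRight 93,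
    fld n 17 65535, fld n 33 15⟩

/-- the positive part of the constant coefficient of the slack -/
def k0 (s : Sd) (x : ℕ) : ℕ :=
  (((s.m.add s.n).mul (((s.j.mul s.j).mul 268435456).add ((x.mul x).mul 2))).add
    (((s.m.mul x).add (s.n.mul (s.j.mul 16384))).mul 16384)).add
    (s.l.mul (((s.c.mul s.c).add 872415232).add (x.mul 65536)))

/-- the negative part of the constant coefficient -/
def k0' (s : Sd) (x : ℕ) : ℕ :=
  ((((s.m.add s.n).mul ((s.j.mul 32768).add 16384)).mul x).add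
    (((s.m.mul (s.j.mul 16384)).add (s.n.mul x)).mul 16384)).add
    ((s.l.mul s.c).mul ((x.mul 2).add 49152))

/-- the positive part of the coefficient of `τ` -/
def k1 (s : Sd) (x : ℕ) : ℕ :=
  (((s.m.mul 49152).add (s.l.mul 32768)).add (((s.m.add s.n).mul 6).mul x)).mul 16384

/-- the negative part of the coefficient of `τ` -/
def k1' (s : Sd) : ℕ :=
  (((s.n.mul 49152).add (((s.m.add s.n).mul s.j).mul 98304)).add (s.l.mul s.c)).mul 16384

/-- the positive part of the coefficient of `τ²` -/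
def k2 (s : Sd) : ℕ := (s.m.add s.n).mul 2415919104

/-- the positive part of the coefficient of `Y` -/
def k3 (s : Sd) : ℕ := (s.m.add s.n).mul 402653184

/-- the negative part of these two coefficients -/
def k4 (s : Sd) : ℕ := s.l.mul 335544320

/-- the slack with decoded data -/
noncomputable def Sd.sl (s : Sd) (a : ℝ) (w : W) (x : ℕ) : ℝ :=
  Pol.sl (s.m * a) (s.n * a) (s.l * a) ((s.c - 32768) / 16384) (3 - s.j) w (x / 16384)

theorem k_eq (s : Sd) (x : ℕ) (w : W) (a : ℝ) :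
    a * ((k0 s x - k0' s x : ℝ) + (k1 s x - k1' s) * w.2.1 +
      (k2 s - k4 s) * w.2.1 ^ 2 +
      (k3 s - k4 s) * w.2.2) =
      2 ^ 28 * s.sl a w x := by
  simp only [k0, k0', k1, k1', k2, k3, k4, Sd.sl, sl, Nat.add_eq, Nat.mul_eq]
  push_cast
  ring

/-- `x + n y` -/
def fma (n : ℕ) (y x : V) : V := (x.1.add (n.mul y.1), x.2.add (n.mul y.2))

variable (P : Par) (ω N e : ℕ)

/-- `x - (a - b) y` -/
def sgn (a b : ℕ) (y x : V) : V :=
  cond (b.ble a) (fma (a.sub b) (V.neg P y) x) (fma (b.sub a) y x)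

/-- `x` minus a combination of `1, τ, τ², Y` -/
def sub4 (u v : ℕ → ℕ) (s : Sd) (t : ℕ) (x : V) : V :=
  sgn P (u (k3 s)) (v (k4 s)) (getA P N 13)
    (sgn P (u (k2 s)) (v (k4 s)) (getA P N 12)
      (sgn P (u (k1 s t)) (v (k1' s)) (getA P N 11)
        (sgn P (u (k0 s t)) (v (k0' s t)) (V.cst P ω) x)))

/-- the slack is negative -/
def exc (s : Sd) (x : ℕ) : Bool :=
  V.gt P e (sub4 P ω N (fun k => k) (fun k => k) s x (V.cst P 0)) 0

/-- the threshold of a test -/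
def thr (o : ℕ) : ℕ := (o.add ((e.mul o).div P.H)).succ

/-- the conjunction of four shifted sums -/
def four (X y y' z z' : ℕ) : ℕ :=
  (((X.add y).add z).land ((X.add y).add z')).land (((X.add y').add z).land ((X.add y').add z'))

/-- the four sums of one row -/
def row (o x : ℕ) (y z : V) : ℕ :=
  four (x.add ((Nat.sub (1 <<< (P.B - 1)) (thr P e o)).mul (ones P.B P.NC))) y.1 (V.neg P y).1 z.1
    (V.neg P z).1

/-- the three rows with their offsets -/
def rows' (x y z : ℕ) (u v w : V) (a b c : ℕ) : Bool :=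
  (a.add (thr P e a)).succ.ble (1 <<< (P.B - 1)) && ((b.add (thr P e b)).succ.ble (1 <<< (P.B - 1)) &&
    ((c.add (thr P e c)).succ.ble (1 <<< (P.B - 1)) &&
      Nat.beq ((((row P e a x u v).land (row P e b y u w)).land (row P e c z v w)).land
        (1 <<< (P.B - 1) * ones P.B P.NC)) (1 <<< (P.B - 1) * ones P.B P.NC)))

/-- the three rows -/
def rows (x y z u v w : V) : Bool :=
  rows' P e x.1 y.1 z.1 u v w ((x.2.add u.2).add v.2) ((y.2.add u.2).add w.2)
    ((z.2.add v.2).add w.2)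

/-- the diagonal dominance test; the primed vectors carry the sign of the entry `q` -/
def dd' (n : Nd) (z : V → V) (a b c d f g a' d' f' : V) : Bool :=
  rows P e (V.smul (n.p.mul n.p) a)
    (fma (n.r.mul n.r) b (fma ((n.q.mul n.r).mul 2) d' (V.smul (n.q.mul n.q) a)))
    (z (fma (n.o.mul n.o) c (fma ((n.t.mul n.o).mul 2) g (fma ((n.s.mul n.o).mul 2) f
      (fma (n.t.mul n.t) b (fma ((n.s.mul n.t).mul 2) d (V.smul (n.s.mul n.s) a)))))))
    (fma (n.p.mul n.r) d (V.smul (n.p.mul n.q) a'))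
    (fma (n.p.mul n.o) f (fma (n.p.mul n.t) d (V.smul (n.p.mul n.s) a)))
    (fma (n.r.mul n.o) g (fma (n.q.mul n.o) f' (fma (n.r.mul n.t) b
      (fma (n.r.mul n.s) d (fma (n.q.mul n.t) d' (V.smul (n.q.mul n.s) a'))))))

/-- the choice of the sign of `q` -/
def d0 (n : Nd) (z : V → V) (a b c d f g : V) : Bool :=
  cond (n.w.beq 0) (dd' P e n z a b c d f g a d f)
    (dd' P e n z a b c d f g (V.neg P a) (V.neg P d) (V.neg P f))

/-- a reflection of the second variable -/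
def d1 (n : Nd) (z : V → V) (a b c d f g : V) : Bool :=
  cond (n.v.beq 0) (d0 P e n z a b c d f g) (d0 P e n z a b c (V.neg P d) f (V.neg P g))

/-- a reflection of the first variable -/
def dd (n : Nd) (z : V → V) (a b c d f g : V) : Bool :=
  cond (n.u.beq 0) (d1 P e n z a b c d f g) (d1 P e n z a b c (V.neg P d) (V.neg P f) g)

/-- the test after a rotation of the variables -/
def rot (n : Nd) (k : ℕ) (z : V → V) (a b c d f g : V) : Bool :=
  cond (Nat.beq k 0) (dd P e n z b c a g d f)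
    (cond (Nat.beq k 1) (dd P e n z c a b f g d) (dd P e n z a b c d f g))

/-- the matrix at a node -/
def mat (n : Nd) (k : ℕ) (z : V → V) : Bool :=
  rot P e n k z
    (fma (((n.al.mul n.al).mul 2313).div 131072).succ (V.neg P (getA P N 8))
      (fma ((((n.al.mul n.al).mul 2313).mul n.x).div 536870912) (getA P N 7)
        (sgn P ((((((n.al.mul n.al).mul 2313).mul n.x).mul n.x).div 8796093022208).succ.add n.kp)
          (n.al.mul 9) (getA P N 6) (V.smul 4096 (getA P N 0)))))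
    (fma n.b (getA P N 9) (V.smul 4096 (getA P N 1)))
    (fma n.g (getA P N 10) (V.smul 4096 (getA P N 2)))
    (V.smul 4096 (getA P N 3)) (V.smul 4096 (getA P N 4)) (V.smul 4096 (getA P N 5))

/-- the test at a node -/
def node (s : Sd) (n : Nd) : Bool :=
  Nat.ble 1 ((n.p.mul n.r).mul n.o) &&
    cond (((s.m.add s.n).add s.l).beq 0) (mat P N e n n.k fun x => x)
      (mat P N e n s.k (sub4 P ω N (fun k => (((n.o.mul n.o).mul k).div 8589934592).succ)
        (fun k => ((n.o.mul n.o).mul k).div 8589934592) s n.x))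

/-- the bound for the cross term -/
def crs (d a b : ℕ) : Bool :=
  ((d.mul d).mul 18504).ble (a.mul 4398046511104) && ((d.mul d).mul 18504).ble (b.mul 4398046511104)

/-- the conditions between two nodes -/
def link (m n : Nd) : Bool :=
  crs (((n.al.sub m.al).add (m.al.sub n.al)).mul (n.x.sub m.x)) m.kp n.kp &&
    (((m.b.mul 524288).add ((n.be.mul n.be).mul m.x)).ble (n.be.mul 8388608) &&
    (((n.b.mul 524288).add ((n.be.mul n.be).mul n.x)).ble (n.be.mul 8388608) &&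
    (((m.g.mul 524288).add ((n.ga.mul n.ga).mul 16384)).ble
      ((n.ga.mul 8388608).add ((n.ga.mul n.ga).mul m.x)) &&
    ((n.g.mul 524288).add ((n.ga.mul n.ga).mul 16384)).ble
      ((n.ga.mul 8388608).add ((n.ga.mul n.ga).mul n.x)))))

/-- a chain of nodes followed by the test `k` at the last abscissa -/
def chain (s : Sd) (k : ℕ → Bool) : List ℕ → Nd → Bool
  | [], m => k m.x
  | n :: l, m => link m (Nd.of n) && (node P ω N e s (Nd.of n) && chain s k l (Nd.of n))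

/-- positivity of the three coefficients -/
def pos : Bool :=
  V.gt P e (getA P N 6) 0 && (V.gt P e (getA P N 9) 0 && V.gt P e (getA P N 10) 0)

/-- the interval from `x` on is covered -/
def cover : List (ℕ × List ℕ) → ℕ → Bool
  | [], x => Nat.ble 16384 x
  | (s, []) :: l, x => exc P ω N e (Sd.of s) x && (exc P ω N e (Sd.of s) (Sd.of s).hi &&
      cover l (Sd.of s).hi)
  | (s, n :: r) :: l, x => Nat.ble (Nd.of n).x x && (pos P N e && (node P ω N e (Sd.of s) (Nd.of n) &&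
      chain P ω N e (Sd.of s) (cover l) r (Nd.of n)))

/-- the leaf test -/
def leaf (N e : ℕ) (d : List (ℕ × List ℕ)) : Bool := cover P ω N e d 0

variable {P ω N e} {S : V → ℝ → Prop}

theorem fma_ok (h : Alg P e S) (n : ℕ) {y x : V} {s r : ℝ} (hy : S y s) (hx : S x r) :
    S (fma n y x) (r + n * s) := h.add hx (h.smul n hy)

theorem sgn_ok (h : Alg P e S) (a b : ℕ) {y x : V} {s r : ℝ} (hy : S y s) (hx : S x r) :
    S (sgn P a b y x) (r - (a - b) * s) := by
  unfold sgn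
  cases c : b.ble a
  · have := Nat.cast_sub (R := ℝ) (Nat.lt_of_not_le fun k => by
      simp [Nat.ble_eq_true_of_le k] at c : a < b).le
    refine (congrArg (S _) ?_).mp (fma_ok h _ hy hx)
    rw [Nat.sub_eq, this]; ring
  · refine (congrArg (S _) ?_).mp (fma_ok h _ (h.neg hy) hx)
    rw [Nat.sub_eq, Nat.cast_sub (Nat.le_of_ble_eq_true c)]; ring

theorem and_eq {a b M : ℕ} (h : (a.land b).land M = M) : a.land M = M ∧ b.land M = M := by
  have k : ∀ a b : ℕ, a &&& b &&& M = M → a &&& M = M := fun a b h => by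
    conv_lhs => rw [← h, ← Nat.and_assoc, ← Nat.and_assoc, Nat.and_self, h]
  exact ⟨k a b h, k b a (by rw [Nat.and_comm b]; exact h)⟩

theorem row_ok (h : Alg P e S) {x y z : V} {a b c : ℝ} (hx : S x a) (hy : S y b) (hz : S z c)
    (t : (((x.2.add y.2).add z.2).add (thr P e ((x.2.add y.2).add z.2))).succ.ble
      (1 <<< (P.B - 1)) = true)
    (r : (row P e ((x.2.add y.2).add z.2) x.1 y z).land (1 <<< (P.B - 1) * ones P.B P.NC) =
      1 <<< (P.B - 1) * ones P.B P.NC) : |b| + |c| ≤ a := by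
  have k : ∀ {y' z' : V} {b c : ℝ}, S y' b → S z' c → y'.2 = y.2 → z'.2 = z.2 →
      (((x.1.add ((Nat.sub (1 <<< (P.B - 1)) (thr P e ((x.2.add y.2).add z.2))).mul
        (ones P.B P.NC))).add y'.1).add z'.1).land (1 <<< (P.B - 1) * ones P.B P.NC) =
        1 <<< (P.B - 1) * ones P.B P.NC → 0 ≤ a + b + c := fun {y' z' b c} hy hz e1 e2 r => by
    refine le_of_lt (Nat.cast_zero (R := ℝ) ▸ h.gt 0 (h.add (h.add hx hy) hz) ?_)
    have t := Nat.le_of_ble_eq_true t
    simp only [V.gt, V.add, allGe, e1, e2, Bool.and_eq_true, Nat.blt_eq, Nat.ble_eq, Nat.beq_eq]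
    simp only [thr, Nat.add_eq, Nat.mul_eq, Nat.succ_eq_add_one, Nat.sub_eq, Nat.land_eq,
      show ∀ a b : ℕ, a.div b = a / b from fun _ _ => rfl, Nat.add_zero, ← Nat.add_assoc] at t r ⊢
    generalize e * _ / P.H = q at t r ⊢
    refine ⟨by omega, by omega, Eq.trans ?_ r⟩
    congr 1
    ring
  obtain ⟨r1, r2⟩ := and_eq r
  have a1 := k hy hz rfl rfl (and_eq r1).1
  have a2 := k hy (h.neg hz) rfl rfl (and_eq r1).2
  have a3 := k (h.neg hy) hz rfl rfl (and_eq r2).1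
  have a4 := k (h.neg hy) (h.neg hz) rfl rfl (and_eq r2).2
  exact Lmi.abs_add_le_of a1 (by linarith) (by linarith) (by linarith)

/-- the subtraction of the slack -/
def Sub (S : V → ℝ → Prop) (z : V → V) (c : ℝ) : Prop :=
  ∀ v r, S v r → ∃ r', S (z v) r' ∧ r' ≤ r - c

theorem dd'_ok (h : Alg P e S) {n : Nd} {z : V → V} {a b c d f g a' d' f' : V} {M : Lmi.Sym}
    {σ ε : ℝ} (h0 : 1 ≤ n.p * n.r * n.o) (hz : Sub S z (σ * n.o ^ 2)) (hε : ε ^ 2 = 1)
    (ha : S a M.a) (hb : S b M.b) (hc : S c M.c) (hd : S d M.d) (hf : S f M.e) (hg : S g M.f)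
    (ha' : S a' (ε * M.a)) (hd' : S d' (ε * M.d)) (hf' : S f' (ε * M.e))
    (t : dd' P e n z a b c d f g a' d' f' = true) (v : W) : σ * v.2.2 ^ 2 ≤ M.q v := by
  simp only [dd', rows, rows', Bool.and_eq_true, Nat.beq_eq] at t
  obtain ⟨t1, t2, t3, t⟩ := t
  have u := fma_ok h (n.p.mul n.r) hd (h.smul (n.p.mul n.q) ha')
  have w := fma_ok h (n.p.mul n.o) hf (fma_ok h (n.p.mul n.t) hd (h.smul (n.p.mul n.s) ha))
  have y := fma_ok h (n.r.mul n.o) hg (fma_ok h (n.q.mul n.o) hf' (fma_ok h (n.r.mul n.t) hb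
    (fma_ok h (n.r.mul n.s) hd (fma_ok h (n.q.mul n.t) hd' (h.smul (n.q.mul n.s) ha')))))
  obtain ⟨r', z1, z2⟩ := hz _ _ (fma_ok h (n.o.mul n.o) hc (fma_ok h ((n.t.mul n.o).mul 2) hg
    (fma_ok h ((n.s.mul n.o).mul 2) hf (fma_ok h (n.t.mul n.t) hb
      (fma_ok h ((n.s.mul n.t).mul 2) hd (h.smul (n.s.mul n.s) ha))))))
  have r1 := row_ok h (h.smul _ ha) u w t1 (and_eq (and_eq t).1).1
  have r2 := row_ok h (fma_ok h _ hb (fma_ok h _ hd' (h.smul _ ha))) u y t2 (and_eq (and_eq t).1).2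
  have r3 := (row_ok h z1 w y t3 (and_eq t).2).trans z2
  have h1 : n.p * n.r * n.o ≠ 0 := by omega
  simp only [ne_eq, mul_eq_zero, not_or] at h1
  have := Lmi.tri (M := ⟨M.a, M.b, M.c - σ, M.d, M.e, M.f⟩) (q := ε * n.q) (s := n.s) (t := n.t)
    (Nat.cast_ne_zero.2 h1.1.1) (Nat.cast_ne_zero.2 h1.1.2) (Nat.cast_ne_zero.2 h1.2) ?_ v
  · simp only [Lmi.Sym.q] at this ⊢
    linarith
  · simp only [Nat.mul_eq] at r1 r2 r3
    push_cast at r1 r2 r3
    simp only [Lmi.DD, Lmi.Sym.bil]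
    have k : ∀ {x y z x' y' z' : ℝ}, |x| + |y| ≤ z → x' = x → y' = y → z' = z →
        |x'| + |y'| ≤ z' := fun h a b c => a ▸ b ▸ c ▸ h
    exact ⟨k r1 (by ring) (by ring) (by ring), k r2 (by ring) (by ring)
      (by linear_combination M.a * (n.q : ℝ) ^ 2 * hε), k r3 (by ring) (by ring) (by ring)⟩

theorem d0_ok (h : Alg P e S) {n : Nd} {z : V → V} {a b c d f g : V} {M : Lmi.Sym} {σ : ℝ}
    (h0 : 1 ≤ n.p * n.r * n.o) (hz : Sub S z (σ * n.o ^ 2))
    (ha : S a M.a) (hb : S b M.b) (hc : S c M.c) (hd : S d M.d) (hf : S f M.e) (hg : S g M.f)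
    (t : d0 P e n z a b c d f g = true) (v : W) : σ * v.2.2 ^ 2 ≤ M.q v := by
  unfold d0 at t
  cases h1 : n.w.beq 0 <;> rw [h1] at t
  · exact dd'_ok (ε := -1) h h0 hz (by norm_num) ha hb hc hd hf hg (by simpa using h.neg ha)
      (by simpa using h.neg hd) (by simpa using h.neg hf) t v
  · exact dd'_ok (ε := 1) h h0 hz (by norm_num) ha hb hc hd hf hg (by simpa using ha)
      (by simpa using hd) (by simpa using hf) t v

theorem d1_ok (h : Alg P e S) {n : Nd} {z : V → V} {a b c d f g : V} {M : Lmi.Sym} {σ : ℝ}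
    (h0 : 1 ≤ n.p * n.r * n.o) (hz : Sub S z (σ * n.o ^ 2))
    (ha : S a M.a) (hb : S b M.b) (hc : S c M.c) (hd : S d M.d) (hf : S f M.e) (hg : S g M.f)
    (t : d1 P e n z a b c d f g = true) (v : W) : σ * v.2.2 ^ 2 ≤ M.q v := by
  unfold d1 at t
  cases h1 : n.v.beq 0 <;> rw [h1] at t
  · refine (d0_ok (M := ⟨M.a, M.b, M.c, -M.d, M.e, -M.f⟩) h h0 hz ha hb hc (h.neg hd) hf
      (h.neg hg) t (v.1, -v.2.1, v.2.2)).trans_eq ?_
    simp only [Lmi.Sym.q]; ring
  · exact d0_ok h h0 hz ha hb hc hd hf hg t v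

theorem dd_ok (h : Alg P e S) {n : Nd} {z : V → V} {a b c d f g : V} {M : Lmi.Sym} {σ : ℝ}
    (h0 : 1 ≤ n.p * n.r * n.o) (hz : Sub S z (σ * n.o ^ 2))
    (ha : S a M.a) (hb : S b M.b) (hc : S c M.c) (hd : S d M.d) (hf : S f M.e) (hg : S g M.f)
    (t : dd P e n z a b c d f g = true) (v : W) : σ * v.2.2 ^ 2 ≤ M.q v := by
  unfold dd at t
  cases h1 : n.u.beq 0 <;> rw [h1] at t
  · refine (d1_ok (M := ⟨M.a, M.b, M.c, -M.d, -M.e, M.f⟩) h h0 hz ha hb hc (h.neg hd) (h.neg hf)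
      hg t (-v.1, v.2.1, v.2.2)).trans_eq ?_
    simp only [Lmi.Sym.q]; ring
  · exact d1_ok h h0 hz ha hb hc hd hf hg t v

/-- the square of a coordinate -/
def sqr (k : ℕ) (v : W) : ℝ :=
  cond (Nat.beq k 0) (v.1 ^ 2) (cond (Nat.beq k 1) (v.2.1 ^ 2) (v.2.2 ^ 2))

theorem sqr_nonneg (k : ℕ) (v : W) : 0 ≤ sqr k v := by
  unfold sqr
  cases Nat.beq k 0 <;> cases Nat.beq k 1 <;> exact sq_nonneg _

theorem rot_ok (h : Alg P e S) {n : Nd} {k : ℕ} {z : V → V} {a b c d f g : V} {M : Lmi.Sym}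
    {σ : ℝ} (h0 : 1 ≤ n.p * n.r * n.o) (hz : Sub S z (σ * n.o ^ 2))
    (ha : S a M.a) (hb : S b M.b) (hc : S c M.c) (hd : S d M.d) (hf : S f M.e) (hg : S g M.f)
    (t : rot P e n k z a b c d f g = true) (v : W) : σ * sqr k v ≤ M.q v := by
  unfold rot at t
  unfold sqr
  cases h1 : Nat.beq k 0 <;> rw [h1] at t
  · cases h2 : Nat.beq k 1 <;> rw [h2] at t
    · exact dd_ok h h0 hz ha hb hc hd hf hg t v
    · refine (dd_ok (M := ⟨M.c, M.a, M.b, M.e, M.f, M.d⟩) h h0 hz hc ha hb hf hg hd t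
        (v.2.2, v.1, v.2.1)).trans_eq ?_
      simp only [Lmi.Sym.q]; ring
  · refine (dd_ok (M := ⟨M.b, M.c, M.a, M.f, M.d, M.e⟩) h h0 hz hb hc ha hg hd hf t
      (v.2.1, v.2.2, v.1)).trans_eq ?_
    simp only [Lmi.Sym.q]; ring

/-- the arrays -/
noncomputable def raw (F G H f : Pol) (w : W) : ℕ → ℝ
  | 0 => (nw F G H f w).a
  | 1 => (nw F G H f w).b
  | 2 => (nw F G H f w).c
  | 3 => (nw F G H f w).d
  | 4 => (nw F G H f w).e
  | 5 => (nw F G H f w).f
  | 6 => 256 * ev F w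
  | 7 => 256 * (ev F w * (1 - w.2.1))
  | 8 => 256 * (ev F w * (4 * (1 - w.2.1 ^ 2 - w.2.2) + (1 - w.2.1) ^ 2))
  | 9 => 32 * ev G w
  | 10 => 32 * ev H w
  | 11 => w.2.1
  | 12 => w.2.1 ^ 2
  | _ => w.2.2

/-- the packed arrays represent the values at `w` -/
structure Rep (P : Par) (ω N e : ℕ) (S : V → ℝ → Prop) (F G H f : Pol) (ρ : ℝ) (w : W) : Prop where
  alg : Alg P e S
  r0 : 0 < ρ
  o0 : 0 < ω
  t0 : 0 ≤ w.2.1
  y0 : 0 ≤ w.2.2
  lo : ∀ a < 11, S (getA P N a) (raw F G H f w a * ρ)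
  hi : ∀ a, 11 ≤ a → a < 14 → S (getA P N a) (raw F G H f w a * ω)

variable {F G H f : Pol} {ρ : ℝ} {w : W}

theorem sub4_ok (h : Rep P ω N e S F G H f ρ w) {u v : ℕ → ℕ} {a : ℝ}
    (hu : ∀ k : ℕ, a * k ≤ u k) (hv : ∀ k : ℕ, v k ≤ a * k) (s : Sd) (t : ℕ) :
    Sub S (sub4 P ω N u v s t) (ω * (2 ^ 28 * s.sl a w t)) := fun x r hx => by
  refine ⟨_, sgn_ok h.alg _ _ (h.hi 13 (by decide) (by decide)) (sgn_ok h.alg _ _
    (h.hi 12 (by decide) (by decide)) (sgn_ok h.alg _ _ (h.hi 11 (by decide) (by decide))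
      (sgn_ok h.alg _ _ (h.alg.cst ω) hx))), ?_⟩
  rw [← k_eq]
  simp only [raw]
  have a0 := sub_le_sub (hu (k0 s t)) (hv (k0' s t))
  have a1 := mul_le_mul_of_nonneg_right (sub_le_sub (hu (k1 s t)) (hv (k1' s))) h.t0
  have a2 := mul_le_mul_of_nonneg_right (sub_le_sub (hu (k2 s))
    (hv (k4 s))) (sq_nonneg w.2.1)
  have a3 := mul_le_mul_of_nonneg_right (sub_le_sub (hu (k3 s))
    (hv (k4 s))) h.y0
  linear_combination mul_le_mul_of_nonneg_left
    (add_le_add (add_le_add (add_le_add a0 a1) a2) a3) (Nat.cast_nonneg (α := ℝ) ω)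

theorem exc_ok (h : Rep P ω N e S F G H f ρ w) {s : Sd} {x : ℕ} (t : exc P ω N e s x = true) :
    s.sl 1 w x < 0 := by
  obtain ⟨r, a, b⟩ := sub4_ok (u := fun k => k) (v := fun k => k) (a := 1) h (by simp) (by simp)
    s x _ _ (h.alg.cst 0)
  have := h.alg.gt 0 a t
  by_contra c
  have := mul_nonneg (Nat.cast_nonneg (α := ℝ) ω)
    (mul_nonneg (show (0 : ℝ) ≤ 2 ^ 28 by positivity) (not_lt.1 c))
  push_cast at *
  linarith

theorem div_lo (a b : ℕ) : ((a.div b : ℕ) : ℝ) ≤ a / b := Nat.cast_div_le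

theorem div_hi (a : ℕ) {b : ℕ} (h : 0 < b) : (a : ℝ) / b ≤ ((a.div b).succ : ℕ) := by
  rw [div_le_iff₀' (Nat.cast_pos.2 h)]
  exact Nat.cast_mul (α := ℝ) _ _ ▸ Nat.cast_le.2 (Nat.lt_mul_div_succ a h).le

theorem mat_ok (h : Rep P ω N e S F G H f ρ w) {n : Nd} {k : ℕ} {z : V → V} {σ : ℝ}
    (h0 : 1 ≤ n.p * n.r * n.o) (hz : Sub S z (4096 * ρ * σ * n.o ^ 2))
    (t : mat P N e n k z = true) : ∃ c₁ c₂ c₃ : ℝ, c₁ ≤ 72 * ((n.al : ℝ) / 128 -
      257 / 256 * (n.al / 128) ^ 2 * (n.x / 16384) ^ 2) - 18 * (n.kp / 288) ∧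
    c₂ ≤ 72 * (257 / 256) * ((n.al : ℝ) / 128) ^ 2 * (n.x / 16384) ∧
    18 * (257 / 256) * ((n.al : ℝ) / 128) ^ 2 ≤ c₃ ∧
    ∀ v, σ * sqr k v ≤ (mw F G H f w c₁ c₂ c₃ (n.b / 128) (n.g / 128)).q v := by
  have a := h.alg
  have r0 := h.r0
  unfold mat at t
  have e1 := div_hi ((((n.al.mul n.al).mul 2313).mul n.x).mul n.x)
    (show 0 < 8796093022208 by decide)
  have e2 := div_lo (((n.al.mul n.al).mul 2313).mul n.x) 536870912
  have e3 := div_hi ((n.al.mul n.al).mul 2313) (show 0 < 131072 by decide)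
  generalize Nat.succ (Nat.div _ 8796093022208) = C₁ at *
  generalize Nat.div _ 536870912 = C₂ at *
  generalize Nat.succ (Nat.div _ 131072) = C₃ at *
  simp only [Nat.mul_eq] at e1 e2 e3
  push_cast at e1 e2 e3
  refine ⟨(9 * n.al - C₁ - n.kp) / 16, C₂ / 16, C₃ / 16, by linarith, by linarith, by linarith,
    fun v => ?_⟩
  have := rot_ok (M := ⟨_, _, _, _, _, _⟩) a h0 hz
    (fma_ok a _ (a.neg (h.lo 8 (by decide))) (fma_ok a _ (h.lo 7 (by decide))
      (sgn_ok a _ _ (h.lo 6 (by decide)) (a.smul 4096 (h.lo 0 (by decide))))))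
    (fma_ok a _ (h.lo 9 (by decide)) (a.smul 4096 (h.lo 1 (by decide))))
    (fma_ok a _ (h.lo 10 (by decide)) (a.smul 4096 (h.lo 2 (by decide))))
    (a.smul 4096 (h.lo 3 (by decide))) (a.smul 4096 (h.lo 4 (by decide)))
    (a.smul 4096 (h.lo 5 (by decide))) t v
  refine le_of_mul_le_mul_left (a := 4096 * ρ) ?_ (by positivity)
  rw [← mul_assoc]
  refine this.trans_eq ?_
  simp only [Lmi.Sym.q, raw, mw, Nat.add_eq, Nat.mul_eq]
  generalize nw F G H f w = M
  push_cast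
  ring

theorem node_ok (h : Rep P ω N e S F G H f ρ w) {s : Sd} {n : Nd}
    (t : node P ω N e s n = true) :
    Node F G H f w (s.m * (ω / (131072 * ρ))) (s.n * (ω / (131072 * ρ)))
      (s.l * (ω / (131072 * ρ))) ((s.c - 32768) / 16384) (3 - s.j) (sqr s.k) (n.x / 16384)
      (n.al / 128) (n.kp / 288) (n.b / 128) (n.g / 128) := by
  simp only [node, Bool.and_eq_true, Nat.ble_eq] at t
  obtain ⟨h0, t⟩ := t
  cases h1 : ((s.m.add s.n).add s.l).beq 0 <;> rw [h1] at t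
  · refine mat_ok h h0 ((congrArg (Sub S _) ?_).mp (sub4_ok (a := (n.o : ℝ) ^ 2 / 8589934592) h
      (fun k => ?_) (fun k => ?_) s n.x)) t
    · have r0 := h.r0
      simp only [Sd.sl, sl]; field_simp; ring
    · refine le_trans (le_of_eq ?_) (div_hi _ (by decide))
      simp only [Nat.mul_eq]; push_cast; ring
    · refine (div_lo _ _).trans_eq ?_
      simp only [Nat.mul_eq]; push_cast; ring
  · have h2 : s.m + s.n + s.l = 0 := Nat.eq_of_beq_eq_true h1
    obtain ⟨c₁, c₂, c₃, b1, b2, b3, b4⟩ := mat_ok (σ := 0) h h0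
      (fun v r hv => ⟨r, hv, by simp⟩) t
    refine ⟨c₁, c₂, c₃, b1, b2, b3, fun v => le_trans (le_of_eq ?_) (b4 v)⟩
    simp [sl, show s.m = 0 by omega, show s.n = 0 by omega, show s.l = 0 by omega]

/-- what has to be shown at a point of the domain -/
def Con (F G H f : Pol) (u : W) (l : ℝ) : Prop :=
  0 ≤ ev F (chg u) ∧ 0 < ev G (chg u) ∧ 0 < ev H (chg u) ∧ Good F G H f u l

theorem chain_ok {u : W} {l : ℝ} (hD : Dom u l) (h : Rep P ω N e S F G H f ρ (chg u))
    (h0 : 0 ≤ ev F (chg u)) (h1 : 0 < ev G (chg u)) (h2 : 0 < ev H (chg u)) {s : Sd}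
    {k : ℕ → Bool} (hk : ∀ x, k x = true → (x : ℝ) / 16384 ≤ l → Con F G H f u l) :
    ∀ (r : List ℕ) (m : Nd), node P ω N e s m = true → chain P ω N e s k r m = true →
      (m.x : ℝ) / 16384 ≤ l → Con F G H f u l
  | [], m, _, t, hl => hk _ t hl
  | n :: r, m, hm, t, hl => by
    simp only [chain, link, crs, Bool.and_eq_true, Nat.ble_eq, Nat.add_eq, Nat.mul_eq,
      Nat.sub_eq] at t
    obtain ⟨⟨⟨a0, a5⟩, a1, a2, a3, a4⟩, t1, t2⟩ := t
    rcases le_total l (((Nd.of n).x : ℝ) / 16384) with c | c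
    · generalize Nd.of n = n at *
      have r0 := h.r0
      have hx : m.x ≤ n.x := (Nat.cast_le (α := ℝ)).1 (by linarith)
      have e : ((n.al - m.al + (m.al - n.al) : ℕ) : ℝ) ^ 2 = (n.al - m.al) ^ 2 := by
        rcases le_total n.al m.al with k | k <;>
          simp [Nat.sub_eq_zero_of_le k, Nat.cast_sub k, sub_sq_comm]
      generalize n.al - m.al + (m.al - n.al) = d at *
      have a0 := (Nat.cast_le (α := ℝ)).2 a0
      have a5 := (Nat.cast_le (α := ℝ)).2 a5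
      have a1 := (Nat.cast_le (α := ℝ)).2 a1
      have a2 := (Nat.cast_le (α := ℝ)).2 a2
      have a3 := (Nat.cast_le (α := ℝ)).2 a3
      have a4 := (Nat.cast_le (α := ℝ)).2 a4
      push_cast [Nat.cast_sub hx] at a0 a1 a2 a3 a4 a5
      rw [← sq, mul_pow, e] at a0 a5
      exact ⟨h0, h1, h2, good (β := n.be / 256) (γ := n.ga / 256) hD h0 h1.le h2.le
        (by positivity) (by positivity) (by positivity) (sqr_nonneg _) hl c (by linarith)
        (by linarith) (by linarith) (by linarith) (by linarith) (by linarith) (node_ok h hm)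
        (node_ok h t1)⟩
    · exact chain_ok hD h h0 h1 h2 hk r _ t1 t2 c

theorem cover_ok {u : W} {l : ℝ} (hD : Dom u l) (h : Rep P ω N e S F G H f ρ (chg u)) :
    ∀ (d : List (ℕ × List ℕ)) (x : ℕ), cover P ω N e d x = true → (x : ℝ) / 16384 ≤ l →
      Con F G H f u l
  | [], x, t, hl => by
    have : (16384 : ℝ) ≤ x := by exact_mod_cast Nat.le_of_ble_eq_true t
    linarith [hD.l1]
  | (s, []) :: d, x, t, hl => by
    simp only [cover, Bool.and_eq_true] at t
    rcases le_total l (((Sd.of s).hi : ℝ) / 16384) with c | c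
    · exact (Pol.out hD (by positivity) (by positivity) (by positivity) hl c (exc_ok h t.1)
        (exc_ok h t.2.1)).elim
    · exact cover_ok hD h d _ t.2.2 c
  | (s, n :: r) :: d, x, t, hl => by
    simp only [cover, pos, Bool.and_eq_true, Nat.ble_eq] at t
    obtain ⟨a0, ⟨p0, p1, p2⟩, t1, t2⟩ := t
    have p0 := h.alg.gt 0 (h.lo 6 (by decide)) p0
    have p1 := h.alg.gt 0 (h.lo 9 (by decide)) p1
    have p2 := h.alg.gt 0 (h.lo 10 (by decide)) p2
    simp only [raw, Nat.cast_zero, mul_pos_iff_of_pos_right h.r0] at p0 p1 p2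
    have a0 := (Nat.cast_le (α := ℝ)).2 a0
    exact chain_ok hD h (by linarith) (by linarith) (by linarith) (cover_ok hD h d) r _ t1 t2
      (by linarith)

/-- the property attached to the values of the arrays -/
def Qg (F G H f : Pol) (ρ : ℝ) (ω : ℕ) (g : ℕ → ℝ) : Prop :=
  ∀ u l, Dom u l → 0 ≤ u.2.1 → (∀ a < 11, g a = raw F G H f (chg u) a * ρ) →
    (∀ a, 11 ≤ a → g a = raw F G H f (chg u) a * ω) → Con F G H f u l

theorem Y_nonneg {u : W} {l : ℝ} (h : Dom u l) : 0 ≤ (chg u).2.2 := by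
  have := mul_pos h.l0 (sub_pos.2 h.l1)
  have := h.top
  simp only [chg]
  linarith

theorem run_ok (hP : P.NA = 14) (r0 : 0 < ρ) (o0 : 0 < ω) (t : Tr (List (ℕ × List ℕ)))
    (h : run P (leaf P ω) t N e = true) : Bn.Good P (Qg F G H f ρ ω) N e := by
  refine run_sound (fun N e d t g hg => ?_) t N e h
  intro u l hD h0 h1 h2
  obtain ⟨S, a, b⟩ := hg.alg
  refine cover_ok hD ⟨a, r0, o0, h0, Y_nonneg hD, fun i hi => ?_, fun i hi hj => ?_⟩ d 0 t
    (by simpa using hD.l0.le)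
  · exact h1 i hi ▸ b i (by omega)
  · exact h2 i hi ▸ b i (by omega)

/-- the state at the end of a path -/
def wlk (P : Par) (N : ℕ) : List (ℕ × Bool) → ℕ
  | [] => N
  | d :: p => cond d.2 (sp P d.1 (wlk P N p)).2 (sp P d.1 (wlk P N p)).1

/-- the property holds on the box at the end of a path -/
def At (P : Par) (Q : (ℕ → ℝ) → Prop) (N : ℕ) (p : List (ℕ × Bool)) : Prop :=
  Bn.Good P Q (wlk P N p) (p.length * P.de + 1)

theorem At.glue {Q : (ℕ → ℝ) → Prop} {a : ℕ} {p : List (ℕ × Bool)}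
    (h1 : At P Q N ((a, false) :: p)) (h2 : At P Q N ((a, true) :: p)) : At P Q N p := by
  unfold At at *
  rw [List.length_cons, Nat.succ_mul, Nat.add_right_comm] at h1 h2
  exact Good.split a h1 h2

theorem At.top {Q : (ℕ → ℝ) → Prop} (h : At P Q N []) : Bn.Good P Q N 1 := by
  simpa [At, wlk] using h

variable (W : Wd)

/-- the packed form of a polynomial on the unit cube -/
def pv : Pol → PV
  | [] => PV.cst 0
  | m :: p => if m.2.2.2 = 0 then pv p else PV.add W (PV.smul m.2.2.2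
      ((((PV.a1 W (-1) 1).pow m.1).mul ((PV.a2 W 0 1).pow m.2.1)).mul
        ((PV.a3 W 0 1).pow m.2.2.1))) (pv p)

theorem rel_pv : ∀ p : Pol, Rel W (pv W p) fun x y z => ev p (2 * x - 1, y, z)
  | [] => (rel_cst W 0).congr fun _ _ _ => by simp [ev]
  | m :: p => by
    unfold pv
    split_ifs with h
    · exact (rel_pv p).congr fun _ _ _ => by simp [ev, h]
    · refine (((((rel_a1 W _ _).pow _).mul ((rel_a2 W _ _).pow _)).mul
        ((rel_a3 W _ _).pow _)).smul _ |>.add (rel_pv p)).congr fun x y z => ?_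
      simp only [ev]
      push_cast
      ring_nf

/-- the packed form of `e1` -/
def p1 (p : Pol) : PV := PV.smul (-2) (pv W (dY p))

/-- the packed form of `e2` (sign one) and `e3` (sign minus one) -/
def p2 (s : ℤ) (p : Pol) : PV :=
  PV.add W (PV.add W (((PV.a1 W 0 (-2)).mul (PV.a1 W 2 0)).mul (pv W (dX p)))
    ((PV.a2 W (-2 * s) (-2 * s - 2)).mul (pv W (dT p))))
    ((PV.add W (PV.a2 W 0 (4 * s)) (PV.a3 W 4 0)).mul (pv W (dY p)))

theorem rel_p1 (p : Pol) : Rel W (p1 W p) fun x y z => e1 p (2 * x - 1, y, z) :=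
  ((rel_pv W _).smul _).congr fun _ _ _ => by simp [e1]

theorem rel_p2 (s : ℤ) (p : Pol) : Rel W (p2 W s p) fun x y z =>
    ((1 + s) * e2 p (2 * x - 1, y, z) + (1 - s) * e3 p (2 * x - 1, y, z)) / 2 :=
  (((((rel_a1 W _ _).mul (rel_a1 W _ _)).mul (rel_pv W _)).add
    ((rel_a2 W _ _).mul (rel_pv W _))).add
    (((rel_a2 W _ _).add (rel_a3 W _ _)).mul (rel_pv W _))).congr fun _ _ _ => by
      simp only [e2, e3]; push_cast; ring

/-- a combination of five terms -/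
def l5 (a b c d : ℤ) (x y z t u v : PV) : PV :=
  PV.add W (PV.add W (PV.add W (PV.smul a x) (PV.smul b y)) (PV.add W (PV.smul c z) (PV.smul d t)))
    (PV.smul (-2) (u.mul v))

theorem rel_l5 (a b c d : ℤ) {x y z t u v : PV} {fx fy fz ft fu fv : ℝ → ℝ → ℝ → ℝ}
    (hx : Rel W x fx) (hy : Rel W y fy) (hz : Rel W z fz) (ht : Rel W t ft) (hu : Rel W u fu)
    (hv : Rel W v fv) : Rel W (l5 W a b c d x y z t u v) fun p q r =>
      a * fx p q r + b * fy p q r + (c * fz p q r + d * ft p q r) +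
        (-2 : ℤ) * (fu p q r * fv p q r) :=
  (((hx.smul a).add (hy.smul b)).add ((hz.smul c).add (ht.smul d))).add ((hu.mul hv).smul _)

/-- the packed arrays -/
def arrs (F G H f : Pol) (D : ℕ) : ℕ → PV × ℕ
  | 0 => (l5 W 6 0 0 0 (p1 W F) (.cst 0) (.cst 0) (.cst 0) (p1 W f) (p1 W f), D)
  | 1 => (l5 W 4 (-8) 0 0 (p2 W 1 G) (pv W G) (.cst 0) (.cst 0) (p2 W 1 f) (p2 W 1 f), D)
  | 2 => (l5 W 4 (-8) 0 0 (p2 W (-1) H) (pv W H) (.cst 0) (.cst 0) (p2 W (-1) f) (p2 W (-1) f), D)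
  | 3 => (l5 W 3 2 (-12) 0 (p2 W 1 F) (p1 W G) (pv W F) (.cst 0) (p1 W f) (p2 W 1 f), D)
  | 4 => (l5 W 3 2 (-12) 0 (p2 W (-1) F) (p1 W H) (pv W F) (.cst 0) (p1 W f) (p2 W (-1) f), D)
  | 5 => (l5 W 2 2 (-4) (-4) (p2 W (-1) G) (p2 W 1 H) (pv W G) (pv W H) (p2 W 1 f)
      (p2 W (-1) f), D)
  | 6 => (PV.smul 256 (pv W F), D)
  | 7 => (PV.smul 256 ((pv W F).mul (PV.a2 W 1 0)), D)
  | 8 => (PV.smul 256 ((pv W F).mul
      (PV.add W ((PV.a2 W 1 0).mul (PV.a2 W 5 8)) (PV.a3 W 0 (-4)))), D)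
  | 9 => (PV.smul 32 (pv W G), D)
  | 10 => (PV.smul 32 (pv W H), D)
  | 11 => (PV.a2 W 0 512, 1)
  | 12 => ((PV.a2 W 0 512).mul (PV.a2 W 0 1), 1)
  | _ => (PV.a3 W 0 512, 1)

theorem rel_arrs (F G H f : Pol) (D : ℕ) : ∀ a < 14, Rel W (arrs W F G H f D a).1 fun x y z =>
    raw F G H f (2 * x - 1, y, z) a * if a < 11 then 1 else 512 := by
  have c := rel_cst W 0
  intro a ha
  interval_cases a
  · exact (rel_l5 W _ _ _ _ (rel_p1 W F) c c c (rel_p1 W f) (rel_p1 W f)).congr fun _ _ _ => by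
      simp only [raw, nw]; push_cast; ring
  · exact (rel_l5 W _ _ _ _ (rel_p2 W 1 G) (rel_pv W G) c c (rel_p2 W 1 f)
      (rel_p2 W 1 f)).congr fun _ _ _ => by simp only [raw, nw]; push_cast; ring
  · exact (rel_l5 W _ _ _ _ (rel_p2 W (-1) H) (rel_pv W H) c c (rel_p2 W (-1) f)
      (rel_p2 W (-1) f)).congr fun _ _ _ => by simp only [raw, nw]; push_cast; ring
  · exact (rel_l5 W _ _ _ _ (rel_p2 W 1 F) (rel_p1 W G) (rel_pv W F) c (rel_p1 W f)
      (rel_p2 W 1 f)).congr fun _ _ _ => by simp only [raw, nw]; push_cast; ring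
  · exact (rel_l5 W _ _ _ _ (rel_p2 W (-1) F) (rel_p1 W H) (rel_pv W F) c (rel_p1 W f)
      (rel_p2 W (-1) f)).congr fun _ _ _ => by simp only [raw, nw]; push_cast; ring
  · exact (rel_l5 W _ _ _ _ (rel_p2 W (-1) G) (rel_p2 W 1 H) (rel_pv W G) (rel_pv W H)
      (rel_p2 W 1 f) (rel_p2 W (-1) f)).congr fun _ _ _ => by simp only [raw, nw]; push_cast; ring
  · exact ((rel_pv W F).smul _).congr fun _ _ _ => by simp [raw]
  · exact (((rel_pv W F).mul (rel_a2 W _ _)).smul _).congr fun _ _ _ => by simp [raw]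
  · exact (((rel_pv W F).mul (((rel_a2 W _ _).mul (rel_a2 W _ _)).add (rel_a3 W _ _))).smul
      _).congr fun _ _ _ => by simp only [raw]; push_cast; ring
  · exact ((rel_pv W G).smul _).congr fun _ _ _ => by simp [raw]
  · exact ((rel_pv W H).smul _).congr fun _ _ _ => by simp [raw]
  · exact (rel_a2 W _ _).congr fun _ _ _ => by simp only [raw]; push_cast; ring
  · exact ((rel_a2 W _ _).mul (rel_a2 W _ _)).congr fun _ _ _ => by
      simp only [raw]; push_cast; ring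
  · exact (rel_a3 W _ _).congr fun _ _ _ => by simp only [raw]; push_cast; ring

theorem lmi_ok {P : Par} {b k D : ℕ} {F G H f : Pol} (hP : P.NA = 14)
    (ok : rootOk P b k (arrs (P.wd b) F G H f D) = true)
    (h : Bn.Good P (Qg F G H f (2 ^ k / D) (512 * 2 ^ k))
      (root P b k (arrs (P.wd b) F G H f D)) 1) (u : PD.W) (l : ℝ) (hD : Dom u l)
    (h0 : 0 ≤ u.2.1) : Con F G H f u l := by
  have y1 : (chg u).2.2 ≤ 1 := by
    have := hD.y0
    have := sq_nonneg u.2.1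
    simp only [chg]
    linarith
  refine h _ (root_cov (fun a ha => rel_arrs _ F G H f D a (hP ▸ ha)) ok ⟨hD.z0.le, hD.z1.le⟩
    ⟨h0, hD.t1.le⟩ ⟨Y_nonneg hD, y1⟩) u l hD h0 (fun a ha => ?_) fun a ha => ?_
  · have : (arrs (P.wd b) F G H f D a).2 = D := by interval_cases a <;> rfl
    simp only [this, if_pos ha, mul_one, mul_div_assoc]
    rfl
  · have : (arrs (P.wd b) F G H f D a).2 = 1 := by
      obtain ⟨c, rfl⟩ := Nat.exists_eq_add_of_le' ha
      rcases c with _ | _ | c <;> rfl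
    simp only [this, if_neg (not_lt.2 ha)]
    push_cast
    rw [div_one, mul_assoc]
    rfl

end Pool.Agent.P.MP_2b44f0_gt.PD.Chk
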