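import Pool.Agent.P.MP_2b44f0_gt.PD.Pol

/-!
The coefficients of the certificate.
-/

namespace Pool.Agent.P.MP_2b44f0_gt.PD

/-- the first multiplier -/
def cF : Pol :=
  [(0, 0, 0, 19075072), (0, 0, 1, -8556544), (0, 0, 2, 56750080), (0, 0, 3, -62083072),
    (0, 2, 0, -42008576), (0, 2, 1, -54743040), (0, 2, 2, 19369984), (0, 4, 0, 83226624),
    (0, 4, 1, 70586368), (0, 6, 0, -44892160), (1, 0, 0, -40587264), (1, 0, 1, -85094400),
    (1, 0, 2, 227987456), (1, 0, 3, -115912704), (1, 2, 0, 273432576), (1, 2, 1, -371060736),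
    (1, 2, 2, 354402304), (1, 4, 0, -199340032), (1, 4, 1, 212475904), (2, 0, 0, 93949952),
    (2, 0, 1, -630210560), (2, 0, 2, 763392000), (2, 0, 3, -244973568), (2, 2, 0, 412098560),
    (2, 2, 1, 296538112), (2, 2, 2, 498118656), (2, 4, 0, -394481664), (3, 0, 0, 330313728),
    (3, 0, 1, -586571776), (3, 0, 2, 353824768), (3, 0, 3, -14749696), (3, 2, 0, -243154944),
    (3, 2, 1, 646422528), (4, 0, 0, 232235008), (4, 0, 1, -154411008), (4, 0, 2, 82501632),
    (4, 2, 0, -227893248)]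

/-- the second multiplier -/
def cG : Pol :=
  [(0, 0, 0, 211210240), (0, 0, 1, 209911808), (0, 0, 2, -157847552), (0, 0, 3, 243310592),
    (0, 1, 0, -176988160), (0, 1, 1, 600408064), (0, 1, 2, -981762048), (0, 1, 3, 240963584),
    (0, 2, 0, 154460160), (0, 2, 1, -88059904), (0, 2, 2, 82108416), (0, 3, 0, -683896832),
    (0, 3, 1, -1148047360), (0, 3, 2, 1004584960), (0, 4, 0, -173768704), (0, 4, 1, -94560256),
    (0, 5, 0, 672878592), (0, 5, 1, 1040408576), (0, 6, 0, 31596544), (1, 0, 0, 629829632),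
    (1, 0, 1, 224260096), (1, 0, 2, -1543192576), (1, 0, 3, 722313216), (1, 1, 0, -234823680),
    (1, 1, 1, 3508080640), (1, 1, 2, -3033460736), (1, 1, 3, 329388032), (1, 2, 0, -1390358528),
    (1, 2, 1, 1247502336), (1, 2, 2, 226611200), (1, 3, 0, -373899264), (1, 3, 1, -3907977216),
    (1, 3, 2, 811069440), (1, 4, 0, 964956160), (1, 4, 1, -637423616), (1, 5, 0, 513097728),
    (2, 0, 0, 125693952), (2, 0, 1, 2197381120), (2, 0, 2, -3911053312), (2, 0, 3, 1676775424),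
    (2, 1, 0, -690413568), (2, 1, 1, 1466740736), (2, 1, 2, -2236538880), (2, 1, 3, 439386112),
    (2, 2, 0, -452947968), (2, 2, 1, 416841728), (2, 2, 2, 307474432), (2, 3, 0, 898269184),
    (2, 3, 1, -1208254464), (2, 4, 0, 874287104), (3, 0, 0, -606961664), (3, 0, 1, 1707175936),
    (3, 0, 2, -656334848), (3, 0, 3, 637390848), (3, 1, 0, -503312384), (3, 1, 1, -236998656),
    (3, 1, 2, -1052282880), (3, 2, 0, 1502932992), (3, 2, 1, -874815488), (3, 3, 0, 1108017152),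
    (4, 0, 0, 12107776), (4, 0, 1, 199532544), (4, 0, 2, 666693632), (4, 1, 0, 432164864),
    (4, 1, 1, 183906304), (4, 2, 0, 461766656)]

/-- the test function -/
def cf : Pol :=
  [(0, 0, 1, -1029), (0, 0, 2, 7431), (0, 2, 0, 31373), (0, 2, 1, -9564), (0, 4, 0, -22522),
    (1, 0, 0, -4116), (1, 0, 1, -32235), (1, 0, 2, 18075), (1, 2, 0, -8398), (1, 2, 1, 14426),
    (2, 0, 0, 19010), (2, 0, 1, -16998), (2, 0, 2, -6109), (2, 2, 0, -24107)]

end Pool.Agent.P.MP_2b44f0_gt.PD
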