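import Pool.Agent.P.MP_2b44f0_gt.PD.CrudeA
import Pool.Agent.P.MP_2b44f0_gt.PD.Coef

/-!
The volume inequality for large curvatures.
-/

namespace Pool.Agent.P.MP_2b44f0_gt.PD

open Bn Pol

/-- the subdivision tree -/
def Crude.tr : Tr (ℕ × ℕ × ℕ) :=
  (.sp 0 (.sp 1 (.lf (1, 0, 0)) (.sp 2 (.lf (0, 0, 0)) (.sp 1 (.lf (0, 451, 0)) (.sp 1 (.lf (0,
  398, 0)) (.lf (0, 0, 0)))))) (.sp 0 (.sp 1 (.sp 1 (.lf (1, 0, 0)) (.lf (0, 0, 0))) (.sp 1 (.lf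
  (0, 0, 0)) (.sp 0 (.lf (0, 0, 0)) (.sp 1 (.lf (0, 0, 0)) (.sp 1 (.lf (0, 0, 0)) (.lf (0, 0,
  51798))))))) (.sp 0 (.sp 1 (.sp 2 (.sp 2 (.sp 2 (.sp 1 (.sp 0 (.lf (0, 0, 35883)) (.sp 2 (.lf
  (0, 0, 15025)) (.lf (0, 0, 0)))) (.lf (0, 0, 33641))) (.lf (0, 0, 0))) (.lf (0, 370, 0))) (.lf
  (0, 322, 0))) (.sp 1 (.lf (0, 0, 0)) (.sp 1 (.lf (0, 0, 0)) (.sp 1 (.lf (0, 0, 0)) (.sp 0 (.lf
  (0, 0, 34762)) (.sp 2 (.lf (0, 0, 14556)) (.sp 0 (.lf (0, 0, 29111)) (.lf (0, 0,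
  26761))))))))) (.sp 1 (.sp 2 (.sp 2 (.sp 2 (.sp 2 (.sp 2 (.sp 0 (.lf (0, 0, 6366)) (.lf (0, 0,
  5449))) (.sp 1 (.sp 0 (.lf (0, 0, 12731)) (.sp 2 (.sp 0 (.lf (0, 0, 8173)) (.lf (0, 0, 7586)))
  (.sp 0 (.lf (0, 0, 10897)) (.sp 0 (.lf (0, 0, 10115)) (.sp 1 (.sp 0 (.lf (0, 0, 9753)) (.lf
  (0, 0, 9579))) (.lf (0, 0, 9601))))))) (.lf (0, 0, 11936)))) (.sp 0 (.lf (0, 0, 25462)) (.sp 1
  (.sp 0 (.lf (0, 0, 21793)) (.sp 2 (.sp 2 (.lf (0, 0, 12644)) (.lf (0, 0, 15172))) (.lf (0, 0,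
  20229)))) (.lf (0, 0, 20431))))) (.lf (0, 0, 50924))) (.lf (0, 938, 0))) (.lf (0, 910, 0)))
  (.sp 1 (.sp 2 (.sp 2 (.sp 2 (.lf (0, 0, 19097)) (.lf (0, 0, 38193))) (.lf (0, 0, 76385))) (.lf
  (0, 0, 0))) (.sp 1 (.lf (0, 0, 0)) (.sp 1 (.lf (0, 0, 47741)) (.sp 2 (.lf (0, 0, 12333)) (.sp
  1 (.lf (0, 0, 24666)) (.lf (0, 0, 12532)))))))))))

theorem Crude.ok : Crude.chk ⟨80, 4, 8, 4, 5, 2 ^ 52⟩ 128 40 cF cG cf Crude.tr = true := by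
  decide +kernel

theorem Crude.deg : Vol.Deg cF cG cf := by
  unfold Vol.Deg
  decide +kernel

theorem vol_crude (μ : Fin (2 * 3) → ℝ) (w : W) (hw : Adm (2 * 3) μ w)
    (hk : w.2.1 ≤ w.2.2) (hz : (crd w).1 ≤ 1 / 8) :
    PD.vol 3 μ w.2.1 w.2.2 ≤ 2 / 3 + (Real.pi / 16 - 1 / 6) / 2 ^ 28 *
      ((6 - w.1) * (3 * (crd w).2.2 * ev cF (chg (crd w)) +
        (1 - (crd w).2.1) / 2 * ev cG (chg (crd w)) +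
        (1 + (crd w).2.1) / 2 * ev (rf cG) (chg (crd w))) +
        (w.1 - 25 / 4) * ev cf (chg (crd w)) ^ 2) :=
  Crude.vol_of Crude.deg Crude.ok μ w hw hk hz

end Pool.Agent.P.MP_2b44f0_gt.PD
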