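import Pool.Agent.P.MP_2b44f0_gt.PD.IfU

/-! Step ADM. -/

namespace Pool.Agent.P.MP_2b44f0_gt.PD

namespace ADMx

theorem bern {α : Type} [DecidableEq α] (x : α → ℝ) (h : ∀ i, 0 ≤ x i ∧ x i ≤ 1) (s : Finset α) :
    ∀ j : ℤ, 0 ≤ ∑ i ∈ s, x i * (1 - x i) + (∑ i ∈ s, x i - j) * (∑ i ∈ s, x i - j - 1) := by
  induction s using Finset.induction_on with
  | empty =>
    intro j
    have : (0 : ℤ) ≤ j * (j + 1) := by rcases le_or_gt 0 j with h | h <;> nlinarith
    have h2 : (0 : ℝ) ≤ j * (j + 1) := by exact_mod_cast this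
    simp only [Finset.sum_empty]
    linarith
  | insert a s ha ih =>
    intro j
    have h1 := mul_nonneg (sub_nonneg.2 (h a).2) (ih j)
    have h2 := mul_nonneg (h a).1 (ih (j - 1))
    rw [Finset.sum_insert ha, Finset.sum_insert ha]
    push_cast at h2
    linarith

end ADMx

theorem c_ADM : Q_ADM := by
  rintro μ ⟨S, k, k'⟩ ⟨h1, h2, h3, h4, h5, h6⟩ i
  simp only at h1 h2 h3 h4 h5 h6
  have hσ : 0 < k + k' := add_pos h5 h6
  have hx : ∀ i, 0 < (k + μ i) / (k + k') ∧ (k + μ i) / (k + k') < 1 := fun i =>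
    ⟨div_pos (h3 i) hσ, (div_lt_one hσ).2 (by linarith [h4 i])⟩
  have hS : 0 ≤ S := h2 ▸ Finset.sum_nonneg fun i _ => sq_nonneg _
  have e1 : ∑ j, (k + μ j) / (k + k') = 3 * (1 - (k' - k) / (k + k')) := by
    rw [← Finset.sum_div, Finset.sum_add_distrib, h1]
    simp
    field_simp
    ring
  have e2 : ∑ j, (k + μ j) / (k + k') * (1 - (k + μ j) / (k + k')) =
      3 / 2 * (1 - ((k' - k) / (k + k')) ^ 2 - 2 * S / (3 * (k + k') ^ 2)) := by
    have : ∀ j, (k + μ j) / (k + k') * (1 - (k + μ j) / (k + k')) =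
        (k * k' + (k' - k) * μ j - μ j ^ 2) / (k + k') ^ 2 := fun j => by field_simp; ring
    simp only [this, ← Finset.sum_div, Finset.sum_add_distrib, Finset.sum_sub_distrib,
      ← Finset.mul_sum, h1, h2]
    simp
    field_simp
    ring
  rw [← Finset.add_sum_erase _ _ (Finset.mem_univ i)] at e1 e2 h1 h2
  refine ⟨by simp only [crd]; positivity, ?_, ?_, ?_, by simp only [crd]; positivity,
    (hx i).1, (hx i).2, ?_, fun j => ?_, ?_⟩ <;> simp only [crd]
  · rw [div_lt_one (by positivity)]; linarith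
  · rw [lt_div_iff₀ hσ]; linarith
  · rw [div_lt_one hσ]; linarith
  · have := sq_sum_le_card_mul_sum_sq (s := Finset.univ.erase i) (f := μ)
    rw [Finset.card_erase_of_mem (Finset.mem_univ i)] at this
    have e3 : (k + μ i) / (k + k') - (1 - (k' - k) / (k + k')) / 2 = μ i / (k + k') := by
      field_simp; ring
    have e4 : 5 / 4 * (2 * S / (3 * (k + k') ^ 2)) = 5 / 6 * S / (k + k') ^ 2 := by field_simp; ring
    rw [e3, e4, div_pow]
    gcongr
    rw [show ∑ j ∈ Finset.univ.erase i, μ j = -μ i by linarith] at this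
    rw [show ∑ j ∈ Finset.univ.erase i, μ j ^ 2 = S - μ i ^ 2 by linarith] at this
    norm_num at this
    linarith
  · have := ADMx.bern (fun j => (k + μ j) / (k + k')) (fun j => ⟨(hx j).1.le, (hx j).2.le⟩)
      (Finset.univ.erase i) j
    rw [← e2, ← e1]
    linarith
  · rw [← e2]
    exact le_add_of_nonneg_right (Finset.sum_nonneg fun j _ =>
      mul_nonneg (hx j).1.le (sub_nonneg.2 (hx j).2.le))

end Pool.Agent.P.MP_2b44f0_gt.PD
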