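import Pool.Agent.P.MP_2b44f0_gt.PD.IfK

/-! Step MOMJ. -/

namespace Pool.Agent.P.MP_2b44f0_gt.PD

open MeasureTheory Set

namespace MOMJx

theorem gen (j : ℕ) (A c1 c2 c3 c4 c5 c6 : ℝ)
    (h : ∀ x : ℝ, A * (1 + x ^ 2) ^ 3 +
      (c1 + 2 * c2 * x + 3 * c3 * x ^ 2 + 4 * c4 * x ^ 3 + 5 * c5 * x ^ 4 + 6 * c6 * x ^ 5) *
        (1 + x ^ 2) -
      6 * x * (c1 * x + c2 * x ^ 2 + c3 * x ^ 3 + c4 * x ^ 4 + c5 * x ^ 5 + c6 * x ^ 6) =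
        48 * x ^ j) (k : ℝ) (hk : 0 < k) :
    ∫ ξ in (0 : ℝ)..k⁻¹, ξ ^ j / (1 + ξ ^ 2) ^ 4 = (A * Real.arctan k⁻¹ +
      (c1 * k ^ 5 + c2 * k ^ 4 + c3 * k ^ 3 + c4 * k ^ 2 + c5 * k + c6) / (1 + k ^ 2) ^ 3) / 48 := by
  have hd : ∀ x : ℝ, HasDerivAt (fun x : ℝ => (A * Real.arctan x +
      (c1 * x + c2 * x ^ 2 + c3 * x ^ 3 + c4 * x ^ 4 + c5 * x ^ 5 + c6 * x ^ 6) /
        (1 + x ^ 2) ^ 3) / 48) (x ^ j / (1 + x ^ 2) ^ 4) x := by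
    intro x
    have h0 : (1 + x ^ 2 : ℝ) ≠ 0 := by positivity
    have h1 : HasDerivAt (fun x : ℝ =>
        c1 * x + c2 * x ^ 2 + c3 * x ^ 3 + c4 * x ^ 4 + c5 * x ^ 5 + c6 * x ^ 6)
        (c1 + 2 * c2 * x + 3 * c3 * x ^ 2 + 4 * c4 * x ^ 3 + 5 * c5 * x ^ 4 + 6 * c6 * x ^ 5) x := by
      have := ((((((hasDerivAt_id' x).const_mul c1).add ((hasDerivAt_pow 2 x).const_mul c2)).add
        ((hasDerivAt_pow 3 x).const_mul c3)).add ((hasDerivAt_pow 4 x).const_mul c4)).add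
        ((hasDerivAt_pow 5 x).const_mul c5)).add ((hasDerivAt_pow 6 x).const_mul c6)
      refine this.congr_deriv ?_
      push_cast
      ring
    have h2 : HasDerivAt (fun x : ℝ => (1 + x ^ 2) ^ 3) (6 * x * (1 + x ^ 2) ^ 2) x := by
      have := ((hasDerivAt_pow 2 x).const_add 1).fun_pow 3
      refine this.congr_deriv ?_
      push_cast
      ring
    have h3 := (((Real.hasDerivAt_arctan x).const_mul A).add
      (h1.fun_div h2 (pow_ne_zero 3 h0))).div_const 48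
    refine h3.congr_deriv ?_
    have h4 : x ^ j = (A * (1 + x ^ 2) ^ 3 +
      (c1 + 2 * c2 * x + 3 * c3 * x ^ 2 + 4 * c4 * x ^ 3 + 5 * c5 * x ^ 4 + 6 * c6 * x ^ 5) *
        (1 + x ^ 2) -
      6 * x * (c1 * x + c2 * x ^ 2 + c3 * x ^ 3 + c4 * x ^ 4 + c5 * x ^ 5 + c6 * x ^ 6)) / 48 := by
      rw [h x]; ring
    rw [h4]
    field_simp
    ring
  have hc : Continuous fun x : ℝ => x ^ j / (1 + x ^ 2) ^ 4 :=
    Continuous.div (by fun_prop) (by fun_prop) fun x => by positivity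
  rw [intervalIntegral.integral_eq_sub_of_hasDerivAt (fun x _ => hd x) (hc.intervalIntegrable _ _),
    Real.arctan_zero]
  have h0 : (1 + k ^ 2 : ℝ) ≠ 0 := by positivity
  have h1 : (1 + k⁻¹ ^ 2 : ℝ) = (1 + k ^ 2) / k ^ 2 := by field_simp; ring
  rw [h1]
  field_simp
  ring

end MOMJx

theorem c_MOMJ :
    Q_MOMJ := by
  intro j hj k hk
  have ha : act k = Real.arctan k⁻¹ := by rw [Real.arctan_inv_of_pos hk]; rfl
  rw [mJ, ha]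
  interval_cases j
  · rw [MOMJx.gen 0 15 33 0 40 0 15 0 (fun x => by ring) k hk, mA, mR]; ring
  · rw [MOMJx.gen 1 0 0 24 0 24 0 8 (fun x => by ring) k hk, mR]; simp only [mA]; ring
  · rw [MOMJx.gen 2 3 (-3) 0 8 0 3 0 (fun x => by ring) k hk, mA, mR]; ring
  · rw [MOMJx.gen 3 0 0 0 0 12 0 4 (fun x => by ring) k hk, mR]; simp only [mA]; ring
  · rw [MOMJx.gen 4 3 (-3) 0 (-8) 0 3 0 (fun x => by ring) k hk, mA, mR]; ring
  · rw [MOMJx.gen 5 0 0 0 0 0 0 8 (fun x => by ring) k hk, mR]; simp only [mA]; ring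
  · rw [MOMJx.gen 6 15 (-15) 0 (-40) 0 (-33) 0 (fun x => by ring) k hk, mA, mR]; ring

end Pool.Agent.P.MP_2b44f0_gt.PD
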