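import Pool.Agent.P.MP_2b44f0_gt.PD.IfK

/-! Step VCRU. -/

namespace Pool.Agent.P.MP_2b44f0_gt.PD

open MeasureTheory Set

namespace VCRUx

theorem cont : Continuous fun ξ : ℝ => 1 / (1 + ξ ^ 2) ^ 4 :=
  continuous_const.div (by fun_prop) fun ξ => by positivity

theorem le_len {x : ℝ} (hx : 0 ≤ x) : ∫ ξ in (0 : ℝ)..x, 1 / (1 + ξ ^ 2) ^ 4 ≤ x := by
  have := intervalIntegral.integral_mono_on (μ := volume) hx (cont.intervalIntegrable 0 x)
    (continuous_const (y := (1 : ℝ)).intervalIntegrable 0 x) fun ξ _ =>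
      div_le_one_of_le₀ (one_le_pow₀ (by nlinarith [sq_nonneg ξ])) (by positivity)
  simpa using this

theorem le_pi (hMOMJ : Q_MOMJ) {k : ℝ} (hk : 0 < k) :
    ∫ ξ in (0 : ℝ)..k⁻¹, 1 / (1 + ξ ^ 2) ^ 4 ≤ 5 * Real.pi / 32 := by
  have hc : ContinuousAt (mJ 0) 0 := by
    unfold mJ act
    simp only [mA, mR]
    fun_prop (disch := norm_num)
  have h0 : mJ 0 0 = 5 * Real.pi / 32 := by
    simp [mJ, act, mA, mR]; ring
  rw [← h0]
  refine ge_of_tendsto (hc.tendsto.mono_left (nhdsWithin_le_nhds (s := Ioi 0))) ?_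
  filter_upwards [Ioc_mem_nhdsGT hk] with a ha
  rw [← hMOMJ 0 (by norm_num) a ha.1]
  simp only [pow_zero]
  exact intervalIntegral.integral_mono_interval le_rfl (inv_pos.2 hk).le (inv_anti₀ ha.1 ha.2)
    (Filter.Eventually.of_forall fun ξ => by positivity) (cont.intervalIntegrable _ _)

end VCRUx

open VCRUx in
theorem c_VCRU (hMOMJ : Q_MOMJ) :
    Q_VCRU := by
  intro k k' μ hk hk' hμ hs
  have h1 : vol 3 μ k k' ≤ ∫ ξ in (-k'⁻¹)..k⁻¹, 1 / (1 + ξ ^ 2) ^ 4 := by
    refine intervalIntegral.integral_mono_on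
      ((neg_nonpos.2 (inv_pos.2 hk').le).trans (inv_pos.2 hk).le)
      (Continuous.intervalIntegrable
        (Continuous.div (by fun_prop) (by fun_prop) fun ξ => by positivity) _ _)
      (cont.intervalIntegrable _ _) fun ξ hξ => div_le_div_of_nonneg_right ?_ (by positivity)
    refine (Finset.prod_le_prod (g := fun i => Real.exp (ξ * μ i)) (fun i _ => ?_)
      fun i _ => by linarith [Real.add_one_le_exp (ξ * μ i)]).trans ?_
    · rcases le_total 0 ξ with h | h
      · have := mul_le_mul_of_nonneg_left (hμ i).1 h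
        have := mul_le_mul_of_nonneg_right hξ.2 hk.le
        rw [inv_mul_cancel₀ hk.ne'] at this
        linarith
      · have := mul_le_mul_of_nonpos_left (hμ i).2 h
        have := mul_le_mul_of_nonneg_right hξ.1 hk'.le
        rw [neg_mul, inv_mul_cancel₀ hk'.ne'] at this
        linarith
    · rw [← Real.exp_sum, ← Finset.mul_sum, hs, mul_zero, Real.exp_zero]
  have h2 : ∫ ξ in (-k'⁻¹)..(0 : ℝ), 1 / (1 + ξ ^ 2) ^ 4 =
      ∫ ξ in (0 : ℝ)..k'⁻¹, 1 / (1 + ξ ^ 2) ^ 4 := by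
    have := intervalIntegral.integral_comp_neg (a := 0) (b := k'⁻¹)
      fun ξ : ℝ => 1 / (1 + ξ ^ 2) ^ 4
    simp only [neg_zero, neg_sq] at this
    exact this.symm
  rw [← intervalIntegral.integral_add_adjacent_intervals (b := 0) (cont.intervalIntegrable _ _)
    (cont.intervalIntegrable _ _), h2] at h1
  rcases le_total k k' with h | h
  · have : k'⁻¹ ≤ 2 / (k + k') := by
      rw [inv_eq_one_div, div_le_div_iff₀ hk' (by positivity)]; linarith
    linarith [le_pi hMOMJ hk, le_len (inv_pos.2 hk').le]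
  · have : k⁻¹ ≤ 2 / (k + k') := by
      rw [inv_eq_one_div, div_le_div_iff₀ hk (by positivity)]; linarith
    linarith [le_pi hMOMJ hk', le_len (inv_pos.2 hk).le]

end Pool.Agent.P.MP_2b44f0_gt.PD
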