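import Pool.Agent.P.MP_2b44f0_gt.PD.VolA
import Pool.Agent.P.MP_2b44f0_gt.PD.TVCRU
import Pool.Agent.P.MP_2b44f0_gt.PD.TMOMJ
import Pool.Agent.P.MP_2b44f0_gt.PD.TADM

/-!
The volume inequality for large curvatures: the checker.
-/

namespace Pool.Agent.P.MP_2b44f0_gt.PD.Crude

open Bn Pol Vol

/-- the state with `y = (1 - τ ^ 2) * v` -/
noncomputable def st (z t v : ℝ) : W := (2 * z - 1, t, (1 - t ^ 2) * (1 - v))

/-- `1 - τ ^ 2` -/
def om (W : Wd) : PV := (PV.a2 W 1 0).mul (PV.a2 W 1 2)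

/-- three times `Y` -/
def y3 (W : Wd) : PV := PV.smul 3 ((om W).mul (PV.a3 W 1 0))

/-- the linear part -/
def eP (W : Wd) (F G : Pol) : PV := evPV W F G (PV.a1 W (-1) 1) (PV.a2 W 0 3) (y3 W)

/-- the square -/
def qP (W : Wd) (f : Pol) : PV := (polPV W (PV.a1 W (-1) 1) (PV.a2 W 0 3) (y3 W) 4 f).pow 2

/-- the five arrays with their denominators -/
def arrs (W : Wd) (F G f : Pol) (a : ℕ) : PV × ℕ :=
  cond (Nat.beq a 0) (PV.add W (PV.smul (6561 * 2 ^ 28)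
      (PV.sub W (PV.cst 1184) ((PV.a1 W 0 3851).mul (PV.a2 W 2 1))))
      (PV.sub W (PV.smul 1800 (eP W F G)) (PV.smul 1250 (qP W f))), 1312200 * 2 ^ 28)
    (cond (Nat.beq a 1)
      (PV.sub W (PV.smul 2 (qP W f)) (PV.smul 3 (eP W F G)), 13122 * 2 ^ 28)
      (cond (Nat.beq a 2)
        (PV.smul 6 (((om W).mul (PV.a3 W 0 1)).mul ((PV.a1 W 1 0).pow 2)), 1)
        (cond (Nat.beq a 3) ((PV.a1 W 0 1).pow 2, 1)
          (PV.sub W (PV.smul 800 (om W)) (PV.a1 W 0 7701), 100))))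

/-- the functions represented by the arrays -/
noncomputable def vals (F G f : Pol) (a : ℕ) (z t v : ℝ) : ℝ :=
  cond (Nat.beq a 0) (1312200 * (2 ^ 28 * (592 / 100 - 3851 / 100 * (z * (1 - t / 2))) +
      (6 * Ev F G (st z t v) - 25 / 4 * ev f (st z t v) ^ 2)))
    (cond (Nat.beq a 1) (13122 * (ev f (st z t v) ^ 2 - Ev F G (st z t v)))
      (cond (Nat.beq a 2) (6 * ((1 - t ^ 2) * v * (1 - z) ^ 2))
        (cond (Nat.beq a 3) (z ^ 2) (800 * (1 - t ^ 2) - 7701 * z))))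

theorem rel_arrs (W : Wd) {F G f : Pol} (h : Deg F G f) (a : ℕ) :
    Rel W (arrs W F G f a).1 (vals F G f a) := by
  have hz : Rel W (PV.a1 W 0 1) fun z _ _ => z := (rel_a1 W 0 1).congr fun _ _ _ => by simp
  have ho : Rel W (PV.a1 W 1 0) fun z _ _ => 1 - z := (rel_a1 W 1 0).congr fun _ _ _ => by simp
  have hX : Rel W (PV.a1 W (-1) 1) fun z _ _ => 2 * z - 1 :=
    (rel_a1 W (-1) 1).congr fun _ _ _ => by push_cast; ring
  have hT : Rel W (PV.a2 W 0 3) fun _ t _ => 3 * t := (rel_a2 W 0 3).congr fun _ _ _ => by simp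
  have hm : Rel W (om W) fun _ t _ => 1 - t ^ 2 :=
    ((rel_a2 W 1 0).mul (rel_a2 W 1 2)).congr fun _ _ _ => by push_cast; ring
  have hY : Rel W (y3 W) fun _ t v => 3 * ((1 - t ^ 2) * (1 - v)) :=
    ((hm.mul (rel_a3 W 1 0)).smul 3).congr fun _ _ _ => by push_cast; ring
  have hs : ∀ z t v : ℝ, ((2 * z - 1, 3 * t / 3, 3 * ((1 - t ^ 2) * (1 - v)) / 3) : PD.W) =
      st z t v :=
    fun z x y => Prod.ext rfl (Prod.ext (by simp only [st]; ring) (by simp only [st]; ring))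
  have he : Rel W (eP W F G) fun z t v => 4374 * Ev F G (st z t v) :=
    (rel_ev hX hT hY h).congr fun _ _ _ => by rw [hs]
  have hq : Rel W (qP W f) fun z t v => 6561 * ev f (st z t v) ^ 2 :=
    ((rel_pol hX hT hY 4 f h.2.2).pow 2).congr fun _ _ _ => by rw [hs]; ring
  unfold arrs vals
  cases Nat.beq a 0
  swap
  · refine ((((rel_cst W 1184).sub ((rel_a1 W 0 3851).mul (rel_a2 W 2 1))).smul _).add
      ((he.smul 1800).sub (hq.smul 1250))).congr fun z x y => ?_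
    simp only [cond]; push_cast; ring
  cases Nat.beq a 1
  swap
  · refine ((hq.smul 2).sub (he.smul 3)).congr fun z x y => ?_
    simp only [cond]; push_cast; ring
  cases Nat.beq a 2
  swap
  · refine (((hm.mul (rel_a3 W 0 1)).mul (ho.pow 2)).smul 6).congr fun z x y => ?_
    simp only [cond]; push_cast; ring
  cases Nat.beq a 3
  swap
  · exact hz.pow 2
  · refine ((hm.smul 800).sub (rel_a1 W 0 7701)).congr fun z x y => ?_
    simp only [cond]; push_cast; ring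

/-- the inequality, affine in `S` -/
def Q (c : ℕ) (g : ℕ → ℝ) : Prop := ∀ S : ℝ, 0 ≤ S → 0 < g 3 → S * g 3 = g 2 →
  0 < g 0 + S * g 1 ∨ (0 < g 4 ∧ 0 < g 0 + c + S * g 1)

/-- the test for the affine function: `512 S` lies between the two numbers -/
def tst (P : Par) (N e : ℕ) (a : V) (p q : ℕ) : Bool :=
  (Nat.beq p 0 ||
      V.gt P e (V.add (V.smul 512 (getA P N 2)) (V.smul p (V.neg P (getA P N 3)))) 0) &&
    V.gt P e (V.add (V.smul 512 a) (V.smul p (getA P N 1))) 0 &&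
    (V.gt P e (getA P N 1) 0 ||
      (V.gt P e (V.add (V.smul 512 (V.neg P (getA P N 2))) (V.smul q (getA P N 3))) 0 &&
        V.gt P e (V.add (V.smul 512 a) (V.smul q (getA P N 1))) 0))

theorem tst_sound {P : Par} {N e p q : ℕ} {a : V} (h : tst P N e a p q = true) {g : ℕ → ℝ}
    {R : V → ℝ → Prop} (A : Alg P e R) {r S : ℝ} (a0 : R a r) (a1 : R (getA P N 1) (g 1))
    (a2 : R (getA P N 2) (g 2)) (a3 : R (getA P N 3) (g 3)) (h0 : 0 ≤ S) (h3 : 0 < g 3)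
    (hS : S * g 3 = g 2) : 0 < r + S * g 1 := by
  simp only [tst, Bool.and_eq_true, Bool.or_eq_true, Nat.beq_eq] at h
  obtain ⟨⟨h1, h2⟩, h4⟩ := h
  have k2 := A.gt 0 (A.add (A.smul 512 a0) (A.smul p a1)) h2
  have k1 : (p : ℝ) ≤ 512 * S := by
    rcases h1 with h1 | h1
    · rw [h1]; push_cast; linarith
    · have := A.gt 0 (A.add (A.smul 512 a2) (A.smul p (A.neg a3))) h1
      push_cast at this
      exact le_of_mul_le_mul_right (by linarith) h3
  push_cast at k2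
  rcases le_or_gt 0 (g 1) with hb | hb
  · linarith [mul_le_mul_of_nonneg_right k1 hb]
  · rcases h4 with h4 | ⟨h4, h5⟩
    · have := A.gt 0 a1 h4
      push_cast at this
      linarith
    · have k4 := A.gt 0 (A.add (A.smul 512 (A.neg a2)) (A.smul q a3)) h4
      have k5 := A.gt 0 (A.add (A.smul 512 a0) (A.smul q a1)) h5
      push_cast at k4 k5
      have k6 : 512 * S ≤ q := le_of_mul_le_mul_right (by linarith) h3
      linarith [mul_le_mul_of_nonpos_right k6 hb.le]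

/-- the test at a leaf -/
def leaf (P : Par) (c N e : ℕ) (d : ℕ × ℕ × ℕ) : Bool :=
  cond (Nat.beq d.1 0) (tst P N e (getA P N 0) d.2.1 d.2.2)
    (V.gt P e (getA P N 4) 0 && tst P N e (V.add (getA P N 0) (V.cst P c)) d.2.1 d.2.2)

theorem leaf_sound {P : Par} (hP : P.NA = 5) (c N e : ℕ) (d : ℕ × ℕ × ℕ)
    (h : leaf P c N e d = true) : Bn.Good P (Q c) N e := by
  intro g hg S h0 h3 hS
  obtain ⟨R, A, hA⟩ := hg.alg
  have a0 := hA 0 (by omega)
  have a1 := hA 1 (by omega)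
  have a2 := hA 2 (by omega)
  have a3 := hA 3 (by omega)
  unfold leaf at h
  cases h1 : Nat.beq d.1 0 <;> rw [h1] at h
  · simp only [cond, Bool.and_eq_true] at h
    exact Or.inr ⟨by simpa using A.gt 0 (hA 4 (by omega)) h.1,
      tst_sound h.2 A (A.add a0 (A.cst c)) a1 a2 a3 h0 h3 hS⟩
  · exact Or.inl (tst_sound h A a0 a1 a2 a3 h0 h3 hS)

/-- the whole check -/
def chk (P : Par) (b c : ℕ) (F G f : Pol) (t : Tr (ℕ × ℕ × ℕ)) : Bool :=
  Nat.beq P.NA 5 && rootOk P b c (arrs (P.wd b) F G f) && run P (leaf P (8 * 2 ^ c)) t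
    (sp P 0 (sp P 0 (sp P 0 (root P b c (arrs (P.wd b) F G f))).1).1).1 (1 + P.de + P.de + P.de)

theorem chk_sound {P : Par} {b c : ℕ} {F G f : Pol} {t : Tr (ℕ × ℕ × ℕ)} (h : Deg F G f)
    (ok : chk P b c F G f t = true) {z τ v : ℝ} (z0 : 0 < z) (z1 : z ≤ 1 / 8)
    (hτ : τ ∈ Set.Icc (0 : ℝ) 1) (hv : v ∈ Set.Icc (0 : ℝ) 1) {S : ℝ} (hS : 0 ≤ S)
    (e : S * z ^ 2 = 6 * ((1 - τ ^ 2) * v * (1 - z) ^ 2)) {R : ℝ}
    (hR : (6 - S) * Ev F G (st z τ v) + (S - 25 / 4) * ev f (st z τ v) ^ 2 = R) :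
    0 < 592 / 100 - 3851 / 100 * (z * (1 - τ / 2)) + R / 2 ^ 28 ∨
      (7701 * z < 800 * (1 - τ ^ 2) ∧ 0 < 14 + R / 2 ^ 28) := by
  simp only [chk, Bool.and_eq_true, Nat.beq_eq] at ok
  obtain ⟨⟨h1, h2⟩, h3⟩ := ok
  have c0 := root_covAt (fun a _ => rel_arrs (P.wd b) h a) h2 (x := z) ⟨z0.le, by linarith⟩ hτ hv
  have c1 := c0.sub (ax := 0) (s := false) (x' := 2 * z) (y' := τ) (z' := v)
    ⟨⟨by linarith, by linarith⟩, hτ, hv, by simp⟩
  have c2 := c1.sub (ax := 0) (s := false) (x' := 4 * z) (y' := τ) (z' := v)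
    ⟨⟨by linarith, by linarith⟩, hτ, hv, by simp; ring⟩
  have c3 := c2.sub (ax := 0) (s := false) (x' := 8 * z) (y' := τ) (z' := v)
    ⟨⟨by linarith, by linarith⟩, hτ, hv, by simp; ring⟩
  have k := run_sound (leaf_sound h1 _) t _ _ h3 _ ⟨_, _, _, c3⟩ S hS
  have p : (0 : ℝ) < 2 ^ c := by positivity
  simp only [arrs, vals, Nat.beq, cond, Nat.reduceBEq] at k
  have k' := k (by positivity) (by push_cast; rw [← e]; ring)
  push_cast at k'
  subst hR
  refine k'.imp (fun k => (mul_pos_iff_of_pos_right p).1 (k.trans_eq (by ring))) fun k => ⟨?_, ?_⟩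
  · exact sub_pos.1 ((mul_pos_iff_of_pos_right p).1 ((div_pos_iff_of_pos_right
      (by norm_num)).1 k.1))
  · have : 0 < (1392 / 100 - 3851 / 100 * (z * (1 - τ / 2)) + ((6 - S) * Ev F G (st z τ v) +
      (S - 25 / 4) * ev f (st z τ v) ^ 2) / 2 ^ 28) * 2 ^ c := k.2.trans_eq (by ring)
    linarith [(mul_pos_iff_of_pos_right p).1 this,
      mul_nonneg z0.le (show 0 ≤ 1 - τ / 2 by linarith [hτ.2])]

open VCRUx in
theorem vol_le {k k' : ℝ} {μ : Fin (2 * 3) → ℝ} (hk : 0 < k) (hk' : 0 < k')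
    (hμ : ∀ i, μ i ∈ Set.Icc (-k) k') (hs : ∑ i, μ i = 0) :
    PD.vol 3 μ k k' ≤ 5 * Real.pi / 32 + k'⁻¹ ∧ PD.vol 3 μ k k' ≤ k⁻¹ + k'⁻¹ := by
  have h1 : PD.vol 3 μ k k' ≤ ∫ ξ in (-k'⁻¹)..k⁻¹, 1 / (1 + ξ ^ 2) ^ 4 := by
    refine intervalIntegral.integral_mono_on
      ((neg_nonpos.2 (inv_pos.2 hk').le).trans (inv_pos.2 hk).le)
      (Continuous.intervalIntegrable
        (Continuous.div (by fun_prop) (by fun_prop) fun ξ => by positivity) _ _)
      (cont.intervalIntegrable _ _) fun ξ hξ => div_le_div_of_nonneg_right ?_ (by positivity)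
    refine (Finset.prod_le_prod (g := fun i => Real.exp (ξ * μ i)) (fun i _ => ?_)
      fun i _ => by linarith [Real.add_one_le_exp (ξ * μ i)]).trans ?_
    · rcases le_total 0 ξ with h | h
      · have := mul_le_mul_of_nonneg_left (hμ i).1 h
        have := mul_le_mul_of_nonneg_right hξ.2 hk.le
        rw [inv_mul_cancel₀ hk.ne'] at this
        linarith
      · have := mul_le_mul_of_nonpos_left (hμ i).2 h
        have := mul_le_mul_of_nonneg_right hξ.1 hk'.le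
        rw [neg_mul, inv_mul_cancel₀ hk'.ne'] at this
        linarith
    · rw [← Real.exp_sum, ← Finset.mul_sum, hs, mul_zero, Real.exp_zero]
  have h2 : ∫ ξ in (-k'⁻¹)..(0 : ℝ), 1 / (1 + ξ ^ 2) ^ 4 =
      ∫ ξ in (0 : ℝ)..k'⁻¹, 1 / (1 + ξ ^ 2) ^ 4 := by
    have := intervalIntegral.integral_comp_neg (a := 0) (b := k'⁻¹)
      fun ξ : ℝ => 1 / (1 + ξ ^ 2) ^ 4
    simp only [neg_zero, neg_sq] at this
    exact this.symm
  rw [← intervalIntegral.integral_add_adjacent_intervals (b := 0) (cont.intervalIntegrable _ _)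
    (cont.intervalIntegrable _ _), h2] at h1
  exact ⟨by linarith [le_pi c_MOMJ hk, le_len (inv_pos.2 hk').le],
    by linarith [le_len (inv_pos.2 hk).le, le_len (inv_pos.2 hk').le]⟩

theorem vol_of {P : Par} {b c : ℕ} {F G f : Pol} {t : Tr (ℕ × ℕ × ℕ)} (h : Deg F G f)
    (ok : chk P b c F G f t = true) (μ : Fin (2 * 3) → ℝ) (w : W) (hw : Adm (2 * 3) μ w)
    (hk : w.2.1 ≤ w.2.2) (hz : (crd w).1 ≤ 1 / 8) :
    PD.vol 3 μ w.2.1 w.2.2 ≤ 2 / 3 + (Real.pi / 16 - 1 / 6) / 2 ^ 28 *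
      ((6 - w.1) * (3 * (crd w).2.2 * ev F (chg (crd w)) +
        (1 - (crd w).2.1) / 2 * ev G (chg (crd w)) +
        (1 + (crd w).2.1) / 2 * ev (rf G) (chg (crd w))) +
        (w.1 - 25 / 4) * ev f (chg (crd w)) ^ 2) := by
  have hD := c_ADM μ w hw 0
  have hσ : 0 < w.2.1 + w.2.2 := add_pos hw.k1 hw.k2
  obtain ⟨h1, h2⟩ := vol_le hw.k1 hw.k2
    (fun i => ⟨by linarith [hw.lo i], by linarith [hw.hi i]⟩) hw.sum
  have e6 : w.2.2⁻¹ * (1 + (crd w).2.1) = 2 / (w.2.1 + w.2.2) := by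
    have := hw.k2
    simp only [crd]; field_simp; ring
  have p2 := inv_pos.2 hw.k2
  have e0 : (w.2.1⁻¹ + w.2.2⁻¹) * (1 - (crd w).2.1 ^ 2) = 2 * (2 / (w.2.1 + w.2.2)) := by
    have := hw.k1; have := hw.k2
    simp only [crd]; field_simp; ring
  have hS : 0 ≤ w.1 := hw.sq ▸ Finset.sum_nonneg fun i _ => sq_nonneg _
  have t0 : 0 ≤ (crd w).2.1 := div_nonneg (sub_nonneg.2 hk) hσ.le
  have e1 : 2 / (w.2.1 + w.2.2) * (1 - (crd w).1) = (crd w).1 := by
    simp only [crd]; field_simp; ring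
  have e2 : w.1 * (crd w).1 ^ 2 = 6 * ((crd w).2.2 * (1 - (crd w).1) ^ 2) := by
    simp only [crd]; field_simp; ring
  have p1 : 0 < 2 / (w.2.1 + w.2.2) := by positivity
  obtain ⟨z0, -, -, t1, y0, l0, l1, -, -, top⟩ := hD
  generalize crd w = u at *
  obtain ⟨z, τ, y⟩ := u
  simp only at *
  have o : 0 < 1 - τ ^ 2 := by nlinarith
  have y1 : y ≤ 1 - τ ^ 2 := by linarith [mul_pos l0 (sub_pos.2 l1)]
  have e3 : (1 - τ ^ 2) * (y / (1 - τ ^ 2)) = y := by field_simp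
  have k := chk_sound h ok z0 hz ⟨t0, t1.le⟩ (v := y / (1 - τ ^ 2))
    ⟨by positivity, (div_le_one o).2 y1⟩ hS (by rw [e3, e2]) rfl
  have e4 : st z τ (y / (1 - τ ^ 2)) = chg (z, τ, y) :=
    Prod.ext rfl (Prod.ext rfl (by simp only [st, chg]; linarith))
  rw [e4] at k
  have e5 : Ev F G (chg (z, τ, y)) = 3 * y * ev F (chg (z, τ, y)) +
      (1 - τ) / 2 * ev G (chg (z, τ, y)) + (1 + τ) / 2 * ev (rf G) (chg (z, τ, y)) := by
    simp only [Ev]
    generalize ev F _ = A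
    simp only [chg]
    ring
  rw [← e5]
  generalize (6 - w.1) * Ev F G (chg (z, τ, y)) + (w.1 - 25 / 4) * ev f (chg (z, τ, y)) ^ 2 = R
    at *
  have q1 := Real.pi_gt_d6
  have q2 := Real.pi_lt_d6
  have p0 : 0 < Real.pi / 16 - 1 / 6 := by linarith
  have k3 : 2 / (w.2.1 + w.2.2) ≤ 8 / 7 * z := by nlinarith
  rw [div_mul_comm, mul_comm]
  rcases k with k | ⟨k0, k⟩
  · have k4 : w.2.2⁻¹ ≤ 8 / 7 * (z * (1 - τ / 2)) :=
      le_of_mul_le_mul_right (by nlinarith [mul_nonneg z0.le (mul_nonneg t0 (sub_pos.2 t1).le)])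
        (show 0 < 1 + τ by linarith)
    nlinarith [mul_pos p0 k, mul_le_mul_of_nonneg_right q1.le
      (mul_nonneg z0.le (show 0 ≤ 1 - τ / 2 by linarith))]
  · have k4 : w.2.1⁻¹ + w.2.2⁻¹ ≤ 1 / 4 := le_of_mul_le_mul_right (by linarith) o
    nlinarith [mul_pos p0 k]

end Pool.Agent.P.MP_2b44f0_gt.PD.Crude
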