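import Pool.Agent.P.MP_2b44f0_gt.Defs

/-!
Minimal cones that are smooth and embedded away from the vertex.
-/

namespace Pool.Agent.P.MP_2b44f0_gt

variable {ι : Type} [Fintype ι]

/-- `C` is a closed cone, not contained in a hyperplane, which away from the origin is the regular
zero set of a function `F` that is smooth on the open set `U`, and has mean curvature zero -/
structure SmoothCone (C U : Set (EuclideanSpace ℝ ι)) (F : EuclideanSpace ℝ ι → ℝ) : Prop where
  closed : IsClosed C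
  cone : ∀ x ∈ C, ∀ t : ℝ, 0 < t → t • x ∈ C
  nonflat : ∀ ω : EuclideanSpace ℝ ι, ω ≠ 0 → ∃ x ∈ C, inner ℝ ω x ≠ 0
  chart : IsChart C U F
  smooth : ContDiffOn ℝ (⊤ : ℕ∞) F U
  cover : ∀ x ∈ C, x ≠ 0 → x ∈ U
  minimal : ∀ x ∈ C, x ≠ 0 → meanCurv F x = 0

end Pool.Agent.P.MP_2b44f0_gt
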