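import Pool.Agent.P.MP_2b44f0_gt.PD.Defs

/-!
Stability of a minimal cone.
-/

namespace Pool.Agent.P.MP_2b44f0_gt

open MeasureTheory

variable {ι : Type} [Fintype ι]

/-- the second variation of the `d`-dimensional area is nonnegative: `∫ |A|² φ² ≤ ∫ |∇φ|²` over
`C`, for all `C¹` functions `φ` with compact support away from the vertex -/
def Stable (d : ℕ) (C : Set (EuclideanSpace ℝ ι)) (F : EuclideanSpace ℝ ι → ℝ) : Prop :=
  ∀ φ : EuclideanSpace ℝ ι → ℝ, ContDiff ℝ 1 φ → HasCompactSupport φ → 0 ∉ tsupport φ →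
    ∫ y in C, sqCurv F y * φ y ^ 2 ∂Measure.euclideanHausdorffMeasure d ≤
      ∫ y in C, ‖tangentProj F y (gradient φ y)‖ ^ 2 ∂Measure.euclideanHausdorffMeasure d

end Pool.Agent.P.MP_2b44f0_gt
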