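import Pool.Agent.P.MP_2b44f0_gt.PD.DefsB

/-!
Area minimizing boundaries.
-/

namespace Pool.Agent.P.MP_2b44f0_gt

open MeasureTheory

variable {ι : Type} [Fintype ι]

/-- the boundary of `E` has least `d`-dimensional area in every compact set `K` among the
boundaries of the open sets that agree with `E` outside `K` -/
def AreaMin (d : ℕ) (E : Set (EuclideanSpace ℝ ι)) : Prop :=
  ∀ K E' : Set (EuclideanSpace ℝ ι), IsCompact K → IsOpen E' → E' \ K = E \ K →
    Measure.euclideanHausdorffMeasure d (frontier E ∩ K) ≤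
      Measure.euclideanHausdorffMeasure d (frontier E' ∩ K)

/-- near `x` the set `E` is `{F > 0}` for a smooth function `F` without critical points -/
def SmoothSide (E : Set (EuclideanSpace ℝ ι)) (x : EuclideanSpace ℝ ι) : Prop :=
  ∃ (U : Set (EuclideanSpace ℝ ι)) (F : EuclideanSpace ℝ ι → ℝ), IsOpen U ∧ x ∈ U ∧
    ContDiffOn ℝ (⊤ : ℕ∞) F U ∧ (∀ y ∈ U, gradient F y ≠ 0) ∧ ∀ y ∈ U, (y ∈ E ↔ 0 < F y)

end Pool.Agent.P.MP_2b44f0_gt
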