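import Pool.Agent.P.MP_2b44f0_gt.PD.IfU
import Pool.Agent.P.MP_2b44f0_gt.PD.TINT

/-! Step CHG. -/

namespace Pool.Agent.P.MP_2b44f0_gt.PD

open Set

namespace CHGx

/-- the open set -/
def Om : Set W := {w | 0 < w.2.1 + w.2.2}

theorem isOpen_Om : IsOpen Om := isOpen_lt continuous_const (by fun_prop)

theorem c_sig : ContDiff ℝ 1 fun w : W => w.2.1 + w.2.2 := by fun_prop

theorem c_crd : ContDiffOn ℝ 1 crd Om := by
  refine ContDiffOn.prodMk (contDiffOn_const.div (by fun_prop) fun w hw => ?_)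
    (ContDiffOn.prodMk (ContDiffOn.div (by fun_prop) (by fun_prop) fun w hw => ?_)
      (ContDiffOn.div (by fun_prop) (by fun_prop) fun w hw => ?_)) <;>
  · have : 0 < w.2.1 + w.2.2 := hw
    positivity

theorem line {G : Type} [NormedAddCommGroup G] [NormedSpace ℝ G] {f : W → G} {w : W}
    (hf : ContDiffOn ℝ 1 f Om) (hw : w ∈ Om) (v : W) :
    HasDerivAt (fun t : ℝ => f (w + t • v)) (fderiv ℝ f w v) 0 :=
  ((hf.contDiffAt (isOpen_Om.mem_nhds hw)).differentiableAt one_ne_zero).hasFDerivAt.hasLineDerivAt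
    v

/-- the rescaled vector -/
noncomputable def sc (w v : W) : W :=
  (v.1 / (w.2.1 + w.2.2) ^ 2, v.2.1 / (w.2.1 + w.2.2), v.2.2 / (w.2.1 + w.2.2))

theorem d1 (w v : W) : HasDerivAt (fun t : ℝ => (w + t • v).1) v.1 0 := by
  simpa using ((hasDerivAt_id (0 : ℝ)).mul_const v.1).const_add w.1

theorem d2 (w v : W) : HasDerivAt (fun t : ℝ => (w + t • v).2.1) v.2.1 0 := by
  simpa using ((hasDerivAt_id (0 : ℝ)).mul_const v.2.1).const_add w.2.1

theorem d3 (w v : W) : HasDerivAt (fun t : ℝ => (w + t • v).2.2) v.2.2 0 := by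
  simpa using ((hasDerivAt_id (0 : ℝ)).mul_const v.2.2).const_add w.2.2

theorem d_crd {w : W} (hw : w ∈ Om) (v : W) :
    HasDerivAt (fun t : ℝ => crd (w + t • v)) (dir (crd w) (sc w v)) 0 := by
  have h0 : 0 < w.2.1 + w.2.2 := hw
  have hs := (d2 w v).fun_add (d3 w v)
  have a1 := (hasDerivAt_const (0 : ℝ) (2 : ℝ)).fun_div (hs.const_add 2) (by simp; positivity)
  have a2 := ((d3 w v).fun_sub (d2 w v)).fun_div hs (by simpa using h0.ne')
  have a3 := ((d1 w v).const_mul 2).fun_div ((hs.fun_pow 2).const_mul 3) (by simpa using h0.ne')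
  refine (a1.prodMk (a2.prodMk a3)).congr_deriv ?_
  simp only [dir, crd, sc, zero_smul, add_zero]
  push_cast
  refine Prod.ext ?_ (Prod.ext ?_ ?_) <;> dsimp only <;> field_simp <;> ring

theorem d_comp {A : W → ℝ} (hA : ContDiff ℝ 1 A) {w : W} (hw : w ∈ Om) (v : W) :
    HasDerivAt (fun t : ℝ => A (crd (w + t • v))) (dot (gr A (crd w)) (dir (crd w) (sc w v))) 0 := by
  rw [← INTx.fd_eq]
  exact HasFDerivAt.comp_hasDerivAt_of_eq 0 (hA.differentiable one_ne_zero _).hasFDerivAt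
    (d_crd hw v) (by simp)

/-- a smooth positive majorant of the identity -/
noncomputable def up (δ t : ℝ) : ℝ := (t + √(t ^ 2 + δ ^ 2)) / 2

theorem up_pos {δ : ℝ} (hδ : 0 < δ) (t : ℝ) : 0 < up δ t ∧ t ≤ up δ t := by
  have := abs_lt.1 (Real.lt_sqrt_of_sq_lt (show |t| ^ 2 < t ^ 2 + δ ^ 2 by
    rw [sq_abs]; nlinarith))
  unfold up
  constructor <;> linarith [this.1, this.2]

theorem up_le {δ t : ℝ} (hδ : 0 < δ) (ht : 0 ≤ t) : up δ t ≤ t + δ := by
  have : √(t ^ 2 + δ ^ 2) ≤ t + δ := Real.sqrt_le_iff.2 ⟨by positivity, by nlinarith⟩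
  unfold up
  linarith

end CHGx

open CHGx in
theorem c_CHG (hADM : Q_ADM) : Q_CHG := by
  intro V₀ A₀ A₁ A₂ g h δ hδ
  have hδ' : 0 < δ / 7 := by positivity
  have ca : ContDiffOn ℝ 1 (fun w : W => ((A₀ (crd w) / (w.2.1 + w.2.2) ^ 2,
      A₁ (crd w) / (w.2.1 + w.2.2), A₂ (crd w) / (w.2.1 + w.2.2)) : W)) Om := by
    refine ContDiffOn.prodMk ((h.c0.comp_contDiffOn c_crd).div (by fun_prop) fun w hw => ?_)
      (ContDiffOn.prodMk ((h.c1.comp_contDiffOn c_crd).div (by fun_prop) fun w hw => ?_)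
        ((h.c2.comp_contDiffOn c_crd).div (by fun_prop) fun w hw => ?_)) <;>
    · have : 0 < w.2.1 + w.2.2 := hw
      positivity
  have cg := h.cg.comp_contDiffOn c_crd
  have cf : ContDiffOn ℝ 1 (fun w : W => √(up (δ / 7) (g (crd w)))) Om :=
    ContDiffOn.sqrt ((cg.add (((cg.pow 2).add contDiffOn_const).sqrt fun w _ => by
      positivity)).div_const 2) fun w _ => (up_pos hδ' _).1.ne'
  refine ⟨Om, _, _, isOpen_Om, fun w _ h1 h2 _ => add_pos h1 h2, ca, cf, fun μ w hw => ?_,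
    fun μ w hw i v hv => ?_, fun μ w hw => ?_⟩
  · have h0 := add_pos hw.k1 hw.k2
    obtain ⟨p0, p1, p2, -⟩ := h.pos _ _ (hADM μ w hw 0)
    exact ⟨by positivity, by positivity, by positivity⟩
  · have h0 := add_pos hw.k1 hw.k2
    have hD := hADM μ w hw i
    have hg := (h.pos _ _ hD).2.2.2
    obtain ⟨u1, u2⟩ := up_pos hδ' (g (crd w))
    have hs := (d2 w v).fun_add (d3 w v)
    have e1 := (line ca h0 v).unique ((((d_comp h.c0 h0 v).fun_div (hs.fun_pow 2)
      (by simpa using h0.ne')).prodMk (((d_comp h.c1 h0 v).fun_div hs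
        (by simpa using h0.ne')).prodMk ((d_comp h.c2 h0 v).fun_div hs (by simpa using h0.ne')))))
    have dg := d_comp h.cg h0 v
    have e2 := (line cf h0 v).unique (((dg.fun_add (((dg.fun_pow 2).add_const
      ((δ / 7) ^ 2)).sqrt (by positivity))).div_const 2).sqrt (by simpa [up] using u1.ne'))
    have hl := h.lmi _ _ hD (sc w v) (-dot (gr g (crd w)) (dir (crd w) (sc w v)) /
      (2 * up (δ / 7) (g (crd w)))) fun hy => by
        have : w.1 = 0 := by simpa [crd, h0.ne'] using hy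
        simp [sc, hv this]
    rw [e1, e2]
    simp only [zero_smul, add_zero]
    generalize dot (gr g (crd w)) (dir (crd w) (sc w v)) = d at *
    generalize dot (gr A₀ (crd w)) (dir (crd w) (sc w v)) = d₀ at *
    generalize dot (gr A₁ (crd w)) (dir (crd w) (sc w v)) = d₁ at *
    generalize dot (gr A₂ (crd w)) (dir (crd w) (sc w v)) = d₂ at *
    have l1 := (hw.lo i).ne'
    have l2 := (hw.hi i).ne'
    refine le_trans (b := qf (A₀ (crd w)) (A₁ (crd w)) (A₂ (crd w)) d₀ d₁ d₂ (crd w)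
      ((w.2.1 + μ i) / (w.2.1 + w.2.2)) (sc w v)) ?_ (le_of_eq ?_)
    · generalize g (crd w) = G at *
      have r0 : 0 < √(G ^ 2 + (δ / 7) ^ 2) := by positivity
      have r1 : G ≤ √(G ^ 2 + (δ / 7) ^ 2) := Real.le_sqrt_of_sq_le (by nlinarith)
      change ((d + _ / (2 * √(G ^ 2 + (δ / 7) ^ 2))) / 2 / (2 * √(up (δ / 7) G))) ^ 2 ≤ _
      generalize √(G ^ 2 + (δ / 7) ^ 2) = R at *
      generalize up (δ / 7) G = H at *
      rw [div_pow, mul_pow, Real.sq_sqrt u1.le]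
      have r2 : ((d + ((2 : ℕ) : ℝ) * G ^ (2 - 1) * d / (2 * R)) / 2) ^ 2 ≤ d ^ 2 := by
        have : (d + ((2 : ℕ) : ℝ) * G ^ (2 - 1) * d / (2 * R)) / 2 = d * ((1 + G / R) / 2) := by
          push_cast; field_simp
        rw [this, mul_pow]
        have h3 : G / R ≤ 1 := (div_le_one r0).2 r1
        have h4 : 0 ≤ G / R := by positivity
        exact mul_le_of_le_one_right (sq_nonneg _) (by nlinarith)
      have r3 : (-d / (2 * H)) ^ 2 * G ≤ (-d / (2 * H)) ^ 2 * H := by gcongr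
      have r4 : -d / (2 * H) * d + (-d / (2 * H)) ^ 2 * H = -(d ^ 2 / (2 ^ 2 * H)) := by
        field_simp; ring
      have r5 := div_le_div_of_nonneg_right r2 (show 0 ≤ 2 ^ 2 * H by positivity)
      linarith
    · generalize A₀ (crd w) = a₀
      generalize A₁ (crd w) = a₁
      generalize A₂ (crd w) = a₂
      have k1 : (crd w).2.2 + ((w.2.1 + μ i) / (w.2.1 + w.2.2) - (1 - (crd w).2.1) / 2) ^ 2 =
          2 / 3 * (w.1 + 3 / 2 * μ i ^ 2) / (w.2.1 + w.2.2) ^ 2 := by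
        simp only [crd]; field_simp; ring
      have k2 : 1 - (w.2.1 + μ i) / (w.2.1 + w.2.2) = (w.2.2 - μ i) / (w.2.1 + w.2.2) := by
        field_simp; ring
      simp only [qf, k1, k2, sc, dot]
      rw [show (2 : ℝ) * ((3 : ℕ) : ℝ) / (((3 : ℕ) : ℝ) + 1) = 3 / 2 by norm_num]
      generalize w.1 + 3 / 2 * μ i ^ 2 = T
      rcases eq_or_ne T 0 with rfl | hT
      · simp only [mul_zero, zero_div, div_zero]
        push_cast; field_simp; ring
      · push_cast; field_simp; ring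
  · have h0 := add_pos hw.k1 hw.k2
    have hg := (h.pos _ _ (hADM μ w hw 0)).2.2.2
    obtain ⟨u1, u2⟩ := up_pos hδ' (g (crd w))
    have u3 := up_le hδ' hg
    have hS := (INTx.adm_le hw).1
    refine (h.vol μ w hw).trans ?_
    rw [Real.sq_sqrt u1.le]
    have : dot (A₀ (crd w) / (w.2.1 + w.2.2) ^ 2, A₁ (crd w) / (w.2.1 + w.2.2),
        A₂ (crd w) / (w.2.1 + w.2.2)) (2 * w.1, w.2.1, w.2.2) = 3 * (crd w).2.2 * A₀ (crd w) +
        (1 - (crd w).2.1) / 2 * A₁ (crd w) + (1 + (crd w).2.1) / 2 * A₂ (crd w) := by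
      generalize A₀ (crd w) = a₀
      generalize A₁ (crd w) = a₁
      generalize A₂ (crd w) = a₂
      simp only [dot, crd]; field_simp; ring
    rw [this]
    push_cast
    nlinarith [mul_nonneg hS (sub_nonneg.2 u2)]

end Pool.Agent.P.MP_2b44f0_gt.PD
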