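import Pool.Agent.P.MP_2b44f0_gt.PD.AllC
import Pool.Agent.P.MP_2b44f0_gt.PD.TADM
import Pool.Agent.P.MP_2b44f0_gt.PD.TCHG
import Pool.Agent.P.MP_2b44f0_gt.Upper
import Pool.Agent.P.MP_2b44f0_gt.Lin
import Pool.Agent.P.MP_2b44f0_gt.SimGeo

/-!
From a certificate to the density bound in dimension eight.
-/

namespace Pool.Agent.P.MP_2b44f0_gt.PD

open MeasureTheory Set Filter
open scoped ENNReal Topology

theorem J_three : J 3 = ENNReal.ofReal (2 / 3) := by
  have hc : Continuous fun ξ : ℝ => (1 - ξ ^ 2) ^ 3 / (1 + ξ ^ 2) ^ (3 + 1) :=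
    Continuous.div (by fun_prop) (by fun_prop) fun ξ => by positivity
  rw [J, ← ofReal_integral_eq_lintegral_ofReal
    (hc.integrableOn_Icc.mono_set Ioo_subset_Icc_self)
    ((ae_restrict_mem measurableSet_Ioo).mono fun ξ h => div_nonneg
      (pow_nonneg (by nlinarith [h.1, h.2]) _) (by positivity)),
    ← integral_Ioc_eq_integral_Ioo, ← intervalIntegral.integral_of_le (by norm_num),
    intervalIntegral.integral_eq_sub_of_hasDerivAt
      (f := fun ξ : ℝ => ξ / (1 + ξ ^ 2) - 4 / 3 * (ξ / (1 + ξ ^ 2)) ^ 3) (fun ξ _ => ?_)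
      (hc.intervalIntegrable _ _)]
  · norm_num
  · have h0 : (1 + ξ ^ 2 : ℝ) ≠ 0 := by positivity
    have h1 := (hasDerivAt_id' ξ).fun_div ((hasDerivAt_pow 2 ξ).const_add 1) h0
    refine (h1.fun_sub ((h1.fun_pow 3).const_mul (4 / 3))).congr_deriv ?_
    push_cast
    field_simp
    ring

theorem fin_stable {V₀ : ℝ} (hV : 0 < V₀) {A₀ A₁ A₂ g : W → ℝ} (hc : CertU V₀ A₀ A₁ A₂ g)
    {C U : Set (E (Fin (3 + 1) ⊕ Fin (3 + 1)))} {F : E (Fin (3 + 1) ⊕ Fin (3 + 1)) → ℝ}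
    (h : SmoothCone C U F) (hs : Stable 7 C F) :
    ENNReal.ofReal (2 / 3 / V₀) * density 7 (simons 3) ≤ density 7 C := by
  have hst : St (2 * 3) C U F := ⟨h, by simp, by norm_num⟩
  have h1 : ∀ δ : ℝ, 0 < δ → J 3 * μHE[7] (simons 3 ∩ Metric.ball 0 1) ≤
      ENNReal.ofReal (V₀ + δ) * μHE[7] (C ∩ Metric.ball 0 1) := fun δ hδ => by
    obtain ⟨Ω, a, f, hf⟩ := c_CHG c_ADM V₀ A₀ A₁ A₂ g hc δ hδ
    exact (all_upper (all_tube all_shape) all_polar all_line all_cover all_simGeo all_linEq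
      all_shape 3).trans (a_MASTER _ 3 C U F hst hs _ Ω a f hf)
  have h2 : Tendsto (fun δ : ℝ => ENNReal.ofReal (V₀ + δ) * μHE[7] (C ∩ Metric.ball 0 1)) (𝓝[>] 0)
      (𝓝 (ENNReal.ofReal V₀ * μHE[7] (C ∩ Metric.ball 0 1))) := by
    refine ENNReal.Tendsto.mul_const (Tendsto.mono_left ?_ nhdsWithin_le_nhds)
      (Or.inl (by simpa using hV))
    simpa [Function.comp_def] using
      (ENNReal.continuous_ofReal.comp (continuous_const_add V₀)).tendsto 0
  have h3 := ge_of_tendsto h2 (eventually_nhdsWithin_of_forall h1)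
  rw [density, density, ← mul_div_assoc]
  refine ENNReal.div_le_div_right ?_ _
  rw [← ENNReal.mul_le_mul_iff_right (a := ENNReal.ofReal V₀) (by simpa using hV)
    ENNReal.ofReal_ne_top, ← mul_assoc, ← ENNReal.ofReal_mul hV.le, mul_div_cancel₀ _ hV.ne',
    ← J_three]
  exact h3

end Pool.Agent.P.MP_2b44f0_gt.PD
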