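import Pool.Agent.P.MP_2b44f0_gt.PD.AllM

/-!
An area minimizing cone that is smooth away from the vertex is a stable smooth cone.
-/

namespace Pool.Agent.P.MP_2b44f0_gt.PD

open Set

theorem stable_of_min {G : Set (E (Fin (3 + 1) ⊕ Fin (3 + 1)))} (hG : IsOpen G)
    (hcone : ∀ x ∈ frontier G, ∀ t : ℝ, 0 < t → t • x ∈ frontier G) (hmin : AreaMin 7 G)
    (hsm : ∀ x ∈ frontier G, x ≠ 0 → SmoothSide G x)
    (hflat : ∀ ω, ω ≠ 0 → ∃ x ∈ frontier G, inner ℝ ω x ≠ 0) :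
    ∃ U F, SmoothCone (frontier G) U F ∧ Stable 7 (frontier G) F := by
  obtain ⟨U, F, h1, h2, h3⟩ := a_MGLOB _ G hG hcone hsm
  exact ⟨U, F, ⟨isClosed_frontier, hcone, hflat, h1, h2, h3, fun x hx h0 =>
    a_MMIN _ 7 G U F (by simp) hG hmin h1 h2 x ⟨hx, h3 x hx h0⟩⟩,
    a_MSTAB _ 7 G U F (by simp) hG hmin h1 h2 h3⟩

end Pool.Agent.P.MP_2b44f0_gt.PD
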