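import Pool.Agent.P.MP_2b44f0_gt.PD.Basic

/-!
Statements `Q_*` of the steps.
-/

namespace Pool.Agent.P.MP_2b44f0_gt.PD

open MeasureTheory Set Filter Asymptotics
open scoped ENNReal RealInnerProductSpace Topology

/-! ### Linear algebra and calculus -/

-- deps:
def Q_FRAME : Prop := ∀ (ι : Type) [Fintype ι] (n : ℕ) (x ν : E ι), Fintype.card ι = n + 2 →
  ‖x‖ = 1 → ‖ν‖ = 1 → ⟪ν, x⟫ = 0 →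
  (∀ e : Fin n → E ι, Frame n x ν e →
    (∀ v, v = ⟪x, v⟫ • x + ⟪ν, v⟫ • ν + ∑ i, ⟪e i, v⟫ • e i) ∧
    ∀ M : E ι →L[ℝ] E ι, tr M - ⟪M x, x⟫ - ⟪M ν, ν⟫ = ∑ i, ⟪M (e i), e i⟫) ∧
  ∀ B : E ι →L[ℝ] E ι, (∀ v w, ⟪B v, w⟫ = ⟪v, B w⟫) → B x = 0 → B ν = 0 →
    ∃ (e : Fin n → E ι) (μ : Fin n → ℝ), Frame n x ν e ∧ ∀ i, B (e i) = μ i • e i

-- deps:
def Q_TAYL : Prop := ∀ (ι : Type) [Fintype ι] (G : Type) [NormedAddCommGroup G] [NormedSpace ℝ G]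
  [CompleteSpace G] (f : E ι → G) (U A : Set (E ι)), IsOpen U → IsCompact A → A ⊆ U →
  ContDiffOn ℝ (⊤ : ℕ∞) f U → ∃ ρ K : ℝ, 0 < ρ ∧ 0 ≤ K ∧ ∀ x ∈ A,
    ‖f x‖ ≤ K ∧ ‖fderiv ℝ f x‖ ≤ K ∧ ‖fderiv ℝ (fderiv ℝ f) x‖ ≤ K ∧ ∀ v, ‖v‖ ≤ ρ →
      x + v ∈ U ∧ ‖f (x + v) - f x‖ ≤ K * ‖v‖ ∧ ‖f (x + v) - f x - fderiv ℝ f x v‖ ≤ K * ‖v‖ ^ 2 ∧
      ‖f (x + v) - f x - fderiv ℝ f x v - (1 / 2 : ℝ) • fderiv ℝ (fderiv ℝ f) x v v‖ ≤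
        K * ‖v‖ ^ 3 ∧
      ‖f (x + v) + f (x - v) - (2 : ℝ) • f x - fderiv ℝ (fderiv ℝ f) x v v‖ ≤ K * ‖v‖ ^ 4

/-- the reflection taking the tangent space at `x` to the tangent space at `y` -/
-- deps:
def Q_REFL : Prop := ∀ (ι : Type) [Fintype ι] (x ν y ν' : E ι) (φ ε : ℝ),
  ‖x‖ = 1 → ‖ν‖ = 1 → ⟪ν, x⟫ = 0 → ‖y‖ = 1 → ‖ν'‖ = 1 → ⟪ν', y⟫ = 0 → 0 < ε →
  ⟪ν, y⟫ = φ * (1 - ⟪x, y⟫) + ε → 2 * ε * |φ| + ε ^ 2 ≤ 1 / 2 → ε ^ 2 < 1 - ⟪x, y⟫ →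
  (∀ ξ, ⟪y, ξ⟫ = 0 → ⟪ν', ξ⟫ = 0 → ⟪φ • x + ν, ξ⟫ = 0) →
  ∃ (R : E ι →L[ℝ] E ι) (c d : ℝ), (∀ v w, ⟪R v, R w⟫ = ⟪v, w⟫) ∧
    (c * (1 - ⟪x, y⟫) - d) * (1 - ⟪x, y⟫ ^ 2 - ⟪ν, y⟫ ^ 2) ≤ 2 * ε ^ 2 ∧
    ∀ v, ⟪x, v⟫ = 0 → ⟪ν, v⟫ = 0 → ⟪y, R v⟫ = 0 ∧ ⟪ν', R v⟫ = 0 ∧
      ⟪v, R v⟫ = ‖v‖ ^ 2 - c * ⟪v, y⟫ ^ 2 ∧ ⟪x, R v⟫ = d * ⟪v, y⟫

/-- composition of a lower jet with a monotone function -/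
-- deps:
def Q_COMP : Prop := ∀ (ι : Type) [Fintype ι] (C : Set (E ι)) (k : E ι → ℝ) (G G' G'' : ℝ → ℝ)
  (a b : ℝ), a < b → (∀ t ∈ Ioo (a / 2) (2 * b), HasDerivAt G (G' t) t ∧ HasDerivAt G' (G'' t) t ∧
    0 ≤ G' t) → ContinuousOn G'' (Ioo (a / 2) (2 * b)) → 0 < a → (∀ z ∈ lk C, k z ∈ Icc a b) →
  (∀ x ∈ lk C, ∀ p M, LJet C k x p M → LJet C (fun z => G (k z)) x (G' (k x) • p)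
    (G' (k x) • M + G'' (k x) • (innerSL ℝ p).smulRight p)) ∧
  ∀ K : ℝ, ∃ K' : ℝ, ∀ x ∈ lk C, ∀ p, ‖p‖ ≤ K →
    (∀ z ∈ lk C, k x + ⟪p, z - x⟫ - K * ‖z - x‖ ^ 2 ≤ k z) → ‖G' (k x) • p‖ ≤ K' ∧
      ∀ z ∈ lk C, G (k x) + ⟪G' (k x) • p, z - x⟫ - K' * ‖z - x‖ ^ 2 ≤ G (k z)

/-- the finite sum inequality -/
-- deps:
def Q_ALG : Prop := ∀ (n : ℕ) (K η : ℝ), 0 < η → ∃ ε₀ : ℝ, 0 < ε₀ ∧ ∀ (ε D S : ℝ)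
  (a w u : Fin n → ℝ), 0 < ε → ε ≤ ε₀ → 0 < D → ε ^ 2 ≤ K * D ^ 3 → |S| ≤ K → (∀ i, |a i| ≤ K) →
  (∀ i, -(K * √ε) ≤ a i) → (∀ i, w i ^ 2 ≤ 2 * D) →
  -η + ∑ i, (4 * (a i * w i / D) * u i - 2 * (a i + η) * u i ^ 2) ≤
    -((n + S) * ε / D) + ∑ i, (2 / D * (|a i| - a i) + 2 * a i * (w i / D) ^ 2 -
      4 * ε ^ 2 / D ^ 2 * |a i|)

/-! ### Geometry of the link -/

-- deps: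
def Q_HOM : Prop := ∀ (ι : Type) [Fintype ι] (n : ℕ) (C U : Set (E ι)) (F : E ι → ℝ),
  St n C U F → ∀ x ∈ C, x ≠ 0 → ∀ t : ℝ, 0 < t → normal F (t • x) = normal F x ∧
    shape F (t • x) = t⁻¹ • shape F x ∧ ‖t • x‖ ^ 2 * sqCurv F (t • x) = ‖x‖ ^ 2 * sqCurv F x

-- deps: Q_TAYL
def Q_GEO : Prop := ∀ (ι : Type) [Fintype ι] (n : ℕ) (C U : Set (E ι)) (F : E ι → ℝ),
  St n C U F → ∃ K : ℝ, 0 ≤ K ∧ ∀ x ∈ lk C, ‖shape F x‖ ≤ K ∧ |sqCurv F x| ≤ K ∧ ∀ y ∈ lk C,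
    ‖normal F y - normal F x‖ ≤ K * ‖y - x‖ ∧
    ‖normal F y - normal F x - shape F x (y - x)‖ ≤ K * ‖y - x‖ ^ 2 ∧
    |⟪normal F x, y⟫| ≤ K * ‖y - x‖ ^ 2 ∧
    |⟪normal F x, y⟫ + ⟪shape F x (y - x), y - x⟫ / 2| ≤ K * ‖y - x‖ ^ 3

-- deps: Q_TAYL Q_GEO
def Q_EXI : Prop := ∀ (ι : Type) [Fintype ι] (n : ℕ) (C U : Set (E ι)) (F : E ι → ℝ),
  St n C U F → ∃ ρ K : ℝ, 0 < ρ ∧ 0 ≤ K ∧ ∀ y ∈ lk C, ∀ ξ, Tan F y ξ → ‖ξ‖ ≤ ρ → ∃ z ∈ lk C,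
    ‖z - (y + ξ - (‖ξ‖ ^ 2 / 2) • y - (⟪shape F y ξ, ξ⟫ / 2) • normal F y)‖ ≤ K * ‖ξ‖ ^ 3

-- deps: Q_TAYL Q_GEO
def Q_EXI4 : Prop := ∀ (ι : Type) [Fintype ι] (n : ℕ) (C U : Set (E ι)) (F : E ι → ℝ),
  St n C U F → ∃ ρ K : ℝ, 0 < ρ ∧ 0 ≤ K ∧ ∀ x ∈ lk C, ∀ ξ, Tan F x ξ → ‖ξ‖ ≤ ρ → ∃ z ∈ lk C,
    -(⟪shape F x ξ, ξ⟫ / 2) - K * ‖ξ‖ ^ 4 ≤ ⟪normal F x, z⟫ ∧
    |1 - ⟪x, z⟫ - ‖ξ‖ ^ 2 / 2| ≤ K * ‖ξ‖ ^ 4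

/-- the Laplacian of the normal -/
-- deps: Q_FRAME Q_HOM
def Q_TR2 : Prop := ∀ (ι : Type) [Fintype ι] (n : ℕ) (C U : Set (E ι)) (F : E ι → ℝ),
  St n C U F → ∀ x ∈ lk C, ∀ e : Fin n → E ι, Frame n x (normal F x) e →
    ∑ i, fderiv ℝ (fderiv ℝ (normal F)) x (e i) (e i) = -sqCurv F x • normal F x

-- deps: Q_FRAME Q_TAYL Q_GEO Q_TR2
def Q_NJET : Prop := ∀ (ι : Type) [Fintype ι] (n : ℕ) (C U : Set (E ι)) (F : E ι → ℝ),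
  St n C U F → ∀ x ∈ lk C, ∀ y : E ι, ∃ M : E ι →L[ℝ] E ι,
    trT F x M = -(sqCurv F x * ⟪normal F x, y⟫) ∧
    (fun z => ⟪normal F z, y⟫ - ⟪normal F x, y⟫ - ⟪shape F x (z - x), y⟫ -
      ⟪M (z - x), z - x⟫ / 2) =O[𝓝[lk C] x] fun z => ‖z - x‖ ^ 3

/-! ### The ball curvature -/

-- deps:
def Q_MAX : Prop := ∀ (ι : Type) [Fintype ι] (n : ℕ) (C U : Set (E ι)) (F : E ι → ℝ),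
  St n C U F → ∀ ε : ℝ, 0 < ε → ∀ x ∈ lk C, (∃ y, IsMx C F ε x y) ∧
    (∀ y, IsMx C F ε x y → kap C F ε x = qv F ε x y) ∧
    ∀ z ∈ lk C, z ≠ x → qv F ε x z ≤ kap C F ε x

-- deps: Q_FRAME Q_GEO Q_EXI4
def Q_EST : Prop := ∀ (ι : Type) [Fintype ι] (n : ℕ) (C U : Set (E ι)) (F : E ι → ℝ),
  St n C U F → ∃ K ε₀ : ℝ, 0 ≤ K ∧ 0 < ε₀ ∧ ∀ ε, 0 < ε → ε ≤ ε₀ → ∀ x ∈ lk C, ∀ y,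
    IsMx C F ε x y → -(K * √ε) ≤ qv F ε x y ∧ qv F ε x y ≤ K ∧
    (∀ ξ, Tan F x ξ → -⟪shape F x ξ, ξ⟫ ≤ (qv F ε x y + K * √ε) * ‖ξ‖ ^ 2) ∧
    ε ^ 2 ≤ K * (1 - ⟪x, y⟫) ^ 3

-- deps: Q_MAX Q_EST
def Q_LOW : Prop := ∀ (ι : Type) [Fintype ι] (n : ℕ) (C U : Set (E ι)) (F : E ι → ℝ),
  St n C U F → ∃ a b ε₀ : ℝ, 0 < a ∧ a < b ∧ 0 < ε₀ ∧ ∀ ε, 0 < ε → ε ≤ ε₀ → ∀ x ∈ lk C,
    sig C F ε x ∈ Icc a b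

-- deps: Q_GEO Q_MAX Q_EST
def Q_SEMI : Prop := ∀ (ι : Type) [Fintype ι] (n : ℕ) (C U : Set (E ι)) (F : E ι → ℝ),
  St n C U F → ∃ ε₀ : ℝ, 0 < ε₀ ∧ ∀ ε, 0 < ε → ε ≤ ε₀ → ContinuousOn (kap C F ε) (lk C) ∧
    ∃ K : ℝ, ∀ x ∈ lk C, ∀ y, IsMx C F ε x y → ‖pv F ε x y‖ ≤ K ∧
      ∀ z ∈ lk C, kap C F ε x + ⟪pv F ε x y, z - x⟫ - K * ‖z - x‖ ^ 2 ≤ kap C F ε z

/-- the two point jet -/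
-- deps: Q_FRAME Q_REFL Q_GEO Q_EXI Q_NJET Q_MAX
def Q_TP : Prop := ∀ (ι : Type) [Fintype ι] (n : ℕ) (C U : Set (E ι)) (F : E ι → ℝ),
  St n C U F → ∀ ε : ℝ, 0 < ε → ∀ x ∈ lk C, ∀ y, IsMx C F ε x y →
  2 * ε * |qv F ε x y| + ε ^ 2 ≤ 1 / 2 → ε ^ 2 < 1 - ⟪x, y⟫ →
  ∀ (e : Fin n → E ι) (μ : Fin n → ℝ), Frame n x (normal F x) e →
  (∀ i, shape F x (e i) = μ i • e i) →
  ∃ M, LJet C (kap C F ε) x (pv F ε x y) M ∧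
    (n - sqCurv F x) * qv F ε x y + (-((n + sqCurv F x) * ε / (1 - ⟪x, y⟫)) +
      ∑ i, (2 / (1 - ⟪x, y⟫) * (|qv F ε x y + μ i| - (qv F ε x y + μ i)) +
        2 * (qv F ε x y + μ i) * (⟪e i, y⟫ / (1 - ⟪x, y⟫)) ^ 2 -
        4 * ε ^ 2 / (1 - ⟪x, y⟫) ^ 2 * |qv F ε x y + μ i|)) ≤ trT F x M

-- deps: Q_FRAME Q_ALG Q_GEO Q_MAX Q_EST Q_TP
def Q_JET : Prop := ∀ (ι : Type) [Fintype ι] (n : ℕ) (C U : Set (E ι)) (F : E ι → ℝ),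
  St n C U F → ∀ η : ℝ, 0 < η → ∃ ε₀ : ℝ, 0 < ε₀ ∧ ∀ ε, 0 < ε → ε ≤ ε₀ → ∀ x ∈ lk C, ∀ y,
    IsMx C F ε x y → ∃ M, LJet C (kap C F ε) x (pv F ε x y) M ∧ ∀ u, Tan F x u →
      (n - sqCurv F x) * kap C F ε x - η + 4 * ⟪pv F ε x y, u⟫ -
        2 * ((kap C F ε x + η) * ‖u‖ ^ 2 + ⟪shape F x u, u⟫) ≤ trT F x M

/-- both sides together -/
-- deps: Q_LOW Q_SEMI Q_JET
def Q_SIG : Prop := ∀ (ι : Type) [Fintype ι] (n : ℕ) (C U : Set (E ι)) (F : E ι → ℝ),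
  St n C U F → ∃ a b : ℝ, 0 < a ∧ a < b ∧ ∀ η : ℝ, 0 < η → ∃ ε₀ : ℝ, 0 < ε₀ ∧ ∀ ε, 0 < ε →
    ε ≤ ε₀ → ContinuousOn (sig C F ε) (lk C) ∧ (∀ x ∈ lk C, sig C F ε x ∈ Icc a b) ∧
    ∃ K : ℝ, ∀ x ∈ lk C, ∀ y y', IsMx C F ε x y → IsMx C (-F) ε x y' →
      ‖pv F ε x y + pv (-F) ε x y'‖ ≤ K ∧
      (∀ z ∈ lk C, sig C F ε x + ⟪pv F ε x y + pv (-F) ε x y', z - x⟫ - K * ‖z - x‖ ^ 2 ≤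
        sig C F ε z) ∧
      ∃ M, LJet C (sig C F ε) x (pv F ε x y + pv (-F) ε x y') M ∧
        (n - sqCurv F x) * sig C F ε x - η +
          2 * ‖pv F ε x y + pv (-F) ε x y'‖ ^ 2 / (sig C F ε x + η) ≤ trT F x M

/-! ### Measure theory -/

/-- exact tube formula -/
-- deps:
def Q_TUBE : Prop := ∀ (ι : Type) [Fintype ι] (d : ℕ) (C U : Set (E ι)) (F : E ι → ℝ),
  Fintype.card ι = d + 1 → IsChart C U F → IsClosed C → ∀ (W : Set (E ι)) (Q : Set (E ι × E ι))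
    (ω : E ι → ℝ≥0∞), MeasurableSet W → W ⊆ U → MeasurableSet Q → Measurable ω →
    Measurable (lineInt F Q ω) ∧
    ∫⁻ y in Reach C W F Q, ω y ≤ ∫⁻ x in C ∩ W, lineInt F Q ω x ∂μHE[d] ∧
    ((∀ x ∈ C ∩ W, ∀ x' ∈ C ∩ W, ∀ y, (x, y) ∈ Q → (x', y) ∈ Q →
        (∃ s : ℝ, y = x + s • normal F x) → (∃ s : ℝ, y = x' + s • normal F x') → x = x') →
      ∫⁻ x in C ∩ W, lineInt F Q ω x ∂μHE[d] ≤ ∫⁻ y in Reach C W F Q, ω y)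

-- deps:
def Q_BALL1 : Prop := ∀ (ι : Type) [Fintype ι] (n : ℕ) (C U : Set (E ι)) (F : E ι → ℝ),
  St n C U F → ∃ ω : ℝ, 0 < ω ∧ ∀ x ∈ lk C, Tendsto
    (fun ρ : ℝ => (μHE[n + 1] (C ∩ Metric.ball x ρ)).toReal / ρ ^ (n + 1)) (𝓝[>] 0) (𝓝 ω)

-- deps:
def Q_BALL2 : Prop := ∀ (ι : Type) [Fintype ι] (n : ℕ) (C U : Set (E ι)) (F : E ι → ℝ),
  St n C U F → ∃ K : ℝ, 0 ≤ K ∧ ∀ x : E ι, x ∈ lk C ∨ x = 0 → ∀ ρ : ℝ, 0 < ρ →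
    μHE[n + 1] (C ∩ Metric.ball x ρ) ≤ ENNReal.ofReal (K * ρ ^ (n + 1))

/-- polar decomposition -/
-- deps:
def Q_POL : Prop := ∀ (ι : Type) [Fintype ι] (n : ℕ) (C : Set (E ι)), IsClosed C → IsCone C →
  μHE[n + 1] (C ∩ Metric.ball 0 1) ≠ ∞ →
  (μHE[n + 1].restrict C).map (fun y => (‖y‖, ‖y‖⁻¹ • y)) = (rad n).prod (lm n C)

-- deps: Q_BALL1 Q_BALL2 Q_POL
def Q_FIN : Prop := ∀ (ι : Type) [Fintype ι] (n : ℕ) (C U : Set (E ι)) (F : E ι → ℝ),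
  St n C U F → IsFiniteMeasure (lm n C) ∧ (∀ᵐ x ∂lm n C, x ∈ lk C) ∧
    (∀ x ∈ lk C, ∀ ρ : ℝ, 0 < ρ → 0 < lm n C (Metric.ball x ρ)) ∧
    ∀ g : E ι → ℝ, ContinuousOn g (lk C) → Integrable g (lm n C)

/-- the level set measures converge to the area measure -/
-- deps: Q_TAYL Q_TUBE Q_BALL2
def Q_WEAK : Prop := ∀ (ι : Type) [Fintype ι] (n : ℕ) (C U : Set (E ι)) (F : E ι → ℝ),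
  St n C U F → ∀ (ψ : ℝ → ℝ) (g : E ι → ℝ) (A : Set (E ι)), Continuous ψ → (∀ t, 0 ≤ ψ t) →
    (∀ t, 1 ≤ |t| → ψ t = 0) → ∫ t, ψ t = 1 → IsCompact A → A ⊆ U → 0 ∉ A → ContinuousOn g U →
    (∀ y ∉ A, g y = 0) →
    Tendsto (fun τ : ℝ => ∫ y, τ⁻¹ * ψ (F y / τ) * (‖gradient F y‖ * g y)) (𝓝[>] 0)
      (𝓝 (∫ y in C, g y ∂μHE[n + 1]))

/-- the cone is stationary -/
-- deps: Q_WEAK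
def Q_DIV : Prop := ∀ (ι : Type) [Fintype ι] (n : ℕ) (C U : Set (E ι)) (F : E ι → ℝ),
  St n C U F → ∀ X : E ι → E ι, ContDiff ℝ 1 X → HasCompactSupport X → 0 ∉ tsupport X →
    ∫ y in C, (tr (fderiv ℝ X y) - ⟪fderiv ℝ X y (normal F y), normal F y⟫) ∂μHE[n + 1] = 0

/-- the divergence theorem on the link -/
-- deps: Q_HOM Q_BALL2 Q_POL Q_FIN Q_DIV
def Q_LDIV : Prop := ∀ (ι : Type) [Fintype ι] (n : ℕ) (C U : Set (E ι)) (F : E ι → ℝ),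
  St n C U F → ∀ X : E ι → E ι, ContDiff ℝ 1 X →
    ∫ x, (trT F x (fderiv ℝ X x) - n * ⟪X x, x⟫) ∂lm n C = 0

-- deps: Q_BALL1 Q_BALL2 Q_POL
def Q_DENS : Prop := ∀ (ι : Type) [Fintype ι] (n : ℕ) (C U : Set (E ι)) (F : E ι → ℝ),
  St n C U F → ∃ (a : ℝ → ℝ) (K : ℝ), (∀ r, 0 < r → 0 < a r) ∧ ∀ x ∈ lk C,
    Tendsto (fun r => (∫ y, gk r x y ∂lm n C) / a r) (𝓝[>] 0) (𝓝 1) ∧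
    ∀ r, 0 < r → r ≤ 1 → ∫ y, gk (2 * r) x y ∂lm n C ≤ K * a r

-- deps: Q_GEO Q_FIN Q_LDIV
def Q_MOM : Prop := ∀ (ι : Type) [Fintype ι] (n : ℕ) (C U : Set (E ι)) (F : E ι → ℝ),
  St n C U F → ∃ K : ℝ, ∀ x ∈ lk C, ∀ p, Tan F x p → ∀ (M : E ι →L[ℝ] E ι) (r : ℝ), 0 < r →
    |2 / r ^ 2 * (∫ y, gk r x y * (⟪p, y - x⟫ + ⟪M (y - x), y - x⟫ / 2) ∂lm n C) -
      trT F x M / 2 * ∫ y, gk r x y ∂lm n C| ≤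
      K * (‖p‖ + ‖M‖) * r * ∫ y, gk (2 * r) x y ∂lm n C

/-- integration of upper jets -/
-- deps: Q_FIN Q_DENS Q_MOM
def Q_KER : Prop := ∀ (ι : Type) [Fintype ι] (n : ℕ) (C U : Set (E ι)) (F : E ι → ℝ),
  St n C U F → ∀ (u : E ι → E ι → ℝ) (B : E ι → ℝ) (K : ℝ),
    ContinuousOn (fun q : E ι × E ι => u q.1 q.2) (lk C ×ˢ lk C) →
    (∀ x ∈ lk C, ∀ y ∈ lk C, 0 ≤ u x y + u y x) → Integrable B (lm n C) →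
    (∀ x ∈ lk C, ∃ p, Tan F x p ∧ ‖p‖ ≤ K ∧
      ∀ y ∈ lk C, u x y ≤ ⟪p, y - x⟫ + K * ‖y - x‖ ^ 2) →
    (∀ x ∈ lk C, ∃ p M, Tan F x p ∧ UJet C (u x) x p M ∧ trT F x M ≤ B x) →
    0 ≤ ∫ x, B x ∂lm n C

/-! ### The operator `-Δ + S - n` -/

-- deps: Q_GEO Q_MAX Q_COMP Q_SIG Q_FIN Q_KER
def Q_T1 : Prop := ∀ (ι : Type) [Fintype ι] (n : ℕ) (C U : Set (E ι)) (F : E ι → ℝ),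
  St n C U F → ∀ f : E ι → ℝ, ContDiffOn ℝ 1 f U →
    0 ≤ ∫ x, (‖prT F x (gradient f x)‖ ^ 2 + (sqCurv F x - n) * f x ^ 2) ∂lm n C

-- deps: Q_FIN Q_T1
def Q_EQ : Prop := ∀ (ι : Type) [Fintype ι] (n : ℕ) (C U : Set (E ι)) (F : E ι → ℝ),
  St n C U F → ∫ x, (sqCurv F x - n) ∂lm n C ≤ 0 → ∀ x ∈ lk C, sqCurv F x = n

end Pool.Agent.P.MP_2b44f0_gt.PD
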