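import Pool.Agent.P.MP_2b44f0_gt.PD.If
import Pool.Agent.P.MP_2b44f0_gt.PD.DefsB

/-!
Statements of the steps for stable cones.
-/

namespace Pool.Agent.P.MP_2b44f0_gt.PD

open MeasureTheory Set Filter Asymptotics
open scoped ENNReal RealInnerProductSpace Topology

/-- the state space `(S, k, k')` -/
abbrev W : Type := ℝ × ℝ × ℝ

/-- the dot product on the state space -/
def dot (a b : W) : ℝ := a.1 * b.1 + a.2.1 * b.2.1 + a.2.2 * b.2.2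

/-- the combination of three vectors with coefficients `a` -/
noncomputable def cmb {ι : Type} (a : W) (g p q : E ι) : E ι := a.1 • g + a.2.1 • p + a.2.2 • q

/-- the partial derivatives -/
noncomputable def gr (f : W → ℝ) (w : W) : W :=
  (fderiv ℝ f w (1, 0, 0), fderiv ℝ f w (0, 1, 0), fderiv ℝ f w (0, 0, 1))

/-- admissible principal curvatures for the state `w` -/
structure Adm (n : ℕ) (μ : Fin n → ℝ) (w : W) : Prop where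
  sum : ∑ i, μ i = 0
  sq : ∑ i, μ i ^ 2 = w.1
  lo : ∀ i, 0 < w.2.1 + μ i
  hi : ∀ i, 0 < w.2.2 - μ i
  k1 : 0 < w.2.1
  k2 : 0 < w.2.2

/-- the volume swept out by the normal segment cut at `k` and `k'` -/
noncomputable def vol (m : ℕ) (μ : Fin (2 * m) → ℝ) (k k' : ℝ) : ℝ :=
  ∫ ξ in (-k'⁻¹)..k⁻¹, (∏ i, (1 + ξ * μ i)) / (1 + ξ ^ 2) ^ (m + 1)

/-- a certificate for the volume bound `V₀` -/
structure Cert (m : ℕ) (V₀ : ℝ) (Ω : Set W) (a : W → W) (f : W → ℝ) : Prop where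
  isOpen : IsOpen Ω
  mem : ∀ w : W, 0 ≤ w.1 → 0 < w.2.1 → 0 < w.2.2 → w.1 ≤ 2 * m * w.2.1 * w.2.2 → w ∈ Ω
  ca : ContDiffOn ℝ 1 a Ω
  cf : ContDiffOn ℝ 1 f Ω
  pos : ∀ μ w, Adm (2 * m) μ w → 0 ≤ (a w).1 ∧ 0 < (a w).2.1 ∧ 0 < (a w).2.2
  lmi : ∀ μ w, Adm (2 * m) μ w → ∀ (i : Fin (2 * m)) (v : W), (w.1 = 0 → v.1 = 0) →
    fderiv ℝ f w v ^ 2 ≤ (a w).1 * (3 / 2 * v.1 ^ 2 / (w.1 + 2 * m / (m + 1) * μ i ^ 2)) +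
      2 * (a w).2.1 * v.2.1 ^ 2 / (w.2.1 + μ i) + 2 * (a w).2.2 * v.2.2 ^ 2 / (w.2.2 - μ i) +
      dot (fderiv ℝ a w v) v
  vol : ∀ μ w, Adm (2 * m) μ w → vol m μ w.2.1 w.2.2 ≤
    V₀ + (2 * m - w.1) * dot (a w) (2 * w.1, w.2.1, w.2.2) +
      (w.1 - (2 * m - 1) ^ 2 / 4) * f w ^ 2

/-- the state at `x` -/
noncomputable def stt {ι : Type} [Fintype ι] (C : Set (E ι)) (F : E ι → ℝ) (ε η : ℝ) (x : E ι) :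
    W := (sqCurv F x, kap C F ε x + η, kap C (-F) ε x + η)

/-- the Simons identity with the Kato inequality in a differential ring -/
-- deps:
def Q_SIMA : Prop := ∀ (ι : Type) [Fintype ι] [DecidableEq ι] (R : Type) [CommRing R]
  (δ : ι → R →+ R) (ν x : ι → R) (a : ι → ι → R) (ev : R →+* ℝ) (n : ℕ) (u : ι → ℝ),
  Fintype.card ι = n + 2 → (∀ i f g, δ i (f * g) = δ i f * g + f * δ i g) →
  (∀ i j, δ i (ν j) = a i j) → (∀ i j, a i j = a j i) →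
  (∀ i j, δ i (x j) = (if i = j then 1 else 0) - ν i * ν j) →
  (∀ f, ∑ i, ν i * δ i f = 0) → ∑ i, ν i * ν i = 1 →
  (∀ i j f, δ i (δ j f) - δ j (δ i f) = ∑ l, (ν i * a j l - ν j * a i l) * δ l f) →
  ∑ i, a i i = 0 → ∑ i, ν i * x i = 0 → ev (∑ i, x i * x i) = 1 →
  ∑ i, u i * ev (x i) = 0 → ∑ i, u i * ev (ν i) = 0 →
  ∀ σ : R, σ = ∑ i, ∑ j, a i j * a i j →
  6 * ev σ - 2 * ev σ ^ 2 + 3 * ∑ k, u k * ev (δ k σ) -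
    3 / 2 * (ev σ * ∑ i, u i ^ 2 + 2 * n / (n + 2) * ∑ i, (∑ j, ev (a i j) * u j) ^ 2) ≤
    ev (∑ k, δ k (δ k σ))

-- deps: Q_FRAME Q_HOM Q_SIMA
def Q_SIM : Prop := ∀ (ι : Type) [Fintype ι] (n : ℕ) (C U : Set (E ι)) (F : E ι → ℝ),
  St n C U F → ∀ x ∈ lk C, ∀ e : Fin n → E ι, Frame n x (normal F x) e → ∀ u, Tan F x u →
    2 * sqCurv F x * (n - sqCurv F x) + 3 * fderiv ℝ (sqCurv F) x u -
      3 / 2 * (sqCurv F x * ‖u‖ ^ 2 + 2 * n / (n + 2) * ‖shape F x u‖ ^ 2) ≤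
    ∑ i, fderiv ℝ (fderiv ℝ (sqCurv F)) x (e i) (e i) - n * fderiv ℝ (sqCurv F) x x

/-- jets of a smooth function on the link -/
-- deps: Q_FRAME Q_TAYL Q_GEO
def Q_FJET : Prop := ∀ (ι : Type) [Fintype ι] (n : ℕ) (C U : Set (E ι)) (F : E ι → ℝ),
  St n C U F → ∀ φ : E ι → ℝ, ContDiffOn ℝ (⊤ : ℕ∞) φ U → ∃ K : ℝ, ∀ x ∈ lk C,
    ‖prT F x (gradient φ x)‖ ≤ K ∧
    (∀ z ∈ lk C, |φ z - φ x - ⟪prT F x (gradient φ x), z - x⟫| ≤ K * ‖z - x‖ ^ 2) ∧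
    ∃ M : E ι →L[ℝ] E ι, (∀ e : Fin n → E ι, Frame n x (normal F x) e → trT F x M =
        ∑ i, fderiv ℝ (fderiv ℝ φ) x (e i) (e i) - n * fderiv ℝ φ x x) ∧
      LJet C φ x (prT F x (gradient φ x)) M

/-- jets of the antisymmetric two point function of a vector field on the state space -/
-- deps:
def Q_COMP3 : Prop := ∀ (ι : Type) [Fintype ι] (C : Set (E ι)) (w : E ι → W) (Ω : Set W)
  (a : W → W) (K : ℝ) (J : E ι → E ι × E ι × E ι → Prop), IsClosed C → IsOpen Ω →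
  ContDiffOn ℝ 1 a Ω → (∀ x ∈ lk C, w x ∈ Ω ∧ 0 ≤ (a (w x)).1 ∧ 0 < (a (w x)).2.1 ∧
    0 < (a (w x)).2.2) → (∀ x ∈ lk C, ∃ j, J x j) →
  (∀ x ∈ lk C, ∀ j, J x j → ‖j‖ ≤ K ∧ ∀ z ∈ lk C,
    |(w z).1 - (w x).1 - ⟪j.1, z - x⟫| ≤ K * ‖z - x‖ ^ 2 ∧
    (w x).2.1 + ⟪j.2.1, z - x⟫ - K * ‖z - x‖ ^ 2 ≤ (w z).2.1 ∧
    (w x).2.2 + ⟪j.2.2, z - x⟫ - K * ‖z - x‖ ^ 2 ≤ (w z).2.2) →
  ∃ K' : ℝ, ∀ x ∈ lk C, ∀ j, J x j → ‖cmb (a (w x)) j.1 j.2.1 j.2.2‖ ≤ K' ∧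
    (∀ z ∈ lk C, -dot (a (w x) + a (w z)) (w z - w x) / 2 ≤
      ⟪-cmb (a (w x)) j.1 j.2.1 j.2.2, z - x⟫ + K' * ‖z - x‖ ^ 2) ∧
    ∀ M₀ M₁ M₂ : E ι →L[ℝ] E ι, LJet C (fun z => (w z).1) x j.1 M₀ →
      LJet C (fun z => (w z).2.1) x j.2.1 M₁ → LJet C (fun z => (w z).2.2) x j.2.2 M₂ →
      ∃ N : E ι →L[ℝ] E ι, (∀ h, ⟪N h, h⟫ = -(dot (a (w x)) (⟪M₀ h, h⟫, ⟪M₁ h, h⟫, ⟪M₂ h, h⟫) +
          dot (fderiv ℝ a (w x) (⟪j.1, h⟫, ⟪j.2.1, h⟫, ⟪j.2.2, h⟫))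
            (⟪j.1, h⟫, ⟪j.2.1, h⟫, ⟪j.2.2, h⟫))) ∧
        UJet C (fun z => -dot (a (w x) + a (w z)) (w z - w x) / 2) x
          (-cmb (a (w x)) j.1 j.2.1 j.2.2) N

/-- smooth approximation of a maximum -/
-- deps:
def Q_SMX : Prop := ∀ (ι : Type) [Fintype ι] (A U : Set (E ι)) (q : E ι → E ι → ℝ) (k : E ι → ℝ),
  IsCompact A → IsOpen U → A ⊆ U → ContDiffOn ℝ 1 (fun z : E ι × E ι => q z.1 z.2) (U ×ˢ univ) →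
  (∀ x ∈ A, (∃ y ∈ A, q x y = k x) ∧ ∀ y ∈ A, q x y ≤ k x) →
  ∃ (s : ℕ → E ι → ℝ) (K : ℝ), (∀ j, ContDiffOn ℝ 1 (s j) U) ∧
    TendstoUniformlyOn s k atTop A ∧ (∀ j, ∀ x ∈ A, ‖gradient (s j) x‖ ≤ K) ∧
    ∀ x ∈ A, ∀ δ : ℝ, 0 < δ → ∀ᶠ j in atTop, ∃ z ∈ convexHull ℝ
      {g | ∃ y ∈ A, q x y = k x ∧ g = gradient (fun x' => q x' y) x}, ‖gradient (s j) x - z‖ ≤ δ

/-- stability on the link -/
-- deps: Q_HOM Q_BALL2 Q_POL Q_FIN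
def Q_STAB : Prop := ∀ (ι : Type) [Fintype ι] (n : ℕ) (C U : Set (E ι)) (F : E ι → ℝ),
  St n C U F → Stable (n + 1) C F → ∀ (V : Set (E ι)) (f : E ι → ℝ), IsOpen V → lk C ⊆ V →
    ContDiffOn ℝ 1 f V → ∫ x, (sqCurv F x - (n - 1) ^ 2 / 4) * f x ^ 2 ∂lm n C ≤
      ∫ x, ‖prT F x (gradient f x)‖ ^ 2 ∂lm n C

/-- the ball curvature as the maximum of a `C¹` function -/
-- deps: Q_GEO Q_MAX Q_EST
def Q_QT : Prop := ∀ (ι : Type) [Fintype ι] (n : ℕ) (C U : Set (E ι)) (F : E ι → ℝ),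
  St n C U F → ∃ ε₀ : ℝ, 0 < ε₀ ∧ ∀ ε, 0 < ε → ε ≤ ε₀ → ∃ q : E ι → E ι → ℝ,
    ContDiffOn ℝ 1 (fun z : E ι × E ι => q z.1 z.2) (U ×ˢ univ) ∧ ∀ x ∈ lk C, ∀ y ∈ lk C,
      q x y ≤ kap C F ε x ∧ (q x y = kap C F ε x ↔ IsMx C F ε x y) ∧
      (IsMx C F ε x y → prT F x (gradient (fun x' => q x' y) x) = pv F ε x y)

/-- stability for functions of the state -/
-- deps: Q_MAX Q_SEMI Q_FIN Q_SMX Q_STAB Q_QT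
def Q_SOFT : Prop := ∀ (ι : Type) [Fintype ι] (n : ℕ) (C U : Set (E ι)) (F : E ι → ℝ),
  St n C U F → Stable (n + 1) C F → ∃ ε₀ : ℝ, 0 < ε₀ ∧ ∀ ε, 0 < ε → ε ≤ ε₀ →
    ∀ (η : ℝ) (Ω : Set W) (f : W → ℝ), IsOpen Ω → ContDiffOn ℝ 1 f Ω →
    (∀ x ∈ lk C, stt C F ε η x ∈ Ω) → ∃ G : E ι → ℝ, Integrable G (lm n C) ∧
      ∫ x, (sqCurv F x - (n - 1) ^ 2 / 4) * f (stt C F ε η x) ^ 2 ∂lm n C ≤ ∫ x, G x ∂lm n C ∧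
      ∀ x ∈ lk C, ∃ y y', IsMx C F ε x y ∧ IsMx C (-F) ε x y' ∧
        G x ≤ ‖cmb (gr f (stt C F ε η x)) (prT F x (gradient (sqCurv F) x)) (pv F ε x y)
          (pv (-F) ε x y')‖ ^ 2

/-- the link is not contained in a closed half space -/
-- deps: Q_FIN Q_LDIV
def Q_LOW2 : Prop := ∀ (ι : Type) [Fintype ι] (n : ℕ) (C U : Set (E ι)) (F : E ι → ℝ),
  St n C U F → ∃ c : ℝ, 0 < c ∧ ∀ v : E ι, ∃ z ∈ lk C, c * ‖v‖ ≤ ⟪v, z⟫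

-- deps: Q_MAX Q_EST Q_LOW2
def Q_LOW3 : Prop := ∀ (ι : Type) [Fintype ι] (n : ℕ) (C U : Set (E ι)) (F : E ι → ℝ),
  St n C U F → ∃ a b ε₀ : ℝ, 0 < a ∧ 0 < ε₀ ∧ ∀ ε, 0 < ε → ε ≤ ε₀ → ∀ x ∈ lk C,
    kap C F ε x ∈ Icc a b

/-- the Heintze Karcher inequality -/
-- deps: Q_HOM Q_TUBE Q_FIN Q_LOW2
def Q_HK : Prop := ∀ (ι : Type) [Fintype ι] (m : ℕ) (C U : Set (E ι)) (F : E ι → ℝ),
  St (2 * m) C U F → ∀ V : E ι → ℝ, ContinuousOn V (lk C) → (∀ x ∈ lk C, 0 ≤ V x) →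
    (∀ x ∈ lk C, ∫⁻ ξ in {ξ : ℝ | ∀ z ∈ C, |ξ| ≤ ‖x + ξ • normal F x - z‖},
      ENNReal.ofReal (|(1 + ξ • shape F x).det| / (1 + ξ ^ 2) ^ (m + 1)) ≤ ENNReal.ofReal (V x)) →
    Kc ι ≤ ENNReal.ofReal (∫ x, V x ∂lm (2 * m) C)

/-- the normal segment is cut at the ball curvatures -/
-- deps: Q_FRAME Q_GEO Q_MAX Q_LOW3
def Q_VCUT : Prop := ∀ (ι : Type) [Fintype ι] (m : ℕ) (C U : Set (E ι)) (F : E ι → ℝ),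
  St (2 * m) C U F → ∃ K ε₀ : ℝ, 0 < ε₀ ∧ ∀ ε, 0 < ε → ε ≤ ε₀ → ∀ η : ℝ, 0 < η → ∀ x ∈ lk C,
    ∀ (e : Fin (2 * m) → E ι) (μ : Fin (2 * m) → ℝ), Frame (2 * m) x (normal F x) e →
    (∀ i, shape F x (e i) = μ i • e i) → Adm (2 * m) μ (stt C F ε η x) →
    0 ≤ vol m μ (kap C F ε x + η) (kap C (-F) ε x + η) ∧
    ∫⁻ ξ in {ξ : ℝ | ∀ z ∈ C, |ξ| ≤ ‖x + ξ • normal F x - z‖},
      ENNReal.ofReal (|(1 + ξ • shape F x).det| / (1 + ξ ^ 2) ^ (m + 1)) ≤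
      ENNReal.ofReal (vol m μ (kap C F ε x + η) (kap C (-F) ε x + η) + K * η)

/-- the integrated differential inequality -/
-- deps: Q_FRAME Q_GEO Q_MAX Q_EST Q_SEMI Q_JET Q_FIN Q_KER Q_SIM Q_FJET Q_COMP3 Q_SOFT Q_LOW3
def Q_INT : Prop := ∀ (ι : Type) [Fintype ι] (m : ℕ) (C U : Set (E ι)) (F : E ι → ℝ),
  St (2 * m) C U F → Stable (2 * m + 1) C F → ∀ (V₀ : ℝ) (Ω : Set W) (a : W → W) (f : W → ℝ),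
    Cert m V₀ Ω a f → ∃ K : ℝ, ∀ η : ℝ, 0 < η → η ≤ 1 → ∃ ε₀ : ℝ, 0 < ε₀ ∧ ∀ ε, 0 < ε → ε ≤ ε₀ →
      ContinuousOn (stt C F ε η) (lk C) ∧
      (∀ x ∈ lk C, ∃ (e : Fin (2 * m) → E ι) (μ : Fin (2 * m) → ℝ),
        Frame (2 * m) x (normal F x) e ∧ (∀ i, shape F x (e i) = μ i • e i) ∧
        Adm (2 * m) μ (stt C F ε η x)) ∧
      ∫ x, ((2 * m - sqCurv F x) * dot (a (stt C F ε η x))
          (2 * (stt C F ε η x).1, (stt C F ε η x).2.1, (stt C F ε η x).2.2) +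
        (sqCurv F x - (2 * m - 1) ^ 2 / 4) * f (stt C F ε η x) ^ 2) ∂lm (2 * m) C ≤ K * η

-- deps: Q_FIN Q_HK Q_VCUT Q_INT
def Q_MASTER : Prop := ∀ (ι : Type) [Fintype ι] (m : ℕ) (C U : Set (E ι)) (F : E ι → ℝ),
  St (2 * m) C U F → Stable (2 * m + 1) C F → ∀ (V₀ : ℝ) (Ω : Set W) (a : W → W) (f : W → ℝ),
    Cert m V₀ Ω a f → Kc ι ≤ ENNReal.ofReal V₀ * μHE[2 * m + 1] (C ∩ Metric.ball 0 1)

end Pool.Agent.P.MP_2b44f0_gt.PD
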