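import Pool.Agent.P.MP_2b44f0_gt.PD.IfV

/-!
Statements of the steps that bound the volume on a box by a linear form.
-/

namespace Pool.Agent.P.MP_2b44f0_gt.PD

open MeasureTheory Set

/-- the angle `arccot k` -/
noncomputable def act (k : ℝ) : ℝ := Real.pi / 2 - Real.arctan k

/-- the coefficient of the angle in the `j`-th moment, times `48` -/
def mA : ℕ → ℝ
  | 0 => 15 | 2 => 3 | 4 => 3 | 6 => 15 | _ => 0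

/-- the rational part of the `j`-th moment, times `48 (1 + k²)³` -/
def mR : ℕ → ℝ → ℝ
  | 0, k => 33 * k ^ 5 + 40 * k ^ 3 + 15 * k
  | 1, k => 24 * k ^ 4 + 24 * k ^ 2 + 8
  | 2, k => -3 * k ^ 5 + 8 * k ^ 3 + 3 * k
  | 3, k => 12 * k ^ 2 + 4
  | 4, k => -3 * k ^ 5 - 8 * k ^ 3 + 3 * k
  | 5, _ => 8
  | 6, k => -15 * k ^ 5 - 40 * k ^ 3 - 33 * k
  | _, _ => 0

/-- the moment `∫ ξ^j / (1 + ξ²)⁴` over `[0, 1 / k]` in closed form -/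
noncomputable def mJ (j : ℕ) (k : ℝ) : ℝ := (mA j * act k + mR j k / (1 + k ^ 2) ^ 3) / 48

/-- the one sided coefficient for `k ∈ [a, b]` -/
noncomputable def mC (j : ℕ) (a b : ℝ) : ℝ := mJ j b + (mJ 0 a - mJ 0 b) / b ^ j

-- deps:
def Q_MOMJ : Prop := ∀ j ≤ 6, ∀ k : ℝ, 0 < k →
  ∫ ξ in (0 : ℝ)..k⁻¹, ξ ^ j / (1 + ξ ^ 2) ^ 4 = mJ j k

/-- the bound on a box -/
-- deps: Q_MOMJ
def Q_VBOX : Prop := ∀ (t : ℕ × ℕ × ℕ × ℕ) (k k' u v a b a' b' : ℝ) (e : ℕ → ℝ), 0 < k → 0 < k' →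
  u ∈ Icc (-k) k' → v ∈ Icc (-k) k' →
  t.1 * (-k) + t.2.1 * k' + t.2.2.1 * u + t.2.2.2 * v = 0 →
  0 ≤ a → a ≤ k → k ≤ b → 0 ≤ a' → a' ≤ k' → k' ≤ b' →
  (∀ ξ : ℝ, (1 - ξ * k) ^ t.1 * (1 + ξ * k') ^ t.2.1 * (1 + ξ * u) ^ t.2.2.1 *
    (1 + ξ * v) ^ t.2.2.2 = ∑ j ∈ Finset.range 7, e j * ξ ^ j) →
  volT t k k' u v ≤ ∑ j ∈ Finset.range 7, e j * (mC j a b + (-1) ^ j * mC j a' b')

/-- the crude bound -/
-- deps: Q_MOMJ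
def Q_VCRU : Prop := ∀ (k k' : ℝ) (μ : Fin (2 * 3) → ℝ), 0 < k → 0 < k' →
  (∀ i, μ i ∈ Icc (-k) k') → ∑ i, μ i = 0 → vol 3 μ k k' ≤ 5 * Real.pi / 32 + 2 / (k + k')

/-- the series of the arctangent -/
-- deps:
def Q_ATAN : Prop := ∀ (y : ℝ) (n : ℕ), 0 ≤ y →
  |Real.arctan y - ∑ i ∈ Finset.range n, (-1) ^ i * y ^ (2 * i + 1) / (2 * i + 1)| ≤
    y ^ (2 * n + 1) / (2 * n + 1)

end Pool.Agent.P.MP_2b44f0_gt.PD
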