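import Pool.Agent.P.MP_2b44f0_gt.PD.If
import Pool.Agent.P.MP_2b44f0_gt.PD.DefsM

/-!
Statements of the steps from area minimizing to minimal and stable.
-/

namespace Pool.Agent.P.MP_2b44f0_gt.PD

open MeasureTheory Set Filter Asymptotics
open scoped ENNReal RealInnerProductSpace Topology

/-- `L` on the orthogonal complement of `ν`, and `ν ↦ N` -/
noncomputable def extL {ι : Type} [Fintype ι] (L : E ι →L[ℝ] E ι) (ν N : E ι) : E ι →L[ℝ] E ι :=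
  L.comp (ContinuousLinearMap.id ℝ (E ι) - (innerSL ℝ ν).smulRight ν) + (innerSL ℝ ν).smulRight N

/-- `j` bounds the Jacobian of `L` on the orthogonal complement of `ν` -/
def JacLe {ι : Type} [Fintype ι] (L : E ι →L[ℝ] E ι) (ν : E ι) (j : ℝ) : Prop :=
  ∃ N : E ι, ‖N‖ = 1 ∧ (∀ v, ⟪ν, v⟫ = 0 → ⟪N, L v⟫ = 0) ∧ (extL L ν N).det ≠ 0 ∧
    |(extL L ν N).det| ≤ j

/-- a global defining function -/
-- deps:
def Q_MGLOB : Prop := ∀ (ι : Type) [Fintype ι] (G : Set (E ι)), IsOpen G →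
  (∀ x ∈ frontier G, ∀ t : ℝ, 0 < t → t • x ∈ frontier G) →
  (∀ x ∈ frontier G, x ≠ 0 → SmoothSide G x) →
  ∃ U F, IsChart (frontier G) U F ∧ ContDiffOn ℝ (⊤ : ℕ∞) F U ∧
    ∀ x ∈ frontier G, x ≠ 0 → x ∈ U

/-- the area measure of a hypersurface is locally finite and has full support -/
-- deps:
def Q_MMEAS : Prop := ∀ (ι : Type) [Fintype ι] (d : ℕ) (C U : Set (E ι)) (F : E ι → ℝ),
  Fintype.card ι = d + 1 → IsChart C U F → IsClosed C →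
  (∀ A, IsCompact A → A ⊆ U → μHE[d] (C ∩ A) ≠ ∞) ∧
    ∀ x ∈ C ∩ U, ∀ ρ : ℝ, 0 < ρ → 0 < μHE[d] (C ∩ Metric.ball x ρ)

/-- linear images of subsets of a hyperplane -/
-- deps:
def Q_MLIN : Prop := ∀ (ι : Type) [Fintype ι] (d : ℕ) (L : E ι →L[ℝ] E ι) (ν N : E ι)
  (A : Set (E ι)), Fintype.card ι = d + 1 → ‖ν‖ = 1 → ‖N‖ = 1 →
  (∀ v, ⟪ν, v⟫ = 0 → ⟪N, L v⟫ = 0) → (∀ v ∈ A, ⟪ν, v⟫ = 0) →
  μHE[d] (L '' A) = ENNReal.ofReal |(extL L ν N).det| * μHE[d] A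

/-- the local area estimate -/
-- deps: Q_MLIN
def Q_MLOC : Prop := ∀ (ι : Type) [Fintype ι] (d : ℕ) (C U : Set (E ι)) (F : E ι → ℝ)
  (Ψ : E ι → E ι), Fintype.card ι = d + 1 → IsChart C U F → ContDiffOn ℝ 1 Ψ U →
  ∀ x ∈ C ∩ U, ∀ j : ℝ, JacLe (fderiv ℝ Ψ x) (normal F x) j → ∀ j', j < j' →
    ∃ V, IsOpen V ∧ x ∈ V ∧ ∀ W, W ⊆ V →
      μHE[d] (Ψ '' (C ∩ W)) ≤ ENNReal.ofReal j' * μHE[d] (C ∩ W)

/-- the area formula, upper bound -/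
-- deps: Q_MMEAS Q_MLOC
def Q_MAREA : Prop := ∀ (ι : Type) [Fintype ι] (d : ℕ) (C U : Set (E ι)) (F : E ι → ℝ)
  (Ψ : E ι → E ι) (j : E ι → ℝ) (A : Set (E ι)), Fintype.card ι = d + 1 → IsChart C U F →
  IsClosed C → ContDiffOn ℝ 1 Ψ U → IsCompact A → A ⊆ U → ContinuousOn j (C ∩ A) →
  (∀ x ∈ C ∩ A, JacLe (fderiv ℝ Ψ x) (normal F x) (j x)) →
  μHE[d] (Ψ '' (C ∩ A)) ≤ ENNReal.ofReal (∫ x in C ∩ A, j x ∂μHE[d])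

/-- the product of the principal factors to second order -/
-- deps:
def Q_MPROD : Prop := ∀ (d : ℕ) (K : ℝ), ∃ K' t₀ : ℝ, 0 < t₀ ∧ ∀ (μ g : Fin d → ℝ) (φ t : ℝ),
  (∀ i, |μ i| ≤ K) → (∀ i, |g i| ≤ K) → |φ| ≤ K → |t| ≤ t₀ → (∀ i, 0 < 1 + t * φ * μ i) ∧
    (∏ i, (1 + t * φ * μ i)) * √(1 + ∑ i, (t * g i / (1 + t * φ * μ i)) ^ 2) ≤
      1 + t * φ * ∑ i, μ i +
        t ^ 2 / 2 * (∑ i, g i ^ 2 + φ ^ 2 * ((∑ i, μ i) ^ 2 - ∑ i, μ i ^ 2)) + K' * |t| ^ 3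

/-- the Jacobian of a normal variation -/
-- deps: Q_MPROD
def Q_MJAC : Prop := ∀ (ι : Type) [Fintype ι] (K : ℝ), ∃ K' t₀ : ℝ, 0 < t₀ ∧
  ∀ (ν g : E ι) (B L : E ι →L[ℝ] E ι) (φ t : ℝ), ‖ν‖ = 1 → (∀ v w, ⟪B v, w⟫ = ⟪v, B w⟫) →
    B ν = 0 → ‖B‖ ≤ K → ⟪ν, g⟫ = 0 → ‖g‖ ≤ K → |φ| ≤ K → |t| ≤ t₀ →
    (∀ v, ⟪ν, v⟫ = 0 → L v = v + (t * φ) • B v + (t * ⟪g, v⟫) • ν) →
    JacLe L ν (1 + t * φ * tr B +
      t ^ 2 / 2 * (‖g‖ ^ 2 + φ ^ 2 * (tr B ^ 2 - tr (B.comp B))) + K' * |t| ^ 3)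

/-- the competitors -/
-- deps:
def Q_MDIFF : Prop := ∀ (ι : Type) [Fintype ι] (X : E ι → E ι) (A : Set (E ι)), ContDiff ℝ 1 X →
  IsCompact A → (∀ y ∉ A, X y = 0) → ∃ t₀ : ℝ, 0 < t₀ ∧ ∀ t : ℝ, |t| ≤ t₀ → ∀ G : Set (E ι),
    IsOpen G → IsOpen ((fun y => y + t • X y) '' G) ∧
      ((fun y => y + t • X y) '' G) \ A = G \ A ∧
      frontier ((fun y => y + t • X y) '' G) ∩ A = (fun y => y + t • X y) '' (frontier G ∩ A)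

/-- the variation of area to second order -/
-- deps: Q_MMEAS Q_MAREA Q_MJAC Q_MDIFF
def Q_MVAR : Prop := ∀ (ι : Type) [Fintype ι] (d : ℕ) (G U : Set (E ι)) (F : E ι → ℝ),
  Fintype.card ι = d + 1 → IsOpen G → AreaMin d G → IsChart (frontier G) U F →
  ContDiffOn ℝ (⊤ : ℕ∞) F U → ∀ φ : E ι → ℝ, ContDiff ℝ 1 φ → HasCompactSupport φ →
  tsupport φ ⊆ U → ∃ K t₀ : ℝ, 0 < t₀ ∧ ∀ t : ℝ, |t| ≤ t₀ →
    0 ≤ t * ∫ y in frontier G ∩ tsupport φ, φ y * meanCurv F y ∂μHE[d] +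
      t ^ 2 / 2 * ∫ y in frontier G ∩ tsupport φ, (‖tangentProj F y (gradient φ y)‖ ^ 2 +
        φ y ^ 2 * (meanCurv F y ^ 2 - sqCurv F y)) ∂μHE[d] + K * |t| ^ 3

/-- area minimizing boundaries are minimal -/
-- deps: Q_MMEAS Q_MVAR
def Q_MMIN : Prop := ∀ (ι : Type) [Fintype ι] (d : ℕ) (G U : Set (E ι)) (F : E ι → ℝ),
  Fintype.card ι = d + 1 → IsOpen G → AreaMin d G → IsChart (frontier G) U F →
  ContDiffOn ℝ (⊤ : ℕ∞) F U → ∀ x ∈ frontier G ∩ U, meanCurv F x = 0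

/-- area minimizing boundaries are stable -/
-- deps: Q_MMEAS Q_MVAR Q_MMIN
def Q_MSTAB : Prop := ∀ (ι : Type) [Fintype ι] (d : ℕ) (G U : Set (E ι)) (F : E ι → ℝ),
  Fintype.card ι = d + 1 → IsOpen G → AreaMin d G → IsChart (frontier G) U F →
  ContDiffOn ℝ (⊤ : ℕ∞) F U → (∀ x ∈ frontier G, x ≠ 0 → x ∈ U) → Stable d (frontier G) F

end Pool.Agent.P.MP_2b44f0_gt.PD
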