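import Pool.Agent.P.MP_2b44f0_gt.PD.IfC

/-!
The certificate for `n = 6` in scale free variables.
-/

namespace Pool.Agent.P.MP_2b44f0_gt.PD

open MeasureTheory Set
open scoped ENNReal

/-- the quadratic form of the gradient terms in the variables `u = (z, τ, y)`; `d₀, d₁, d₂` are
the derivatives of `A₀, A₁, A₂` in the direction `dir u v` -/
noncomputable def qf (A₀ A₁ A₂ d₀ d₁ d₂ : ℝ) (u : W) (l : ℝ) (v : W) : ℝ :=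
  A₀ * v.1 ^ 2 / (u.2.2 + (l - (1 - u.2.1) / 2) ^ 2) + 2 * A₁ * v.2.1 ^ 2 / l +
    2 * A₂ * v.2.2 ^ 2 / (1 - l) + v.1 * d₀ + v.2.1 * d₁ + v.2.2 * d₂ -
    (v.2.1 + v.2.2) * (2 * A₀ * v.1 + A₁ * v.2.1 + A₂ * v.2.2)

/-- the variation of `(z, τ, y)` -/
noncomputable def dir (u v : W) : W :=
  (-(u.1 * (1 - u.1) * (v.2.1 + v.2.2)), (1 - u.2.1) * v.2.2 - (1 + u.2.1) * v.2.1,
    2 / 3 * v.1 - 2 * u.2.2 * (v.2.1 + v.2.2))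

/-- `z = 2 / (2 + σ)`, `τ = (k' - k) / σ`, `y = 2 S / (3 σ²)`, `σ = k + k'` -/
noncomputable def crd (w : W) : W :=
  (2 / (2 + (w.2.1 + w.2.2)), (w.2.2 - w.2.1) / (w.2.1 + w.2.2),
    2 * w.1 / (3 * (w.2.1 + w.2.2) ^ 2))

/-- the domain of the matrix inequality; `l = (k + μ) / σ` -/
structure Dom (u : W) (l : ℝ) : Prop where
  z0 : 0 < u.1
  z1 : u.1 < 1
  t0 : -1 < u.2.1
  t1 : u.2.1 < 1
  y0 : 0 ≤ u.2.2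
  l0 : 0 < l
  l1 : l < 1
  kato : (l - (1 - u.2.1) / 2) ^ 2 ≤ 5 / 4 * u.2.2
  box : ∀ j : ℤ, l * (1 - l) + (3 * (1 - u.2.1) - l - j) * (j + 1 - (3 * (1 - u.2.1) - l)) ≤
    3 / 2 * (1 - u.2.1 ^ 2 - u.2.2)
  top : l * (1 - l) ≤ 3 / 2 * (1 - u.2.1 ^ 2 - u.2.2)

/-- a certificate in the scale free variables; `g` is the square of the test function, and
`B₀, B₁, B₂, g'` are the gradients -/
structure CertU (V₀ : ℝ) (A₀ A₁ A₂ g : W → ℝ) : Prop where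
  c0 : ContDiff ℝ 1 A₀
  c1 : ContDiff ℝ 1 A₁
  c2 : ContDiff ℝ 1 A₂
  cg : ContDiff ℝ 1 g
  pos : ∀ u l, Dom u l → 0 ≤ A₀ u ∧ 0 < A₁ u ∧ 0 < A₂ u ∧ 0 ≤ g u
  lmi : ∀ u l, Dom u l → ∀ (v : W) (c : ℝ), (u.2.2 = 0 → v.1 = 0) →
    0 ≤ qf (A₀ u) (A₁ u) (A₂ u) (dot (gr A₀ u) (dir u v)) (dot (gr A₁ u) (dir u v))
      (dot (gr A₂ u) (dir u v)) u l v + c * dot (gr g u) (dir u v) + c ^ 2 * g u
  vol : ∀ μ w, Adm (2 * 3) μ w → vol 3 μ w.2.1 w.2.2 ≤ V₀ +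
    (6 - w.1) * (3 * (crd w).2.2 * A₀ (crd w) + (1 - (crd w).2.1) / 2 * A₁ (crd w) +
      (1 + (crd w).2.1) / 2 * A₂ (crd w)) + (w.1 - 25 / 4) * g (crd w)

/-- admissible curvatures lie in the domain -/
-- deps:
def Q_ADM : Prop := ∀ (μ : Fin (2 * 3) → ℝ) (w : W), Adm (2 * 3) μ w → ∀ i,
  Dom (crd w) ((w.2.1 + μ i) / (w.2.1 + w.2.2))

-- deps: Q_ADM
def Q_CHG : Prop := ∀ (V₀ : ℝ) (A₀ A₁ A₂ g : W → ℝ), CertU V₀ A₀ A₁ A₂ g → ∀ δ : ℝ, 0 < δ →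
  ∃ Ω a f, Cert 3 (V₀ + δ) Ω a f

end Pool.Agent.P.MP_2b44f0_gt.PD
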