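import Pool.Agent.P.MP_2b44f0_gt.PD.IfC

/-!
Statements of the steps that reduce the volume bound to configurations with few values.
-/

namespace Pool.Agent.P.MP_2b44f0_gt.PD

open MeasureTheory Set

/-- a maximiser has at most two values inside the interval -/
-- deps:
def Q_RED : Prop := ∀ (m : ℕ) (k k' lo hi : ℝ) (μ : Fin (2 * m) → ℝ), lo ≤ hi → (∀ i, μ i ∈ Icc lo hi) →
  ∃ μ' : Fin (2 * m) → ℝ, (∀ i, μ' i ∈ Icc lo hi) ∧ ∑ i, μ' i = ∑ i, μ i ∧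
    ∑ i, μ' i ^ 2 = ∑ i, μ i ^ 2 ∧ vol m μ k k' ≤ vol m μ' k k' ∧
    ∃ u ∈ Icc lo hi, ∃ v ∈ Icc lo hi, ∀ i, μ' i = lo ∨ μ' i = hi ∨ μ' i = u ∨ μ' i = v

/-- the multiplicity types -/
def types : List (ℕ × ℕ × ℕ × ℕ) :=
  [(4, 0, 1, 1), (3, 1, 1, 1), (2, 2, 1, 1), (1, 3, 1, 1), (0, 4, 1, 1),
    (3, 0, 2, 1), (2, 1, 2, 1), (1, 2, 2, 1), (0, 3, 2, 1),
    (2, 0, 3, 1), (1, 1, 3, 1), (0, 2, 3, 1), (2, 0, 2, 2), (1, 1, 2, 2), (0, 2, 2, 2),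
    (1, 0, 4, 1), (0, 1, 4, 1), (1, 0, 3, 2), (0, 1, 3, 2),
    (0, 0, 5, 1), (0, 0, 4, 2), (0, 0, 3, 3)]

/-- the volume for a configuration of type `t` -/
noncomputable def volT (t : ℕ × ℕ × ℕ × ℕ) (k k' u v : ℝ) : ℝ :=
  ∫ ξ in (-k'⁻¹)..k⁻¹, (1 - ξ * k) ^ t.1 * (1 + ξ * k') ^ t.2.1 * (1 + ξ * u) ^ t.2.2.1 *
    (1 + ξ * v) ^ t.2.2.2 / (1 + ξ ^ 2) ^ 4

/-- reduction to the list of types -/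
-- deps: Q_RED
def Q_TYP : Prop := ∀ (k k' : ℝ) (μ : Fin (2 * 3) → ℝ), (∀ i, μ i ∈ Icc (-k) k') →
  ∃ t ∈ types, ∃ u ∈ Icc (-k) k', ∃ v ∈ Icc (-k) k',
    t.1 * (-k) + t.2.1 * k' + t.2.2.1 * u + t.2.2.2 * v = ∑ i, μ i ∧
    t.1 * k ^ 2 + t.2.1 * k' ^ 2 + t.2.2.1 * u ^ 2 + t.2.2.2 * v ^ 2 = ∑ i, μ i ^ 2 ∧
    vol 3 μ k k' ≤ volT t k k' u v

end Pool.Agent.P.MP_2b44f0_gt.PD
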