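import Pool.Agent.P.MP_2b44f0_gt.PD.Chk
import Pool.Agent.P.MP_2b44f0_gt.PD.Coef

/-!
Parameters of the kernel check of the matrix inequality.
-/

namespace Pool.Agent.P.MP_2b44f0_gt.PD.Chk

open Bn Pol

/-- the parameters -/
def par : Par := ⟨72, 6, 8, 4, 14, 4294967296⟩

/-- the arrays on the unit cube -/
def rt : ℕ := root par 128 19 (arrs (par.wd 128) cF cG (rf cG) cf 268435456)

theorem root_ok : rootOk par 128 19 (arrs (par.wd 128) cF cG (rf cG) cf 268435456) = true := by
  decide +kernel

/-- the check of one piece -/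
def pc (p : List (ℕ × Bool)) (t : Tr (List (ℕ × List ℕ))) : Bool :=
  run par (leaf par 268435456) t (wlk par rt p) (p.length * par.de + 1)

theorem pc_ok {p : List (ℕ × Bool)} {t : Tr (List (ℕ × List ℕ))} (h : pc p t = true) :
    At par (Qg cF cG (rf cG) cf (2 ^ 19 / (268435456 : ℕ)) (512 * 2 ^ 19))
      (root par 128 19 (arrs (par.wd 128) cF cG (rf cG) cf 268435456)) p :=
  run_ok rfl (by positivity) (by decide) t h

end Pool.Agent.P.MP_2b44f0_gt.PD.Chk
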