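import Pool.Agent.P.MP_2b44f0_gt.PD.Lm0
import Pool.Agent.P.MP_2b44f0_gt.PD.Lm1
import Pool.Agent.P.MP_2b44f0_gt.PD.Lm2
import Pool.Agent.P.MP_2b44f0_gt.PD.Lm3
import Pool.Agent.P.MP_2b44f0_gt.PD.Lm4

/-!
The matrix inequality for the explicit certificate.
-/

namespace Pool.Agent.P.MP_2b44f0_gt.PD.Chk

open Pol

theorem lmi_all : ∀ u l, Dom u l → 0 ≤ u.2.1 → Con cF cG (rf cG) cf u l :=
  lmi_ok rfl root_ok (At.top (At.glue (At.glue (At.glue (At.glue (pc_ok u1.2.2.2.1)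
    (pc_ok u1.1))
    (At.glue (pc_ok u0.2.2.2.1)
    (pc_ok u4.1)))
    (At.glue (At.glue (pc_ok u0.2.2.1)
    (pc_ok u1.2.2.1))
    (pc_ok u4.2.2.2.1)))
    (At.glue (At.glue (pc_ok u2.2.1)
    (At.glue (At.glue (pc_ok u0.2.1)
    (pc_ok u1.2.1))
    (pc_ok u0.1)))
    (At.glue (At.glue (At.glue (pc_ok u3.1)
    (At.glue (pc_ok u2.2.2.1)
    (pc_ok u3.2.2.1)))
    (At.glue (pc_ok u3.2.1)
    (pc_ok u2.1)))
    (At.glue (pc_ok u4.2.1)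
    (pc_ok u4.2.2.1))))))

end Pool.Agent.P.MP_2b44f0_gt.PD.Chk
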