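import Pool.Agent.P.MP_2b44f0_gt.PD.IfU

/-!
The matrix inequality on an interval of eigenvalues follows from finitely many sign conditions.
-/

namespace Pool.Agent.P.MP_2b44f0_gt.PD.Lmi

/-- a symmetric `3 × 3` matrix -/
structure Sym where
  (a b c d e f : ℝ)

/-- the form `a x² + b y² + c z² + 2 d x y + 2 e x z + 2 f y z` -/
def Sym.q (M : Sym) (v : W) : ℝ :=
  M.a * v.1 ^ 2 + M.b * v.2.1 ^ 2 + M.c * v.2.2 ^ 2 + 2 * M.d * v.1 * v.2.1 +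
    2 * M.e * v.1 * v.2.2 + 2 * M.f * v.2.1 * v.2.2

/-- the bilinear form -/
def Sym.bil (M : Sym) (v w : W) : ℝ :=
  M.a * v.1 * w.1 + M.b * v.2.1 * w.2.1 + M.c * v.2.2 * w.2.2 + M.d * (v.1 * w.2.1 + v.2.1 * w.1) +
    M.e * (v.1 * w.2.2 + v.2.2 * w.1) + M.f * (v.2.1 * w.2.2 + v.2.2 * w.2.1)

theorem dd {M : Sym} (h1 : |M.d| + |M.e| ≤ M.a) (h2 : |M.d| + |M.f| ≤ M.b)
    (h3 : |M.e| + |M.f| ≤ M.c) (v : W) : 0 ≤ M.q v := by
  have k : ∀ t x y : ℝ, 0 ≤ |t| * (x ^ 2 + y ^ 2) + 2 * t * x * y := fun t x y => by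
    rcases abs_cases t with h | h <;> rw [h.1]
    · nlinarith [mul_nonneg h.2 (sq_nonneg (x + y))]
    · nlinarith [mul_nonneg (neg_pos.2 h.2).le (sq_nonneg (x - y))]
  have e1 := mul_le_mul_of_nonneg_right h1 (sq_nonneg v.1)
  have e2 := mul_le_mul_of_nonneg_right h2 (sq_nonneg v.2.1)
  have e3 := mul_le_mul_of_nonneg_right h3 (sq_nonneg v.2.2)
  have := k M.d v.1 v.2.1
  have := k M.e v.1 v.2.2
  have := k M.f v.2.1 v.2.2
  unfold Sym.q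
  linarith

theorem abs_add_le_of {x y a : ℝ} (h1 : 0 ≤ a + x + y) (h2 : 0 ≤ a + x - y) (h3 : 0 ≤ a - x + y)
    (h4 : 0 ≤ a - x - y) : |x| + |y| ≤ a := by
  rcases abs_cases x with h | h <;> rcases abs_cases y with h' | h' <;> linarith [h.1, h'.1]

/-- the inverse of the triangular matrix with columns `(p,0,0)`, `(q,r,0)`, `(s,t,u)` -/
noncomputable def tinv (p q r s t u : ℝ) (v : W) : W :=
  ((v.1 - q * ((v.2.1 - t * (v.2.2 / u)) / r) - s * (v.2.2 / u)) / p,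
    (v.2.1 - t * (v.2.2 / u)) / r, v.2.2 / u)

/-- `Tᵗ M T` is diagonally dominant -/
def DD (M : Sym) (p q r s t u : ℝ) : Prop :=
  |M.bil (p, 0, 0) (q, r, 0)| + |M.bil (p, 0, 0) (s, t, u)| ≤ M.bil (p, 0, 0) (p, 0, 0) ∧
    |M.bil (p, 0, 0) (q, r, 0)| + |M.bil (q, r, 0) (s, t, u)| ≤ M.bil (q, r, 0) (q, r, 0) ∧
    |M.bil (p, 0, 0) (s, t, u)| + |M.bil (q, r, 0) (s, t, u)| ≤ M.bil (s, t, u) (s, t, u)

theorem tri {M : Sym} {p q r s t u : ℝ} (hp : p ≠ 0) (hr : r ≠ 0) (hu : u ≠ 0)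
    (h : DD M p q r s t u) (v : W) : 0 ≤ M.q v := by
  have := dd (M := ⟨_, _, _, M.bil (p, 0, 0) (q, r, 0), M.bil (p, 0, 0) (s, t, u),
    M.bil (q, r, 0) (s, t, u)⟩) h.1 h.2.1 h.2.2 (tinv p q r s t u v)
  refine this.trans_eq ?_
  simp only [Sym.q, Sym.bil, tinv]
  field_simp
  ring

/-- the derivative in the direction of the first variable; `g` is the gradient -/
noncomputable def d1 (g : W) : ℝ := 2 / 3 * g.2.2

/-- the derivative in the direction of the second variable -/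
def d2 (u g : W) : ℝ := -(u.1 * (1 - u.1) * g.1) - (1 + u.2.1) * g.2.1 - 2 * u.2.2 * g.2.2

/-- the derivative in the direction of the third variable -/
def d3 (u g : W) : ℝ := -(u.1 * (1 - u.1) * g.1) + (1 - u.2.1) * g.2.1 - 2 * u.2.2 * g.2.2

/-- the part of the form that does not depend on the eigenvalue -/
noncomputable def nm (A₀ A₁ A₂ : ℝ) (g₀ g₁ g₂ g u : W) : Sym where
  a := d1 g₀ - d1 g ^ 2
  b := d2 u g₁ - A₁ - d2 u g ^ 2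
  c := d3 u g₂ - A₂ - d3 u g ^ 2
  d := (d2 u g₀ + d1 g₁) / 2 - A₀ - d1 g * d2 u g
  e := (d3 u g₀ + d1 g₂) / 2 - A₀ - d1 g * d3 u g
  f := (d3 u g₁ + d2 u g₂ - A₁ - A₂) / 2 - d2 u g * d3 u g

/-- the denominator of the Kato term -/
noncomputable def den (u : W) (x : ℝ) : ℝ := u.2.2 + (x - (1 - u.2.1) / 2) ^ 2

/-- the slack in the box condition, convex in `x` -/
noncomputable def gap (j : ℤ) (u : W) (x : ℝ) : ℝ :=
  3 / 2 * (1 - u.2.1 ^ 2 - u.2.2) -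
    (x * (1 - x) + (3 * (1 - u.2.1) - x - j) * (j + 1 - (3 * (1 - u.2.1) - x)))

/-- the linearised Kato range -/
noncomputable def gk (c : ℝ) (u : W) (x : ℝ) : ℝ :=
  5 / 4 * u.2.2 - 2 * c * (x - (1 - u.2.1) / 2) + c ^ 2

/-- a combination of the constraints -/
noncomputable def sk (m n m' c : ℝ) (j : ℤ) (u : W) (x : ℝ) : ℝ :=
  m * gap j u x + n * gap (j - 1) u x + m' * gk c u x

theorem slack {u : W} {l : ℝ} (hD : Dom u l) {m n m' : ℝ} (hm : 0 ≤ m) (hn : 0 ≤ n)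
    (hm' : 0 ≤ m') (j : ℤ) (c : ℝ) : 0 ≤ sk m n m' c j u l := by
  have h1 : 0 ≤ gap j u l := sub_nonneg.2 (hD.box j)
  have h3 : 0 ≤ gap (j - 1) u l := sub_nonneg.2 (hD.box _)
  unfold sk
  have h2 : 0 ≤ gk c u l := by
    unfold gk; nlinarith [hD.kato, sq_nonneg (l - (1 - u.2.1) / 2 - c)]
  positivity

theorem tang {t : ℝ} (ht : 0 < t) (α : ℝ) : 2 * α - α ^ 2 * t ≤ 1 / t := by
  rw [le_div_iff₀ ht]; nlinarith [sq_nonneg (α * t - 1)]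

theorem qf_eq (A₀ A₁ A₂ : ℝ) (g₀ g₁ g₂ g u : W) (l : ℝ) (v : W) :
    qf A₀ A₁ A₂ (dot g₀ (dir u v)) (dot g₁ (dir u v)) (dot g₂ (dir u v)) u l v -
      dot g (dir u v) ^ 2 = A₀ * v.1 ^ 2 * (1 / den u l) + 2 * A₁ * v.2.1 ^ 2 * (1 / l) +
      2 * A₂ * v.2.2 ^ 2 * (1 / (1 - l)) + (nm A₀ A₁ A₂ g₀ g₁ g₂ g u).q v := by
  simp only [qf, dot, dir, den, Sym.q, nm, d1, d2, d3]
  ring

/-- the Kato term between two nodes -/
theorem kat {y a b α₀ α₁ s₀ s₁ κ : ℝ} (hy : 0 < y) (ha : 0 ≤ a) (hb : 0 ≤ b) (h : a + b = 1)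
    (hκ : 257 / 4 * ((α₁ - α₀) * (s₁ - s₀)) ^ 2 ≤ κ) :
    a * (4 * α₀ - κ - 257 / 64 * α₀ ^ 2 * (y + s₀ ^ 2)) +
      b * (4 * α₁ - κ - 257 / 64 * α₁ ^ 2 * (y + s₁ ^ 2)) ≤ 1 / (y + (a * s₀ + b * s₁) ^ 2) := by
  refine le_trans ?_ (tang (by positivity) (2 * (a * α₀ + b * α₁)))
  obtain rfl : a = 1 - b := by linarith
  have hab := mul_nonneg ha hb
  have h4 : (1 - b) * b ≤ 1 / 4 := by nlinarith [sq_nonneg (1 - 2 * b)]
  have h5 : ((1 - b) * b) ^ 2 ≤ 1 / 16 := by nlinarith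
  have h6 := mul_le_mul_of_nonneg_right h5 (sq_nonneg ((α₁ - α₀) * (s₁ - s₀)))
  have h7 := mul_nonneg hab (sq_nonneg (α₁ * s₁ - α₀ * s₀))
  have h8 := mul_nonneg (mul_nonneg hab (sq_nonneg (α₁ - α₀))) hy.le
  have h9 := mul_nonneg (add_nonneg (mul_nonneg ha (sq_nonneg α₀)) (mul_nonneg hb (sq_nonneg α₁)))
    hy.le
  have h10 := sq_nonneg (((1 - b) * α₀ * s₀ + b * α₁ * s₁) / 16 +
    16 * ((1 - b) * b * ((α₁ - α₀) * (s₁ - s₀))))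
  linear_combination hκ + 1028 * h6 + 257 / 64 * h7 + 4 * h8 + h9 / 64 + 4 * h10

/-- the matrix at a node -/
noncomputable def mm (N : Sym) (A₀ A₁ A₂ : ℝ) (u : W) (x α κ b g : ℝ) : Sym where
  a := N.a + A₀ * (4 * α - κ - 257 / 64 * α ^ 2 * den u x)
  b := N.b + A₁ * b
  c := N.c + A₂ * g
  d := N.d
  e := N.e
  f := N.f

/-- an interval of eigenvalues is accepted when the test holds at both ends -/
theorem leaf {A₀ A₁ A₂ : ℝ} {g₀ g₁ g₂ g u : W}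
    {l x₀ x₁ α₀ α₁ κ b₀ b₁ c₀ c₁ β γ m n m' c R : ℝ} {j : ℤ}
    (hD : Dom u l) (h0 : 0 ≤ A₀) (h1 : 0 ≤ A₁) (h2 : 0 ≤ A₂) (k0 : 0 ≤ m) (k2 : 0 ≤ n)
    (k1 : 0 ≤ m') (hl : x₀ ≤ l) (hh : l ≤ x₁) {v : W} (hv : u.2.2 = 0 → v.1 = 0) (hR : 0 ≤ R)
    (hκ : 257 / 4 * ((α₁ - α₀) * (x₁ - x₀)) ^ 2 ≤ κ)
    (e0 : b₀ ≤ 2 * (2 * β - β ^ 2 * x₀)) (e1 : b₁ ≤ 2 * (2 * β - β ^ 2 * x₁))
    (e2 : c₀ ≤ 2 * (2 * γ - γ ^ 2 * (1 - x₀))) (e3 : c₁ ≤ 2 * (2 * γ - γ ^ 2 * (1 - x₁)))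
    (f1 : sk m n m' c j u x₀ * R ≤
      (mm (nm A₀ A₁ A₂ g₀ g₁ g₂ g u) A₀ A₁ A₂ u x₀ α₀ κ b₀ c₀).q v)
    (f2 : sk m n m' c j u x₁ * R ≤
      (mm (nm A₀ A₁ A₂ g₀ g₁ g₂ g u) A₀ A₁ A₂ u x₁ α₁ κ b₁ c₁).q v) :
    dot g (dir u v) ^ 2 ≤
      qf A₀ A₁ A₂ (dot g₀ (dir u v)) (dot g₁ (dir u v)) (dot g₂ (dir u v)) u l v := by
  rw [← sub_nonneg, qf_eq]
  generalize nm A₀ A₁ A₂ g₀ g₁ g₂ g u = N at *
  obtain ⟨a, b, ha, hb, hab, hx⟩ := (Convex.mem_Icc (hl.trans hh)).1 ⟨hl, hh⟩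
  have s1 := mul_nonneg h0 (sq_nonneg v.1)
  have s2 := mul_nonneg h1 (sq_nonneg v.2.1)
  have s3 := mul_nonneg h2 (sq_nonneg v.2.2)
  have t0 : A₀ * v.1 ^ 2 * (a * (4 * α₀ - κ - 257 / 64 * α₀ ^ 2 * den u x₀) +
      b * (4 * α₁ - κ - 257 / 64 * α₁ ^ 2 * den u x₁)) ≤ A₀ * v.1 ^ 2 * (1 / den u l) := by
    rcases hD.y0.eq_or_lt with h | h
    · simp [hv h.symm]
    · refine mul_le_mul_of_nonneg_left ((kat h ha hb hab (by simpa using hκ)).trans_eq ?_) s1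
      unfold den
      congr 3
      linear_combination hx - (1 - u.2.1) / 2 * hab
  have t1 := mul_le_mul_of_nonneg_left (tang hD.l0 β) s2
  have t2 := mul_le_mul_of_nonneg_left (tang (sub_pos.2 hD.l1) γ) s3
  have t3 := mul_nonneg (slack hD k0 k2 k1 j c) hR
  have t4 := mul_nonneg (mul_nonneg (mul_nonneg (mul_nonneg ha hb) (add_nonneg k0 k2))
    (sq_nonneg (x₁ - x₀))) hR
  have u0 := mul_le_mul_of_nonneg_left e0 (mul_nonneg ha s2)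
  have u1 := mul_le_mul_of_nonneg_left e1 (mul_nonneg hb s2)
  have u2 := mul_le_mul_of_nonneg_left e2 (mul_nonneg ha s3)
  have u3 := mul_le_mul_of_nonneg_left e3 (mul_nonneg hb s3)
  have g1 := mul_le_mul_of_nonneg_left f1 ha
  have g2 := mul_le_mul_of_nonneg_left f2 hb
  obtain rfl : a = 1 - b := by linarith
  subst hx
  simp only [Sym.q, mm, sk, gap, gk] at g1 g2 t3 ⊢
  linear_combination t0 + 2 * t1 + 2 * t2 + t3 + 2 * t4 + u0 + u1 + u2 + u3 + g1 + g2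

/-- an interval is excluded when the slack is negative at both ends -/
theorem out {u : W} {l lo hi m n m' c : ℝ} {j : ℤ} (hD : Dom u l) (k0 : 0 ≤ m) (k2 : 0 ≤ n)
    (k1 : 0 ≤ m')
    (hl : lo ≤ l) (hh : l ≤ hi) (e1 : sk m n m' c j u lo < 0)
    (e2 : sk m n m' c j u hi < 0) : False := by
  have hg := slack hD k0 k2 k1 j c
  rcases hl.eq_or_lt with h | h
  · rw [h] at e1; linarith
  · have c0 := mul_nonneg (add_nonneg k0 k2) (mul_nonneg (mul_nonneg (sub_nonneg.2 hl) (sub_nonneg.2 hh))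
      (sub_nonneg.2 (hl.trans hh)))
    have : (hi - lo) * sk m n m' c j u l =
        (hi - l) * sk m n m' c j u lo +
        (l - lo) * sk m n m' c j u hi -
        2 * ((m + n) * ((l - lo) * (hi - l) * (hi - lo))) := by simp only [sk, gap, gk]; ring
    nlinarith [mul_nonneg (sub_nonneg.2 (hl.trans hh)) hg, mul_pos (sub_pos.2 h) (neg_pos.2 e2),
      mul_nonneg (sub_nonneg.2 hh) (neg_pos.2 e1).le]

end Pool.Agent.P.MP_2b44f0_gt.PD.Lmi
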