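import Pool.Agent.P.MP_2b44f0_gt.PD.Pol

/-!
Dense polynomials in three variables and a sign test on the unit cube.
-/

namespace Pool.Agent.P.MP_2b44f0_gt.PD.Loc

section
variable {α : Type}

/-- the value of a list of coefficients -/
noncomputable def evL (e : α → ℝ) (t : ℝ) : List α → ℝ
  | [] => 0
  | x :: p => e x + t * evL e t p

/-- the sum -/
noncomputable def addL (a : α → α → α) (p : List α) : List α → List α :=
  List.rec (fun q => q) (fun x p ih q => List.rec (x :: p) (fun y q _ => a x y :: ih q) q) p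

/-- a map -/
noncomputable def mapL (g : α → α) (p : List α) : List α :=
  List.rec [] (fun x _ ih => g x :: ih) p

/-- the product -/
noncomputable def mulL (a m : α → α → α) (z : α) (q p : List α) : List α :=
  List.rec [] (fun x _ ih => addL a (mapL (m x) q) (z :: ih)) p

/-- the shift of the variable by one -/
noncomputable def shL (a : α → α → α) (p : List α) : List α :=
  List.rec [] (fun x _ ih => addL a (x :: ih) ih) p

/-- the variable is halved, the coefficients are rounded down -/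
noncomputable def hlL (d : ℕ → α → α) (p : List α) : ℕ → List α :=
  List.rec (fun _ => []) (fun x _ ih i => d i x :: ih (Nat.succ i)) p

/-- a difference of natural numbers -/
noncomputable def sbn (m n : ℕ) : ℤ :=
  Bool.rec (Int.negSucc (Nat.sub n (Nat.succ m))) (Int.ofNat (Nat.sub m n)) (Nat.ble n m)

/-- the sum of integers -/
noncomputable def ia (x y : ℤ) : ℤ :=
  Int.rec (fun m => Int.rec (fun n => Int.ofNat (Nat.add m n)) (fun n => sbn m (Nat.succ n)) y)
    (fun m => Int.rec (fun n => sbn n (Nat.succ m))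
      (fun n => Int.negSucc (Nat.succ (Nat.add m n))) y) x

/-- the product of integers -/
noncomputable def im (x y : ℤ) : ℤ :=
  Int.rec (fun m => Int.rec (fun n => Int.ofNat (Nat.mul m n))
      (fun n => sbn 0 (Nat.mul m (Nat.succ n))) y)
    (fun m => Int.rec (fun n => sbn 0 (Nat.mul (Nat.succ m) n))
      (fun n => Int.ofNat (Nat.mul (Nat.succ m) (Nat.succ n))) y) x

theorem sbn_eq (m n : ℕ) : sbn m n = m - n := by
  unfold sbn
  cases h : Nat.ble n m
  · have : m < n := by simpa [Nat.ble_eq, ← Bool.not_eq_true] using h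
    show Int.negSucc (n - (m + 1)) = _
    omega
  · have := Nat.le_of_ble_eq_true h
    show ((m - n : ℕ) : ℤ) = _
    omega

theorem ia_eq (x y : ℤ) : ia x y = x + y := by
  rcases x with m | m <;> rcases y with n | n
  · rfl
  · exact (sbn_eq m (n + 1)).trans (by simp only [Int.ofNat_eq_natCast]; omega)
  · exact (sbn_eq n (m + 1)).trans (by simp only [Int.ofNat_eq_natCast]; omega)
  · rfl

theorem im_eq (x y : ℤ) : im x y = x * y := by
  rcases x with m | m <;> rcases y with n | n
  · rfl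
  · exact (sbn_eq 0 (m * (n + 1))).trans (by
      simp only [Int.ofNat_eq_natCast, Int.negSucc_eq]; push_cast; ring)
  · exact (sbn_eq 0 ((m + 1) * n)).trans (by
      simp only [Int.ofNat_eq_natCast, Int.negSucc_eq]; push_cast; ring)
  · rfl

/-- a lower bound on the unit interval -/
noncomputable def loL (l : α → ℤ) (p : List α) : ℤ :=
  List.rec 0 (fun x _ ih => Int.rec (fun _ => l x) (fun n => ia (l x) (Int.negSucc n)) ih) p

theorem loL_cons (l : α → ℤ) (x : α) (p : List α) : loL l (x :: p) = l x + min 0 (loL l p) := by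
  show (Int.rec (fun _ => l x) (fun n => ia (l x) (Int.negSucc n)) (loL l p) : ℤ) = _
  rcases loL l p with n | n
  · show l x = _
    simp
  · show ia (l x) _ = _
    rw [ia_eq, min_eq_right (Int.negSucc_lt_zero n).le]

variable {e : α → ℝ} {t : ℝ} {a m : α → α → α} {z : α}

theorem ev_add (h : ∀ x y, e (a x y) = e x + e y) :
    ∀ p q, evL e t (addL a p q) = evL e t p + evL e t q
  | [], q => (zero_add _).symm
  | x :: p, [] => (add_zero _).symm
  | x :: p, y :: q => by
    show e (a x y) + t * evL e t (addL a p q) = _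
    simp only [evL, h, ev_add h p q]
    ring

theorem ev_map {g : α → α} {c : ℝ} (h : ∀ y, e (g y) = c * e y) :
    ∀ q, evL e t (mapL g q) = c * evL e t q
  | [] => (mul_zero _).symm
  | y :: q => by
    show e (g y) + t * evL e t (mapL g q) = _
    simp only [evL, h, ev_map h q]
    ring

theorem ev_mul (h : ∀ x y, e (a x y) = e x + e y) (k : ∀ x y, e (m x y) = e x * e y)
    (hz : e z = 0) (q : List α) : ∀ p, evL e t (mulL a m z q p) = evL e t p * evL e t q
  | [] => (zero_mul _).symm
  | x :: p => by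
    show evL e t (addL a (mapL (m x) q) (z :: mulL a m z q p)) = _
    simp only [ev_add h, evL, hz, ev_mul h k hz q p, ev_map (k x)]
    ring

theorem ev_sh (h : ∀ x y, e (a x y) = e x + e y) :
    ∀ p, evL e t (shL a p) = evL e (1 + t) p
  | [] => rfl
  | x :: p => by
    show evL e t (addL a (x :: shL a p) (shL a p)) = _
    simp only [ev_add h, evL, ev_sh h p]
    ring

theorem ev_hl {d : ℕ → α → α} (h : ∀ i x, 2 ^ i * e (d i x) ≤ e x) (ht : 0 ≤ t) :
    ∀ p i, 2 ^ i * evL e t (hlL d p i) ≤ evL e (t / 2) p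
  | [], i => (mul_zero _).le
  | x :: p, i => by
    have h1 := mul_le_mul_of_nonneg_left (ev_hl h ht p (i + 1)) (show 0 ≤ t / 2 by positivity)
    have h2 := h i x
    show 2 ^ i * (e (d i x) + t * evL e t (hlL d p (i + 1))) ≤ e x + t / 2 * evL e (t / 2) p
    rw [pow_succ] at h1
    linarith

theorem ev_mono {e' : α → ℝ} {g : α → α} {c : ℝ} (h : ∀ x, c * e' (g x) ≤ e x) (ht : 0 ≤ t) :
    ∀ p : List α, c * evL e' t (mapL g p) ≤ evL e t p
  | [] => (mul_zero _).le
  | x :: p => by
    have h1 := mul_le_mul_of_nonneg_left (ev_mono h ht p) ht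
    have h2 := h x
    show c * (e' (g x) + t * evL e' t (mapL g p)) ≤ e x + t * evL e t p
    linarith

theorem ev_congr {e' : α → ℝ} {g : α → α} (h : ∀ x, e' (g x) = e x) (t : ℝ) :
    ∀ p : List α, evL e' t (mapL g p) = evL e t p
  | [] => rfl
  | x :: p => by
    show e' (g x) + t * evL e' t (mapL g p) = _
    simp only [evL, h, ev_congr h t p]

theorem ev_lo {l : α → ℤ} (h : ∀ x, (l x : ℝ) ≤ e x) (h0 : 0 ≤ t) (h1 : t ≤ 1) :
    ∀ p, (loL l p : ℝ) ≤ evL e t p
  | [] => Int.cast_zero.le
  | x :: p => by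
    have k := ev_lo h h0 h1 p
    have h2 := h x
    simp only [loL_cons, evL]
    push_cast
    rcases le_total 0 (loL l p : ℝ) with c | c
    · rw [min_eq_left c]
      nlinarith [mul_nonneg h0 (c.trans k)]
    · rw [min_eq_right c]
      nlinarith [mul_le_mul_of_nonneg_left k h0, mul_nonneg (sub_nonneg.2 h1) (neg_nonneg.2 c)]

theorem ev_rep (hz : e z = 0) (x : α) : ∀ n, evL e t (List.replicate n z ++ [x]) = t ^ n * e x
  | 0 => by simp [evL]
  | n + 1 => by
    simp only [List.replicate_succ, List.cons_append, evL, hz, ev_rep hz x n]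
    ring

end

/-- polynomials in three variables -/
abbrev P3 : Type := List (List (List ℤ))

/-- the value, one variable -/
noncomputable def v1 (s : ℝ) : List ℤ → ℝ := evL (fun c : ℤ => (c : ℝ)) s
/-- the value, two variables -/
noncomputable def v2 (t s : ℝ) : List (List ℤ) → ℝ := evL (v1 s) t
/-- the value, three variables -/
noncomputable def v3 (w t s : ℝ) : P3 → ℝ := evL (v2 t s) w

/-- sum, one variable -/
noncomputable def a1 : List ℤ → List ℤ → List ℤ := addL ia
/-- sum, two variables -/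
noncomputable def a2 : List (List ℤ) → List (List ℤ) → List (List ℤ) := addL a1
/-- sum, three variables -/
noncomputable def a3 : P3 → P3 → P3 := addL a2
/-- product, one variable -/
noncomputable def m1 (p q : List ℤ) : List ℤ := mulL ia im 0 q p
/-- product, two variables -/
noncomputable def m2 (p q : List (List ℤ)) : List (List ℤ) := mulL a1 m1 [] q p
/-- product, three variables -/
noncomputable def m3 (p q : P3) : P3 := mulL a2 m2 [] q p
/-- multiple -/
noncomputable def sm (c : ℤ) (p : P3) : P3 := mapL (mapL (mapL (im c))) p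
/-- monomial -/
def mo (i j k : ℕ) (c : ℤ) : P3 :=
  List.replicate i [] ++ [List.replicate j [] ++ [List.replicate k 0 ++ [c]]]
/-- power -/
noncomputable def pw (p : P3) : ℕ → P3
  | 0 => [[[1]]]
  | n + 1 => m3 p (pw p n)

variable {w t s : ℝ}

theorem c_add (x y : ℤ) : (ia x y : ℝ) = x + y := by rw [ia_eq, Int.cast_add]
theorem c_mul (x y : ℤ) : (im x y : ℝ) = x * y := by rw [im_eq, Int.cast_mul]
theorem v_a1 (p q) : v1 s (a1 p q) = v1 s p + v1 s q := ev_add c_add p q
theorem v_a2 (p q) : v2 t s (a2 p q) = v2 t s p + v2 t s q := ev_add v_a1 p q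
theorem v_a3 (p q) : v3 w t s (a3 p q) = v3 w t s p + v3 w t s q := ev_add v_a2 p q
theorem v_m1 (p q) : v1 s (m1 p q) = v1 s p * v1 s q := ev_mul c_add c_mul Int.cast_zero q p
theorem v_m2 (p q) : v2 t s (m2 p q) = v2 t s p * v2 t s q := ev_mul v_a1 v_m1 rfl q p
theorem v_m3 (p q) : v3 w t s (m3 p q) = v3 w t s p * v3 w t s q := ev_mul v_a2 v_m2 rfl q p
theorem v_sm (c p) : v3 w t s (sm c p) = c * v3 w t s p :=
  ev_map (ev_map (ev_map (c_mul c))) p

theorem v_mo (i j k c) : v3 w t s (mo i j k c) = c * (w ^ i * t ^ j * s ^ k) := by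
  have h1 : v1 s (List.replicate k 0 ++ [c]) = s ^ k * c := ev_rep Int.cast_zero c k
  have h2 : ∀ x, v2 t s (List.replicate j [] ++ [x]) = t ^ j * v1 s x :=
    fun x => ev_rep (e := v1 s) (z := []) rfl x j
  have h3 : ∀ x, v3 w t s (List.replicate i [] ++ [x]) = w ^ i * v2 t s x :=
    fun x => ev_rep (e := v2 t s) (z := []) rfl x i
  rw [mo, h3, h2, h1]
  ring

theorem v_pw (p : P3) : ∀ n, v3 w t s (pw p n) = v3 w t s p ^ n
  | 0 => by simp [pw, v3, v2, v1, evL]
  | n + 1 => by rw [pw, v_m3, v_pw p n, pow_succ']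

/-- division by a power of two -/
noncomputable def d0 (i : ℕ) (x : ℤ) : ℤ :=
  Int.rec (fun m => Int.ofNat (Nat.shiftRight m i)) (fun m => Int.negSucc (Nat.shiftRight m i)) x
/-- the same for one variable -/
noncomputable def d1 (i : ℕ) : List ℤ → List ℤ := mapL (d0 i)
/-- the same for two variables -/
noncomputable def d2 (i : ℕ) : List (List ℤ) → List (List ℤ) := mapL (d1 i)

theorem v_d0 (i : ℕ) (x : ℤ) : (2 : ℝ) ^ i * (d0 i x : ℤ) ≤ x := by
  have e : d0 i x = x >>> i := by cases x <;> rfl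
  have : 2 ^ i * (x / 2 ^ i) ≤ x := Int.mul_ediv_self_le (by positivity)
  rw [e, Int.shiftRight_eq_div_pow]
  exact_mod_cast this

theorem v_d1 (hs : 0 ≤ s) (i : ℕ) (x) : 2 ^ i * v1 s (d1 i x) ≤ v1 s x := ev_mono (v_d0 i) hs x

theorem v_d2 (ht : 0 ≤ t) (hs : 0 ≤ s) (i : ℕ) (x) : 2 ^ i * v2 t s (d2 i x) ≤ v2 t s x :=
  ev_mono (v_d1 hs i) ht x

/-- a subdivision -/
inductive Tr
  | o : Tr
  | x : Tr → Tr → Tr
  | y : Tr → Tr → Tr
  | z : Tr → Tr → Tr

/-- the test -/
noncomputable def chk : Tr → P3 → Bool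
  | .o, p => decide (0 ≤ loL (loL (loL id)) p)
  | .x l r, p => chk l (hlL d2 p 0) && chk r (shL a2 (hlL d2 p 0))
  | .y l r, p => chk l (mapL (hlL d1 · 0) p) && chk r (mapL (shL a1) (mapL (hlL d1 · 0) p))
  | .z l r, p => chk l (mapL (mapL (hlL d0 · 0)) p) &&
      chk r (mapL (mapL (shL ia)) (mapL (mapL (hlL d0 · 0)) p))

/-- nonnegative on the unit cube -/
def Ok (p : P3) : Prop :=
  ∀ w t s : ℝ, 0 ≤ w → w ≤ 1 → 0 ≤ t → t ≤ 1 → 0 ≤ s → s ≤ 1 → 0 ≤ v3 w t s p

theorem two {f g : ℝ → ℝ} (h : ∀ x, 0 ≤ x → g x ≤ f (x / 2)) (l : ∀ x, 0 ≤ x → x ≤ 1 → 0 ≤ g x)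
    (r : ∀ x, 0 ≤ x → x ≤ 1 → 0 ≤ g (1 + x)) (x : ℝ) (h0 : 0 ≤ x) (h1 : x ≤ 1) : 0 ≤ f x := by
  have e : f x = f (2 * x / 2) := by rw [mul_div_cancel_left₀ x two_ne_zero]
  rw [e]
  refine le_trans ?_ (h _ (by linarith))
  rcases le_total (2 * x) 1 with c | c
  · exact l _ (by linarith) c
  · have := r (2 * x - 1) (by linarith) (by linarith)
    rwa [add_sub_cancel] at this

theorem chk_ok : ∀ (T : Tr) (p : P3), chk T p = true → Ok p
  | .o, p => fun h w t s a b c d e f => by
    have h1 : (0 : ℝ) ≤ (loL (loL (loL id)) p : ℤ) := by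
      exact_mod_cast of_decide_eq_true h
    exact h1.trans (ev_lo (ev_lo (ev_lo (fun _ => le_rfl) e f) c d) a b p)
  | .x l r, p => fun h w t s a b c d e f => by
    rw [chk, Bool.and_eq_true] at h
    refine two (f := fun w => v3 w t s p) (g := fun w => v3 w t s (hlL d2 p 0)) (fun x hx => ?_)
      (fun x x0 x1 => chk_ok l _ h.1 x t s x0 x1 c d e f) (fun x x0 x1 => ?_) w a b
    · have := ev_hl (v_d2 c e) hx p 0
      rwa [pow_zero, one_mul] at this
    · exact (chk_ok r _ h.2 x t s x0 x1 c d e f).trans_eq (ev_sh v_a2 _)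
  | .y l r, p => fun h w t s a b c d e f => by
    rw [chk, Bool.and_eq_true] at h
    refine two (f := fun t => v3 w t s p) (g := fun t => v3 w t s (mapL (hlL d1 · 0) p))
      (fun x hx => ?_) (fun x x0 x1 => chk_ok l _ h.1 w x s a b x0 x1 e f) (fun x x0 x1 => ?_) t c d
    · have := ev_mono (fun q => ev_hl (v_d1 e) hx q 0) a p
      rwa [pow_zero, one_mul] at this
    · exact (chk_ok r _ h.2 w x s a b x0 x1 e f).trans_eq (ev_congr (ev_sh v_a1) _ _)
  | .z l r, p => fun h w t s a b c d e f => by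
    rw [chk, Bool.and_eq_true] at h
    refine two (f := fun s => v3 w t s p) (g := fun s => v3 w t s (mapL (mapL (hlL d0 · 0)) p))
      (fun x hx => ?_) (fun x x0 x1 => chk_ok l _ h.1 w t x a b c d x0 x1) (fun x x0 x1 => ?_) s e f
    · have := ev_mono (ev_mono (fun q => ev_hl v_d0 hx q 0) c) a p
      rwa [pow_zero, one_mul] at this
    · exact (chk_ok r _ h.2 w t x a b c d x0 x1).trans_eq
        (ev_congr (ev_congr (ev_sh c_add) _) _ _)

end Pool.Agent.P.MP_2b44f0_gt.PD.Loc
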