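import Pool.Agent.P.MP_2b44f0_gt.PD.LocA

/-!
A sign test for polynomials that vanish to weighted order four at the origin.
-/

namespace Pool.Agent.P.MP_2b44f0_gt.PD.Loc

/-- the monomials, one variable -/
noncomputable def fl1 (g : ℤ) (i j : ℕ) (r : Pol) : ℕ → List ℤ → Pol
  | _, [] => r
  | k, c :: p => (i, j, k, im g c) :: fl1 g i j r (k + 1) p

/-- the monomials, two variables -/
noncomputable def fl2 (g : ℤ) (i : ℕ) (r : Pol) : ℕ → List (List ℤ) → Pol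
  | _, [] => r
  | j, x :: p => fl1 g i j (fl2 g i r (j + 1) p) 0 x

/-- the monomials, three variables; the first variable is multiplied by `A` -/
noncomputable def fl3 (A : ℤ) : ℕ → ℤ → P3 → Pol
  | _, _, [] => []
  | i, g, x :: p => fl2 g i (fl3 A (i + 1) (g * A) p) 0 x

variable {w t s : ℝ}

theorem ev_fl1 (g i j r) : ∀ (p : List ℤ) (k : ℕ), Pol.ev (fl1 g i j r k p) (w, t, s) =
    g * (w ^ i * t ^ j * s ^ k) * v1 s p + Pol.ev r (w, t, s)
  | [], k => by simp [fl1, v1, evL]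
  | c :: p, k => by
    have := ev_fl1 g i j r p (k + 1)
    simp only [fl1, Pol.ev, this, v1, evL, c_mul]
    ring

theorem ev_fl2 (g i r) : ∀ (p : List (List ℤ)) (j : ℕ), Pol.ev (fl2 g i r j p) (w, t, s) =
    g * (w ^ i * t ^ j) * v2 t s p + Pol.ev r (w, t, s)
  | [], j => by simp [fl2, v2, evL]
  | x :: p, j => by
    have := ev_fl2 g i r p (j + 1)
    simp only [fl2, ev_fl1, this, v2, evL]
    ring

theorem ev_fl3 (A : ℤ) : ∀ (p : P3) (i : ℕ) (g : ℤ), Pol.ev (fl3 A i g p) (w, t, s) =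
    g * w ^ i * v3 (A * w) t s p
  | [], i, g => by simp [fl3, v3, evL, Pol.ev]
  | x :: p, i, g => by
    have := ev_fl3 A p (i + 1) (g * A)
    simp only [fl3, ev_fl2, this, v3, evL]
    push_cast
    ring

/-- the weight is at least four -/
def wt (m : ℕ × ℕ × ℕ × ℤ) : Bool := Nat.ble 4 (2 * m.1 + m.2.1 + m.2.2.1)

/-- the large monomials -/
def big (θ : ℕ) : Pol → Pol
  | [] => []
  | m :: p => cond (Nat.ble θ m.2.2.2.natAbs) (m :: big θ p) (big θ p)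

/-- the small monomials add up to at most `b` -/
def small (θ b : ℕ) : Pol → ℕ → Bool
  | [], _ => true
  | m :: p, r => cond (Nat.ble θ m.2.2.2.natAbs) (wt m && small θ b p r)
      ((Nat.beq m.2.2.2.natAbs 0 || wt m) && (Nat.ble (r + m.2.2.2.natAbs) b &&
        small θ b p (r + m.2.2.2.natAbs)))

/-- the polynomial in a chart of the blow up -/
noncomputable def cht (σ : ℕ → ℕ → ℕ → ℕ × ℕ) : Pol → P3
  | [] => []
  | m :: p => a3 (mo (2 * m.1 + m.2.1 + m.2.2.1 - 4) (σ m.1 m.2.1 m.2.2.1).1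
      (σ m.1 m.2.1 m.2.2.1).2 m.2.2.2) (cht σ p)

theorem mono_eq {m a b c : ℝ} {i j k : ℕ} (h : 4 ≤ 2 * i + j + k) :
    (m ^ 2 * a) ^ i * (m * b) ^ j * (m * c) ^ k =
      m ^ 4 * (m ^ (2 * i + j + k - 4) * (a ^ i * b ^ j * c ^ k)) := by
  obtain ⟨n, hn⟩ := Nat.exists_eq_add_of_le h
  have e : m ^ (2 * i + j + k) = m ^ 4 * m ^ n := by rw [hn, pow_add]
  rw [hn, Nat.add_sub_cancel_left, ← mul_assoc, ← e]
  ring

theorem blow {θ B : ℕ} {σ : ℕ → ℕ → ℕ → ℕ × ℕ} {m a b c p q : ℝ} (m0 : 0 ≤ m) (m1 : m ≤ 1)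
    (a0 : 0 ≤ a) (a1 : a ≤ 1) (b0 : 0 ≤ b) (b1 : b ≤ 1) (c0 : 0 ≤ c) (c1 : c ≤ 1)
    (hσ : ∀ i j k, a ^ i * b ^ j * c ^ k = p ^ (σ i j k).1 * q ^ (σ i j k).2) :
    ∀ (P : Pol) (r : ℕ), r ≤ B → small θ B P r = true →
      m ^ 4 * (v3 m p q (cht σ (big θ P)) - B + r) ≤ Pol.ev P (m ^ 2 * a, m * b, m * c)
  | [], r => fun h _ => by
    have : (r : ℝ) ≤ B := by exact_mod_cast h
    simp only [big, cht, v3, evL, Pol.ev]
    exact mul_nonpos_of_nonneg_of_nonpos (by positivity) (by linarith)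
  | x :: P, r => fun h k => by
    rw [small] at k
    rw [big]
    cases hx : Nat.ble θ x.2.2.2.natAbs
    · simp only [hx, cond_false, Bool.and_eq_true, Bool.or_eq_true] at k ⊢
      have ih := blow m0 m1 a0 a1 b0 b1 c0 c1 hσ P _ (Nat.le_of_ble_eq_true k.2.1) k.2.2
      have h4 : 0 ≤ m ^ 4 := by positivity
      simp only [Pol.ev]
      rw [Nat.cast_add, Nat.cast_natAbs, Int.cast_abs] at ih
      rcases k.1 with z | z
      · have z' : x.2.2.2 = 0 := Int.natAbs_eq_zero.1 (Nat.eq_of_beq_eq_true z)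
        simpa [z'] using ih
      · rw [mono_eq (Nat.le_of_ble_eq_true z)]
        generalize hy : m ^ (2 * x.1 + x.2.1 + x.2.2.1 - 4) *
          (a ^ x.1 * b ^ x.2.1 * c ^ x.2.2.1) = y
        have y0 : 0 ≤ y := by rw [← hy]; positivity
        have y1 : y ≤ 1 := by
          rw [← hy]
          exact mul_le_one₀ (pow_le_one₀ m0 m1) (by positivity) (mul_le_one₀ (mul_le_one₀
            (pow_le_one₀ a0 a1) (by positivity) (pow_le_one₀ b0 b1)) (by positivity)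
            (pow_le_one₀ c0 c1))
        have e1 := mul_le_mul_of_nonneg_right (neg_abs_le (x.2.2.2 : ℝ)) y0
        have e2 := mul_le_mul_of_nonneg_left y1 (abs_nonneg (x.2.2.2 : ℝ))
        have e3 : -|(x.2.2.2 : ℝ)| ≤ x.2.2.2 * y := by linarith
        have := mul_le_mul_of_nonneg_left e3 h4
        linarith
    · simp only [hx, cond_true, Bool.and_eq_true] at k ⊢
      have ih := blow m0 m1 a0 a1 b0 b1 c0 c1 hσ P r h k.2
      simp only [Pol.ev, cht, v_a3, v_mo]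
      rw [mono_eq (Nat.le_of_ble_eq_true k.1), hσ]
      linarith

/-- the test in the three charts -/
noncomputable def loc (θ B : ℕ) (T : Tr × Tr × Tr) (P : Pol) : Bool :=
  small θ B P 0 && (chk T.1 (a3 (mo 0 0 0 (-B)) (cht (fun _ j k => (j, k)) (big θ P))) &&
    (chk T.2.1 (a3 (mo 0 0 0 (-B)) (cht (fun i _ k => (i, k)) (big θ P))) &&
    chk T.2.2 (a3 (mo 0 0 0 (-B)) (cht (fun i j _ => (i, j)) (big θ P)))))

theorem gauge (w0 : 0 ≤ w) (w1 : w ≤ 1) (t0 : 0 ≤ t) (t1 : t ≤ 1) (s0 : 0 ≤ s) (s1 : s ≤ 1) :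
    ∃ m a b c : ℝ, 0 ≤ m ∧ m ≤ 1 ∧ 0 ≤ a ∧ a ≤ 1 ∧ 0 ≤ b ∧ b ≤ 1 ∧ 0 ≤ c ∧ c ≤ 1 ∧
      w = m ^ 2 * a ∧ t = m * b ∧ s = m * c ∧ (a = 1 ∨ b = 1 ∨ c = 1) := by
  obtain ⟨r, r0, rfl⟩ : ∃ r, 0 ≤ r ∧ w = r ^ 2 := ⟨√w, Real.sqrt_nonneg w, (Real.sq_sqrt w0).symm⟩
  have r1 : r ≤ 1 := by nlinarith
  obtain ⟨m, hr, ht, hs, hm⟩ : ∃ m, r ≤ m ∧ t ≤ m ∧ s ≤ m ∧ (m = r ∨ m = t ∨ m = s) := by
    refine ⟨max r (max t s), le_max_left _ _, (le_max_left _ _).trans (le_max_right _ _),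
      (le_max_right _ _).trans (le_max_right _ _), ?_⟩
    rcases max_choice r (max t s) with h | h
    · exact Or.inl h
    · rw [h]; exact Or.inr (max_choice t s)
  have m1 : m ≤ 1 := by rcases hm with h | h | h <;> rwa [h]
  rcases (r0.trans hr).eq_or_lt with z | z
  · refine ⟨0, 1, 1, 1, le_rfl, zero_le_one, zero_le_one, le_rfl, zero_le_one, le_rfl,
      zero_le_one, le_rfl, ?_, by linarith, by linarith, Or.inl rfl⟩
    rw [show r = 0 by linarith, mul_one]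
  · refine ⟨m, (r / m) ^ 2, t / m, s / m, z.le, m1, by positivity,
      pow_le_one₀ (by positivity) ((div_le_one z).2 hr), by positivity, (div_le_one z).2 ht,
      by positivity, (div_le_one z).2 hs, by field_simp, by field_simp, by field_simp, ?_⟩
    rcases hm with h | h | h
    · left; rw [← h, div_self z.ne', one_pow]
    · right; left; rw [← h, div_self z.ne']
    · right; right; rw [← h, div_self z.ne']

theorem loc_ok {θ B : ℕ} {T : Tr × Tr × Tr} {P : Pol} (h : loc θ B T P = true) (w0 : 0 ≤ w)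
    (w1 : w ≤ 1) (t0 : 0 ≤ t) (t1 : t ≤ 1) (s0 : 0 ≤ s) (s1 : s ≤ 1) : 0 ≤ Pol.ev P (w, t, s) := by
  obtain ⟨m, a, b, c, m0, m1, a0, a1, b0, b1, c0, c1, rfl, rfl, rfl, e⟩ :=
    gauge w0 w1 t0 t1 s0 s1
  simp only [loc, Bool.and_eq_true] at h
  have key : ∀ (σ : ℕ → ℕ → ℕ → ℕ × ℕ) (p q : ℝ), 0 ≤ p → p ≤ 1 → 0 ≤ q → q ≤ 1 →
      (∀ i j k, a ^ i * b ^ j * c ^ k = p ^ (σ i j k).1 * q ^ (σ i j k).2) →
      Ok (a3 (mo 0 0 0 (-B)) (cht σ (big θ P))) → 0 ≤ Pol.ev P (m ^ 2 * a, m * b, m * c) := by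
    intro σ p q p0 p1 q0 q1 hσ k
    have k1 := k m p q m0 m1 p0 p1 q0 q1
    rw [v_a3, v_mo] at k1
    refine le_trans (mul_nonneg (by positivity) ?_)
      (blow m0 m1 a0 a1 b0 b1 c0 c1 hσ P 0 (Nat.zero_le _) h.1)
    push_cast at k1 ⊢
    linarith
  rcases e with rfl | rfl | rfl
  · exact key _ b c b0 b1 c0 c1 (fun i j k => by simp) (chk_ok _ _ h.2.1)
  · exact key _ a c a0 a1 c0 c1 (fun i j k => by simp) (chk_ok _ _ h.2.2.1)
  · exact key _ a b a0 a1 b0 b1 (fun i j k => by simp) (chk_ok _ _ h.2.2.2)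

end Pool.Agent.P.MP_2b44f0_gt.PD.Loc
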