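import Pool.Agent.P.MP_2b44f0_gt.PD.NearD

/-!
In a cone around the balanced states the balanced configuration has the largest volume.
-/

namespace Pool.Agent.P.MP_2b44f0_gt.PD

open MeasureTheory Set Real

namespace NearC

/-- comparison of an integral over a nearly symmetric interval -/
theorem cmp (δ : ℝ → ℝ) (hδ : Continuous δ) (x y P Q c : ℝ) (hy : 0 < y) (hxy : y ≤ x)
    (hP : 0 ≤ P) (hQ : 0 ≤ Q) (hc : c * y ^ 2 = 1)
    (h1 : ∀ ξ ∈ Icc 0 y, δ ξ + δ (-ξ) ≤ -(P * (ξ ^ 4 - c * ξ ^ 6)))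
    (h2 : ∀ ξ ∈ Icc y x, δ ξ ≤ Q * ξ ^ 2) (h3 : Q * (x ^ 3 - y ^ 3) / 3 ≤ P * (2 / 35 * y ^ 5)) :
    ∫ ξ in (-y)..x, δ ξ / (1 + ξ ^ 2) ^ 4 ≤ 0 := by
  have ii := NearA.ii δ hδ
  have ii' := NearA.ii (fun ξ => δ (-ξ)) (by fun_prop)
  have e1 : ∫ ξ in (-y)..0, δ ξ / (1 + ξ ^ 2) ^ 4 = ∫ ξ in (0 : ℝ)..y, δ (-ξ) / (1 + ξ ^ 2) ^ 4 := by
    have := intervalIntegral.integral_comp_neg (a := 0) (b := y) fun ξ => δ ξ / (1 + ξ ^ 2) ^ 4
    rw [neg_zero] at this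
    rw [← this]
    exact intervalIntegral.integral_congr fun ξ _ => by simp only [neg_sq]
  obtain ⟨w, hw⟩ : ∃ w : ℝ, w = ((1 + y ^ 2) ^ 4)⁻¹ := ⟨_, rfl⟩
  have w0 : 0 < w := by rw [hw]; positivity
  have b1 : ∫ ξ in (0 : ℝ)..y, (δ ξ / (1 + ξ ^ 2) ^ 4 + δ (-ξ) / (1 + ξ ^ 2) ^ 4) ≤
      ∫ ξ in (0 : ℝ)..y, (-(P * w) * ξ ^ 4 + P * w * c * ξ ^ 6) := by
    refine intervalIntegral.integral_mono_on hy.le ((ii _ _).add (ii' _ _))
      (Continuous.intervalIntegrable (by fun_prop) _ _) fun ξ hξ => ?_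
    have a1 : ξ ^ 2 ≤ y ^ 2 := pow_le_pow_left₀ hξ.1 hξ.2 2
    have c0 : 0 < c := by
      by_contra h
      nlinarith [mul_nonneg (neg_nonneg.2 (not_lt.1 h)) (sq_nonneg y)]
    have a2 : 0 ≤ P * (ξ ^ 4 - c * ξ ^ 6) := by
      have : 0 ≤ 1 - c * ξ ^ 2 := by nlinarith [mul_le_mul_of_nonneg_left a1 c0.le]
      have := mul_nonneg hP (mul_nonneg (pow_nonneg hξ.1 4) this)
      linarith [show P * (ξ ^ 4 * (1 - c * ξ ^ 2)) = P * (ξ ^ 4 - c * ξ ^ 6) by ring]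
    have a3 : w ≤ ((1 + ξ ^ 2) ^ 4)⁻¹ := by
      rw [hw]; exact inv_anti₀ (by positivity) (by gcongr)
    rw [← add_div, div_eq_mul_inv]
    have a4 := mul_le_mul_of_nonneg_right (h1 ξ hξ) (w0.le.trans a3)
    nlinarith [mul_le_mul_of_nonneg_left a3 a2]
  have b2 : ∫ ξ in y..x, δ ξ / (1 + ξ ^ 2) ^ 4 ≤ ∫ ξ in y..x, Q * w * ξ ^ 2 := by
    refine intervalIntegral.integral_mono_on hxy (ii _ _)
      (Continuous.intervalIntegrable (by fun_prop) _ _) fun ξ hξ => ?_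
    have a1 : y ^ 2 ≤ ξ ^ 2 := pow_le_pow_left₀ hy.le hξ.1 2
    have a3 : ((1 + ξ ^ 2) ^ 4)⁻¹ ≤ w := by
      rw [hw]; exact inv_anti₀ (by positivity) (by gcongr)
    rw [div_eq_mul_inv]
    have a4 := mul_le_mul_of_nonneg_right (h2 ξ hξ) (by positivity : 0 ≤ ((1 + ξ ^ 2) ^ 4)⁻¹)
    nlinarith [mul_le_mul_of_nonneg_left a3 (mul_nonneg hQ (sq_nonneg ξ))]
  rw [intervalIntegral.integral_add (ii _ _) (ii' _ _), intervalIntegral.integral_add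
    (Continuous.intervalIntegrable (by fun_prop) _ _)
    (Continuous.intervalIntegrable (by fun_prop) _ _), intervalIntegral.integral_const_mul,
    intervalIntegral.integral_const_mul, integral_pow, integral_pow] at b1
  rw [intervalIntegral.integral_const_mul, integral_pow] at b2
  rw [← intervalIntegral.integral_add_adjacent_intervals (ii (-y) y) (ii y x),
    ← intervalIntegral.integral_add_adjacent_intervals (ii (-y) 0) (ii 0 y), e1]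
  have e2 : c * y ^ 7 = y ^ 5 := by linear_combination y ^ 5 * hc
  norm_num at b1 b2
  have e3 : P * w * c * (y ^ 7 / 7) = P * w * (y ^ 5 / 7) := by
    linear_combination P * w / 7 * e2
  nlinarith [mul_le_mul_of_nonneg_left h3 w0.le]

/-- a triple in terms of mean, deviation and skewness -/
theorem triple (a b c M : ℝ) (ha : a ≤ M) (hb : b ≤ M) (hc : c ≤ M) :
    ∃ m α θ : ℝ, 0 ≤ α ∧ a + b + c = 3 * m ∧ a ^ 2 + b ^ 2 + c ^ 2 = 3 * m ^ 2 + 6 * α ^ 2 ∧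
      a * b * c = m ^ 3 - 3 * m * α ^ 2 + θ ∧ -(2 * α ^ 3) ≤ θ ∧ m + α ≤ M ∧
      a ^ 4 + b ^ 4 + c ^ 4 = 3 * m ^ 4 + 36 * m ^ 2 * α ^ 2 + 12 * m * θ + 18 * α ^ 4 := by
  obtain ⟨m, hm⟩ : ∃ m, m = (a + b + c) / 3 := ⟨_, rfl⟩
  obtain ⟨p, rfl⟩ : ∃ p, a = m + p := ⟨a - m, by ring⟩
  obtain ⟨q, rfl⟩ : ∃ q, b = m + q := ⟨b - m, by ring⟩
  obtain rfl : c = m - (p + q) := by linarith
  have v0 : 0 ≤ (p ^ 2 + p * q + q ^ 2) / 3 := by nlinarith [sq_nonneg (p + q), sq_nonneg p, sq_nonneg q]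
  obtain ⟨α, α0, hα⟩ : ∃ α : ℝ, 0 ≤ α ∧ α ^ 2 = (p ^ 2 + p * q + q ^ 2) / 3 :=
    ⟨_, sqrt_nonneg _, sq_sqrt v0⟩
  have h4 : α ^ 4 = ((p ^ 2 + p * q + q ^ 2) / 3) ^ 2 := by rw [← hα]; ring
  refine ⟨m, α, -(p * q * (p + q)), α0, by ring, by rw [hα]; ring, by rw [hα]; ring, ?_, ?_,
    by rw [hα, h4]; ring⟩
  · refine (abs_le.1 (abs_le_of_sq_le_sq ?_ (by positivity : 0 ≤ 2 * α ^ 3))).1
    have : (2 * α ^ 3) ^ 2 = 4 * ((p ^ 2 + p * q + q ^ 2) / 3) ^ 3 := by rw [← hα]; ring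
    rw [this]
    nlinarith [sq_nonneg ((p - q) * (2 * p + q) * (p + 2 * q))]
  · have l0 : 0 ≤ M - m := by linarith
    have : α ^ 2 ≤ (M - m) ^ 2 := by
      nlinarith [mul_nonneg (sub_nonneg.2 ha) (show 0 ≤ 2 * (M - m) + p by linarith),
        mul_nonneg (sub_nonneg.2 hb) (show 0 ≤ 2 * (M - m) + q by linarith),
        mul_nonneg (sub_nonneg.2 hc) (show 0 ≤ 2 * (M - m) - (p + q) by linarith)]
    linarith [abs_le.1 (abs_le_of_sq_le_sq this l0)]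

theorem amgm {a b c : ℝ} (ha : 0 ≤ a) (hb : 0 ≤ b) (hc : 0 ≤ c) :
    a * b * c ≤ ((a + b + c) / 3) ^ 3 := by
  nlinarith [mul_nonneg (add_nonneg (add_nonneg ha hb) (mul_nonneg (by norm_num : (0 : ℝ) ≤ 7) hc))
    (sq_nonneg (a - b)), mul_nonneg (add_nonneg (add_nonneg ha hb)
      (mul_nonneg (by norm_num : (0 : ℝ) ≤ 1 / 4) hc)) (sq_nonneg (a + b - 2 * c))]

theorem core {m α β M : ℝ} (hm : 0 < m) (a0 : 0 ≤ α) (b0 : 0 ≤ β) (a1 : 2 * α ≤ m)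
    (b1 : 2 * β ≤ m) (a2 : m + α ≤ M) (b2 : m + β ≤ M) :
    (m ^ 2 + α ^ 2 + β ^ 2) ^ 3 - (m ^ 3 - 3 * m * α ^ 2 - 2 * α ^ 3) *
      (m ^ 3 - 3 * m * β ^ 2 - 2 * β ^ 3) ≤ (6 * m ^ 2 * (α ^ 2 + β ^ 2) -
        6 * m * (α ^ 3 + β ^ 3) + 3 * α ^ 4 + 3 * β ^ 4 - 3 * α ^ 2 * β ^ 2) * M ^ 2 := by
  have one : ∀ x y : ℝ, 0 ≤ x → 0 ≤ y → 2 * x ≤ m → 2 * y ≤ m → m + x ≤ M →
      x ^ 2 * (6 * m ^ 4 + 2 * m ^ 3 * x + 3 * m ^ 2 * x ^ 2 + x ^ 4 - 3 / 2 * m ^ 2 * y ^ 2 -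
        6 * m * x * y ^ 2 + 3 * x ^ 2 * y ^ 2 - 2 * x * y ^ 3) ≤
      x ^ 2 * ((6 * m ^ 2 - 6 * m * x + 3 * x ^ 2 - 3 / 2 * y ^ 2) * M ^ 2) := by
    intro x y x0 y0 x1 y1 x2
    refine mul_le_mul_of_nonneg_left ?_ (sq_nonneg x)
    have c0 : 0 ≤ 6 * m ^ 2 - 6 * m * x + 3 * x ^ 2 - 3 / 2 * y ^ 2 := by
      nlinarith [mul_nonneg hm.le (sub_nonneg.2 x1), mul_nonneg y0 (sub_nonneg.2 y1),
        mul_nonneg hm.le (sub_nonneg.2 y1)]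
    have c1 : (m + x) ^ 2 ≤ M ^ 2 := pow_le_pow_left₀ (by linarith) x2 2
    have c2 := mul_le_mul_of_nonneg_left c1 c0
    have c3 : 0 ≤ x * (m ^ 2 * (4 * m - 6 * x) + m * x ^ 2 * 0 + 2 * x ^ 3 +
        y ^ 2 * (3 * m - 9 / 2 * x) + 2 * y ^ 3) := by
      have : 0 ≤ 4 * m - 6 * x := by linarith
      have : 0 ≤ 3 * m - 9 / 2 * x := by linarith
      positivity
    nlinarith
  have := one α β a0 b0 a1 b1 a2
  have := one β α b0 a0 b1 a1 b2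
  nlinarith

/-- the inequalities for two triples -/
theorem six (a b c d e f k k' s : ℝ) (hk : 0 < k) (hkk : k ≤ k') (hr : 15 * k' ≤ 17 * k)
    (a0 : 0 ≤ a) (b0 : 0 ≤ b) (c0 : 0 ≤ c) (d0 : 0 ≤ d) (e0 : 0 ≤ e) (f0 : 0 ≤ f)
    (a1 : a ≤ k') (b1 : b ≤ k') (c1 : c ≤ k') (d1 : d ≤ k) (e1 : e ≤ k) (f1 : f ≤ k)
    (h1 : a + b + c = d + e + f) (h2 : a ^ 2 + b ^ 2 + c ^ 2 + d ^ 2 + e ^ 2 + f ^ 2 = 6 * s)
    (hS : 10 / 9 * (k + k') ^ 2 ≤ 6 * s) :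
    ∫ ξ in (-k'⁻¹)..k⁻¹, ((1 + ξ * a) * (1 + ξ * b) * (1 + ξ * c) *
      ((1 - ξ * d) * (1 - ξ * e) * (1 - ξ * f)) - (1 - s * ξ ^ 2) ^ 3) / (1 + ξ ^ 2) ^ 4 ≤ 0 := by
  have hk' : 0 < k' := hk.trans_le hkk
  obtain ⟨m, α, θ, α0, s1, s2, s3, s4, s5, s6⟩ := triple a b c k' a1 b1 c1
  obtain ⟨m', β, φ, β0, t1, t2, t3, t4, t5, t6⟩ := triple d e f k d1 e1 f1
  obtain rfl : m' = m := by linarith
  have hs : s = m' ^ 2 + α ^ 2 + β ^ 2 := by linarith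
  have hm1 : 6 * s ≤ 3 * m' * (k + k') := by
    linarith [mul_nonneg a0 (sub_nonneg.2 a1), mul_nonneg b0 (sub_nonneg.2 b1),
      mul_nonneg c0 (sub_nonneg.2 c1), mul_nonneg d0 (sub_nonneg.2 d1),
      mul_nonneg e0 (sub_nonneg.2 e1), mul_nonneg f0 (sub_nonneg.2 f1),
      congrArg (k' * ·) s1, congrArg (k * ·) t1]
  have hm2 : 10 / 27 * (k + k') ≤ m' := by
    refine le_of_mul_le_mul_right ?_ (add_pos hk hk')
    linarith
  have hm3 : 69 / 100 * k' ≤ m' := by linarith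
  have hm : 0 < m' := by linarith
  have hsk : s ≤ k * k' := by
    linarith [congrArg (k' * ·) h1, congrArg (k * ·) h1,
      mul_nonneg (sub_nonneg.2 a1) (add_nonneg a0 hk.le),
      mul_nonneg (sub_nonneg.2 b1) (add_nonneg b0 hk.le),
      mul_nonneg (sub_nonneg.2 c1) (add_nonneg c0 hk.le),
      mul_nonneg (sub_nonneg.2 d1) (add_nonneg d0 hk'.le),
      mul_nonneg (sub_nonneg.2 e1) (add_nonneg e0 hk'.le),
      mul_nonneg (sub_nonneg.2 f1) (add_nonneg f0 hk'.le)]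
  have hco := core hm α0 β0 (by linarith) (by linarith) s5 (t5.trans hkk)
  obtain ⟨D, hD⟩ : ∃ D, D = a ^ 4 + b ^ 4 + c ^ 4 + (d ^ 4 + e ^ 4 + f ^ 4) - 6 * s ^ 2 := ⟨_, rfl⟩
  obtain ⟨D', hD'⟩ : ∃ D', D' = 6 * m' ^ 2 * (α ^ 2 + β ^ 2) -
    6 * m' * (α ^ 3 + β ^ 3) + 3 * α ^ 4 + 3 * β ^ 4 - 3 * α ^ 2 * β ^ 2 := ⟨_, rfl⟩
  rw [← hD', ← hs] at hco
  have hDD : 4 * D' ≤ D := by
    rw [hD, s6, t6, hD', hs]
    linarith [mul_nonneg hm.le (sub_nonneg.2 s4), mul_nonneg hm.le (sub_nonneg.2 t4)]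
  have hD1 : 33 / 10 * m' ^ 2 * (α ^ 2 + β ^ 2) ≤ D' := by
    rw [hD']
    have p1 : 0 ≤ m' * α ^ 2 * (45 / 100 * m' - α) := by
      have : 0 ≤ 45 / 100 * m' - α := by linarith
      positivity
    have p2 : 0 ≤ m' * β ^ 2 * (45 / 100 * m' - β) := by
      have : 0 ≤ 45 / 100 * m' - β := by linarith
      positivity
    linarith [sq_nonneg (α ^ 2 - β ^ 2), sq_nonneg (α ^ 2), sq_nonneg (β ^ 2)]
  have hv : 0 ≤ α ^ 2 + β ^ 2 := by positivity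
  have hD0 : 0 ≤ D' := le_trans (by positivity) hD1
  have hP : s ^ 3 - a * b * c * (d * e * f) ≤ D / 4 * k' ^ 2 := by
    have p1 : 0 ≤ m' ^ 3 - 3 * m' * α ^ 2 - 2 * α ^ 3 := by
      have : 0 ≤ m' - 2 * α := by linarith
      have := mul_nonneg (sq_nonneg (m' + α)) this
      linarith [show (m' + α) ^ 2 * (m' - 2 * α) = m' ^ 3 - 3 * m' * α ^ 2 - 2 * α ^ 3 by ring]
    have p2 : 0 ≤ m' ^ 3 - 3 * m' * β ^ 2 - 2 * β ^ 3 := by
      have : 0 ≤ m' - 2 * β := by linarith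
      have := mul_nonneg (sq_nonneg (m' + β)) this
      linarith [show (m' + β) ^ 2 * (m' - 2 * β) = m' ^ 3 - 3 * m' * β ^ 2 - 2 * β ^ 3 by ring]
    have p3 := mul_le_mul (show m' ^ 3 - 3 * m' * α ^ 2 - 2 * α ^ 3 ≤ a * b * c by linarith)
      (show m' ^ 3 - 3 * m' * β ^ 2 - 2 * β ^ 3 ≤ d * e * f by linarith) p2 (by positivity)
    linarith [mul_le_mul_of_nonneg_right hDD (sq_nonneg k')]
  obtain ⟨y, hy⟩ : ∃ y, y = k'⁻¹ := ⟨_, rfl⟩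
  obtain ⟨x, hx⟩ : ∃ x, x = k⁻¹ := ⟨_, rfl⟩
  have y0 : 0 < y := hy ▸ inv_pos.2 hk'
  have x0 : 0 < x := hx ▸ inv_pos.2 hk
  have y1 : k' * y = 1 := by rw [hy]; field_simp
  have x1 : k * x = 1 := by rw [hx]; field_simp
  have yx : y ≤ x := by rw [hx, hy]; exact inv_anti₀ hk hkk
  have xy : x ≤ 17 / 15 * y := by
    linarith [mul_le_mul_of_nonneg_right hr (mul_pos x0 y0).le, congrArg (x * ·) y1,
      congrArg (y * ·) x1]
  have my : 69 / 100 ≤ m' * y := by linarith [mul_le_mul_of_nonneg_right hm3 y0.le]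
  rw [← hx, ← hy]
  refine cmp _ (by fun_prop) x y (D / 2) (3 * (α ^ 2 + β ^ 2) * (28 / 100)) (k' ^ 2) y0 yx
    (by linarith) (by positivity) (by linear_combination (k' * y + 1) * y1) ?_ ?_ ?_
  · intro ξ _
    have id : (1 + ξ * a) * (1 + ξ * b) * (1 + ξ * c) * ((1 - ξ * d) * (1 - ξ * e) * (1 - ξ * f)) -
        (1 - s * ξ ^ 2) ^ 3 + ((1 + -ξ * a) * (1 + -ξ * b) * (1 + -ξ * c) *
        ((1 - -ξ * d) * (1 - -ξ * e) * (1 - -ξ * f)) - (1 - s * (-ξ) ^ 2) ^ 3) =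
        -(D / 2) * ξ ^ 4 + 2 * (s ^ 3 - a * b * c * (d * e * f)) * ξ ^ 6 := by
      obtain rfl : f = a + b + c - d - e := by linarith
      have : s = (a ^ 2 + b ^ 2 + c ^ 2 + d ^ 2 + e ^ 2 + (a + b + c - d - e) ^ 2) / 6 := by
        linarith
      rw [hD, this]
      ring
    rw [id]
    linarith [mul_le_mul_of_nonneg_right hP (by positivity : 0 ≤ ξ ^ 6)]
  · intro ξ hξ
    have ξ0 : 0 < ξ := y0.trans_le hξ.1
    have kx : k * ξ ≤ 1 := by linarith [mul_le_mul_of_nonneg_left hξ.2 hk.le]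
    have n : ∀ z, z ≤ k → 0 ≤ 1 - ξ * z := fun z hz => by
      linarith [mul_le_mul_of_nonneg_left hz ξ0.le]
    have g1 := amgm (a := 1 + ξ * a) (b := 1 + ξ * b) (c := 1 + ξ * c) (by positivity)
      (by positivity) (by positivity)
    have g2 := amgm (n d d1) (n e e1) (n f f1)
    rw [show (1 + ξ * a + (1 + ξ * b) + (1 + ξ * c)) / 3 = 1 + m' * ξ by
      linear_combination ξ / 3 * s1] at g1
    rw [show (1 - ξ * d + (1 - ξ * e) + (1 - ξ * f)) / 3 = 1 - m' * ξ by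
      linear_combination -ξ / 3 * t1] at g2
    have g3 := mul_le_mul g1 g2 (mul_nonneg (mul_nonneg (n d d1) (n e e1)) (n f f1))
      (by positivity)
    obtain ⟨A, hA⟩ : ∃ A, A = 1 - (m' * ξ) ^ 2 := ⟨_, rfl⟩
    obtain ⟨B, hB⟩ : ∃ B, B = 1 - s * ξ ^ 2 := ⟨_, rfl⟩
    have mξ : 69 / 100 ≤ m' * ξ := my.trans (mul_le_mul_of_nonneg_left hξ.1 hm.le)
    have A1 : A ≤ 524 / 1000 := by
      rw [hA]; linarith [pow_le_pow_left₀ (by norm_num) mξ 2]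
    have AB : A - B = (α ^ 2 + β ^ 2) * ξ ^ 2 := by rw [hA, hB, hs]; ring
    have AB0 : 0 ≤ A - B := by rw [AB]; positivity
    have B1 : -(1 / 5) ≤ B := by
      have p1 : s * ξ ^ 2 ≤ k * k' * ξ ^ 2 := mul_le_mul_of_nonneg_right hsk (sq_nonneg ξ)
      have p2 : k * k' * ξ ^ 2 ≤ 17 / 15 * (k * ξ) ^ 2 := by
        linarith [mul_le_mul_of_nonneg_right hr (by positivity : 0 ≤ k * ξ ^ 2)]
      have p3 : (k * ξ) ^ 2 ≤ 1 := pow_le_one₀ (by positivity) kx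
      rw [hB]; linarith
    have q : A ^ 2 + A * B + B ^ 2 ≤ 84 / 100 := by
      have u1 := mul_nonneg (show 0 ≤ 524 / 1000 - A by linarith)
        (show 0 ≤ 524 / 1000 + A by linarith)
      have u2 := mul_nonneg (show 0 ≤ 524 / 1000 - B by linarith)
        (show 0 ≤ 524 / 1000 + B by linarith)
      linarith [sq_nonneg (A - B)]
    have g4 : (1 + m' * ξ) ^ 3 * (1 - m' * ξ) ^ 3 = A ^ 3 := by rw [hA]; ring
    have g5 := mul_le_mul_of_nonneg_left q AB0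
    rw [← hB]
    rw [AB] at g5
    linarith [congrArg (· * (A ^ 2 + A * B + B ^ 2)) AB]
  · have p1 : x ^ 3 ≤ (17 / 15 * y) ^ 3 := pow_le_pow_left₀ x0.le xy 3
    have p2 : (69 / 100) ^ 2 ≤ (m' * y) ^ 2 := pow_le_pow_left₀ (by norm_num) my 2
    have p3 := mul_le_mul_of_nonneg_left p1 hv
    have p4 := mul_le_mul_of_nonneg_left p2 (by positivity : 0 ≤ (α ^ 2 + β ^ 2) * y ^ 3)
    have p5 := mul_le_mul_of_nonneg_right (show 66 / 5 * m' ^ 2 * (α ^ 2 + β ^ 2) ≤ D by linarith)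
      (by positivity : 0 ≤ y ^ 5)
    have p6 : 0 ≤ (α ^ 2 + β ^ 2) * y ^ 3 := by positivity
    linarith

theorem half (μ : Fin (2 * 3) → ℝ) (S k k' : ℝ) (h : Adm (2 * 3) μ (S, k, k')) (hkk : k ≤ k')
    (hr : 15 * k' ≤ 17 * k) (hS : 10 / 9 * (k + k') ^ 2 ≤ S) : vol 3 μ k k' ≤ Bv (S / 6) k k' := by
  have hk : 0 < k := h.k1
  have hk' : 0 < k' := h.k2
  let σ : Equiv.Perm (Fin 6) := Tuple.sort μ
  have mo : Monotone (μ ∘ σ) := Tuple.monotone_sort μ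
  have h1 : ∑ i : Fin 6, μ (σ i) = 0 := (Equiv.sum_comp σ μ).trans h.sum
  have h2 : ∑ i : Fin 6, μ (σ i) ^ 2 = S := (Equiv.sum_comp σ fun i => μ i ^ 2).trans h.sq
  have h3 : ∀ ξ : ℝ, ∏ i, (1 + ξ * μ i) = ∏ i : Fin 6, (1 + ξ * μ (σ i)) := fun ξ =>
    (Equiv.prod_comp σ fun i => 1 + ξ * μ i).symm
  have lo : ∀ i : Fin 6, 0 ≤ k + μ (σ i) := fun i => (h.lo _).le
  have hi : ∀ i : Fin 6, 0 ≤ k' - μ (σ i) := fun i => (h.hi _).le
  have m01 : μ (σ 0) ≤ μ (σ 1) := mo (by decide : (0 : Fin 6) ≤ 1)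
  have m12 : μ (σ 1) ≤ μ (σ 2) := mo (by decide : (1 : Fin 6) ≤ 2)
  have m23 : μ (σ 2) ≤ μ (σ 3) := mo (by decide : (2 : Fin 6) ≤ 3)
  have m34 : μ (σ 3) ≤ μ (σ 4) := mo (by decide : (3 : Fin 6) ≤ 4)
  have m45 : μ (σ 4) ≤ μ (σ 5) := mo (by decide : (4 : Fin 6) ≤ 5)
  have l0 := lo 0
  have l1 := lo 1
  have l2 := lo 2
  have l3 := lo 3
  have l4 := lo 4
  have l5 := lo 5
  have u0 := hi 0
  have u1 := hi 1
  have u2 := hi 2
  have u3 := hi 3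
  have u4 := hi 4
  have u5 := hi 5
  simp only [Fin.sum_univ_six, Fin.prod_univ_six] at h1 h2 h3
  clear lo hi mo
  generalize μ (σ 0) = a0, μ (σ 1) = a1, μ (σ 2) = a2, μ (σ 3) = a3, μ (σ 4) = a4,
    μ (σ 5) = a5 at *
  have p3 : 0 ≤ a3 := by
    by_contra c
    have c := (not_le.1 c).le
    nlinarith [mul_nonneg l0 (show 0 ≤ -a0 by linarith), mul_nonneg l1 (show 0 ≤ -a1 by linarith),
      mul_nonneg l2 (show 0 ≤ -a2 by linarith), mul_nonneg l3 (show 0 ≤ -a3 by linarith),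
      mul_nonneg l4 u4, mul_nonneg l5 u5, mul_nonneg hk'.le u4, mul_nonneg hk'.le u5,
      mul_pos (add_pos hk hk') (show 0 < 10 * k - 8 * k' by linarith)]
  have p2 : a2 ≤ 0 := by
    by_contra c
    have c := (not_le.1 c).le
    nlinarith [mul_nonneg u2 c, mul_nonneg u3 p3, mul_nonneg u4 (show 0 ≤ a4 by linarith),
      mul_nonneg u5 (show 0 ≤ a5 by linarith), mul_nonneg l0 u0, mul_nonneg l1 u1,
      mul_nonneg hk.le l0, mul_nonneg hk.le l1,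
      mul_pos (add_pos hk hk') (show 0 < 10 * k' - 8 * k by linarith)]
  have := six a3 a4 a5 (-a0) (-a1) (-a2) k k' (S / 6) hk hkk hr p3 (by linarith) (by linarith)
    (by linarith) (by linarith) (by linarith) (by linarith) (by linarith) (by linarith)
    (by linarith) (by linarith) (by linarith) (by linarith) (by linarith) (by linarith)
  rw [← sub_nonpos, vol, Bv, ← intervalIntegral.integral_sub
    (NearA.ii (fun ξ => ∏ i, (1 + ξ * μ i)) (by fun_prop) _ _)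
    (NearA.ii (fun ξ => (1 - S / 6 * ξ ^ 2) ^ 3) (by fun_prop) _ _)]
  refine le_of_eq_of_le (intervalIntegral.integral_congr fun ξ _ => ?_) this
  simp only [h3 ξ]
  ring

end NearC

theorem vol_swap (μ : Fin (2 * 3) → ℝ) (k k' : ℝ) : vol 3 μ k k' = vol 3 (fun i => -μ i) k' k := by
  have := intervalIntegral.integral_comp_neg (a := -k⁻¹) (b := k'⁻¹)
    fun ξ => (∏ i, (1 + ξ * μ i)) / (1 + ξ ^ 2) ^ (3 + 1)
  rw [neg_neg] at this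
  rw [vol, vol, ← this]
  exact intervalIntegral.integral_congr fun ξ _ => by simp only [neg_sq, neg_mul, mul_neg]

theorem Adm.swap {n : ℕ} {μ : Fin n → ℝ} {S k k' : ℝ} (h : Adm n μ (S, k, k')) :
    Adm n (fun i => -μ i) (S, k', k) where
  sum := by rw [Finset.sum_neg_distrib, h.sum, neg_zero]
  sq := by simpa only [neg_sq] using h.sq
  lo := fun i => by simpa only [sub_eq_add_neg] using h.hi i
  hi := fun i => by simpa only [sub_neg_eq_add] using h.lo i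
  k1 := h.k2
  k2 := h.k1

/-- the balanced configuration is optimal in a cone of states -/
theorem vol_le_Bv (μ : Fin (2 * 3) → ℝ) (S k k' : ℝ) (h : Adm (2 * 3) μ (S, k, k'))
    (hr : 15 * k' ≤ 17 * k) (hr' : 15 * k ≤ 17 * k') (hS : 10 / 9 * (k + k') ^ 2 ≤ S) :
    vol 3 μ k k' ≤ Bv (S / 6) k k' := by
  rcases le_total k k' with c | c
  · exact NearC.half μ S k k' h c hr hS
  · rw [vol_swap, Bv_eq _ _ _ h.k1 h.k2, add_comm, ← Bv_eq _ _ _ h.k2 h.k1]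
    exact NearC.half _ S k' k h.swap c hr' (by rwa [add_comm])

/-- the local volume bound at the Clifford point -/
theorem vol_local (μ : Fin (2 * 3) → ℝ) (S k k' : ℝ) (h : Adm (2 * 3) μ (S, k, k'))
    (hr : 15 * k' ≤ 17 * k) (hr' : 15 * k ≤ 17 * k') (hS : 10 / 9 * (k + k') ^ 2 ≤ S)
    (h3 : 3 ≤ S) (h9 : S ≤ 9) (hu : |1 - k⁻¹| ≤ 1 / 3) (hu' : |1 - k'⁻¹| ≤ 1 / 3) :
    vol 3 μ k k' ≤ 2 / 3 + (π / 16 - 1 / 6) * (6 - S) + (5 / 24 - π / 16) / 6 * (6 - S) ^ 2 +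
      (5 * π / 64 - 11 / 48) / 108 * (6 - S) ^ 3 - Cc (S / 6 - 1) (1 - k⁻¹) -
      Cc (S / 6 - 1) (1 - k'⁻¹) := by
  have h1 := vol_le_Bv μ S k k' h hr hr' hS
  have h2 := Bv_le (S / 6 - 1) k k' (abs_le.2 ⟨by linarith, by linarith⟩) hu hu'
  rw [add_sub_cancel] at h2
  refine h1.trans (h2.trans_eq ?_)
  ring

end Pool.Agent.P.MP_2b44f0_gt.PD
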