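import Pool.Agent.P.MP_2b44f0_gt.PD.LocB
import Pool.Agent.P.MP_2b44f0_gt.PD.NearC

/-!
The volume inequality of the certificate near the Clifford point.
-/

namespace Pool.Agent.P.MP_2b44f0_gt.PD.Loc

open Real

/-- a constant -/
def ct (c : ℤ) : P3 := [[[c]]]
/-- `64 X` -/
def pX : P3 := [[], [[1]]]
/-- `64 τ` -/
def pT : P3 := [[[], [4]]]
/-- `64 Y` -/
def pY : P3 := [[[0, 16]]]

/-- the substitution, times `64 ^ d` -/
noncomputable def sb (d : ℕ) : Pol → P3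
  | [] => []
  | m :: p => a3 (sm (m.2.2.2 * 64 ^ (d - (m.1 + m.2.1 + m.2.2.1)))
      (m3 (pw pX m.1) (m3 (pw pT m.2.1) (pw pY m.2.2.1)))) (sb d p)

/-- the total degree is at most `d` -/
def dg (d : ℕ) (p : Pol) : Bool := p.all fun m => Nat.ble (m.1 + m.2.1 + m.2.2.1) d

/-- a homogeneous polynomial in two arguments -/
noncomputable def hom (U d : P3) : List ℤ → P3
  | [] => []
  | c :: l => a3 (sm c (pw d l.length)) (m3 U (hom U d l))

/-- the coefficient of one power of `e` in the loss -/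
noncomputable def kk (U d o V c r : P3) (l : List ℤ) : P3 := a3 (m3 o (hom U d l)) (m3 r (hom V c l))

/-- the loss, with `M / n = e` -/
noncomputable def ctt (M n U d o V c r : P3) : P3 :=
  a3 (m3 (pw n 3) (kk U d o V c r [0, 0, 0, 0, 120, 240, 140]))
    (m3 M (a3 (m3 (pw n 2) (kk U d o V c r [0, 0, 0, -240, -180, 108, 0]))
      (m3 M (a3 (m3 n (kk U d o V c r [0, 0, 180, -60, -450, 0, 0]))
        (m3 M (kk U d o V c r [0, -60, 60, 20, 0, 0, 0]))))))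

/-- the difference of the two sides without denominators; `p / q` replaces `π` -/
noncomputable def ee (c p q : ℤ) (M n pm tm tp U V a f : P3) : P3 :=
  a3 (m3 (pw pm 6) (m3 (pw (m3 tm tp) 6)
      (a3 (sm (5 * (3 * p - 8 * q)) (m3 (pw n 2)
          (a3 (sm (-768) (m3 M a)) (m3 (a3 (sm 24 M) (sm (-1) n)) (m3 f f)))))
        (sm c (m3 (m3 M M)
          (a3 (sm (-120 * (10 * q - 3 * p)) n) (sm (10 * (15 * p - 44 * q)) M)))))))
    (sm (c * q) (ctt M n U (m3 pm tm) (pw tp 6) V (m3 pm tp) (pw tm 6)))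

/-- `64 (1 - X)` -/
noncomputable def qm : P3 := a3 (ct 64) (sm (-1) pX)
/-- `64 (1 + X)` -/
noncomputable def qp : P3 := a3 (ct 64) pX
/-- `64 (1 - τ)` -/
noncomputable def rm : P3 := a3 (ct 64) (sm (-1) pT)
/-- `64 (1 + τ)` -/
noncomputable def rp : P3 := a3 (ct 64) pT
/-- `64² y` -/
noncomputable def qy : P3 := a3 (ct 4096) (a3 (sm (-1) (m3 pT pT)) (sm (-64) pY))
/-- `64⁴ (1 + X)²` -/
noncomputable def qn : P3 := sm 4096 (m3 qp qp)

/-- the polynomial to be tested -/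
noncomputable def tot (n : ℕ) (F G f : Pol) (p q : ℤ) : P3 :=
  ee (2 ^ 28 * (64 ^ (n + 2)) ^ 2) p q (a3 (m3 qy (m3 qm qm)) (sm (-1) qn)) qn qm rm rp
    (a3 (m3 qm rm) (sm (-64) qp)) (a3 (m3 qm rp) (sm (-64) qp))
    (a3 (sm 6 (m3 qy (sb (2 * n + 1) F)))
      (a3 (sm 64 (a3 (m3 rm (sb (2 * n + 1) G)) (m3 rp (sb (2 * n + 1) (Pol.rf G)))))
        (ct (-(2 ^ 29 * 64 ^ (2 * n + 3)))))) (sb (n + 2) f)

/-- the first variable is replaced by `w - 4 s` -/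
noncomputable def hs (p : P3) : P3 :=
  List.rec [] (fun x _ ih => a3 (x :: ih) (mapL (mapL fun z => 0 :: mapL (im (-4)) z) ih)) p

/-- the test for both signs -/
noncomputable def two' (θ B : ℕ) (A A' : ℤ) (T T' : Tr × Tr × Tr) (P : P3) : Bool :=
  loc θ B T (fl3 (-A) 0 1 P) && loc θ B T' (fl3 A' 0 1 P)

variable {w t s : ℝ}

theorem v_ct (c : ℤ) : v3 w t s (ct c) = c := by simp [ct, v3, v2, v1, evL]
theorem v_pX : v3 w t s pX = w := by simp [pX, v3, v2, v1, evL]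
theorem v_pT : v3 w t s pT = 4 * t := by simp [pT, v3, v2, v1, evL]; ring
theorem v_pY : v3 w t s pY = 16 * s := by simp [pY, v3, v2, v1, evL]; ring

theorem v_sb {X τ Y : ℝ} (hX : w = 64 * X) (hT : 4 * t = 64 * τ) (hY : 16 * s = 64 * Y)
    (d : ℕ) : ∀ p : Pol, dg d p = true → v3 w t s (sb d p) = 64 ^ d * Pol.ev p (X, τ, Y)
  | [] => fun _ => by simp [sb, v3, evL, Pol.ev]
  | m :: p => fun h => by
    simp only [dg, List.all_cons, Bool.and_eq_true] at h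
    obtain ⟨n, hn⟩ := Nat.exists_eq_add_of_le (Nat.le_of_ble_eq_true h.1)
    simp only [sb, v_a3, v_sm, v_m3, v_pw, v_pX, v_pT, v_pY, v_sb hX hT hY d p h.2, Pol.ev]
    rw [hX, hT, hY, hn, Nat.add_sub_cancel_left]
    push_cast
    ring

theorem dg_rf {d : ℕ} {p : Pol} (h : dg d p = true) : dg d (Pol.rf p) = true := by
  simpa [dg, Pol.rf] using h

theorem v_hs : ∀ p : P3, v3 w t s (hs p) = v3 (w - 4 * s) t s p
  | [] => rfl
  | x :: p => by
    have h : ∀ z, v1 s (0 :: mapL (im (-4)) z) = -4 * s * v1 s z := fun z => by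
      have : v1 s (mapL (im (-4)) z) = ((-4 : ℤ) : ℝ) * v1 s z := ev_map (c_mul _) z
      show ((0 : ℤ) : ℝ) + s * v1 s (mapL (im (-4)) z) = _
      rw [this]
      push_cast
      ring
    have k : v3 w t s (mapL (mapL fun z => 0 :: mapL (im (-4)) z) (hs p)) =
      -4 * s * v3 w t s (hs p) := ev_map (ev_map h) _
    show v3 w t s (a3 (x :: hs p) (mapL (mapL fun z => 0 :: mapL (im (-4)) z) (hs p))) =
      v2 t s x + (w - 4 * s) * v3 (w - 4 * s) t s p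
    rw [v_a3, k, ← v_hs p]
    show v2 t s x + w * v3 w t s (hs p) + _ = _
    ring

theorem two_ok {θ B : ℕ} {A A' : ℤ} {T T' : Tr × Tr × Tr} {P : P3}
    (h : two' θ B A A' T T' P = true) (hA : (0 : ℝ) < A) (hA' : (0 : ℝ) < A')
    (w0 : -A ≤ w) (w1 : w ≤ A') (t0 : 0 ≤ t) (t1 : t ≤ 1) (s0 : 0 ≤ s) (s1 : s ≤ 1) :
    0 ≤ v3 w t s P := by
  rw [two', Bool.and_eq_true] at h
  rcases le_total w 0 with c | c
  · have := loc_ok h.1 (w := -w / A) (div_nonneg (neg_nonneg.2 c) hA.le)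
      ((div_le_one hA).2 (by linarith)) t0 t1 s0 s1
    rw [ev_fl3, show ((-A : ℤ) : ℝ) * (-w / A) = w by push_cast; field_simp] at this
    simpa using this
  · have := loc_ok h.2 (w := w / A') (div_nonneg c hA'.le) ((div_le_one hA').2 w1) t0 t1 s0 s1
    rw [ev_fl3, show (A' : ℝ) * (w / A') = w by field_simp] at this
    simpa using this

/-- the difference of the two sides; `p` replaces `π` -/
noncomputable def df (p e u u' a f : ℝ) : ℝ :=
  (p / 16 - 1 / 6) / 2 ^ 28 * (-6 * e * a + (6 * e - 1 / 4) * f ^ 2) -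
    ((p / 16 - 1 / 6) * (-6 * e) + (5 / 24 - p / 16) / 6 * (-6 * e) ^ 2 +
      (5 * p / 64 - 11 / 48) / 108 * (-6 * e) ^ 3 - Cc e u - Cc e u')

theorem v_ee (c p q : ℤ) (M n pm tm tp U V a f : P3) {e u u' A g : ℝ} (hq : (q : ℝ) ≠ 0)
    (h1 : v3 w t s M = e * v3 w t s n)
    (h2 : v3 w t s U = u * (v3 w t s pm * v3 w t s tm))
    (h3 : v3 w t s V = u' * (v3 w t s pm * v3 w t s tp))
    (h4 : v3 w t s a = c ^ 2 / 32 * (A - 2 ^ 28)) (h5 : v3 w t s f = c * g) :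
    v3 w t s (ee (2 ^ 28 * c ^ 2) p q M n pm tm tp U V a f) =
      960 * 2 ^ 28 * c ^ 2 * q *
        (v3 w t s n ^ 3 * (v3 w t s pm * v3 w t s tm * v3 w t s tp) ^ 6) *
        df (p / q) e u u' A g := by
  have z : v3 w t s [] = 0 := rfl
  simp only [ee, ctt, kk, hom, v_a3, v_m3, v_sm, v_pw, z, List.length_cons, List.length_nil,
    h1, h2, h3, h4, h5, df, Cc]
  push_cast
  field_simp
  ring

theorem df_nn {n : ℕ} {F G f : Pol} {p q : ℤ} {X τ Y : ℝ} (hq : (0 : ℝ) < q)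
    (d1 : dg (2 * n + 1) F = true) (d2 : dg (2 * n + 1) G = true) (d3 : dg (n + 2) f = true)
    (x0 : -1 < X) (x1 : X < 1) (t0 : -1 < τ) (t1 : τ < 1)
    (h : 0 ≤ v3 (64 * X) (16 * τ) (4 * Y) (tot n F G f p q)) :
    0 ≤ df (p / q) ((1 - τ ^ 2 - Y) * (1 - X) ^ 2 / (1 + X) ^ 2 - 1)
      (1 - (1 + X) / ((1 - X) * (1 - τ))) (1 - (1 + X) / ((1 - X) * (1 + τ)))
      (3 * (1 - τ ^ 2 - Y) * Pol.ev F (X, τ, Y) + (1 - τ) / 2 * Pol.ev G (X, τ, Y) +
        (1 + τ) / 2 * Pol.ev (Pol.rf G) (X, τ, Y)) (Pol.ev f (X, τ, Y)) := by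
  have a0 : 0 < 1 + X := by linarith
  have a1 : 0 < 1 - X := by linarith
  have b0 : 0 < 1 + τ := by linarith
  have b1 : 0 < 1 - τ := by linarith
  have k := v_sb (w := 64 * X) (t := 16 * τ) (s := 4 * Y) (X := X) (τ := τ) (Y := Y) rfl
    (by ring) (by ring)
  have e1 : v3 (64 * X) (16 * τ) (4 * Y) qm = 64 * (1 - X) := by
    simp only [qm, v_a3, v_sm, v_ct, v_pX]; push_cast; ring
  have e2 : v3 (64 * X) (16 * τ) (4 * Y) qp = 64 * (1 + X) := by
    simp only [qp, v_a3, v_ct, v_pX]; push_cast; ring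
  have e3 : v3 (64 * X) (16 * τ) (4 * Y) rm = 64 * (1 - τ) := by
    simp only [rm, v_a3, v_sm, v_ct, v_pT]; push_cast; ring
  have e4 : v3 (64 * X) (16 * τ) (4 * Y) rp = 64 * (1 + τ) := by
    simp only [rp, v_a3, v_ct, v_pT]; push_cast; ring
  have e5 : v3 (64 * X) (16 * τ) (4 * Y) qy = 4096 * (1 - τ ^ 2 - Y) := by
    simp only [qy, v_a3, v_sm, v_m3, v_ct, v_pT, v_pY]; push_cast; ring
  have e6 : v3 (64 * X) (16 * τ) (4 * Y) qn = 4096 * (64 * (1 + X)) ^ 2 := by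
    simp only [qn, v_sm, v_m3, e2]; push_cast; ring
  rw [tot, v_ee _ p q _ _ _ _ _ _ _ _ _ hq.ne'
    (e := (1 - τ ^ 2 - Y) * (1 - X) ^ 2 / (1 + X) ^ 2 - 1)
    (u := 1 - (1 + X) / ((1 - X) * (1 - τ))) (u' := 1 - (1 + X) / ((1 - X) * (1 + τ)))
    (A := 3 * (1 - τ ^ 2 - Y) * Pol.ev F (X, τ, Y) + (1 - τ) / 2 * Pol.ev G (X, τ, Y) +
        (1 + τ) / 2 * Pol.ev (Pol.rf G) (X, τ, Y)) (g := Pol.ev f (X, τ, Y)), e1, e3, e4, e6] at h
  · refine nonneg_of_mul_nonneg_right h ?_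
    positivity
  · simp only [v_a3, v_sm, v_m3, e1, e5, e6]; push_cast; field_simp; ring
  · simp only [v_a3, v_sm, v_m3, e1, e2, e3]; push_cast; field_simp; ring
  · simp only [v_a3, v_sm, v_m3, e1, e2, e4]; push_cast; field_simp; ring
  · simp only [v_a3, v_sm, v_m3, v_ct, e3, e4, e5, k _ _ d1, k _ _ d2, k _ _ (dg_rf d2)]
    push_cast
    ring
  · rw [k _ _ d3]; push_cast; ring

theorem df_pi {e u u' a f : ℝ} (h1 : 0 ≤ df (3141592 / 1000000) e u u' a f)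
    (h2 : 0 ≤ df (3141593 / 1000000) e u u' a f) : 0 ≤ df π e u u' a f := by
  have p1 : 0 ≤ 1000000 * π - 3141592 := by linarith [pi_gt_d6]
  have p2 : 0 ≤ 3141593 - 1000000 * π := by linarith [pi_lt_d6]
  refine (add_nonneg (mul_nonneg p2 h1) (mul_nonneg p1 h2)).trans_eq ?_
  simp only [df]
  ring

/-- the volume inequality near the Clifford point -/
theorem vol_near {n θ B θ' B' : ℕ} {T₁ T₂ T₃ T₄ : Tr × Tr × Tr} {F G f : Pol} {A A' : ℤ}
    (hA : 0 < A ∧ A ≤ 5) (hA' : 0 < A' ∧ A' ≤ 7)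
    (d1 : dg (2 * n + 1) F = true) (d2 : dg (2 * n + 1) G = true) (d3 : dg (n + 2) f = true)
    (k1 : two' θ B A A' T₁ T₂ (hs (tot n F G f 3141592 1000000)) = true)
    (k2 : two' θ' B' A A' T₃ T₄ (hs (tot n F G f 3141593 1000000)) = true)
    {μ : Fin (2 * 3) → ℝ} {w : W} (h : Adm (2 * 3) μ w) (hk : w.2.1 ≤ w.2.2)
    (o0 : -A ≤ 64 * ((chg (crd w)).1 + (chg (crd w)).2.2 / 4))
    (o1 : 64 * ((chg (crd w)).1 + (chg (crd w)).2.2 / 4) ≤ A')
    (t1 : (chg (crd w)).2.1 ≤ 1 / 16) (y1 : (chg (crd w)).2.2 ≤ 1 / 4) :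
    vol 3 μ w.2.1 w.2.2 ≤ 2 / 3 + (π / 16 - 1 / 6) / 2 ^ 28 *
      ((6 - w.1) * (3 * (crd w).2.2 * Pol.ev F (chg (crd w)) +
        (1 - (crd w).2.1) / 2 * Pol.ev G (chg (crd w)) +
        (1 + (crd w).2.1) / 2 * Pol.ev (Pol.rf G) (chg (crd w))) +
        (w.1 - 25 / 4) * Pol.ev f (chg (crd w)) ^ 2) := by
  obtain ⟨S, k, k'⟩ := w
  have hk1 : 0 < k := h.k1
  have hk2 : 0 < k' := h.k2
  have hs0 : 0 < k + k' := by positivity
  have hS : S ≤ 6 * (k * k') := by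
    have h1 : 0 ≤ ∑ i, (k + μ i) * (k' - μ i) :=
      Finset.sum_nonneg fun i _ => (mul_pos (h.lo i) (h.hi i)).le
    have h2 : ∑ i, (k + μ i) * (k' - μ i) = ∑ i, (k * k' + (k' - k) * μ i - μ i ^ 2) :=
      Finset.sum_congr rfl fun i _ => by ring
    rw [h2, Finset.sum_sub_distrib, Finset.sum_add_distrib, ← Finset.mul_sum _ μ, h.sum,
      h.sq] at h1
    simp at h1
    linarith
  obtain ⟨X, τ, Y, hc⟩ : ∃ X τ Y, chg (crd (S, k, k')) = (X, τ, Y) := ⟨_, _, _, rfl⟩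
  have cX : 2 * (2 / (2 + (k + k'))) - 1 = X := congrArg Prod.fst hc
  have cT : (k' - k) / (k + k') = τ := congrArg (fun u : W => u.2.1) hc
  have cY : 1 - ((k' - k) / (k + k')) ^ 2 - 2 * S / (3 * (k + k') ^ 2) = Y :=
    congrArg (fun u : W => u.2.2) hc
  have cy : (crd (S, k, k')).2.2 = 1 - τ ^ 2 - Y := by
    rw [← cY, ← cT]; simp only [crd]; ring
  have ct' : (crd (S, k, k')).2.1 = τ := cT
  rw [hc] at o0 o1 t1 y1
  rw [hc, cy, ct']
  simp only at o0 o1 t1 y1 hk ⊢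
  have A0 : (0 : ℝ) < A := by exact_mod_cast hA.1
  have A1 : (A : ℝ) ≤ 5 := by exact_mod_cast hA.2
  have B0 : (0 : ℝ) < A' := by exact_mod_cast hA'.1
  have B1 : (A' : ℝ) ≤ 7 := by exact_mod_cast hA'.2
  have t0 : 0 ≤ τ := by rw [← cT]; exact div_nonneg (sub_nonneg.2 hk) hs0.le
  have y0 : 0 ≤ Y := by
    have : Y = 2 * (6 * (k * k') - S) / (3 * (k + k') ^ 2) := by rw [← cY]; field_simp; ring
    rw [this]
    exact div_nonneg (by linarith) (by positivity)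
  have a0 : 0 < 1 + X := by linarith
  have a1 : 0 < 1 - X := by linarith
  have b0 : 0 < 1 + τ := by linarith
  have b1 : 0 < 1 - τ := by linarith
  have ek : k * (1 + X) = (1 - X) * (1 - τ) := by rw [← cX, ← cT]; field_simp; ring
  have ek' : k' * (1 + X) = (1 - X) * (1 + τ) := by rw [← cX, ← cT]; field_simp; ring
  have eS : S * (1 + X) ^ 2 = 6 * ((1 - τ ^ 2 - Y) * (1 - X) ^ 2) := by
    rw [← cy, ← cX]; simp only [crd]; field_simp; ring
  have ey : 2 * S = 3 * (k + k') ^ 2 * (1 - τ ^ 2 - Y) := by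
    rw [← cy]; simp only [crd]; field_simp
  have et : k' - k = τ * (k + k') := by rw [← cT]; field_simp
  have u1 : (1 + X) / ((1 - X) * (1 - τ)) = k⁻¹ := by rw [← ek]; field_simp
  have u2 : (1 + X) / ((1 - X) * (1 + τ)) = k'⁻¹ := by rw [← ek']; field_simp
  have u3 : (1 - τ ^ 2 - Y) * (1 - X) ^ 2 / (1 + X) ^ 2 = S / 6 := by
    rw [div_eq_div_iff (by positivity) (by norm_num)]; linarith
  have key : ∀ (p : ℤ) θ B T T', two' θ B A A' T T' (hs (tot n F G f p 1000000)) = true →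
      0 ≤ df (p / (1000000 : ℤ)) (S / 6 - 1) (1 - k⁻¹) (1 - k'⁻¹)
        (3 * (1 - τ ^ 2 - Y) * Pol.ev F (X, τ, Y) + (1 - τ) / 2 * Pol.ev G (X, τ, Y) +
          (1 + τ) / 2 * Pol.ev (Pol.rf G) (X, τ, Y)) (Pol.ev f (X, τ, Y)) := by
    intro p θ B T T' hh
    have := two_ok hh A0 B0 o0 o1 (t := 16 * τ) (s := 4 * Y) (by linarith) (by linarith)
      (by linarith) (by linarith)
    rw [v_hs, show 64 * (X + Y / 4) - 4 * (4 * Y) = 64 * X by ring] at this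
    rw [← u1, ← u2, ← u3]
    exact df_nn (by norm_num) d1 d2 d3 (by linarith) (by linarith) (by linarith) (by linarith) this
  have g1 := key _ _ _ _ _ k1
  have g2 := key _ _ _ _ _ k2
  push_cast at g1 g2
  have g := df_pi g1 g2
  clear key g1 g2 k1 k2 u1 u2 u3 cX cT cY hc cy ct'
  have tt : τ ^ 2 ≤ 1 / 256 := (pow_le_pow_left₀ t0 t1 2).trans_eq (by norm_num)
  have l1 : 3 / 4 ≤ k := by
    refine le_of_mul_le_mul_right ?_ a0
    have := mul_le_mul_of_nonneg_left t1 a1.le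
    rw [ek]; linarith
  have l2 : k' ≤ 3 / 2 := by
    refine le_of_mul_le_mul_right ?_ a0
    have := mul_le_mul_of_nonneg_left t1 a1.le
    rw [ek']; linarith
  have ab : ∀ x : ℝ, 3 / 4 ≤ x → x ≤ 3 / 2 → |1 - x⁻¹| ≤ 1 / 3 := fun x p q => by
    have x0 : 0 < x := by linarith
    have r1 : x⁻¹ ≤ 4 / 3 := by rw [inv_le_comm₀ x0 (by norm_num)]; linarith
    have r2 : 2 / 3 ≤ x⁻¹ := by rw [le_inv_comm₀ (by norm_num) x0]; linarith
    exact abs_le.2 ⟨by linarith, by linarith⟩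
  have l3 : 3 ≤ S := by
    refine le_of_mul_le_mul_right ?_ (pow_pos a0 2)
    rw [eS]
    have c1 : 57 / 64 + Y / 4 ≤ 1 - X := by linarith
    have c2 : 1 + X ≤ 71 / 64 - Y / 4 := by linarith
    have c3 : (57 / 64 + Y / 4) ^ 2 ≤ (1 - X) ^ 2 := by gcongr
    have c4 : (1 + X) ^ 2 ≤ (71 / 64 - Y / 4) ^ 2 := by gcongr
    have c5 : (255 / 256 - Y) * (57 / 64 + Y / 4) ^ 2 ≤ (1 - τ ^ 2 - Y) * (1 - X) ^ 2 :=
      mul_le_mul (by linarith) c3 (by positivity) (by linarith)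
    linarith [mul_nonneg y0 (sub_nonneg.2 y1), mul_nonneg (mul_nonneg y0 y0) (sub_nonneg.2 y1),
      mul_nonneg y0 y0]
  have l4 : S ≤ 9 := by
    refine le_of_mul_le_mul_right ?_ (pow_pos a0 2)
    rw [eS]
    have c1 : 1 - X ≤ 69 / 64 + Y / 4 := by linarith
    have c2 : 59 / 64 - Y / 4 ≤ 1 + X := by linarith
    have c0 : 0 ≤ 59 / 64 - Y / 4 := by linarith
    have c3 : (1 - X) ^ 2 ≤ (69 / 64 + Y / 4) ^ 2 := by gcongr
    have c4 : (59 / 64 - Y / 4) ^ 2 ≤ (1 + X) ^ 2 := by gcongr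
    have c5 : (1 - τ ^ 2 - Y) * (1 - X) ^ 2 ≤ (1 - Y) * (69 / 64 + Y / 4) ^ 2 :=
      mul_le_mul (by linarith [sq_nonneg τ]) c3 (by positivity) (by linarith)
    linarith [mul_nonneg y0 (sub_nonneg.2 y1), mul_nonneg (mul_nonneg y0 y0) y0,
      mul_nonneg y0 y0]
  have v := vol_local μ S k k' h (by linarith [mul_le_mul_of_nonneg_right t1 hs0.le])
    (by linarith)
    (by linarith [mul_nonneg (sq_nonneg (k + k')) (show 0 ≤ 1 - τ ^ 2 - Y - 20 / 27 by linarith)])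
    l3 l4 (ab k l1 (hk.trans l2)) (ab k' (l1.trans hk) l2)
  simp only [df] at g
  linear_combination v + g

end Pool.Agent.P.MP_2b44f0_gt.PD.Loc
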