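import Pool.Agent.P.MP_2b44f0_gt.PD.LocC
import Pool.Agent.P.MP_2b44f0_gt.PD.Coef

/-!
The local test at one rational value next to the circle constant.
-/

namespace Pool.Agent.P.MP_2b44f0_gt.PD.Loc

/-- subdivision for the negative sign -/
def Tb1 : Tr × Tr × Tr :=
  ((.x .o (.z .o (.x .o .o))), (.y (.y (.y (.z (.y (.y (.x .o .o) .o) .o) .o) (.z (.x .o .o)
    .o)) (.x (.x .o .o) (.y (.x .o .o) (.x .o .o)))) (.x (.x .o .o) (.x (.x .o .o) (.x (.x .o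
    .o) (.z .o (.x .o .o)))))), (.x (.y (.y .o .o) (.x .o .o)) (.y (.y .o (.x .o .o)) (.x (.x .o
    .o) (.x .o (.x .o .o))))))

/-- subdivision for the positive sign -/
def Tb2 : Tr × Tr × Tr :=
  ((.x .o .o), (.x (.y (.y (.y (.z (.y (.x .o .o) .o) (.x .o .o)) (.x .o .o)) (.x .o .o)) (.x .o
    .o)) (.y (.y (.y (.z (.y (.z .o .o) (.x .o .o)) (.y .o .o)) (.z .o (.x .o .o))) (.z .o (.x
    .o .o))) (.y (.x .o .o) .o))), (.x (.y (.y (.y (.x .o .o) (.x .o .o)) (.x .o .o)) (.x .o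
    .o)) (.y (.y (.y .o (.x .o .o)) (.x .o .o)) (.x .o .o))))

theorem k2 : two' (2 ^ 272) (22 * 2 ^ 272) 5 7 Tb1 Tb2
    (hs (tot 3 cF cG cf 3141593 1000000)) = true := by
  decide +kernel

end Pool.Agent.P.MP_2b44f0_gt.PD.Loc
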