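import Pool.Agent.P.MP_2b44f0_gt.PD.LocD
import Pool.Agent.P.MP_2b44f0_gt.PD.LocE

/-!
The volume inequality of the certificate near the Clifford point.
-/

namespace Pool.Agent.P.MP_2b44f0_gt.PD

open Real

theorem vol_loc {μ : Fin (2 * 3) → ℝ} {w : W} (h : Adm (2 * 3) μ w) (hk : w.2.1 ≤ w.2.2)
    (o0 : -(5 / 64) ≤ (chg (crd w)).1 + (chg (crd w)).2.2 / 4)
    (o1 : (chg (crd w)).1 + (chg (crd w)).2.2 / 4 ≤ 7 / 64)
    (t1 : (chg (crd w)).2.1 ≤ 1 / 16) (y1 : (chg (crd w)).2.2 ≤ 1 / 4) :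
    vol 3 μ w.2.1 w.2.2 ≤ 2 / 3 + (π / 16 - 1 / 6) / 2 ^ 28 *
      ((6 - w.1) * (3 * (crd w).2.2 * Pol.ev cF (chg (crd w)) +
        (1 - (crd w).2.1) / 2 * Pol.ev cG (chg (crd w)) +
        (1 + (crd w).2.1) / 2 * Pol.ev (Pol.rf cG) (chg (crd w))) +
        (w.1 - 25 / 4) * Pol.ev cf (chg (crd w)) ^ 2) :=
  Loc.vol_near (by norm_num) (by norm_num) (by decide) (by decide) (by decide) Loc.k1 Loc.k2 h hk
    (by push_cast; linarith) (by push_cast; linarith) t1 y1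

end Pool.Agent.P.MP_2b44f0_gt.PD
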