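import Pool.Agent.P.MP_2b44f0_gt.PD.IfC

/-!
The volume of a configuration that is close to the balanced one.
-/

namespace Pool.Agent.P.MP_2b44f0_gt.PD

open MeasureTheory Set

/-- the moments of the weight -/
noncomputable def Ij (j : ℕ) (k k' : ℝ) : ℝ := ∫ ξ in (-k'⁻¹)..k⁻¹, ξ ^ j / (1 + ξ ^ 2) ^ 4

/-- the volume of the balanced configuration -/
noncomputable def Bv (s k k' : ℝ) : ℝ :=
  ∫ ξ in (-k'⁻¹)..k⁻¹, (1 - s * ξ ^ 2) ^ 3 / (1 + ξ ^ 2) ^ 4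

namespace NearA

theorem ii (p : ℝ → ℝ) (hp : Continuous p) (a b : ℝ) :
    IntervalIntegrable (fun ξ => p ξ / (1 + ξ ^ 2) ^ 4) volume a b :=
  (hp.div (by fun_prop) fun ξ => by positivity).intervalIntegrable a b

theorem prod_eq (μ : Fin (2 * 3) → ℝ) (s ξ : ℝ) (h1 : ∑ i, μ i = 0) (h2 : ∑ i, μ i ^ 2 = 6 * s) :
    ∏ i, (1 + ξ * μ i) = (1 - s * ξ ^ 2) ^ 3 + (∑ i, μ i ^ 3) / 3 * ξ ^ 3 +
      -((∑ i, (μ i ^ 2 - s) ^ 2) / 4) * ξ ^ 4 +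
      ((∑ i, (μ i ^ 2 - s) ^ 2 * μ i) / 5 - 3 / 5 * s * ∑ i, μ i ^ 3) * ξ ^ 5 +
      ((∑ i, μ i ^ 3) ^ 2 / 18 - (∑ i, (μ i ^ 2 - s) ^ 2 * μ i ^ 2) / 6 +
        5 / 12 * s * ∑ i, (μ i ^ 2 - s) ^ 2) * ξ ^ 6 := by
  change ∑ i : Fin 6, μ i = 0 at h1
  change ∑ i : Fin 6, μ i ^ 2 = 6 * s at h2
  change ∏ i : Fin 6, (1 + ξ * μ i) = (1 - s * ξ ^ 2) ^ 3 + (∑ i : Fin 6, μ i ^ 3) / 3 * ξ ^ 3 +
      -((∑ i : Fin 6, (μ i ^ 2 - s) ^ 2) / 4) * ξ ^ 4 +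
      ((∑ i : Fin 6, (μ i ^ 2 - s) ^ 2 * μ i) / 5 - 3 / 5 * s * ∑ i : Fin 6, μ i ^ 3) * ξ ^ 5 +
      ((∑ i : Fin 6, μ i ^ 3) ^ 2 / 18 - (∑ i : Fin 6, (μ i ^ 2 - s) ^ 2 * μ i ^ 2) / 6 +
        5 / 12 * s * ∑ i : Fin 6, (μ i ^ 2 - s) ^ 2) * ξ ^ 6
  simp only [Fin.sum_univ_six, Fin.prod_univ_six] at h1 h2 ⊢
  generalize μ 0 = a, μ 1 = b, μ 2 = c, μ 3 = d, μ 4 = e, μ 5 = f at h1 h2 ⊢
  obtain rfl : f = -(a + b + c + d + e) := by linarith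
  obtain rfl : s = (a ^ 2 + b ^ 2 + c ^ 2 + d ^ 2 + e ^ 2 + (-(a + b + c + d + e)) ^ 2) / 6 := by
    linarith
  ring

theorem seven (μ : Fin (2 * 3) → ℝ) (s : ℝ) (h1 : ∑ i, μ i = 0) (h2 : ∑ i, μ i ^ 2 = 6 * s) :
    (∑ i, μ i ^ 3) * (8 * s ^ 2 - 35 / 12 * ∑ i, (μ i ^ 2 - s) ^ 2) =
      ∑ i, (μ i ^ 2 - s) ^ 2 * (μ i * (11 * s - 5 * μ i ^ 2)) := by
  change ∑ i : Fin 6, μ i = 0 at h1
  change ∑ i : Fin 6, μ i ^ 2 = 6 * s at h2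
  change (∑ i : Fin 6, μ i ^ 3) * (8 * s ^ 2 - 35 / 12 * ∑ i : Fin 6, (μ i ^ 2 - s) ^ 2) =
      ∑ i : Fin 6, (μ i ^ 2 - s) ^ 2 * (μ i * (11 * s - 5 * μ i ^ 2))
  simp only [Fin.sum_univ_six] at h1 h2 ⊢
  generalize μ 0 = a, μ 1 = b, μ 2 = c, μ 3 = d, μ 4 = e, μ 5 = f at h1 h2 ⊢
  obtain rfl : f = -(a + b + c + d + e) := by linarith
  obtain rfl : s = (a ^ 2 + b ^ 2 + c ^ 2 + d ^ 2 + e ^ 2 + (-(a + b + c + d + e)) ^ 2) / 6 := by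
    linarith
  ring

theorem vol_eq (μ : Fin (2 * 3) → ℝ) (s k k' : ℝ) (h1 : ∑ i, μ i = 0)
    (h2 : ∑ i, μ i ^ 2 = 6 * s) :
    vol 3 μ k k' = Bv s k k' + (∑ i, μ i ^ 3) / 3 * Ij 3 k k' +
      -((∑ i, (μ i ^ 2 - s) ^ 2) / 4) * Ij 4 k k' +
      ((∑ i, (μ i ^ 2 - s) ^ 2 * μ i) / 5 - 3 / 5 * s * ∑ i, μ i ^ 3) * Ij 5 k k' +
      ((∑ i, μ i ^ 3) ^ 2 / 18 - (∑ i, (μ i ^ 2 - s) ^ 2 * μ i ^ 2) / 6 +
        5 / 12 * s * ∑ i, (μ i ^ 2 - s) ^ 2) * Ij 6 k k' := by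
  have key : ∀ c3 c4 c5 c6 : ℝ, (∀ ξ : ℝ, ∏ i, (1 + ξ * μ i) = (1 - s * ξ ^ 2) ^ 3 + c3 * ξ ^ 3 +
      c4 * ξ ^ 4 + c5 * ξ ^ 5 + c6 * ξ ^ 6) → vol 3 μ k k' = Bv s k k' + c3 * Ij 3 k k' +
      c4 * Ij 4 k k' + c5 * Ij 5 k k' + c6 * Ij 6 k k' := by
    intro c3 c4 c5 c6 h
    have e : ∀ (c : ℝ) (j : ℕ), c * Ij j k k' =
        ∫ ξ in (-k'⁻¹)..k⁻¹, (c * ξ ^ j) / (1 + ξ ^ 2) ^ 4 := fun c j => by
      rw [Ij, ← intervalIntegral.integral_const_mul]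
      exact intervalIntegral.integral_congr fun ξ _ => by ring
    have a : ∀ p q : ℝ → ℝ, Continuous p → Continuous q →
        (∫ ξ in (-k'⁻¹)..k⁻¹, p ξ / (1 + ξ ^ 2) ^ 4) + ∫ ξ in (-k'⁻¹)..k⁻¹, q ξ / (1 + ξ ^ 2) ^ 4 =
        ∫ ξ in (-k'⁻¹)..k⁻¹, (p ξ + q ξ) / (1 + ξ ^ 2) ^ 4 := fun p q hp hq => by
      rw [← intervalIntegral.integral_add (ii p hp _ _) (ii q hq _ _)]
      exact intervalIntegral.integral_congr fun ξ _ => by ring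
    rw [e, e, e, e, Bv, a _ _ (by fun_prop) (by fun_prop), a _ _ (by fun_prop) (by fun_prop),
      a _ _ (by fun_prop) (by fun_prop), a _ _ (by fun_prop) (by fun_prop), vol]
    exact intervalIntegral.integral_congr fun ξ _ => by simp only [h ξ]
  exact key _ _ _ _ fun ξ => prod_eq μ s ξ h1 h2

theorem one_le (p : Fin (2 * 3) → ℝ) (h : ∑ i, p i = 0) (i : Fin (2 * 3)) :
    6 * p i ^ 2 ≤ 5 * ∑ j, p j ^ 2 := by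
  have h1 : 0 ≤ ∑ j ∈ Finset.univ.erase i, (p j + p i / 5) ^ 2 :=
    Finset.sum_nonneg fun j _ => sq_nonneg _
  have h2 := Finset.add_sum_erase Finset.univ p (Finset.mem_univ i)
  have h3 := Finset.add_sum_erase Finset.univ (fun j => p j ^ 2) (Finset.mem_univ i)
  have h4 : ∑ j ∈ Finset.univ.erase i, (p j + p i / 5) ^ 2 =
      ∑ j ∈ Finset.univ.erase i, p j ^ 2 + 2 * p i / 5 * ∑ j ∈ Finset.univ.erase i, p j +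
        5 * (p i / 5) ^ 2 := by
    have : ∑ j ∈ Finset.univ.erase i, (p i / 5) ^ 2 = 5 * (p i / 5) ^ 2 := by
      rw [Finset.sum_const, Finset.card_erase_of_mem (Finset.mem_univ i)]
      simp
    rw [← this, Finset.mul_sum, ← Finset.sum_add_distrib, ← Finset.sum_add_distrib]
    exact Finset.sum_congr rfl fun j _ => by ring
  have h5 : ∑ j ∈ Finset.univ.erase i, p j = -p i := by linarith
  rw [h4, h5] at h1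
  nlinarith

end NearA

open NearA in
/-- a configuration close to the balanced one has smaller volume -/
theorem near (μ : Fin (2 * 3) → ℝ) (s k k' g : ℝ) (hs : 0 < s) (h1 : ∑ i, μ i = 0)
    (h2 : ∑ i, μ i ^ 2 = 6 * s) (hD : ∑ i, (μ i ^ 2 - s) ^ 2 ≤ 2 / 5 * s ^ 2)
    (h6 : 0 ≤ Ij 6 k k')
    (hc : ∀ i, ∀ e : ℝ, 3 * (μ i ^ 2 - s) ^ 2 ≤ s ^ 2 → 11 * s - 5 * μ i ^ 2 ≤ 8 * s * e →
      41 * s * e ≤ 6 * (11 * s - 5 * μ i ^ 2) →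
      g ≤ Ij 4 k k' / 4 - 5 / 12 * s * Ij 6 k k' + Ij 6 k k' * μ i ^ 2 * (1 / 6 - e ^ 2 / 45) -
        μ i * (Ij 5 k k' / 5 + (Ij 3 k k' / (3 * s) - 3 / 5 * Ij 5 k k') * e)) :
    vol 3 μ k k' ≤ Bv s k k' - g * ∑ i, (μ i ^ 2 - s) ^ 2 := by
  rw [vol_eq μ s k k' h1 h2]
  have h7 := seven μ s h1 h2
  have hp : ∑ i, (μ i ^ 2 - s) = 0 := by
    rw [Finset.sum_sub_distrib, h2]; simp
  have hone := one_le (fun i => μ i ^ 2 - s) hp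
  generalize Ij 3 k k' = I3, Ij 4 k k' = I4, Ij 5 k k' = I5, Ij 6 k k' = I6 at *
  obtain ⟨D, hDe⟩ : ∃ D, D = ∑ i, (μ i ^ 2 - s) ^ 2 := ⟨_, rfl⟩
  obtain ⟨t, ht⟩ : ∃ t, t = ∑ i, μ i ^ 3 := ⟨_, rfl⟩
  have hD0 : 0 ≤ D := hDe ▸ Finset.sum_nonneg fun i _ => sq_nonneg _
  rw [← hDe] at hD h7 hone
  rw [← ht] at h7 ⊢
  have hs2 : 0 < s ^ 2 := by positivity
  obtain ⟨N, hN⟩ : ∃ N, N = 8 * s ^ 2 - 35 / 12 * D := ⟨_, rfl⟩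
  have hN0 : 0 < N := by rw [hN]; linarith
  rw [← hN] at h7
  obtain ⟨e, he⟩ : ∃ e : Fin (2 * 3) → ℝ, ∀ i, e i = (11 * s - 5 * μ i ^ 2) * s / N :=
    ⟨_, fun _ => rfl⟩
  have hts : t * s = ∑ i, (μ i ^ 2 - s) ^ 2 * (μ i * e i) := by
    have : t * s = (t * N) * (s / N) := by field_simp
    rw [this, h7, Finset.sum_mul]
    exact Finset.sum_congr rfl fun i _ => by rw [he]; field_simp
  have hcs : (t * s) ^ 2 ≤ D * ∑ i, (μ i ^ 2 - s) ^ 2 * (μ i * e i) ^ 2 := by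
    have := Finset.sum_mul_sq_le_sq_mul_sq Finset.univ (fun i => μ i ^ 2 - s)
      (fun i => (μ i ^ 2 - s) * (μ i * e i))
    rw [hts, hDe]
    refine le_of_eq_of_le (congrArg (· ^ 2) (Finset.sum_congr rfl fun i _ => by ring))
      (this.trans_eq (congrArg _ (Finset.sum_congr rfl fun i _ => by ring)))
  have hQ0 : 0 ≤ ∑ i, (μ i ^ 2 - s) ^ 2 * (μ i * e i) ^ 2 :=
    Finset.sum_nonneg fun i _ => by positivity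
  have ht2 : t ^ 2 ≤ 2 / 5 * ∑ i, (μ i ^ 2 - s) ^ 2 * (μ i * e i) ^ 2 := by
    refine le_of_mul_le_mul_right ?_ hs2
    nlinarith [mul_le_mul_of_nonneg_right hD hQ0]
  have hi : ∀ i, (μ i ^ 2 - s) ^ 2 * g ≤ (μ i ^ 2 - s) ^ 2 * (I4 / 4 - 5 / 12 * s * I6 +
      I6 * μ i ^ 2 * (1 / 6 - e i ^ 2 / 45) -
      μ i * (I5 / 5 + (I3 / (3 * s) - 3 / 5 * I5) * e i)) := fun i => by
    have b1 : 3 * (μ i ^ 2 - s) ^ 2 ≤ s ^ 2 := by have := hone i; linarith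
    have b2 : 0 ≤ 11 * s - 5 * μ i ^ 2 := by nlinarith
    have b3 : e i * N = (11 * s - 5 * μ i ^ 2) * s := by rw [he]; field_simp
    have b4 : 0 ≤ e i := by rw [he]; positivity
    refine mul_le_mul_of_nonneg_left (hc i (e i) b1 ?_ ?_) (sq_nonneg _)
    · refine le_of_mul_le_mul_right ?_ hs
      nlinarith [mul_nonneg b4 hD0]
    · refine le_of_mul_le_mul_right ?_ hs
      nlinarith [mul_le_mul_of_nonneg_left hD b4]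
  have hsum := Finset.sum_le_sum fun i (_ : i ∈ Finset.univ) => hi i
  have e1 : ∑ i, (μ i ^ 2 - s) ^ 2 * g = D * g := by rw [hDe, Finset.sum_mul]
  have e2 : ∑ i, (μ i ^ 2 - s) ^ 2 * (I4 / 4 - 5 / 12 * s * I6 +
      I6 * μ i ^ 2 * (1 / 6 - e i ^ 2 / 45) -
      μ i * (I5 / 5 + (I3 / (3 * s) - 3 / 5 * I5) * e i)) =
      (I4 / 4 - 5 / 12 * s * I6) * D + I6 / 6 * ∑ i, (μ i ^ 2 - s) ^ 2 * μ i ^ 2 -
        I6 / 45 * ∑ i, (μ i ^ 2 - s) ^ 2 * (μ i * e i) ^ 2 -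
        I5 / 5 * ∑ i, (μ i ^ 2 - s) ^ 2 * μ i - (I3 / (3 * s) - 3 / 5 * I5) * (t * s) := by
    rw [hts, hDe]
    simp only [Finset.mul_sum, ← Finset.sum_add_distrib, ← Finset.sum_sub_distrib]
    exact Finset.sum_congr rfl fun i _ => by ring
  have e3 : I3 / (3 * s) * (t * s) = t / 3 * I3 := by field_simp
  rw [e1, e2] at hsum
  rw [← hDe]
  nlinarith [mul_le_mul_of_nonneg_left ht2 h6]

end Pool.Agent.P.MP_2b44f0_gt.PD
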