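import Pool.Agent.P.MP_2b44f0_gt.PD.NearA

/-!
Closed forms of the moments, and bounds for the arctangent.
-/

namespace Pool.Agent.P.MP_2b44f0_gt.PD

open MeasureTheory Set Real

/-- numerators of the rational parts of the primitives of `x ^ j / (1 + x ^ 2) ^ 4` -/
noncomputable def Jn : ℕ → ℝ → ℝ
  | 0, x => x * (15 * x ^ 4 + 40 * x ^ 2 + 33)
  | 1, _ => -8
  | 2, x => x * (3 * x ^ 4 + 8 * x ^ 2 - 3)
  | 3, x => -4 * (3 * x ^ 2 + 1)
  | 4, x => x * (3 * x ^ 4 - 8 * x ^ 2 - 3)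
  | 5, x => -8 * (3 * x ^ 4 + 3 * x ^ 2 + 1)
  | 6, x => -(x * (33 * x ^ 4 + 40 * x ^ 2 + 15))
  | _, _ => 0

/-- coefficients of the arctangent -/
noncomputable def Ja : ℕ → ℝ
  | 0 => 5 / 16
  | 2 => 1 / 16
  | 4 => 1 / 16
  | 6 => 5 / 16
  | _ => 0

/-- primitives of `x ^ j / (1 + x ^ 2) ^ 4`, `j ≤ 6` -/
noncomputable def Jf (j : ℕ) (x : ℝ) : ℝ := Jn j x / (48 * (1 + x ^ 2) ^ 3) + Ja j * arctan x

namespace NearB

theorem quot {p : ℝ → ℝ} {p' x a c : ℝ} (hp : HasDerivAt p p' x)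
    (h : p' * (1 + x ^ 2) - 6 * x * p x + 48 * a * (1 + x ^ 2) ^ 3 = 48 * c) :
    HasDerivAt (fun x => p x / (48 * (1 + x ^ 2) ^ 3) + a * arctan x) (c / (1 + x ^ 2) ^ 4) x := by
  have h0 : (1 + x ^ 2) ≠ 0 := by positivity
  have hd : HasDerivAt (fun x : ℝ => 48 * (1 + x ^ 2) ^ 3) (48 * (3 * (1 + x ^ 2) ^ 2 * (2 * x))) x := by
    have := (((hasDerivAt_pow 2 x).const_add 1).pow 3).const_mul 48
    simpa using this
  have := (hp.div hd (by positivity)).add ((hasDerivAt_arctan x).const_mul a)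
  refine this.congr_deriv ?_
  have hc : c = (p' * (1 + x ^ 2) - 6 * x * p x + 48 * a * (1 + x ^ 2) ^ 3) / 48 := by linarith
  rw [hc]
  field_simp
  ring

theorem poly (a b c d e f x : ℝ) :
    HasDerivAt (fun x : ℝ => a + b * x + c * x ^ 2 + d * x ^ 3 + e * x ^ 4 + f * x ^ 5)
      (b + 2 * c * x + 3 * d * x ^ 2 + 4 * e * x ^ 3 + 5 * f * x ^ 4) x := by
  have := (((((hasDerivAt_const x a).add ((hasDerivAt_id x).const_mul b)).add
    ((hasDerivAt_pow 2 x).const_mul c)).add ((hasDerivAt_pow 3 x).const_mul d)).add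
    ((hasDerivAt_pow 4 x).const_mul e)).add ((hasDerivAt_pow 5 x).const_mul f)
  refine this.congr_deriv ?_
  simp
  ring

theorem one (j : ℕ) (a b c d e f x : ℝ)
    (h : ∀ x, Jn j x = a + b * x + c * x ^ 2 + d * x ^ 3 + e * x ^ 4 + f * x ^ 5)
    (h' : (b + 2 * c * x + 3 * d * x ^ 2 + 4 * e * x ^ 3 + 5 * f * x ^ 4) * (1 + x ^ 2) -
      6 * x * (a + b * x + c * x ^ 2 + d * x ^ 3 + e * x ^ 4 + f * x ^ 5) +
      48 * Ja j * (1 + x ^ 2) ^ 3 = 48 * x ^ j) :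
    HasDerivAt (Jf j) (x ^ j / (1 + x ^ 2) ^ 4) x := by
  have e1 : Jf j = fun x => (a + b * x + c * x ^ 2 + d * x ^ 3 + e * x ^ 4 + f * x ^ 5) /
      (48 * (1 + x ^ 2) ^ 3) + Ja j * arctan x := funext fun x => by rw [Jf, h]
  rw [e1]
  exact quot (poly a b c d e f x) h'

end NearB

open NearB in
theorem hasDerivAt_Jf (j : ℕ) (hj : j ≤ 6) (x : ℝ) :
    HasDerivAt (Jf j) (x ^ j / (1 + x ^ 2) ^ 4) x := by
  interval_cases j
  · exact one 0 0 33 0 40 0 15 x (fun x => by simp only [Jn]; ring) (by simp only [Ja]; ring)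
  · exact one 1 (-8) 0 0 0 0 0 x (fun x => by simp only [Jn]; ring) (by simp only [Ja]; ring)
  · exact one 2 0 (-3) 0 8 0 3 x (fun x => by simp only [Jn]; ring) (by simp only [Ja]; ring)
  · exact one 3 (-4) 0 (-12) 0 0 0 x (fun x => by simp only [Jn]; ring) (by simp only [Ja]; ring)
  · exact one 4 0 (-3) 0 (-8) 0 3 x (fun x => by simp only [Jn]; ring) (by simp only [Ja]; ring)
  · exact one 5 (-8) 0 (-24) 0 (-24) 0 x (fun x => by simp only [Jn]; ring)
      (by simp only [Ja]; ring)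
  · exact one 6 0 (-15) 0 (-40) 0 (-33) x (fun x => by simp only [Jn]; ring)
      (by simp only [Ja]; ring)

theorem Ij_eq (j : ℕ) (hj : j ≤ 6) (k k' : ℝ) : Ij j k k' = Jf j k⁻¹ - Jf j (-k'⁻¹) :=
  intervalIntegral.integral_eq_sub_of_hasDerivAt (fun x _ => hasDerivAt_Jf j hj x)
    (NearA.ii (fun ξ => ξ ^ j) (by fun_prop) _ _)

/-- the integral of a polynomial of degree six -/
theorem int_poly (p : ℝ → ℝ) (c0 c1 c2 c3 c4 c5 c6 k k' : ℝ)
    (h : ∀ ξ, p ξ = c0 + c1 * ξ + c2 * ξ ^ 2 + c3 * ξ ^ 3 + c4 * ξ ^ 4 + c5 * ξ ^ 5 + c6 * ξ ^ 6) :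
    ∫ ξ in (-k'⁻¹)..k⁻¹, p ξ / (1 + ξ ^ 2) ^ 4 = c0 * Ij 0 k k' + c1 * Ij 1 k k' +
      c2 * Ij 2 k k' + c3 * Ij 3 k k' + c4 * Ij 4 k k' + c5 * Ij 5 k k' + c6 * Ij 6 k k' := by
  have e : ∀ (c : ℝ) (j : ℕ), c * Ij j k k' =
      ∫ ξ in (-k'⁻¹)..k⁻¹, (c * ξ ^ j) / (1 + ξ ^ 2) ^ 4 := fun c j => by
    rw [Ij, ← intervalIntegral.integral_const_mul]
    exact intervalIntegral.integral_congr fun ξ _ => by ring
  have a : ∀ p q : ℝ → ℝ, Continuous p → Continuous q →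
      (∫ ξ in (-k'⁻¹)..k⁻¹, p ξ / (1 + ξ ^ 2) ^ 4) + ∫ ξ in (-k'⁻¹)..k⁻¹, q ξ / (1 + ξ ^ 2) ^ 4 =
      ∫ ξ in (-k'⁻¹)..k⁻¹, (p ξ + q ξ) / (1 + ξ ^ 2) ^ 4 := fun p q hp hq => by
    rw [← intervalIntegral.integral_add (NearA.ii p hp _ _) (NearA.ii q hq _ _)]
    exact intervalIntegral.integral_congr fun ξ _ => by ring
  rw [e, e, e, e, e, e, e, a _ _ (by fun_prop) (by fun_prop), a _ _ (by fun_prop) (by fun_prop),
    a _ _ (by fun_prop) (by fun_prop), a _ _ (by fun_prop) (by fun_prop),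
    a _ _ (by fun_prop) (by fun_prop), a _ _ (by fun_prop) (by fun_prop)]
  exact intervalIntegral.integral_congr fun ξ _ => by simp only [h ξ]; ring

/-- one half of the balanced volume -/
noncomputable def bh (s k : ℝ) : ℝ :=
  (k ^ 2 * (k ^ 2 * (33 + 9 * s - 9 * s ^ 2 + 15 * s ^ 3) * k +
    (40 - 24 * s - 24 * s ^ 2 + 40 * s ^ 3) * k) + (15 - 9 * s + 9 * s ^ 2 + 33 * s ^ 3) * k) /
      (48 * (1 + k ^ 2) ^ 3) + (5 - 3 * s + 3 * s ^ 2 - 5 * s ^ 3) / 16 * arctan k⁻¹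

theorem Bv_eq (s k k' : ℝ) (hk : 0 < k) (hk' : 0 < k') : Bv s k k' = bh s k + bh s k' := by
  rw [Bv, int_poly (fun ξ => (1 - s * ξ ^ 2) ^ 3) 1 0 (-3 * s) 0 (3 * s ^ 2) 0 (-s ^ 3) k k'
    fun ξ => by ring, Ij_eq 0 (by norm_num), Ij_eq 2 (by norm_num), Ij_eq 4 (by norm_num),
    Ij_eq 6 (by norm_num)]
  simp only [Jf, Jn, Ja, bh, arctan_neg]
  field_simp
  ring

theorem arctan_inv_eq (k : ℝ) (hk : 0 < k) : arctan k⁻¹ = π / 4 - arctan ((k - 1) / (k + 1)) := by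
  have h : k⁻¹ * ((k - 1) / (k + 1)) < 1 := by
    rw [inv_mul_eq_div, div_lt_one hk, div_lt_iff₀ (by linarith)]
    nlinarith
  have := arctan_add h
  have e : (k⁻¹ + (k - 1) / (k + 1)) / (1 - k⁻¹ * ((k - 1) / (k + 1))) = 1 := by
    rw [div_eq_one_iff_eq (by linarith)]
    field_simp
    ring
  rw [e, arctan_one] at this
  linarith

/-- the Taylor polynomial of the arctangent -/
noncomputable def atn (n : ℕ) (r : ℝ) : ℝ :=
  ∑ i ∈ Finset.range n, (-1) ^ i * r ^ (2 * i + 1) / (2 * i + 1)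

theorem hasDerivAt_atn (n : ℕ) (r : ℝ) :
    HasDerivAt (atn n) ((1 - (-1) ^ n * r ^ (2 * n)) / (1 + r ^ 2)) r := by
  induction n with
  | zero =>
    have : atn 0 = fun _ => 0 := funext fun r => by simp [atn]
    rw [this]
    simpa using hasDerivAt_const r (0 : ℝ)
  | succ n ih =>
    have : atn (n + 1) = fun r => atn n r + (-1) ^ n / (2 * n + 1) * r ^ (2 * n + 1) :=
      funext fun r => by rw [atn, Finset.sum_range_succ, atn]; ring
    rw [this]
    refine (ih.add ((hasDerivAt_pow (2 * n + 1) r).const_mul _)).congr_deriv ?_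
    have h0 : (1 + r ^ 2) ≠ 0 := by positivity
    have h1 : (2 * (n : ℝ) + 1) ≠ 0 := by positivity
    simp only [Nat.add_sub_cancel]
    push_cast
    field_simp
    ring

theorem arctan_taylor (n : ℕ) (r : ℝ) :
    |arctan r - atn n r| ≤ |r| ^ (2 * n + 1) / (2 * n + 1) := by
  have main : ∀ r : ℝ, 0 ≤ r → |arctan r - atn n r| ≤ r ^ (2 * n + 1) / (2 * n + 1) := by
    intro r hr
    have key : ∀ c : ℝ, |c| ≤ 1 → 0 ≤ r ^ (2 * n + 1) / (2 * n + 1) + c * (arctan r - atn n r) := by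
      intro c hc
      have hd : ∀ x : ℝ, HasDerivAt (fun x : ℝ => x ^ (2 * n + 1) / (2 * n + 1) +
          c * (arctan x - atn n x)) (x ^ (2 * n) * (1 + c * (-1) ^ n / (1 + x ^ 2))) x := fun x => by
        refine (((hasDerivAt_pow (2 * n + 1) x).div_const _).add
          (((hasDerivAt_arctan x).sub (hasDerivAt_atn n x)).const_mul c)).congr_deriv ?_
        have h0 : (1 + x ^ 2) ≠ 0 := by positivity
        have h1 : (2 * (n : ℝ) + 1) ≠ 0 := by positivity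
        simp only [Nat.add_sub_cancel]
        push_cast
        field_simp
        ring
      have hm := monotone_of_deriv_nonneg (fun x => (hd x).differentiableAt) fun x => by
        rw [(hd x).deriv]
        refine mul_nonneg (by rw [pow_mul]; positivity) ?_
        have h2 : |c * (-1) ^ n / (1 + x ^ 2)| ≤ 1 := by
          rw [abs_div, abs_mul, abs_pow, abs_neg, abs_one, one_pow, mul_one,
            abs_of_pos (by positivity : (0 : ℝ) < 1 + x ^ 2), div_le_one (by positivity)]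
          nlinarith [sq_nonneg x]
        linarith [(abs_le.1 h2).1]
      simpa [atn] using hm hr
    have k1 := key 1 (by simp)
    have k2 := key (-1) (by simp)
    rw [abs_le]
    constructor <;> linarith
  rcases le_total 0 r with h | h
  · rw [abs_of_nonneg h]; exact main r h
  · have := main (-r) (by linarith)
    have e : atn n (-r) = -atn n r := by
      rw [atn, atn, ← Finset.sum_neg_distrib]
      exact Finset.sum_congr rfl fun i _ => by rw [Odd.neg_pow ⟨i, rfl⟩]; ring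
    rw [abs_of_nonpos h]
    rwa [arctan_neg, e, show -arctan r - -atn n r = -(arctan r - atn n r) by ring, abs_neg] at this

end Pool.Agent.P.MP_2b44f0_gt.PD
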