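import Pool.Agent.P.MP_2b44f0_gt.PD.NearB

/-!
A polynomial upper bound for the balanced volume near the Clifford point.
-/

namespace Pool.Agent.P.MP_2b44f0_gt.PD

open MeasureTheory Set Real

/-- the loss due to the cut, `e = s - 1`, `u = 1 - 1 / k` -/
noncomputable def Cc (e u : ℝ) : ℝ :=
  (2 * u ^ 4 + 4 * u ^ 5 + 7 / 3 * u ^ 6 - e * (4 * u ^ 3 + 3 * u ^ 4 - 9 / 5 * u ^ 5) +
    e ^ 2 * (3 * u ^ 2 - u ^ 3 - 15 / 2 * u ^ 4) - e ^ 3 * (u - u ^ 2 - u ^ 3 / 3)) / 16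

namespace NearD

/-- remainder polynomial -/
def A0 (v : ℝ) : ℝ :=
  (128) * v ^ 0 + (-400) * v ^ 1 + (320) * v ^ 2 + (160) * v ^ 3 + (-560) * v ^ 4 + (544) * v ^ 5 +
      (-296) * v ^ 6 + (92) * v ^ 7 + (-14) * v ^ 8

/-- remainder polynomial -/
def A1 (v : ℝ) : ℝ :=
  (480) * v ^ 0 + (-1488) * v ^ 1 + (2112) * v ^ 2 + (-1800) * v ^ 3 + (1008) * v ^ 4 + (-372) * v ^
      5 + (84) * v ^ 6 + (-9) * v ^ 7

/-- remainder polynomial -/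
def A2 (v : ℝ) : ℝ :=
  (288) * v ^ 0 + (-1248) * v ^ 1 + (2832) * v ^ 2 + (-3960) * v ^ 3 + (3648) * v ^ 4 + (-2256) * v
      ^ 5 + (930) * v ^ 6 + (-237) * v ^ 7 + (30) * v ^ 8

/-- remainder polynomial -/
def A3 (v : ℝ) : ℝ :=
  (-32) * v ^ 0 + (88) * v ^ 1 + (-96) * v ^ 2 + (40) * v ^ 3 + (8) * v ^ 4 + (-15) * v ^ 5 + (6) *
      v ^ 6 + (-1) * v ^ 7

theorem pos0 (v : ℝ) (h1 : -1 ≤ 3 * v) (h2 : 3 * v ≤ 1) : 0 ≤ 2 * A0 v + v * A1 v := by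
  obtain ⟨a, ha⟩ : ∃ a, a = 1 + 3 * v := ⟨_, rfl⟩
  obtain ⟨b, hb⟩ : ∃ b, b = 1 - 3 * v := ⟨_, rfl⟩
  have a0 : 0 ≤ a := by linarith
  have b0 : 0 ≤ b := by linarith
  have : 2 * A0 v + v * A1 v = 867659/1679616 * a ^ 0 * b ^ 8 + 883391/104976 * a ^ 1 * b ^ 7 +
      14137115/419904 * a ^ 2 * b ^ 6 + 3422311/52488 * a ^ 3 * b ^ 5 + 61210045/839808 * a ^ 4 * b
      ^ 4 + 5217707/104976 * a ^ 5 * b ^ 3 + 8596295/419904 * a ^ 6 * b ^ 2 + 30719/6561 * a ^ 7 * b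
      ^ 1 + 764723/1679616 * a ^ 8 * b ^ 0 := by
    simp only [A0, A1, ha, hb]; ring
  rw [this]
  positivity

theorem pos1 (v : ℝ) (h1 : -1 ≤ 3 * v) (h2 : 3 * v ≤ 1) : 0 ≤ 2 * A0 v - v * A1 v := by
  obtain ⟨a, ha⟩ : ∃ a, a = 1 + 3 * v := ⟨_, rfl⟩
  obtain ⟨b, hb⟩ : ∃ b, b = 1 - 3 * v := ⟨_, rfl⟩
  have a0 : 0 ≤ a := by linarith
  have b0 : 0 ≤ b := by linarith
  have : 2 * A0 v - v * A1 v = 6516365/1679616 * a ^ 0 * b ^ 8 + 2332715/104976 * a ^ 1 * b ^ 7 +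
      22831493/419904 * a ^ 2 * b ^ 6 + 1943999/26244 * a ^ 3 * b ^ 5 + 51204475/839808 * a ^ 4 * b
      ^ 4 + 3204803/104976 * a ^ 5 * b ^ 3 + 3671369/419904 * a ^ 6 * b ^ 2 + 61783/52488 * a ^ 7 *
      b ^ 1 + 51653/1679616 * a ^ 8 * b ^ 0 := by
    simp only [A0, A1, ha, hb]; ring
  rw [this]
  positivity

theorem pos2 (v : ℝ) (h1 : -1 ≤ 3 * v) (h2 : 3 * v ≤ 1) : 0 ≤ 2 * A2 v + A3 v + v * A1 v := by
  obtain ⟨a, ha⟩ : ∃ a, a = 1 + 3 * v := ⟨_, rfl⟩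
  obtain ⟨b, hb⟩ : ∃ b, b = 1 - 3 * v := ⟨_, rfl⟩
  have a0 : 0 ≤ a := by linarith
  have b0 : 0 ≤ b := by linarith
  have : 2 * A2 v + A3 v + v * A1 v = 1413019/186624 * a ^ 0 * b ^ 8 + 2845915/69984 * a ^ 1 * b ^ 7
      + 6923375/69984 * a ^ 2 * b ^ 6 + 123047/864 * a ^ 3 * b ^ 5 + 37107289/279936 * a ^ 4 * b ^ 4
      + 5702189/69984 * a ^ 5 * b ^ 3 + 375359/11664 * a ^ 6 * b ^ 2 + 520465/69984 * a ^ 7 * b ^ 1
      + 429493/559872 * a ^ 8 * b ^ 0 := by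
    simp only [A1, A2, A3, ha, hb]; ring
  rw [this]
  positivity

theorem pos3 (v : ℝ) (h1 : -1 ≤ 3 * v) (h2 : 3 * v ≤ 1) : 0 ≤ 2 * A2 v + A3 v - v * A1 v := by
  obtain ⟨a, ha⟩ : ∃ a, a = 1 + 3 * v := ⟨_, rfl⟩
  obtain ⟨b, hb⟩ : ∃ b, b = 1 - 3 * v := ⟨_, rfl⟩
  have a0 : 0 ≤ a := by linarith
  have b0 : 0 ≤ b := by linarith
  have : 2 * A2 v + A3 v - v * A1 v = 2040653/186624 * a ^ 0 * b ^ 8 + 3812131/69984 * a ^ 1 * b ^ 7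
      + 4186219/34992 * a ^ 2 * b ^ 6 + 3529241/23328 * a ^ 3 * b ^ 5 + 33772099/279936 * a ^ 4 * b
      ^ 4 + 4360253/69984 * a ^ 5 * b ^ 3 + 159037/7776 * a ^ 6 * b ^ 2 + 275173/69984 * a ^ 7 * b ^
      1 + 191803/559872 * a ^ 8 * b ^ 0 := by
    simp only [A1, A2, A3, ha, hb]; ring
  rw [this]
  positivity

theorem pos4 (v : ℝ) (h1 : -1 ≤ 3 * v) (h2 : 3 * v ≤ 1) : 0 ≤ 2 * A2 v - A3 v + v * A1 v := by
  obtain ⟨a, ha⟩ : ∃ a, a = 1 + 3 * v := ⟨_, rfl⟩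
  obtain ⟨b, hb⟩ : ∃ b, b = 1 - 3 * v := ⟨_, rfl⟩
  have a0 : 0 ≤ a := by linarith
  have b0 : 0 ≤ b := by linarith
  have : 2 * A2 v - A3 v + v * A1 v = 4559725/559872 * a ^ 0 * b ^ 8 + 1553573/34992 * a ^ 1 * b ^ 7
      + 94565/864 * a ^ 2 * b ^ 6 + 5571355/34992 * a ^ 3 * b ^ 5 + 41771773/279936 * a ^ 4 * b ^ 4
      + 1073191/11664 * a ^ 5 * b ^ 3 + 79456/2187 * a ^ 6 * b ^ 2 + 292931/34992 * a ^ 7 * b ^ 1 +
      160379/186624 * a ^ 8 * b ^ 0 := by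
    simp only [A1, A2, A3, ha, hb]; ring
  rw [this]
  positivity

theorem pos5 (v : ℝ) (h1 : -1 ≤ 3 * v) (h2 : 3 * v ≤ 1) : 0 ≤ 2 * A2 v - A3 v - v * A1 v := by
  obtain ⟨a, ha⟩ : ∃ a, a = 1 + 3 * v := ⟨_, rfl⟩
  obtain ⟨b, hb⟩ : ∃ b, b = 1 - 3 * v := ⟨_, rfl⟩
  have a0 : 0 ≤ a := by linarith
  have b0 : 0 ≤ b := by linarith
  have : 2 * A2 v - A3 v - v * A1 v = 6442627/559872 * a ^ 0 * b ^ 8 + 2036681/34992 * a ^ 1 * b ^ 7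
      + 84341/648 * a ^ 2 * b ^ 6 + 5881813/34992 * a ^ 3 * b ^ 5 + 38436583/279936 * a ^ 4 * b ^ 4
      + 849535/11664 * a ^ 5 * b ^ 3 + 1721771/69984 * a ^ 6 * b ^ 2 + 170285/34992 * a ^ 7 * b ^ 1
      + 81149/186624 * a ^ 8 * b ^ 0 := by
    simp only [A1, A2, A3, ha, hb]; ring
  rw [this]
  positivity

theorem quad {v e a0 b a2 a3 : ℝ} (he : |e| ≤ 1 / 2) (h0 : 0 ≤ 2 * a0 + b) (h1 : 0 ≤ 2 * a0 - b)
    (h2 : 0 ≤ 2 * a2 + a3 + b) (h3 : 0 ≤ 2 * a2 + a3 - b) (h4 : 0 ≤ 2 * a2 - a3 + b)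
    (h5 : 0 ≤ 2 * a2 - a3 - b) : 0 ≤ v ^ 2 * a0 + e * v * b + e ^ 2 * (a2 + e * a3) := by
  obtain ⟨l, r⟩ := abs_le.1 he
  have p : 0 ≤ 1 + 2 * e := by linarith
  have q : 0 ≤ 1 - 2 * e := by linarith
  rcases le_total 0 b with c | c
  · have k : 0 ≤ 2 * (a2 + e * a3) - b := by nlinarith [mul_nonneg p h3, mul_nonneg q h5]
    nlinarith [mul_nonneg (sq_nonneg v) h1, mul_nonneg (sq_nonneg e) k,
      mul_nonneg c (sq_nonneg (v + e))]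
  · have k : 0 ≤ 2 * (a2 + e * a3) + b := by nlinarith [mul_nonneg p h2, mul_nonneg q h4]
    nlinarith [mul_nonneg (sq_nonneg v) h0, mul_nonneg (sq_nonneg e) k,
      mul_nonneg (neg_nonneg.2 c) (sq_nonneg (v - e))]

/-- the derivative of `Cc` -/
noncomputable def Cd (e v : ℝ) : ℝ :=
  (8 * v ^ 3 + 20 * v ^ 4 + 14 * v ^ 5 - e * (12 * v ^ 2 + 12 * v ^ 3 - 9 * v ^ 4) +
    e ^ 2 * (6 * v - 3 * v ^ 2 - 30 * v ^ 3) - e ^ 3 * (1 - 2 * v - v ^ 2)) / 16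

theorem sign (e v : ℝ) (he : |e| ≤ 1 / 2) (h1 : -1 ≤ 3 * v) (h2 : 3 * v ≤ 1) :
    ∃ r, 0 ≤ r ∧
      (1 - (1 + e) * (1 - v) ^ 2) ^ 3 / (1 + (1 - v) ^ 2) ^ 4 - Cd e v = v ^ 3 * r := by
  have h := quad (v := v) he (pos0 v h1 h2) (pos1 v h1 h2) (pos2 v h1 h2) (pos3 v h1 h2)
    (pos4 v h1 h2) (pos5 v h1 h2)
  refine ⟨(v ^ 2 * A0 v + e * v * (v * A1 v) + e ^ 2 * (A2 v + e * A3 v)) /
    (16 * (1 + (1 - v) ^ 2) ^ 4), by positivity, ?_⟩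
  have h0 : (1 + (1 - v) ^ 2) ≠ 0 := by positivity
  simp only [A0, A1, A2, A3, Cd]
  field_simp
  ring

theorem int_Cd (e u : ℝ) : ∫ v in (0 : ℝ)..u, Cd e v = Cc e u := by
  have : ∀ v, HasDerivAt (Cc e) (Cd e v) v := fun v => by
    have p := fun n : ℕ => hasDerivAt_pow n v
    have := (((((((p 4).const_mul 2).add ((p 5).const_mul 4)).add ((p 6).const_mul (7 / 3))).sub
      (((((p 3).const_mul 4).add ((p 4).const_mul 3)).sub ((p 5).const_mul (9 / 5))).const_mul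
        e)).add (((((p 2).const_mul 3).sub (p 3)).sub ((p 4).const_mul (15 / 2))).const_mul
        (e ^ 2))).sub ((((hasDerivAt_id v).sub (p 2)).sub ((p 3).div_const 3)).const_mul
        (e ^ 3))).div_const 16
    refine this.congr_deriv ?_
    simp only [Cd]
    norm_num
    ring
  rw [intervalIntegral.integral_eq_sub_of_hasDerivAt (fun v _ => this v)
    ((by unfold Cd; fun_prop : Continuous (Cd e)).intervalIntegrable _ _)]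
  simp [Cc]

theorem cut (e u : ℝ) (he : |e| ≤ 1 / 2) (hu : |u| ≤ 1 / 3) :
    Cc e u ≤ ∫ ξ in (1 - u)..1, (1 - (1 + e) * ξ ^ 2) ^ 3 / (1 + ξ ^ 2) ^ 4 := by
  obtain ⟨l, r⟩ := abs_le.1 hu
  have e1 := intervalIntegral.integral_comp_sub_left (a := 0) (b := u)
    (fun ξ : ℝ => (1 - (1 + e) * ξ ^ 2) ^ 3 / (1 + ξ ^ 2) ^ 4) 1
  rw [sub_zero] at e1
  rw [← e1, ← int_Cd]
  have c1 : Continuous (Cd e) := by unfold Cd; fun_prop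
  have c2 : Continuous fun v : ℝ => (1 - (1 + e) * (1 - v) ^ 2) ^ 3 / (1 + (1 - v) ^ 2) ^ 4 :=
    Continuous.div (by fun_prop) (by fun_prop) fun v => by positivity
  rcases le_total 0 u with c | c
  · refine intervalIntegral.integral_mono_on c (c1.intervalIntegrable _ _)
      (c2.intervalIntegrable _ _) fun v hv => ?_
    obtain ⟨t, t0, ht⟩ := sign e v he (by linarith [hv.1]) (by linarith [hv.2])
    have := mul_nonneg (pow_nonneg hv.1 3) t0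
    linarith
  · rw [intervalIntegral.integral_symm u 0, intervalIntegral.integral_symm u 0, neg_le_neg_iff]
    refine intervalIntegral.integral_mono_on c (c2.intervalIntegrable _ _)
      (c1.intervalIntegrable _ _) fun v hv => ?_
    obtain ⟨t, t0, ht⟩ := sign e v he (by linarith [hv.1]) (by linarith [hv.2])
    have := mul_nonneg (pow_nonneg (neg_nonneg.2 hv.2) 3) t0
    nlinarith

end NearD

open NearD in
/-- the balanced volume near the Clifford point -/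
theorem Bv_le (e k k' : ℝ) (he : |e| ≤ 1 / 2) (hu : |1 - k⁻¹| ≤ 1 / 3) (hu' : |1 - k'⁻¹| ≤ 1 / 3) :
    Bv (1 + e) k k' ≤ 2 / 3 - 6 * (π / 16 - 1 / 6) * e + 6 * (5 / 24 - π / 16) * e ^ 2 -
      2 * (5 * π / 64 - 11 / 48) * e ^ 3 - Cc e (1 - k⁻¹) - Cc e (1 - k'⁻¹) := by
  have h1 := cut e _ he hu
  have h2 := cut e _ he hu'
  rw [sub_sub_cancel] at h1 h2
  have ii := NearA.ii (fun ξ => (1 - (1 + e) * ξ ^ 2) ^ 3) (by fun_prop)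
  have h3 : ∫ ξ in k'⁻¹..1, (1 - (1 + e) * ξ ^ 2) ^ 3 / (1 + ξ ^ 2) ^ 4 =
      ∫ ξ in (-1 : ℝ)..(-k'⁻¹), (1 - (1 + e) * ξ ^ 2) ^ 3 / (1 + ξ ^ 2) ^ 4 := by
    rw [← intervalIntegral.integral_comp_neg]
    exact intervalIntegral.integral_congr fun ξ _ => by simp only [neg_sq]
  have h4 := Bv_eq (1 + e) 1 1 one_pos one_pos
  have h5 := intervalIntegral.integral_add_adjacent_intervals (ii (-1) (-k'⁻¹)) (ii (-k'⁻¹) k⁻¹)
  have h6 := intervalIntegral.integral_add_adjacent_intervals (ii (-1) k⁻¹) (ii k⁻¹ 1)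
  simp only [Bv, bh, inv_one, arctan_one] at h4 ⊢
  rw [h3] at h2
  norm_num at h4
  linarith

end Pool.Agent.P.MP_2b44f0_gt.PD
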