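import Pool.Agent.P.MP_2b44f0_gt.PD.Sym
import Pool.Agent.P.MP_2b44f0_gt.PD.Lmi

/-!
Polynomial certificates in the variables `(X, τ, Y)`.
-/

namespace Pool.Agent.P.MP_2b44f0_gt.PD

/-- a polynomial in three variables: exponents and coefficient of each monomial -/
abbrev Pol : Type := List (ℕ × ℕ × ℕ × ℤ)

namespace Pol

/-- the value -/
noncomputable def ev : Pol → W → ℝ
  | [], _ => 0
  | m :: p, w => m.2.2.2 * (w.1 ^ m.1 * w.2.1 ^ m.2.1 * w.2.2 ^ m.2.2.1) + ev p w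

/-- the first partial derivative -/
def dX (p : Pol) : Pol := p.map fun m => (m.1 - 1, m.2.1, m.2.2.1, m.1 * m.2.2.2)

/-- the second partial derivative -/
def dT (p : Pol) : Pol := p.map fun m => (m.1, m.2.1 - 1, m.2.2.1, m.2.1 * m.2.2.2)

/-- the third partial derivative -/
def dY (p : Pol) : Pol := p.map fun m => (m.1, m.2.1, m.2.2.1 - 1, m.2.2.1 * m.2.2.2)

/-- the reflection in the second variable -/
def rf (p : Pol) : Pol := p.map fun m => (m.1, m.2.1, m.2.2.1, (-1) ^ m.2.1 * m.2.2.2)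

theorem c_ev : ∀ p : Pol, ContDiff ℝ 1 (ev p)
  | [] => contDiff_const
  | m :: p => by
    have := c_ev p
    show ContDiff ℝ 1 fun w : W => m.2.2.2 * (w.1 ^ m.1 * w.2.1 ^ m.2.1 * w.2.2 ^ m.2.2.1) + ev p w
    fun_prop

theorem gr_ev (w : W) : ∀ p : Pol, gr (ev p) w = (ev (dX p) w, ev (dT p) w, ev (dY p) w)
  | [] => by
    have : ev [] = fun _ => 0 := rfl
    simp [gr, this, dX, dT, dY, ev]
  | m :: p => by
    have h1 : HasFDerivAt (fun u : W => u.1) _ w := hasFDerivAt_fst (𝕜 := ℝ)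
    have h2 : HasFDerivAt (fun u : W => u.2.1) _ w :=
      (hasFDerivAt_fst (𝕜 := ℝ)).comp w hasFDerivAt_snd
    have h3 : HasFDerivAt (fun u : W => u.2.2) _ w :=
      (hasFDerivAt_snd (𝕜 := ℝ)).comp w hasFDerivAt_snd
    have k : fderiv ℝ (ev (m :: p)) w = _ :=
      (((((h1.pow m.1).mul (h2.pow m.2.1)).mul (h3.pow m.2.2.1)).const_mul (m.2.2.2 : ℝ)).add
        ((c_ev p).differentiable one_ne_zero w).hasFDerivAt).fderiv
    have ih := gr_ev w p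
    simp only [gr, Prod.mk.injEq] at ih ⊢
    rw [k]
    simp only [dX, dT, dY, List.map_cons, ev] at ih ⊢
    simp only [add_apply, ih]
    refine ⟨?_, ?_, ?_⟩ <;> simp <;> ring_nf

theorem ev_flp (w : W) : ∀ p : Pol, ev p (flp w) = ev (rf p) w
  | [] => rfl
  | m :: p => by
    have ih := ev_flp w p
    simp only [rf, List.map_cons, ev] at ih ⊢
    rw [ih]
    simp only [flp]
    rw [neg_pow w.2.1]
    push_cast
    ring

/-- three times the derivative `d1` -/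
noncomputable def e1 (p : Pol) (w : W) : ℝ := -2 * ev (dY p) w

/-- twice the derivative `d2` -/
noncomputable def e2 (p : Pol) (w : W) : ℝ :=
  -((1 - w.1 ^ 2) * ev (dX p) w) - 2 * (1 + w.2.1) * (ev (dT p) w - 2 * w.2.1 * ev (dY p) w) +
    4 * (1 - w.2.1 ^ 2 - w.2.2) * ev (dY p) w

/-- twice the derivative `d3` -/
noncomputable def e3 (p : Pol) (w : W) : ℝ :=
  -((1 - w.1 ^ 2) * ev (dX p) w) + 2 * (1 - w.2.1) * (ev (dT p) w - 2 * w.2.1 * ev (dY p) w) +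
    4 * (1 - w.2.1 ^ 2 - w.2.2) * ev (dY p) w

/-- the matrix `2 D N D`, `D = diag (3, 2, 2)` -/
noncomputable def nw (F G H f : Pol) (w : W) : Lmi.Sym where
  a := 6 * e1 F w - 2 * e1 f w ^ 2
  b := 4 * e2 G w - 8 * ev G w - 2 * e2 f w ^ 2
  c := 4 * e3 H w - 8 * ev H w - 2 * e3 f w ^ 2
  d := 3 * e2 F w + 2 * e1 G w - 12 * ev F w - 2 * e1 f w * e2 f w
  e := 3 * e3 F w + 2 * e1 H w - 12 * ev F w - 2 * e1 f w * e3 f w
  f := 2 * e3 G w + 2 * e2 H w - 4 * ev G w - 4 * ev H w - 2 * e2 f w * e3 f w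

/-- the slack: a combination of two box conditions and of the linearised Kato condition -/
noncomputable def sl (m n m' c : ℝ) (j : ℤ) (w : W) (x : ℝ) : ℝ :=
  (m + n) * (3 / 2 * w.2.2 - x * (1 - x) + (3 * (1 - w.2.1) - x - j) ^ 2) -
  (m - n) * (3 * (1 - w.2.1) - x - j) +
  m' * (5 / 4 * (1 - w.2.1 ^ 2 - w.2.2) - 2 * c * (x - (1 - w.2.1) / 2) + c ^ 2)

theorem sl_chg (m n m' c : ℝ) (j : ℤ) (u : W) (x : ℝ) :
    sl m n m' c j (chg u) x = Lmi.sk m n m' c j u x := by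
  simp only [sl, chg, Lmi.sk, Lmi.gap, Lmi.gk]
  push_cast
  ring

/-- the matrix with rounded coefficients on the diagonal -/
noncomputable def mw (F G H f : Pol) (w : W) (c₁ c₂ c₃ c₄ c₅ : ℝ) : Lmi.Sym where
  a := (nw F G H f w).a + c₁ * ev F w + c₂ * (ev F w * (1 - w.2.1)) -
    c₃ * (ev F w * (4 * (1 - w.2.1 ^ 2 - w.2.2) + (1 - w.2.1) ^ 2))
  b := (nw F G H f w).b + c₄ * ev G w
  c := (nw F G H f w).c + c₅ * ev H w
  d := (nw F G H f w).d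
  e := (nw F G H f w).e
  f := (nw F G H f w).f

/-- the test at a node `x` -/
def Node (F G H f : Pol) (w : W) (m n m' c : ℝ) (j : ℤ) (R : W → ℝ) (x α κ b g : ℝ) : Prop :=
  ∃ c₁ c₂ c₃ : ℝ, c₁ ≤ 72 * (α - 257 / 256 * α ^ 2 * x ^ 2) - 18 * κ ∧
    c₂ ≤ 72 * (257 / 256) * α ^ 2 * x ∧ 18 * (257 / 256) * α ^ 2 ≤ c₃ ∧
    ∀ v, sl m n m' c j w x * R v ≤ (mw F G H f w c₁ c₂ c₃ b g).q v

/-- the inequality to be checked at a point of the domain -/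
def Good (F G H f : Pol) (u : W) (l : ℝ) : Prop :=
  ∀ v : W, (u.2.2 = 0 → v.1 = 0) →
    dot (gr (fun u => ev f (chg u)) u) (dir u v) ^ 2 ≤
      qf (ev F (chg u)) (ev G (chg u)) (ev H (chg u))
        (dot (gr (fun u => ev F (chg u)) u) (dir u v))
        (dot (gr (fun u => ev G (chg u)) u) (dir u v))
        (dot (gr (fun u => ev H (chg u)) u) (dir u v)) u l v

theorem good {F G H f : Pol} {u : W} {l x₀ x₁ α₀ α₁ κ₀ κ₁ b₀ b₁ g₀ g₁ β γ m n m' c : ℝ} {j : ℤ}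
    {R : W → ℝ} (hD : Dom u l) (h0 : 0 ≤ ev F (chg u)) (h1 : 0 ≤ ev G (chg u))
    (h2 : 0 ≤ ev H (chg u)) (k0 : 0 ≤ m) (k2 : 0 ≤ n) (k1 : 0 ≤ m') (hR : ∀ v, 0 ≤ R v)
    (hl : x₀ ≤ l) (hh : l ≤ x₁)
    (q0 : 257 / 4 * ((α₁ - α₀) * (x₁ - x₀)) ^ 2 ≤ κ₀)
    (q1 : 257 / 4 * ((α₁ - α₀) * (x₁ - x₀)) ^ 2 ≤ κ₁)
    (r0 : b₀ ≤ 16 * (2 * β - β ^ 2 * x₀)) (r1 : b₁ ≤ 16 * (2 * β - β ^ 2 * x₁))
    (r2 : g₀ ≤ 16 * (2 * γ - γ ^ 2 * (1 - x₀))) (r3 : g₁ ≤ 16 * (2 * γ - γ ^ 2 * (1 - x₁)))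
    (f1 : Node F G H f (chg u) m n m' c j R x₀ α₀ κ₀ b₀ g₀)
    (f2 : Node F G H f (chg u) m n m' c j R x₁ α₁ κ₁ b₁ g₁) : Good F G H f u l := by
  intro v hv
  have key : ∀ x α κ κ' b g, κ' ≤ κ → Node F G H f (chg u) m n m' c j R x α κ b g →
      Lmi.sk (m / 2) (n / 2) (m' / 2) c j u x * R (v.1 / 3, v.2.1 / 2, v.2.2 / 2) ≤
      (Lmi.mm (Lmi.nm (ev F (chg u)) (ev G (chg u)) (ev H (chg u))
        (gr (fun u => ev F (chg u)) u) (gr (fun u => ev G (chg u)) u)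
        (gr (fun u => ev H (chg u)) u) (gr (fun u => ev f (chg u)) u) u)
        (ev F (chg u)) (ev G (chg u)) (ev H (chg u)) u x α κ' (b / 8) (g / 8)).q v := by
    rintro x α κ κ' b g hκ ⟨c₁, c₂, c₃, a1, a2, a3, a7⟩
    have b := a7 (v.1 / 3, v.2.1 / 2, v.2.2 / 2)
    rw [sl_chg] at b
    have t1 := sub_pos.2 hD.t1
    have y0 := hD.y0
    have s1 := mul_nonneg h0 (sq_nonneg v.1)
    have b0 := mul_le_mul_of_nonneg_right hκ s1
    have b1 := mul_le_mul_of_nonneg_right a1 s1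
    have b2 := mul_le_mul_of_nonneg_right a2 (mul_nonneg s1 t1.le)
    have b3 := mul_le_mul_of_nonneg_right a3
      (mul_nonneg s1 (show 0 ≤ 4 * u.2.2 + (1 - u.2.1) ^ 2 by positivity))
    simp only [gr_chg (c_ev _), gr_ev]
    simp only [Lmi.Sym.q, mw, nw, e1, e2, e3, Lmi.sk] at b
    simp only [Lmi.Sym.q, Lmi.mm, Lmi.nm, Lmi.d1, Lmi.d2, Lmi.d3, Lmi.den, Lmi.sk]
    generalize R _ = R at *
    have x1 : (chg u).1 = 2 * u.1 - 1 := rfl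
    have x2 : (chg u).2.1 = u.2.1 := rfl
    have x3 : (chg u).2.2 = 1 - u.2.1 ^ 2 - u.2.2 := rfl
    rw [x1, x2, x3] at b
    generalize chg u = w at *
    linear_combination b / 2 + b0 + b1 / 18 + b2 / 18 + b3 / 18
  exact Lmi.leaf (β := β) (γ := γ) hD h0 h1 h2 (by positivity) (by positivity) (by positivity) hl
    hh hv (hR _) le_rfl (by linarith) (by linarith) (by linarith) (by linarith)
    (key _ _ _ _ _ _ q0 f1) (key _ _ _ _ _ _ q1 f2)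

theorem out {u : W} {l lo hi m n m' c : ℝ} {j : ℤ} (hD : Dom u l) (k0 : 0 ≤ m) (k2 : 0 ≤ n)
    (k1 : 0 ≤ m') (hl : lo ≤ l) (hh : l ≤ hi) (f1 : sl m n m' c j (chg u) lo < 0)
    (f2 : sl m n m' c j (chg u) hi < 0) : False :=
  Lmi.out hD k0 k2 k1 hl hh (sl_chg m n m' c j u lo ▸ f1) (sl_chg m n m' c j u hi ▸ f2)

end Pol

open Pol in
/-- the certificate given by three polynomials -/
theorem CertU.of_pol {V₀ ψ : ℝ} (hψ : 0 < ψ) {F G f : Pol} (eF : rf F = F) (ef : rf f = f)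
    (lmi : ∀ u l, Dom u l → 0 ≤ u.2.1 → 0 ≤ ev F (chg u) ∧ 0 < ev G (chg u) ∧
      0 < ev (rf G) (chg u) ∧ Good F G (rf G) f u l)
    (hvol : ∀ μ w, Adm (2 * 3) μ w → w.2.1 ≤ w.2.2 → PD.vol 3 μ w.2.1 w.2.2 ≤ V₀ + ψ *
      ((6 - w.1) * (3 * (crd w).2.2 * ev F (chg (crd w)) +
        (1 - (crd w).2.1) / 2 * ev G (chg (crd w)) +
        (1 + (crd w).2.1) / 2 * ev (rf G) (chg (crd w))) +
        (w.1 - 25 / 4) * ev f (chg (crd w)) ^ 2)) :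
    ∃ A₀ A₁ A₂ g, CertU V₀ A₀ A₁ A₂ g := by
  have e : ∀ (p : Pol) (u : W), ev p (chg (flp u)) = ev (rf p) (chg u) := fun p u => by
    rw [chg_flp, ev_flp]
  refine ⟨_, _, _, _, CertU.of_sym (V₀ := V₀) hψ ((c_ev F).comp c_chg) ((c_ev G).comp c_chg)
    ((c_ev f).comp c_chg) (fun u => ?_) (fun u => ?_) (fun u l h t => ?_) (fun u l h t => ?_)
    fun μ w h t => ?_⟩ <;> simp only [Function.comp_def, e, eF, ef]
  · exact ⟨(lmi u l h t).1, (lmi u l h t).2.1, (lmi u l h t).2.2.1⟩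
  · exact (lmi u l h t).2.2.2
  · exact hvol μ w h t

end Pool.Agent.P.MP_2b44f0_gt.PD
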