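import Pool.Agent.P.MP_2b44f0_gt.PD.TATAN

/-! Integer approximations of the moments at the points `n / 2 ^ 16`. -/

namespace Pool.Agent.P.MP_2b44f0_gt.PD

/-- two consecutive terms of the arctangent series at `p / q`, times `2 ^ 56` -/
def pt (p q i j : Nat) : Nat :=
  Nat.div (Nat.mul (Nat.mul 72057594037927936 (Nat.pow p i))
    (Nat.sub (Nat.mul j (Nat.mul q q)) (Nat.mul i (Nat.mul p p)))) (Nat.mul (Nat.mul i j) (Nat.pow q j))

/-- sixteen terms of the arctangent series at `p / q`, times `2 ^ 56` -/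
def atq (p q : Nat) : Nat :=
  Nat.add (Nat.add (Nat.add (pt p q 1 3) (pt p q 5 7)) (Nat.add (pt p q 9 11) (pt p q 13 15)))
    (Nat.add (Nat.add (pt p q 17 19) (pt p q 21 23)) (Nat.add (pt p q 25 27) (pt p q 29 31)))

/-- the angle `act (n / 2 ^ 16)`, times `2 ^ 56` -/
def At (n : Nat) : Nat :=
  cond (Nat.ble n 26869) (Nat.sub 113187804032455044 (atq n 65536))
    (cond (Nat.ble n 65536) (Nat.add 56593902016227522 (atq (Nat.sub 65536 n) (Nat.add n 65536)))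
      (cond (Nat.ble n 158000) (Nat.sub 56593902016227522 (atq (Nat.sub n 65536) (Nat.add n 65536)))
        (atq 65536 n)))

/-- `(a A / 2 ^ 56 + (P - N) / d) / 48`, times `2 ^ 48` -/
def mq (a A P N d : Nat) : Int :=
  Int.subNatNat (Nat.div (Nat.add (Nat.mul (Nat.mul a A) d) (Nat.mul 72057594037927936 P)) (Nat.mul 12288 d))
    (Nat.div (Nat.mul 72057594037927936 N) (Nat.mul 12288 d))

/-- `(2 ^ 32 + n ^ 2) ^ 3` -/
def dn (n : Nat) : Nat := Nat.pow (Nat.add 4294967296 (Nat.mul n n)) 3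

/-- `n ^ 5 U` -/
def w5 (n : Nat) : Nat := Nat.mul (Nat.pow n 5) 65536
/-- `n ^ 4 U ^ 2` -/
def w4 (n : Nat) : Nat := Nat.mul (Nat.pow n 4) 4294967296
/-- `n ^ 3 U ^ 3` -/
def w3 (n : Nat) : Nat := Nat.mul (Nat.pow n 3) 281474976710656
/-- `n ^ 2 U ^ 4` -/
def w2 (n : Nat) : Nat := Nat.mul (Nat.mul n n) 18446744073709551616
/-- `n U ^ 5` -/
def w1 (n : Nat) : Nat := Nat.mul n 1208925819614629174706176

/-- the moment `mJ j (n / 2 ^ 16)`, times `2 ^ 48`, from the angle `A = At n` -/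
def Mj (j n A : Nat) : Int :=
  Nat.casesOn j (mq 15 A
    (Nat.add (Nat.add (Nat.mul 33 (w5 n)) (Nat.mul 40 (w3 n))) (Nat.mul 15 (w1 n))) 0 (dn n)) fun j =>
  Nat.casesOn j (mq 0 A (Nat.add (Nat.add (Nat.mul 24 (w4 n)) (Nat.mul 24 (w2 n)))
    633825300114114700748351602688) 0 (dn n)) fun j =>
  Nat.casesOn j (mq 3 A (Nat.add (Nat.mul 8 (w3 n)) (Nat.mul 3 (w1 n))) (Nat.mul 3 (w5 n)) (dn n)) fun j =>
  Nat.casesOn j (mq 0 A (Nat.add (Nat.mul 12 (w2 n)) 316912650057057350374175801344) 0 (dn n)) fun j =>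
  Nat.casesOn j (mq 3 A (Nat.mul 3 (w1 n)) (Nat.add (Nat.mul 3 (w5 n)) (Nat.mul 8 (w3 n))) (dn n)) fun j =>
  Nat.casesOn j (mq 0 A 633825300114114700748351602688 0 (dn n)) fun j =>
  Nat.casesOn j (mq 15 A 0
    (Nat.add (Nat.add (Nat.mul 15 (w5 n)) (Nat.mul 40 (w3 n))) (Nat.mul 33 (w1 n))) (dn n)) fun _ => 0

namespace Scal

lemma fl (X D : ℕ) (hD : 0 < D) : (X : ℝ) / D - 1 ≤ (Nat.div X D : ℕ) ∧
    ((Nat.div X D : ℕ) : ℝ) ≤ (X : ℝ) / D := by
  have h : Nat.div X D = X / D := rfl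
  rw [h]
  refine ⟨?_, Nat.cast_div_le⟩
  have h1 : (X : ℝ) < D * ((X / D : ℕ) + 1) := by exact_mod_cast Nat.lt_mul_div_succ X hD
  have h2 : (0 : ℝ) < D := by exact_mod_cast hD
  rw [sub_le_iff_le_add, div_le_iff₀ h2]
  linarith

lemma pt_bd (p q i : ℕ) (hq : 0 < q) (hp : p ≤ q) (hi : 0 < i) :
    2 ^ 56 * (((p : ℝ) / q) ^ i / i - ((p : ℝ) / q) ^ (i + 2) / (i + 2)) - 1 ≤ pt p q i (i + 2) ∧
    (pt p q i (i + 2) : ℝ) ≤ 2 ^ 56 * (((p : ℝ) / q) ^ i / i - ((p : ℝ) / q) ^ (i + 2) / (i + 2)) := by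
  have h1 : i * (p * p) ≤ (i + 2) * (q * q) := Nat.mul_le_mul (by omega) (Nat.mul_le_mul hp hp)
  have h := fl (72057594037927936 * p ^ i * ((i + 2) * (q * q) - i * (p * p)))
    (i * (i + 2) * q ^ (i + 2)) (by positivity)
  have hq' : (q : ℝ) ≠ 0 := by positivity
  have hi' : (i : ℝ) ≠ 0 := by positivity
  have e : ((72057594037927936 * p ^ i * ((i + 2) * (q * q) - i * (p * p)) : ℕ) : ℝ) /
      (i * (i + 2) * q ^ (i + 2) : ℕ) =
      2 ^ 56 * (((p : ℝ) / q) ^ i / i - ((p : ℝ) / q) ^ (i + 2) / (i + 2)) := by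
    rw [Nat.cast_mul, Nat.cast_sub h1]
    push_cast
    simp only [div_pow]
    field_simp
    ring
  rw [e] at h
  exact h

lemma atq_bd (p q : ℕ) (hq : 0 < q) (hp : 100 * p ≤ 42 * q) :
    |Real.arctan ((p : ℝ) / q) * 2 ^ 56 - atq p q| ≤ 900 := by
  have hpq : p ≤ q := by omega
  have hq' : (0 : ℝ) < q := by exact_mod_cast hq
  have hr0 : 0 ≤ (p : ℝ) / q := by positivity
  have hr1 : (p : ℝ) / q ≤ 42 / 100 := by
    rw [div_le_div_iff₀ hq' (by norm_num)]
    have : (100 : ℝ) * p ≤ 42 * q := by exact_mod_cast hp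
    linarith
  have h := abs_le.1 (c_ATAN _ 16 hr0)
  have hb : ((p : ℝ) / q) ^ (2 * 16 + 1) ≤ (42 / 100) ^ (2 * 16 + 1) := by gcongr
  have a1 := pt_bd p q 1 hq hpq (by norm_num)
  have a2 := pt_bd p q 5 hq hpq (by norm_num)
  have a3 := pt_bd p q 9 hq hpq (by norm_num)
  have a4 := pt_bd p q 13 hq hpq (by norm_num)
  have a5 := pt_bd p q 17 hq hpq (by norm_num)
  have a6 := pt_bd p q 21 hq hpq (by norm_num)
  have a7 := pt_bd p q 25 hq hpq (by norm_num)
  have a8 := pt_bd p q 29 hq hpq (by norm_num)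
  have e : (atq p q : ℝ) = pt p q 1 3 + pt p q 5 7 + (pt p q 9 11 + pt p q 13 15) +
      (pt p q 17 19 + pt p q 21 23 + (pt p q 25 27 + pt p q 29 31)) := by
    simp only [atq, Nat.add_eq, Nat.cast_add]
  generalize (p : ℝ) / q = r at *
  simp only [Finset.sum_range_succ, Finset.sum_range_zero] at h
  norm_num at h hb a1 a2 a3 a4 a5 a6 a7 a8
  rw [e, abs_le]
  constructor <;> linarith [h.1, h.2, a1.1, a1.2, a2.1, a2.2, a3.1, a3.2, a4.1, a4.2, a5.1, a5.2,
    a6.1, a6.2, a7.1, a7.2, a8.1, a8.2]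

lemma mid (k : ℝ) (hk : 0 ≤ k) : act k = Real.pi / 4 - Real.arctan ((k - 1) / (k + 1)) := by
  have h1 : (k + 1) ≠ 0 := by positivity
  have h : (1 : ℝ) * ((k - 1) / (k + 1)) < 1 := by
    rw [one_mul, div_lt_one (by positivity)]; linarith
  have h2 := Real.arctan_add h
  have e : (1 + (k - 1) / (k + 1)) / (1 - 1 * ((k - 1) / (k + 1))) = k := by
    have : 1 - 1 * ((k - 1) / (k + 1)) = 2 / (k + 1) := by field_simp; ring
    rw [this]
    field_simp
    ring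
  rw [e, Real.arctan_one] at h2
  unfold act
  linarith

lemma sub_bd (c t : ℕ) (x y : ℝ) (hx : |x - c| ≤ 1) (hy : |y - t| ≤ 900) (h : 901 ≤ x - y) :
    |x - y - (Nat.sub c t : ℕ)| ≤ 901 := by
  obtain ⟨a, b⟩ := abs_le.1 hx
  obtain ⟨a', b'⟩ := abs_le.1 hy
  have : t ≤ c := by
    have : (t : ℝ) ≤ c := by linarith
    exact_mod_cast this
  rw [Nat.sub_eq, Nat.cast_sub this, abs_le]
  constructor <;> linarith

lemma atan_le {r : ℝ} (h : r ≤ 1 / 2) : Real.arctan r ≤ 1 / 2 := by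
  have h1 := Real.arctan_strictMono.monotone h
  have h2 := (abs_le.1 (c_ATAN (1 / 2) 0 (by norm_num))).2
  norm_num at h2
  linarith

end Scal

open Scal in
theorem At_bd (n : ℕ) : |act (n / 65536) * 2 ^ 56 - At n| ≤ 901 := by
  have p1 := Real.pi_gt_d20
  have p2 := Real.pi_lt_d20
  have hp2 : |Real.pi / 2 * 2 ^ 56 - (113187804032455044 : ℕ)| ≤ 1 := by
    rw [abs_le]; push_cast; constructor <;> linarith
  have hp4 : |Real.pi / 4 * 2 ^ 56 - (56593902016227522 : ℕ)| ≤ 1 := by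
    rw [abs_le]; push_cast; constructor <;> linarith
  have hn : (0 : ℝ) ≤ n := by positivity
  unfold At
  cases h1 : Nat.ble n 26869
  swap
  · have h1' := Nat.le_of_ble_eq_true h1
    have h := atq_bd n 65536 (by norm_num) (by omega)
    have hr : (n : ℝ) / (65536 : ℕ) ≤ 1 / 2 := by
      have : (n : ℝ) ≤ 26869 := by exact_mod_cast h1'
      push_cast; linarith
    have := sub_bd _ _ _ _ hp2 h (by linarith [atan_le hr])
    rw [cond_true, act, sub_mul]
    exact_mod_cast this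
  have h1' : ¬ n ≤ 26869 := Nat.not_le_of_not_ble_eq_true (by simp [h1])
  have hm := mid ((n : ℝ) / 65536) (by positivity)
  have he : ((n : ℝ) / 65536 - 1) / (n / 65536 + 1) = (n - 65536) / (n + 65536) := by
    field_simp
  rw [he] at hm
  rw [cond_false]
  cases h2 : Nat.ble n 65536
  swap
  · have h2' := Nat.le_of_ble_eq_true h2
    have h := atq_bd (65536 - n) (n + 65536) (by omega) (by omega)
    rw [Nat.cast_sub h2'] at h
    have e : ((n : ℝ) - 65536) / (n + 65536) = -((((65536 : ℕ) : ℝ) - n) / (n + 65536 : ℕ)) := by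
      push_cast; ring
    rw [cond_true, hm, e, Real.arctan_neg, Nat.add_eq, Nat.add_eq, Nat.sub_eq,
      Nat.cast_add 56593902016227522]
    obtain ⟨a, b⟩ := abs_le.1 h
    obtain ⟨a', b'⟩ := abs_le.1 hp4
    rw [abs_le]
    constructor <;> linarith
  have h2' : ¬ n ≤ 65536 := Nat.not_le_of_not_ble_eq_true (by simp [h2])
  rw [cond_false]
  cases h3 : Nat.ble n 158000
  swap
  · have h3' := Nat.le_of_ble_eq_true h3
    have h := atq_bd (n - 65536) (n + 65536) (by omega) (by omega)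
    rw [Nat.cast_sub (by omega)] at h
    have hr : ((n : ℝ) - (65536 : ℕ)) / (n + 65536 : ℕ) ≤ 1 / 2 := by
      have : (n : ℝ) ≤ 158000 := by exact_mod_cast h3'
      rw [div_le_iff₀ (by positivity)]
      push_cast; linarith
    have := sub_bd _ _ _ _ hp4 h (by linarith [atan_le hr])
    rw [cond_true, hm, sub_mul]
    exact_mod_cast this
  have h3' : ¬ n ≤ 158000 := Nat.not_le_of_not_ble_eq_true (by simp [h3])
  have h := atq_bd 65536 n (by omega) (by omega)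
  have hn0 : (0 : ℝ) < n / 65536 := by
    have : (0 : ℝ) < n := by exact_mod_cast (by omega : 0 < n)
    positivity
  have ha : act ((n : ℝ) / 65536) = Real.arctan ((n : ℝ) / 65536)⁻¹ := by
    rw [Real.arctan_inv_of_pos hn0]; rfl
  rw [cond_false, ha, inv_div]
  exact le_trans (by exact_mod_cast h) (by norm_num : (900 : ℝ) ≤ 901)

theorem mq_bd (a A P N d : ℕ) (x m : ℝ) (hd : 0 < d) (hA : |x * 2 ^ 56 - A| ≤ 901) (ha : a ≤ 15)
    (hr : m = (a * x + (P - N) / d) / 48) : |m * 2 ^ 48 - mq a A P N d| ≤ 3 := by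
  have h1 := Scal.fl (a * A * d + 72057594037927936 * P) (12288 * d) (by positivity)
  have h2 := Scal.fl (72057594037927936 * N) (12288 * d) (by positivity)
  have hd' : (0 : ℝ) < d := by exact_mod_cast hd
  have e1 : ((a * A * d + 72057594037927936 * P : ℕ) : ℝ) / (12288 * d : ℕ) =
      a * A / 12288 + 2 ^ 48 / 48 * (P / d) := by
    push_cast; field_simp; ring
  have e2 : ((72057594037927936 * N : ℕ) : ℝ) / (12288 * d : ℕ) = 2 ^ 48 / 48 * (N / d) := by
    push_cast; field_simp; ring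
  rw [e1] at h1
  rw [e2] at h2
  have e3 : (mq a A P N d : ℝ) = (Nat.div (a * A * d + 72057594037927936 * P) (12288 * d) : ℕ) -
      (Nat.div (72057594037927936 * N) (12288 * d) : ℕ) := by
    unfold mq
    rw [Int.subNatNat_eq_coe, Int.cast_sub]
    rfl
  have ha' : (a : ℝ) ≤ 15 := by exact_mod_cast ha
  have ha0 : (0 : ℝ) ≤ a := by positivity
  obtain ⟨u, v⟩ := abs_le.1 hA
  have u' := mul_le_mul_of_nonneg_left u ha0
  have v' := mul_le_mul_of_nonneg_left v ha0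
  rw [e3, hr, sub_div, abs_le]
  constructor <;> nlinarith [h1.1, h1.2, h2.1, h2.2]

namespace Scal

lemma cm (a b : ℕ) : ((Nat.mul a b : ℕ) : ℝ) = a * b := Nat.cast_mul a b
lemma ca (a b : ℕ) : ((Nat.add a b : ℕ) : ℝ) = a + b := Nat.cast_add a b
lemma cp (a b : ℕ) : ((Nat.pow a b : ℕ) : ℝ) = a ^ b := Nat.cast_pow a b
lemma cdn (n : ℕ) : (dn n : ℝ) = (4294967296 + n * n) ^ 3 := by
  rw [dn, cp, ca, cm, Nat.cast_ofNat]
lemma c5 (n : ℕ) : (w5 n : ℝ) = n ^ 5 * 65536 := by rw [w5, cm, cp, Nat.cast_ofNat]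
lemma c4 (n : ℕ) : (w4 n : ℝ) = n ^ 4 * 4294967296 := by rw [w4, cm, cp, Nat.cast_ofNat]
lemma c3 (n : ℕ) : (w3 n : ℝ) = n ^ 3 * 281474976710656 := by rw [w3, cm, cp, Nat.cast_ofNat]
lemma c2 (n : ℕ) : (w2 n : ℝ) = n * n * 18446744073709551616 := by rw [w2, cm, cm, Nat.cast_ofNat]
lemma c1 (n : ℕ) : (w1 n : ℝ) = n * 1208925819614629174706176 := by rw [w1, cm, Nat.cast_ofNat]

end Scal

open Scal in
theorem Mj_bd (j n : ℕ) (hj : j ≤ 6) : |mJ j (n / 65536) * 2 ^ 48 - Mj j n (At n)| ≤ 3 := by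
  have hA := At_bd n
  have h0 : (0 : ℝ) < 4294967296 + (n : ℝ) * n := by positivity
  have hd : 0 < dn n := by
    have : (0 : ℝ) < dn n := by rw [cdn]; positivity
    exact_mod_cast this
  generalize At n = A at hA
  interval_cases j <;>
  · refine mq_bd _ _ _ _ _ _ _ hd hA (by norm_num) ?_
    simp only [mJ, mA, mR, ca, cm, cdn, c1, c2, c3, c4, c5, Nat.cast_ofNat, Nat.cast_zero]
    field_simp
    ring

theorem Mj_bd64 (j n : ℕ) (hj : j ≤ 6) : |mJ j (n / 2 ^ 16) * 2 ^ 48 - Mj j n (At n)| ≤ 64 := by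
  have := Mj_bd j n hj
  norm_num at this ⊢
  linarith

end Pool.Agent.P.MP_2b44f0_gt.PD
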