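import Pool.Agent.P.MP_2b44f0_gt.PD.CertF

/-!
Reduction to `τ ≥ 0` and the change to the variables `(2 z - 1, τ, 1 - τ² - y)`.
-/

namespace Pool.Agent.P.MP_2b44f0_gt.PD

open MeasureTheory

/-- the reflection `τ ↦ -τ` -/
def flp (u : W) : W := (u.1, -u.2.1, u.2.2)

/-- the variables `X = 2 z - 1`, `τ`, `Y = 1 - τ² - y` -/
def chg (u : W) : W := (2 * u.1 - 1, u.2.1, 1 - u.2.1 ^ 2 - u.2.2)

theorem c_flp : ContDiff ℝ 1 flp := by unfold flp; fun_prop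

theorem c_chg : ContDiff ℝ 1 chg := by unfold chg; fun_prop

theorem chg_flp (u : W) : chg (flp u) = flp (chg u) := by simp [chg, flp]

theorem flp_flp (u : W) : flp (flp u) = u := by simp [flp]

theorem dot_gr_flp {A : W → ℝ} (hA : ContDiff ℝ 1 A) (u d : W) :
    dot (gr (fun u => A (flp u)) u) d = dot (gr A (flp u)) (flp d) := by
  have h : HasFDerivAt flp ((ContinuousLinearMap.fst ℝ ℝ (ℝ × ℝ)).prod
      ((-(ContinuousLinearMap.fst ℝ ℝ ℝ).comp (ContinuousLinearMap.snd ℝ ℝ (ℝ × ℝ))).prod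
        ((ContinuousLinearMap.snd ℝ ℝ ℝ).comp (ContinuousLinearMap.snd ℝ ℝ (ℝ × ℝ))))) u :=
    (ContinuousLinearMap.hasFDerivAt _).congr_of_eventuallyEq (.of_forall fun _ => rfl)
  rw [← INTx.fd_eq, ← INTx.fd_eq]
  exact DFunLike.congr_fun
    ((hA.differentiable one_ne_zero (flp u)).hasFDerivAt.comp u h).fderiv d

theorem gr_chg {P : W → ℝ} (hP : ContDiff ℝ 1 P) (u : W) :
    gr (fun u => P (chg u)) u = (2 * (gr P (chg u)).1,
      (gr P (chg u)).2.1 - 2 * u.2.1 * (gr P (chg u)).2.2, -(gr P (chg u)).2.2) := by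
  have h1 : HasFDerivAt (fun u : W => u.1) _ u := hasFDerivAt_fst (𝕜 := ℝ)
  have h2 : HasFDerivAt (fun u : W => u.2.1) _ u :=
    (hasFDerivAt_fst (𝕜 := ℝ)).comp u hasFDerivAt_snd
  have h3 : HasFDerivAt (fun u : W => u.2.2) _ u :=
    (hasFDerivAt_snd (𝕜 := ℝ)).comp u hasFDerivAt_snd
  have h : HasFDerivAt chg _ u := ((h1.const_mul 2).sub_const 1).prodMk
    (h2.prodMk (((h2.pow 2).const_sub 1).sub h3))
  have k := ((hP.differentiable one_ne_zero (chg u)).hasFDerivAt.comp u h).fderiv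
  have e : ∀ d, fderiv ℝ (fun u => P (chg u)) u d =
      dot (gr P (chg u)) (2 * d.1, d.2.1, -(2 * u.2.1 * d.2.1) - d.2.2) := fun d => by
    rw [← INTx.fd_eq]
    refine (DFunLike.congr_fun k d).trans ?_
    simp
  simp only [gr, e]
  simp only [dot]
  refine Prod.ext ?_ (Prod.ext ?_ ?_) <;> simp <;> ring

theorem Dom.flp {u : W} {l : ℝ} (h : Dom u l) : Dom (flp u) (1 - l) := by
  refine ⟨h.z0, h.z1, ?_, ?_, h.y0, sub_pos.2 h.l1, by linarith [h.l0], ?_, fun j => ?_, ?_⟩ <;>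
    simp only [PD.flp]
  · linarith [h.t1]
  · linarith [h.t0]
  · linarith [h.kato]
  · have := h.box (4 - j)
    push_cast at this
    linarith
  · linarith [h.top]

theorem Adm.flp {μ : Fin (2 * 3) → ℝ} {w : W} (h : Adm (2 * 3) μ w) :
    Adm (2 * 3) (fun i => -μ i) (w.1, w.2.2, w.2.1) :=
  ⟨by simp [h.sum], by simpa using h.sq, h.hi, fun i => by simpa using h.lo i, h.k2, h.k1⟩

theorem vol_flp (μ : Fin (2 * 3) → ℝ) (k k' : ℝ) :
    vol 3 (fun i => -μ i) k' k = vol 3 μ k k' := by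
  have := intervalIntegral.integral_comp_neg (a := -k⁻¹) (b := k'⁻¹)
    (fun ξ => (∏ i, (1 + ξ * μ i)) / (1 + ξ ^ 2) ^ (3 + 1))
  simp only [vol, neg_neg] at this ⊢
  rw [← this]
  simp

theorem crd_flp (w : W) : crd (w.1, w.2.2, w.2.1) = flp (crd w) := by
  simp only [crd, flp, add_comm w.2.2 w.2.1]
  refine Prod.ext rfl (Prod.ext ?_ rfl)
  simp only
  ring

/-- a symmetric certificate has to be checked for `τ ≥ 0` only -/
theorem CertU.of_sym {V₀ ψ : ℝ} (hψ : 0 < ψ) {A₀ A₁ f : W → ℝ} (c0 : ContDiff ℝ 1 A₀)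
    (c1 : ContDiff ℝ 1 A₁) (cf : ContDiff ℝ 1 f) (s0 : ∀ u, A₀ (flp u) = A₀ u)
    (sf : ∀ u, f (flp u) = f u)
    (pos : ∀ u l, Dom u l → 0 ≤ u.2.1 → 0 ≤ A₀ u ∧ 0 < A₁ u ∧ 0 < A₁ (flp u))
    (lmi : ∀ u l, Dom u l → 0 ≤ u.2.1 → ∀ v : W, (u.2.2 = 0 → v.1 = 0) →
      dot (gr f u) (dir u v) ^ 2 ≤ qf (A₀ u) (A₁ u) (A₁ (flp u)) (dot (gr A₀ u) (dir u v))
        (dot (gr A₁ u) (dir u v)) (dot (gr (fun u => A₁ (flp u)) u) (dir u v)) u l v)
    (hvol : ∀ μ w, Adm (2 * 3) μ w → w.2.1 ≤ w.2.2 → PD.vol 3 μ w.2.1 w.2.2 ≤ V₀ + ψ *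
      ((6 - w.1) * (3 * (crd w).2.2 * A₀ (crd w) + (1 - (crd w).2.1) / 2 * A₁ (crd w) +
        (1 + (crd w).2.1) / 2 * A₁ (flp (crd w))) + (w.1 - 25 / 4) * f (crd w) ^ 2)) :
    CertU V₀ (fun u => ψ * A₀ u) (fun u => ψ * A₁ u) (fun u => ψ * A₁ (flp u))
      fun u => ψ * f u ^ 2 := by
  refine CertU.of_f hψ c0 c1 (c1.comp c_flp) cf (fun u l h => ?_) (fun u l h v hv => ?_)
    fun μ w h => ?_
  · rcases le_total 0 u.2.1 with h0 | h0
    · exact pos u l h h0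
    · have := pos _ _ h.flp (neg_nonneg.2 h0)
      rw [s0, flp_flp] at this
      exact ⟨this.1, this.2.2, this.2.1⟩
  · rcases le_total 0 u.2.1 with h0 | h0
    · exact lmi u l h h0 v hv
    · have := lmi _ _ h.flp (neg_nonneg.2 h0) (v.1, v.2.2, v.2.1) hv
      have e : dir (flp u) (v.1, v.2.2, v.2.1) = flp (dir u v) := by
        simp only [dir, flp]
        refine Prod.ext ?_ (Prod.ext ?_ ?_) <;> simp only <;> ring
      rw [e, ← dot_gr_flp cf, ← dot_gr_flp c0, ← dot_gr_flp c1, dot_gr_flp c1 (flp u), flp_flp,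
        flp_flp, s0, funext s0, funext sf] at this
      refine this.trans_eq ?_
      simp only [qf, flp]
      ring
  · rcases le_total w.2.1 w.2.2 with h0 | h0
    · exact hvol μ w h h0
    · have := hvol _ _ h.flp h0
      rw [vol_flp, crd_flp, s0, sf, flp_flp] at this
      refine this.trans_eq ?_
      simp only [flp]
      ring

end Pool.Agent.P.MP_2b44f0_gt.PD
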