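import Pool.Agent.P.MP_2b44f0_gt.PD.IfK

/-! Step ATAN. -/

namespace Pool.Agent.P.MP_2b44f0_gt.PD

open MeasureTheory Set

namespace ATANx

theorem dpow (m : ℕ) (y : ℝ) :
    HasDerivAt (fun y : ℝ => y ^ (2 * m + 1) / (2 * m + 1)) (y ^ (2 * m)) y := by
  have h := (hasDerivAt_pow (2 * m + 1) y).div_const (2 * (m : ℝ) + 1)
  refine h.congr_deriv ?_
  have h0 : (2 * (m : ℝ) + 1) ≠ 0 := by positivity
  rw [Nat.add_sub_cancel]
  push_cast
  field_simp

theorem dd (n : ℕ) (y : ℝ) : HasDerivAt (fun y : ℝ =>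
    Real.arctan y - ∑ i ∈ Finset.range n, (-1) ^ i * y ^ (2 * i + 1) / (2 * i + 1))
    ((-1) ^ n * y ^ (2 * n) / (1 + y ^ 2)) y := by
  induction n with
  | zero => simpa using Real.hasDerivAt_arctan y
  | succ n ih =>
    have h := ih.fun_sub ((dpow n y).const_mul ((-1) ^ n))
    refine (h.congr_of_eventuallyEq (Filter.Eventually.of_forall fun x => ?_)).congr_deriv ?_
    · simp only [Finset.sum_range_succ]
      ring
    · have h0 : 1 + y ^ 2 ≠ 0 := by positivity
      field_simp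
      ring

theorem bd (n : ℕ) (y : ℝ) : |(-1) ^ n * y ^ (2 * n) / (1 + y ^ 2)| ≤ y ^ (2 * n) := by
  have h0 : 0 ≤ y ^ (2 * n) := by rw [pow_mul]; positivity
  rw [abs_div, abs_mul, abs_pow, abs_neg, abs_one, one_pow, one_mul, abs_of_nonneg h0,
    abs_of_pos (by positivity)]
  exact div_le_self h0 (by nlinarith [sq_nonneg y])

end ATANx

open ATANx in
theorem c_ATAN :
    Q_ATAN := by
  intro y n hy
  have h1 := monotone_of_hasDerivAt_nonneg (fun x => (dpow n x).fun_sub (dd n x))
    (fun x => sub_nonneg.2 (abs_le.1 (bd n x)).2) hy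
  have h2 := monotone_of_hasDerivAt_nonneg (fun x => (dpow n x).fun_add (dd n x))
    (fun x => by have := (abs_le.1 (bd n x)).1; simp only [Pi.zero_apply]; linarith) hy
  simp only [Real.arctan_zero, ne_eq, Nat.add_eq_zero_iff, one_ne_zero, and_false,
    not_false_eq_true, zero_pow, zero_div, mul_zero, Finset.sum_const_zero, sub_zero,
    add_zero] at h1 h2
  rw [abs_le]
  constructor <;> linarith

end Pool.Agent.P.MP_2b44f0_gt.PD
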