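import Pool.Agent.P.MP_2b44f0_gt.PD.If

/-! Step BALL1. -/

namespace Pool.Agent.P.MP_2b44f0_gt.PD

open MeasureTheory Set Filter Asymptotics
open scoped ENNReal NNReal RealInnerProductSpace Topology

namespace BALL1x

variable {ι : Type} [Fintype ι]

/-- the volume of the unit ball -/
noncomputable def om (d : ℕ) : ℝ := √Real.pi ^ d / Real.Gamma (d / 2 + 1)

theorem om_pos (d : ℕ) : 0 < om d :=
  div_pos (pow_pos (Real.sqrt_pos.2 Real.pi_pos) _) (Real.Gamma_pos_of_pos (by positivity))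

theorem disc {n : ℕ} (hc : Fintype.card ι = n + 2) {ν z : E ι} (hν : ‖ν‖ = 1) (hz : ⟪ν, z⟫ = 0)
    {r : ℝ} (hr : 0 ≤ r) :
    μHE[n + 1] ({w : E ι | ⟪ν, w⟫ = 0} ∩ Metric.ball z r) =
      ENNReal.ofReal (r ^ (n + 1) * om (n + 1)) := by
  have h0 : ν ≠ 0 := by intro h; simp [h] at hν
  have hd : Module.finrank ℝ (ℝ ∙ ν)ᗮ = n + 1 := by
    have : Fact (Module.finrank ℝ (E ι) = (n + 1) + 1) := ⟨by simp [hc]⟩
    exact Submodule.finrank_orthogonal_span_singleton h0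
  have hz' : z ∈ (ℝ ∙ ν)ᗮ := Submodule.mem_orthogonal_singleton_iff_inner_right.2 hz
  have he : {w : E ι | ⟪ν, w⟫ = 0} ∩ Metric.ball z r =
      Subtype.val '' Metric.ball (⟨z, hz'⟩ : (ℝ ∙ ν)ᗮ) r := by
    ext w
    constructor
    · rintro ⟨h1, h2⟩
      exact ⟨⟨w, Submodule.mem_orthogonal_singleton_iff_inner_right.2 h1⟩, h2, rfl⟩
    · rintro ⟨w, h, rfl⟩
      exact ⟨Submodule.mem_orthogonal_singleton_iff_inner_right.1 w.2, h⟩
  have : Nontrivial (ℝ ∙ ν)ᗮ := Module.nontrivial_of_finrank_pos (R := ℝ) (by omega)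
  rw [he, isometry_subtype_coe.euclideanHausdorffMeasure_image, ← hd,
    InnerProductSpace.euclideanHausdorffMeasure_eq_volume, InnerProductSpace.volume_ball, hd,
    ENNReal.ofReal_mul (pow_nonneg hr _), ENNReal.ofReal_pow hr]
  rfl

theorem lip {F : E ι → ℝ} {x : E ι} (h : ‖normal F x‖ = 1) (v : E ι) :
    ‖tangentProj F x v‖ ≤ ‖v‖ := by
  have h1 : ‖tangentProj F x v‖ ^ 2 = ‖v‖ ^ 2 - ⟪normal F x, v⟫ ^ 2 := by
    rw [Foot.tangentProj_apply, norm_sub_sq_real, inner_smul_right, norm_smul, h,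
      real_inner_comm (normal F x) v, Real.norm_eq_abs, mul_one, sq_abs]
    ring
  exact le_of_sq_le_sq (by nlinarith [sq_nonneg ⟪normal F x, v⟫]) (norm_nonneg _)

theorem sandwich {n : ℕ} {C U : Set (E ι)} {F : E ι → ℝ} (h : St n C U F) {x : E ι}
    (hx : x ∈ lk C) {η : ℝ≥0} (hη : 1 < η) :
    ∀ᶠ ρ : ℝ in 𝓝[>] 0,
      om (n + 1) / η ^ (n + 1) ≤ (μHE[n + 1] (C ∩ Metric.ball x ρ)).toReal / ρ ^ (n + 1) ∧
      (μHE[n + 1] (C ∩ Metric.ball x ρ)).toReal / ρ ^ (n + 1) ≤ η ^ (n + 1) * om (n + 1) := by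
  have hU := h.lk_sub hx
  obtain ⟨V, O, y, hVo, hxV, -, hO, -, ha, -, hcc, hlip, -⟩ :=
    Foot.exists_foot all_shape h.chart ⟨hU, hx.1⟩ hη
  have hn := h.norm_normal hU
  have hνx := h.normal_self hx.1 (lk_ne hx)
  set P := tangentProj F x with hP
  have hfix : ∀ z, ⟪normal F x, z⟫ = 0 → P z = z := fun z hz => by
    rw [hP, Foot.tangentProj_apply, hz]; simp
  have hPx : P x = x := hfix x hνx
  have hxO : x ∈ O := hPx ▸ (ha x ⟨hx.1, hxV⟩).1
  have hη1 : (1 : ℝ) < η := by exact_mod_cast hη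
  have hη0 : (0 : ℝ) < η := zero_lt_one.trans hη1
  obtain ⟨δ, hδ, hB⟩ := Metric.isOpen_iff.1 (hVo.inter hO) x ⟨hxV, hxO⟩
  have hPl : ∀ v w, dist (P v) (P w) ≤ dist v w := fun v w => by
    rw [dist_eq_norm, dist_eq_norm, ← map_sub]; exact lip hn _
  filter_upwards [Ioo_mem_nhdsGT hδ] with ρ hρ
  have hsub : Metric.ball x ρ ⊆ V ∩ O := (Metric.ball_subset_ball hρ.2.le).trans hB
  have hρ0 := hρ.1
  have hom := om_pos (n + 1)
  have hup : μHE[n + 1] (C ∩ Metric.ball x ρ) ≤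
      ENNReal.ofReal (η ^ (n + 1) * (ρ ^ (n + 1) * om (n + 1))) := by
    have h1 : C ∩ Metric.ball x ρ = y '' (P '' (C ∩ Metric.ball x ρ)) := by
      rw [image_image]
      exact (image_congr (fun z hz => (ha z ⟨hz.1, (hsub hz.2).1⟩).2) |>.trans (image_id' _)).symm
    have h2 : LipschitzOnWith η y (P '' (C ∩ Metric.ball x ρ)) := by
      refine LipschitzOnWith.of_dist_le_mul ?_
      rintro _ ⟨z, hz, rfl⟩ _ ⟨z', hz', rfl⟩
      rw [(ha z ⟨hz.1, (hsub hz.2).1⟩).2, (ha z' ⟨hz'.1, (hsub hz'.2).1⟩).2]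
      exact hlip z ⟨hz.1, (hsub hz.2).1⟩ z' ⟨hz'.1, (hsub hz'.2).1⟩
    have h3 : P '' (C ∩ Metric.ball x ρ) ⊆ {w : E ι | ⟪normal F x, w⟫ = 0} ∩ Metric.ball x ρ := by
      rintro _ ⟨z, hz, rfl⟩
      refine ⟨Foot.inner_tangentProj hn z, ?_⟩
      have := hPl z x
      rw [hPx] at this
      exact lt_of_le_of_lt this hz.2
    calc μHE[n + 1] (C ∩ Metric.ball x ρ)
        = μHE[n + 1] (y '' (P '' (C ∩ Metric.ball x ρ))) := by rw [← h1]
      _ ≤ (η : ℝ≥0∞) ^ (n + 1) * μHE[n + 1] (P '' (C ∩ Metric.ball x ρ)) := Tube.image_le h2 _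
      _ ≤ (η : ℝ≥0∞) ^ (n + 1) *
          μHE[n + 1] ({w : E ι | ⟪normal F x, w⟫ = 0} ∩ Metric.ball x ρ) := by gcongr
      _ = _ := by
        rw [disc h.card hn hνx hρ0.le, ENNReal.ofReal_mul (pow_nonneg hη0.le _),
          ENNReal.ofReal_pow hη0.le, ENNReal.ofReal_coe_nnreal]
  have hlo : ENNReal.ofReal ((ρ / η) ^ (n + 1) * om (n + 1)) ≤
      μHE[n + 1] (C ∩ Metric.ball x ρ) := by
    have h1 : {w : E ι | ⟪normal F x, w⟫ = 0} ∩ Metric.ball x (ρ / η) ⊆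
        P '' (C ∩ Metric.ball x ρ) := by
      rintro z ⟨hz1, hz2⟩
      have hzO : z ∈ O := (hsub (Metric.ball_subset_ball (div_le_self hρ0.le hη1.le) hz2)).2
      obtain ⟨h2, h3, -⟩ := hcc z hzO
      rw [hfix z hz1] at h3
      refine ⟨y z, ⟨h2.1, ?_⟩, h3⟩
      have h4 := hlip (y z) h2 x ⟨hx.1, hxV⟩
      rw [h3, hPx] at h4
      have h5 : dist z x * η < ρ := (lt_div_iff₀ hη0).1 hz2
      exact lt_of_le_of_lt h4 (by linarith)
    have h2 : LipschitzOnWith 1 P (C ∩ Metric.ball x ρ) :=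
      LipschitzOnWith.of_dist_le_mul fun v _ w _ => by simpa using hPl v w
    calc ENNReal.ofReal ((ρ / η) ^ (n + 1) * om (n + 1))
        = μHE[n + 1] ({w : E ι | ⟪normal F x, w⟫ = 0} ∩ Metric.ball x (ρ / η)) :=
          (disc h.card hn hνx (div_pos hρ0 hη0).le).symm
      _ ≤ μHE[n + 1] (P '' (C ∩ Metric.ball x ρ)) := measure_mono h1
      _ ≤ _ := by simpa using Tube.image_le h2 (n + 1)
  have hp : 0 < ρ ^ (n + 1) := pow_pos hρ0 _
  constructor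
  · rw [le_div_iff₀ hp]
    have := (ENNReal.ofReal_le_iff_le_toReal (ne_top_of_le_ne_top ENNReal.ofReal_ne_top hup)).1 hlo
    refine le_trans (le_of_eq ?_) this
    rw [div_pow]; ring
  · rw [div_le_iff₀ hp]
    refine (ENNReal.toReal_le_of_le_ofReal (by positivity) hup).trans_eq ?_
    ring

end BALL1x

open BALL1x in
theorem c_BALL1 :
    Q_BALL1 := by
  intro ι _ n C U F h
  refine ⟨om (n + 1), om_pos _, fun x hx => tendsto_order.2 ⟨fun a ha => ?_, fun b hb => ?_⟩⟩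
  · have h1 : ContinuousAt (fun η : ℝ≥0 => om (n + 1) / (η : ℝ) ^ (n + 1)) 1 :=
      continuousAt_const.div (NNReal.continuous_coe.pow _).continuousAt (by simp)
    have h2 : ∀ᶠ η : ℝ≥0 in 𝓝 1, a < om (n + 1) / (η : ℝ) ^ (n + 1) :=
      continuousAt_const.eventually_lt h1 (by simpa using ha)
    obtain ⟨η, h3, h4⟩ := ((h2.filter_mono nhdsWithin_le_nhds).and
      (self_mem_nhdsWithin (a := (1 : ℝ≥0)) (s := Ioi 1))).exists
    exact (sandwich h hx h4).mono fun ρ hρ => h3.trans_le hρ.1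
  · have h1 : ContinuousAt (fun η : ℝ≥0 => (η : ℝ) ^ (n + 1) * om (n + 1)) 1 :=
      (NNReal.continuous_coe.pow _).continuousAt.mul continuousAt_const
    have h2 : ∀ᶠ η : ℝ≥0 in 𝓝 1, (η : ℝ) ^ (n + 1) * om (n + 1) < b :=
      h1.eventually_lt continuousAt_const (by simpa using hb)
    obtain ⟨η, h3, h4⟩ := ((h2.filter_mono nhdsWithin_le_nhds).and
      (self_mem_nhdsWithin (a := (1 : ℝ≥0)) (s := Ioi 1))).exists
    exact (sandwich h hx h4).mono fun ρ hρ => hρ.2.trans_lt h3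

end Pool.Agent.P.MP_2b44f0_gt.PD
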