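import Pool.Agent.P.MP_2b44f0_gt.PD.If

/-! Step FRAME. -/

namespace Pool.Agent.P.MP_2b44f0_gt.PD

open MeasureTheory Set Filter Asymptotics
open scoped ENNReal RealInnerProductSpace Topology

namespace FRAMEx

variable {ι : Type} [Fintype ι] {n : ℕ} {x ν : E ι}

theorem basis (hc : Fintype.card ι = n + 2) (hx : ‖x‖ = 1) (hν : ‖ν‖ = 1) (h : ⟪ν, x⟫ = 0)
    {e : Fin n → E ι} (he : Frame n x ν e) :
    ∃ b : OrthonormalBasis (Option (Option (Fin n))) ℝ (E ι),
      b none = x ∧ b (some none) = ν ∧ ∀ i, b (some (some i)) = e i := by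
  have h' : ⟪x, ν⟫ = 0 := by rw [real_inner_comm]; exact h
  have px : ∀ i, ⟪e i, x⟫ = 0 := fun i => by rw [real_inner_comm]; exact he.px i
  have pn : ∀ i, ⟪e i, ν⟫ = 0 := fun i => by rw [real_inner_comm]; exact he.pn i
  have hxx : ⟪x, x⟫ = 1 := by rw [real_inner_self_eq_norm_sq, hx]; norm_num
  have hνν : ⟪ν, ν⟫ = 1 := by rw [real_inner_self_eq_norm_sq, hν]; norm_num
  let v : Option (Option (Fin n)) → E ι := fun a => a.elim x fun c => c.elim ν e
  have hv : Orthonormal ℝ v := by
    rw [orthonormal_iff_ite]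
    rintro (_ | _ | i) (_ | _ | j)
    · simpa [v] using hxx
    · simpa [v] using h'
    · simpa [v] using he.px j
    · simpa [v] using h
    · simpa [v] using hνν
    · simpa [v] using he.pn j
    · simpa [v] using px i
    · simpa [v] using pn i
    · simpa [v] using he.on i j
  have hcard : Module.finrank ℝ (E ι) = Fintype.card (Option (Option (Fin n))) := by
    simp [hc]
  obtain ⟨b, hb⟩ := Orthonormal.exists_orthonormalBasis_extension_of_card_eq hcard
    (v := v) (s := Set.univ) (hv.comp _ Subtype.val_injective)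
  exact ⟨b, hb _ trivial, hb _ trivial, fun i => hb _ trivial⟩

theorem eig (hc : Fintype.card ι = n + 2) (hx : ‖x‖ = 1) (hν : ‖ν‖ = 1) (h : ⟪ν, x⟫ = 0)
    (B : E ι →L[ℝ] E ι) (hB : ∀ v w, ⟪B v, w⟫ = ⟪v, B w⟫) (h1 : B x = 0) (h2 : B ν = 0) :
    ∃ (e : Fin n → E ι) (μ : Fin n → ℝ), Frame n x ν e ∧ ∀ i, B (e i) = μ i • e i := by
  have h' : ⟪x, ν⟫ = 0 := by rw [real_inner_comm]; exact h
  have ho : Orthonormal ℝ ![x, ν] := by
    rw [orthonormal_iff_ite]
    intro i j
    fin_cases i <;> fin_cases j <;> simp [h, h', hx, hν]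
  let S : Submodule ℝ (E ι) := Submodule.span ℝ (Set.range ![x, ν])
  have hS : Module.finrank ℝ S = 2 := by
    simpa using finrank_span_eq_card ho.linearIndependent
  have hK : Module.finrank ℝ Sᗮ = n := by
    have := S.finrank_add_finrank_orthogonal
    rw [hS, finrank_euclideanSpace, hc] at this
    omega
  have hm : ∀ v, v ∈ Sᗮ ↔ ⟪x, v⟫ = 0 ∧ ⟪ν, v⟫ = 0 := by
    intro v
    constructor
    · intro hv
      exact ⟨hv x (Submodule.subset_span ⟨0, rfl⟩), hv ν (Submodule.subset_span ⟨1, rfl⟩)⟩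
    · rintro ⟨a, b⟩ u hu
      induction hu using Submodule.span_induction with
      | mem u hu =>
        obtain ⟨i, rfl⟩ := hu
        fin_cases i
        · exact a
        · exact b
      | zero => simp
      | add u w _ _ hu hw => rw [inner_add_left, hu, hw, add_zero]
      | smul c u _ hu => rw [inner_smul_left, hu, mul_zero]
  have hs : LinearMap.IsSymmetric (𝕜 := ℝ) B.toLinearMap := hB
  have hi : ∀ v ∈ Sᗮ, B.toLinearMap v ∈ Sᗮ := fun v _ => (hm _).2
    ⟨by rw [ContinuousLinearMap.coe_coe, ← hB, h1, inner_zero_left],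
      by rw [ContinuousLinearMap.coe_coe, ← hB, h2, inner_zero_left]⟩
  have hr := hs.restrict_invariant hi
  refine ⟨fun i => (hr.eigenvectorBasis hK i : E ι), hr.eigenvalues hK, ⟨fun i j => ?_,
    fun i => ((hm _).1 (hr.eigenvectorBasis hK i).2).1,
    fun i => ((hm _).1 (hr.eigenvectorBasis hK i).2).2⟩, fun i => ?_⟩
  · exact orthonormal_iff_ite.1 (hr.eigenvectorBasis hK).orthonormal i j
  · exact congrArg Subtype.val (hr.apply_eigenvectorBasis hK i)

end FRAMEx

theorem c_FRAME :
    Q_FRAME := by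
  intro ι _ n x ν hc hx hν h
  refine ⟨fun e he => ?_, FRAMEx.eig hc hx hν h⟩
  obtain ⟨b, b1, b2, b3⟩ := FRAMEx.basis hc hx hν h he
  refine ⟨fun v => ?_, fun M => ?_⟩
  · have := b.sum_repr' v
    rw [Fintype.sum_option, Fintype.sum_option, b1, b2] at this
    simp only [b3] at this
    rw [add_assoc]
    exact this.symm
  · have := LinearMap.trace_eq_sum_inner M.toLinearMap b
    rw [Fintype.sum_option, Fintype.sum_option, b1, b2] at this
    simp only [b3, ContinuousLinearMap.coe_coe] at this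
    rw [tr, this, real_inner_comm x, real_inner_comm ν]
    simp only [real_inner_comm (e _)]
    ring

end Pool.Agent.P.MP_2b44f0_gt.PD
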