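import Pool.Agent.P.MP_2b44f0_gt.PD.IfC

/-! Step LOW2. -/

namespace Pool.Agent.P.MP_2b44f0_gt.PD

open MeasureTheory Set Filter Asymptotics
open scoped ENNReal RealInnerProductSpace Topology

theorem c_LOW2 (hFIN : Q_FIN) (hLDIV : Q_LDIV) :
    Q_LOW2 := by
  intro ι _ n C U F h
  obtain ⟨-, hae, hpos, hint⟩ := hFIN ι n C U F h
  have key : ∀ v : E ι, v ≠ 0 → ∃ z ∈ lk C, 0 < ⟪v, z⟫ := by
    intro v hv
    by_contra hn
    push Not at hn
    have h1 := hLDIV ι n C U F h (fun _ => v) contDiff_const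
    have h2 : ∫ x, -((n : ℝ) * ⟪v, x⟫) ∂lm n C = 0 := by
      rw [← h1]
      congr 1
      funext x
      simp [trT, tr]
    have hc : Continuous fun x : E ι => -((n : ℝ) * ⟪v, x⟫) := by fun_prop
    have h3 : ∀ᵐ x ∂lm n C, 0 ≤ -((n : ℝ) * ⟪v, x⟫) := hae.mono fun x hx =>
      neg_nonneg.2 (mul_nonpos_of_nonneg_of_nonpos (Nat.cast_nonneg n) (hn x hx))
    have h4 := (integral_eq_zero_iff_of_nonneg_ae h3 (hint _ hc.continuousOn)).1 h2
    obtain ⟨x, hx, h5⟩ := h.nonflat v hv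
    have x0 : x ≠ 0 := by rintro rfl; simp at h5
    have hz := h.mem_lk hx x0
    have n0 : (n : ℝ) ≠ 0 := by have := h.pos; positivity
    have h6 : -((n : ℝ) * ⟪v, ‖x‖⁻¹ • x⟫) ≠ 0 := by
      rw [inner_smul_right]
      exact neg_ne_zero.2 (mul_ne_zero n0 (mul_ne_zero (inv_ne_zero (norm_ne_zero_iff.2 x0)) h5))
    obtain ⟨ρ, hρ, h7⟩ := Metric.isOpen_iff.1 (isOpen_ne_fun hc continuous_const (g := fun _ => 0))
      _ h6
    exact (hpos _ hz ρ hρ).ne' (measure_mono_null h7 (ae_iff.1 h4))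
  have hO : ∀ m : ℕ, IsOpen {v : E ι | ∃ z ∈ lk C, 1 / ((m : ℝ) + 1) < ⟪v, z⟫} := by
    intro m
    have : {v : E ι | ∃ z ∈ lk C, 1 / ((m : ℝ) + 1) < ⟪v, z⟫} =
        ⋃ z ∈ lk C, {v : E ι | 1 / ((m : ℝ) + 1) < ⟪v, z⟫} := by ext v; simp
    rw [this]
    exact isOpen_biUnion fun z _ => isOpen_lt continuous_const (by fun_prop)
  obtain ⟨m, hm⟩ := (isCompact_sphere (0 : E ι) 1).elim_directed_cover _ hO
    (fun v hv => by
      have v0 : v ≠ 0 := by rintro rfl; simp at hv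
      obtain ⟨z, hz, h1⟩ := key v v0
      obtain ⟨m, hm⟩ := exists_nat_one_div_lt h1
      exact mem_iUnion.2 ⟨m, z, hz, hm⟩)
    (Monotone.directed_le fun a b hab v ⟨z, hz, h1⟩ =>
      ⟨z, hz, lt_of_le_of_lt (Nat.one_div_le_one_div hab) h1⟩)
  refine ⟨1 / ((m : ℝ) + 1), by positivity, fun v => ?_⟩
  by_cases v0 : v = 0
  · have : Nonempty ι := Fintype.card_pos_iff.1 (by rw [h.card]; omega)
    obtain ⟨w, hw⟩ := exists_ne (0 : E ι)
    obtain ⟨z, hz, -⟩ := key w hw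
    exact ⟨z, hz, by simp [v0]⟩
  · have p0 : 0 < ‖v‖ := norm_pos_iff.2 v0
    obtain ⟨z, hz, h1⟩ := hm (show ‖v‖⁻¹ • v ∈ Metric.sphere (0 : E ι) 1 by
      simp [norm_smul, p0.ne'])
    refine ⟨z, hz, ?_⟩
    rw [real_inner_smul_left, inv_mul_eq_div, lt_div_iff₀ p0] at h1
    exact h1.le

end Pool.Agent.P.MP_2b44f0_gt.PD
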