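import Pool.Agent.P.MP_2b44f0_gt.PD.IfM

/-! Step MGLOB. -/

namespace Pool.Agent.P.MP_2b44f0_gt.PD

open MeasureTheory Set Filter Asymptotics
open scoped ENNReal RealInnerProductSpace Topology

namespace MGLOBx

variable {ι : Type} [Fintype ι]

theorem grad_ne {F : E ι → ℝ} {y : E ι} : gradient F y ≠ 0 ↔ fderiv ℝ F y ≠ 0 := by
  simp [gradient]

theorem pos {F : E ι → ℝ} {L : E ι →L[ℝ] ℝ} {z v : E ι} (h : HasFDerivAt F L z) (h0 : F z = 0)
    (hv : 0 < L v) : ∀ᶠ s : ℝ in 𝓝[>] 0, 0 < F (z + s • v) := by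
  have h1 : HasDerivAt (fun s : ℝ => F (z + s • v)) (L v) 0 := h.hasLineDerivAt v
  filter_upwards [h1.tendsto_slope_zero_right.eventually_const_lt hv, self_mem_nhdsWithin]
    with s h2 hs
  simp only [zero_add, zero_smul, add_zero, h0, sub_zero, smul_eq_mul] at h2
  exact (mul_pos_iff_of_pos_left (inv_pos.2 hs)).1 h2

theorem side {G U : Set (E ι)} {F : E ι → ℝ} (hG : IsOpen G) (hU : IsOpen U)
    (hF : ContinuousOn F U) (hg : ∀ y ∈ U, gradient F y ≠ 0) (h : ∀ y ∈ U, (y ∈ G ↔ 0 < F y))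
    {z : E ι} (hz : z ∈ U) : z ∈ frontier G ↔ F z = 0 := by
  rw [hG.frontier_eq]
  constructor
  · rintro ⟨h1, h2⟩
    refine le_antisymm (not_lt.1 (mt (h z hz).2 h2)) (not_lt.1 fun h3 => ?_)
    obtain ⟨w, ⟨w1, w2⟩, w3⟩ := mem_closure_iff_nhds.1 h1 _ (inter_mem (hU.mem_nhds hz)
      ((hF.continuousAt (hU.mem_nhds hz)).eventually_lt_const h3))
    exact lt_asymm ((h w w1).1 w3) w2
  · intro h0
    refine ⟨by_contra fun h1 => grad_ne.1 (hg z hz) (IsLocalMax.fderiv_eq_zero ?_),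
      fun h1 => ((h z hz).1 h1).ne' h0⟩
    filter_upwards [hU.mem_nhds hz, isClosed_closure.isOpen_compl.mem_nhds h1] with w w1 w2
    exact h0 ▸ not_lt.1 fun h2 => w2 (subset_closure ((h w w1).2 h2))

theorem glue {G A : Set (E ι)} (hG : IsOpen G) (hA : IsCompact A) (hs : ∀ x ∈ A, SmoothSide G x) :
    ∃ (O : Set (E ι)) (g : E ι → ℝ), IsOpen O ∧ A ⊆ O ∧ ContDiff ℝ (⊤ : ℕ∞) g ∧
      ∀ z ∈ O, (z ∈ frontier G ↔ g z = 0) ∧ (z ∈ frontier G → fderiv ℝ g z ≠ 0) := by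
  choose U F hU hx hF hg h using hs
  choose ρ r1 r2 r3 r4 r5 using fun x hx' =>
    exists_contDiff_tsupport_subset (n := (⊤ : ℕ∞)) ((hU x hx').mem_nhds (hx x hx'))
  have op : ∀ x hx', IsOpen {z | 0 < ρ x hx' z} := fun x hx' =>
    isOpen_lt continuous_const (r3 x hx').continuous
  obtain ⟨t, ht⟩ := hA.elim_nhds_subcover' (fun x hx' => {z | 0 < ρ x hx' z})
    fun x hx' => (op x hx').mem_nhds (by simp [r5])
  have r0 : ∀ x hx' z, 0 ≤ ρ x hx' z := fun x hx' z => (r4 x hx' ⟨z, rfl⟩).1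
  have mem : ∀ x hx' z, ρ x hx' z ≠ 0 → z ∈ U x hx' := fun x hx' z e =>
    r1 x hx' (subset_tsupport _ e)
  have sd : ∀ x hx', ∀ z ∈ U x hx', z ∈ frontier G ↔ F x hx' z = 0 := fun x hx' z hz =>
    side hG (hU x hx') (hF x hx').continuousOn (hg x hx') (h x hx') hz
  have sm : ∀ x hx', ContDiff ℝ (⊤ : ℕ∞) fun z => ρ x hx' z * F x hx' z := fun x hx' =>
    contDiff_iff_contDiffAt.2 fun z => by
      by_cases hz : z ∈ U x hx'
      · exact (r3 x hx').contDiffAt.mul ((hF x hx').contDiffAt ((hU x hx').mem_nhds hz))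
      · refine (contDiffAt_const (c := 0)).congr_of_eventuallyEq ?_
        filter_upwards [notMem_tsupport_iff_eventuallyEq.1 fun e => hz (r1 x hx' e)] with w hw
        simp [hw]
  have nn : ∀ x hx', ∀ z ∈ G, 0 ≤ ρ x hx' z * F x hx' z := fun x hx' z hz => by
    by_cases e : ρ x hx' z = 0
    · simp [e]
    · exact mul_nonneg (r0 _ _ _) ((h x hx' z (mem _ _ _ e)).1 hz).le
  have sg : ContDiff ℝ (⊤ : ℕ∞) fun z => ∑ i ∈ t, ρ i i.2 z * F i i.2 z :=
    ContDiff.sum fun i _ => sm i i.2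
  refine ⟨_, _, isOpen_biUnion fun (i : A) _ => op i i.2, ht, sg, fun z hz => ?_⟩
  obtain ⟨j, hj, hz : 0 < ρ j j.2 z⟩ := mem_iUnion₂.1 hz
  have zj := mem _ _ _ hz.ne'
  have z0 : z ∈ frontier G → ∑ i ∈ t, ρ i i.2 z * F i i.2 z = 0 := fun hf =>
    Finset.sum_eq_zero fun i _ => by
      by_cases e : ρ i i.2 z = 0
      · simp [e]
      · simp [(sd _ _ z (mem _ _ _ e)).1 hf]
  refine ⟨⟨z0, fun e => (sd _ _ z zj).2 ?_⟩, fun hf e => ?_⟩
  · refine (mul_eq_zero.1 ?_).resolve_left hz.ne'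
    by_cases zG : z ∈ G
    · exact (Finset.sum_eq_zero_iff_of_nonneg fun (i : A) _ => nn i i.2 z zG).1 e j hj
    · refine (Finset.sum_eq_zero_iff_of_nonpos fun (i : A) _ => ?_).1 e j hj
      by_cases e : ρ i i.2 z = 0
      · simp [e]
      · exact mul_nonpos_of_nonneg_of_nonpos (r0 _ _ _)
          (not_lt.1 (mt (h _ _ z (mem _ _ _ e)).2 zG))
  · have F0 := (sd _ _ z zj).1 hf
    have d1 := (((hF j j.2).contDiffAt ((hU _ _).mem_nhds zj)).differentiableAt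
      (by simp)).hasFDerivAt
    have d2 := ((r3 j j.2).differentiable (by simp) z).hasFDerivAt
    have d3 := (sg.differentiable (by simp) z).hasFDerivAt
    have p1 : 0 < fderiv ℝ (F j j.2) z (gradient (F j j.2) z) := by
      rw [← inner_gradient_left]
      exact real_inner_self_pos.2 (hg _ _ z zj)
    have c : Continuous fun s : ℝ => z + s • gradient (F j j.2) z := by fun_prop
    have ev : ∀ᶠ s : ℝ in 𝓝 0, z + s • gradient (F j j.2) z ∈ U j j.2 :=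
      c.continuousAt.eventually_mem ((hU _ _).mem_nhds (by simpa using zj))
    obtain ⟨s, ⟨s1, s2⟩, s3⟩ := (((pos d1 F0 p1).and (pos (v := gradient (F j j.2) z)
      ((d2.mul d1).sub d3) (by simp [F0, z0 hf]) (by simpa [e, F0] using mul_pos hz p1))).and
      (ev.filter_mono nhdsWithin_le_nhds)).exists
    have := Finset.single_le_sum (fun (i : A) _ => nn i i.2 _ ((h _ _ _ s3).2 s1)) hj
    simp only [Pi.sub_apply, Pi.mul_apply] at s2
    linarith

end MGLOBx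

open MGLOBx in
theorem c_MGLOB :
    Q_MGLOB := by
  intro ι _ G hG hc hs
  obtain ⟨O, g, hO, hA, hg, h⟩ := glue hG ((isCompact_sphere (0 : E ι) 1).inter_left
    isClosed_frontier) fun x hx => hs x hx.1 (lk_ne hx)
  have n1 : ∀ y : E ι, y ≠ 0 → ContDiffAt ℝ (⊤ : ℕ∞) (fun y : E ι => ‖y‖) y := fun y hy =>
    contDiffAt_norm ℝ hy
  have n2 : ∀ y : E ι, y ≠ 0 → ContDiffAt ℝ (⊤ : ℕ∞) (fun y : E ι => ‖y‖⁻¹ • y) y := fun y hy =>
    ((n1 y hy).inv (norm_ne_zero_iff.2 hy)).smul contDiffAt_id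
  have e : ∀ y : E ι, y ≠ 0 → ‖y‖ • ‖y‖⁻¹ • y = y := fun y hy =>
    smul_inv_smul₀ (norm_ne_zero_iff.2 hy) y
  have sm : ContDiffOn ℝ (⊤ : ℕ∞) (fun y : E ι => g (‖y‖⁻¹ • y)) {0}ᶜ := fun y hy =>
    (hg.contDiffAt.comp y (n2 y hy)).contDiffWithinAt
  have c : ContinuousOn (fun y : E ι => (‖y‖⁻¹ • y, fderiv ℝ (fun y : E ι => g (‖y‖⁻¹ • y)) y))
      {0}ᶜ := ContinuousOn.prodMk (fun y hy => (n2 y hy).continuousAt.continuousWithinAt)
    (sm.continuousOn_fderiv_of_isOpen isOpen_compl_singleton (by simp))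
  have sm' := sm.mono (inter_subset_left (t := (fun y : E ι => (‖y‖⁻¹ • y,
    fderiv ℝ (fun y : E ι => g (‖y‖⁻¹ • y)) y)) ⁻¹' O ×ˢ {0}ᶜ))
  refine ⟨_, _, ⟨c.isOpen_inter_preimage isOpen_compl_singleton
    (hO.prod isOpen_compl_singleton), sm'.of_le (WithTop.coe_le_coe.2 (le_top (a := (2 : ℕ∞)))), fun y hy => grad_ne.2 hy.2.2,
    fun y hy => ?_⟩, sm', fun y hy y0 => ?_⟩
  · have p := norm_pos_iff.2 hy.1
    exact Iff.trans ⟨fun a => hc y a _ (inv_pos.2 p), fun a => e y hy.1 ▸ hc _ a _ p⟩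
      (h _ hy.2.1).1
  have p := norm_pos_iff.2 y0
  have z1 := hc y hy _ (inv_pos.2 p)
  have z2 : ‖y‖⁻¹ • y ∈ O := hA ⟨z1, by simp [norm_smul, p.ne']⟩
  refine ⟨y0, z2, fun e0 => (h _ z2).2 z1 ?_⟩
  have d1 := ((n1 y y0).differentiableAt (by simp)).hasFDerivAt
  have d2 := ((n2 y y0).differentiableAt (by simp)).hasFDerivAt
  have d3 := (hg.differentiable (by simp) (‖y‖⁻¹ • y)).hasFDerivAt
  have d4 := (d1.smul d2).unique ((hasFDerivAt_id y).congr_of_eventuallyEq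
    (eventually_of_mem (isOpen_compl_singleton.mem_nhds y0) e))
  have d5 := (HasFDerivAt.comp (f := fun y : E ι => ‖y‖⁻¹ • y) y d3 d2).fderiv.symm.trans e0
  generalize ‖y‖⁻¹ • y = z at z1 z2 d3 d4 d5 ⊢
  have d6 : fderiv ℝ g z z = 0 := by
    have a1 : HasDerivAt (fun s : ℝ => g (z + s • z)) (fderiv ℝ g z z) 0 := d3.hasLineDerivAt z
    refine a1.unique ((hasDerivAt_const (0 : ℝ) (0 : ℝ)).congr_of_eventuallyEq ?_)
    have c : Continuous fun s : ℝ => z + s • z := by fun_prop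
    filter_upwards [c.continuousAt.eventually_mem (hO.mem_nhds (by simpa using z2)),
      lt_mem_nhds (show (-1 : ℝ) < 0 by norm_num)] with s s1 s2
    refine (h _ s1).1.1 ?_
    simpa [add_smul] using hc z z1 (1 + s) (by linarith)
  ext1 v
  have a1 := congrArg (fderiv ℝ g z) (DFunLike.congr_fun d4 v)
  have a2 := DFunLike.congr_fun d5 v
  simp at a1 a2
  simp [← a1, a2, d6]

end Pool.Agent.P.MP_2b44f0_gt.PD
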