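import Pool.Agent.P.MP_2b44f0_gt.PD.IfM

/-! Step MMIN. -/

namespace Pool.Agent.P.MP_2b44f0_gt.PD

open MeasureTheory Set Filter Asymptotics
open scoped ENNReal RealInnerProductSpace Topology

namespace MMINx

theorem nonneg {a b K t₀ : ℝ} (h0 : 0 < t₀)
    (h : ∀ t : ℝ, 0 < t → t ≤ t₀ → 0 ≤ t * a + t ^ 2 / 2 * b + K * t ^ 3) : 0 ≤ a := by
  have h1 : Tendsto (fun t : ℝ => a + t / 2 * b + K * t ^ 2) (𝓝[>] 0)
      (𝓝 (a + 0 / 2 * b + K * 0 ^ 2)) :=
    (Continuous.tendsto (by fun_prop) 0).mono_left nhdsWithin_le_nhds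
  simp only [zero_div, zero_mul, add_zero, ne_eq, OfNat.ofNat_ne_zero, not_false_eq_true,
    zero_pow, mul_zero] at h1
  refine ge_of_tendsto h1 ?_
  filter_upwards [Ioc_mem_nhdsGT h0] with t ht
  refine nonneg_of_mul_nonneg_right (a := t) ?_ ht.1
  have := h t ht.1 ht.2
  linarith

theorem zero {a b K t₀ : ℝ} (h0 : 0 < t₀)
    (h : ∀ t : ℝ, |t| ≤ t₀ → 0 ≤ t * a + t ^ 2 / 2 * b + K * |t| ^ 3) : a = 0 := by
  have h1 : 0 ≤ a := nonneg (b := b) (K := K) h0 fun t ht h1 => by
    have := h t (by rwa [abs_of_pos ht])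
    rwa [abs_of_pos ht] at this
  have h2 : 0 ≤ -a := nonneg (b := b) (K := K) h0 fun t ht h1 => by
    have := h (-t) (by rwa [abs_neg, abs_of_pos ht])
    rw [abs_neg, abs_of_pos ht] at this
    linarith
  linarith

end MMINx

theorem c_MMIN (hMMEAS : Q_MMEAS) (hMVAR : Q_MVAR) :
    Q_MMIN := by
  intro ι _ d G U F hd hG hA hC hF x hx
  by_contra hne
  obtain ⟨hfin, hpos⟩ := hMMEAS ι d _ U F hd hC isClosed_frontier
  have hH : ContinuousOn (meanCurv F) U :=
    (trL (ι := ι)).continuous.comp_continuousOn (all_shape ι _ U F hC).2.1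
  have hU := hC.isOpen.mem_nhds hx.2
  have h1 : ∀ᶠ y in 𝓝 x, y ∈ U ∧ 0 < meanCurv F x * meanCurv F y :=
    Eventually.and hU
      ((continuousAt_const.mul (hH.continuousAt hU)).eventually (lt_mem_nhds (mul_self_pos.2 hne)))
  obtain ⟨r, hr, h2⟩ := Metric.nhds_basis_closedBall.eventually_iff.1 h1
  let φ : ContDiffBump x := ⟨r / 2, r, by positivity, by linarith⟩
  have hs : tsupport φ = Metric.closedBall x r := φ.tsupport_eq
  have hsub : Metric.closedBall x r ⊆ U := fun y hy => (h2 hy).1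
  obtain ⟨K, t₀, h0, h3⟩ := hMVAR ι d G U F hd hG hA hC hF φ φ.contDiff φ.hasCompactSupport
    (hs ▸ hsub)
  have h4 := MMINx.zero h0 h3
  rw [hs] at h4
  have hm : MeasurableSet (frontier G ∩ Metric.closedBall x r) :=
    (isClosed_frontier.inter Metric.isClosed_closedBall).measurableSet
  have h5 : 0 < ∫ y in frontier G ∩ Metric.closedBall x r,
      meanCurv F x * (φ y * meanCurv F y) ∂μHE[d] := by
    rw [setIntegral_pos_iff_support_of_nonneg_ae]
    · refine (hpos x hx r hr).trans_le (measure_mono fun y hy => ?_)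
      have h6 := Metric.ball_subset_closedBall hy.2
      refine ⟨ne_of_gt ?_, hy.1, h6⟩
      beta_reduce
      rw [mul_left_comm]
      exact mul_pos (φ.pos_of_mem_ball hy.2) (h2 h6).2
    · filter_upwards [ae_restrict_mem hm] with y hy
      rw [mul_left_comm]
      exact mul_nonneg φ.nonneg (h2 hy.2).2.le
    · exact ContinuousOn.integrableOn_of_subset_isCompact
        (continuousOn_const.mul (φ.continuous.continuousOn.mul (hH.mono hsub)))
        (isCompact_closedBall x r) hm inter_subset_right (hfin _ (isCompact_closedBall x r) hsub)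
  rw [integral_const_mul, h4, mul_zero] at h5
  exact lt_irrefl _ h5

end Pool.Agent.P.MP_2b44f0_gt.PD
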