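import Pool.Agent.P.MP_2b44f0_gt.PD.IfV

/-! Step RED. -/

namespace Pool.Agent.P.MP_2b44f0_gt.PD

open MeasureTheory Set

namespace REDx

theorem prod3 {M ι : Type} [CommMonoid M] [Fintype ι] [DecidableEq ι] (f : ι → M) {a b c : ι}
    (hab : a ≠ b) (hac : a ≠ c) (hbc : b ≠ c) :
    ∏ i, f i = f a * f b * f c * ∏ i ∈ ({a, b, c} : Finset ι)ᶜ, f i := by
  rw [← Finset.prod_mul_prod_compl ({a, b, c} : Finset ι), Finset.prod_insert (by simp [hab, hac]),
    Finset.prod_pair hbc, ← mul_assoc (f a)]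

theorem sum3 {ι : Type} [Fintype ι] [DecidableEq ι] (f : ι → ℝ) {a b c : ι}
    (hab : a ≠ b) (hac : a ≠ c) (hbc : b ≠ c) :
    ∑ i, f i = f a + f b + f c + ∑ i ∈ ({a, b, c} : Finset ι)ᶜ, f i := by
  rw [← Finset.sum_add_sum_compl ({a, b, c} : Finset ι), Finset.sum_insert (by simp [hab, hac]),
    Finset.sum_pair hbc, ← add_assoc (f a)]

theorem cont (m : ℕ) (k k' : ℝ) : Continuous fun ν : Fin (2 * m) → ℝ => vol m ν k k' := by
  unfold vol
  refine intervalIntegral.continuous_parametric_intervalIntegral_of_continuous'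
    (f := fun (ν : Fin (2 * m) → ℝ) ξ => (∏ i, (1 + ξ * ν i)) / (1 + ξ ^ 2) ^ (m + 1)) ?_ _ _
  refine Continuous.div (by fun_prop) (by fun_prop) fun p => ?_
  positivity

theorem move {m : ℕ} (k k' : ℝ) (μ : Fin (2 * m) → ℝ) {a b c : Fin (2 * m)}
    (hab : a ≠ b) (hac : a ≠ c) (hbc : b ≠ c) : ∃ D : ℝ, ∀ ν : Fin (2 * m) → ℝ,
      (∀ i ∈ ({a, b, c} : Finset _)ᶜ, ν i = μ i) → ν a + ν b + ν c = μ a + μ b + μ c →
      ν a ^ 2 + ν b ^ 2 + ν c ^ 2 = μ a ^ 2 + μ b ^ 2 + μ c ^ 2 →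
      ∑ i, ν i = ∑ i, μ i ∧ ∑ i, ν i ^ 2 = ∑ i, μ i ^ 2 ∧
      ∑ i, ν i ^ 3 = ∑ i, μ i ^ 3 + 3 * (ν a * ν b * ν c - μ a * μ b * μ c) ∧
      vol m ν k k' = vol m μ k k' + D * (ν a * ν b * ν c - μ a * μ b * μ c) := by
  refine ⟨∫ ξ in (-k'⁻¹)..k⁻¹, ξ ^ 3 * (∏ i ∈ ({a, b, c} : Finset _)ᶜ, (1 + ξ * μ i)) /
    (1 + ξ ^ 2) ^ (m + 1), fun ν h h1 h2 => ?_⟩
  have h3 : ν a * ν b + ν a * ν c + ν b * ν c = μ a * μ b + μ a * μ c + μ b * μ c := by
    have : (ν a + ν b + ν c) ^ 2 = (μ a + μ b + μ c) ^ 2 := by rw [h1]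
    linear_combination (this - h2) / 2
  refine ⟨?_, ?_, ?_, ?_⟩
  · rw [sum3 ν hab hac hbc, sum3 μ hab hac hbc, h1, Finset.sum_congr rfl h]
  · rw [sum3 (fun i => ν i ^ 2) hab hac hbc, sum3 (fun i => μ i ^ 2) hab hac hbc, h2,
      Finset.sum_congr rfl fun i hi => by rw [h i hi]]
  · rw [sum3 (fun i => ν i ^ 3) hab hac hbc, sum3 (fun i => μ i ^ 3) hab hac hbc,
      Finset.sum_congr rfl fun i hi => by rw [h i hi]]
    linear_combination (ν a + ν b + ν c) * (h2 - h3) + (μ a ^ 2 + μ b ^ 2 + μ c ^ 2 -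
      (μ a * μ b + μ a * μ c + μ b * μ c)) * h1
  · unfold vol
    rw [← intervalIntegral.integral_mul_const, ← intervalIntegral.integral_add]
    · refine intervalIntegral.integral_congr fun ξ _ => ?_
      rw [prod3 (fun i => 1 + ξ * ν i) hab hac hbc, prod3 (fun i => 1 + ξ * μ i) hab hac hbc,
        Finset.prod_congr rfl fun i hi => by rw [h i hi]]
      generalize ∏ i ∈ ({a, b, c} : Finset _)ᶜ, (1 + ξ * μ i) = R
      have : (1 + ξ ^ 2) ^ (m + 1) ≠ 0 := by positivity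
      field_simp
      linear_combination R * ξ * h1 + R * ξ ^ 2 * h3
    · exact (Continuous.div (by fun_prop) (by fun_prop) fun p => by positivity).intervalIntegrable
        _ _
    · exact ((Continuous.div (by fun_prop) (by fun_prop) fun p => by positivity).mul
        continuous_const).intervalIntegrable _ _

/-- the rotation of a triple about its mean -/
noncomputable def rot (x y z t : ℝ) : ℝ :=
  x + (2 * t * (y - z) - 2 * t ^ 2 * (2 * x - y - z)) / (1 + 3 * t ^ 2)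

theorem rot_deriv (x y z : ℝ) : HasDerivAt (rot x y z) (2 * (y - z)) 0 := by
  have h1 : HasDerivAt (fun t : ℝ => 2 * t * (y - z) - 2 * t ^ 2 * (2 * x - y - z))
      (2 * (y - z)) 0 := by
    exact ((((hasDerivAt_id' (0 : ℝ)).const_mul 2).mul_const (y - z)).fun_sub
      ((((hasDerivAt_id' (0 : ℝ)).fun_pow 2).const_mul 2).mul_const (2 * x - y - z))).congr_deriv
      (by simp)
  have h2 : HasDerivAt (fun t : ℝ => 1 + 3 * t ^ 2) 0 0 := by
    exact ((((hasDerivAt_id' (0 : ℝ)).fun_pow 2).const_mul 3).const_add 1).congr_deriv (by simp)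
  exact ((h1.fun_div h2 (by norm_num)).const_add x).congr_deriv (by simp)

theorem rot_zero (x y z : ℝ) : rot x y z 0 = x := by simp [rot]

theorem rot_sum (x y z t : ℝ) : rot x y z t + rot y z x t + rot z x y t = x + y + z := by
  unfold rot
  have : 1 + 3 * t ^ 2 ≠ 0 := by positivity
  field_simp
  ring

theorem rot_sq (x y z t : ℝ) :
    rot x y z t ^ 2 + rot y z x t ^ 2 + rot z x y t ^ 2 = x ^ 2 + y ^ 2 + z ^ 2 := by
  unfold rot
  have : 1 + 3 * t ^ 2 ≠ 0 := by positivity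
  field_simp
  ring

theorem no_max {x y z D : ℝ} (hxy : x ≠ y) (hxz : x ≠ z) (hyz : y ≠ z) (hD : D ≠ 0)
    (h : ∀ᶠ t in nhds (0 : ℝ),
      D * (rot x y z t * rot y z x t * rot z x y t - x * y * z) ≤ 0) : False := by
  have h1 := ((((rot_deriv x y z).mul (rot_deriv y z x)).mul (rot_deriv z x y)).sub_const
    (x * y * z)).const_mul D
  have h2 : IsLocalMax (fun t => D * ((rot x y z * rot y z x * rot z x y) t - x * y * z)) 0 := by
    filter_upwards [h] with t ht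
    simpa [rot_zero] using ht
  have h3 := h2.hasDerivAt_eq_zero h1
  simp only [Pi.mul_apply, rot_zero] at h3
  have h4 : D * ((x - y) * (x - z) * (y - z)) = 0 := by linear_combination h3 / 2
  simp [hD, sub_eq_zero, hxy, hxz, hyz] at h4

end REDx

open REDx in
theorem c_RED :
    Q_RED := by
  intro m k k' lo hi μ hl hμ
  let K : Set (Fin (2 * m) → ℝ) :=
    Icc (fun _ => lo) (fun _ => hi) ∩ {ν | ∑ i, ν i = ∑ i, μ i ∧ ∑ i, ν i ^ 2 = ∑ i, μ i ^ 2}
  have hK : IsCompact K := isCompact_Icc.inter_right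
    ((isClosed_eq (by fun_prop) continuous_const).inter
      (isClosed_eq (by fun_prop) continuous_const))
  have mK : μ ∈ K := ⟨⟨fun i => (hμ i).1, fun i => (hμ i).2⟩, rfl, rfl⟩
  obtain ⟨μ₀, h0, hm0⟩ := hK.exists_isMaxOn ⟨μ, mK⟩ (cont m k k').continuousOn
  have hM : IsCompact (K ∩ {ν | vol m ν k k' = vol m μ₀ k k'}) :=
    hK.inter_right (isClosed_eq (cont m k k') continuous_const)
  obtain ⟨ν, ⟨⟨⟨b1, b2⟩, s1, s2⟩, hv⟩, hm1⟩ := hM.exists_isMaxOn ⟨μ₀, h0, rfl⟩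
    (f := fun ν => ∑ i, ν i ^ 3) (by fun_prop)
  have hv' : vol m ν k k' = vol m μ₀ k k' := hv
  have key : ∀ a b c, ν a ∈ Ioo lo hi → ν b ∈ Ioo lo hi → ν c ∈ Ioo lo hi → ν a ≠ ν b →
      ν a ≠ ν c → ν b ≠ ν c → False := by
    intro a b c ha hb hc hab hac hbc
    have nab : a ≠ b := fun h => hab (h ▸ rfl)
    have nac : a ≠ c := fun h => hac (h ▸ rfl)
    have nbc : b ≠ c := fun h => hbc (h ▸ rfl)
    obtain ⟨D, hD⟩ := move k k' ν nab nac nbc
    let γ : ℝ → Fin (2 * m) → ℝ := fun t i => if i = a then rot (ν a) (ν b) (ν c) t else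
      if i = b then rot (ν b) (ν c) (ν a) t else if i = c then rot (ν c) (ν a) (ν b) t else ν i
    have ga : ∀ t, γ t a = rot (ν a) (ν b) (ν c) t := fun t => by simp [γ]
    have gb : ∀ t, γ t b = rot (ν b) (ν c) (ν a) t := fun t => by simp [γ, nab.symm]
    have gc : ∀ t, γ t c = rot (ν c) (ν a) (ν b) t := fun t => by simp [γ, nac.symm, nbc.symm]
    have hγ := fun t => hD (γ t) (fun i hi => by
      simp only [Finset.mem_compl, Finset.mem_insert, Finset.mem_singleton, not_or] at hi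
      simp [γ, hi.1, hi.2.1, hi.2.2]) (by rw [ga, gb, gc, rot_sum]) (by rw [ga, gb, gc, rot_sq])
    have ev : ∀ x y z, x ∈ Ioo lo hi → ∀ᶠ t in nhds (0 : ℝ), rot x y z t ∈ Ioo lo hi :=
      fun x y z hx => (rot_deriv x y z).continuousAt.eventually_mem
        (by rw [rot_zero]; exact isOpen_Ioo.mem_nhds hx)
    have evK : ∀ᶠ t in nhds (0 : ℝ), γ t ∈ K := by
      filter_upwards [ev _ (ν b) (ν c) ha, ev _ (ν c) (ν a) hb, ev _ (ν a) (ν b) hc] with t e1 e2 e3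
      refine ⟨⟨fun i => ?_, fun i => ?_⟩, (hγ t).1.trans s1, (hγ t).2.1.trans s2⟩
      · simp only [γ]
        split_ifs
        exacts [e1.1.le, e2.1.le, e3.1.le, b1 i]
      · simp only [γ]
        split_ifs
        exacts [e1.2.le, e2.2.le, e3.2.le, b2 i]
    by_cases h0 : D = 0
    · refine no_max hab hac hbc (D := 3) (by norm_num) ?_
      filter_upwards [evK] with t ht
      have e := (hγ t).2.2
      rw [h0, zero_mul, add_zero, ga, gb, gc] at e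
      have : ∑ i, γ t i ^ 3 ≤ ∑ i, ν i ^ 3 := hm1 ⟨ht, e.2.trans hv'⟩
      linarith [e.1]
    · refine no_max hab hac hbc h0 ?_
      filter_upwards [evK] with t ht
      have e := (hγ t).2.2.2
      rw [ga, gb, gc] at e
      have : vol m (γ t) k k' ≤ vol m μ₀ k k' := hm0 ht
      linarith
  have io : ∀ i, ¬ (ν i = lo ∨ ν i = hi) → ν i ∈ Ioo lo hi := fun i h =>
    ⟨lt_of_le_of_ne (b1 i) fun e => h (.inl e.symm), lt_of_le_of_ne (b2 i) fun e => h (.inr e)⟩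
  refine ⟨ν, fun i => ⟨b1 i, b2 i⟩, s1, s2, hv' ▸ hm0 mK, ?_⟩
  by_cases h1 : ∀ i, ν i = lo ∨ ν i = hi
  · exact ⟨lo, ⟨le_rfl, hl⟩, lo, ⟨le_rfl, hl⟩, fun i => by rcases h1 i with h | h <;> simp [h]⟩
  obtain ⟨a, ha⟩ := not_forall.1 h1
  by_cases h2 : ∀ i, (ν i = lo ∨ ν i = hi) ∨ ν i = ν a
  · exact ⟨ν a, ⟨b1 a, b2 a⟩, ν a, ⟨b1 a, b2 a⟩, fun i => by
      rcases h2 i with (h | h) | h <;> simp [h]⟩
  obtain ⟨b, hb⟩ := not_forall.1 h2
  rw [not_or] at hb
  refine ⟨ν a, ⟨b1 a, b2 a⟩, ν b, ⟨b1 b, b2 b⟩, fun c => by_contra fun hc => ?_⟩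
  simp only [not_or] at hc
  exact key a b c (io a ha) (io b hb.1) (io c (not_or.2 ⟨hc.1, hc.2.1⟩)) (Ne.symm hb.2)
    (Ne.symm hc.2.2.1) (Ne.symm hc.2.2.2)

end Pool.Agent.P.MP_2b44f0_gt.PD
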