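import Pool.Agent.P.MP_2b44f0_gt.PD.If

/-! Step T1. -/

namespace Pool.Agent.P.MP_2b44f0_gt.PD

open MeasureTheory Set Filter Asymptotics
open scoped ENNReal RealInnerProductSpace Topology

namespace T1x

variable {ι : Type} [Fintype ι] {n : ℕ} {C U : Set (E ι)} {F : E ι → ℝ} {x : E ι}

theorem trT_lin (s t : ℝ) (M N : E ι →L[ℝ] E ι) :
    trT F x (s • M + t • N) = s * trT F x M + t * trT F x N := by
  simp only [trT, ← trL_apply, map_add, map_smul, add_apply,
    smul_apply, inner_add_left, real_inner_smul_left, smul_eq_mul]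
  ring

theorem trT_one {p : E ι} (hp : Tan F x p) : trT F x ((innerSL ℝ p).smulRight p) = ‖p‖ ^ 2 := by
  have h1 : ⟪p, x⟫ = 0 := by rw [real_inner_comm]; exact hp.1
  have h2 : ⟪p, normal F x⟫ = 0 := by rw [real_inner_comm]; exact hp.2
  have h3 : tr ((innerSL ℝ p).smulRight p) = ⟪p, p⟫ :=
    LinearMap.trace_smulRight (innerSL ℝ p).toLinearMap p
  simp [trT, h1, h2, h3]

theorem lip (h : St n C U F) {f : E ι → ℝ} (hf : ContDiffOn ℝ 1 f U) :
    ∃ L : ℝ, ∀ x ∈ lk C, ∀ y ∈ lk C, (f x - f y) ^ 2 ≤ L * ‖y - x‖ ^ 2 := by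
  obtain ⟨L, hL⟩ := LocallyLipschitzOn.exists_lipschitzOnWith_of_compact (f := f) h.compact
    fun x hx => by
      obtain ⟨K, t, ht, hK⟩ :=
        (hf.contDiffAt (h.chart.isOpen.mem_nhds (h.lk_sub hx))).exists_lipschitzOnWith
      exact ⟨K, t, mem_nhdsWithin_of_mem_nhds ht, hK⟩
  refine ⟨L ^ 2, fun x hx y hy => ?_⟩
  have := hL.dist_le_mul y hy x hx
  rw [dist_eq_norm, dist_eq_norm, Real.norm_eq_abs, abs_sub_comm] at this
  rw [← sq_abs, ← mul_pow]
  exact pow_le_pow_left₀ (abs_nonneg _) this 2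

theorem jet (h : St n C U F) {f : E ι → ℝ} (hf : ContDiffOn ℝ 1 f U) (hx : x ∈ lk C) {K : ℝ}
    (hK : ∀ y ∈ lk C, |⟪normal F x, y⟫| ≤ K * ‖y - x‖ ^ 2) {η : ℝ} (hη : 0 < η) :
    ∀ᶠ y in 𝓝[lk C] x, (f x - f y) ^ 2 ≤ ⟪prT F x (gradient f x), y - x⟫ ^ 2 + η * ‖y - x‖ ^ 2 := by
  set g := gradient f x
  set q := prT F x g
  have hd := ((hf.contDiffAt (h.chart.isOpen.mem_nhds (h.lk_sub hx))).differentiableAt
    one_ne_zero).hasGradientAt
  have h1 : (fun y => f y - f x - ⟪g, y - x⟫) =o[𝓝[lk C] x] fun y => y - x :=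
    (hasGradientAt_iff_isLittleO.1 hd).mono nhdsWithin_le_nhds
  have h2 : (fun y : E ι => ‖y - x‖ ^ 2) =o[𝓝[lk C] x] fun y => y - x :=
    (isLittleO_pow_sub_sub x one_lt_two).mono nhdsWithin_le_nhds
  have h3 : (fun y => ⟪g, y - x⟫ - ⟪q, y - x⟫) =O[𝓝[lk C] x] fun y => ‖y - x‖ ^ 2 := by
    refine IsBigO.of_bound (|⟪x, g⟫| / 2 + |⟪normal F x, g⟫| * K) ?_
    filter_upwards [self_mem_nhdsWithin] with y hy
    have e : ⟪g, y - x⟫ - ⟪q, y - x⟫ =
        ⟪x, g⟫ * (-(‖y - x‖ ^ 2 / 2)) + ⟪normal F x, g⟫ * ⟪normal F x, y⟫ := by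
      rw [lk_dist hx hy]
      simp only [q, prT, inner_sub_left, inner_sub_right, real_inner_smul_left, lk_inner hx,
        h.normal_self hx.1 (lk_ne hx)]
      ring
    rw [e, Real.norm_eq_abs, Real.norm_of_nonneg (sq_nonneg _)]
    refine (abs_add_le _ _).trans ?_
    rw [abs_mul, abs_mul, abs_neg, abs_of_nonneg (by positivity : 0 ≤ ‖y - x‖ ^ 2 / 2)]
    nlinarith [mul_le_mul_of_nonneg_left (hK y hy) (abs_nonneg ⟪normal F x, g⟫)]
  have h4 : (fun y => f y - f x - ⟪q, y - x⟫) =o[𝓝[lk C] x] fun y => ‖y - x‖ :=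
    ((h1.add (h3.trans_isLittleO h2)).congr_left fun y => by ring).norm_right
  have h5 : (fun y => ⟪q, y - x⟫) =O[𝓝[lk C] x] fun y => ‖y - x‖ :=
    IsBigO.of_bound ‖q‖ (.of_forall fun y => by simpa using abs_real_inner_le_norm q (y - x))
  filter_upwards [(h4.mul_isBigO (h4.isBigO.add (h5.const_mul_left 2))).bound hη] with y hy
  rw [Real.norm_eq_abs, Real.norm_of_nonneg (mul_self_nonneg _)] at hy
  nlinarith [le_abs_self ((f y - f x - ⟪q, y - x⟫) * (f y - f x - ⟪q, y - x⟫ + 2 * ⟪q, y - x⟫))]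

theorem cont (h : St n C U F) {f : E ι → ℝ} (hf : ContDiffOn ℝ 1 f U) : ContinuousOn
    (fun x => ‖prT F x (gradient f x)‖ ^ 2 + (sqCurv F x - n) * f x ^ 2) (lk C) := by
  have h1 : ContinuousOn (gradient f) U :=
    (InnerProductSpace.toDual ℝ (E ι)).symm.continuous.comp_continuousOn
      (hf.continuousOn_fderiv_of_isOpen h.chart.isOpen le_rfl)
  have h2 := h.sm_normal.continuousOn
  have h3 := h.sm_sqCurv.continuousOn
  have h4 := hf.continuousOn
  refine ContinuousOn.mono ?_ h.lk_sub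
  unfold prT
  fun_prop

end T1x

open T1x in
theorem c_T1 (hGEO : Q_GEO) (hMAX : Q_MAX) (hCOMP : Q_COMP) (hSIG : Q_SIG) (hFIN : Q_FIN) (hKER : Q_KER) :
    Q_T1 := by
  intro ι _ n C U F h f hf
  obtain ⟨K0, -, hK0⟩ := hGEO ι n C U F h
  obtain ⟨a, b, ha, hab, hS⟩ := hSIG ι n C U F h
  obtain ⟨-, -, -, hI⟩ := hFIN ι n C U F h
  obtain ⟨L, hL⟩ := lip h hf
  have hc : ContinuousOn f (lk C) := hf.continuousOn.mono h.lk_sub
  obtain ⟨m, hm⟩ := h.compact.exists_bound_of_continuousOn (hc.pow 2)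
  have i1 := hI _ (cont h hf)
  have i2 := hI (fun x => 2 * (K0 + n + 1) / a * f x ^ 2) ((hc.pow 2).const_mul _)
  have key : ∀ η : ℝ, 0 < η →
      0 ≤ 2 * (∫ x, (‖prT F x (gradient f x)‖ ^ 2 + (sqCurv F x - n) * f x ^ 2) ∂lm n C) +
        η * ∫ x, 2 * (K0 + n + 1) / a * f x ^ 2 ∂lm n C := fun η hη => by
    obtain ⟨ε, hε, hS⟩ := hS η hη
    obtain ⟨s1, s2, K, s3⟩ := hS ε hε le_rfl
    set σ := sig C F ε
    obtain ⟨c1, c2⟩ := hCOMP ι C σ (fun t => -(t + η)⁻¹) (fun t => ((t + η) ^ 2)⁻¹)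
      (fun t => -2 * ((t + η) ^ 3)⁻¹) a b hab (fun t ht => by
        have : t + η ≠ 0 := by nlinarith [ht.1]
        have h1 := ((hasDerivAt_id t).add_const η)
        refine ⟨(h1.inv this).neg.congr_deriv ?_, ((h1.pow 2).inv (pow_ne_zero 2 this)).congr_deriv ?_,
          by positivity⟩
        · simp only [id]
          field_simp
        · simp only [id, Pi.pow_apply]
          field_simp
          ring)
      (continuousOn_const.mul (ContinuousOn.inv₀ (by fun_prop) fun t ht =>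
        pow_ne_zero 3 (by nlinarith [ht.1]))) ha s2
    obtain ⟨K', c2⟩ := c2 K
    have hp : ∀ x ∈ lk C, 0 < σ x + η := fun x hx => by linarith [(s2 x hx).1]
    have hy : ∀ x ∈ lk C, ∃ y y', IsMx C F ε x y ∧ IsMx C (-F) ε x y' ∧
        Tan F x (pv F ε x y + pv (-F) ε x y') := fun x hx => by
      obtain ⟨y, hy⟩ := (hMAX ι n C U F h ε hε x hx).1
      obtain ⟨y', hy'⟩ := (hMAX ι n C U _ h.neg ε hε x hx).1
      exact ⟨y, y', hy, hy', (h.tan_pv hx ε y).add ((tan_neg _ _ _).1 (h.neg.tan_pv hx ε y'))⟩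
    rw [← integral_const_mul, ← integral_const_mul η, ← integral_add (i1.const_mul _) (i2.const_mul _)]
    refine hKER ι n C U F h
      (fun x y => (f x - f y) ^ 2 - 2 * f x ^ 2 * (σ x + η) * (-(σ y + η)⁻¹ - -(σ x + η)⁻¹)) _
      (|L| + 2 * m * (b + η) * K') ?_ (fun x hx y hy => ?_)
      ((i1.const_mul _).add (i2.const_mul _)) (fun x hx => ?_) fun x hx => ?_
    · have f1 := hc.comp continuousOn_fst fun q (hq : q ∈ lk C ×ˢ lk C) => hq.1
      have f2 := hc.comp continuousOn_snd fun q (hq : q ∈ lk C ×ˢ lk C) => hq.2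
      have g1 := (s1.comp continuousOn_fst fun q (hq : q ∈ lk C ×ˢ lk C) => hq.1).add_const η
      have g2 := (s1.comp continuousOn_snd fun q (hq : q ∈ lk C ×ˢ lk C) => hq.2).add_const η
      exact ((f1.sub f2).pow 2).sub (((continuousOn_const.mul (f1.pow 2)).mul g1).mul
        ((g2.inv₀ fun q hq => (hp _ hq.2).ne').neg.sub (g1.inv₀ fun q hq => (hp _ hq.1).ne').neg))
    · have h1 := hp x hx
      have h2 := hp y hy
      refine le_of_le_of_eq (b := 2 * (f x * (σ x + η) - f y * (σ y + η)) ^ 2 /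
        ((σ x + η) * (σ y + η))) (by positivity) ?_
      field_simp
      ring
    · obtain ⟨y, y', h1, h2, h3⟩ := hy x hx
      obtain ⟨t1, t2, -⟩ := s3 x hx y y' h1 h2
      obtain ⟨d1, d2⟩ := c2 x hx _ t1 t2
      have e0 : 0 ≤ 2 * f x ^ 2 * (σ x + η) := by have := hp x hx; positivity
      have e1 : 2 * f x ^ 2 * (σ x + η) * K' ≤ 2 * m * (b + η) * K' := by
        have h4 : f x ^ 2 ≤ m := (le_abs_self _).trans (hm x hx)
        have h5 := (norm_nonneg _).trans d1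
        have h6 := (s2 x hx).2
        have h7 := (hp x hx).le
        have h8 := (sq_nonneg _).trans h4
        gcongr
      refine ⟨_, (h3.smul ((σ x + η) ^ 2)⁻¹).smul (-(2 * f x ^ 2 * (σ x + η))), ?_, fun z hz => ?_⟩
      · rw [norm_smul, norm_neg, Real.norm_of_nonneg e0]
        linarith [mul_le_mul_of_nonneg_left d1 e0, abs_nonneg L]
      · rw [real_inner_smul_left]
        nlinarith [mul_le_mul_of_nonneg_left (d2 z hz) e0, hL x hx z hz,
          mul_le_mul_of_nonneg_right e1 (sq_nonneg ‖z - x‖),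
          mul_le_mul_of_nonneg_right (le_abs_self L) (sq_nonneg ‖z - x‖)]
    · obtain ⟨y, y', h1, h2, h3⟩ := hy x hx
      obtain ⟨-, -, M, t1, t2⟩ := s3 x hx y y' h1 h2
      have d := c1 x hx _ _ t1
      have hA := hp x hx
      have e0 : 0 ≤ 2 * f x ^ 2 * (σ x + η) := by positivity
      have hq := h.tan_prT hx (gradient f x)
      set p := pv F ε x y + pv (-F) ε x y'
      set q := prT F x (gradient f x)
      refine ⟨_, (2 : ℝ) • (innerSL ℝ q).smulRight q + (-(2 * f x ^ 2 * (σ x + η))) •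
        (((σ x + η) ^ 2)⁻¹ • M + (-2 * ((σ x + η) ^ 3)⁻¹) • (innerSL ℝ p).smulRight p),
        (h3.smul ((σ x + η) ^ 2)⁻¹).smul (-(2 * f x ^ 2 * (σ x + η))), fun θ hθ => ?_, ?_⟩
      · have hθ' : 0 < θ / (1 + 2 * f x ^ 2 * (σ x + η)) := by positivity
        filter_upwards [d _ hθ', jet h hf hx (fun y hy => ((hK0 x hx).2.2 y hy).2.2.1) hθ'] with z z1 z2
        have e : θ = θ / (1 + 2 * f x ^ 2 * (σ x + η)) * (1 + 2 * f x ^ 2 * (σ x + η)) := by
          field_simp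
        generalize θ / (1 + 2 * f x ^ 2 * (σ x + η)) = t at e z1 z2
        generalize ((σ x + η) ^ 2)⁻¹ • M + _ = N at z1 ⊢
        generalize ((σ x + η) ^ 2)⁻¹ • p = w at z1 ⊢
        simp only [add_apply, smul_apply, inner_add_left, real_inner_smul_left,
          ContinuousLinearMap.smulRight_apply, innerSL_apply_apply, e]
        nlinarith [mul_le_mul_of_nonneg_left z1 e0]
      · rw [trT_lin, trT_lin, trT_one hq, trT_one h3]
        have h4 := (abs_le.1 (hK0 x hx).2.1).1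
        have h5 := (abs_le.1 (hK0 x hx).2.1).2
        have h6 : (1 + n - sqCurv F x) / (σ x + η) ≤ (K0 + n + 1) / a :=
          div_le_div₀ (by have : (0 : ℝ) ≤ n := n.cast_nonneg; linarith) (by linarith) ha
            (by linarith [(s2 x hx).1])
        have h7 := mul_le_mul_of_nonneg_left t2 (by positivity : 0 ≤ 2 * f x ^ 2 / (σ x + η))
        have h8 := mul_le_mul_of_nonneg_left h6 (by positivity : 0 ≤ 2 * f x ^ 2 * η)
        set T := trT F x M
        set P := ‖p‖ ^ 2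
        have e1 : -(2 * f x ^ 2 * (σ x + η)) * (((σ x + η) ^ 2)⁻¹ * T + -2 * ((σ x + η) ^ 3)⁻¹ * P) =
            2 * f x ^ 2 / (σ x + η) * ((n - sqCurv F x) * σ x - η + 2 * P / (σ x + η)) -
              2 * f x ^ 2 / (σ x + η) * T + 2 * (sqCurv F x - n) * f x ^ 2 +
              2 * f x ^ 2 * η * ((1 + n - sqCurv F x) / (σ x + η)) := by
          field_simp
          ring
        have e2 : η * (2 * (K0 + n + 1) / a * f x ^ 2) = 2 * f x ^ 2 * η * ((K0 + n + 1) / a) := by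
          ring
        rw [e1, e2]
        linarith
  have := ge_of_tendsto (x := 𝓝[>] (0 : ℝ)) (((continuous_const.add (continuous_id.mul
    continuous_const)).tendsto 0).mono_left nhdsWithin_le_nhds) (eventually_nhdsWithin_of_forall key)
  simpa using this

end Pool.Agent.P.MP_2b44f0_gt.PD
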