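import Pool.Agent.P.MP_2b44f0_gt.PD.If

/-! Step TR2. -/

namespace Pool.Agent.P.MP_2b44f0_gt.PD

open MeasureTheory Set Filter Asymptotics
open scoped ENNReal RealInnerProductSpace Topology

namespace TR2x

variable {ι : Type} [Fintype ι]

theorem alg {n : ℕ} {x ν : E ι} {e : Fin n → E ι} {N S : E ι →L[ℝ] E ι}
    {T : E ι →L[ℝ] E ι →L[ℝ] E ι}
    (hexp : ∀ v, v = ⟪x, v⟫ • x + ⟪ν, v⟫ • ν + ∑ i, ⟪e i, v⟫ • e i)
    (htr : ∀ M : E ι →L[ℝ] E ι, tr M - ⟪M x, x⟫ - ⟪M ν, ν⟫ = ∑ i, ⟪M (e i), e i⟫)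
    (hx : ⟪ν, x⟫ = 0) (he : ∀ i, ⟪ν, e i⟫ = 0) (hS : ∀ v, ⟪ν, v⟫ = 0 → N v = S v)
    (hsy : ∀ v w, ⟪S v, w⟫ = ⟪v, S w⟫) (hSx : S x = 0) (hSν : S ν = 0) (htS : tr S = 0)
    (hT : ∀ v w, T v w = T w v) (hA : ∀ v w, ⟪ν, T v w⟫ = -⟪N v, N w⟫)
    (hB : ∀ u v w, ⟪ν, v⟫ = 0 → ⟪ν, w⟫ = 0 →
      ⟪T u v, w⟫ - ⟪N u, v⟫ * ⟪N ν, w⟫ = ⟪v, T u w⟫ - ⟪N u, w⟫ * ⟪v, N ν⟫)
    (hC : ∀ u, ⟪ν, u⟫ = 0 → tr (T u) = 0) (hxx : T x x = 0) :
    ∑ i, T (e i) (e i) = -tr (S.comp S) • ν := by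
  have hNx : N x = 0 := by rw [hS x hx, hSx]
  have hNe : ∀ i, N (e i) = S (e i) := fun i => hS _ (he i)
  have h0 : ∑ i, ⟪S (e i), e i⟫ = 0 := by
    rw [← htr, htS, hSx, hSν]; simp
  have key : ∀ w, ⟪ν, w⟫ = 0 → ⟪w, ∑ i, T (e i) (e i)⟫ = 0 := by
    intro w hw
    have h1 := htr (T w)
    have h2 := hB x x w hx hw
    rw [hxx, hNx, hT x w] at h2
    simp only [inner_zero_left, zero_mul, sub_zero] at h2
    rw [hC w hw, real_inner_comm x, ← h2, real_inner_comm ν, hA, hS w hw] at h1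
    have h3 : ⟪S w, N ν⟫ = ∑ i, ⟪S (e i), w⟫ * ⟪e i, N ν⟫ := by
      have h4 := congrArg (fun z => ⟪z, N ν⟫) (hexp (S w))
      simp only [inner_add_left, real_inner_smul_left, sum_inner, ← hsy, hSx, hSν,
        inner_zero_left, zero_mul, zero_add] at h4
      exact h4
    have h5 : ∀ i, ⟪w, T (e i) (e i)⟫ = ⟪T w (e i), e i⟫ + ⟪S (e i), e i⟫ * ⟪N ν, w⟫ -
        ⟪S (e i), w⟫ * ⟪e i, N ν⟫ := by
      intro i
      have h6 := hB (e i) (e i) w (he i) hw
      rw [hNe, hT (e i) w, real_inner_comm (T w (e i))] at h6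
      rw [real_inner_comm]
      linarith
    rw [inner_sum]
    simp only [h5, Finset.sum_sub_distrib, Finset.sum_add_distrib, ← Finset.sum_mul, h0, ← h3,
      ← h1]
    ring
  have h7 : ⟪ν, ∑ i, T (e i) (e i)⟫ = -tr (S.comp S) := by
    have h8 := htr (S.comp S)
    simp only [ContinuousLinearMap.comp_apply, hSx, hSν, map_zero, inner_zero_left,
      sub_zero] at h8
    rw [h8, inner_sum, ← Finset.sum_neg_distrib]
    refine Finset.sum_congr rfl fun i _ => ?_
    rw [hA, hNe, hsy (S (e i))]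
  rw [hexp (∑ i, T (e i) (e i)), key x hx, h7]
  simp [key _ (he _)]

end TR2x

theorem c_TR2 (hFRAME : Q_FRAME) (hHOM : Q_HOM) :
    Q_TR2 := by
  intro ι _ n C U F h x hx e he
  have hU := h.lk_sub hx
  have hO := h.chart.isOpen
  have hmem := hO.mem_nhds hU
  have hxν := h.normal_self hx.1 (lk_ne hx)
  obtain ⟨hexp, htr⟩ := (hFRAME ι n x (normal F x) h.card (lk_norm hx) (h.norm_normal hU)
    hxν).1 e he
  have hN : ContDiffOn ℝ (⊤ : ℕ∞) (fderiv ℝ (normal F)) U :=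
    h.sm_normal.fderiv_of_isOpen hO (by simp)
  have d1 : HasFDerivAt (normal F) (fderiv ℝ (normal F) x) x :=
    ((h.sm_normal.contDiffAt hmem).differentiableAt (by simp)).hasFDerivAt
  have d2 : HasFDerivAt (fderiv ℝ (normal F)) (fderiv ℝ (fderiv ℝ (normal F)) x) x :=
    ((hN.contDiffAt hmem).differentiableAt (by simp)).hasFDerivAt
  have d3 : ∀ w, HasFDerivAt (fun y => fderiv ℝ (normal F) y w)
      ((fderiv ℝ (fderiv ℝ (normal F)) x).flip w) x := fun w =>
    (d2.clm_apply (hasFDerivAt_const w x)).congr_fderiv (by simp)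
  have d4 : DifferentiableAt ℝ (fun y => fderiv ℝ (normal F) y (normal F y)) x :=
    d2.differentiableAt.clm_apply d1.differentiableAt
  have horth : ∀ y ∈ U, ∀ v, ⟪normal F y, fderiv ℝ (normal F) y v⟫ = 0 := fun y hy v =>
    Shape.orth h.chart hy v
  have hsh : ∀ y v, shape F y v = fderiv ℝ (normal F) y v -
      ⟪normal F y, v⟫ • fderiv ℝ (normal F) y (normal F y) := fun y v => by
    simp [shape, tangentProj]
  have hS : ∀ y v, ⟪normal F y, v⟫ = 0 → fderiv ℝ (normal F) y v = shape F y v := fun y v hv => by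
    rw [hsh, hv, zero_smul, sub_zero]
  refine TR2x.alg hexp htr hxν he.pn (hS x) (h.symm hU) (h.shape_self hx.1 (lk_ne hx))
    (h.shape_normal hU) (h.tr_shape hx.1 (lk_ne hx)) ?_ ?_ ?_ ?_ ?_
  · exact fun v w => ((h.sm_normal.contDiffAt hmem).isSymmSndFDerivAt (by
      rw [minSmoothness_of_isRCLikeNormedField]; exact WithTop.coe_le_coe.2 le_top)).eq v w
  · intro v w
    have a1 := d1.inner ℝ (d3 w)
    have a2 : (fun y => ⟪normal F y, fderiv ℝ (normal F) y w⟫) =ᶠ[𝓝 x] fun _ => (0 : ℝ) :=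
      (hO.eventually_mem hU).mono fun y hy => horth y hy w
    have a3 := DFunLike.congr_fun
      (a1.unique ((hasFDerivAt_const (0 : ℝ) x).congr_of_eventuallyEq a2)) v
    simp [fderivInnerCLM_apply] at a3
    linarith
  · intro u v w hv hw
    have a1 := ((d3 v).inner ℝ (hasFDerivAt_const w x)).sub
      ((d1.inner ℝ (hasFDerivAt_const v x)).mul (d4.hasFDerivAt.inner ℝ (hasFDerivAt_const w x)))
    have a2 := ((hasFDerivAt_const v x).inner ℝ (d3 w)).sub
      ((d1.inner ℝ (hasFDerivAt_const w x)).mul ((hasFDerivAt_const v x).inner ℝ d4.hasFDerivAt))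
    have a3 := DFunLike.congr_fun (a1.unique (a2.congr_of_eventuallyEq
      ((hO.eventually_mem hU).mono fun y hy => by
        have := h.symm hy v w
        simpa [hsh, inner_sub_left, inner_sub_right, real_inner_smul_left,
          real_inner_smul_right] using this))) u
    simp [fderivInnerCLM_apply, hv, hw] at a3
    linarith
  · intro u hu
    have c1 : IsChart C (U \ {0}) F := ⟨hO.sdiff isClosed_singleton,
      h.chart.smooth.mono sdiff_subset, fun y hy => h.chart.grad_ne y hy.1,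
      fun y hy => h.chart.zero_set y hy.1⟩
    have c2 : Simons.Sm (U \ {0}) fun y => trL (fderiv ℝ (normal F) y) :=
      (trL (ι := ι)).contDiff.comp_contDiffOn (hN.mono sdiff_subset)
    have c3 := Simons.tangent (all_curve all_shape) c1 c2 (fun z hz => by
      have b1 : fderiv ℝ (normal F) z = shape F z + (innerSL ℝ (normal F z)).smulRight
          (fderiv ℝ (normal F) z (normal F z)) := by
        ext1 v; simp [hsh]
      have b2 := horth z hz.1.1 (normal F z)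
      rw [b1, map_add, trL_apply, h.tr_shape hz.2 hz.1.2, trL_apply, zero_add, tr,
        show ((innerSL ℝ (normal F z)).smulRight
          (fderiv ℝ (normal F) z (normal F z))).toLinearMap = (innerₛₗ ℝ (normal F z)).smulRight
          (fderiv ℝ (normal F) z (normal F z)) from rfl, LinearMap.trace_smulRight]
      simpa using b2) (z := x) ⟨⟨hU, lk_ne hx⟩, hx.1⟩ hu
    have c4 := ((trL (ι := ι)).hasFDerivAt.comp x d2).fderiv
    rw [Function.comp_def] at c4
    rw [c4] at c3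
    exact c3
  · have l1 : HasDerivAt (fun t : ℝ => t • x) x 1 := by
      simpa using (hasDerivAt_id (1 : ℝ)).smul_const x
    have l2 := HasFDerivAt.comp_hasDerivAt_of_eq (1 : ℝ) (d3 x) l1 (by simp)
    have l3 : HasDerivAt ((fun y => fderiv ℝ (normal F) y x) ∘ fun t : ℝ => t • x) 0 1 := by
      refine (hasDerivAt_const (1 : ℝ) (0 : E ι)).congr_of_eventuallyEq ?_
      filter_upwards [lt_mem_nhds (zero_lt_one' ℝ)] with t ht
      have m1 := h.cone x hx.1 t ht
      have m2 : t • x ≠ 0 := smul_ne_zero ht.ne' (lk_ne hx)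
      have m3 := hS _ _ (h.normal_self m1 m2)
      rw [h.shape_self m1 m2, map_smul, smul_eq_zero_iff_right ht.ne'] at m3
      exact m3
    exact l2.unique l3

end Pool.Agent.P.MP_2b44f0_gt.PD
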