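import Pool.Agent.P.MP_2b44f0_gt.PD.IfV

/-! Step TYP. -/

namespace Pool.Agent.P.MP_2b44f0_gt.PD

open MeasureTheory Set

namespace TYPx

variable {α : Type} {μ : α → ℝ} {s : Finset α} {a b u v : ℝ} {i j p q : ℕ}

/-- the values on `s` are `a, b, u, v` with multiplicities `i, j, p, q` -/
def R (μ : α → ℝ) (s : Finset α) (a b : ℝ) (i j p q : ℕ) (u v : ℝ) : Prop :=
  i + j + p + q = s.card ∧ u ∈ Icc a b ∧ v ∈ Icc a b ∧ ∀ f : ℝ → ℝ,
    ∑ x ∈ s, f (μ x) = i * f a + j * f b + p * f u + q * f v ∧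
      ∏ x ∈ s, f (μ x) = f a ^ i * f b ^ j * f u ^ p * f v ^ q

theorem ex (hu : u ∈ Icc a b) (hv : v ∈ Icc a b)
    (h : ∀ x, μ x = a ∨ μ x = b ∨ μ x = u ∨ μ x = v) (s : Finset α) :
    ∃ i j p q, R μ s a b i j p q u v := by
  classical
  induction s using Finset.induction_on with
  | empty => exact ⟨0, 0, 0, 0, by simp, hu, hv, by simp⟩
  | insert x s hx ih =>
    obtain ⟨i, j, p, q, h1, -, -, h2⟩ := ih
    have key : ∀ i' j' p' q' : ℕ, i' + j' + p' + q' = 1 → (∀ f : ℝ → ℝ,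
        f (μ x) = i' * f a + j' * f b + p' * f u + q' * f v ∧
          f (μ x) = f a ^ i' * f b ^ j' * f u ^ p' * f v ^ q') →
        R μ (insert x s) a b (i + i') (j + j') (p + p') (q + q') u v := fun i' j' p' q' e H => by
      refine ⟨by rw [Finset.card_insert_of_notMem hx]; omega, hu, hv, fun f => ⟨?_, ?_⟩⟩
      · rw [Finset.sum_insert hx, (h2 f).1, (H f).1]; push_cast; ring
      · rw [Finset.prod_insert hx, (h2 f).2, (H f).2]; ring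
    rcases h x with e | e | e | e
    · exact ⟨_, _, _, _, key 1 0 0 0 rfl fun f => by simp [e]⟩
    · exact ⟨_, _, _, _, key 0 1 0 0 rfl fun f => by simp [e]⟩
    · exact ⟨_, _, _, _, key 0 0 1 0 rfl fun f => by simp [e]⟩
    · exact ⟨_, _, _, _, key 0 0 0 1 rfl fun f => by simp [e]⟩

theorem R.swap (h : R μ s a b i j p q u v) : R μ s a b i j q p v u :=
  ⟨by have := h.1; omega, h.2.2.1, h.2.1, fun f =>
    ⟨by rw [(h.2.2.2 f).1]; ring, by rw [(h.2.2.2 f).2]; ring⟩⟩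

theorem R.pos (h : R μ s a b i j p q u v) (hs : 2 ≤ s.card) :
    ∃ i' j' p' q' v', R μ s a b i' j' p' q' u v' ∧ 1 ≤ q' ∧ (1 ≤ p → 1 ≤ p') := by
  obtain ⟨h1, hu, hv, h2⟩ := h
  have hab := hu.1.trans hu.2
  rcases q with _ | q
  swap
  · exact ⟨i, j, p, q + 1, v, ⟨h1, hu, hv, h2⟩, by omega, id⟩
  rcases i with _ | i
  swap
  · exact ⟨i, j, p, 1, a, ⟨by omega, hu, ⟨le_rfl, hab⟩, fun f =>
      ⟨by rw [(h2 f).1]; push_cast; ring, by rw [(h2 f).2]; ring⟩⟩, le_rfl, id⟩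
  rcases j with _ | j
  swap
  · exact ⟨0, j, p, 1, b, ⟨by omega, hu, ⟨hab, le_rfl⟩, fun f =>
      ⟨by rw [(h2 f).1]; push_cast; ring, by rw [(h2 f).2]; ring⟩⟩, le_rfl, id⟩
  obtain ⟨p, rfl⟩ : ∃ r, p = r + 1 := ⟨p - 1, by omega⟩
  exact ⟨0, 0, p, 1, u, ⟨by omega, hu, hu, fun f =>
    ⟨by rw [(h2 f).1]; push_cast; ring, by rw [(h2 f).2]; ring⟩⟩, le_rfl, fun _ => by omega⟩

theorem mem (h : i + j + p + q = 6) (h1 : 1 ≤ q) (h2 : q ≤ p) : (i, j, p, q) ∈ types := by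
  obtain rfl : i = 6 - j - p - q := by omega
  have h3 : q ≤ 3 := by omega
  have h4 : p ≤ 5 := by omega
  have h5 : j ≤ 4 := by omega
  interval_cases q <;> interval_cases p <;> interval_cases j <;> first | decide | omega

end TYPx

open TYPx in
theorem c_TYP (hRED : Q_RED) :
    Q_TYP := by
  intro k k' μ hμ
  obtain ⟨μ', -, e1, e2, e3, u, hu, v, hv, h⟩ :=
    hRED 3 k k' (-k) k' μ ((hμ 0).1.trans (hμ 0).2) hμ
  have hc : (Finset.univ : Finset (Fin (2 * 3))).card = 6 := by simp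
  have fin : ∀ i j p q u v, R μ' Finset.univ (-k) k' i j p q u v → 1 ≤ q → q ≤ p →
      ∃ t ∈ types, ∃ u ∈ Icc (-k) k', ∃ v ∈ Icc (-k) k',
        t.1 * (-k) + t.2.1 * k' + t.2.2.1 * u + t.2.2.2 * v = ∑ i, μ i ∧
        t.1 * k ^ 2 + t.2.1 * k' ^ 2 + t.2.2.1 * u ^ 2 + t.2.2.2 * v ^ 2 = ∑ i, μ i ^ 2 ∧
        vol 3 μ k k' ≤ volT t k k' u v := by
    rintro i j p q u v ⟨h1, hu, hv, h2⟩ a1 a2
    refine ⟨(i, j, p, q), mem (h1.trans hc) a1 a2, u, hu, v, hv, ?_, ?_, e3.trans_eq ?_⟩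
    · rw [← e1]; exact (h2 fun x => x).1.symm
    · rw [← e2, (h2 fun x => x ^ 2).1, neg_sq]
    · simp only [vol, volT, fun ξ : ℝ => (h2 fun x => 1 + ξ * x).2, mul_neg, sub_eq_add_neg]
  obtain ⟨i, j, p, q, h1⟩ := ex hu hv h Finset.univ
  obtain ⟨i, j, p, q, v, h1, a1, -⟩ := h1.pos (by omega)
  obtain ⟨i, j, q', p, u, h1, a2, a3⟩ := h1.swap.pos (by omega)
  rcases le_total p q' with c | c
  · exact fin _ _ _ _ _ _ h1 a2 c
  · exact fin _ _ _ _ _ _ h1.swap (a3 a1) c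

end Pool.Agent.P.MP_2b44f0_gt.PD
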