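import Pool.Agent.P.MP_2b44f0_gt.PD.IfK

/-! Step VBOX. -/

namespace Pool.Agent.P.MP_2b44f0_gt.PD

open MeasureTheory Set

namespace VBOXx

lemma fac {T ξ μ : ℝ} (n : ℕ) (hT : 0 ≤ T) (hξ : T ≤ ξ) (h1 : 0 ≤ 1 + T * μ)
    (h2 : 0 ≤ 1 + ξ * μ) :
    (1 + ξ * μ) ^ n ≤ (1 + T * μ) ^ n * Real.exp (n * ((ξ - T) * μ)) := by
  rw [Real.exp_nat_mul, ← mul_pow]
  refine pow_le_pow_left₀ h2 ?_ n
  have h3 := Real.add_one_le_exp ((ξ - T) * μ)
  have h4 : 0 ≤ T * (ξ - T) * μ ^ 2 := by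
    have : 0 ≤ ξ - T := sub_nonneg.2 hξ
    positivity
  calc 1 + ξ * μ ≤ (1 + T * μ) * ((ξ - T) * μ + 1) := by nlinarith
    _ ≤ _ := mul_le_mul_of_nonneg_left h3 h1

lemma base {k ξ μ : ℝ} (hk : 0 < k) (hμ : -k ≤ μ) (h0 : 0 ≤ ξ) (h1 : ξ ≤ k⁻¹) :
    0 ≤ 1 + ξ * μ := by
  have h2 : ξ * k ≤ 1 := by
    calc ξ * k ≤ k⁻¹ * k := mul_le_mul_of_nonneg_right h1 hk.le
      _ = 1 := inv_mul_cancel₀ hk.ne'
  nlinarith [mul_le_mul_of_nonneg_left hμ h0]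

lemma cont (j : ℕ) : Continuous fun ξ : ℝ => ξ ^ j / (1 + ξ ^ 2) ^ 4 :=
  Continuous.div (by fun_prop) (by fun_prop) fun ξ => by positivity

lemma diff (hM : Q_MOMJ) {k b : ℝ} (hk : 0 < k) (hb : 0 < b) :
    ∫ ξ in b⁻¹..k⁻¹, ξ ^ 0 / (1 + ξ ^ 2) ^ 4 = mJ 0 k - mJ 0 b := by
  rw [← hM 0 (by omega) k hk, ← hM 0 (by omega) b hb]
  exact (intervalIntegral.integral_interval_sub_left ((cont 0).intervalIntegrable _ _)
    ((cont 0).intervalIntegrable _ _)).symm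

lemma anti_pos (hM : Q_MOMJ) {a k : ℝ} (ha : 0 < a) (hk : a ≤ k) : mJ 0 k ≤ mJ 0 a := by
  have h := diff hM ha (ha.trans_le hk)
  have h2 : 0 ≤ ∫ ξ in k⁻¹..a⁻¹, ξ ^ 0 / (1 + ξ ^ 2) ^ 4 :=
    intervalIntegral.integral_nonneg (inv_anti₀ ha hk) fun ξ _ => by positivity
  linarith

lemma anti (hM : Q_MOMJ) {a k : ℝ} (ha : 0 ≤ a) (hk : a ≤ k) (hk0 : 0 < k) :
    mJ 0 k ≤ mJ 0 a := by
  rcases ha.eq_or_lt with rfl | ha
  · have hc : Continuous (mJ 0) := by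
      unfold mJ act
      simp only [mA, mR]
      refine Continuous.div_const (Continuous.add ?_ ?_) _
      · exact continuous_const.mul (continuous_const.sub Real.continuous_arctan)
      · exact Continuous.div (by fun_prop) (by fun_prop) fun ξ => by positivity
    have ht : Filter.Tendsto (mJ 0) (nhdsWithin 0 (Ioi 0)) (nhds (mJ 0 0)) :=
      (hc.tendsto 0).mono_left nhdsWithin_le_nhds
    refine ge_of_tendsto ht ?_
    filter_upwards [Ioo_mem_nhdsGT hk0] with x hx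
    exact anti_pos hM hx.1 hx.2.le
  · exact anti_pos hM ha hk

lemma side (hM : Q_MOMJ) (n1 n2 n3 n4 : ℕ) {k a b m1 m2 m3 m4 : ℝ} (e : ℕ → ℝ) (hk : 0 < k)
    (h1 : -k ≤ m1) (h2 : -k ≤ m2) (h3 : -k ≤ m3) (h4 : -k ≤ m4)
    (hs : n1 * m1 + n2 * m2 + n3 * m3 + n4 * m4 = 0) (ha : 0 ≤ a) (hak : a ≤ k) (hkb : k ≤ b)
    (hP : ∀ ξ : ℝ, (1 + ξ * m1) ^ n1 * (1 + ξ * m2) ^ n2 * (1 + ξ * m3) ^ n3 *
      (1 + ξ * m4) ^ n4 = ∑ j ∈ Finset.range 7, e j * ξ ^ j) :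
    ∫ ξ in (0 : ℝ)..k⁻¹, (∑ j ∈ Finset.range 7, e j * ξ ^ j) / (1 + ξ ^ 2) ^ 4 ≤
      ∑ j ∈ Finset.range 7, e j * mC j a b := by
  have hb : 0 < b := hk.trans_le hkb
  have hT : (0 : ℝ) ≤ b⁻¹ := by positivity
  have hTk : b⁻¹ ≤ k⁻¹ := inv_anti₀ hk hkb
  set P : ℝ → ℝ := fun ξ => ∑ j ∈ Finset.range 7, e j * ξ ^ j with hPdef
  have hc : Continuous fun ξ : ℝ => P ξ / (1 + ξ ^ 2) ^ 4 :=
    Continuous.div (by simp only [hPdef]; fun_prop) (by fun_prop) fun ξ => by positivity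
  have b1 := base hk h1 hT hTk
  have b2 := base hk h2 hT hTk
  have b3 := base hk h3 hT hTk
  have b4 := base hk h4 hT hTk
  have hP0 : 0 ≤ P b⁻¹ := by
    simp only [hPdef]; rw [← hP]; positivity
  have hmono : ∀ ξ ∈ Icc b⁻¹ k⁻¹, P ξ ≤ P b⁻¹ := by
    intro ξ hξ
    have hξ0 : 0 ≤ ξ := hT.trans hξ.1
    have c1 := base hk h1 hξ0 hξ.2
    have c2 := base hk h2 hξ0 hξ.2
    have c3 := base hk h3 hξ0 hξ.2
    have c4 := base hk h4 hξ0 hξ.2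
    simp only [hPdef]
    rw [← hP, ← hP]
    have f1 := fac n1 hT hξ.1 b1 c1
    have f2 := fac n2 hT hξ.1 b2 c2
    have f3 := fac n3 hT hξ.1 b3 c3
    have f4 := fac n4 hT hξ.1 b4 c4
    have hE : Real.exp (n1 * ((ξ - b⁻¹) * m1)) * Real.exp (n2 * ((ξ - b⁻¹) * m2)) *
        Real.exp (n3 * ((ξ - b⁻¹) * m3)) * Real.exp (n4 * ((ξ - b⁻¹) * m4)) = 1 := by
      rw [← Real.exp_add, ← Real.exp_add, ← Real.exp_add, ← Real.exp_zero]
      congr 1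
      linear_combination (ξ - b⁻¹) * hs
    calc _ ≤ ((1 + b⁻¹ * m1) ^ n1 * Real.exp (n1 * ((ξ - b⁻¹) * m1))) *
          ((1 + b⁻¹ * m2) ^ n2 * Real.exp (n2 * ((ξ - b⁻¹) * m2))) *
          ((1 + b⁻¹ * m3) ^ n3 * Real.exp (n3 * ((ξ - b⁻¹) * m3))) *
          ((1 + b⁻¹ * m4) ^ n4 * Real.exp (n4 * ((ξ - b⁻¹) * m4))) := by gcongr
      _ = _ := by
        linear_combination ((1 + b⁻¹ * m1) ^ n1 * (1 + b⁻¹ * m2) ^ n2 * (1 + b⁻¹ * m3) ^ n3 *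
          (1 + b⁻¹ * m4) ^ n4) * hE
  have s1 : ∫ ξ in (0 : ℝ)..b⁻¹, P ξ / (1 + ξ ^ 2) ^ 4 =
      ∑ j ∈ Finset.range 7, e j * mJ j b := by
    simp only [hPdef, Finset.sum_div, mul_div_assoc]
    rw [intervalIntegral.integral_finsetSum
      (f := fun j ξ => e j * (ξ ^ j / (1 + ξ ^ 2) ^ 4)) fun j _ =>
      (continuous_const.mul (cont j)).intervalIntegrable _ _]
    refine Finset.sum_congr rfl fun j hj => ?_
    rw [intervalIntegral.integral_const_mul, hM j (by have := Finset.mem_range.1 hj; omega) b hb]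
  have s2 : ∫ ξ in b⁻¹..k⁻¹, P ξ / (1 + ξ ^ 2) ^ 4 ≤ P b⁻¹ * (mJ 0 k - mJ 0 b) := by
    rw [← diff hM hk hb, ← intervalIntegral.integral_const_mul]
    refine intervalIntegral.integral_mono_on hTk (hc.intervalIntegrable _ _)
      ((continuous_const.mul (cont 0)).intervalIntegrable _ _) fun ξ hξ => ?_
    rw [pow_zero, ← mul_div_assoc, mul_one]
    exact div_le_div_of_nonneg_right (hmono ξ hξ) (by positivity)
  have s3 : P b⁻¹ * (mJ 0 k - mJ 0 b) ≤ P b⁻¹ * (mJ 0 a - mJ 0 b) :=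
    mul_le_mul_of_nonneg_left (by linarith [anti hM ha hak hk]) hP0
  have s4 : ∑ j ∈ Finset.range 7, e j * mC j a b =
      ∑ j ∈ Finset.range 7, e j * mJ j b + P b⁻¹ * (mJ 0 a - mJ 0 b) := by
    simp only [hPdef, Finset.sum_mul, ← Finset.sum_add_distrib, mC]
    refine Finset.sum_congr rfl fun j _ => ?_
    rw [inv_pow, div_eq_mul_inv]; ring
  have s5 := intervalIntegral.integral_add_adjacent_intervals
    (hc.intervalIntegrable (μ := volume) 0 b⁻¹) (hc.intervalIntegrable b⁻¹ k⁻¹)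
  rw [s4, ← s1]
  linarith

end VBOXx

theorem c_VBOX (hMOMJ : Q_MOMJ) :
    Q_VBOX := by
  intro t k k' u v a b a' b' e hk hk' hu hv hs ha hak hkb ha' hak' hkb' hP
  have A := VBOXx.side hMOMJ t.1 t.2.1 t.2.2.1 t.2.2.2 (m1 := -k) (m2 := k') (m3 := u) (m4 := v)
    e hk le_rfl (by linarith) hu.1 hv.1 hs ha hak hkb fun ξ => by
      rw [← hP ξ]; congr 4; ring
  have hneg : ∀ ξ : ℝ, ∑ j ∈ Finset.range 7, e j * (-ξ) ^ j =
      ∑ j ∈ Finset.range 7, e j * (-1) ^ j * ξ ^ j := fun ξ =>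
    Finset.sum_congr rfl fun j _ => by rw [neg_pow]; ring
  have B := VBOXx.side hMOMJ t.1 t.2.1 t.2.2.1 t.2.2.2 (m1 := k) (m2 := -k') (m3 := -u)
    (m4 := -v) (fun j => e j * (-1) ^ j) hk' (by linarith) le_rfl (by linarith [hu.2])
    (by linarith [hv.2]) (by linear_combination -hs) ha' hak' hkb' fun ξ => by
      rw [← hneg, ← hP (-ξ)]
      simp only [mul_neg, neg_mul, sub_neg_eq_add]
  have hc : Continuous fun ξ : ℝ => (∑ j ∈ Finset.range 7, e j * ξ ^ j) / (1 + ξ ^ 2) ^ 4 :=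
    Continuous.div (by fun_prop) (by fun_prop) fun ξ => by positivity
  have C := intervalIntegral.integral_comp_neg (a := 0) (b := k'⁻¹)
    fun ξ : ℝ => (∑ j ∈ Finset.range 7, e j * ξ ^ j) / (1 + ξ ^ 2) ^ 4
  simp only [hneg, neg_sq, neg_zero] at C
  have D := intervalIntegral.integral_add_adjacent_intervals
    (hc.intervalIntegrable (μ := volume) (-k'⁻¹) 0) (hc.intervalIntegrable 0 k⁻¹)
  have E : ∑ j ∈ Finset.range 7, e j * (mC j a b + (-1) ^ j * mC j a' b') =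
      ∑ j ∈ Finset.range 7, e j * mC j a b +
        ∑ j ∈ Finset.range 7, e j * (-1) ^ j * mC j a' b' := by
    rw [← Finset.sum_add_distrib]
    exact Finset.sum_congr rfl fun j _ => by ring
  unfold volT
  simp only [hP]
  rw [E, ← D, ← C]
  linarith

end Pool.Agent.P.MP_2b44f0_gt.PD
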