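import Pool.Agent.P.MP_2b44f0_gt.PD.TVBOX
import Pool.Agent.P.MP_2b44f0_gt.PD.TMOMJ

/-! The volume bound on a box, with a linear gain in the two cut parameters. -/

namespace Pool.Agent.P.MP_2b44f0_gt.PD

open MeasureTheory Set

namespace VBox2

lemma der0 (x : ℝ) : HasDerivAt (mJ 0) (-(x ^ 6 / (1 + x ^ 2) ^ 4)) x := by
  have h0 : (1 + x ^ 2 : ℝ) ≠ 0 := by positivity
  have h1 : HasDerivAt (fun k : ℝ => 33 * k ^ 5 + 40 * k ^ 3 + 15 * k)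
      (33 * (5 * x ^ 4) + 40 * (3 * x ^ 2) + 15 * 1) x := by
    simpa using (((hasDerivAt_pow 5 x).const_mul 33).fun_add
      ((hasDerivAt_pow 3 x).const_mul 40)).fun_add ((hasDerivAt_id' x).const_mul 15)
  have h2 : HasDerivAt (fun k : ℝ => (1 + k ^ 2) ^ 3) (3 * (1 + x ^ 2) ^ 2 * (2 * x)) x := by
    simpa using ((hasDerivAt_pow 2 x).const_add 1).fun_pow 3
  have h3 := ((((Real.hasDerivAt_arctan x).const_sub (Real.pi / 2)).const_mul 15).add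
    (h1.div h2 (pow_ne_zero 3 h0))).div_const 48
  refine HasDerivAt.congr_deriv (f' := _) h3 ?_
  field_simp
  ring

lemma mid {a b x p P : ℝ} (ha : 0 ≤ a) (hax : a ≤ x) (hxb : x ≤ b) (hp : 0 ≤ p)
    (h1 : p * (1 + a ^ 2) ^ 4 ≤ P * a ^ 6) (h2 : p * (1 + b ^ 2) ^ 4 ≤ P * b ^ 6) (hP : 0 ≤ P) :
    p ≤ P * (x ^ 6 / (1 + x ^ 2) ^ 4) := by
  rcases ha.eq_or_lt with rfl | ha
  · have : p ≤ 0 := by simpa using h1
    exact this.trans (by positivity)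
  have hx : 0 < x := ha.trans_le hax
  have hb : 0 < b := hx.trans_le hxb
  have hc : ConvexOn ℝ (Ioi (0 : ℝ)) fun s : ℝ =>
      s ^ (1 : ℤ) + 4 + 6 * s ^ (-1 : ℤ) + 4 * s ^ (-2 : ℤ) + s ^ (-3 : ℤ) :=
    ((((convexOn_zpow 1).add_const 4).add ((convexOn_zpow (-1)).smul (c := 6) (by norm_num))).add
      ((convexOn_zpow (-2)).smul (c := 4) (by norm_num))).add (convexOn_zpow (-3))
  have he : ∀ y : ℝ, 0 < y → (y ^ 2) ^ (1 : ℤ) + 4 + 6 * (y ^ 2) ^ (-1 : ℤ) +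
      4 * (y ^ 2) ^ (-2 : ℤ) + (y ^ 2) ^ (-3 : ℤ) = (1 + y ^ 2) ^ 4 / y ^ 6 := by
    intro y hy
    simp only [zpow_neg, zpow_ofNat]
    field_simp
    ring
  have hm := hc.le_max_of_mem_segment (x := a ^ 2) (y := b ^ 2) (z := x ^ 2)
    (mem_Ioi.2 (by positivity)) (mem_Ioi.2 (by positivity)) (by
      rw [segment_eq_Icc (by gcongr; exact hax.trans hxb)]
      exact ⟨by gcongr, by gcongr⟩)
  simp only [he a ha, he b hb, he x hx] at hm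
  have k1 : p * ((1 + a ^ 2) ^ 4 / a ^ 6) ≤ P := by
    rw [← mul_div_assoc, div_le_iff₀ (by positivity)]; exact h1
  have k2 : p * ((1 + b ^ 2) ^ 4 / b ^ 6) ≤ P := by
    rw [← mul_div_assoc, div_le_iff₀ (by positivity)]; exact h2
  have k3 : p * ((1 + x ^ 2) ^ 4 / x ^ 6) ≤ P := by
    refine (mul_le_mul_of_nonneg_left hm hp).trans ?_
    rw [mul_max_of_nonneg _ _ hp]
    exact max_le k1 k2
  rw [← mul_div_assoc, div_le_iff₀ (by positivity)] at k3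
  rw [← mul_div_assoc, le_div_iff₀ (by positivity)]
  exact k3

lemma gain {a b k p P : ℝ} (ha : 0 ≤ a) (hak : a ≤ k) (hkb : k ≤ b) (hp : 0 ≤ p)
    (h1 : p * (1 + a ^ 2) ^ 4 ≤ P * a ^ 6) (h2 : p * (1 + b ^ 2) ^ 4 ≤ P * b ^ 6) (hP : 0 ≤ P) :
    p * (k - a) ≤ P * (mJ 0 a - mJ 0 k) := by
  have hd : ∀ x, HasDerivAt (fun x => -(P * mJ 0 x) - p * x)
      (-(P * -(x ^ 6 / (1 + x ^ 2) ^ 4)) - p * 1) x := fun x =>
    ((der0 x).const_mul P).neg.sub ((hasDerivAt_id' x).const_mul p)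
  have hm : MonotoneOn (fun x => -(P * mJ 0 x) - p * x) (Icc a k) :=
    monotoneOn_of_deriv_nonneg (convex_Icc a k)
      (fun x _ => (hd x).continuousAt.continuousWithinAt)
      (fun x _ => (hd x).differentiableAt.differentiableWithinAt) fun x hx => by
        have hx' := interior_subset hx
        rw [(hd x).deriv]
        have := mid ha hx'.1 (hx'.2.trans hkb) hp h1 h2 hP
        linarith
  have := hm (left_mem_Icc.2 hak) (right_mem_Icc.2 hak) hak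
  simp only at this
  linarith

lemma one {a b k p P f Q : ℝ} (ha : 0 ≤ a) (hak : a ≤ k) (hkb : k ≤ b) (hp : 0 ≤ p)
    (hf : mJ 0 a - mJ 0 b ≤ f) (h1 : p * (1 + a ^ 2) ^ 4 ≤ P * a ^ 6)
    (h2 : p * (1 + b ^ 2) ^ 4 ≤ P * b ^ 6) (hP : 0 ≤ P) (hQ : P ≤ Q) :
    Q * (mJ 0 k - mJ 0 b) ≤ Q * f - p * (k - a) := by
  have g1 := gain ha hak hkb hp h1 h2 hP
  have g0 := gain (p := 0) (P := 1) ha hak hkb le_rfl (by rw [zero_mul]; positivity)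
    (by rw [zero_mul]; positivity) zero_le_one
  have g2 : P * (mJ 0 a - mJ 0 k) ≤ Q * (mJ 0 a - mJ 0 k) :=
    mul_le_mul_of_nonneg_right hQ (by linarith)
  have g3 : Q * (mJ 0 a - mJ 0 b) ≤ Q * f := mul_le_mul_of_nonneg_left hf (hP.trans hQ)
  linarith

end VBox2

/-- the bound on a box with the linear gain -/
theorem vbox2 (t : ℕ × ℕ × ℕ × ℕ) (k k' u v a b a' b' f f' p p' P1 P2 : ℝ) (e : ℕ → ℝ)
    (hk : 0 < k) (hk' : 0 < k') (hu : u ∈ Icc (-k) k') (hv : v ∈ Icc (-k) k')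
    (hs : t.1 * (-k) + t.2.1 * k' + t.2.2.1 * u + t.2.2.2 * v = 0)
    (ha : 0 ≤ a) (hak : a ≤ k) (hkb : k ≤ b) (ha' : 0 ≤ a') (hak' : a' ≤ k') (hkb' : k' ≤ b')
    (hP : ∀ ξ : ℝ, (1 - ξ * k) ^ t.1 * (1 + ξ * k') ^ t.2.1 * (1 + ξ * u) ^ t.2.2.1 *
      (1 + ξ * v) ^ t.2.2.2 = ∑ j ∈ Finset.range 7, e j * ξ ^ j)
    (hf : mJ 0 a - mJ 0 b ≤ f) (hf' : mJ 0 a' - mJ 0 b' ≤ f') (hp : 0 ≤ p) (hp' : 0 ≤ p')
    (h1 : p * (1 + a ^ 2) ^ 4 ≤ P1 * a ^ 6) (h2 : p * (1 + b ^ 2) ^ 4 ≤ P1 * b ^ 6)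
    (hP1 : 0 ≤ P1) (hQ1 : P1 ≤ ∑ j ∈ Finset.range 7, e j / b ^ j)
    (h1' : p' * (1 + a' ^ 2) ^ 4 ≤ P2 * a' ^ 6) (h2' : p' * (1 + b' ^ 2) ^ 4 ≤ P2 * b' ^ 6)
    (hP2 : 0 ≤ P2) (hQ2 : P2 ≤ ∑ j ∈ Finset.range 7, (-1) ^ j * e j / b' ^ j) :
    volT t k k' u v ≤ ∑ j ∈ Finset.range 7,
      e j * (mJ j b + f / b ^ j + (-1) ^ j * (mJ j b' + f' / b' ^ j)) -
        p * (k - a) - p' * (k' - a') := by
  have A := c_VBOX c_MOMJ t k k' u v k b k' b' e hk hk' hu hv hs hk.le le_rfl hkb hk'.le le_rfl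
    hkb' hP
  have B1 := VBox2.one ha hak hkb hp hf h1 h2 hP1 hQ1
  have B2 := VBox2.one ha' hak' hkb' hp' hf' h1' h2' hP2 hQ2
  have key : ∀ g g' : ℝ, ∑ j ∈ Finset.range 7,
      e j * (mJ j b + g / b ^ j + (-1) ^ j * (mJ j b' + g' / b' ^ j)) =
      ∑ j ∈ Finset.range 7, e j * (mJ j b + (-1) ^ j * mJ j b') +
        (∑ j ∈ Finset.range 7, e j / b ^ j) * g +
        (∑ j ∈ Finset.range 7, (-1) ^ j * e j / b' ^ j) * g' := by
    intro g g'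
    rw [Finset.sum_mul, Finset.sum_mul, ← Finset.sum_add_distrib, ← Finset.sum_add_distrib]
    exact Finset.sum_congr rfl fun j _ => by ring
  simp only [mC] at A
  rw [key] at A ⊢
  linarith

end Pool.Agent.P.MP_2b44f0_gt.PD
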