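import Pool.Agent.P.MP_2b44f0_gt.PD.VolP

/-!
Kernel check of the volume inequality, part 0.
-/

namespace Pool.Agent.P.MP_2b44f0_gt.PD.Vol

theorem u0 : pc (0, 0, 3, 3) [(0, true), (0, true), (2, false), (1, false), (0, true), (2, true), (1, false), (0, false)]
      675922814072048833479773465027918089930981651075305672616685545140038801616342990011259473344002933514378679034931463954550160833673 = true ∧
    pc (0, 0, 3, 3) [(1, true), (0, true), (2, true), (1, false), (0, false)]
      40347183547741017607146353448362298730036883652218493264811484145786680662863314666156882598240301723460036495504372290 = true ∧
    pc (0, 1, 3, 2) [(0, false), (2, true), (1, false), (0, true), (2, true), (1, false), (0, false)]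
      9384549367083849416904982970751731999595400653682538744079801754145952479494207678020521149718905461220242192 = true ∧
    pc (0, 0, 4, 2) [(0, false), (0, true), (0, false), (2, true), (1, false), (0, true), (2, true), (1, false), (0, false)]
      533174910751462103055484464724005495462005898499183026695562957742461369089326584656595298596514418249 = true ∧
    pc (3, 0, 2, 1) [(2, false), (1, true), (0, true), (2, false), (1, true), (0, false)]
      130169655437355513062098261985935364389821566971201019188139244410424858373060460669799213010025728 = true ∧
    pc (3, 0, 2, 1) [(1, false), (0, true)]
      123965723040842061929379213996358192098708259097761198022076474267663166541355753160850 = true ∧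
    pc (1, 0, 3, 2) [(1, true), (0, false), (2, false), (1, true), (0, true)]
      28926487256820837682682726317236373017249070889841605770161850638129338852418 = true ∧
    pc (0, 0, 5, 1) [(1, true), (0, true), (2, false), (1, false), (0, false)]
      1643080856835111585891292431574274579861007617165863676149449886736194 = true ∧
    pc (0, 2, 2, 2) [(2, true), (1, false), (0, true), (2, false), (1, false), (0, false)]
      1567060382870194062275684476758611434097636355555622570395038464 = true ∧
    pc (0, 0, 5, 1) [(1, true), (0, false)]
      401733288398233546839682625588700302602241454954983156817030 = true ∧
    pc (1, 3, 1, 1) []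
      1569275433823887749060123066325832683660141563321330221641 = true ∧
    pc (1, 0, 3, 2) [(0, false), (0, false), (2, false), (1, true), (0, true), (2, false), (1, true), (0, false)]
      5243972352767739498529943367247000356 = true ∧
    pc (2, 2, 1, 1) [(0, true)]
      5001116971577778718085878903369 = true ∧
    pc (0, 0, 3, 3) [(0, false), (2, false), (1, false), (0, false)]
      17945207227067514286281 = true ∧
    pc (2, 0, 2, 2) [(2, false), (1, true), (0, false)]
      18000361507572793 = true ∧
    pc (2, 0, 2, 2) [(0, true), (2, true), (1, false), (0, true)]
      3 = true ∧
    rok (4, 0, 1, 1) = true ∧
    rok (0, 1, 4, 1) = true ∧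
    True :=
  ⟨by decide +kernel, by decide +kernel, by decide +kernel, by decide +kernel, by decide +kernel, by decide +kernel, by decide +kernel, by decide +kernel, by decide +kernel, by decide +kernel, by decide +kernel, by decide +kernel, by decide +kernel, by decide +kernel, by decide +kernel, by decide +kernel, by decide +kernel, by decide +kernel, trivial⟩

end Pool.Agent.P.MP_2b44f0_gt.PD.Vol
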