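import Pool.Agent.P.MP_2b44f0_gt.PD.VolP

/-!
Kernel check of the volume inequality, part 1.
-/

namespace Pool.Agent.P.MP_2b44f0_gt.PD.Vol

theorem u1 : pc (0, 0, 5, 1) [(1, false), (0, true), (2, false), (1, false), (0, false)]
      676001029451344979854381043830306904526706769329026733874169959571552331168287826043081872084042755525622879162584522370809272941634 = true ∧
    pc (2, 1, 2, 1) [(0, true), (2, true), (1, false), (0, false)]
      636075830040141708472314211058342463322940297783062788951734564669882088197619281737062206784665705560164064776301297673 = true ∧
    pc (2, 0, 2, 2) [(0, false), (1, false), (2, true), (0, true), (2, true), (1, false), (0, false)]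
      2369559773114357878560828944050329200344437257797598307948603731830867616882621512109612716715559078453340585488 = true ∧
    pc (4, 0, 1, 1) [(0, true)]
      2404355417584362837660043351556627637995590568547623244260169693335652275930579127797548561933287587297759330889 = true ∧
    pc (0, 0, 4, 2) [(1, true), (0, false), (2, true), (1, false), (0, true)]
      2081500644803373964785059730070050211573652825499117661639829710971525983468438188246545933378 = true ∧
    pc (2, 2, 1, 1) [(2, false), (1, false), (0, false)]
      30307548834320988013594841774077782079553033773874475199660847506860049513986613536830244 = true ∧
    pc (0, 0, 4, 2) [(1, false), (0, true), (0, true), (2, true), (1, false), (0, true), (2, true), (1, false), (0, false)]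
      107691313498234360497589456885076632314051182261705193874780933289538026264 = true ∧
    pc (3, 0, 2, 1) [(2, false), (1, true), (0, true)]
      1725041382404960895763377796873025662050847682915266794000049518100516 = true ∧
    pc (0, 2, 3, 1) [(2, true), (1, false), (0, true), (2, false), (0, false), (1, false)]
      400660705801998039634663715004825138627181719550843927581691952192 = true ∧
    pc (0, 1, 4, 1) [(0, true), (2, true), (1, false), (0, true), (2, true), (1, false), (0, false)]
      364836459173375226662334314335971968719661374426070084 = true ∧
    pc (0, 2, 3, 1) [(0, true), (1, false)]
      98079335330411139417284108742668596221066021695741874322 = true ∧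
    pc (0, 0, 4, 2) [(2, true), (0, false), (0, false), (2, true), (1, false), (0, false), (2, true), (1, false), (0, true)]
      20696916423013417452156522287329377 = true ∧
    pc (0, 1, 4, 1) [(0, false), (2, true), (1, false), (0, false)]
      4817075182285296180840560390345 = true ∧
    pc (2, 1, 2, 1) [(0, false), (2, true), (1, false), (0, false)]
      1121572848045769149641 = true ∧
    pc (1, 0, 3, 2) [(0, false), (2, false), (1, false), (0, false)]
      1069769771175113 = true ∧
    pc (1, 0, 3, 2) [(0, true), (2, false), (1, true), (0, true)]
      3 = true ∧
    rok (3, 1, 1, 1) = true ∧
    rok (1, 0, 3, 2) = true ∧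
    True :=
  ⟨by decide +kernel, by decide +kernel, by decide +kernel, by decide +kernel, by decide +kernel, by decide +kernel, by decide +kernel, by decide +kernel, by decide +kernel, by decide +kernel, by decide +kernel, by decide +kernel, by decide +kernel, by decide +kernel, by decide +kernel, by decide +kernel, by decide +kernel, by decide +kernel, trivial⟩

end Pool.Agent.P.MP_2b44f0_gt.PD.Vol
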