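import Pool.Agent.P.MP_2b44f0_gt.PD.VolP

/-!
Kernel check of the volume inequality, part 10.
-/

namespace Pool.Agent.P.MP_2b44f0_gt.PD.Vol

theorem u10 : pc (1, 1, 3, 1) [(1, false), (0, true), (2, true), (1, false), (0, false)]
      165020218279320763802890027985956993339194081022902469387536484559985294493517326836202626196252055092001962874253008252208886018 = true ∧
    pc (2, 0, 3, 1) [(2, false), (1, false), (0, false)]
      157023584081291672810585870081154726147902075722201426073017205602269069196988242024964108628615564895561425031370704220964 = true ∧
    pc (0, 0, 4, 2) [(0, false), (1, true), (2, false), (0, false), (0, false), (2, true), (1, false), (0, false), (2, true), (1, false), (0, true)]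
      37950654041026950963614269290085302575868648582704253630855913393339964882326625614373473299498801635168779223625 = true ∧
    pc (0, 2, 2, 2) [(0, false), (2, false), (1, false), (0, true), (2, false), (1, false), (0, false)]
      33323502294522880371930223652056368029541182895462685894303594708628829908188386334061147328967831296 = true ∧
    pc (3, 0, 2, 1) [(0, false), (2, true), (1, true), (0, true), (2, true), (1, true), (0, false)]
      130160008306432459666526161384914014045855197344347377421716137096780884661032496637514983529766656 = true ∧
    pc (0, 0, 3, 3) [(1, true), (2, true), (0, false), (0, false), (2, false), (1, false), (0, false), (2, true), (1, false), (0, true)]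
      1784431414527898125979260157504478447397399150541125855890815123617916109080 = true ∧
    pc (2, 0, 2, 2) [(2, false), (0, true), (2, true), (1, false), (0, false)]
      7041237548885274436385770890094824932375247732528704113799927565747062607954817 = true ∧
    pc (1, 0, 3, 2) [(2, false), (1, false), (0, true), (2, true), (1, false), (0, false)]
      1642772704406813851128551940006218048117957600233069324503677900110912 = true ∧
    pc (0, 0, 3, 3) [(2, false), (0, false), (0, false), (0, true), (2, true), (1, false), (0, true), (2, true), (1, false), (0, false)]
      23911454930584130050877641935107227568570397485075977073505 = true ∧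
    pc (1, 0, 3, 2) [(2, false), (1, false), (0, false), (2, true), (1, false), (0, true)]
      25030614454270551184039874547917867751790979450478176563776 = true ∧
    pc (1, 1, 3, 1) [(1, true), (0, true), (2, true), (1, false), (0, false)]
      21750176475772870639312715035626089521547607042 = true ∧
    pc (0, 2, 2, 2) [(0, true)]
      22724458104837624815762551777080404270088258121 = true ∧
    pc (2, 0, 2, 2) [(0, false), (2, true), (1, false), (0, false)]
      19435669950174483872963415241 = true ∧
    pc (0, 0, 5, 1) [(0, false), (2, false), (1, false), (0, false)]
      18627695099459713233097 = true ∧
    pc (4, 0, 1, 1) [(0, false), (2, true), (1, true), (0, false)]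
      273821496104926409 = true ∧
    rok (1, 1, 3, 1) = true ∧
    True :=
  ⟨by decide +kernel, by decide +kernel, by decide +kernel, by decide +kernel, by decide +kernel, by decide +kernel, by decide +kernel, by decide +kernel, by decide +kernel, by decide +kernel, by decide +kernel, by decide +kernel, by decide +kernel, by decide +kernel, by decide +kernel, by decide +kernel, trivial⟩

end Pool.Agent.P.MP_2b44f0_gt.PD.Vol
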