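import Pool.Agent.P.MP_2b44f0_gt.PD.VolP

/-!
Kernel check of the volume inequality, part 11.
-/

namespace Pool.Agent.P.MP_2b44f0_gt.PD.Vol

theorem u11 : pc (0, 0, 4, 2) [(2, false), (1, false), (0, false), (2, true), (1, false), (0, true)]
      10822322365026838045421805297786214982587319821668280105107357399664110589147116221874052726082125392699483295652457225378841104 = true ∧
    pc (1, 0, 3, 2) [(0, true), (0, true), (0, true), (2, false), (1, true), (0, true), (2, false), (1, true), (0, false)]
      39872463380758601658673822279591531641595343175991250222990964551659458309152316047624610958442567431043138835888158233 = true ∧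
    pc (0, 0, 4, 2) [(2, true), (1, true), (0, true), (2, true), (1, false), (0, false)]
      38448347951039945557294007758806680145131830057603395104681265239256617243594029470512614915646212401081343790144 = true ∧
    pc (0, 0, 3, 3) [(1, false), (1, false), (2, true), (0, true), (0, true), (0, true), (2, true), (1, false), (0, true), (2, true), (1, false), (0, false)]
      2180738595758812128344547473212989829392591821950340373451707750459377040071054911337761713524295778 = true ∧
    pc (0, 1, 3, 2) [(2, false), (1, false), (0, true), (2, true), (1, false), (0, false)]
      8136123257547855200793985611265887133533201487338548603185372525038724316409111423692799162399808 = true ∧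
    pc (0, 0, 4, 2) [(2, false), (1, true), (0, true), (2, true), (1, false), (0, false)]
      462485066241501594245400120226588512199188289846246681080344996662404397449167731728 = true ∧
    pc (1, 1, 2, 2) [(0, true), (1, false), (2, true), (0, true), (2, true), (1, false), (0, false)]
      6963779564585097605308758179342581178518200054961274796200663958955291200 = true ∧
    pc (0, 0, 3, 3) [(1, true), (0, false), (0, true), (0, true), (2, true), (1, false), (0, true), (2, true), (1, false), (0, false)]
      6739907987093398720747008319580833331950207296166266263418176664102 = true ∧
    pc (0, 0, 4, 2) [(2, true), (1, false), (0, true), (2, false), (1, false), (0, false)]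
      97935041380709983644269511231390175277292216089635053913276192 = true ∧
    pc (1, 0, 3, 2) [(1, true), (0, false), (2, true), (1, false), (0, true)]
      25022563988822409120979454616144947337553703557000619563074 = true ∧
    pc (0, 0, 3, 3) [(2, false), (1, false), (2, false), (0, true), (0, true), (0, true), (2, true), (1, false), (0, true), (2, true), (1, false), (0, false)]
      1359034606957405414739517666642941557505576737 = true ∧
    pc (1, 0, 3, 2) [(0, false), (2, true), (1, false), (0, false)]
      320884136004740366777118856844472521 = true ∧
    pc (1, 1, 2, 2) [(1, true), (0, false)]
      5316606776585050420460455388419141862 = true ∧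
    pc (1, 1, 2, 2) [(1, true), (2, true), (0, true), (2, true), (1, false), (0, false)]
      4597959749420698642 = true ∧
    pc (0, 0, 3, 3) [(0, true), (0, false), (2, true), (1, false), (0, false), (2, true), (1, false), (0, true)]
      15601 = true ∧
    pc (0, 0, 3, 3) [(0, true), (2, true), (1, false), (0, false), (2, true), (1, false), (0, true)]
      3 = true ∧
    rok (0, 2, 3, 1) = true ∧
    True :=
  ⟨by decide +kernel, by decide +kernel, by decide +kernel, by decide +kernel, by decide +kernel, by decide +kernel, by decide +kernel, by decide +kernel, by decide +kernel, by decide +kernel, by decide +kernel, by decide +kernel, by decide +kernel, by decide +kernel, by decide +kernel, by decide +kernel, by decide +kernel, trivial⟩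

end Pool.Agent.P.MP_2b44f0_gt.PD.Vol
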