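import Pool.Agent.P.MP_2b44f0_gt.PD.VolP

/-!
Kernel check of the volume inequality, part 12.
-/

namespace Pool.Agent.P.MP_2b44f0_gt.PD.Vol

theorem u12 : pc (2, 0, 3, 1) [(1, false), (0, true)]
      2764461413649486691829711637416958827960952884786800592011950016508950568113897107230316488351548798216517951070439301332232048786 = true ∧
    pc (0, 0, 4, 2) [(2, false), (1, false), (0, true)]
      42298513715185682556161468139163900940750323984430112269609674324760338556865672903298243345387599286724293067556143166161188 = true ∧
    pc (0, 0, 3, 3) [(2, false), (1, false), (0, true), (2, false), (1, false), (0, false)]
      155445883646913821507119365903047766160979620042688965247505172891622554725587108910032689924023568144188714653643536 = true ∧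
    pc (2, 0, 3, 1) [(1, false), (0, false), (2, false), (1, true), (0, true)]
      8934887138576370159436775679580511509312179846306336057410410966781618859530467439295606568865364758594 = true ∧
    pc (0, 0, 3, 3) [(2, true), (1, false), (2, false), (0, true), (0, true), (0, true), (2, true), (1, false), (0, true), (2, true), (1, false), (0, false)]
      2055272103031301921297468235612919804227918307527338030610653300591482432165659697181833264417 = true ∧
    pc (0, 1, 3, 2) [(0, false), (0, true), (2, true), (1, false), (0, true), (2, true), (1, false), (0, false)]
      28861394607276009804512738178505286059575711792471249715944761262274243391780 = true ∧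
    pc (2, 0, 3, 1) [(1, false), (0, true), (2, true), (1, true), (0, false)]
      7316267329106315723922309956321152127244177528875854859521088841490227667090434 = true ∧
    pc (2, 0, 3, 1) [(2, true), (1, true), (0, true), (2, false), (1, true), (0, false)]
      27276931706845633288961146283908217556816070072550249460019731254688832 = true ∧
    pc (1, 1, 3, 1) [(1, true), (0, false)]
      421224985724372303692710843227452617118641495111646664229738302598 = true ∧
    pc (3, 0, 2, 1) [(0, false), (0, true), (2, true), (1, true), (0, true), (2, true), (1, true), (0, false)]
      96474119495099745752382057584170930962801760163797126532 = true ∧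
    pc (1, 0, 4, 1) [(1, true), (0, true), (2, false), (1, false), (0, false)]
      1425142842139710873871840191951433906635790603247362 = true ∧
    pc (0, 0, 3, 3) [(1, true), (0, false)]
      85070529662898871415741974060061192422 = true ∧
    pc (1, 2, 2, 1) [(0, true)]
      5315987863066727442154337127139099209 = true ∧
    pc (2, 0, 3, 1) [(0, false), (2, true), (1, true), (0, false)]
      1121562715220411141321 = true ∧
    pc (0, 0, 3, 3) [(0, true), (0, false), (2, false), (1, false), (0, false), (2, true), (1, false), (0, true)]
      1070527376 = true ∧
    pc (0, 2, 3, 1) [(1, true), (2, true), (0, false), (1, false)]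
      3 = true ∧
    rok (2, 0, 2, 2) = true ∧
    True :=
  ⟨by decide +kernel, by decide +kernel, by decide +kernel, by decide +kernel, by decide +kernel, by decide +kernel, by decide +kernel, by decide +kernel, by decide +kernel, by decide +kernel, by decide +kernel, by decide +kernel, by decide +kernel, by decide +kernel, by decide +kernel, by decide +kernel, by decide +kernel, trivial⟩

end Pool.Agent.P.MP_2b44f0_gt.PD.Vol
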