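import Pool.Agent.P.MP_2b44f0_gt.PD.VolP

/-!
Kernel check of the volume inequality, part 13.
-/

namespace Pool.Agent.P.MP_2b44f0_gt.PD.Vol

theorem u13 : pc (0, 0, 5, 1) [(1, false), (0, true), (2, true), (1, false), (0, false)]
      668291349881282401280257536660026155080629855012098228868860392364047081031064760036784616458485354256174605209552600404456258 = true ∧
    pc (1, 0, 3, 2) [(1, true), (0, true), (2, true), (1, false), (0, false)]
      2610619943716248778506432156563676934325316632821484922835615277511079320407614258229293324517857019718408996239393435892802 = true ∧
    pc (3, 1, 1, 1) [(2, true), (1, true), (0, false)]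
      2440146407199217710930094643682669480971402405273257710515333872519401653693023264287444879565325478741017045641409316 = true ∧
    pc (4, 0, 1, 1) [(1, false), (0, false)]
      559074017106337540334707103980572907183489949790530620378210037712232252128920144265145280960823360528268434 = true ∧
    pc (0, 1, 3, 2) [(1, false), (0, true), (2, false), (1, false), (0, false)]
      2082847980409164166331169270040912570177635313112381674826912146082178983335796538454503961582094594 = true ∧
    pc (1, 0, 3, 2) [(0, true), (0, false), (2, true), (1, false), (0, true), (2, true), (1, false), (0, false)]
      114785799931523011483782817937644886672006154974588133756537406684546106298146340 = true ∧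
    pc (3, 0, 2, 1) [(1, true), (0, false), (2, true), (1, true), (0, true)]
      28946143626619883010206331307074070926088334002284012130136195369119466161218 = true ∧
    pc (2, 0, 3, 1) [(0, false), (0, true), (2, false), (1, true), (0, true), (2, false), (1, true), (0, false)]
      6654087717107761917178115566828109168454573374602312616200906783812 = true ∧
    pc (1, 1, 2, 2) [(0, false), (1, false), (2, true), (0, true), (2, true), (1, false), (0, false)]
      97941318371014639239873606011237430372393427934039648811171008 = true ∧
    pc (3, 1, 1, 1) [(0, true)]
      6426274056743939278455470899282209464561953318819975167722057 = true ∧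
    pc (0, 2, 2, 2) [(0, true), (2, false), (1, false), (0, true), (2, false), (1, false), (0, false)]
      89077110682877818370361510244127557148291509317728 = true ∧
    pc (0, 0, 3, 3) [(0, false), (0, true), (2, false), (1, false), (0, true), (2, true), (1, false), (0, false)]
      81015160212701115978605791716685266121 = true ∧
    pc (0, 2, 2, 2) [(2, true), (1, false), (0, false)]
      4834799961015763795915529 = true ∧
    pc (2, 0, 3, 1) [(0, false), (2, false), (1, true), (0, false)]
      17945004569426485103817 = true ∧
    pc (0, 1, 4, 1) [(1, true), (0, false)]
      1180536518623867554854 = true ∧
    pc (0, 0, 4, 2) [(0, true), (2, true), (1, false), (0, true)]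
      3 = true ∧
    rok (1, 1, 2, 2) = true ∧
    True :=
  ⟨by decide +kernel, by decide +kernel, by decide +kernel, by decide +kernel, by decide +kernel, by decide +kernel, by decide +kernel, by decide +kernel, by decide +kernel, by decide +kernel, by decide +kernel, by decide +kernel, by decide +kernel, by decide +kernel, by decide +kernel, by decide +kernel, by decide +kernel, trivial⟩

end Pool.Agent.P.MP_2b44f0_gt.PD.Vol
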