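import Pool.Agent.P.MP_2b44f0_gt.PD.VolP

/-!
Kernel check of the volume inequality, part 14.
-/

namespace Pool.Agent.P.MP_2b44f0_gt.PD.Vol

theorem u14 : pc (1, 0, 3, 2) [(0, false), (0, true), (2, false), (1, true), (0, true), (2, false), (1, true), (0, false)]
      164738925871895191575269925076547851549274201714123478349438386660985928084450110545062121005723589243495570488332307853604 = true ∧
    pc (1, 2, 2, 1) [(2, true), (1, false), (0, false)]
      674898116887945219801903211905927118063737845951426483515150769635081771355491625101776247231128459290554933676230285424800548 = true ∧
    pc (1, 0, 3, 2) [(2, false), (1, false), (0, false), (2, false), (1, true), (0, true)]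
      157524002821130120100734077507314917063321076043496693174254172529008542746108773686002140564363984993864906090271248 = true ∧
    pc (2, 0, 2, 2) [(1, false), (0, true), (2, true), (1, true), (0, false)]
      136517492715663891298465750532753183825589880569331680808463915904349798490162859744155494571020573948930 = true ∧
    pc (0, 0, 5, 1) [(2, false), (0, true)]
      34995480728268185839060632443119763960264715125812458740842382720737773450868783730987122361335088273 = true ∧
    pc (3, 0, 2, 1) [(1, false), (0, false), (2, true), (1, true), (0, true)]
      479886446072579843529322755688097178592798090366001703866444489908504635383433380098 = true ∧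
    pc (0, 1, 3, 2) [(0, true), (0, true), (2, true), (1, false), (0, true), (2, true), (1, false), (0, false)]
      112981227106074324777917233635893831132398658820007191868183964221474533668 = true ∧
    pc (0, 2, 3, 1) [(2, false), (0, true), (1, false), (2, true), (0, false), (1, false)]
      6659668610945558066008277074478193619735650312905170374271264832576 = true ∧
    pc (2, 0, 2, 2) [(2, false), (0, false), (2, true), (1, false), (0, true)]
      6715225556092851295008785084881086827559537054322874455788988121601 = true ∧
    pc (3, 1, 1, 1) [(2, false), (1, false), (0, false)]
      93392146964878907569572652822093220527178543111053718308 = true ∧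
    pc (1, 0, 4, 1) [(2, true), (1, true), (0, false)]
      97786741637257974702746058140243731515158231337514775329 = true ∧
    pc (0, 1, 4, 1) [(0, false), (2, false), (1, false), (0, false)]
      1293073773142868584093828505992997171401 = true ∧
    pc (1, 0, 3, 2) [(2, true), (1, false), (0, false), (2, false), (1, true), (0, true)]
      315905689591999863407357707408 = true ∧
    pc (0, 1, 3, 2) [(0, false), (2, true), (1, false), (0, false)]
      1165834155364587457737 = true ∧
    pc (0, 0, 4, 2) [(0, true), (0, false), (2, true), (1, false), (0, false), (2, true), (1, false), (0, true)]
      4181778 = true ∧
    pc (0, 2, 2, 2) [(1, true), (0, false)]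
      1018 = true ∧
    rok (0, 2, 2, 2) = true ∧
    True :=
  ⟨by decide +kernel, by decide +kernel, by decide +kernel, by decide +kernel, by decide +kernel, by decide +kernel, by decide +kernel, by decide +kernel, by decide +kernel, by decide +kernel, by decide +kernel, by decide +kernel, by decide +kernel, by decide +kernel, by decide +kernel, by decide +kernel, by decide +kernel, trivial⟩

end Pool.Agent.P.MP_2b44f0_gt.PD.Vol
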