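import Pool.Agent.P.MP_2b44f0_gt.PD.VolP

/-!
Kernel check of the volume inequality, part 15.
-/

namespace Pool.Agent.P.MP_2b44f0_gt.PD.Vol

theorem u15 : pc (3, 0, 2, 1) [(0, true), (0, true), (0, true), (2, true), (1, true), (0, true), (2, true), (1, true), (0, false)]
      10298599700102677478481553285652101823008718537407226243580236744624226371504955139777206176492727138454457958077697871385 = true ∧
    pc (0, 2, 3, 1) [(2, false), (1, false), (0, true), (2, false), (0, false), (1, false)]
      2514969682992701394136656646918516563738717041242714165436716014740300192203671648193440874632951704202542650811044343872512 = true ∧
    pc (0, 1, 4, 1) [(0, false), (2, true), (1, false), (0, true), (2, true), (1, false), (0, false)]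
      36639500340708277856992236913091622161597351518007712644752951188645512523028605260447650934397086180241535958032 = true ∧
    pc (0, 0, 3, 3) [(1, false), (2, true), (0, false), (0, false), (2, false), (1, false), (0, false), (2, true), (1, false), (0, true)]
      141517276566372876973030214565133576414065537064933422370877004691632528521630439010659732128315461136968 = true ∧
    pc (3, 0, 2, 1) [(1, false), (0, true), (2, true), (1, true), (0, false)]
      8044265118062473921359724791781117128300189941209641161087629922370650218827976480683782914 = true ∧
    pc (3, 0, 2, 1) [(2, false), (1, false), (0, false)]
      7759229964736154307530403324011548211510712319827140681295858432612230911295490243797250852 = true ∧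
    pc (0, 1, 4, 1) [(1, false), (0, true), (2, false), (1, false), (0, false)]
      107551340881497335581723622415438384495433322626365998184840314673832379650 = true ∧
    pc (2, 0, 2, 2) [(1, true), (0, true)]
      1809157573392697691896672868009722335354039251973017085682222539594143348858 = true ∧
    pc (2, 0, 2, 2) [(0, true), (1, false), (2, true), (0, true), (2, true), (1, false), (0, false)]
      6346067026474947310892238091384912558631362428478844334718048 = true ∧
    pc (0, 0, 3, 3) [(0, false), (0, false), (2, true), (1, false), (0, true), (2, true), (1, false), (0, false)]
      97771027793466251453610634564154177510328424320197426212 = true ∧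
    pc (0, 0, 4, 2) [(0, true), (0, true), (0, false), (2, true), (1, false), (0, true), (2, true), (1, false), (0, false)]
      1359037577773364768522354184625175057701747785 = true ∧
    pc (0, 0, 3, 3) [(2, true), (0, false), (0, false), (2, true), (1, false), (0, false), (2, true), (1, false), (0, true)]
      85070269934916637100999230442815342737 = true ∧
    pc (1, 1, 3, 1) [(0, false), (2, true), (1, false), (0, false)]
      73503398172131131909934281 = true ∧
    pc (2, 0, 2, 2) [(0, false), (2, true), (1, true), (0, false)]
      17945003443526577671369 = true ∧
    pc (1, 2, 2, 1) [(1, true), (0, false)]
      73773192764479818790 = true ∧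
    pc (0, 4, 1, 1) []
      3 = true ∧
    rok (1, 0, 4, 1) = true ∧
    True :=
  ⟨by decide +kernel, by decide +kernel, by decide +kernel, by decide +kernel, by decide +kernel, by decide +kernel, by decide +kernel, by decide +kernel, by decide +kernel, by decide +kernel, by decide +kernel, by decide +kernel, by decide +kernel, by decide +kernel, by decide +kernel, by decide +kernel, by decide +kernel, trivial⟩

end Pool.Agent.P.MP_2b44f0_gt.PD.Vol
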