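import Pool.Agent.P.MP_2b44f0_gt.PD.VolP

/-!
Kernel check of the volume inequality, part 2.
-/

namespace Pool.Agent.P.MP_2b44f0_gt.PD.Vol

theorem u2 : pc (0, 0, 4, 2) [(2, false), (1, false), (0, true), (2, true), (1, false), (0, false)]
      42249699799796157875624178465212522444246981458913071736392070913565509234404056668571614385264957047951496281063776258139000634688 = true ∧
    pc (1, 0, 4, 1) [(2, false), (1, true), (0, false)]
      10328406597256250074943308858489513587104252789026110822056109421463234371369851745824104080251787999035688031030726570788 = true ∧
    pc (0, 0, 3, 3) [(2, true), (0, false), (0, false), (0, true), (2, true), (1, false), (0, true), (2, true), (1, false), (0, false)]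
      587025954522317895634341263116524503527221855486769154421213151209946849984266305268053877643783388842412433 = true ∧
    pc (0, 0, 4, 2) [(2, false), (1, false), (0, true), (2, false), (1, false), (0, false)]
      8945208581653653977481716972128363062151358578314940703659594230824410863286339400004661762853023210789130000 = true ∧
    pc (0, 2, 3, 1) [(2, true), (0, true), (1, false), (2, true), (0, false), (1, false)]
      508784880421886388301342284909817023486926526126132491997002906897557760924012583113735172 = true ∧
    pc (1, 0, 3, 2) [(0, false), (0, false), (2, true), (1, false), (0, true), (2, true), (1, false), (0, false)]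
      122629223482740213844202579445282140086850146542639135797854508562380646744109792328836 = true ∧
    pc (0, 0, 3, 3) [(1, true), (0, true), (2, false), (1, false), (0, false)]
      107673814884957812974894356996843361422273726745091670597734599567513722490 = true ∧
    pc (0, 1, 3, 2) [(1, true), (0, false)]
      1809166949290211145504759749294250511666267577468925942294617497879166372998 = true ∧
    pc (0, 1, 4, 1) [(1, true), (0, true), (2, true), (1, false), (0, false)]
      101616786470424275748455260608988657584687490163487617615907906 = true ∧
    pc (1, 1, 2, 2) [(0, true)]
      26325323540918766082597485499418537403076484969484518010698793353 = true ∧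
    pc (0, 0, 3, 3) [(0, false), (2, false), (1, false), (0, true), (2, true), (1, false), (0, false)]
      5309068144465935679037340529359034581447568 = true ∧
    pc (3, 0, 2, 1) [(1, false), (0, true), (2, false), (1, true), (0, false)]
      5302640224184065922230856820716194201924354 = true ∧
    pc (0, 1, 3, 2) [(1, true), (0, true), (2, true), (1, false), (0, false)]
      5066636199512057349950641467398 = true ∧
    pc (1, 1, 2, 2) [(0, false), (2, true), (1, false), (0, false)]
      1121562715204305603785 = true ∧
    pc (4, 0, 1, 1) [(2, false), (1, true), (0, false)]
      4343214623801 = true ∧
    pc (3, 0, 2, 1) [(0, true), (2, true), (1, true), (0, true)]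
      3 = true ∧
    rok (2, 2, 1, 1) = true ∧
    rok (0, 1, 3, 2) = true ∧
    True :=
  ⟨by decide +kernel, by decide +kernel, by decide +kernel, by decide +kernel, by decide +kernel, by decide +kernel, by decide +kernel, by decide +kernel, by decide +kernel, by decide +kernel, by decide +kernel, by decide +kernel, by decide +kernel, by decide +kernel, by decide +kernel, by decide +kernel, by decide +kernel, by decide +kernel, trivial⟩

end Pool.Agent.P.MP_2b44f0_gt.PD.Vol
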