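import Pool.Agent.P.MP_2b44f0_gt.PD.VolP

/-!
Kernel check of the volume inequality, part 3.
-/

namespace Pool.Agent.P.MP_2b44f0_gt.PD.Vol

theorem u3 : pc (0, 0, 3, 3) [(2, true), (1, false), (0, true), (0, true), (0, false), (2, true), (1, false), (0, true), (2, true), (1, false), (0, false)]
      676780894518468789942632694513335056786467819302939625437589489758746124646548925852785255538294187714089975590575998604622116 = true ∧
    pc (4, 0, 1, 1) [(0, true), (2, true), (1, true), (0, false)]
      614820591214308944884295254742217806234365935939043558809450631332366319301249445354726651934688361818474332852623195145 = true ∧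
    pc (0, 1, 3, 2) [(0, true)]
      2521727817432876165831680743365705648622446584540143501677961202099136284146003103311549103137634999444802853321638473 = true ∧
    pc (0, 0, 3, 3) [(1, true), (1, false), (2, true), (0, true), (0, true), (0, true), (2, true), (1, false), (0, true), (2, true), (1, false), (0, false)]
      34994623411572929195126547911521972648772441301604479254494307996885643789684247362325263771725928546 = true ∧
    pc (1, 0, 4, 1) [(1, false), (0, true), (2, false), (1, false), (0, false)]
      508507807701630330741252558507217324723664826372629963444237533211529549615213903652110074854466 = true ∧
    pc (3, 0, 2, 1) [(2, false), (1, true), (0, true), (2, true), (1, true), (0, false)]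
      462534653895718060752288155684419155490929859879292881674328420148210451775896023808 = true ∧
    pc (1, 0, 4, 1) [(2, true), (1, false), (0, true)]
      7404340035888449505297366584716239063644976830329365235606674937606265465933860 = true ∧
    pc (2, 0, 2, 2) [(2, true), (0, false), (2, true), (1, false), (0, true)]
      1705124381939469327872796306665047114021973521928040487899764459578497 = true ∧
    pc (1, 0, 4, 1) [(1, true), (0, true), (2, true), (1, false), (0, false)]
      25073252011421508748073906689411400817351536070030628232268554050 = true ∧
    pc (2, 0, 3, 1) [(2, true), (1, true), (0, true)]
      25106931315615652914592045991209318011324463106172386034724 = true ∧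
    pc (0, 0, 4, 2) [(2, true), (1, false), (0, true), (2, false), (1, true), (0, false)]
      1495399466664766984740654207056304334816824198820624 = true ∧
    pc (2, 1, 2, 1) [(1, false), (0, true), (2, false), (1, true), (0, false)]
      21458039382776045197068572995419685207042 = true ∧
    pc (0, 0, 3, 3) [(1, true), (0, true)]
      19807039492184612368843438310 = true ∧
    pc (0, 2, 2, 2) [(0, false), (2, false), (1, false), (0, false)]
      17945165572855465561289 = true ∧
    pc (3, 1, 1, 1) [(2, false), (1, true), (0, false)]
      4556583940592028729 = true ∧
    pc (0, 2, 3, 1) [(1, true)]
      3 = true ∧
    rok (1, 3, 1, 1) = true ∧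
    rok (0, 0, 5, 1) = true ∧
    True :=
  ⟨by decide +kernel, by decide +kernel, by decide +kernel, by decide +kernel, by decide +kernel, by decide +kernel, by decide +kernel, by decide +kernel, by decide +kernel, by decide +kernel, by decide +kernel, by decide +kernel, by decide +kernel, by decide +kernel, by decide +kernel, by decide +kernel, by decide +kernel, by decide +kernel, trivial⟩

end Pool.Agent.P.MP_2b44f0_gt.PD.Vol
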