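import Pool.Agent.P.MP_2b44f0_gt.PD.VolP

/-!
Kernel check of the volume inequality, part 4.
-/

namespace Pool.Agent.P.MP_2b44f0_gt.PD.Vol

theorem u4 : pc (1, 2, 2, 1) [(2, false), (1, false), (0, false)]
      10816013763184576117034834943571821035874362338332509179088906394633061697897253978437432299718524699411856753327672730044607948075812 = true ∧
    pc (0, 0, 4, 2) [(2, false), (1, false), (0, true), (2, false), (1, true), (0, false)]
      40207243887961446768884639989189038266590003112490503195927381129398929659489446967670116363756291049427424917522953024 = true ∧
    pc (0, 0, 3, 3) [(0, false), (0, true), (0, false), (2, true), (1, false), (0, true), (2, true), (1, false), (0, false)]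
      586696996907670014516115231965336539637110719482946777540762070239571582536645719927641508100523880350514566 = true ∧
    pc (0, 0, 4, 2) [(1, true), (0, true), (2, false), (1, false), (0, false)]
      143123049737514688945825186700854129459649843769989095594069723167803876896597874779766186144691367223677107266 = true ∧
    pc (3, 1, 1, 1) [(2, true), (1, false), (0, false)]
      1986231306863864628025817934733017380011855844850909269063648696397596348562790208145275695908 = true ∧
    pc (2, 0, 3, 1) [(1, false), (0, true), (2, false), (1, true), (0, false)]
      31424201856373381058573548184021387940883007434016766983149756864734579683740992159335234 = true ∧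
    pc (0, 1, 3, 2) [(1, true), (0, true), (2, false), (1, false), (0, false)]
      1722627464932011889086457888033006863241786356701673438030827540993243296002 = true ∧
    pc (1, 0, 3, 2) [(1, true), (0, true), (2, false), (1, false), (0, false)]
      26230739246082186641198540183086319094430772196914463343832373288443650 = true ∧
    pc (0, 1, 4, 1) [(1, true), (0, true), (2, false), (1, false), (0, false)]
      1566860223862859585034833096301518908055454170726478884117147906 = true ∧
    pc (0, 3, 2, 1) []
      26328072917043665377436682622466165684404204461644208270192984649 = true ∧
    pc (0, 1, 3, 2) [(0, false), (2, false), (1, false), (0, false)]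
      5553710375832358805871442576314795713924373213385 = true ∧
    pc (0, 0, 4, 2) [(0, false), (2, true), (1, false), (0, false)]
      5498639796657082827333459326689495724913865 = true ∧
    pc (1, 0, 3, 2) [(0, false), (2, false), (1, true), (0, false)]
      19126187670755681146663661769 = true ∧
    pc (3, 0, 2, 1) [(0, false), (2, true), (1, true), (0, false)]
      1121562715220411141321 = true ∧
    pc (0, 0, 4, 2) [(2, true), (1, true), (0, false)]
      4611671982904166153 = true ∧
    rok (0, 4, 1, 1) = true ∧
    rok (0, 0, 4, 2) = true ∧
    True :=
  ⟨by decide +kernel, by decide +kernel, by decide +kernel, by decide +kernel, by decide +kernel, by decide +kernel, by decide +kernel, by decide +kernel, by decide +kernel, by decide +kernel, by decide +kernel, by decide +kernel, by decide +kernel, by decide +kernel, by decide +kernel, by decide +kernel, by decide +kernel, trivial⟩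

end Pool.Agent.P.MP_2b44f0_gt.PD.Vol
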