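import Pool.Agent.P.MP_2b44f0_gt.PD.VolP

/-!
Kernel check of the volume inequality, part 5.
-/

namespace Pool.Agent.P.MP_2b44f0_gt.PD.Vol

theorem u5 : pc (2, 0, 2, 2) [(2, false), (1, false), (0, false)]
      10815472226469009727814975355753805194229616254625832003859684533334065960891382891403117488355145352272635051336344148813955856134948 = true ∧
    pc (0, 0, 3, 3) [(1, true), (2, false), (0, true), (0, true), (0, true), (2, true), (1, false), (0, true), (2, true), (1, false), (0, false)]
      615535635369243632952140126586069036632813189408300777911071758152474290338822192732251423485053432345666780983686 = true ∧
    pc (1, 0, 3, 2) [(0, true), (2, true), (1, false), (0, true), (2, true), (1, false), (0, false)]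
      8946810328865644835915701135122020880378614471018028534370823530754842210875848371188719756008168410169798800 = true ∧
    pc (0, 0, 5, 1) [(1, true), (0, true), (2, true), (1, false), (0, false)]
      143132529374996895689167945505117950466417986858182824287023928969806114428621854240325334455816059856711597074 = true ∧
    pc (1, 0, 3, 2) [(2, false), (1, false), (0, true)]
      33275482601750270502286712648372309547159550270346687350055760998284177931529508405614284669988 = true ∧
    pc (1, 0, 3, 2) [(2, true), (1, false), (0, false), (2, true), (1, false), (0, true)]
      1987440924249261952484474641589807773186912404860964493767188393036094085078518312225056 = true ∧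
    pc (0, 0, 4, 2) [(0, false), (0, true), (2, true), (1, false), (0, true), (2, true), (1, false), (0, false)]
      436092280897301550235116715685365694229662061625653298121814731820858660 = true ∧
    pc (2, 1, 2, 1) [(2, false), (1, false), (0, false)]
      107673816077009003141756471223358897908036181194181223580777411855646929700 = true ∧
    pc (0, 0, 3, 3) [(1, true), (0, false), (2, true), (1, false), (0, true)]
      102844034826598420539488611124723916221474057067770712509322754 = true ∧
    pc (3, 0, 2, 1) [(0, false), (0, true), (0, true), (2, true), (1, true), (0, true), (2, true), (1, true), (0, false)]
      96816297898634257566379392599822977940545832055165023049 = true ∧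
    pc (0, 2, 3, 1) [(1, true), (0, true), (2, false), (0, false), (1, false)]
      1426181158631547491014415337540592056477666310 = true ∧
    pc (2, 0, 2, 2) [(1, true), (0, true), (2, true), (1, true), (0, false)]
      89182498728372682707213053603189470449681286 = true ∧
    pc (1, 0, 4, 1) [(0, false), (2, true), (1, false), (0, false)]
      19169695644804818660610601161 = true ∧
    pc (3, 0, 2, 1) [(0, false), (2, false), (1, true), (0, false)]
      1121562785589155318985 = true ∧
    pc (2, 1, 2, 1) [(0, false), (2, false), (1, true), (0, false)]
      4381143937678822601 = true ∧
    rok (3, 0, 2, 1) = true ∧
    rok (0, 0, 3, 3) = true ∧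
    True :=
  ⟨by decide +kernel, by decide +kernel, by decide +kernel, by decide +kernel, by decide +kernel, by decide +kernel, by decide +kernel, by decide +kernel, by decide +kernel, by decide +kernel, by decide +kernel, by decide +kernel, by decide +kernel, by decide +kernel, by decide +kernel, by decide +kernel, by decide +kernel, trivial⟩

end Pool.Agent.P.MP_2b44f0_gt.PD.Vol
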