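import Pool.Agent.P.MP_2b44f0_gt.PD.VolP

/-!
Kernel check of the volume inequality, part 6.
-/

namespace Pool.Agent.P.MP_2b44f0_gt.PD.Vol

theorem u6 : pc (1, 0, 3, 2) [(0, true), (0, false), (2, false), (1, true), (0, true), (2, false), (1, true), (0, false)]
      172741283934076972433377827902501891025974978407740221356938797042725122130601441099707352300592613985758697811075317781096493348 = true ∧
    pc (1, 1, 2, 2) [(2, false), (1, false), (0, false)]
      9835341020718085323847678602894471721846647929704748155539425206410925794432751132655056558592734339857195068631277617956 = true ∧
    pc (0, 0, 3, 3) [(2, false), (1, false), (0, true)]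
      157571836643644763488018835746828630068957710895826006168290282482312607139059911307114283255630100433490208914416676 = true ∧
    pc (0, 0, 3, 3) [(2, true), (0, true), (0, false), (0, true), (2, true), (1, false), (0, true), (2, true), (1, false), (0, false)]
      34994377490340524954301562563672173468629360295475935486979727084077440242472887664978586566986549541 = true ∧
    pc (2, 1, 2, 1) [(1, true), (0, true), (2, false), (1, true), (0, false)]
      130193029908891017339136777926946925953822754913996429492243018240382244301223214954746109367172098 = true ∧
    pc (0, 0, 3, 3) [(2, false), (1, false), (0, false), (0, true), (0, true), (2, true), (1, false), (0, true), (2, true), (1, false), (0, false)]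
      7056978543058063183369182124914645532453212431073152216188352115144624310267666 = true ∧
    pc (1, 0, 4, 1) [(1, false), (0, true), (2, true), (1, false), (0, false)]
      107693204152180462277025792652096575309332354258443103719752167467400355586 = true ∧
    pc (3, 0, 2, 1) [(2, true), (1, false), (0, false)]
      1723027784462619920114009419776138340279300711297268172951845221298149847844 = true ∧
    pc (0, 0, 3, 3) [(2, true), (1, false), (0, true), (2, false), (1, false), (0, false)]
      6339602243688604392765507673765977694748243284404605954079936 = true ∧
    pc (1, 0, 3, 2) [(2, true), (1, true), (0, false)]
      6426552159709401954345291104206179158813019804196988825842465 = true ∧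
    pc (3, 0, 2, 1) [(2, true), (1, true), (0, true), (2, false), (1, true), (0, false)]
      5567621290345673021507863197682640729741940980736 = true ∧
    pc (0, 0, 3, 3) [(2, false), (1, false), (0, true), (0, true), (0, false), (2, true), (1, false), (0, true), (2, true), (1, false), (0, false)]
      316424838473846118232194076002909400 = true ∧
    pc (0, 0, 4, 2) [(0, false), (2, false), (1, true), (0, false)]
      301576321600089556454601 = true ∧
    pc (0, 0, 4, 2) [(1, true), (0, true), (2, false), (1, true), (0, false)]
      18889245378031886729366 = true ∧
    pc (1, 0, 3, 2) [(2, true), (1, true), (0, true)]
      73785878981358093345 = true ∧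
    pc (0, 0, 3, 3) [(0, true), (2, true), (1, false), (0, true)]
      3 = true ∧
    rok (2, 1, 2, 1) = true ∧
    True :=
  ⟨by decide +kernel, by decide +kernel, by decide +kernel, by decide +kernel, by decide +kernel, by decide +kernel, by decide +kernel, by decide +kernel, by decide +kernel, by decide +kernel, by decide +kernel, by decide +kernel, by decide +kernel, by decide +kernel, by decide +kernel, by decide +kernel, by decide +kernel, trivial⟩

end Pool.Agent.P.MP_2b44f0_gt.PD.Vol
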