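import Pool.Agent.P.MP_2b44f0_gt.PD.VolP

/-!
Kernel check of the volume inequality, part 7.
-/

namespace Pool.Agent.P.MP_2b44f0_gt.PD.Vol

theorem u7 : pc (0, 0, 4, 2) [(1, true), (0, true), (0, true), (2, true), (1, false), (0, true), (2, true), (1, false), (0, false)]
      645045870104025579073024209548047468959899338280085061094477096464648536029885558887214295928374386415220114754173963390022168 = true ∧
    pc (1, 0, 3, 2) [(1, false), (0, true), (2, false), (1, false), (0, false)]
      614748218205984074141528404721579844021937432752484507383572034859279337340753761839976042632019059569185015541767568386 = true ∧
    pc (0, 0, 3, 3) [(1, true), (2, true), (1, false), (0, false), (0, true), (0, true), (2, true), (1, false), (0, true), (2, true), (1, false), (0, false)]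
      587117181811308166789269925790797014494223346121985633089057854151020721818423883763505495906247313418602594 = true ∧
    pc (0, 0, 4, 2) [(1, true), (0, true)]
      150306716674447407168063868878815356349862598932174986840556834424502748714760222785252362557325860246078902418 = true ∧
    pc (2, 2, 1, 1) [(2, true), (1, false), (0, false)]
      526149594717262709952722548256216667147923091402884574424485890749150270662097894371666118521636 = true ∧
    pc (0, 0, 3, 3) [(1, false), (2, false), (0, false), (0, false), (2, true), (1, false), (0, false), (2, true), (1, false), (0, true)]
      112780115471957886595664556872616823649358980780957383286187368492166626793476632 = true ∧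
    pc (1, 1, 2, 2) [(2, false), (0, true), (2, true), (1, false), (0, false)]
      7061649152946547176320165340498989367621818128670250042689989589170211016395777 = true ∧
    pc (0, 1, 4, 1) [(2, false), (1, false), (0, true), (2, true), (1, false), (0, false)]
      6418267951994752063100736076316135596941009223489489749880212418624 = true ∧
    pc (2, 0, 2, 2) [(1, true), (2, true), (0, true), (2, true), (1, false), (0, false)]
      415484659028630549182816009460010883264503144723977582314349907008 = true ∧
    pc (2, 0, 3, 1) [(1, true), (0, false), (2, false), (1, true), (0, true)]
      6111835799847147979241858492983070927194421825996137538 = true ∧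
    pc (0, 0, 3, 3) [(2, false), (0, false), (0, false), (2, false), (1, false), (0, false), (2, true), (1, false), (0, true)]
      90544243715933258296040939338936574838936085412897 = true ∧
    pc (0, 0, 3, 3) [(0, false), (2, true), (1, false), (0, false)]
      5250366424472709440890734672323342537 = true ∧
    pc (0, 0, 5, 1) [(0, false), (2, true), (1, false), (0, false)]
      1253453733624800956491947081330889 = true ∧
    pc (0, 2, 3, 1) [(0, false), (2, false), (0, false), (1, false)]
      1121572848045769149641 = true ∧
    pc (0, 2, 3, 1) [(0, false), (1, false), (2, true), (0, false), (1, false)]
      265429136178 = true ∧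
    pc (2, 0, 3, 1) [(0, true), (2, false), (1, true), (0, true)]
      3 = true ∧
    rok (1, 2, 2, 1) = true ∧
    True :=
  ⟨by decide +kernel, by decide +kernel, by decide +kernel, by decide +kernel, by decide +kernel, by decide +kernel, by decide +kernel, by decide +kernel, by decide +kernel, by decide +kernel, by decide +kernel, by decide +kernel, by decide +kernel, by decide +kernel, by decide +kernel, by decide +kernel, by decide +kernel, trivial⟩

end Pool.Agent.P.MP_2b44f0_gt.PD.Vol
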