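import Pool.Agent.P.MP_2b44f0_gt.PD.VolP

/-!
Kernel check of the volume inequality, part 8.
-/

namespace Pool.Agent.P.MP_2b44f0_gt.PD.Vol

theorem u8 : pc (2, 0, 3, 1) [(0, true), (0, true), (2, false), (1, true), (0, true), (2, false), (1, true), (0, false)]
      644527624931257189581778612595417054080255654032841328848348081836871943280388949497002460713958832425238600587819001550991889 = true ∧
    pc (2, 0, 3, 1) [(2, true), (1, false), (0, false)]
      163804511835193095354989278707833191575211492903657054596246403114057090168999229472950837353617669423980316899312961123108 = true ∧
    pc (0, 0, 5, 1) [(2, true), (0, true)]
      10328997141883753103616696782277245594230109905621075714594473027240497013527348727079046186718350448199413488042216800401 = true ∧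
    pc (1, 0, 3, 2) [(2, false), (1, false), (0, true), (2, false), (1, true), (0, false)]
      33328199856609883521331621664757519172750155669561937282749340267821538283583868465927627691316464448 = true ∧
    pc (0, 0, 3, 3) [(1, true), (2, false), (0, false), (0, false), (2, true), (1, false), (0, false), (2, true), (1, false), (0, true)]
      508427761964751849777242312413386532957470976233663553820913089556233343297305462348192207013412 = true ∧
    pc (0, 1, 4, 1) [(0, true)]
      124330640791407561600218059408503570212917193543448941309440158310253782576918383313481 = true ∧
    pc (0, 0, 3, 3) [(2, false), (0, true), (0, false), (0, true), (2, true), (1, false), (0, true), (2, true), (1, false), (0, false)]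
      6978945752254675675244292593457216308792722803977986316588560427641683017 = true ∧
    pc (1, 0, 4, 1) [(1, true), (0, true)]
      27606591287609789741088043071745554822096010343399543297029449876263058 = true ∧
    pc (2, 0, 2, 2) [(2, false), (1, false), (0, true)]
      107522302218008749396045389279567064483839991205612733952300153868324 = true ∧
    pc (1, 1, 3, 1) [(0, true)]
      401643519060099067695437462527465471571671457011841990853193 = true ∧
    pc (1, 0, 3, 2) [(2, true), (1, false), (0, true), (2, false), (1, true), (0, false)]
      22800817282841770977894792600176012133133580900367488 = true ∧
    pc (0, 0, 3, 3) [(1, true), (0, true), (0, true), (0, false), (2, true), (1, false), (0, true), (2, true), (1, false), (0, false)]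
      5069655089247895010570974035090 = true ∧
    pc (0, 0, 4, 2) [(0, true), (1, true), (2, false), (0, false), (0, false), (2, true), (1, false), (0, false), (2, true), (1, false), (0, true)]
      1198989707989830259143801106 = true ∧
    pc (0, 0, 4, 2) [(0, false), (2, false), (1, false), (0, false)]
      1121572848045778596041 = true ∧
    pc (0, 0, 4, 2) [(0, true), (2, true), (1, false), (0, false), (2, true), (1, false), (0, true)]
      3 = true ∧
    pc (0, 0, 3, 3) [(0, true), (2, false), (1, false), (0, false), (2, true), (1, false), (0, true)]
      3 = true ∧
    rok (0, 3, 2, 1) = true ∧
    True :=
  ⟨by decide +kernel, by decide +kernel, by decide +kernel, by decide +kernel, by decide +kernel, by decide +kernel, by decide +kernel, by decide +kernel, by decide +kernel, by decide +kernel, by decide +kernel, by decide +kernel, by decide +kernel, by decide +kernel, by decide +kernel, by decide +kernel, by decide +kernel, trivial⟩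

end Pool.Agent.P.MP_2b44f0_gt.PD.Vol
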