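import Pool.Agent.P.MP_2b44f0_gt.PD.VolP

/-!
Kernel check of the volume inequality, part 9.
-/

namespace Pool.Agent.P.MP_2b44f0_gt.PD.Vol

theorem u9 : pc (0, 0, 4, 2) [(0, false), (0, false), (2, true), (1, false), (0, true), (2, true), (1, false), (0, false)]
      645045393677105731844607963326995982532588642422929525716540637351127115084007782688264067886741536334374610637111666017074564 = true ∧
    pc (1, 1, 3, 1) [(2, false), (1, false), (0, false)]
      157365456331489365180278316184911560590057083808107830253813973887940141832783557571810790873853777895751691676546255536932 = true ∧
    pc (0, 0, 3, 3) [(1, false), (2, true), (1, false), (0, false), (0, true), (0, true), (2, true), (1, false), (0, true), (2, true), (1, false), (0, false)]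
      2374669588082219677566684349982268029961463044748500776726831367709761691616902414005733257376647125039241743458 = true ∧
    pc (2, 0, 3, 1) [(0, false), (2, false), (1, true), (0, true), (2, false), (1, true), (0, false)]
      2159381175191640052292725876324759943914590366974133389780647219285669934500062584835234719260799760 = true ∧
    pc (1, 0, 3, 2) [(0, false), (0, true), (0, true), (2, false), (1, true), (0, true), (2, false), (1, true), (0, false)]
      8516802855145946848890903735820359600701419175146695603351195520889278646382902324883750697890329 = true ∧
    pc (1, 0, 4, 1) [(2, false), (1, false), (0, true)]
      485305844906018288656345103945163223682688806331402393955927572474160313792143098916 = true ∧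
    pc (0, 0, 4, 2) [(1, false), (2, false), (0, false), (0, false), (2, true), (1, false), (0, false), (2, true), (1, false), (0, true)]
      111641030545018020238988346091023768711538309631619429099354722301577588760 = true ∧
    pc (2, 1, 2, 1) [(2, true), (1, true), (0, false)]
      1720279555753840434032429484199951410795323302317508651771464365585188 = true ∧
    pc (2, 1, 2, 1) [(0, true)]
      1719954716518662204755746177197185863535746698744763971999641055986249 = true ∧
    pc (2, 0, 3, 1) [(1, true), (0, true), (2, true), (1, true), (0, false)]
      98006733297946529997385724367414289147368250992510169094 = true ∧
    pc (1, 0, 3, 2) [(2, true), (1, true), (0, true), (2, false), (1, true), (0, false)]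
      23660168585664264718474943956581892955019260474412033 = true ∧
    pc (2, 2, 1, 1) [(1, true), (0, false)]
      84816488932955471284434119674653782246 = true ∧
    pc (0, 2, 2, 2) [(1, true), (0, true), (2, false), (1, false), (0, false)]
      20753672272461304915045102758183226 = true ∧
    pc (0, 0, 3, 3) [(1, true), (2, true), (0, true), (0, true), (0, true), (2, true), (1, false), (0, true), (2, true), (1, false), (0, false)]
      4398033672601 = true ∧
    pc (1, 0, 4, 1) [(0, false), (2, false), (1, false), (0, false)]
      1069769771175113 = true ∧
    pc (1, 0, 3, 2) [(0, true), (2, true), (1, false), (0, true)]
      3 = true ∧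
    rok (2, 0, 3, 1) = true ∧
    True :=
  ⟨by decide +kernel, by decide +kernel, by decide +kernel, by decide +kernel, by decide +kernel, by decide +kernel, by decide +kernel, by decide +kernel, by decide +kernel, by decide +kernel, by decide +kernel, by decide +kernel, by decide +kernel, by decide +kernel, by decide +kernel, by decide +kernel, by decide +kernel, trivial⟩

end Pool.Agent.P.MP_2b44f0_gt.PD.Vol
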