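import Pool.Agent.P.MP_2b44f0_gt.PD.Vm0
import Pool.Agent.P.MP_2b44f0_gt.PD.Vm1
import Pool.Agent.P.MP_2b44f0_gt.PD.Vm2
import Pool.Agent.P.MP_2b44f0_gt.PD.Vm3
import Pool.Agent.P.MP_2b44f0_gt.PD.Vm4
import Pool.Agent.P.MP_2b44f0_gt.PD.Vm5
import Pool.Agent.P.MP_2b44f0_gt.PD.Vm6
import Pool.Agent.P.MP_2b44f0_gt.PD.Vm7
import Pool.Agent.P.MP_2b44f0_gt.PD.Vm8
import Pool.Agent.P.MP_2b44f0_gt.PD.Vm9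
import Pool.Agent.P.MP_2b44f0_gt.PD.Vm10
import Pool.Agent.P.MP_2b44f0_gt.PD.Vm11
import Pool.Agent.P.MP_2b44f0_gt.PD.Vm12
import Pool.Agent.P.MP_2b44f0_gt.PD.Vm13
import Pool.Agent.P.MP_2b44f0_gt.PD.Vm14
import Pool.Agent.P.MP_2b44f0_gt.PD.Vm15

/-!
The volume inequality for all multiplicity types.
-/

namespace Pool.Agent.P.MP_2b44f0_gt.PD.Vol

open Set

theorem r0 : rok (4, 0, 1, 1) = true := u0.2.2.2.2.2.2.2.2.2.2.2.2.2.2.2.2.1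

theorem v0 : On (4, 0, 1, 1) [] :=
  (On.glue (On.glue (pc_ok r0 u13.2.2.2.1)
    (On.glue (pc_ok r0 u2.2.2.2.2.2.2.2.2.2.2.2.2.2.2.1)
    (On.glue (pc_ok r0 u10.2.2.2.2.2.2.2.2.2.2.2.2.2.2.1)
    (pc_ok r0 u3.2.1))))
    (pc_ok r0 u1.2.2.2.1))

theorem r1 : rok (3, 1, 1, 1) = true := u1.2.2.2.2.2.2.2.2.2.2.2.2.2.2.2.2.1

theorem v1 : On (3, 1, 1, 1) [] :=
  (On.glue (On.glue (On.glue (pc_ok r1 u14.2.2.2.2.2.2.2.2.2.1)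
    (pc_ok r1 u4.2.2.2.2.1))
    (On.glue (pc_ok r1 u3.2.2.2.2.2.2.2.2.2.2.2.2.2.2.1)
    (pc_ok r1 u13.2.2.1)))
    (pc_ok r1 u13.2.2.2.2.2.2.2.2.2.1))

theorem r2 : rok (2, 2, 1, 1) = true := u2.2.2.2.2.2.2.2.2.2.2.2.2.2.2.2.2.1

theorem v2 : On (2, 2, 1, 1) [] :=
  (On.glue (On.glue (On.glue (pc_ok r2 u1.2.2.2.2.2.1)
    (pc_ok r2 u7.2.2.2.2.1))
    (pc_ok r2 u9.2.2.2.2.2.2.2.2.2.2.2.1))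
    (pc_ok r2 u0.2.2.2.2.2.2.2.2.2.2.2.2.1))

theorem r3 : rok (1, 3, 1, 1) = true := u3.2.2.2.2.2.2.2.2.2.2.2.2.2.2.2.2.1

theorem v3 : On (1, 3, 1, 1) [] :=
  (pc_ok r3 u0.2.2.2.2.2.2.2.2.2.2.1)

theorem r4 : rok (0, 4, 1, 1) = true := u4.2.2.2.2.2.2.2.2.2.2.2.2.2.2.2.1

theorem v4 : On (0, 4, 1, 1) [] :=
  (pc_ok r4 u15.2.2.2.2.2.2.2.2.2.2.2.2.2.2.2.1)

theorem r5 : rok (3, 0, 2, 1) = true := u5.2.2.2.2.2.2.2.2.2.2.2.2.2.2.2.1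

theorem v5 : On (3, 0, 2, 1) [] :=
  (On.glue (On.glue (On.glue (pc_ok r5 u15.2.2.2.2.2.1)
    (pc_ok r5 u6.2.2.2.2.2.2.2.1))
    (On.glue (On.glue (pc_ok r5 u5.2.2.2.2.2.2.2.2.2.2.2.2.2.1)
    (On.glue (pc_ok r5 u2.2.2.2.2.2.2.2.2.2.2.2.1)
    (On.glue (pc_ok r5 u0.2.2.2.2.1)
    (pc_ok r5 u6.2.2.2.2.2.2.2.2.2.2.1))))
    (On.glue (pc_ok r5 u4.2.2.2.2.2.2.2.2.2.2.2.2.2.1)
    (On.glue (pc_ok r5 u15.2.2.2.2.1)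
    (On.glue (pc_ok r5 u3.2.2.2.2.2.1)
    (On.glue (pc_ok r5 u10.2.2.2.2.1)
    (On.glue (pc_ok r5 u12.2.2.2.2.2.2.2.2.2.1)
    (On.glue (pc_ok r5 u5.2.2.2.2.2.2.2.2.2.1)
    (pc_ok r5 u15.1)))))))))
    (On.glue (pc_ok r5 u0.2.2.2.2.2.1)
    (On.glue (pc_ok r5 u1.2.2.2.2.2.2.2.1)
    (On.glue (On.glue (pc_ok r5 u14.2.2.2.2.2.1)
    (pc_ok r5 u13.2.2.2.2.2.2.1))
    (pc_ok r5 u2.2.2.2.2.2.2.2.2.2.2.2.2.2.2.2.1)))))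

theorem r6 : rok (2, 1, 2, 1) = true := u6.2.2.2.2.2.2.2.2.2.2.2.2.2.2.2.2.1

theorem v6 : On (2, 1, 2, 1) [] :=
  (On.glue (On.glue (On.glue (pc_ok r6 u5.2.2.2.2.2.2.2.1)
    (On.glue (pc_ok r6 u1.2.2.2.2.2.2.2.2.2.2.2.2.2.1)
    (pc_ok r6 u1.2.1)))
    (On.glue (On.glue (pc_ok r6 u5.2.2.2.2.2.2.2.2.2.2.2.2.2.2.1)
    (On.glue (pc_ok r6 u3.2.2.2.2.2.2.2.2.2.2.2.1)
    (pc_ok r6 u6.2.2.2.2.1)))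
    (pc_ok r6 u9.2.2.2.2.2.2.2.1)))
    (pc_ok r6 u9.2.2.2.2.2.2.2.2.1))

theorem r7 : rok (1, 2, 2, 1) = true := u7.2.2.2.2.2.2.2.2.2.2.2.2.2.2.2.2.1

theorem v7 : On (1, 2, 2, 1) [] :=
  (On.glue (On.glue (On.glue (pc_ok r7 u4.1)
    (pc_ok r7 u14.2.1))
    (pc_ok r7 u15.2.2.2.2.2.2.2.2.2.2.2.2.2.2.1))
    (pc_ok r7 u12.2.2.2.2.2.2.2.2.2.2.2.2.1))

theorem r8 : rok (0, 3, 2, 1) = true := u8.2.2.2.2.2.2.2.2.2.2.2.2.2.2.2.2.1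

theorem v8 : On (0, 3, 2, 1) [] :=
  (pc_ok r8 u4.2.2.2.2.2.2.2.2.2.1)

theorem r9 : rok (2, 0, 3, 1) = true := u9.2.2.2.2.2.2.2.2.2.2.2.2.2.2.2.2.1

theorem v9 : On (2, 0, 3, 1) [] :=
  (On.glue (On.glue (On.glue (pc_ok r9 u10.2.1)
    (pc_ok r9 u8.2.1))
    (On.glue (On.glue (pc_ok r9 u13.2.2.2.2.2.2.2.2.2.2.2.2.2.1)
    (On.glue (pc_ok r9 u4.2.2.2.2.2.1)
    (On.glue (On.glue (pc_ok r9 u9.2.2.2.1)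
    (On.glue (pc_ok r9 u13.2.2.2.2.2.2.2.1)
    (pc_ok r9 u8.1)))
    (pc_ok r9 u12.2.2.2.2.2.2.2.1))))
    (On.glue (pc_ok r9 u12.2.2.2.2.2.2.2.2.2.2.2.2.2.1)
    (On.glue (pc_ok r9 u12.2.2.2.2.2.2.1)
    (pc_ok r9 u9.2.2.2.2.2.2.2.2.2.1)))))
    (On.glue (pc_ok r9 u12.1)
    (On.glue (On.glue (On.glue (pc_ok r9 u12.2.2.2.1)
    (pc_ok r9 u7.2.2.2.2.2.2.2.2.2.1))
    (pc_ok r9 u7.2.2.2.2.2.2.2.2.2.2.2.2.2.2.2.1))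
    (pc_ok r9 u3.2.2.2.2.2.2.2.2.2.1))))

theorem r10 : rok (1, 1, 3, 1) = true := u10.2.2.2.2.2.2.2.2.2.2.2.2.2.2.2.1

theorem v10 : On (1, 1, 3, 1) [] :=
  (On.glue (On.glue (On.glue (pc_ok r10 u9.2.1)
    (On.glue (pc_ok r10 u15.2.2.2.2.2.2.2.2.2.2.2.2.1)
    (On.glue (pc_ok r10 u10.1)
    (pc_ok r10 u10.2.2.2.2.2.2.2.2.2.2.1))))
    (pc_ok r10 u12.2.2.2.2.2.2.2.2.1))
    (pc_ok r10 u8.2.2.2.2.2.2.2.2.2.1))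

theorem r11 : rok (0, 2, 3, 1) = true := u11.2.2.2.2.2.2.2.2.2.2.2.2.2.2.2.2.1

theorem v11 : On (0, 2, 3, 1) [] :=
  (On.glue (On.glue (On.glue (On.glue (pc_ok r11 u7.2.2.2.2.2.2.2.2.2.2.2.2.2.1)
    (On.glue (On.glue (pc_ok r11 u15.2.1)
    (pc_ok r11 u1.2.2.2.2.2.2.2.2.1))
    (pc_ok r11 u5.2.2.2.2.2.2.2.2.2.2.1)))
    (On.glue (On.glue (pc_ok r11 u7.2.2.2.2.2.2.2.2.2.2.2.2.2.2.1)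
    (On.glue (pc_ok r11 u14.2.2.2.2.2.2.2.1)
    (pc_ok r11 u2.2.2.2.2.1)))
    (pc_ok r11 u12.2.2.2.2.2.2.2.2.2.2.2.2.2.2.2.1)))
    (pc_ok r11 u1.2.2.2.2.2.2.2.2.2.2.1))
    (pc_ok r11 u3.2.2.2.2.2.2.2.2.2.2.2.2.2.2.2.1))

theorem r12 : rok (2, 0, 2, 2) = true := u12.2.2.2.2.2.2.2.2.2.2.2.2.2.2.2.2.1

theorem v12 : On (2, 0, 2, 2) [] :=
  (On.glue (On.glue (On.glue (pc_ok r12 u5.1)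
    (On.glue (pc_ok r12 u10.2.2.2.2.2.2.2.2.2.2.2.2.1)
    (On.glue (pc_ok r12 u10.2.2.2.2.2.2.1)
    (On.glue (On.glue (pc_ok r12 u1.2.2.1)
    (pc_ok r12 u15.2.2.2.2.2.2.2.2.1))
    (pc_ok r12 u7.2.2.2.2.2.2.2.2.1)))))
    (On.glue (pc_ok r12 u0.2.2.2.2.2.2.2.2.2.2.2.2.2.2.1)
    (On.glue (pc_ok r12 u15.2.2.2.2.2.2.2.2.2.2.2.2.2.1)
    (On.glue (pc_ok r12 u14.2.2.2.1)
    (pc_ok r12 u5.2.2.2.2.2.2.2.2.2.2.2.1)))))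
    (On.glue (On.glue (pc_ok r12 u8.2.2.2.2.2.2.2.2.1)
    (On.glue (On.glue (pc_ok r12 u14.2.2.2.2.2.2.2.2.1)
    (pc_ok r12 u3.2.2.2.2.2.2.2.1))
    (pc_ok r12 u0.2.2.2.2.2.2.2.2.2.2.2.2.2.2.2.1)))
    (pc_ok r12 u15.2.2.2.2.2.2.2.1)))

theorem r13 : rok (1, 1, 2, 2) = true := u13.2.2.2.2.2.2.2.2.2.2.2.2.2.2.2.2.1

theorem v13 : On (1, 1, 2, 2) [] :=
  (On.glue (On.glue (On.glue (pc_ok r13 u6.2.1)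
    (On.glue (pc_ok r13 u2.2.2.2.2.2.2.2.2.2.2.2.2.2.1)
    (On.glue (pc_ok r13 u7.2.2.2.2.2.2.1)
    (On.glue (On.glue (pc_ok r13 u13.2.2.2.2.2.2.2.2.1)
    (pc_ok r13 u11.2.2.2.2.2.2.1))
    (pc_ok r13 u11.2.2.2.2.2.2.2.2.2.2.2.2.2.1)))))
    (pc_ok r13 u11.2.2.2.2.2.2.2.2.2.2.2.2.1))
    (pc_ok r13 u2.2.2.2.2.2.2.2.2.2.1))

theorem r14 : rok (0, 2, 2, 2) = true := u14.2.2.2.2.2.2.2.2.2.2.2.2.2.2.2.2.1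

theorem v14 : On (0, 2, 2, 2) [] :=
  (On.glue (On.glue (On.glue (On.glue (pc_ok r14 u3.2.2.2.2.2.2.2.2.2.2.2.2.2.1)
    (On.glue (On.glue (On.glue (pc_ok r14 u10.2.2.2.1)
    (pc_ok r14 u13.2.2.2.2.2.2.2.2.2.2.1))
    (pc_ok r14 u0.2.2.2.2.2.2.2.2.1))
    (pc_ok r14 u9.2.2.2.2.2.2.2.2.2.2.2.2.1)))
    (pc_ok r14 u13.2.2.2.2.2.2.2.2.2.2.2.2.1))
    (pc_ok r14 u14.2.2.2.2.2.2.2.2.2.2.2.2.2.2.2.1))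
    (pc_ok r14 u10.2.2.2.2.2.2.2.2.2.2.2.1))

theorem r15 : rok (1, 0, 4, 1) = true := u15.2.2.2.2.2.2.2.2.2.2.2.2.2.2.2.2.1

theorem v15 : On (1, 0, 4, 1) [] :=
  (On.glue (On.glue (On.glue (On.glue (pc_ok r15 u9.2.2.2.2.2.2.2.2.2.2.2.2.2.2.1)
    (On.glue (pc_ok r15 u3.2.2.2.2.1)
    (pc_ok r15 u12.2.2.2.2.2.2.2.2.2.2.1)))
    (On.glue (pc_ok r15 u5.2.2.2.2.2.2.2.2.2.2.2.2.1)
    (On.glue (pc_ok r15 u6.2.2.2.2.2.2.1)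
    (pc_ok r15 u3.2.2.2.2.2.2.2.2.1))))
    (On.glue (pc_ok r15 u2.2.1)
    (pc_ok r15 u14.2.2.2.2.2.2.2.2.2.2.1)))
    (On.glue (On.glue (pc_ok r15 u9.2.2.2.2.2.1)
    (pc_ok r15 u3.2.2.2.2.2.2.1))
    (pc_ok r15 u8.2.2.2.2.2.2.2.1)))

theorem r16 : rok (0, 1, 4, 1) = true := u0.2.2.2.2.2.2.2.2.2.2.2.2.2.2.2.2.2.1

theorem v16 : On (0, 1, 4, 1) [] :=
  (On.glue (On.glue (On.glue (On.glue (pc_ok r16 u14.2.2.2.2.2.2.2.2.2.2.2.1)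
    (On.glue (pc_ok r16 u15.2.2.2.2.2.2.1)
    (pc_ok r16 u4.2.2.2.2.2.2.2.2.1)))
    (On.glue (pc_ok r16 u1.2.2.2.2.2.2.2.2.2.2.2.2.1)
    (On.glue (On.glue (pc_ok r16 u7.2.2.2.2.2.2.2.1)
    (On.glue (pc_ok r16 u15.2.2.1)
    (pc_ok r16 u1.2.2.2.2.2.2.2.2.2.1)))
    (pc_ok r16 u2.2.2.2.2.2.2.2.2.1))))
    (pc_ok r16 u13.2.2.2.2.2.2.2.2.2.2.2.2.2.2.1))
    (pc_ok r16 u8.2.2.2.2.2.1))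

theorem r17 : rok (1, 0, 3, 2) = true := u1.2.2.2.2.2.2.2.2.2.2.2.2.2.2.2.2.2.1

theorem v17 : On (1, 0, 3, 2) [] :=
  (On.glue (On.glue (On.glue (On.glue (pc_ok r17 u1.2.2.2.2.2.2.2.2.2.2.2.2.2.2.1)
    (On.glue (pc_ok r17 u7.2.1)
    (pc_ok r17 u4.2.2.2.2.2.2.2.1)))
    (On.glue (pc_ok r17 u11.2.2.2.2.2.2.2.2.2.2.2.1)
    (On.glue (On.glue (pc_ok r17 u10.2.2.2.2.2.2.2.1)
    (On.glue (On.glue (pc_ok r17 u2.2.2.2.2.2.1)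
    (pc_ok r17 u13.2.2.2.2.2.1))
    (pc_ok r17 u5.2.2.1)))
    (pc_ok r17 u13.2.1))))
    (On.glue (On.glue (pc_ok r17 u4.2.2.2.2.2.2.2.2.2.2.2.2.1)
    (On.glue (On.glue (pc_ok r17 u8.2.2.2.1)
    (pc_ok r17 u8.2.2.2.2.2.2.2.2.2.2.1))
    (On.glue (On.glue (On.glue (pc_ok r17 u0.2.2.2.2.2.2.2.2.2.2.2.1)
    (pc_ok r17 u6.1))
    (On.glue (pc_ok r17 u14.1)
    (On.glue (pc_ok r17 u9.2.2.2.2.1)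
    (pc_ok r17 u11.2.1))))
    (pc_ok r17 u9.2.2.2.2.2.2.2.2.2.2.1))))
    (pc_ok r17 u6.2.2.2.2.2.2.2.2.2.1)))
    (On.glue (On.glue (pc_ok r17 u5.2.2.2.2.1)
    (On.glue (On.glue (On.glue (pc_ok r17 u10.2.2.2.2.2.2.2.2.2.1)
    (pc_ok r17 u5.2.2.2.2.2.1))
    (pc_ok r17 u11.2.2.2.2.2.2.2.2.2.1))
    (pc_ok r17 u9.2.2.2.2.2.2.2.2.2.2.2.2.2.2.2.1)))
    (On.glue (On.glue (On.glue (On.glue (pc_ok r17 u14.2.2.1)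
    (pc_ok r17 u14.2.2.2.2.2.2.2.2.2.2.2.2.1))
    (pc_ok r17 u0.2.2.2.2.2.2.1))
    (pc_ok r17 u1.2.2.2.2.2.2.2.2.2.2.2.2.2.2.2.1))
    (pc_ok r17 u6.2.2.2.2.2.2.2.2.2.2.2.2.2.2.1))))

theorem r18 : rok (0, 1, 3, 2) = true := u2.2.2.2.2.2.2.2.2.2.2.2.2.2.2.2.2.2.1

theorem v18 : On (0, 1, 3, 2) [] :=
  (On.glue (On.glue (On.glue (On.glue (pc_ok r18 u4.2.2.2.2.2.2.2.2.2.2.1)
    (On.glue (pc_ok r18 u13.2.2.2.2.1)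
    (pc_ok r18 u4.2.2.2.2.2.2.1)))
    (On.glue (pc_ok r18 u14.2.2.2.2.2.2.2.2.2.2.2.2.2.1)
    (On.glue (On.glue (pc_ok r18 u11.2.2.2.2.1)
    (On.glue (pc_ok r18 u0.2.2.1)
    (On.glue (pc_ok r18 u12.2.2.2.2.2.1)
    (pc_ok r18 u14.2.2.2.2.2.2.1))))
    (pc_ok r18 u2.2.2.2.2.2.2.2.2.2.2.2.2.1))))
    (pc_ok r18 u2.2.2.2.2.2.2.2.1))
    (pc_ok r18 u3.2.2.1))

theorem r19 : rok (0, 0, 5, 1) = true := u3.2.2.2.2.2.2.2.2.2.2.2.2.2.2.2.2.2.1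

theorem v19 : On (0, 0, 5, 1) [] :=
  (On.glue (On.glue (On.glue (On.glue (pc_ok r19 u10.2.2.2.2.2.2.2.2.2.2.2.2.2.1)
    (On.glue (pc_ok r19 u1.1)
    (pc_ok r19 u0.2.2.2.2.2.2.2.1)))
    (On.glue (pc_ok r19 u7.2.2.2.2.2.2.2.2.2.2.2.2.1)
    (On.glue (pc_ok r19 u13.1)
    (pc_ok r19 u5.2.2.2.1))))
    (pc_ok r19 u0.2.2.2.2.2.2.2.2.2.1))
    (On.glue (pc_ok r19 u14.2.2.2.2.1)
    (pc_ok r19 u8.2.2.1)))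

theorem r20 : rok (0, 0, 4, 2) = true := u4.2.2.2.2.2.2.2.2.2.2.2.2.2.2.2.2.1

theorem v20 : On (0, 0, 4, 2) [] :=
  (On.glue (On.glue (On.glue (On.glue (pc_ok r20 u8.2.2.2.2.2.2.2.2.2.2.2.2.2.1)
    (On.glue (On.glue (pc_ok r20 u2.2.2.2.1)
    (pc_ok r20 u11.2.2.2.2.2.2.2.2.1))
    (pc_ok r20 u4.2.2.2.1)))
    (On.glue (pc_ok r20 u4.2.2.2.2.2.2.2.2.2.2.2.1)
    (On.glue (On.glue (pc_ok r20 u2.1)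
    (On.glue (On.glue (pc_ok r20 u9.1)
    (On.glue (pc_ok r20 u0.2.2.2.1)
    (pc_ok r20 u15.2.2.2.2.2.2.2.2.2.2.1)))
    (On.glue (pc_ok r20 u5.2.2.2.2.2.2.1)
    (On.glue (pc_ok r20 u1.2.2.2.2.2.2.1)
    (pc_ok r20 u7.1)))))
    (On.glue (pc_ok r20 u11.2.2.2.2.2.1)
    (pc_ok r20 u11.2.2.1)))))
    (On.glue (On.glue (pc_ok r20 u6.2.2.2.2.2.2.2.2.2.2.2.2.1)
    (On.glue (On.glue (pc_ok r20 u4.2.1)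
    (pc_ok r20 u3.2.2.2.2.2.2.2.2.2.2.1))
    (pc_ok r20 u6.2.2.2.2.2.2.2.2.2.2.2.2.2.1)))
    (pc_ok r20 u4.2.2.2.2.2.2.2.2.2.2.2.2.2.2.1)))
    (On.glue (On.glue (pc_ok r20 u12.2.1)
    (On.glue (On.glue (On.glue (pc_ok r20 u11.1)
    (On.glue (On.glue (On.glue (On.glue (pc_ok r20 u9.2.2.2.2.2.2.1)
    (On.glue (pc_ok r20 u10.2.2.1)
    (pc_ok r20 u8.2.2.2.2.2.2.2.2.2.2.2.2.1)))
    (pc_ok r20 u1.2.2.2.2.2.2.2.2.2.2.2.1))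
    (pc_ok r20 u14.2.2.2.2.2.2.2.2.2.2.2.2.2.2.1))
    (pc_ok r20 u8.2.2.2.2.2.2.2.2.2.2.2.2.2.2.1)))
    (pc_ok r20 u1.2.2.2.2.1))
    (pc_ok r20 u13.2.2.2.2.2.2.2.2.2.2.2.2.2.2.2.1)))
    (pc_ok r20 u7.2.2.2.1)))

theorem r21 : rok (0, 0, 3, 3) = true := u5.2.2.2.2.2.2.2.2.2.2.2.2.2.2.2.2.1

theorem v21 : On (0, 0, 3, 3) [] :=
  (On.glue (On.glue (On.glue (On.glue (pc_ok r21 u0.2.2.2.2.2.2.2.2.2.2.2.2.2.1)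
    (On.glue (On.glue (pc_ok r21 u12.2.2.1)
    (pc_ok r21 u6.2.2.2.2.2.2.2.2.1))
    (pc_ok r21 u2.2.2.2.2.2.2.1)))
    (On.glue (pc_ok r21 u7.2.2.2.2.2.2.2.2.2.2.2.1)
    (On.glue (On.glue (On.glue (pc_ok r21 u2.2.2.2.2.2.2.2.2.2.2.1)
    (On.glue (pc_ok r21 u13.2.2.2.2.2.2.2.2.2.2.2.1)
    (pc_ok r21 u0.1)))
    (On.glue (On.glue (pc_ok r21 u15.2.2.2.2.2.2.2.2.2.1)
    (On.glue (pc_ok r21 u4.2.2.1)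
    (On.glue (On.glue (pc_ok r21 u6.2.2.2.2.2.2.2.2.2.2.2.1)
    (pc_ok r21 u3.1))
    (pc_ok r21 u8.2.2.2.2.2.2.2.2.2.2.2.1))))
    (On.glue (On.glue (On.glue (pc_ok r21 u10.2.2.2.2.2.2.2.2.1)
    (pc_ok r21 u2.2.2.1))
    (On.glue (pc_ok r21 u8.2.2.2.2.2.2.1)
    (pc_ok r21 u6.2.2.2.1)))
    (On.glue (On.glue (On.glue (pc_ok r21 u6.2.2.2.2.2.1)
    (On.glue (pc_ok r21 u9.2.2.1)
    (pc_ok r21 u7.2.2.1)))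
    (pc_ok r21 u11.2.2.2.2.2.2.2.1))
    (On.glue (On.glue (On.glue (pc_ok r21 u11.2.2.2.2.2.2.2.2.2.2.1)
    (pc_ok r21 u12.2.2.2.2.1))
    (pc_ok r21 u5.2.1))
    (On.glue (On.glue (pc_ok r21 u11.2.2.2.1)
    (pc_ok r21 u3.2.2.2.1))
    (pc_ok r21 u9.2.2.2.2.2.2.2.2.2.2.2.2.2.1)))))))
    (pc_ok r21 u0.2.1))))
    (pc_ok r21 u12.2.2.2.2.2.2.2.2.2.2.2.1))
    (On.glue (On.glue (pc_ok r21 u6.2.2.1)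
    (On.glue (On.glue (On.glue (On.glue (On.glue (On.glue (pc_ok r21 u7.2.2.2.2.2.2.2.2.2.2.1)
    (On.glue (pc_ok r21 u15.2.2.2.1)
    (pc_ok r21 u10.2.2.2.2.2.1)))
    (pc_ok r21 u12.2.2.2.2.2.2.2.2.2.2.2.2.2.2.1))
    (pc_ok r21 u8.2.2.2.2.2.2.2.2.2.2.2.2.2.2.2.1))
    (On.glue (On.glue (On.glue (On.glue (pc_ok r21 u7.2.2.2.2.2.1)
    (pc_ok r21 u8.2.2.2.2.1))
    (pc_ok r21 u15.2.2.2.2.2.2.2.2.2.2.2.1))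
    (pc_ok r21 u11.2.2.2.2.2.2.2.2.2.2.2.2.2.2.1))
    (pc_ok r21 u11.2.2.2.2.2.2.2.2.2.2.2.2.2.2.2.1)))
    (pc_ok r21 u5.2.2.2.2.2.2.2.2.1))
    (pc_ok r21 u6.2.2.2.2.2.2.2.2.2.2.2.2.2.2.2.1)))
    (pc_ok r21 u3.2.2.2.2.2.2.2.2.2.2.2.2.1)))

theorem all_types : ∀ t ∈ types, ∀ z ∈ Icc (0 : ℝ) 1, ∀ x ∈ Icc (0 : ℝ) 1, ∀ y ∈ Icc (0 : ℝ) 1,
    Tgt cF cG PD.cf t z x y := by
  simp only [types, List.forall_mem_cons]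
  exact ⟨On.top r0 v0,
    On.top r1 v1,
    On.top r2 v2,
    On.top r3 v3,
    On.top r4 v4,
    On.top r5 v5,
    On.top r6 v6,
    On.top r7 v7,
    On.top r8 v8,
    On.top r9 v9,
    On.top r10 v10,
    On.top r11 v11,
    On.top r12 v12,
    On.top r13 v13,
    On.top r14 v14,
    On.top r15 v15,
    On.top r16 v16,
    On.top r17 v17,
    On.top r18 v18,
    On.top r19 v19,
    On.top r20 v20,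
    On.top r21 v21, by simp⟩

end Pool.Agent.P.MP_2b44f0_gt.PD.Vol
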