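import Pool.Agent.P.MP_2b44f0_gt.PD.BnE
import Pool.Agent.P.MP_2b44f0_gt.PD.Pol
import Pool.Agent.P.MP_2b44f0_gt.PD.IfV

/-!
The arrays of the volume check for one multiplicity type.
-/

namespace Pool.Agent.P.MP_2b44f0_gt.PD.Vol

open Bn Pol

/-- a multiplicity type -/
abbrev Ty : Type := ℕ × ℕ × ℕ × ℕ

/-- the normalised first cut -/
noncomputable def kh (t : Ty) (x y : ℝ) : ℝ := (t.2.1 + t.2.2.1 * x + t.2.2.2 * y) / 6

/-- the state -/
noncomputable def st (t : Ty) (z x y : ℝ) : W :=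
  (2 * z - 1, 1 - 2 * kh t x y, 2 / 3 * (t.2.2.1 * (x * (1 - x)) + t.2.2.2 * (y * (1 - y))))

/-- the linear part of the certificate -/
noncomputable def Ev (F G : Pol) (w : W) : ℝ :=
  3 * (1 - w.2.1 ^ 2 - w.2.2) * ev F w + (1 - w.2.1) / 2 * ev G w + (1 + w.2.1) / 2 * ev (rf G) w

/-- the right hand side times `z ^ 6` -/
noncomputable def Rv (F G f : Pol) (z : ℝ) (w : W) : ℝ :=
  z ^ 4 * ((6 * z ^ 2 - 6 * (1 - w.2.1 ^ 2 - w.2.2) * (1 - z) ^ 2) * Ev F G w +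
    (6 * (1 - w.2.1 ^ 2 - w.2.2) * (1 - z) ^ 2 - 25 / 4 * z ^ 2) * ev f w ^ 2)

/-- the neighbourhood of the extremal state -/
def Loc (w : W) : Prop := |w.1 + w.2.2 / 4| ≤ 1 / 16 ∧ w.2.1 ≤ 1 / 16 ∧ w.2.2 ≤ 1 / 4

/-- the scale -/
noncomputable def sg (z : ℝ) : ℝ := 2 * (1 - z) / z

/-- the inequality for one type -/
def Tgt (F G f : Pol) (t : Ty) (z x y : ℝ) : Prop :=
  1 / 8 < z → z < 1 → 0 < kh t x y → kh t x y ≤ 1 / 2 → (t.2.2.1 = t.2.2.2 → x ≤ y) →
    ¬ Loc (st t z x y) →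
    volT t (sg z * kh t x y) (sg z * (1 - kh t x y)) (sg z * (x - kh t x y))
      (sg z * (y - kh t x y)) * z ^ 6 ≤
      2 / 3 * z ^ 6 + (Real.pi / 16 - 1 / 6) / 2 ^ 28 * Rv F G f z (st t z x y)

/-- elementary symmetric functions -/
noncomputable def elR : List ℝ → ℕ → ℝ
  | _, 0 => 1
  | [], _ + 1 => 0
  | m :: l, j + 1 => elR l (j + 1) + m * elR l j

/-- packed elementary symmetric functions -/
def elP (W : Wd) : List PV → ℕ → PV
  | _, 0 => PV.cst 1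
  | [], _ + 1 => PV.cst 0
  | m :: l, j + 1 => PV.add W (elP W l (j + 1)) (m.mul (elP W l j))

theorem rel_el (W : Wd) : ∀ (l : List (PV × (ℝ → ℝ → ℝ → ℝ))), (∀ t ∈ l, Rel W t.1 t.2) → ∀ j,
    Rel W (elP W (l.map Prod.fst) j) (fun x y z => elR (l.map fun t => t.2 x y z) j)
  | l, _, 0 => by
    rw [elP]
    exact (rel_cst W 1).congr fun _ _ _ => by simp [elR]
  | [], _, j + 1 => (rel_cst W 0).congr fun _ _ _ => by simp [elR]
  | m :: l, h, j + 1 => by
    have ih := rel_el W l fun t ht => h t (List.mem_cons_of_mem _ ht)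
    exact (ih (j + 1)).add ((h m (by simp)).mul (ih j))

theorem el_prod (s : ℝ) : ∀ (l : List ℝ) (n : ℕ), l.length ≤ n →
    (l.map fun m => 1 + s * m).prod = ∑ j ∈ Finset.range (n + 1), elR l j * s ^ j
  | [], n, _ => by
    rw [Finset.sum_range_succ']
    simp [elR]
  | m :: l, 0, h => by simp at h
  | m :: l, n + 1, h => by
    have h1 := el_prod s l n (by simpa using h)
    have h2 := el_prod s l (n + 1) (by simp at h; omega)
    rw [Finset.sum_range_succ'] at h2 ⊢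
    simp only [List.map_cons, List.prod_cons, elR, add_mul, Finset.sum_add_distrib] at h2 ⊢
    have h3 : ∑ j ∈ Finset.range (n + 1), m * elR l j * s ^ (j + 1) =
        s * m * ∑ j ∈ Finset.range (n + 1), elR l j * s ^ j := by
      rw [Finset.mul_sum]
      exact Finset.sum_congr rfl fun _ _ => by ring
    rw [h3, ← h1]
    linarith

theorem el_one : ∀ l : List ℝ, elR l 1 = l.sum
  | [] => by simp [elR]
  | m :: l => by simp [elR, el_one l, add_comm]

/-- the list of the four values with multiplicities -/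
def rep {α : Type} (t : Ty) (a b c d : α) : List α :=
  List.replicate t.1 a ++ List.replicate t.2.1 b ++ List.replicate t.2.2.1 c ++
    List.replicate t.2.2.2 d

/-- the symmetric functions of six times the normalised curvatures -/
noncomputable def eh (t : Ty) (x y : ℝ) (j : ℕ) : ℝ :=
  elR (rep t (-(6 * kh t x y)) (6 - 6 * kh t x y) (6 * x - 6 * kh t x y) (6 * y - 6 * kh t x y)) j

theorem eh_prod {t : Ty} (ht : t.1 + t.2.1 + t.2.2.1 + t.2.2.2 = 6) (s x y ξ : ℝ) :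
    (1 - ξ * (s * kh t x y)) ^ t.1 * (1 + ξ * (s * (1 - kh t x y))) ^ t.2.1 *
      (1 + ξ * (s * (x - kh t x y))) ^ t.2.2.1 * (1 + ξ * (s * (y - kh t x y))) ^ t.2.2.2 =
      ∑ j ∈ Finset.range 7, eh t x y j * (s / 6) ^ j * ξ ^ j := by
  have h := el_prod (s / 6 * ξ) (rep t (-(6 * kh t x y)) (6 - 6 * kh t x y)
    (6 * x - 6 * kh t x y) (6 * y - 6 * kh t x y)) 6 (by simp [rep]; omega)
  simp only [rep, List.map_append, List.prod_append, List.map_replicate, List.prod_replicate] at h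
  simp only [eh, rep, mul_assoc _ (_ ^ _) (ξ ^ _), ← mul_pow]
  rw [← h, show 1 - ξ * (s * kh t x y) = 1 + s / 6 * ξ * -(6 * kh t x y) by ring,
    show ξ * (s * (1 - kh t x y)) = s / 6 * ξ * (6 - 6 * kh t x y) by ring,
    show ξ * (s * (x - kh t x y)) = s / 6 * ξ * (6 * x - 6 * kh t x y) by ring,
    show ξ * (s * (y - kh t x y)) = s / 6 * ξ * (6 * y - 6 * kh t x y) by ring]

theorem eh_one {t : Ty} (ht : t.1 + t.2.1 + t.2.2.1 + t.2.2.2 = 6) (x y : ℝ) :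
    eh t x y 1 = 0 := by
  have h : (t.1 : ℝ) + t.2.1 + t.2.2.1 + t.2.2.2 = 6 := by exact_mod_cast ht
  rw [eh, el_one]
  simp only [rep, List.sum_append, List.sum_replicate, nsmul_eq_mul]
  have : 6 * kh t x y = t.2.1 + t.2.2.1 * x + t.2.2.2 * y := by unfold kh; ring
  linear_combination (-(6 * kh t x y)) * h - 6 * this

/-- `3 ^ N` times the polynomial at `(X, T / 3, Y / 3)` -/
def polPV (W : Wd) (X T Y : PV) (N : ℕ) : Pol → PV
  | [] => PV.cst 0
  | m :: p => PV.add W (PV.smul (m.2.2.2 * 3 ^ (N - m.2.1 - m.2.2.1))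
      ((X.pow m.1).mul ((T.pow m.2.1).mul (Y.pow m.2.2.1)))) (polPV W X T Y N p)

theorem rel_pol {W : Wd} {X T Y : PV} {a b c : ℝ → ℝ → ℝ → ℝ} (hX : Rel W X a) (hT : Rel W T b)
    (hY : Rel W Y c) (N : ℕ) : ∀ p : Pol, (∀ m ∈ p, m.2.1 + m.2.2.1 ≤ N) →
    Rel W (polPV W X T Y N p) (fun x y z => 3 ^ N * ev p (a x y z, b x y z / 3, c x y z / 3))
  | [], _ => (rel_cst W 0).congr fun _ _ _ => by simp [ev]
  | m :: p, h => by
    refine ((((hX.pow m.1).mul ((hT.pow m.2.1).mul (hY.pow m.2.2.1))).smul _).add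
      (rel_pol hX hT hY N p fun t ht => h t (List.mem_cons_of_mem _ ht))).congr fun x y z => ?_
    obtain ⟨r, rfl⟩ := Nat.exists_eq_add_of_le (h m (by simp))
    rw [show m.2.1 + m.2.2.1 + r - m.2.1 - m.2.2.1 = r by omega]
    simp only [ev, div_pow, pow_add]
    push_cast
    field_simp

/-- six times the normalised first cut -/
def k6 (W : Wd) (t : Ty) : PV :=
  PV.add W (PV.a2 W t.2.1 (t.2.1 + t.2.2.1)) (PV.a3 W 0 t.2.2.2)

/-- three times `τ` -/
def t3 (W : Wd) (t : Ty) : PV := PV.sub W (PV.cst 3) (k6 W t)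

/-- three times `Y` -/
def y3 (W : Wd) (t : Ty) : PV :=
  PV.add W (PV.smul (2 * t.2.2.1) ((PV.a2 W 0 1).mul (PV.a2 W 1 0)))
    (PV.smul (2 * t.2.2.2) ((PV.a3 W 0 1).mul (PV.a3 W 1 0)))

/-- nine times `y` -/
def y9 (W : Wd) (T Y : PV) : PV := PV.sub W (PV.sub W (PV.cst 9) (T.mul T)) (PV.smul 3 Y)

/-- `6 * 3 ^ 6` times the linear part -/
def evPV (W : Wd) (F G : Pol) (X T Y : PV) : PV :=
  PV.add W (PV.smul 2 ((y9 W T Y).mul (polPV W X T Y 6 F)))
    (PV.add W ((PV.sub W (PV.cst 3) T).mul (polPV W X T Y 6 G))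
      ((PV.add W (PV.cst 3) T).mul (polPV W X T Y 6 (rf G))))

/-- the degrees are small enough -/
def Deg (F G f : Pol) : Prop :=
  (∀ m ∈ F, m.2.1 + m.2.2.1 ≤ 6) ∧ (∀ m ∈ G, m.2.1 + m.2.2.1 ≤ 6) ∧ ∀ m ∈ f, m.2.1 + m.2.2.1 ≤ 4

theorem rel_ev {W : Wd} {X T Y : PV} {a b c : ℝ → ℝ → ℝ → ℝ} (hX : Rel W X a) (hT : Rel W T b)
    (hY : Rel W Y c) {F G f : Pol} (h : Deg F G f) : Rel W (evPV W F G X T Y)
      (fun x y z => 4374 * Ev F G (a x y z, b x y z / 3, c x y z / 3)) := by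
  have h3 : ∀ m ∈ rf G, m.2.1 + m.2.2.1 ≤ 6 := fun m hm => by
    obtain ⟨n, hn, rfl⟩ := List.mem_map.1 hm
    exact h.2.1 n hn
  refine ((((((rel_cst W 9).sub (hT.mul hT)).sub (hY.smul 3)).mul
    (rel_pol hX hT hY 6 F h.1)).smul 2).add ((((rel_cst W 3).sub hT).mul
    (rel_pol hX hT hY 6 G h.2.1)).add (((rel_cst W 3).add hT).mul
    (rel_pol hX hT hY 6 _ h3)))).congr fun x y z => ?_
  simp only [Ev]
  push_cast
  ring

/-- `72 * 3 ^ 8` times the right hand side -/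
def rvPV (W : Wd) (F G f : Pol) (T Y : PV) : PV :=
  ((PV.a1 W 0 1).pow 4).mul (PV.add W
    ((PV.sub W (PV.smul 648 ((PV.a1 W 0 1).pow 2))
      (PV.smul 72 ((y9 W T Y).mul ((PV.a1 W 1 0).pow 2)))).mul (evPV W F G (PV.a1 W (-1) 1) T Y))
    ((PV.sub W (PV.smul 48 ((y9 W T Y).mul ((PV.a1 W 1 0).pow 2)))
      (PV.smul 450 ((PV.a1 W 0 1).pow 2))).mul ((polPV W (PV.a1 W (-1) 1) T Y 4 f).pow 2)))

/-- the packed symmetric functions -/
def ehPV (W : Wd) (t : Ty) (j : ℕ) : PV :=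
  elP W (rep t (PV.smul (-1) (k6 W t)) (PV.sub W (PV.cst 6) (k6 W t))
    (PV.sub W (PV.a2 W 0 6) (k6 W t)) (PV.sub W (PV.a3 W 0 6) (k6 W t))) j

/-- the nine arrays -/
def arrP (W : Wd) (F G f : Pol) (t : Ty) (a : ℕ) : PV :=
  cond (Nat.beq a 0) (rvPV W F G f (t3 W t) (y3 W t))
    (cond (Nat.beq a 1) ((PV.a1 W 0 1).pow 6)
      (cond (Nat.beq a 7) ((((PV.a1 W 0 1).pow 5).mul (PV.a1 W 1 0)).mul (k6 W t))
        (cond (Nat.beq a 8)
          ((((PV.a1 W 0 1).pow 5).mul (PV.a1 W 1 0)).mul (PV.sub W (PV.cst 6) (k6 W t)))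
          ((((PV.a1 W 0 1).pow (6 - a)).mul ((PV.a1 W 1 0).pow a)).mul (ehPV W t a)))))

/-- the denominators -/
def dn (a : ℕ) : ℕ :=
  cond (Nat.beq a 0) 4057816381784064 (cond (Nat.beq a 1) 1 (cond (Nat.beq a 7) 3
    (cond (Nat.beq a 8) 3 (3 ^ a))))

/-- the arrays with their denominators -/
def arrs (W : Wd) (F G f : Pol) (t : Ty) (a : ℕ) : PV × ℕ := (arrP W F G f t a, dn a)

/-- the functions represented by the arrays -/
noncomputable def vals (F G f : Pol) (t : Ty) (a : ℕ) (z x y : ℝ) : ℝ :=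
  cond (Nat.beq a 0) (472392 * Rv F G f z (st t z x y))
    (cond (Nat.beq a 1) (z ^ 6)
      (cond (Nat.beq a 7) (z ^ 5 * (1 - z) * (6 * kh t x y))
        (cond (Nat.beq a 8) (z ^ 5 * (1 - z) * (6 - 6 * kh t x y))
          (z ^ (6 - a) * (1 - z) ^ a * eh t x y a))))

theorem rel_arrs (W : Wd) {F G f : Pol} (h : Deg F G f) (t : Ty) (a : ℕ) :
    Rel W (arrs W F G f t a).1 (vals F G f t a) := by
  have hz : Rel W (PV.a1 W 0 1) fun z _ _ => z := (rel_a1 W 0 1).congr fun _ _ _ => by simp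
  have ho : Rel W (PV.a1 W 1 0) fun z _ _ => 1 - z := (rel_a1 W 1 0).congr fun _ _ _ => by simp
  have hX : Rel W (PV.a1 W (-1) 1) fun z _ _ => 2 * z - 1 :=
    (rel_a1 W (-1) 1).congr fun _ _ _ => by push_cast; ring
  have hk : Rel W (k6 W t) fun _ x y => 6 * kh t x y :=
    ((rel_a2 W _ _).add (rel_a3 W _ _)).congr fun _ _ _ => by unfold kh; push_cast; ring
  have hT : Rel W (t3 W t) fun _ x y => 3 - 6 * kh t x y :=
    ((rel_cst W 3).sub hk).congr fun _ _ _ => by simp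
  have hY : Rel W (y3 W t) fun _ x y => 2 * (t.2.2.1 * (x * (1 - x)) + t.2.2.2 * (y * (1 - y))) :=
    ((((rel_a2 W 0 1).mul (rel_a2 W 1 0)).smul _).add
      (((rel_a3 W 0 1).mul (rel_a3 W 1 0)).smul _)).congr fun _ _ _ => by push_cast; ring
  have h9 := ((rel_cst W 9).sub (hT.mul hT)).sub (hY.smul 3)
  have hs : ∀ z x y, ((2 * z - 1, (3 - 6 * kh t x y) / 3,
      2 * (t.2.2.1 * (x * (1 - x)) + t.2.2.2 * (y * (1 - y))) / 3) : PD.W) = st t z x y :=
    fun z x y => Prod.ext rfl (Prod.ext (by simp only [st]; ring) (by simp only [st]; ring))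
  unfold arrs arrP vals
  simp only []
  cases Nat.beq a 0
  swap
  · refine ((hz.pow 4).mul (((((hz.pow 2).smul 648).sub ((h9.mul (ho.pow 2)).smul 72)).mul
      (rel_ev hX hT hY h)).add ((((h9.mul (ho.pow 2)).smul 48).sub ((hz.pow 2).smul 450)).mul
      ((rel_pol hX hT hY 4 f h.2.2).pow 2)))).congr fun z x y => ?_
    simp only [hs, cond, Rv]
    generalize Ev F G _ = A
    generalize ev f _ = B
    simp only [st]
    push_cast
    ring
  cases Nat.beq a 1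
  swap
  · exact hz.pow 6
  cases Nat.beq a 7
  swap
  · exact ((hz.pow 5).mul ho).mul hk
  cases Nat.beq a 8
  swap
  · exact (((hz.pow 5).mul ho).mul ((rel_cst W 6).sub hk)).congr fun _ _ _ => by simp
  refine ((hz.pow _).mul (ho.pow _)).mul ?_
  have := rel_el W (rep t (PV.smul (-1) (k6 W t), fun _ x y => -(6 * kh t x y))
    (PV.sub W (PV.cst 6) (k6 W t), fun _ x y => 6 - 6 * kh t x y)
    (PV.sub W (PV.a2 W 0 6) (k6 W t), fun _ x y => 6 * x - 6 * kh t x y)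
    (PV.sub W (PV.a3 W 0 6) (k6 W t), fun _ x y => 6 * y - 6 * kh t x y)) (fun s hs => by
      simp only [rep, List.mem_append, List.mem_replicate] at hs
      rcases hs with ((⟨-, rfl⟩ | ⟨-, rfl⟩) | ⟨-, rfl⟩) | ⟨-, rfl⟩
      · exact (hk.smul (-1)).congr fun _ _ _ => by simp
      · exact ((rel_cst W 6).sub hk).congr fun _ _ _ => by simp
      · exact ((rel_a2 W 0 6).sub hk).congr fun _ _ _ => by simp
      · exact ((rel_a3 W 0 6).sub hk).congr fun _ _ _ => by simp) a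
  simpa only [rep, List.map_append, List.map_replicate, ehPV, eh] using this

end Pool.Agent.P.MP_2b44f0_gt.PD.Vol
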