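import Pool.Agent.P.MP_2b44f0_gt.PD.VolA
import Pool.Agent.P.MP_2b44f0_gt.PD.VBox2

/-!
The volume bound on a box as a linear form in the arrays.
-/

namespace Pool.Agent.P.MP_2b44f0_gt.PD.Vol

open Bn Pol Set

/-- the coefficient of the `j`-th symmetric function -/
noncomputable def cf (b b' f f' : ℝ) (j : ℕ) : ℝ :=
  mJ j b + f / b ^ j + (-1) ^ j * (mJ j b' + f' / b' ^ j)

theorem fac {b k s c r : ℝ} (hb : 0 < b) (hkb : k ≤ b) (hs : 0 ≤ s) (h : s ≤ k + c * r) :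
    0 ≤ s / b ∧ s / b ≤ 1 + c * b⁻¹ * r := by
  refine ⟨by positivity, ?_⟩
  rw [div_le_iff₀ hb]
  have : (1 + c * b⁻¹ * r) * b = b + c * r := by field_simp
  linarith

theorem core {t : Ty} (ht : t.1 + t.2.1 + t.2.2.1 + t.2.2.2 = 6) {z x y : ℝ} (z0 : 0 < z)
    (z1 : z < 1) (hx : x ∈ Icc (0 : ℝ) 1) (hy : y ∈ Icc (0 : ℝ) 1) (k0 : 0 < kh t x y)
    (k1 : kh t x y ≤ 1 / 2) {a b a' b' f f' p p' s x0 y0 x1 y1 P1 P2 : ℝ}
    (ha : 0 ≤ a) (hak : a ≤ sg z * kh t x y) (hkb : sg z * kh t x y ≤ b) (ha' : 0 ≤ a')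
    (hak' : a' ≤ sg z * (1 - kh t x y)) (hkb' : sg z * (1 - kh t x y) ≤ b')
    (hf : mJ 0 a - mJ 0 b ≤ f) (hf' : mJ 0 a' - mJ 0 b' ≤ f') (hp : 0 ≤ p) (hp' : 0 ≤ p')
    (s0 : 0 ≤ s) (s1 : s ≤ sg z) (a0 : 0 ≤ x0) (a1 : x0 ≤ x) (b0 : 0 ≤ y0) (b1 : y0 ≤ y)
    (c0 : 0 ≤ x1) (c1 : x1 ≤ 1 - x) (d0 : 0 ≤ y1) (d1 : y1 ≤ 1 - y)
    (e1 : P1 = if t.1 = 0 then (s / b) ^ 6 * x0 ^ t.2.2.1 * y0 ^ t.2.2.2 else 0)
    (e2 : P2 = if t.2.1 = 0 then (s / b') ^ 6 * x1 ^ t.2.2.1 * y1 ^ t.2.2.2 else 0)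
    (h1 : p * (1 + a ^ 2) ^ 4 ≤ P1 * a ^ 6) (h2 : p * (1 + b ^ 2) ^ 4 ≤ P1 * b ^ 6)
    (h1' : p' * (1 + a' ^ 2) ^ 4 ≤ P2 * a' ^ 6) (h2' : p' * (1 + b' ^ 2) ^ 4 ≤ P2 * b' ^ 6) :
    volT t (sg z * kh t x y) (sg z * (1 - kh t x y)) (sg z * (x - kh t x y))
      (sg z * (y - kh t x y)) * z ^ 6 ≤
      (cf b b' f f' 0 + p * a + p' * a') * z ^ 6 +
        cf b b' f f' 2 * (z ^ 4 * (1 - z) ^ 2 * eh t x y 2 / 9) +
        cf b b' f f' 3 * (z ^ 3 * (1 - z) ^ 3 * eh t x y 3 / 27) +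
        cf b b' f f' 4 * (z ^ 2 * (1 - z) ^ 4 * eh t x y 4 / 81) +
        cf b b' f f' 5 * (z * (1 - z) ^ 5 * eh t x y 5 / 243) +
        cf b b' f f' 6 * ((1 - z) ^ 6 * eh t x y 6 / 729) -
        p * (z ^ 5 * (1 - z) * (6 * kh t x y) / 3) -
        p' * (z ^ 5 * (1 - z) * (6 - 6 * kh t x y) / 3) := by
  have hσ : 0 < sg z := div_pos (by linarith) z0
  have hk := mul_pos hσ k0
  have hk' := mul_pos hσ (show 0 < 1 - kh t x y by linarith)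
  have hb := hk.trans_le hkb
  have hb' := hk'.trans_le hkb'
  have hP := eh_prod ht (sg z) x y
  have h6 : (t.1 : ℝ) + t.2.1 + t.2.2.1 + t.2.2.2 = 6 := by exact_mod_cast ht
  have k6 : 6 * kh t x y = t.2.1 + t.2.2.1 * x + t.2.2.2 * y := by unfold kh; ring
  have m : ∀ {r : ℝ}, r ∈ Icc (0 : ℝ) 1 → sg z * (r - kh t x y) ∈
      Icc (-(sg z * kh t x y)) (sg z * (1 - kh t x y)) := fun h =>
    ⟨by nlinarith [mul_nonneg hσ.le h.1], by nlinarith [mul_nonneg hσ.le (sub_nonneg.2 h.2)]⟩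
  have q : ∀ {u v : ℝ}, 0 ≤ u → u ≤ v → 0 ≤ s * u ∧ s * u ≤ sg z * v := fun h h' =>
    ⟨mul_nonneg s0 h, mul_le_mul s1 h' h hσ.le⟩
  have Q1 : 0 ≤ P1 ∧ P1 ≤ ∑ j ∈ Finset.range 7, eh t x y j * (sg z / 6) ^ j / b ^ j := by
    have := hP b⁻¹
    simp only [inv_pow, ← div_eq_mul_inv] at this
    rw [← this, e1]
    have f0 := fac (s := 0) (c := -1) (r := sg z * kh t x y) hb hkb le_rfl (by linarith)
    have f1 := fac (c := 1) (r := sg z * (1 - kh t x y)) hb hkb s0 (by linarith)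
    have f2 := fac (c := 1) (r := sg z * (x - kh t x y)) hb hkb (q a0 a1).1
      (by linarith [(q a0 a1).2])
    have f3 := fac (c := 1) (r := sg z * (y - kh t x y)) hb hkb (q b0 b1).1
      (by linarith [(q b0 b1).2])
    rw [one_mul] at f1 f2 f3
    have g1 := f1.1.trans f1.2
    have g2 := f2.1.trans f2.2
    have g3 := f3.1.trans f3.2
    split_ifs with h
    · refine ⟨by positivity, ?_⟩
      rw [h, pow_zero, one_mul, show 6 = t.2.1 + t.2.2.1 + t.2.2.2 by omega,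
        show (s / b) ^ (t.2.1 + t.2.2.1 + t.2.2.2) * x0 ^ t.2.2.1 * y0 ^ t.2.2.2 =
          (s / b) ^ t.2.1 * (s * x0 / b) ^ t.2.2.1 * (s * y0 / b) ^ t.2.2.2 by
            simp only [pow_add, mul_div_right_comm s, mul_pow]; ring]
      have := f1.1; have := f2.1; have := f3.1
      gcongr
      exacts [f1.2, f2.2, f3.2]
    · have g0 : 0 ≤ 1 - b⁻¹ * (sg z * kh t x y) := by linarith [f0.1.trans f0.2]
      exact ⟨le_rfl, by positivity⟩
  have Q2 : 0 ≤ P2 ∧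
      P2 ≤ ∑ j ∈ Finset.range 7, (-1) ^ j * (eh t x y j * (sg z / 6) ^ j) / b' ^ j := by
    have := hP (-1 * b'⁻¹)
    rw [show ∑ j ∈ Finset.range 7, (-1) ^ j * (eh t x y j * (sg z / 6) ^ j) / b' ^ j = _ from
      (Finset.sum_congr rfl fun j _ => by rw [mul_pow, inv_pow]; ring).trans this.symm, e2]
    have f0 := fac (c := 1) (r := sg z * kh t x y) hb' hkb' s0 (by linarith)
    have f1 := fac (s := 0) (c := -1) (r := sg z * (1 - kh t x y)) hb' hkb' le_rfl (by linarith)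
    have f2 := fac (c := -1) (r := sg z * (x - kh t x y)) hb' hkb' (q c0 c1).1
      (by linarith [(q c0 c1).2])
    have f3 := fac (c := -1) (r := sg z * (y - kh t x y)) hb' hkb' (q d0 d1).1
      (by linarith [(q d0 d1).2])
    rw [show 1 + 1 * b'⁻¹ * (sg z * kh t x y) = 1 - -1 * b'⁻¹ * (sg z * kh t x y) by ring] at f0
    have g0 := f0.1.trans f0.2
    have g1 := f1.1.trans f1.2
    have g2 := f2.1.trans f2.2
    have g3 := f3.1.trans f3.2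
    split_ifs with h
    · refine ⟨by positivity, ?_⟩
      rw [h, pow_zero, mul_one, show 6 = t.1 + t.2.2.1 + t.2.2.2 by omega,
        show (s / b') ^ (t.1 + t.2.2.1 + t.2.2.2) * x1 ^ t.2.2.1 * y1 ^ t.2.2.2 =
          (s / b') ^ t.1 * (s * x1 / b') ^ t.2.2.1 * (s * y1 / b') ^ t.2.2.2 by
            simp only [pow_add, mul_div_right_comm s, mul_pow]; ring]
      have := f0.1; have := f2.1; have := f3.1
      gcongr
      exacts [f0.2, f2.2, f3.2]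
    · exact ⟨le_rfl, by positivity⟩
  have V := vbox2 t _ _ _ _ a b a' b' f f' p p' P1 P2 (fun j => eh t x y j * (sg z / 6) ^ j) hk hk'
    (m hx) (m hy) (by linear_combination (-(sg z * kh t x y)) * h6 - sg z * k6) ha hak hkb ha' hak'
    hkb' hP hf hf' hp hp' h1 h2 Q1.1 Q1.2 h1' h2' Q2.1 Q2.2
  refine (mul_le_mul_of_nonneg_right V (by positivity)).trans_eq ?_
  have e0 : eh t x y 0 = 1 := by simp [eh, elR]
  simp only [Finset.sum_range_succ, Finset.sum_range_zero, eh_one ht, e0, ← cf.eq_1]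
  generalize cf b b' f f' = c
  unfold sg
  field_simp
  ring

end Pool.Agent.P.MP_2b44f0_gt.PD.Vol
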