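import Pool.Agent.P.MP_2b44f0_gt.PD.VolB

/-!
The test at a leaf of the volume check.
-/

namespace Pool.Agent.P.MP_2b44f0_gt.PD.Vol

open Bn Pol Set

/-- the property proved on the boxes -/
def Q (F G f : Pol) (t : Ty) (g : ℕ → ℝ) (z x y : ℝ) : Prop :=
  x ∈ Icc (0 : ℝ) 1 → y ∈ Icc (0 : ℝ) 1 →
    (∀ a, g a = vals F G f t a z x y * 2 ^ 40 / dn a) → Tgt F G f t z x y

/-- the approximation property of the moments -/
def Mok (M : ℕ → ℕ → ℤ) : Prop :=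
  ∀ j ≤ 6, ∀ n : ℕ, |mJ j (n / 65536) * 2 ^ 48 - M j n| ≤ 64

/-- the rounded coefficient -/
def cj (M : ℕ → ℕ → ℤ) (nb nb' u u' j : ℕ) : ℤ :=
  (M j nb + (u * 65536 ^ j / nb ^ j : ℕ) + (-1) ^ j * (M j nb' + (u' * 65536 ^ j / nb' ^ j : ℕ))) /
    4096

theorem fl (a b : ℕ) (hb : 0 < b) : ((a / b : ℕ) : ℝ) ≤ a / b ∧ (a : ℝ) / b ≤ (a / b : ℕ) + 1 := by
  refine ⟨Nat.cast_div_le, ?_⟩
  rw [div_le_iff₀ (Nat.cast_pos.2 hb)]
  have : a ≤ (a / b + 1) * b := ((Nat.div_lt_iff_lt_mul hb).1 (Nat.lt_succ_self _)).le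
  exact_mod_cast this

theorem cj_ok {M : ℕ → ℕ → ℤ} (hM : Mok M) {nb nb' : ℕ} (h : 0 < nb) (h' : 0 < nb') (u u' : ℕ)
    {j : ℕ} (hj : j ≤ 6) : |cf (nb / 65536) (nb' / 65536) (u / 2 ^ 48) (u' / 2 ^ 48) j * 2 ^ 36 -
      cj M nb nb' u u' j| ≤ 2 := by
  have a1 := abs_le.1 (hM j hj nb)
  have a2 := abs_le.1 (hM j hj nb')
  have b1 := fl (u * 65536 ^ j) (nb ^ j) (by positivity)
  have b2 := fl (u' * 65536 ^ j) (nb' ^ j) (by positivity)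
  have e : ∀ n v : ℕ, 0 < n → (v : ℝ) / 2 ^ 48 / ((n : ℝ) / 65536) ^ j =
      ((v * 65536 ^ j : ℕ) : ℝ) / (n ^ j : ℕ) / 2 ^ 48 := fun n v hn => by
    have : (0 : ℝ) < n := Nat.cast_pos.2 hn
    push_cast
    rw [div_pow]
    field_simp
  rw [cf, e _ _ h, e _ _ h', cj]
  generalize (u * 65536 ^ j / nb ^ j : ℕ) = r at *
  generalize (u' * 65536 ^ j / nb' ^ j : ℕ) = r' at *
  generalize ((u * 65536 ^ j : ℕ) : ℝ) / (nb ^ j : ℕ) = s at *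
  generalize ((u' * 65536 ^ j : ℕ) : ℝ) / (nb' ^ j : ℕ) = s' at *
  set A : ℤ := M j nb + r + (-1) ^ j * (M j nb' + r') with hA
  have c1 : ((4096 * (A / 4096) : ℤ) : ℝ) ≤ A := Int.cast_le.2 (by omega)
  have c2 : (A : ℝ) ≤ (4096 * (A / 4096) + 4096 : ℤ) := Int.cast_le.2 (by omega)
  have c3 : (A : ℝ) = M j nb + r + (-1) ^ j * (M j nb' + r') := by rw [hA]; push_cast; ring
  push_cast at c1 c2
  rcases neg_one_pow_eq_or ℝ j with w | w <;> rw [w] at c3 ⊢ <;> rw [abs_le] <;> constructor <;>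
    linarith [a1.1, a1.2, a2.1, a2.2, b1.1, b1.2, b2.1, b2.2]

/-- the weight of the second order correction -/
def pw (u nb n : ℕ) : ℕ :=
  2 ^ 68 * u * n ^ 6 / (nb ^ 6 * 2 ^ 96 * (2 ^ 32 + n ^ 2) ^ 4)

theorem pw_ok (u : ℕ) {nb : ℕ} (h : 0 < nb) (n p : ℕ) (hp : p ≤ pw u nb n) :
    (p : ℝ) / 2 ^ 36 * (1 + ((n : ℝ) / 65536) ^ 2) ^ 4 ≤
      (u : ℝ) / (nb ^ 6 * 2 ^ 96) * ((n : ℝ) / 65536) ^ 6 := by
  have h0 : (0 : ℝ) < nb := Nat.cast_pos.2 h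
  have h1 := (Nat.cast_le.2 hp).trans (fl (2 ^ 68 * u * n ^ 6)
    (nb ^ 6 * 2 ^ 96 * (2 ^ 32 + n ^ 2) ^ 4) (by positivity)).1
  push_cast at h1
  rw [le_div_iff₀ (by positivity)] at h1
  rw [div_mul_eq_mul_div, div_mul_eq_mul_div, div_le_div_iff₀ (by positivity) (by positivity)]
  linear_combination h1 / 2 ^ 128

/-- the final linear test -/
def lf4 (P : Par) (M : ℕ → ℕ → ℤ) (N e na nb na' nb' u u' p p' : ℕ) : Bool :=
  V.gt P e
    (V.axpy P p' (getA P N 8) (V.axpy P p (getA P N 7)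
      (V.axpy P (-cj M nb nb' u u' 6) (getA P N 6) (V.axpy P (-cj M nb nb' u u' 5) (getA P N 5)
        (V.axpy P (-cj M nb nb' u u' 4) (getA P N 4) (V.axpy P (-cj M nb nb' u u' 3) (getA P N 3)
          (V.axpy P (-cj M nb nb' u u' 2) (getA P N 2)
            (V.axpy P (45812984490 - cj M nb nb' u u' 0 - (p * na / 65536 : ℕ) -
              (p' * na' / 65536 : ℕ)) (getA P N 1) (V.smul 65273330619 (getA P N 0))))))))))
    (16 * (P.H + e))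

/-- the parameters of the linear form -/
def lf3 (P : Par) (M : ℕ → ℕ → ℤ) (N e na nb na' nb' v v' : ℕ) : Bool :=
  lf4 P M N e na nb na' nb' (M 0 na - M 0 nb + 128).toNat (M 0 na' - M 0 nb' + 128).toNat
    (min (pw v nb na) (pw v nb nb)) (min (pw v' nb' na') (pw v' nb' nb'))

/-- the bounds for the two cuts -/
def lf2 (P : Par) (M : ℕ → ℕ → ℤ) (t : Ty) (N e s S K0 K1 X0 X1 Y0 Y1 : ℕ) : Bool :=
  lf3 P M N e (s * K0 / 393216) (max (S * K1 / 393216 + 1) 4096) (s * (393216 - K1) / 393216)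
    (max (S * (393216 - K0) / 393216 + 1) 4096)
    (cond (Nat.beq t.1 0) (s ^ 6 * X0 ^ t.2.2.1 * Y0 ^ t.2.2.2 * 65536 ^ t.2.1) 0)
    (cond (Nat.beq t.2.1 0)
      (s ^ 6 * (65536 - X1) ^ t.2.2.1 * (65536 - Y1) ^ t.2.2.2 * 65536 ^ t.1) 0)

/-- the test for the neighbourhood of the extremal state -/
def lfL (Z0 Z1 K0 L H : ℕ) : Bool :=
  Nat.ble 2949120 (16 * K0) && Nat.ble (8 * H) (3 * 2 ^ 32) &&
    Nat.ble (6291456 * Z1 + 8 * H) (51 * 2 ^ 32) && Nat.ble (45 * 2 ^ 32) (6291456 * Z0 + 8 * L)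

/-- the test on the box with scaled bounds -/
def lf1 (P : Par) (M : ℕ → ℕ → ℤ) (t : Ty) (N e Z0 Z1 X0 X1 Y0 Y1 : ℕ) : Bool :=
  Nat.ble Z1 8192 || Nat.blt 196608 (65536 * t.2.1 + t.2.2.1 * X0 + t.2.2.2 * Y0) ||
    (Nat.beq t.2.2.1 t.2.2.2 && Nat.blt Y1 X0) ||
    lfL Z0 Z1 (65536 * t.2.1 + t.2.2.1 * X0 + t.2.2.2 * Y0)
      (t.2.2.1 * (X0 * (65536 - X1)) + t.2.2.2 * (Y0 * (65536 - Y1)))
      (t.2.2.1 * (X1 * (65536 - X0)) + t.2.2.2 * (Y1 * (65536 - Y0))) ||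
    (Nat.blt 0 Z0 && lf2 P M t N e (131072 * (65536 - Z1) / Z1) (131072 * (65536 - Z0) / Z0 + 1)
      (65536 * t.2.1 + t.2.2.1 * X0 + t.2.2.2 * Y0) (65536 * t.2.1 + t.2.2.1 * X1 + t.2.2.2 * Y1)
      X0 X1 Y0 Y1)

/-- the test at a leaf -/
def leaf (P : Par) (M : ℕ → ℕ → ℤ) (t : Ty) (N e : ℕ) (b : Bx) (_ : Unit) : Bool :=
  Nat.ble b.d1 16 && Nat.ble b.d2 16 && Nat.ble b.d3 16 &&
    lf1 P M t N e (b.i1 * 2 ^ (16 - b.d1)) ((b.i1 + 1) * 2 ^ (16 - b.d1))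
      (b.i2 * 2 ^ (16 - b.d2)) ((b.i2 + 1) * 2 ^ (16 - b.d2))
      (b.i3 * 2 ^ (16 - b.d3)) ((b.i3 + 1) * 2 ^ (16 - b.d3))

theorem box {X x : ℝ} {i d : ℕ} (hd : d ≤ 16) (h : X * 2 ^ d = i + x) (hx : x ∈ Icc (0 : ℝ) 1) :
    ((i * 2 ^ (16 - d) : ℕ) : ℝ) ≤ 65536 * X ∧ 65536 * X ≤ (((i + 1) * 2 ^ (16 - d) : ℕ) : ℝ) := by
  have e : (65536 : ℝ) = 2 ^ d * 2 ^ (16 - d) := by
    rw [← pow_add, Nat.add_sub_cancel' hd]; norm_num
  have p : (0 : ℝ) < 2 ^ (16 - d) := by positivity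
  rw [e, show 2 ^ d * 2 ^ (16 - d) * X = X * 2 ^ d * 2 ^ (16 - d) by ring, h]
  push_cast
  exact ⟨by nlinarith [hx.1], by nlinarith [hx.2]⟩

theorem sub_lo {a b : ℕ} {r : ℝ} (h0 : 0 ≤ r) (h : (a : ℝ) - b ≤ r) : ((a - b : ℕ) : ℝ) ≤ r := by
  rcases le_total a b with c | c
  · rwa [Nat.sub_eq_zero_of_le c, Nat.cast_zero]
  · rwa [Nat.cast_sub c]

theorem sub_hi (a b : ℕ) : (a : ℝ) - b ≤ ((a - b : ℕ) : ℝ) := by
  have : ((a : ℕ) : ℝ) ≤ ((a - b + b : ℕ) : ℝ) := Nat.cast_le.2 (by omega)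
  push_cast at this
  linarith

theorem lf4_ok {P : Par} {M : ℕ → ℕ → ℤ} (hM : Mok M) (hP : P.NA = 9) {N e : ℕ} {g : ℕ → ℝ}
    {x y z : ℝ} (hc : CovAt P N e g x y z) {na nb na' nb' u u' p p' : ℕ} (h : 0 < nb)
    (h' : 0 < nb') (ok : lf4 P M N e na nb na' nb' u u' p p' = true) (c : ℕ → ℝ)
    (hc' : c = cf (nb / 65536) (nb' / 65536) (u / 2 ^ 48) (u' / 2 ^ 48)) :
    0 ≤ 32 * (Real.pi / 16 - 1 / 6) * g 0 +
      (2 / 3 - c 0 - p / 2 ^ 36 * (na / 65536) - p' / 2 ^ 36 * (na' / 65536)) * g 1 -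
      c 2 * g 2 - c 3 * g 3 - c 4 * g 4 - c 5 * g 5 - c 6 * g 6 + p / 2 ^ 36 * g 7 +
      p' / 2 ^ 36 * g 8 := by
  obtain ⟨A, G⟩ := hc.alg
  have B := hc.bound
  rw [hP] at G B
  have k := A.gt _ (A.axpy _ (G 8 (by norm_num)) (A.axpy _ (G 7 (by norm_num))
    (A.axpy _ (G 6 (by norm_num)) (A.axpy _ (G 5 (by norm_num)) (A.axpy _ (G 4 (by norm_num))
    (A.axpy _ (G 3 (by norm_num)) (A.axpy _ (G 2 (by norm_num)) (A.axpy _ (G 1 (by norm_num))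
    (A.smul _ (G 0 (by norm_num))))))))))) ok
  have w : ∀ {a : ℕ} {r δ : ℝ}, a < 9 → |r| ≤ δ → -(δ * (P.H + e)) ≤ r * g a := fun ha hr =>
    (neg_le_neg (by
      rw [abs_mul]
      exact mul_le_mul hr (B _ ha) (abs_nonneg _) ((abs_nonneg _).trans hr))).trans (neg_abs_le _)
  have m := fun j (hj : j ≤ 6) => cj_ok hM h h' u u' hj
  rw [← hc'] at m
  have n : ∀ j, 2 ≤ j → j ≤ 6 → -(2 * ((P.H : ℝ) + e)) ≤ (cj M nb nb' u u' j - c j * 2 ^ 36) * g j :=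
    fun j _ hj => w (by omega) (by rw [abs_sub_comm]; exact m j hj)
  have w0 := w (a := 0) (r := 32 * (Real.pi / 16 - 1 / 6) * 2 ^ 36 - 65273330619) (δ := 1)
    (by norm_num) (abs_le.2 ⟨by linarith [Real.pi_gt_d20], by linarith [Real.pi_lt_d20]⟩)
  have f1 := fl (p * na) 65536 (by norm_num)
  have f2 := fl (p' * na') 65536 (by norm_num)
  have m0 := abs_le.1 (m 0 (by norm_num))
  have w1 := w (a := 1) (δ := 5) (r := (2 / 3 - c 0 - p / 2 ^ 36 * (na / 65536) -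
      p' / 2 ^ 36 * (na' / 65536)) * 2 ^ 36 - (45812984490 - cj M nb nb' u u' 0 -
      (p * na / 65536 : ℕ) - (p' * na' / 65536 : ℕ))) (by norm_num) (by
    rw [Nat.cast_mul, Nat.cast_ofNat] at f1 f2
    exact abs_le.2 ⟨by linarith [f1.2, f2.2, m0.2], by linarith [f1.1, f2.1, m0.1]⟩)
  simp only [Int.cast_sub, Int.cast_neg, Int.cast_natCast, Int.cast_ofNat, Nat.cast_ofNat,
    Nat.cast_mul, Nat.cast_add] at k
  have n2 := n 2 (by norm_num) (by norm_num)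
  have n3 := n 3 (by norm_num) (by norm_num)
  have n4 := n 4 (by norm_num) (by norm_num)
  have n5 := n 5 (by norm_num) (by norm_num)
  have n6 := n 6 (by norm_num) (by norm_num)
  linear_combination (k.le + w0 + w1 + n2 + n3 + n4 + n5 + n6) / 2 ^ 36

theorem phi_ok {M : ℕ → ℕ → ℤ} (hM : Mok M) (a b : ℕ) : mJ 0 (a / 65536) - mJ 0 (b / 65536) ≤
    ((M 0 a - M 0 b + 128).toNat : ℝ) / 2 ^ 48 := by
  have h1 := abs_le.1 (hM 0 (by norm_num) a)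
  have h2 := abs_le.1 (hM 0 (by norm_num) b)
  have h3 : ((M 0 a - M 0 b + 128 : ℤ) : ℝ) ≤ (((M 0 a - M 0 b + 128).toNat : ℤ) : ℝ) :=
    Int.cast_le.2 (Int.self_le_toNat _)
  rw [Int.cast_natCast] at h3
  push_cast at h3
  rw [le_div_iff₀ (by positivity)]
  linarith [h1.2, h2.1]

theorem prod_lo {s K : ℕ} {σ k : ℝ} (h1 : (s : ℝ) ≤ 65536 * σ) (h2 : (K : ℝ) ≤ 393216 * k) :
    ((s * K / 393216 : ℕ) : ℝ) / 65536 ≤ σ * k := by
  have a := (fl (s * K) 393216 (by norm_num)).1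
  have b := mul_le_mul h1 h2 (Nat.cast_nonneg _) ((Nat.cast_nonneg _).trans h1)
  push_cast at a
  linarith

theorem prod_hi {s K : ℕ} {σ k : ℝ} (h0 : 0 ≤ k) (h1 : 65536 * σ ≤ (s : ℝ))
    (h2 : 393216 * k ≤ (K : ℝ)) : σ * k ≤ ((max (s * K / 393216 + 1) 4096 : ℕ) : ℝ) / 65536 := by
  have a := (fl (s * K) 393216 (by norm_num)).2
  have b := mul_le_mul h1 h2 (by positivity) (Nat.cast_nonneg _)
  have c : ((s * K / 393216 + 1 : ℕ) : ℝ) ≤ (max (s * K / 393216 + 1) 4096 : ℕ) :=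
    Nat.cast_le.2 (le_max_left _ _)
  rw [Nat.cast_add, Nat.cast_one] at c
  rw [Nat.cast_mul, Nat.cast_ofNat] at a
  linarith

theorem cor {i j p q : ℕ} (h : i + j + p + q = 6) (s X Y : ℕ) {nb : ℕ} (hb : 0 < nb) :
    ((cond (Nat.beq i 0) (s ^ 6 * X ^ p * Y ^ q * 65536 ^ j) 0 : ℕ) : ℝ) / (nb ^ 6 * 2 ^ 96) =
      if i = 0 then ((s : ℝ) / 65536 / (nb / 65536)) ^ 6 * (X / 65536) ^ p * (Y / 65536) ^ q
      else 0 := by
  cases i with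
  | succ i => simp [Nat.beq]
  | zero =>
    have h0 : (0 : ℝ) < nb := Nat.cast_pos.2 hb
    have e : (2 : ℝ) ^ 96 = 65536 ^ j * 65536 ^ p * 65536 ^ q := by
      rw [← pow_add, ← pow_add, show j + p + q = 6 by omega]; norm_num
    rw [if_pos rfl, Nat.beq_refl, cond_true, e]
    push_cast
    simp only [div_pow]
    field_simp

theorem lf2_ok {P : Par} {M : ℕ → ℕ → ℤ} (hM : Mok M) (hP : P.NA = 9) {F G f : Pol} {t : Ty}
    (ht : t.1 + t.2.1 + t.2.2.1 + t.2.2.2 = 6) {N e : ℕ} {g : ℕ → ℝ} {a b c : ℝ}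
    (hc : CovAt P N e g a b c) {z x y : ℝ} (z0 : 0 < z) (z1 : z < 1) (hx : x ∈ Icc (0 : ℝ) 1)
    (hy : y ∈ Icc (0 : ℝ) 1) (k0 : 0 < kh t x y) (k1 : kh t x y ≤ 1 / 2)
    (hg : ∀ a, g a = vals F G f t a z x y * 2 ^ 40 / dn a) {s S K0 K1 X0 X1 Y0 Y1 : ℕ}
    (s0 : (s : ℝ) ≤ 65536 * sg z) (s1 : 65536 * sg z ≤ S) (l0 : (K0 : ℝ) ≤ 393216 * kh t x y)
    (l1 : 393216 * kh t x y ≤ K1) (x0 : (X0 : ℝ) ≤ 65536 * x) (x1 : 65536 * x ≤ X1)
    (y0 : (Y0 : ℝ) ≤ 65536 * y) (y1 : 65536 * y ≤ Y1)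
    (ok : lf2 P M t N e s S K0 K1 X0 X1 Y0 Y1 = true) :
    volT t (sg z * kh t x y) (sg z * (1 - kh t x y)) (sg z * (x - kh t x y))
      (sg z * (y - kh t x y)) * z ^ 6 ≤
      2 / 3 * z ^ 6 + (Real.pi / 16 - 1 / 6) / 2 ^ 28 * Rv F G f z (st t z x y) := by
  have p1 : 0 < max (S * K1 / 393216 + 1) 4096 := by omega
  have p2 : 0 < max (S * (393216 - K0) / 393216 + 1) 4096 := by omega
  have L := lf4_ok hM hP hc p1 p2 ok _ rfl
  have m0 : ((393216 - K1 : ℕ) : ℝ) ≤ 393216 * (1 - kh t x y) :=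
    sub_lo (by linarith) (by push_cast; linarith)
  have m1 : 393216 * (1 - kh t x y) ≤ ((393216 - K0 : ℕ) : ℝ) :=
    le_trans (by push_cast; linarith) (sub_hi _ _)
  have u1 : ((65536 - X1 : ℕ) : ℝ) ≤ 65536 * (1 - x) :=
    sub_lo (by linarith [hx.2]) (by push_cast; linarith)
  have u2 : ((65536 - Y1 : ℕ) : ℝ) ≤ 65536 * (1 - y) :=
    sub_lo (by linarith [hy.2]) (by push_cast; linarith)
  have C := core ht z0 z1 hx hy k0 k1 (s := s / 65536) (x0 := X0 / 65536) (y0 := Y0 / 65536)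
    (x1 := (65536 - X1 : ℕ) / 65536) (y1 := (65536 - Y1 : ℕ) / 65536)
    (by positivity) (prod_lo s0 l0) (prod_hi k0.le s1 l1) (by positivity) (prod_lo s0 m0)
    (prod_hi (by linarith) s1 m1) (phi_ok hM _ _) (phi_ok hM _ _) (by positivity) (by positivity)
    (by positivity) (by linarith) (by positivity) (by linarith) (by positivity) (by linarith)
    (by positivity) (by linarith) (by positivity) (by linarith) (cor ht s X0 Y0 p1)
    (cor (show t.2.1 + t.1 + t.2.2.1 + t.2.2.2 = 6 by omega) s _ _ p2)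
    (pw_ok _ p1 _ _ (min_le_left _ _)) (pw_ok _ p1 _ _ (min_le_right _ _))
    (pw_ok _ p2 _ _ (min_le_left _ _)) (pw_ok _ p2 _ _ (min_le_right _ _))
  have g0 : g 0 = Rv F G f z (st t z x y) * 2 ^ 7 := by
    rw [hg 0]; simp only [vals, dn, Nat.beq_refl, cond_true]; push_cast; ring
  have g1 : g 1 = z ^ 6 * 2 ^ 40 := by rw [hg 1]; simp [vals, dn, Nat.beq]
  have g7 : g 7 = z ^ 5 * (1 - z) * (6 * kh t x y) * 2 ^ 40 / 3 := by
    rw [hg 7]; simp [vals, dn, Nat.beq]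
  have g8 : g 8 = z ^ 5 * (1 - z) * (6 - 6 * kh t x y) * 2 ^ 40 / 3 := by
    rw [hg 8]; simp [vals, dn, Nat.beq]
  have gj : ∀ j, 2 ≤ j → j ≤ 6 →
      g j = z ^ (6 - j) * (1 - z) ^ j * eh t x y j * 2 ^ 40 / 3 ^ j := fun j h1 h2 => by
    rw [hg j]
    interval_cases j <;> simp only [vals, dn, Nat.beq, cond, Nat.cast_pow, Nat.cast_ofNat]
  rw [g0, g1, g7, g8, gj 2 (by norm_num) (by norm_num), gj 3 (by norm_num) (by norm_num),
    gj 4 (by norm_num) (by norm_num), gj 5 (by norm_num) (by norm_num),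
    gj 6 (by norm_num) (by norm_num)] at L
  refine C.trans ?_
  generalize cf _ _ _ _ = w at *
  generalize ((min (pw _ (max (S * K1 / 393216 + 1) 4096) _) _ : ℕ) : ℝ) = r at *
  generalize ((min (pw _ _ _) _ : ℕ) : ℝ) = r' at *
  norm_num only at L ⊢
  linear_combination L / 2 ^ 40

theorem leaf_ok {P : Par} {M : ℕ → ℕ → ℤ} (hM : Mok M) (hP : P.NA = 9) (F G f : Pol) {t : Ty}
    (ht : t.1 + t.2.1 + t.2.2.1 + t.2.2.2 = 6) (N e : ℕ) (b : Bx) (d : Unit)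
    (ok : leaf P M t N e b d = true) : Good2 P (Q F G f t) N e b := by
  intro g z x y a₁ a₂ a₃ hc hb hx hy hg z0 z1 k0 k1 hs hl
  simp only [leaf, Bool.and_eq_true, Nat.ble_eq] at ok
  obtain ⟨⟨⟨d1, d2⟩, d3⟩, ok⟩ := ok
  obtain ⟨Z0, Z1⟩ := box d1 hb.1 hc.mem.1
  obtain ⟨X0, X1⟩ := box d2 hb.2.1 hc.mem.2.1
  obtain ⟨Y0, Y1⟩ := box d3 hb.2.2 hc.mem.2.2
  generalize b.i1 * 2 ^ (16 - b.d1) = zl at *
  generalize (b.i1 + 1) * 2 ^ (16 - b.d1) = zh at *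
  generalize b.i2 * 2 ^ (16 - b.d2) = xl at *
  generalize (b.i2 + 1) * 2 ^ (16 - b.d2) = xh at *
  generalize b.i3 * 2 ^ (16 - b.d3) = yl at *
  generalize (b.i3 + 1) * 2 ^ (16 - b.d3) = yh at *
  have p0 : (0 : ℝ) ≤ t.2.2.1 := Nat.cast_nonneg _
  have q0 : (0 : ℝ) ≤ t.2.2.2 := Nat.cast_nonneg _
  have l0 : ((65536 * t.2.1 + t.2.2.1 * xl + t.2.2.2 * yl : ℕ) : ℝ) ≤ 393216 * kh t x y := by
    have := mul_le_mul_of_nonneg_left X0 p0
    have := mul_le_mul_of_nonneg_left Y0 q0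
    unfold kh; push_cast; linarith
  have l1 : 393216 * kh t x y ≤ ((65536 * t.2.1 + t.2.2.1 * xh + t.2.2.2 * yh : ℕ) : ℝ) := by
    have := mul_le_mul_of_nonneg_left X1 p0
    have := mul_le_mul_of_nonneg_left Y1 q0
    unfold kh; push_cast; linarith
  simp only [lf1, lfL, Bool.or_eq_true, Bool.and_eq_true, Nat.ble_eq, Nat.blt_eq, Nat.beq_eq] at ok
  rcases ok with (((h | h) | ⟨h, h'⟩) | ⟨⟨⟨h1, h2⟩, h3⟩, h4⟩) | ⟨h, ok⟩
  · have : (zh : ℝ) ≤ 8192 := by exact_mod_cast h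
    linarith
  · have : (196608 : ℝ) < _ := lt_of_lt_of_le (by exact_mod_cast h) l0
    linarith
  · have : (yh : ℝ) < xl := by exact_mod_cast h'
    linarith [hs h]
  · have lo : ∀ {u : ℝ} {m n : ℕ}, u ∈ Icc (0 : ℝ) 1 → (m : ℝ) ≤ 65536 * u → 65536 * u ≤ n →
        ((m * (65536 - n) : ℕ) : ℝ) ≤ 2 ^ 32 * (u * (1 - u)) ∧
        2 ^ 32 * (u * (1 - u)) ≤ ((n * (65536 - m) : ℕ) : ℝ) := fun {u m n} hu c1 c2 => by
      have e1 : ((65536 - n : ℕ) : ℝ) ≤ 65536 * (1 - u) :=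
        sub_lo (by linarith [hu.2]) (by push_cast; linarith)
      have e2 : 65536 * (1 - u) ≤ ((65536 - m : ℕ) : ℝ) :=
        le_trans (by push_cast; linarith) (sub_hi _ _)
      have e3 := mul_le_mul c1 e1 (Nat.cast_nonneg _) (by linarith [hu.1])
      have e4 := mul_le_mul c2 e2 (by linarith [hu.2]) (Nat.cast_nonneg _)
      rw [Nat.cast_mul, Nat.cast_mul]
      exact ⟨by linarith, by linarith⟩
    obtain ⟨u1, u2⟩ := lo hx X0 X1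
    obtain ⟨v1, v2⟩ := lo hy Y0 Y1
    generalize xl * (65536 - xh) = A at *
    generalize xh * (65536 - xl) = B at *
    generalize yl * (65536 - yh) = C at *
    generalize yh * (65536 - yl) = D at *
    generalize 65536 * t.2.1 + t.2.2.1 * xl + t.2.2.2 * yl = K at *
    have w1 := mul_le_mul_of_nonneg_left u1 p0
    have w2 := mul_le_mul_of_nonneg_left u2 p0
    have w3 := mul_le_mul_of_nonneg_left v1 q0
    have w4 := mul_le_mul_of_nonneg_left v2 q0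
    have c1 := (Nat.cast_le (α := ℝ)).2 h1
    have c2 := (Nat.cast_le (α := ℝ)).2 h2
    have c3 := (Nat.cast_le (α := ℝ)).2 h3
    have c4 := (Nat.cast_le (α := ℝ)).2 h4
    push_cast at c1 c2 c3 c4
    exact absurd ⟨abs_le.2 ⟨by simp only [st]; linarith, by simp only [st]; linarith⟩,
      by simp only [st]; linarith, by simp only [st]; linarith⟩ hl
  · have zp : 0 < z := by linarith
    have hl : (0 : ℝ) < zl := Nat.cast_pos.2 h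
    have hh : (0 : ℝ) < zh := by linarith
    refine lf2_ok hM hP ht hc zp z1 hx hy k0 k1 hg ?_ ?_ l0 l1 X0 X1 Y0 Y1 ok
    · have e1 : ((65536 - zh : ℕ) : ℝ) ≤ 65536 * (1 - z) :=
        sub_lo (by linarith) (by push_cast; linarith)
      refine (fl _ _ (Nat.cast_pos.1 hh)).1.trans ?_
      rw [sg, ← mul_div_assoc, div_le_div_iff₀ hh zp, Nat.cast_mul, Nat.cast_ofNat]
      have := mul_le_mul e1 Z1 (by positivity) (by linarith)
      linarith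
    · have e2 : 65536 * (1 - z) ≤ ((65536 - zl : ℕ) : ℝ) :=
        le_trans (by push_cast; linarith) (sub_hi _ _)
      rw [Nat.cast_add, Nat.cast_one]
      refine le_trans ?_ (fl _ _ h).2
      rw [sg, ← mul_div_assoc, div_le_div_iff₀ zp hl, Nat.cast_mul, Nat.cast_ofNat]
      have := mul_le_mul e2 Z0 hl.le (Nat.cast_nonneg _)
      linarith

end Pool.Agent.P.MP_2b44f0_gt.PD.Vol
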