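import Pool.Agent.P.MP_2b44f0_gt.PD.VolA
import Pool.Agent.P.MP_2b44f0_gt.PD.TTYP
import Pool.Agent.P.MP_2b44f0_gt.PD.TRED
import Pool.Agent.P.MP_2b44f0_gt.PD.LocF
import Pool.Agent.P.MP_2b44f0_gt.PD.Crude

/-!
From the inequalities for the multiplicity types to the volume inequality.
-/

namespace Pool.Agent.P.MP_2b44f0_gt.PD.Vol

open Pol Set

theorem sum_types : ∀ t ∈ types, t.1 + t.2.1 + t.2.2.1 + t.2.2.2 = 6 := by decide

theorem volT_swap {t : Ty} (h : t.2.2.1 = t.2.2.2) (k k' u v : ℝ) :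
    volT t k k' u v = volT t k k' v u := by
  simp only [volT, h, mul_right_comm _ ((1 + _ * u) ^ _)]

theorem one {F G f : Pol} {t : Ty} (ht : t.1 + t.2.1 + t.2.2.1 + t.2.2.2 = 6)
    (H : ∀ z ∈ Icc (0 : ℝ) 1, ∀ x ∈ Icc (0 : ℝ) 1, ∀ y ∈ Icc (0 : ℝ) 1, Tgt F G f t z x y)
    {S k k' u v : ℝ} (h0 : 0 < k) (hk : k ≤ k') (hu : u ∈ Icc (-k) k') (hv : v ∈ Icc (-k) k')
    (e1 : t.1 * (-k) + t.2.1 * k' + t.2.2.1 * u + t.2.2.2 * v = 0)
    (e2 : t.1 * k ^ 2 + t.2.1 * k' ^ 2 + t.2.2.1 * u ^ 2 + t.2.2.2 * v ^ 2 = S)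
    (huv : t.2.2.1 = t.2.2.2 → u ≤ v) (hz : 1 / 8 < (crd (S, k, k')).1)
    (hl : ¬ Loc (chg (crd (S, k, k')))) :
    volT t k k' u v ≤ 2 / 3 + (Real.pi / 16 - 1 / 6) / 2 ^ 28 *
      ((6 - S) * Ev F G (chg (crd (S, k, k'))) +
        (S - 25 / 4) * ev f (chg (crd (S, k, k'))) ^ 2) := by
  have h6 : (t.1 : ℝ) = 6 - t.2.1 - t.2.2.1 - t.2.2.2 := by
    have : (t.1 : ℝ) + t.2.1 + t.2.2.1 + t.2.2.2 = 6 := by exact_mod_cast ht
    linarith
  rw [h6] at e1 e2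
  obtain ⟨s, hs⟩ : ∃ s, s = k + k' := ⟨_, rfl⟩
  have s0 : 0 < s := by linarith
  have s2 : 0 < 2 + s := by linarith
  obtain rfl : k' = s - k := by linarith
  have ec : crd (S, k, s - k) = (2 / (2 + s), 1 - 2 * (k / s), 2 * S / (3 * s ^ 2)) := by
    simp only [crd, add_sub_cancel]
    refine Prod.ext rfl (Prod.ext ?_ rfl)
    dsimp only
    field_simp
    ring
  rw [ec] at hz hl ⊢
  have ek : kh t ((u + k) / s) ((v + k) / s) = k / s := by
    unfold kh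
    field_simp
    linear_combination e1
  have es : sg (2 / (2 + s)) = s := by
    unfold sg
    field_simp
    ring
  have et : st t (2 / (2 + s)) ((u + k) / s) ((v + k) / s) =
      chg (2 / (2 + s), 1 - 2 * (k / s), 2 * S / (3 * s ^ 2)) := by
    simp only [st, chg, ek]
    refine Prod.ext rfl (Prod.ext rfl ?_)
    dsimp only
    field_simp
    linear_combination (2 * (s - 2 * k)) * e1 - 2 * e2
  have z0 : 0 < 2 / (2 + s) := by positivity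
  have z1 : 2 / (2 + s) < 1 := by rw [div_lt_one s2]; linarith
  have mem : ∀ a ∈ Icc (-k) (s - k), (a + k) / s ∈ Icc (0 : ℝ) 1 := fun a ha =>
    ⟨div_nonneg (by linarith [ha.1]) s0.le, by rw [div_le_one s0]; linarith [ha.2]⟩
  have h := H _ ⟨z0.le, z1.le⟩ _ (mem u hu) _ (mem v hv) hz z1 (by rw [ek]; positivity)
    (by rw [ek, div_le_iff₀ s0]; linarith)
    (fun e => div_le_div_of_nonneg_right (by linarith [huv e]) s0.le) (by rwa [et])
  rw [ek, es, et, show s * (k / s) = k by field_simp, show s * (1 - k / s) = s - k by field_simp,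
    show s * ((u + k) / s - k / s) = u by field_simp; ring,
    show s * ((v + k) / s - k / s) = v by field_simp; ring] at h
  have er : Rv F G f (2 / (2 + s)) (chg (2 / (2 + s), 1 - 2 * (k / s), 2 * S / (3 * s ^ 2))) =
      ((6 - S) * Ev F G (chg (2 / (2 + s), 1 - 2 * (k / s), 2 * S / (3 * s ^ 2))) +
        (S - 25 / 4) * ev f (chg (2 / (2 + s), 1 - 2 * (k / s), 2 * S / (3 * s ^ 2))) ^ 2) *
        (2 / (2 + s)) ^ 6 := by
    unfold Rv
    generalize Ev F G _ = A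
    generalize ev f _ = B
    simp only [chg, sub_sub_cancel]
    field_simp
    ring
  rw [er, ← mul_assoc, ← add_mul] at h
  exact le_of_mul_le_mul_right h (by positivity)

theorem glue {F G f : Pol}
    (H : ∀ t ∈ types, ∀ z ∈ Icc (0 : ℝ) 1, ∀ x ∈ Icc (0 : ℝ) 1, ∀ y ∈ Icc (0 : ℝ) 1,
      Tgt F G f t z x y) {μ : Fin (2 * 3) → ℝ} {w : W} (hw : Adm (2 * 3) μ w)
    (hk : w.2.1 ≤ w.2.2) (hz : 1 / 8 < (crd w).1) (hl : ¬ Loc (chg (crd w))) :
    vol 3 μ w.2.1 w.2.2 ≤ 2 / 3 + (Real.pi / 16 - 1 / 6) / 2 ^ 28 *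
      ((6 - w.1) * (3 * (crd w).2.2 * ev F (chg (crd w)) +
        (1 - (crd w).2.1) / 2 * ev G (chg (crd w)) +
        (1 + (crd w).2.1) / 2 * ev (rf G) (chg (crd w))) +
        (w.1 - 25 / 4) * ev f (chg (crd w)) ^ 2) := by
  obtain ⟨t, ht, u, hu, v, hv, e1, e2, e3⟩ := c_TYP c_RED w.2.1 w.2.2 μ fun i =>
    ⟨by linarith [hw.lo i], by linarith [hw.hi i]⟩
  rw [hw.sum] at e1
  rw [hw.sq] at e2
  have eE : 3 * (crd w).2.2 * ev F (chg (crd w)) + (1 - (crd w).2.1) / 2 * ev G (chg (crd w)) +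
      (1 + (crd w).2.1) / 2 * ev (rf G) (chg (crd w)) = Ev F G (chg (crd w)) := by
    unfold Ev
    generalize ev F _ = A
    generalize ev G _ = B
    generalize ev (rf G) _ = C
    simp only [chg, sub_sub_cancel]
  rw [eE]
  refine e3.trans ?_
  by_cases c : t.2.2.1 = t.2.2.2 → u ≤ v
  · exact one (sum_types t ht) (H t ht) hw.k1 hk hu hv e1 e2 c hz hl
  · obtain ⟨c1, c2⟩ := Classical.not_imp.1 c
    rw [volT_swap c1]
    refine one (sum_types t ht) (H t ht) hw.k1 hk hv hu ?_ ?_ (fun _ => (not_le.1 c2).le) hz hl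
    · rw [c1] at e1 ⊢; linarith
    · rw [c1] at e2 ⊢; linarith

/-- the volume inequality of the certificate -/
theorem hvol (H : ∀ t ∈ types, ∀ z ∈ Icc (0 : ℝ) 1, ∀ x ∈ Icc (0 : ℝ) 1, ∀ y ∈ Icc (0 : ℝ) 1,
      Tgt cF cG cf t z x y) (μ : Fin (2 * 3) → ℝ) (w : W) (hw : Adm (2 * 3) μ w)
    (hk : w.2.1 ≤ w.2.2) :
    vol 3 μ w.2.1 w.2.2 ≤ 2 / 3 + (Real.pi / 16 - 1 / 6) / 2 ^ 28 *
      ((6 - w.1) * (3 * (crd w).2.2 * ev cF (chg (crd w)) +
        (1 - (crd w).2.1) / 2 * ev cG (chg (crd w)) +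
        (1 + (crd w).2.1) / 2 * ev (rf cG) (chg (crd w))) +
        (w.1 - 25 / 4) * ev cf (chg (crd w)) ^ 2) := by
  rcases le_or_gt (crd w).1 (1 / 8) with hz | hz
  · exact vol_crude μ w hw hk hz
  by_cases hl : Loc (chg (crd w))
  · have h := abs_le.1 hl.1
    exact vol_loc hw hk (by linarith [h.1]) (by linarith [h.2]) hl.2.1 hl.2.2
  · exact glue H hw hk hz hl

/-- the certificate from the two families of checks -/
theorem cert (H : ∀ t ∈ types, ∀ z ∈ Icc (0 : ℝ) 1, ∀ x ∈ Icc (0 : ℝ) 1, ∀ y ∈ Icc (0 : ℝ) 1,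
      Tgt cF cG cf t z x y)
    (lmi : ∀ u l, Dom u l → 0 ≤ u.2.1 → 0 ≤ ev cF (chg u) ∧ 0 < ev cG (chg u) ∧
      0 < ev (rf cG) (chg u) ∧ Good cF cG (rf cG) cf u l) :
    ∃ A₀ A₁ A₂ g, CertU (2 / 3) A₀ A₁ A₂ g :=
  CertU.of_pol (ψ := (Real.pi / 16 - 1 / 6) / 2 ^ 28)
    (div_pos (by linarith [Real.pi_gt_three]) (by positivity)) (by decide +kernel)
    (by decide +kernel) lmi (hvol H)

end Pool.Agent.P.MP_2b44f0_gt.PD.Vol
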