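import Pool.Agent.P.MP_2b44f0_gt.PD.VolC
import Pool.Agent.P.MP_2b44f0_gt.PD.Scal
import Pool.Agent.P.MP_2b44f0_gt.PD.Crude

/-!
Parameters of the kernel check of the volume inequality.
-/

namespace Pool.Agent.P.MP_2b44f0_gt.PD.Vol

open Bn Pol Set

/-- the parameters -/
def par : Par := ⟨82, 10, 10, 10, 9, 2615000000000⟩

/-- the approximate moments -/
def mom (j n : ℕ) : ℤ := Mj j n (At n)

theorem mom_ok : Mok mom := fun j hj n => (Mj_bd j n hj).trans (by norm_num)

/-- the arrays on the unit cube -/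
def rt (t : Ty) : ℕ := root par 128 40 (arrs (par.wd 128) cF cG PD.cf t)

/-- the range check on the unit cube -/
def rok (t : Ty) : Bool :=
  Nat.beq (t.1 + t.2.1 + t.2.2.1 + t.2.2.2) 6 && rootOk par 128 40 (arrs (par.wd 128) cF cG PD.cf t)

/-- the state at the end of a path -/
def wlk (N : ℕ) : List (ℕ × Bool) → ℕ
  | [] => N
  | d :: p => cond d.2 (sp par d.1 (wlk N p)).2 (sp par d.1 (wlk N p)).1

/-- the box at the end of a path -/
def bxw : List (ℕ × Bool) → Bx
  | [] => ⟨0, 0, 0, 0, 0, 0⟩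
  | d :: p => cond d.2 ((bxw p).r d.1) ((bxw p).l d.1)

/-- the property holds on the box at the end of a path -/
def On (t : Ty) (p : List (ℕ × Bool)) : Prop :=
  Good2 par (Q cF cG PD.cf t) (wlk (rt t) p) (p.length * par.de + 1) (bxw p)

theorem On.glue {t : Ty} {a : ℕ} {p : List (ℕ × Bool)}
    (h1 : On t ((a, false) :: p)) (h2 : On t ((a, true) :: p)) : On t p := by
  unfold On at *
  rw [List.length_cons, Nat.succ_mul, Nat.add_right_comm] at h1 h2
  exact Good2.split a h1 h2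

/-- the check of one piece -/
def pc (t : Ty) (p : List (ℕ × Bool)) (c : ℕ) : Bool :=
  run2 par (leaf par mom t) (dec 60 c).1 (wlk (rt t) p) (p.length * par.de + 1) (bxw p)

theorem rok_sum {t : Ty} (h : rok t = true) : t.1 + t.2.1 + t.2.2.1 + t.2.2.2 = 6 := by
  simp only [rok, Bool.and_eq_true, Nat.beq_eq] at h
  exact h.1

theorem pc_ok {t : Ty} (k : rok t = true) {p : List (ℕ × Bool)} {c : ℕ} (h : pc t p c = true) :
    On t p := run2_sound (leaf_ok mom_ok rfl _ _ _ (rok_sum k)) _ _ _ _ h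

theorem On.top {t : Ty} (k : rok t = true) (h : On t []) : ∀ z ∈ Icc (0 : ℝ) 1,
    ∀ x ∈ Icc (0 : ℝ) 1, ∀ y ∈ Icc (0 : ℝ) 1, Tgt cF cG PD.cf t z x y := fun z hz x hx y hy => by
  simp only [rok, Bool.and_eq_true] at k
  simp only [On, wlk, bxw, List.length_nil, Nat.zero_mul, Nat.zero_add] at h
  exact Good2.root (fun a _ => rel_arrs _ Crude.deg t a) k.2 h hz hx hy hx hy fun _ => rfl

end Pool.Agent.P.MP_2b44f0_gt.PD.Vol
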